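import Mathlib

/-! Project CX (MP_1b299f_mp): basic definitions. -/

set_option autoImplicit false

open MeasureTheory

noncomputable section

namespace Pool.Agent.Lib.CX

/-- three-dimensional space -/
abbrev R3 : Type := EuclideanSpace ℝ (Fin 3)

/-- configuration space of `n` particles -/
abbrev X (n : ℕ) : Type := Fin n → R3

/-- the `k`-th unit vector of `R3` -/
def e3 (k : Fin 3) : R3 := EuclideanSpace.single k (1 : ℝ)

/-- the `k`-th unit vector of particle `i` -/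
def ed {n : ℕ} (i : Fin n) (k : Fin 3) : X n := Pi.single i (e3 k)

/-- squared gradient of a one-particle function -/
def gsq (f : R3 → ℝ) (x : R3) : ℝ := ∑ k : Fin 3, (fderiv ℝ f x (e3 k)) ^ 2

/-- real antisymmetric test functions of `n` spin one half particles -/
structure Adm (n : ℕ) (ψ : (Fin n → Fin 2) → X n → ℝ) : Prop where
  smooth : ∀ s, ContDiff ℝ (⊤ : ℕ∞) (ψ s)
  cpt : ∀ s, HasCompactSupport (ψ s)
  anti : ∀ (σ : Equiv.Perm (Fin n)) (s : Fin n → Fin 2) (x : X n),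
    ψ (s ∘ σ) (x ∘ σ) = (((Equiv.Perm.sign σ : ℤˣ) : ℤ) : ℝ) * ψ s x

variable {n : ℕ}

/-- squared norm -/
def nrm (ψ : (Fin n → Fin 2) → X n → ℝ) : ℝ := ∑ s, ∫ x, (ψ s x) ^ 2

/-- kinetic energy density -/
def kind (f : X n → ℝ) (x : X n) : ℝ := ∑ i : Fin n, ∑ k : Fin 3, (fderiv ℝ f x (ed i k)) ^ 2

/-- nuclear attraction potential (charge one, without sign) -/
def attd (x : X n) : ℝ := ∑ i : Fin n, 1 / ‖x i‖

/-- electron repulsion -/
def repd (x : X n) : ℝ := ∑ i : Fin n, ∑ j : Fin n, if i < j then 1 / ‖x i - x j‖ else 0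

/-- kinetic energy -/
def kin (ψ : (Fin n → Fin 2) → X n → ℝ) : ℝ := ∑ s, ∫ x, kind (ψ s) x

/-- attraction -/
def att (ψ : (Fin n → Fin 2) → X n → ℝ) : ℝ := ∑ s, ∫ x, attd x * (ψ s x) ^ 2

/-- repulsion -/
def rep (ψ : (Fin n → Fin 2) → X n → ℝ) : ℝ := ∑ s, ∫ x, repd x * (ψ s x) ^ 2

/-- energy with nuclear charge one and coupling `t` between the electrons -/
def en (t : ℝ) (ψ : (Fin n → Fin 2) → X n → ℝ) : ℝ := kin ψ - att ψ + t * rep ψ

/-- energies of normalised test functions -/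
def eSet (n : ℕ) (t : ℝ) : Set ℝ := {e : ℝ | ∃ ψ, Adm n ψ ∧ nrm ψ = 1 ∧ e = en t ψ}

/-- ground state energy with nuclear charge one and coupling `t` -/
def eps (n : ℕ) (t : ℝ) : ℝ := sInf (eSet n t)

/-- energies of normalised complex test functions of `N` electrons, nuclear charge `Z` -/
def FSet (N : ℕ) (Z : ℝ) : Set ℝ :=
  {e : ℝ | ∃ ψ : (Fin N → Fin 2) → EuclideanSpace ℝ (Fin N × Fin 3) → ℂ,
    (∀ s, ContDiff ℝ (⊤ : ℕ∞) (ψ s) ∧ HasCompactSupport (ψ s)) ∧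
    (∀ (σ : Equiv.Perm (Fin N)) (s : Fin N → Fin 2) (x : EuclideanSpace ℝ (Fin N × Fin 3)),
      ψ (s ∘ σ) (WithLp.toLp 2 (fun p : Fin N × Fin 3 => WithLp.ofLp x (σ p.1, p.2)))
        = (((Equiv.Perm.sign σ : ℤˣ) : ℤ) : ℂ) * ψ s x) ∧
    (∑ s, ∫ x, ‖ψ s x‖ ^ 2) = 1 ∧
    e = ∑ s, ∫ x,
      ((∑ j : Fin N × Fin 3, ‖fderiv ℝ (ψ s) x (EuclideanSpace.single j (1 : ℝ))‖ ^ 2)
        + ((∑ i : Fin N, ∑ j : Fin N,
              if i < j then 1 / Real.sqrt (∑ k : Fin 3, (WithLp.ofLp x (i, k) - WithLp.ofLp x (j, k)) ^ 2) else 0)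
            - ∑ i : Fin N, Z / Real.sqrt (∑ k : Fin 3, (WithLp.ofLp x (i, k)) ^ 2)) * ‖ψ s x‖ ^ 2)}

end Pool.Agent.Lib.CX
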