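import Mathlib
import Pool.Agent.Lib.CX.Basic

/-! CX task A1: integrability of the Coulomb weights against continuous compactly supported
functions. -/

set_option autoImplicit false

open MeasureTheory Set

noncomputable section

namespace Pool.Agent.Lib.CX

variable {n : ℕ}

/-- integrability is invariant under linear equivalences -/
private theorem integrable_comp_equiv {E : Type} [NormedAddCommGroup E] [NormedSpace ℝ E]
    [MeasurableSpace E] [BorelSpace E] [FiniteDimensional ℝ E] (μ : Measure E)
    [μ.IsAddHaarMeasure] (T : E ≃L[ℝ] E) {g : E → ℝ} (hg : Integrable g μ) :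
    Integrable (g ∘ T) μ := by
  have h1 : (Measure.map T μ).IsAddHaarMeasure := T.isAddHaarMeasure_map μ
  have h2 := Measure.isAddLeftInvariant_eq_smul (Measure.map T μ) μ
  have h3 : Integrable g (Measure.map T μ) := by
    rw [h2]
    exact hg.smul_measure_nnreal
  exact (T.toHomeomorph.measurableEmbedding.integrable_map_iff).1 h3

/-- bounds for a continuous function with compact support -/
private theorem exists_box {E : Type} [NormedAddCommGroup E] {f : E → ℝ} (hf : Continuous f)
    (hc : HasCompactSupport f) : ∃ C R : ℝ, 0 ≤ C ∧ (∀ x, |f x| ≤ C) ∧ ∀ x, f x ≠ 0 → ‖x‖ ≤ R := by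
  obtain ⟨C, hC⟩ := hc.exists_bound_of_continuous hf
  obtain ⟨R, hR⟩ := hc.isCompact.isBounded.exists_norm_le
  exact ⟨C, R, (norm_nonneg _).trans (hC 0), hC, fun x hx => hR x (subset_tsupport f hx)⟩

/-- the singular weight on a ball -/
private def wB (R : ℝ) (x : R3) : ℝ := (Metric.closedBall (0 : R3) R).indicator (fun x => 1 / ‖x‖) x

/-- the indicator of a ball -/
private def iB (R : ℝ) (x : R3) : ℝ := (Metric.closedBall (0 : R3) R).indicator (fun _ => 1) x

private theorem integrable_wB (R : ℝ) : Integrable (wB R) := by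
  have h1 : LocallyIntegrable (fun x : R3 => 1 / ‖x‖) := by
    refine locallyIntegrable_of_norm_le_rpow (μ := (volume : Measure R3)) (C := 1) (α := 1) ?_ ?_
      ?_ ?_
    · rw [finrank_euclideanSpace_fin]; norm_num
    · rw [finrank_euclideanSpace_fin]; norm_num
    · refine Filter.Eventually.of_forall fun x => ?_
      rw [Real.rpow_neg_one, one_mul, norm_div, norm_one, norm_norm, one_div]
    · exact (Measurable.aestronglyMeasurable (by fun_prop))
  have h2 := (h1.integrableOn_isCompact (isCompact_closedBall (0 : R3) R)).integrable_indicator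
    Metric.isClosed_closedBall.measurableSet
  exact h2

private theorem integrable_iB (R : ℝ) : Integrable (iB R) := by
  unfold iB
  rw [integrable_indicator_iff Metric.isClosed_closedBall.measurableSet]
  exact integrableOn_const (isCompact_closedBall (0 : R3) R).measure_lt_top.ne

private theorem wB_of_le {R : ℝ} {x : R3} (h : ‖x‖ ≤ R) : wB R x = 1 / ‖x‖ := by
  unfold wB
  rw [indicator_of_mem (mem_closedBall_zero_iff.2 h)]

private theorem iB_of_le {R : ℝ} {x : R3} (h : ‖x‖ ≤ R) : iB R x = 1 := by
  unfold iB
  rw [indicator_of_mem (mem_closedBall_zero_iff.2 h)]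

private theorem wB_nonneg (R : ℝ) (x : R3) : 0 ≤ wB R x := by
  unfold wB
  exact indicator_nonneg (fun x _ => by positivity) x

private theorem iB_nonneg (R : ℝ) (x : R3) : 0 ≤ iB R x := by
  unfold iB
  exact indicator_nonneg (fun x _ => by positivity) x

theorem integrable_inv_norm {f : R3 → ℝ} (hf : Continuous f) (hc : HasCompactSupport f) :
    Integrable (fun x => 1 / ‖x‖ * f x) := by
  obtain ⟨C, R, hC, h1, h2⟩ := exists_box hf hc
  refine ((integrable_wB R).const_mul C).mono' ?_ (Filter.Eventually.of_forall fun x => ?_)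
  · exact (Measurable.aestronglyMeasurable (by fun_prop)).mul hf.aestronglyMeasurable
  · rw [norm_mul, Real.norm_eq_abs, Real.norm_eq_abs, abs_of_nonneg (by positivity)]
    rcases eq_or_ne (f x) 0 with h | h
    · rw [h, abs_zero, mul_zero]
      exact mul_nonneg hC (wB_nonneg R x)
    · rw [wB_of_le (h2 x h), mul_comm]
      exact mul_le_mul_of_nonneg_right (h1 x) (by positivity)

theorem integrable_inv_coord {f : X n → ℝ} (hf : Continuous f) (hc : HasCompactSupport f)
    (i : Fin n) : Integrable (fun x => 1 / ‖x i‖ * f x) := by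
  obtain ⟨C, R, hC, h1, h2⟩ := exists_box hf hc
  have h3 : Integrable (fun x : X n => ∏ j, (if j = i then wB R else iB R) (x j)) := by
    apply Integrable.fintype_prod (f := fun j => if j = i then wB R else iB R)
    intro j
    split_ifs
    · exact integrable_wB R
    · exact integrable_iB R
  refine (h3.const_mul C).mono' ?_ (Filter.Eventually.of_forall fun x => ?_)
  · exact (Measurable.aestronglyMeasurable (by fun_prop)).mul hf.aestronglyMeasurable
  · rw [norm_mul, Real.norm_eq_abs, Real.norm_eq_abs, abs_of_nonneg (by positivity)]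
    rcases eq_or_ne (f x) 0 with h | h
    · rw [h, abs_zero, mul_zero]
      refine mul_nonneg hC (Finset.prod_nonneg fun j _ => ?_)
      split_ifs
      · exact wB_nonneg R _
      · exact iB_nonneg R _
    · have h4 : ∀ j, ‖x j‖ ≤ R := fun j => (norm_le_pi_norm x j).trans (h2 x h)
      have h5 : ∏ j, (if j = i then wB R else iB R) (x j) = 1 / ‖x i‖ := by
        rw [Finset.prod_eq_single i]
        · rw [if_pos rfl, wB_of_le (h4 i)]
        · intro j _ hj
          rw [if_neg hj, iB_of_le (h4 j)]
        · intro hi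
          exact absurd (Finset.mem_univ i) hi
      rw [h5, mul_comm]
      exact mul_le_mul_of_nonneg_right (h1 x) (by positivity)

/-- the linear involution `x i ↦ x j - x i` -/
private def shear (i j : Fin n) (hij : i ≠ j) : X n ≃ₗ[ℝ] X n :=
  LinearEquiv.ofInvolutive
    { toFun := fun x k => if k = i then x j - x i else x k
      map_add' := fun x y => by
        funext k
        simp only [Pi.add_apply]
        split_ifs
        · abel
        · rfl
      map_smul' := fun c x => by
        funext k
        simp only [Pi.smul_apply, RingHom.id_apply]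
        split_ifs
        · rw [smul_sub]
        · rfl }
    (fun x => by
      funext k
      change (if k = i then (if j = i then x j - x i else x j) - (if i = i then x j - x i else x i)
        else (if k = i then x j - x i else x k)) = x k
      rw [if_neg hij.symm, if_pos rfl]
      split_ifs with h
      · rw [h]; abel
      · rfl)

private theorem shear_self (i j : Fin n) (hij : i ≠ j) (x : X n) :
    shear i j hij x i = x j - x i := if_pos rfl

private theorem shear_shear (i j : Fin n) (hij : i ≠ j) (x : X n) :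
    shear i j hij (shear i j hij x) = x := (shear i j hij).left_inv x

theorem integrable_inv_sub {f : X n → ℝ} (hf : Continuous f) (hc : HasCompactSupport f)
    {i j : Fin n} (hij : i ≠ j) : Integrable (fun x => 1 / ‖x i - x j‖ * f x) := by
  obtain ⟨T, hT⟩ : ∃ T : X n ≃L[ℝ] X n, T = (shear i j hij).toContinuousLinearEquiv := ⟨_, rfl⟩
  have hT1 : ∀ x, T x i = x j - x i := fun x => by rw [hT]; exact shear_self i j hij x
  have hT2 : ∀ x, T (T x) = x := fun x => by rw [hT]; exact shear_shear i j hij x
  have h1 := integrable_inv_coord (f := f ∘ T) (hf.comp T.continuous)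
    (hc.comp_homeomorph T.toHomeomorph) i
  have h2 := integrable_comp_equiv (volume : Measure (X n)) T h1
  refine h2.congr (Filter.Eventually.of_forall fun x => ?_)
  change 1 / ‖T x i‖ * f (T (T x)) = _
  rw [hT1, hT2, norm_sub_rev]

theorem integrable_attd {f : X n → ℝ} (hf : Continuous f) (hc : HasCompactSupport f) :
    Integrable (fun x => attd x * f x) := by
  unfold attd
  simp only [Finset.sum_mul]
  exact integrable_finsetSum _ fun i _ => integrable_inv_coord hf hc i

theorem integrable_repd {f : X n → ℝ} (hf : Continuous f) (hc : HasCompactSupport f) :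
    Integrable (fun x => repd x * f x) := by
  unfold repd
  simp only [Finset.sum_mul]
  refine integrable_finsetSum _ fun i _ => integrable_finsetSum _ fun j _ => ?_
  by_cases h : i < j
  · simp only [if_pos h]
    exact integrable_inv_sub hf hc h.ne
  · simp only [if_neg h, zero_mul]
    exact integrable_zero _ _ _

theorem integrable_prod_fst {f : R3 × R3 → ℝ} (hf : Continuous f) (hc : HasCompactSupport f) :
    Integrable (fun p => 1 / ‖p.1‖ * f p) := by
  obtain ⟨C, R, hC, h1, h2⟩ := exists_box hf hc
  have h3 : Integrable (fun p : R3 × R3 => wB R p.1 * iB R p.2) :=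
    (integrable_wB R).mul_prod (integrable_iB R)
  refine (h3.const_mul C).mono' ?_ (Filter.Eventually.of_forall fun x => ?_)
  · exact (Measurable.aestronglyMeasurable (by fun_prop)).mul hf.aestronglyMeasurable
  · rw [norm_mul, Real.norm_eq_abs, Real.norm_eq_abs, abs_of_nonneg (by positivity)]
    rcases eq_or_ne (f x) 0 with h | h
    · rw [h, abs_zero, mul_zero]
      exact mul_nonneg hC (mul_nonneg (wB_nonneg R _) (iB_nonneg R _))
    · rw [wB_of_le ((norm_fst_le x).trans (h2 x h)), iB_of_le ((norm_snd_le x).trans (h2 x h)),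
        mul_one, mul_comm]
      exact mul_le_mul_of_nonneg_right (h1 x) (by positivity)

theorem integrable_prod_snd {f : R3 × R3 → ℝ} (hf : Continuous f) (hc : HasCompactSupport f) :
    Integrable (fun p => 1 / ‖p.2‖ * f p) := by
  obtain ⟨C, R, hC, h1, h2⟩ := exists_box hf hc
  have h3 : Integrable (fun p : R3 × R3 => iB R p.1 * wB R p.2) :=
    (integrable_iB R).mul_prod (integrable_wB R)
  refine (h3.const_mul C).mono' ?_ (Filter.Eventually.of_forall fun x => ?_)
  · exact (Measurable.aestronglyMeasurable (by fun_prop)).mul hf.aestronglyMeasurable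
  · rw [norm_mul, Real.norm_eq_abs, Real.norm_eq_abs, abs_of_nonneg (by positivity)]
    rcases eq_or_ne (f x) 0 with h | h
    · rw [h, abs_zero, mul_zero]
      exact mul_nonneg hC (mul_nonneg (iB_nonneg R _) (wB_nonneg R _))
    · rw [wB_of_le ((norm_snd_le x).trans (h2 x h)), iB_of_le ((norm_fst_le x).trans (h2 x h)),
        one_mul, mul_comm]
      exact mul_le_mul_of_nonneg_right (h1 x) (by positivity)

private theorem haar_prod : (volume : Measure (R3 × R3)).IsAddHaarMeasure := by
  rw [Measure.volume_eq_prod]
  infer_instance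

/-- the linear involution `(a, b) ↦ (b - a, b)` -/
private def shearP : (R3 × R3) ≃ₗ[ℝ] (R3 × R3) :=
  LinearEquiv.ofInvolutive
    ((LinearMap.snd ℝ R3 R3 - LinearMap.fst ℝ R3 R3).prod (LinearMap.snd ℝ R3 R3))
    (fun p => by
      ext1
      · change p.2 - (p.2 - p.1) = p.1
        abel
      · rfl)

theorem integrable_prod_sub {f : R3 × R3 → ℝ} (hf : Continuous f) (hc : HasCompactSupport f) :
    Integrable (fun p => 1 / ‖p.1 - p.2‖ * f p) := by
  have hh := haar_prod
  obtain ⟨T, hT⟩ : ∃ T : (R3 × R3) ≃L[ℝ] (R3 × R3), T = shearP.toContinuousLinearEquiv :=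
    ⟨_, rfl⟩
  have hT1 : ∀ x, (T x).1 = x.2 - x.1 := fun x => by rw [hT]; rfl
  have hT2 : ∀ x, T (T x) = x := fun x => by rw [hT]; exact shearP.left_inv x
  have h1 := integrable_prod_fst (f := f ∘ T) (hf.comp T.continuous)
    (hc.comp_homeomorph T.toHomeomorph)
  have h2 := integrable_comp_equiv (volume : Measure (R3 × R3)) T h1
  refine h2.congr (Filter.Eventually.of_forall fun x => ?_)
  change 1 / ‖(T x).1‖ * f (T (T x)) = _
  rw [hT1, hT2, norm_sub_rev]

/-- coincidence set has measure zero -/
theorem ae_ne {i j : Fin n} (hij : i ≠ j) : ∀ᵐ x : X n, x i ≠ x j := by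
  obtain ⟨L, hL⟩ : ∃ L : X n →ₗ[ℝ] R3,
      L = (LinearMap.proj i : X n →ₗ[ℝ] R3) - (LinearMap.proj j : X n →ₗ[ℝ] R3) := ⟨_, rfl⟩
  have h1 : LinearMap.ker L ≠ ⊤ := by
    intro h
    have h2 : ed i 0 ∈ LinearMap.ker L := by rw [h]; trivial
    rw [LinearMap.mem_ker, hL] at h2
    have h3 : (ed i 0 : X n) i - (ed i 0 : X n) j = 0 := h2
    unfold ed at h3
    rw [Pi.single_eq_same, Pi.single_eq_of_ne hij.symm, sub_zero] at h3
    unfold e3 at h3
    have h4 := congrArg (fun v : R3 => ‖v‖) h3
    simp at h4
  have h2 := Measure.addHaar_submodule (volume : Measure (X n)) (LinearMap.ker L) h1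
  rw [ae_iff]
  refine measure_mono_null ?_ h2
  intro x hx
  change ¬ x i ≠ x j at hx
  rw [not_not] at hx
  change x ∈ LinearMap.ker L
  rw [LinearMap.mem_ker, hL]
  change x i - x j = 0
  rw [hx, sub_self]

theorem ae_prod_ne : ∀ᵐ p : R3 × R3, p.1 ≠ p.2 := by
  have hh := haar_prod
  obtain ⟨L, hL⟩ : ∃ L : (R3 × R3) →ₗ[ℝ] R3, L = LinearMap.fst ℝ R3 R3 - LinearMap.snd ℝ R3 R3 :=
    ⟨_, rfl⟩
  have h1 : LinearMap.ker L ≠ ⊤ := by
    intro h
    have h2 : ((e3 0, 0) : R3 × R3) ∈ LinearMap.ker L := by rw [h]; trivial
    rw [LinearMap.mem_ker, hL] at h2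
    have h3 : e3 0 - (0 : R3) = 0 := h2
    rw [sub_zero] at h3
    unfold e3 at h3
    have h4 := congrArg (fun v : R3 => ‖v‖) h3
    simp at h4
  have h2 := Measure.addHaar_submodule (volume : Measure (R3 × R3)) (LinearMap.ker L) h1
  rw [ae_iff]
  refine measure_mono_null ?_ h2
  intro x hx
  change ¬ x.1 ≠ x.2 at hx
  rw [not_not] at hx
  change x ∈ LinearMap.ker L
  rw [LinearMap.mem_ker, hL]
  change x.1 - x.2 = 0
  rw [hx, sub_self]

end Pool.Agent.Lib.CX
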