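import Mathlib
import Pool.Agent.Lib.CX.Basic
import Pool.Agent.Lib.CX.Integ

/-! CX task A3: integration by parts against a smooth vector field and the ground state bound of
the hydrogen atom. -/

set_option autoImplicit false

open MeasureTheory Set

noncomputable section

namespace Pool.Agent.Lib.CX

/-- the integral of a partial derivative of a compactly supported function vanishes -/
theorem integral_partial_eq_zero {g : R3 → ℝ} (hg : ContDiff ℝ 1 g) (hc : HasCompactSupport g)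
    (k : Fin 3) : ∫ x, fderiv ℝ g x (e3 k) = 0 := by
  have hcont : Continuous (fun x => fderiv ℝ g x (e3 k)) :=
    (hg.continuous_fderiv one_ne_zero).clm_apply continuous_const
  have hcs : HasCompactSupport (fun x => fderiv ℝ g x (e3 k)) :=
    (hc.fderiv ℝ).comp_left (g := fun L : R3 →L[ℝ] ℝ => L (e3 k)) rfl
  have h1 : Integrable (fun x => fderiv ℝ g x (e3 k)) :=
    hcont.integrable_of_hasCompactSupport hcs
  have h2 : Integrable g := hg.continuous.integrable_of_hasCompactSupport hc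
  have h := integral_mul_fderiv_eq_neg_fderiv_mul_of_integrable (μ := (volume : Measure R3))
    (f := fun _ : R3 => (1 : ℝ)) (g := g) (v := e3 k) (by simp) (by simpa using h1)
    (by simpa using h2) (fun x _ => differentiableAt_const _)
    (fun x _ => hg.differentiable one_ne_zero x)
  simpa using h

namespace HydA

/-- the regularised inverse distance -/
def sg (k : ℝ) (x : R3) : ℝ := (Real.sqrt (‖x‖ ^ 2 + k ^ 2))⁻¹

lemma sg_pos {k : ℝ} (hk : 0 < k) (x : R3) : 0 < sg k x := by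
  unfold sg
  positivity

lemma sg_sq {k : ℝ} (hk : 0 < k) (x : R3) : sg k x ^ 2 * (‖x‖ ^ 2 + k ^ 2) = 1 := by
  unfold sg
  rw [inv_pow, Real.sq_sqrt (by positivity)]
  exact inv_mul_cancel₀ (by positivity)

lemma contDiff_sg {k : ℝ} (hk : 0 < k) : ContDiff ℝ 1 (sg k) := by
  unfold sg
  exact ((((contDiff_norm_sq ℝ).add contDiff_const).sqrt (fun x => by positivity)).inv
    (fun x => by positivity))

lemma sg_le (k : ℝ) {x : R3} (hx : x ≠ 0) : sg k x ≤ 1 / ‖x‖ := by
  unfold sg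
  rw [← one_div]
  have h1 : 0 < ‖x‖ := norm_pos_iff.2 hx
  refine one_div_le_one_div_of_le h1 ?_
  exact Real.le_sqrt_of_sq_le (by nlinarith [sq_nonneg k])

lemma hasFDerivAt_sg {k : ℝ} (hk : 0 < k) (x : R3) :
    HasFDerivAt (sg k) ((-(sg k x) ^ 3) • innerSL ℝ x) x := by
  have hs : ‖x‖ ^ 2 + k ^ 2 ≠ 0 := by positivity
  have hs' : Real.sqrt (‖x‖ ^ 2 + k ^ 2) ≠ 0 := by positivity
  have h1 : HasFDerivAt (fun y : R3 => ‖y‖ ^ 2 + k ^ 2) (2 • innerSL ℝ x) x :=
    (hasStrictFDerivAt_norm_sq x).hasFDerivAt.add_const _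
  have h2 := ((Real.hasDerivAt_sqrt hs).inv hs').comp_hasFDerivAt x h1
  refine (h2.congr_fderiv ?_)
  ext v
  simp only [sg, smul_apply, smul_eq_mul, nsmul_eq_mul]
  field_simp
  push_cast
  ring

lemma inner_e3 (x : R3) (j : Fin 3) : innerSL ℝ x (e3 j) = x j := by
  rw [innerSL_apply_apply]
  unfold e3
  rw [EuclideanSpace.inner_single_right]
  simp

lemma norm_sq_coord (x : R3) : ‖x‖ ^ 2 = ∑ j : Fin 3, x j ^ 2 := by
  rw [EuclideanSpace.norm_sq_eq]
  exact Finset.sum_congr rfl fun j _ => by rw [Real.norm_eq_abs, sq_abs]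

/-- the components of the vector field `x f² / ρ` -/
def vf (k : ℝ) (f : R3 → ℝ) (j : Fin 3) (y : R3) : ℝ := y j * sg k y * (f y) ^ 2

lemma contDiff_vf {k : ℝ} (hk : 0 < k) {f : R3 → ℝ} (hf : ContDiff ℝ 1 f) (j : Fin 3) :
    ContDiff ℝ 1 (vf k f j) := by
  unfold vf
  exact (((EuclideanSpace.proj (𝕜 := ℝ) j).contDiff).mul (contDiff_sg hk)).mul (hf.pow 2)

lemma cpt_vf {k : ℝ} {f : R3 → ℝ} (hc : HasCompactSupport f) (j : Fin 3) :
    HasCompactSupport (vf k f j) := by
  unfold vf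
  have h1 : HasCompactSupport (fun y => (f y) ^ 2) :=
    hc.comp_left (g := fun t : ℝ => t ^ 2) (by norm_num)
  exact h1.mul_left

lemma fderiv_vf {k : ℝ} (hk : 0 < k) {f : R3 → ℝ} (hf : ContDiff ℝ 1 f) (j : Fin 3) (x : R3) :
    fderiv ℝ (vf k f j) x (e3 j) = (sg k x - x j ^ 2 * sg k x ^ 3) * (f x) ^ 2
      + 2 * (x j * sg k x * f x * fderiv ℝ f x (e3 j)) := by
  have h1 : HasFDerivAt (fun y : R3 => y j) (EuclideanSpace.proj (𝕜 := ℝ) j) x :=
    (EuclideanSpace.proj (𝕜 := ℝ) j).hasFDerivAt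
  have h2 := hasFDerivAt_sg hk x
  have h3 : HasFDerivAt f (fderiv ℝ f x) x := (hf.differentiable one_ne_zero x).hasFDerivAt
  have h4 : HasFDerivAt (vf k f j) _ x := (h1.mul h2).mul (h3.pow 2)
  rw [h4.fderiv]
  have h5 : (EuclideanSpace.proj (𝕜 := ℝ) j) (e3 j) = 1 := by
    simp [e3]
  simp only [add_apply, smul_apply, smul_eq_mul, h5, inner_e3, nsmul_eq_mul,
    Pi.mul_apply]
  push_cast
  ring

lemma hydrogen_reg {k : ℝ} (hk : 0 < k) {f : R3 → ℝ} (hf : ContDiff ℝ 1 f)
    (hc : HasCompactSupport f) (Z : ℝ) (hZ : 0 ≤ Z) :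
    Z * (∫ x, sg k x * (f x) ^ 2) - Z ^ 2 / 4 * ∫ x, (f x) ^ 2 ≤ ∫ x, gsq f x := by
  have hf2 : HasCompactSupport (fun y => (f y) ^ 2) :=
    hc.comp_left (g := fun t : ℝ => t ^ 2) (by norm_num)
  have hi2 : Integrable (fun x => (f x) ^ 2) :=
    (hf.continuous.pow 2).integrable_of_hasCompactSupport hf2
  have hi1 : Integrable (fun x => sg k x * (f x) ^ 2) :=
    ((contDiff_sg hk).continuous.mul (hf.continuous.pow 2)).integrable_of_hasCompactSupport
      hf2.mul_left
  have hd : ∀ j : Fin 3, Continuous (fun x => fderiv ℝ f x (e3 j)) := fun j =>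
    (hf.continuous_fderiv one_ne_zero).clm_apply continuous_const
  have hdc : ∀ j : Fin 3, HasCompactSupport (fun x => fderiv ℝ f x (e3 j)) := fun j =>
    (hc.fderiv ℝ).comp_left (g := fun L : R3 →L[ℝ] ℝ => L (e3 j)) rfl
  have hig : Integrable (fun x => gsq f x) := by
    unfold gsq
    refine integrable_finsetSum _ fun j _ => ?_
    have h1 : HasCompactSupport (fun x => (fderiv ℝ f x (e3 j)) ^ 2) :=
      (hdc j).comp_left (g := fun t : ℝ => t ^ 2) (by norm_num)
    exact ((hd j).pow 2).integrable_of_hasCompactSupport h1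
  have hiv : ∀ j : Fin 3, Integrable (fun x => fderiv ℝ (vf k f j) x (e3 j)) := fun j =>
    (((contDiff_vf hk hf j).continuous_fderiv one_ne_zero).clm_apply
      continuous_const).integrable_of_hasCompactSupport
      (((cpt_vf hc j).fderiv ℝ).comp_left (g := fun L : R3 →L[ℝ] ℝ => L (e3 j)) rfl)
  have hzero : ∫ x, ∑ j : Fin 3, fderiv ℝ (vf k f j) x (e3 j) = 0 := by
    rw [integral_finsetSum _ fun j _ => hiv j]
    exact Finset.sum_eq_zero fun j _ => integral_partial_eq_zero (contDiff_vf hk hf j)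
      (cpt_vf hc j) j
  have hisum : Integrable (fun x => ∑ j : Fin 3, fderiv ℝ (vf k f j) x (e3 j)) :=
    integrable_finsetSum _ fun j _ => hiv j
  have key : ∫ x, (Z * (sg k x * (f x) ^ 2) - Z ^ 2 / 4 * (f x) ^ 2)
      ≤ ∫ x, (gsq f x + Z / 2 * ∑ j : Fin 3, fderiv ℝ (vf k f j) x (e3 j)) := by
    refine integral_mono ((hi1.const_mul Z).sub (hi2.const_mul _))
      (hig.add (hisum.const_mul _)) fun x => ?_
    have hs := sg_pos hk x
    have hsq := sg_sq hk x
    have hn := norm_sq_coord x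
    have h1 : ‖x‖ ^ 2 * sg k x ^ 2 ≤ 1 := by nlinarith [sq_nonneg (k * sg k x)]
    have h2 : 0 ≤ ∑ j : Fin 3, (fderiv ℝ f x (e3 j) + Z / 2 * (x j * sg k x * f x)) ^ 2 :=
      Finset.sum_nonneg fun j _ => sq_nonneg _
    simp only [fderiv_vf hk hf]
    unfold gsq
    simp only [Fin.sum_univ_three] at h2 hn ⊢
    set a := fderiv ℝ f x (e3 0)
    set b := fderiv ℝ f x (e3 1)
    set c := fderiv ℝ f x (e3 2)
    set σ := sg k x
    have h3 : 0 ≤ Z / 2 * (σ * (f x) ^ 2) * (1 - ‖x‖ ^ 2 * σ ^ 2) :=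
      mul_nonneg (by positivity) (by linarith)
    have h4 : 0 ≤ Z ^ 2 / 4 * (f x) ^ 2 * (1 - ‖x‖ ^ 2 * σ ^ 2) :=
      mul_nonneg (by positivity) (by linarith)
    rw [hn] at h3 h4
    linarith [h2, h3, h4]
  rw [integral_sub (hi1.const_mul Z) (hi2.const_mul _), integral_const_mul, integral_const_mul,
    integral_add hig (hisum.const_mul _), integral_const_mul, hzero] at key
  linarith

end HydA

open HydA

/-- the ground state bound of the hydrogen atom with nuclear charge `Z` -/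
theorem hydrogen {f : R3 → ℝ} (hf : ContDiff ℝ 1 f) (hc : HasCompactSupport f) (Z : ℝ)
    (hZ : 0 ≤ Z) :
    Z * (∫ x, 1 / ‖x‖ * (f x) ^ 2) - Z ^ 2 / 4 * ∫ x, (f x) ^ 2 ≤ ∫ x, gsq f x := by
  have hf2 : HasCompactSupport (fun y => (f y) ^ 2) :=
    hc.comp_left (g := fun t : ℝ => t ^ 2) (by norm_num)
  have hint := integrable_inv_norm (hf.continuous.pow 2) hf2
  have hlim : Filter.Tendsto (fun m : ℕ => ∫ x, sg (1 / ((m : ℝ) + 1)) x * (f x) ^ 2)
      Filter.atTop (nhds (∫ x, 1 / ‖x‖ * (f x) ^ 2)) := by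
    refine tendsto_integral_of_dominated_convergence (fun x => 1 / ‖x‖ * (f x) ^ 2) ?_ hint ?_ ?_
    · intro m
      exact ((contDiff_sg (by positivity)).continuous.mul
        (hf.continuous.pow 2)).aestronglyMeasurable
    · intro m
      have h0 : ∀ᵐ x : R3, x ≠ 0 := by
        have := (measure_singleton (μ := (volume : Measure R3)) 0)
        exact measure_eq_zero_iff_ae_notMem.1 this
      filter_upwards [h0] with x hx
      have h1 := (sg_pos (k := 1 / ((m : ℝ) + 1)) (by positivity) x).le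
      rw [Real.norm_of_nonneg (by positivity)]
      exact mul_le_mul_of_nonneg_right (sg_le _ hx) (sq_nonneg _)
    · have h0 : ∀ᵐ x : R3, x ≠ 0 := by
        have := (measure_singleton (μ := (volume : Measure R3)) 0)
        exact measure_eq_zero_iff_ae_notMem.1 this
      filter_upwards [h0] with x hx
      refine Filter.Tendsto.mul_const _ ?_
      have hx' : ‖x‖ ≠ 0 := norm_ne_zero_iff.2 hx
      have h1 : Filter.Tendsto (fun m : ℕ => (Real.sqrt (‖x‖ ^ 2 + (1 / ((m : ℝ) + 1)) ^ 2))⁻¹)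
          Filter.atTop (nhds (Real.sqrt (‖x‖ ^ 2 + 0 ^ 2))⁻¹) := by
        refine Filter.Tendsto.inv₀ ?_ ?_
        · exact (Real.continuous_sqrt.tendsto _).comp
            (tendsto_const_nhds.add (tendsto_one_div_add_atTop_nhds_zero_nat.pow 2))
        · rw [zero_pow two_ne_zero, add_zero, Real.sqrt_sq (norm_nonneg x)]
          exact hx'
      rw [zero_pow two_ne_zero, add_zero, Real.sqrt_sq (norm_nonneg x)] at h1
      simpa [sg, one_div] using h1
  have h2 : ∀ m : ℕ, Z * (∫ x, sg (1 / ((m : ℝ) + 1)) x * (f x) ^ 2)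
      - Z ^ 2 / 4 * ∫ x, (f x) ^ 2 ≤ ∫ x, gsq f x := fun m =>
    hydrogen_reg (by positivity) hf hc Z hZ
  exact le_of_tendsto ((hlim.const_mul Z).sub_const _) (Filter.Eventually.of_forall h2)

end Pool.Agent.Lib.CX
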