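import Mathlib
import Pool.Agent.Lib.CX.Basic
import Pool.Agent.Lib.CX.Integ
import Pool.Agent.Lib.CX.Hyd

/-! CX task B1: the regularised multiplier `g = G/(1+μG)`, `G = √(r²+κ²)`. -/

set_option autoImplicit false

open MeasureTheory Set

noncomputable section

namespace Pool.Agent.Lib.CX

/-- `√(r²+κ²)` -/
def rho (κ : ℝ) (x : R3) : ℝ := Real.sqrt (‖x‖ ^ 2 + κ ^ 2)

/-- the multiplier -/
def gw (μ κ : ℝ) (x : R3) : ℝ := rho κ x / (1 + μ * rho κ x)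

variable {μ κ : ℝ}

theorem rho_pos (hκ : 0 < κ) (x : R3) : 0 < rho κ x := by
  unfold rho
  positivity

theorem rho_sq (κ : ℝ) (x : R3) : rho κ x ^ 2 = ‖x‖ ^ 2 + κ ^ 2 := by
  unfold rho
  rw [Real.sq_sqrt (by positivity)]

theorem norm_le_rho (κ : ℝ) (x : R3) : ‖x‖ ≤ rho κ x := by
  unfold rho
  apply Real.le_sqrt_of_sq_le
  nlinarith [sq_nonneg κ]

theorem rho_le (hκ : 0 < κ) (x : R3) : rho κ x ≤ ‖x‖ + κ := by
  unfold rho
  rw [Real.sqrt_le_left (by positivity)]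
  nlinarith [norm_nonneg x, mul_nonneg (norm_nonneg x) hκ.le]

theorem rho_contDiff (hκ : 0 < κ) : ContDiff ℝ (⊤ : ℕ∞) (rho κ) := by
  unfold rho
  apply ContDiff.sqrt
  · exact (contDiff_norm_sq ℝ).add contDiff_const
  · intro x
    positivity

theorem gw_contDiff (hμ : 0 < μ) (hκ : 0 < κ) : ContDiff ℝ (⊤ : ℕ∞) (gw μ κ) := by
  unfold gw
  apply ContDiff.div (rho_contDiff hκ)
  · exact contDiff_const.add (contDiff_const.mul (rho_contDiff hκ))
  · intro x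
    have := rho_pos hκ x
    positivity

theorem gw_pos (hμ : 0 < μ) (hκ : 0 < κ) (x : R3) : 0 < gw μ κ x := by
  have := rho_pos hκ x
  unfold gw
  positivity

theorem gw_le (hμ : 0 < μ) (hκ : 0 < κ) (x : R3) : gw μ κ x ≤ 1 / μ := by
  have := rho_pos hκ x
  unfold gw
  rw [div_le_div_iff₀ (by positivity) hμ]
  nlinarith

theorem hasFDerivAt_rho (hκ : 0 < κ) (x : R3) :
    HasFDerivAt (rho κ) ((1 / rho κ x) • (innerSL ℝ x)) x := by
  have h1 : HasFDerivAt (fun y : R3 => ‖y‖ ^ 2 + κ ^ 2) (2 • (innerSL ℝ x)) x := by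
    simpa using (hasStrictFDerivAt_norm_sq x).hasFDerivAt.add_const (κ ^ 2)
  have h2 : HasFDerivAt (rho κ) _ x := h1.sqrt (by positivity : ‖x‖ ^ 2 + κ ^ 2 ≠ 0)
  have h3 : Real.sqrt (‖x‖ ^ 2 + κ ^ 2) ≠ 0 := by positivity
  have h4 : (1 / rho κ x) • (innerSL ℝ x)
      = (1 / (2 * Real.sqrt (‖x‖ ^ 2 + κ ^ 2))) • (2 • (innerSL ℝ x)) := by
    rw [two_nsmul, ← two_smul ℝ (innerSL ℝ x), smul_smul]
    congr 1
    unfold rho
    field_simp
  rw [h4]
  exact h2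

theorem kn_inner_e3 (x : R3) (k : Fin 3) : (innerSL ℝ x) (e3 k) = x k := by
  simp [e3, EuclideanSpace.inner_single_right]

theorem kn_norm_sq (x : R3) : ‖x‖ ^ 2 = ∑ k : Fin 3, x k ^ 2 := by
  rw [EuclideanSpace.norm_sq_eq]
  simp

/-- derivative of a function of `rho` -/
theorem fderiv_comp_rho (hκ : 0 < κ) {φ : ℝ → ℝ} {d : ℝ} {x : R3}
    (h : HasDerivAt φ d (rho κ x)) (k : Fin 3) :
    fderiv ℝ (fun y => φ (rho κ y)) x (e3 k) = d / rho κ x * x k := by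
  have h1 := h.comp_hasFDerivAt x (hasFDerivAt_rho hκ x)
  have h2 : HasFDerivAt (fun y => φ (rho κ y)) (d • ((1 / rho κ x) • (innerSL ℝ x))) x := h1
  rw [h2.fderiv]
  simp only [FunLike.coe_smul, Pi.smul_apply, smul_eq_mul]
  rw [kn_inner_e3]
  ring

theorem fderiv_gw (hμ : 0 < μ) (hκ : 0 < κ) (x : R3) (k : Fin 3) :
    fderiv ℝ (gw μ κ) x (e3 k) = 1 / (rho κ x * (1 + μ * rho κ x) ^ 2) * x k := by
  have hr := rho_pos hκ x
  have h1 : HasDerivAt (fun G : ℝ => G / (1 + μ * G))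
      ((1 * (1 + μ * rho κ x) - rho κ x * (μ * 1)) / (1 + μ * rho κ x) ^ 2) (rho κ x) := by
    apply (hasDerivAt_id _).div
    · exact ((hasDerivAt_id _).const_mul μ).const_add 1
    · positivity
  have h2 := fderiv_comp_rho hκ h1 k
  have h3 : gw μ κ = fun y => (fun G : ℝ => G / (1 + μ * G)) (rho κ y) := rfl
  rw [h3, h2]
  field_simp
  ring

/-- the gradient of the multiplier has length at most one -/
theorem gw_grad (hμ : 0 < μ) (hκ : 0 < κ) (x : R3) : gsq (gw μ κ) x ≤ 1 := by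
  unfold gsq
  have hr := rho_pos hκ x
  have h1 : ∀ k : Fin 3, (fderiv ℝ (gw μ κ) x (e3 k)) ^ 2
      = (1 / (rho κ x * (1 + μ * rho κ x) ^ 2)) ^ 2 * x k ^ 2 := by
    intro k
    rw [fderiv_gw hμ hκ]
    ring
  rw [Finset.sum_congr rfl (fun k _ => h1 k), ← Finset.mul_sum, ← kn_norm_sq]
  have h2 : ‖x‖ ^ 2 ≤ rho κ x ^ 2 := by
    rw [rho_sq]
    nlinarith [sq_nonneg κ]
  have h3 : 1 ≤ (1 + μ * rho κ x) ^ 2 := by
    have : 0 < μ * rho κ x := by positivity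
    nlinarith
  have h4 : 1 / (rho κ x * (1 + μ * rho κ x) ^ 2) ≤ 1 / rho κ x := by
    apply one_div_le_one_div_of_le hr
    nlinarith
  calc (1 / (rho κ x * (1 + μ * rho κ x) ^ 2)) ^ 2 * ‖x‖ ^ 2
      ≤ (1 / rho κ x) ^ 2 * rho κ x ^ 2 := by
        apply mul_le_mul _ h2 (by positivity) (by positivity)
        apply pow_le_pow_left₀ (by positivity) h4
    _ = 1 := by field_simp

/-- `1/g ≤ 1/r + μ` -/
theorem gw_inv (hμ : 0 < μ) (hκ : 0 < κ) {x : R3} (hx : x ≠ 0) :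
    1 / gw μ κ x ≤ 1 / ‖x‖ + μ := by
  have hr := rho_pos hκ x
  have h0 : 0 < ‖x‖ := norm_pos_iff.mpr hx
  have h1 : 1 / gw μ κ x = 1 / rho κ x + μ := by
    unfold gw
    field_simp
  rw [h1]
  have := one_div_le_one_div_of_le h0 (norm_le_rho κ x)
  linarith

theorem gw_div (hμ : 0 < μ) (hκ : 0 < κ) (x : R3) :
    gw μ κ x * (1 / ‖x‖) ≤ 1 + κ * (1 / ‖x‖) := by
  have hr := rho_pos hκ x
  have h1 : gw μ κ x ≤ rho κ x := by
    unfold gw
    apply div_le_self hr.le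
    have : 0 < μ * rho κ x := by positivity
    linarith
  rcases eq_or_ne x 0 with h0 | h0
  · subst h0
    simp
  · have h2 : 0 < ‖x‖ := norm_pos_iff.mpr h0
    have h3 := rho_le hκ x
    calc gw μ κ x * (1 / ‖x‖) ≤ (‖x‖ + κ) * (1 / ‖x‖) := by
          apply mul_le_mul_of_nonneg_right (h1.trans h3) (by positivity)
      _ = 1 + κ * (1 / ‖x‖) := by
          field_simp

theorem gw_pair (hμ : 0 < μ) (hκ : 0 < κ) {x y : R3} (hxy : x ≠ y) :
    1 - μ * (gw μ κ x + gw μ κ y) ≤ (gw μ κ x + gw μ κ y) * (1 / ‖x - y‖) := by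
  have hx := rho_pos hκ x
  have hy := rho_pos hκ y
  have h0 : 0 < ‖x - y‖ := norm_pos_iff.mpr (sub_ne_zero.mpr hxy)
  have h1 : ‖x - y‖ ≤ rho κ x + rho κ y :=
    (norm_sub_le x y).trans (add_le_add (norm_le_rho κ x) (norm_le_rho κ y))
  have hgx := gw_pos hμ hκ x
  have hgy := gw_pos hμ hκ y
  have h2 : (gw μ κ x + gw μ κ y) * (1 / (rho κ x + rho κ y))
      ≤ (gw μ κ x + gw μ κ y) * (1 / ‖x - y‖) :=
    mul_le_mul_of_nonneg_left (one_div_le_one_div_of_le h0 h1) (by positivity)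
  refine le_trans ?_ h2
  unfold gw
  set G := rho κ x
  set H := rho κ y
  have h3 : (G / (1 + μ * G) + H / (1 + μ * H)) * (1 / (G + H))
      - (1 - μ * (G / (1 + μ * G) + H / (1 + μ * H)))
      = (2 * μ * (G * H) / (G + H) + μ ^ 2 * (G * H)) / ((1 + μ * G) * (1 + μ * H)) := by
    field_simp
    ring
  have h4 : 0 ≤ (2 * μ * (G * H) / (G + H) + μ ^ 2 * (G * H)) / ((1 + μ * G) * (1 + μ * H)) := by
    positivity
  linarith

/-- the pointwise inequality behind `kin_gw_nonneg` -/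
theorem kin_gw_pointwise (ρ μ f : ℝ) (hρ : 0 < ρ) (hμ : 0 < μ) (A x : Fin 3 → ℝ)
    (hx : ∑ k, x k ^ 2 ≤ ρ ^ 2) :
    0 ≤ ∑ k : Fin 3, ((ρ / (1 + μ * ρ) * A k + f * (1 / (ρ * (1 + μ * ρ) ^ 2) * x k)) * A k
      + 1 / 2 * (1 / (ρ * (1 + μ * ρ)) * (f ^ 2 + 2 * f * A k * x k)
        - (1 + 2 * μ * ρ) / (ρ ^ 3 * (1 + μ * ρ) ^ 2) * x k * (f ^ 2 * x k))) := by
  set b := (2 + μ * ρ) / (2 * ρ ^ 2 * (1 + μ * ρ)) with hb
  have h1 : ∑ k : Fin 3, ((ρ / (1 + μ * ρ) * A k + f * (1 / (ρ * (1 + μ * ρ) ^ 2) * x k)) * A k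
      + 1 / 2 * (1 / (ρ * (1 + μ * ρ)) * (f ^ 2 + 2 * f * A k * x k)
        - (1 + 2 * μ * ρ) / (ρ ^ 3 * (1 + μ * ρ) ^ 2) * x k * (f ^ 2 * x k)))
      = ρ / (1 + μ * ρ) * ∑ k : Fin 3, (A k + b * x k * f) ^ 2
        + f ^ 2 * (3 / 2 * (1 / (ρ * (1 + μ * ρ)))
          - (∑ k : Fin 3, x k ^ 2) * (1 / 2 * ((1 + 2 * μ * ρ) / (ρ ^ 3 * (1 + μ * ρ) ^ 2))
            + ρ / (1 + μ * ρ) * b ^ 2)) := by
    simp only [Fin.sum_univ_three, hb]
    field_simp
    ring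
  rw [h1]
  have h2 : 0 ≤ 1 / 2 * ((1 + 2 * μ * ρ) / (ρ ^ 3 * (1 + μ * ρ) ^ 2))
            + ρ / (1 + μ * ρ) * b ^ 2 := by positivity
  have h3 : 0 ≤ 3 / 2 * (1 / (ρ * (1 + μ * ρ)))
          - ρ ^ 2 * (1 / 2 * ((1 + 2 * μ * ρ) / (ρ ^ 3 * (1 + μ * ρ) ^ 2))
            + ρ / (1 + μ * ρ) * b ^ 2) := by
    have h4 : 3 / 2 * (1 / (ρ * (1 + μ * ρ)))
          - ρ ^ 2 * (1 / 2 * ((1 + 2 * μ * ρ) / (ρ ^ 3 * (1 + μ * ρ) ^ 2))
            + ρ / (1 + μ * ρ) * b ^ 2)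
        = (2 * μ * ρ + μ ^ 2 * ρ ^ 2) / (4 * ρ * (1 + μ * ρ) ^ 3) := by
      rw [hb]
      field_simp
      ring
    rw [h4]
    positivity
  have h5 : (∑ k : Fin 3, x k ^ 2) * (1 / 2 * ((1 + 2 * μ * ρ) / (ρ ^ 3 * (1 + μ * ρ) ^ 2))
            + ρ / (1 + μ * ρ) * b ^ 2)
      ≤ ρ ^ 2 * (1 / 2 * ((1 + 2 * μ * ρ) / (ρ ^ 3 * (1 + μ * ρ) ^ 2))
            + ρ / (1 + μ * ρ) * b ^ 2) := mul_le_mul_of_nonneg_right hx h2
  have h6 : 0 ≤ ρ / (1 + μ * ρ) * ∑ k : Fin 3, (A k + b * x k * f) ^ 2 := by positivity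
  have h7 : 0 ≤ f ^ 2 * (3 / 2 * (1 / (ρ * (1 + μ * ρ)))
          - (∑ k : Fin 3, x k ^ 2) * (1 / 2 * ((1 + 2 * μ * ρ) / (ρ ^ 3 * (1 + μ * ρ) ^ 2))
            + ρ / (1 + μ * ρ) * b ^ 2)) := by
    apply mul_nonneg (sq_nonneg f)
    linarith
  linarith

/-- the kinetic energy form is nonnegative on `(g f, f)` -/
theorem kin_gw_nonneg (hμ : 0 < μ) (hκ : 0 < κ) {f : R3 → ℝ} (hf : ContDiff ℝ 1 f)
    (hc : HasCompactSupport f) :
    0 ≤ ∫ x, ∑ k : Fin 3,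
      fderiv ℝ (fun y => gw μ κ y * f y) x (e3 k) * fderiv ℝ f x (e3 k) := by
  classical
  have hone : (1 : WithTop ℕ∞) ≤ ((⊤ : ℕ∞) : WithTop ℕ∞) := by
    exact_mod_cast le_top
  have hgw : ContDiff ℝ 1 (gw μ κ) := (gw_contDiff hμ hκ).of_le hone
  have hrho : ContDiff ℝ 1 (rho κ) := (rho_contDiff hκ).of_le hone
  -- the weight `w = g/D`
  set w : R3 → ℝ := fun y => 1 / (rho κ y * (1 + μ * rho κ y)) with hw
  have hw1 : ContDiff ℝ 1 w := by
    apply ContDiff.div contDiff_const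
    · exact hrho.mul (contDiff_const.add (contDiff_const.mul hrho))
    · intro y
      have := rho_pos hκ y
      positivity
  have hcoord : ∀ k : Fin 3, ContDiff ℝ 1 (fun y : R3 => y k) := by
    intro k
    exact (EuclideanSpace.proj k : R3 →L[ℝ] ℝ).contDiff
  -- the vector field
  set h : Fin 3 → R3 → ℝ := fun k y => w y * (f y ^ 2 * y k) with hh
  have hh1 : ∀ k, ContDiff ℝ 1 (h k) := fun k => hw1.mul ((hf.pow 2).mul (hcoord k))
  have hhc : ∀ k, HasCompactSupport (h k) := by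
    intro k
    apply hc.mono
    intro y hy
    rw [Function.mem_support] at hy ⊢
    intro h0
    apply hy
    simp [hh, h0]
  -- derivatives
  have dw : ∀ (x : R3) (k : Fin 3), fderiv ℝ w x (e3 k)
      = - ((1 + 2 * μ * rho κ x) / (rho κ x ^ 3 * (1 + μ * rho κ x) ^ 2)) * x k := by
    intro x k
    have hr := rho_pos hκ x
    have h1 : HasDerivAt (fun G : ℝ => 1 / (G * (1 + μ * G)))
        ((0 * (rho κ x * (1 + μ * rho κ x))
          - 1 * (1 * (1 + μ * rho κ x) + rho κ x * (μ * 1))) / (rho κ x * (1 + μ * rho κ x)) ^ 2)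
        (rho κ x) := by
      apply (hasDerivAt_const _ _).div
      · exact (hasDerivAt_id _).mul (((hasDerivAt_id _).const_mul μ).const_add 1)
      · positivity
    have h2 := fderiv_comp_rho hκ h1 k
    rw [hw, h2]
    field_simp
    ring
  have dcoord : ∀ (x : R3) (k : Fin 3), fderiv ℝ (fun y : R3 => y k) x (e3 k) = 1 := by
    intro x k
    have h1 : HasFDerivAt (fun y : R3 => y k) (EuclideanSpace.proj k : R3 →L[ℝ] ℝ) x :=
      (EuclideanSpace.proj k : R3 →L[ℝ] ℝ).hasFDerivAt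
    rw [h1.fderiv]
    simp [e3]
  have hfd : ∀ x, DifferentiableAt ℝ f x := fun x => (hf.differentiable (by norm_num)) x
  have hgd : ∀ x, DifferentiableAt ℝ (gw μ κ) x := fun x => (hgw.differentiable (by norm_num)) x
  have hwd : ∀ x, DifferentiableAt ℝ w x := fun x => (hw1.differentiable (by norm_num)) x
  have hcd : ∀ (k : Fin 3) (x : R3), DifferentiableAt ℝ (fun y : R3 => y k) x :=
    fun k x => ((hcoord k).differentiable (by norm_num)) x
  have dgf : ∀ (x : R3) (k : Fin 3), fderiv ℝ (fun y => gw μ κ y * f y) x (e3 k)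
      = gw μ κ x * fderiv ℝ f x (e3 k)
        + f x * (1 / (rho κ x * (1 + μ * rho κ x) ^ 2) * x k) := by
    intro x k
    rw [fderiv_fun_mul (hgd x) (hfd x)]
    simp only [FunLike.coe_add, FunLike.coe_smul, Pi.add_apply, Pi.smul_apply, smul_eq_mul]
    rw [fderiv_gw hμ hκ]
  have dh : ∀ (x : R3) (k : Fin 3), fderiv ℝ (h k) x (e3 k)
      = w x * (f x ^ 2 + 2 * f x * fderiv ℝ f x (e3 k) * x k)
        - (1 + 2 * μ * rho κ x) / (rho κ x ^ 3 * (1 + μ * rho κ x) ^ 2) * x k * (f x ^ 2 * x k) := by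
    intro x k
    have h1 : DifferentiableAt ℝ (fun y => f y ^ 2) x := (hfd x).pow 2
    rw [hh]
    simp only
    have h3 : DifferentiableAt ℝ (fun y : R3 => f y ^ 2 * y k) x := h1.mul (hcd k x)
    rw [fderiv_fun_mul (hwd x) h3]
    rw [fderiv_fun_mul h1 (hcd k x)]
    have h2 : fderiv ℝ (fun y => f y ^ 2) x (e3 k) = 2 * f x * fderiv ℝ f x (e3 k) := by
      rw [((hfd x).hasFDerivAt.pow 2).fderiv]
      simp
    simp only [FunLike.coe_add, FunLike.coe_smul, Pi.add_apply, Pi.smul_apply, smul_eq_mul]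
    rw [h2, dcoord, dw]
    ring
  -- integrability
  have hi1 : ∀ k : Fin 3, Integrable (fun x =>
      fderiv ℝ (fun y => gw μ κ y * f y) x (e3 k) * fderiv ℝ f x (e3 k)) := by
    intro k
    apply Continuous.integrable_of_hasCompactSupport
    · have h1 : Continuous (fun x => fderiv ℝ (fun y => gw μ κ y * f y) x (e3 k)) :=
        ((hgw.mul hf).continuous_fderiv (by norm_num)).clm_apply continuous_const
      have h2 : Continuous (fun x => fderiv ℝ f x (e3 k)) :=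
        (hf.continuous_fderiv (by norm_num)).clm_apply continuous_const
      exact h1.mul h2
    · exact (hc.fderiv_apply (𝕜 := ℝ) (e3 k)).mul_left
  have hi2 : ∀ k : Fin 3, Integrable (fun x => 1 / 2 * fderiv ℝ (h k) x (e3 k)) := by
    intro k
    apply Continuous.integrable_of_hasCompactSupport
    · exact continuous_const.mul
        (((hh1 k).continuous_fderiv (by norm_num)).clm_apply continuous_const)
    · exact ((hhc k).fderiv_apply (𝕜 := ℝ) (e3 k)).mul_left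
  have hz : ∑ k : Fin 3, ∫ x, 1 / 2 * fderiv ℝ (h k) x (e3 k) = 0 := by
    apply Finset.sum_eq_zero
    intro k _
    rw [integral_const_mul, integral_partial_eq_zero (hh1 k) (hhc k) k, mul_zero]
  have hsum : ∑ k : Fin 3, ((∫ x, fderiv ℝ (fun y => gw μ κ y * f y) x (e3 k)
        * fderiv ℝ f x (e3 k)) + ∫ x, 1 / 2 * fderiv ℝ (h k) x (e3 k))
      = ∫ x, ∑ k : Fin 3, (fderiv ℝ (fun y => gw μ κ y * f y) x (e3 k)
        * fderiv ℝ f x (e3 k) + 1 / 2 * fderiv ℝ (h k) x (e3 k)) := by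
    have h1 : ∀ k : Fin 3, Integrable (fun x => fderiv ℝ (fun y => gw μ κ y * f y) x (e3 k)
        * fderiv ℝ f x (e3 k) + 1 / 2 * fderiv ℝ (h k) x (e3 k)) :=
      fun k => (hi1 k).add (hi2 k)
    rw [integral_finsetSum _ (fun k _ => h1 k)]
    apply Finset.sum_congr rfl
    intro k _
    rw [integral_add (hi1 k) (hi2 k)]
  have hmain : (∫ x, ∑ k : Fin 3,
      fderiv ℝ (fun y => gw μ κ y * f y) x (e3 k) * fderiv ℝ f x (e3 k))
      = ∫ x, ∑ k : Fin 3, (fderiv ℝ (fun y => gw μ κ y * f y) x (e3 k)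
        * fderiv ℝ f x (e3 k) + 1 / 2 * fderiv ℝ (h k) x (e3 k)) := by
    rw [← hsum, Finset.sum_add_distrib, hz, add_zero, integral_finsetSum _ (fun k _ => hi1 k)]
  rw [hmain]
  apply integral_nonneg
  intro x
  simp only [Pi.zero_apply]
  have hp := kin_gw_pointwise (rho κ x) μ (f x) (rho_pos hκ x) hμ
    (fun k => fderiv ℝ f x (e3 k)) (fun k => x k)
    (by rw [← kn_norm_sq, rho_sq]; nlinarith [sq_nonneg κ])
  refine hp.trans (le_of_eq ?_)
  apply Finset.sum_congr rfl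
  intro k _
  rw [dgf, dh]
  rfl

end Pool.Agent.Lib.CX
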