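import Mathlib
import Pool.Agent.Lib.CX.Basic

/-! CX task C1: spherical coordinates in the form `x = r • sph z φ`, `z` = height. -/

set_option autoImplicit false

open MeasureTheory Set

noncomputable section

namespace Pool.Agent.Lib.CX

/-- point of the unit sphere with height `z` and longitude `φ` -/
def sph (z φ : ℝ) : R3 :=
  !₂[Real.sqrt (1 - z ^ 2) * Real.cos φ, Real.sqrt (1 - z ^ 2) * Real.sin φ, z]

/-- parameter domain of the sphere -/
def pbox : Set (ℝ × ℝ) := Ioo (-1 : ℝ) 1 ×ˢ Ioo (-Real.pi) Real.pi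

theorem norm_sph {z φ : ℝ} (hz : z ^ 2 ≤ 1) : ‖sph z φ‖ = 1 := by
  have h1 : ‖sph z φ‖ ^ 2 = 1 := by
    rw [EuclideanSpace.norm_sq_eq]
    simp only [sph, Fin.sum_univ_three, Real.norm_eq_abs, sq_abs, Matrix.cons_val_zero,
      Matrix.cons_val_one, Matrix.cons_val, mul_pow]
    rw [Real.sq_sqrt (by linarith)]
    nlinarith [Real.sin_sq_add_cos_sq φ]
  have h2 := norm_nonneg (sph z φ)
  nlinarith [sq_nonneg (‖sph z φ‖ - 1)]

theorem volume_pbox : (volume : Measure (ℝ × ℝ)) pbox = ENNReal.ofReal (4 * Real.pi) := by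
  unfold pbox
  rw [Measure.volume_eq_prod, Measure.prod_prod, Real.volume_Ioo, Real.volume_Ioo,
    ← ENNReal.ofReal_mul (by norm_num)]
  congr 1
  ring

/-- radial measure `r² dr` on the positive half line -/
def rmeas : Measure ℝ := (volume.restrict (Ioi (0 : ℝ))).withDensity fun r => ENNReal.ofReal (r ^ 2)

/-- the measure on `(r, (z, φ))` -/
def smeas : Measure (ℝ × (ℝ × ℝ)) := rmeas.prod (volume.restrict pbox)

theorem continuous_sph : Continuous (fun p : ℝ × ℝ => sph p.1 p.2) := by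
  unfold sph
  refine (PiLp.continuous_toLp 2 _).comp (continuous_pi fun i => ?_)
  fin_cases i
  · simp; fun_prop
  · simp; fun_prop
  · simp; fun_prop

/-- `(z, (x, y)) ↦ (x, y, z)` -/
def zxy (p : ℝ × (ℝ × ℝ)) : R3 := !₂[p.2.1, p.2.2, p.1]

theorem zxy_mp : MeasurePreserving zxy volume volume := by
  have h1 := PiLp.volume_preserving_toLp (Fin 3)
  have h2 := (volume_preserving_piFinSuccAbove (fun _ : Fin 3 => ℝ) 2).symm
  have h3 := ((MeasurePreserving.id (volume : Measure ℝ)).prod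
    (volume_preserving_finTwoArrow ℝ).symm)
  have h4 := h1.comp (h2.comp h3)
  have e : zxy = WithLp.toLp 2 ∘ (MeasurableEquiv.piFinSuccAbove (fun _ : Fin 3 => ℝ) 2).symm ∘
      Prod.map id (MeasurableEquiv.finTwoArrow (α := ℝ)).symm := by
    funext p
    obtain ⟨z, x, y⟩ := p
    ext i
    fin_cases i <;> simp [zxy, MeasurableEquiv.piFinSuccAbove, Fin.insertNthEquiv, MeasurableEquiv.finTwoArrow] <;> rfl
  rw [e]
  exact h4

/-- half plane in the coordinates `(r, s)`, `s` the cosine -/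
def hp (p : ℝ × ℝ) : ℝ × ℝ := (p.1 * p.2, p.1 * Real.sqrt (1 - p.2 ^ 2))

/-- its derivative -/
def hpd (p : ℝ × ℝ) : ℝ × ℝ →L[ℝ] ℝ × ℝ :=
  (Matrix.toLin (.finTwoProd ℝ) (.finTwoProd ℝ)
    !![p.2, p.1; Real.sqrt (1 - p.2 ^ 2), p.1 * (-p.2 / Real.sqrt (1 - p.2 ^ 2))]).toContinuousLinearMap

theorem hp_hasFDerivAt {p : ℝ × ℝ} (hp2 : p.2 ∈ Ioo (-1 : ℝ) 1) : HasFDerivAt hp (hpd p) p := by
  have h0 : 1 - p.2 ^ 2 ≠ 0 := by
    have := hp2.1
    have := hp2.2
    nlinarith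
  have h1 : HasDerivAt (fun s : ℝ => Real.sqrt (1 - s ^ 2)) (-p.2 / Real.sqrt (1 - p.2 ^ 2)) p.2 := by
    have := (((hasDerivAt_id p.2).pow 2).const_sub 1).sqrt h0
    convert! this using 1
    simp
    field_simp
  have a : HasFDerivAt (fun q : ℝ × ℝ => q.1 * q.2)
      (p.1 • ContinuousLinearMap.snd ℝ ℝ ℝ + p.2 • ContinuousLinearMap.fst ℝ ℝ ℝ) p :=
    hasFDerivAt_fst.mul hasFDerivAt_snd
  have b : HasFDerivAt (fun q : ℝ × ℝ => q.1 * Real.sqrt (1 - q.2 ^ 2))
      (p.1 • ((-p.2 / Real.sqrt (1 - p.2 ^ 2)) • ContinuousLinearMap.snd ℝ ℝ ℝ)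
        + Real.sqrt (1 - p.2 ^ 2) • ContinuousLinearMap.fst ℝ ℝ ℝ) p :=
    hasFDerivAt_fst.mul (h1.comp_hasFDerivAt p hasFDerivAt_snd)
  have c := HasFDerivAt.prodMk a b
  unfold hpd
  rw [Matrix.toLin_finTwoProd_toContinuousLinearMap]
  convert! c using 2
  · rw [add_comm]
  · rw [add_comm, smul_smul]

theorem hpd_det {p : ℝ × ℝ} (hp2 : p.2 ∈ Ioo (-1 : ℝ) 1) :
    (hpd p).det = -(p.1 / Real.sqrt (1 - p.2 ^ 2)) := by
  have h0 : 0 < 1 - p.2 ^ 2 := by
    have := hp2.1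
    have := hp2.2
    nlinarith
  have h1 : 0 < Real.sqrt (1 - p.2 ^ 2) := Real.sqrt_pos.2 h0
  have h2 := Real.sq_sqrt h0.le
  unfold hpd
  simp only [LinearMap.det_toContinuousLinearMap, LinearMap.det_toLin,
    Matrix.det_fin_two_of]
  field_simp
  rw [h2]
  ring

theorem hp_injOn : InjOn hp (Ioi (0 : ℝ) ×ˢ Ioo (-1 : ℝ) 1) := by
  rintro ⟨r, s⟩ ⟨hr, hs⟩ ⟨r', s'⟩ ⟨hr', hs'⟩ h
  simp only [hp, Prod.mk.injEq, mem_Ioi, mem_Ioo] at h hr hs hr' hs'
  obtain ⟨h1, h2⟩ := h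
  have a : 0 ≤ 1 - s ^ 2 := by nlinarith
  have b : 0 ≤ 1 - s' ^ 2 := by nlinarith
  have c : r ^ 2 = r' ^ 2 := by
    have e1 : r ^ 2 = (r * s) ^ 2 + (r * Real.sqrt (1 - s ^ 2)) ^ 2 := by
      rw [mul_pow, mul_pow, Real.sq_sqrt a]; ring
    have e2 : r' ^ 2 = (r' * s') ^ 2 + (r' * Real.sqrt (1 - s' ^ 2)) ^ 2 := by
      rw [mul_pow, mul_pow, Real.sq_sqrt b]; ring
    rw [e1, e2, h1, h2]
  have d : r = r' := by
    nlinarith [sq_nonneg (r - r')]
  subst d
  have : s = s' := mul_left_cancel₀ hr.ne' h1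
  rw [this]

theorem hp_image : hp '' (Ioi (0 : ℝ) ×ˢ Ioo (-1 : ℝ) 1) = univ ×ˢ Ioi (0 : ℝ) := by
  ext ⟨z, ρ⟩
  simp only [mem_image, mem_prod, mem_Ioi, mem_Ioo, mem_univ, true_and, hp, Prod.exists,
    Prod.mk.injEq]
  constructor
  · rintro ⟨r, s, ⟨hr, hs1, hs2⟩, h1, h2⟩
    rw [← h2]
    have : 0 < 1 - s ^ 2 := by nlinarith
    have := Real.sqrt_pos.2 this
    positivity
  · intro hρ
    have hr : 0 < Real.sqrt (z ^ 2 + ρ ^ 2) := Real.sqrt_pos.2 (by positivity)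
    have hsq := Real.sq_sqrt (by positivity : 0 ≤ z ^ 2 + ρ ^ 2)
    set r := Real.sqrt (z ^ 2 + ρ ^ 2) with hrdef
    have hz : |z| < r := by
      apply abs_lt_of_sq_lt_sq _ hr.le
      nlinarith [sq_pos_of_pos hρ]
    refine ⟨r, z / r, ⟨hr, ?_, ?_⟩, ?_, ?_⟩
    · rw [lt_div_iff₀ hr]
      linarith [(abs_lt.1 hz).1]
    · rw [div_lt_one hr]
      exact (abs_lt.1 hz).2
    · field_simp
    · have : 1 - (z / r) ^ 2 = (ρ / r) ^ 2 := by
        field_simp
        nlinarith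
      rw [this, Real.sqrt_sq (by positivity)]
      field_simp

theorem lintegral_hp (g : ℝ × ℝ → ENNReal) :
    ∫⁻ q in univ ×ˢ Ioi (0 : ℝ), ENNReal.ofReal q.2 * g q
      = ∫⁻ p in Ioi (0 : ℝ) ×ˢ Ioo (-1 : ℝ) 1, ENNReal.ofReal (p.1 ^ 2) * g (hp p) := by
  have hm : MeasurableSet (Ioi (0 : ℝ) ×ˢ Ioo (-1 : ℝ) 1) := measurableSet_Ioi.prod measurableSet_Ioo
  rw [← hp_image, lintegral_image_eq_lintegral_abs_det_fderiv_mul volume hm
    (fun p hp' => (hp_hasFDerivAt hp'.2).hasFDerivWithinAt) hp_injOn]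
  refine setLIntegral_congr_fun hm fun p hp' => ?_
  obtain ⟨h1, h2⟩ := hp'
  simp only [mem_Ioi] at h1
  have h0 : 0 < 1 - p.2 ^ 2 := by
    have := h2.1
    have := h2.2
    nlinarith
  have h3 : 0 < Real.sqrt (1 - p.2 ^ 2) := Real.sqrt_pos.2 h0
  rw [hpd_det h2, ← mul_assoc, ← ENNReal.ofReal_mul (abs_nonneg _)]
  congr 2
  rw [abs_neg, abs_of_pos (by positivity)]
  simp only [hp]
  field_simp

theorem measurable_smul_sph : Measurable (fun p : ℝ × (ℝ × ℝ) => p.1 • sph p.2.1 p.2.2) := by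
  have h := continuous_sph
  exact (continuous_fst.smul (h.comp continuous_snd)).measurable

theorem zxy_hp (r s φ : ℝ) :
    zxy ((hp (r, s)).1, ((hp (r, s)).2 * Real.cos φ, (hp (r, s)).2 * Real.sin φ)) = r • sph s φ := by
  ext i
  fin_cases i <;> simp [zxy, hp, sph] <;> ring

theorem lintegral_sph {f : R3 → ENNReal} (hf : Measurable f) :
    ∫⁻ x, f x = ∫⁻ p, f (p.1 • sph p.2.1 p.2.2) ∂smeas := by
  have hz : Measurable zxy := zxy_mp.measurable
  have hfz : Measurable (fun q : ℝ × (ℝ × ℝ) => f (zxy q)) := hf.comp hz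
  have hfs : Measurable (fun p : ℝ × (ℝ × ℝ) => f (p.1 • sph p.2.1 p.2.2)) :=
    hf.comp measurable_smul_sph
  -- joint measurability
  have hm1 : Measurable (fun p : ℝ × (ℝ × ℝ) => ENNReal.ofReal p.2.2 *
      f (zxy (p.2.1, (p.2.2 * Real.cos p.1, p.2.2 * Real.sin p.1)))) := by
    refine Measurable.mul (by fun_prop) (hf.comp (hz.comp ?_))
    fun_prop
  have hm2 : Measurable (fun p : ℝ × (ℝ × ℝ) => ENNReal.ofReal (p.1 ^ 2) *
      f (p.1 • sph p.2.1 p.2.2)) :=
    Measurable.mul (by fun_prop) (hf.comp measurable_smul_sph)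
  have hs1 : polarCoord.target = Ioi (0 : ℝ) ×ˢ Ioo (-Real.pi) Real.pi := rfl
  calc ∫⁻ x, f x = ∫⁻ q : ℝ × (ℝ × ℝ), f (zxy q) := (zxy_mp.lintegral_comp hf).symm
    _ = ∫⁻ z : ℝ, ∫⁻ q : ℝ × ℝ, f (zxy (z, q)) := by
        rw [Measure.volume_eq_prod, lintegral_prod (fun q : ℝ × (ℝ × ℝ) => f (zxy q)) hfz.aemeasurable]
    _ = ∫⁻ z : ℝ, ∫⁻ ρ in Ioi (0 : ℝ), ∫⁻ φ in Ioo (-Real.pi) Real.pi,
          ENNReal.ofReal ρ * f (zxy (z, (ρ * Real.cos φ, ρ * Real.sin φ))) := by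
        refine lintegral_congr fun z => ?_
        rw [← lintegral_comp_polarCoord_symm, hs1, Measure.volume_eq_prod,
          ← Measure.prod_restrict, lintegral_prod]
        · rfl
        · refine Measurable.aemeasurable (Measurable.mul (by fun_prop) (hf.comp (hz.comp ?_)))
          exact measurable_const.prodMk continuous_polarCoord_symm.measurable
    _ = ∫⁻ z : ℝ, ∫⁻ φ in Ioo (-Real.pi) Real.pi, ∫⁻ ρ in Ioi (0 : ℝ),
          ENNReal.ofReal ρ * f (zxy (z, (ρ * Real.cos φ, ρ * Real.sin φ))) := by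
        refine lintegral_congr fun z => ?_
        rw [lintegral_lintegral_swap]
        refine Measurable.aemeasurable ?_
        exact hm1.comp (measurable_snd.prodMk (measurable_const.prodMk measurable_fst))
    _ = ∫⁻ φ in Ioo (-Real.pi) Real.pi, ∫⁻ z : ℝ, ∫⁻ ρ in Ioi (0 : ℝ),
          ENNReal.ofReal ρ * f (zxy (z, (ρ * Real.cos φ, ρ * Real.sin φ))) := by
        rw [lintegral_lintegral_swap]
        refine Measurable.aemeasurable ?_
        refine Measurable.lintegral_prod_right' (f := fun q : (ℝ × ℝ) × ℝ => ENNReal.ofReal q.2 *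
          f (zxy (q.1.1, (q.2 * Real.cos q.1.2, q.2 * Real.sin q.1.2)))) ?_
        exact hm1.comp ((measurable_snd.comp measurable_fst).prodMk
          ((measurable_fst.comp measurable_fst).prodMk measurable_snd))
    _ = ∫⁻ φ in Ioo (-Real.pi) Real.pi, ∫⁻ q in univ ×ˢ Ioi (0 : ℝ), ENNReal.ofReal q.2 *
          f (zxy (q.1, (q.2 * Real.cos φ, q.2 * Real.sin φ))) := by
        refine lintegral_congr fun φ => ?_
        rw [Measure.volume_eq_prod, ← Measure.prod_restrict, lintegral_prod, Measure.restrict_univ]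
        exact (hm1.comp (measurable_const.prodMk measurable_id)).aemeasurable
    _ = ∫⁻ φ in Ioo (-Real.pi) Real.pi, ∫⁻ p in Ioi (0 : ℝ) ×ˢ Ioo (-1 : ℝ) 1,
          ENNReal.ofReal (p.1 ^ 2) * f (p.1 • sph p.2 φ) := by
        refine lintegral_congr fun φ => ?_
        rw [lintegral_hp (fun q => f (zxy (q.1, (q.2 * Real.cos φ, q.2 * Real.sin φ))))]
        refine lintegral_congr fun p => ?_
        rw [← zxy_hp p.1 p.2 φ]
    _ = ∫⁻ φ in Ioo (-Real.pi) Real.pi, ∫⁻ r in Ioi (0 : ℝ), ∫⁻ s in Ioo (-1 : ℝ) 1,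
          ENNReal.ofReal (r ^ 2) * f (r • sph s φ) := by
        refine lintegral_congr fun φ => ?_
        rw [Measure.volume_eq_prod, ← Measure.prod_restrict, lintegral_prod]
        exact (hm2.comp (measurable_fst.prodMk (measurable_snd.prodMk measurable_const))).aemeasurable
    _ = ∫⁻ r in Ioi (0 : ℝ), ∫⁻ φ in Ioo (-Real.pi) Real.pi, ∫⁻ s in Ioo (-1 : ℝ) 1,
          ENNReal.ofReal (r ^ 2) * f (r • sph s φ) := by
        rw [lintegral_lintegral_swap]
        refine Measurable.aemeasurable ?_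
        refine Measurable.lintegral_prod_right' (f := fun q : (ℝ × ℝ) × ℝ =>
          ENNReal.ofReal (q.1.2 ^ 2) * f (q.1.2 • sph q.2 q.1.1)) ?_
        exact hm2.comp ((measurable_snd.comp measurable_fst).prodMk
          (measurable_snd.prodMk (measurable_fst.comp measurable_fst)))
    _ = ∫⁻ r in Ioi (0 : ℝ), ∫⁻ w in pbox, ENNReal.ofReal (r ^ 2) * f (r • sph w.1 w.2) := by
        refine lintegral_congr fun r => ?_
        rw [lintegral_lintegral_swap, pbox, Measure.volume_eq_prod, ← Measure.prod_restrict,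
          lintegral_prod]
        · exact (hm2.comp (measurable_const.prodMk measurable_id)).aemeasurable
        · exact (hm2.comp (measurable_const.prodMk (measurable_snd.prodMk measurable_fst))).aemeasurable
    _ = ∫⁻ p, f (p.1 • sph p.2.1 p.2.2) ∂smeas := by
        unfold smeas rmeas
        rw [lintegral_prod (fun p : ℝ × (ℝ × ℝ) => f (p.1 • sph p.2.1 p.2.2)) hfs.aemeasurable,
          lintegral_withDensity_eq_lintegral_mul _ (by fun_prop)]
        · refine lintegral_congr fun r => ?_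
          rw [lintegral_const_mul]
          · rfl
          · exact hf.comp (measurable_smul_sph.comp (measurable_const.prodMk measurable_id))
        · exact Measurable.lintegral_prod_right' (hf.comp measurable_smul_sph)

/-- spherical coordinates -/
theorem sph_map :
    Measure.map (fun p : ℝ × (ℝ × ℝ) => p.1 • sph p.2.1 p.2.2) smeas = (volume : Measure R3) := by
  refine Measure.ext_of_lintegral _ fun f hf => ?_
  rw [lintegral_map hf measurable_smul_sph, lintegral_sph hf]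

end Pool.Agent.Lib.CX
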