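import Mathlib
import Pool.Agent.Lib.CX.Basic
import Pool.Agent.Lib.CX.Sph

/-! CX task C2: integrals in spherical coordinates. -/

set_option autoImplicit false

open MeasureTheory Set Filter Topology

noncomputable section

namespace Pool.Agent.Lib.CX

theorem integral_sph {f : R3 → ℝ} (hf : AEStronglyMeasurable f volume) :
    ∫ x, f x = ∫ p, f (p.1 • sph p.2.1 p.2.2) ∂smeas := by
  rw [← sph_map] at hf ⊢
  exact integral_map measurable_smul_sph.aemeasurable hf

theorem integrable_sph {f : R3 → ℝ} (hf : AEStronglyMeasurable f volume) :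
    Integrable f ↔ Integrable (fun p : ℝ × (ℝ × ℝ) => f (p.1 • sph p.2.1 p.2.2)) smeas := by
  rw [← sph_map] at hf ⊢
  exact integrable_map_measure hf measurable_smul_sph.aemeasurable

instance : SFinite rmeas := by
  unfold rmeas
  infer_instance

/-- integrals against the radial measure -/
theorem integral_rmeas (g : ℝ → ℝ) : ∫ r, g r ∂rmeas = ∫ r in Ioi (0 : ℝ), r ^ 2 * g r := by
  unfold rmeas
  have h1 : (fun r : ℝ => ENNReal.ofReal (r ^ 2)) = fun r => ((Real.toNNReal (r ^ 2) : NNReal) : ENNReal) := rfl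
  rw [h1, integral_withDensity_eq_integral_smul (by fun_prop)]
  refine integral_congr_ae (Eventually.of_forall fun r => ?_)
  simp only [NNReal.smul_def, Real.coe_toNNReal', smul_eq_mul]
  rw [max_eq_left (sq_nonneg r)]

theorem integrable_rmeas (g : ℝ → ℝ) :
    Integrable g rmeas ↔ IntegrableOn (fun r => r ^ 2 * g r) (Ioi (0 : ℝ)) := by
  unfold rmeas
  have h1 : (fun r : ℝ => ENNReal.ofReal (r ^ 2)) = fun r => ((Real.toNNReal (r ^ 2) : NNReal) : ENNReal) := rfl
  rw [h1, integrable_withDensity_iff_integrable_smul (by fun_prop), IntegrableOn]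
  refine integrable_congr (Eventually.of_forall fun r => ?_)
  simp only [NNReal.smul_def, Real.coe_toNNReal', smul_eq_mul]
  rw [max_eq_left (sq_nonneg r)]

/-- iterated form -/
theorem integral_sph_iter {f : R3 → ℝ} (hf : Integrable f) :
    ∫ x, f x = ∫ r in Ioi (0 : ℝ), r ^ 2 * ∫ w in pbox, f (r • sph w.1 w.2) := by
  have h1 := (integrable_sph hf.aestronglyMeasurable).1 hf
  rw [integral_sph hf.aestronglyMeasurable]
  unfold smeas at h1 ⊢
  rw [integral_prod _ h1, integral_rmeas]

/-- iterated form in the other order -/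
theorem integral_sph_iter' {f : R3 → ℝ} (hf : Integrable f) :
    ∫ x, f x = ∫ w in pbox, ∫ r in Ioi (0 : ℝ), r ^ 2 * f (r • sph w.1 w.2) := by
  have h1 := (integrable_sph hf.aestronglyMeasurable).1 hf
  rw [integral_sph hf.aestronglyMeasurable]
  unfold smeas at h1 ⊢
  rw [integral_prod_symm _ h1]
  refine integral_congr_ae (Eventually.of_forall fun w => ?_)
  simp only
  rw [integral_rmeas]

/-- radial functions -/
theorem integral_radial (g : ℝ → ℝ) :
    ∫ x : R3, g ‖x‖ = 4 * Real.pi * ∫ r in Ioi (0 : ℝ), r ^ 2 * g r := by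
  rw [integral_fun_norm_addHaar (volume : Measure R3) g]
  have h1 : (volume : Measure R3).real (Metric.ball 0 1) = Real.pi * 4 / 3 := by
    rw [Measure.real, EuclideanSpace.volume_ball_fin_three]
    simp only [ENNReal.ofReal_one, one_pow, one_mul]
    exact ENNReal.toReal_ofReal (by positivity)
  rw [h1]
  simp only [finrank_euclideanSpace, Fintype.card_fin, Nat.add_one_sub_one, smul_eq_mul,
    nsmul_eq_mul]
  push_cast
  ring

theorem integrable_radial (g : ℝ → ℝ) :
    Integrable (fun x : R3 => g ‖x‖) ↔ IntegrableOn (fun r => r ^ 2 * g r) (Ioi (0 : ℝ)) := by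
  have h := integrable_fun_norm_addHaar (volume : Measure R3) (f := g)
  simp only [finrank_euclideanSpace, Fintype.card_fin, Nat.add_one_sub_one, smul_eq_mul] at h
  exact h

end Pool.Agent.Lib.CX
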