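import Mathlib
import Pool.Agent.Lib.CX.Basic
import Pool.Agent.Lib.CX.Sph
import Pool.Agent.Lib.CX.SphB

/-! CX task D5: the two hydrogen functions and their moments. -/

set_option autoImplicit false

open MeasureTheory Set

noncomputable section

namespace Pool.Agent.Lib.CX

/-- ground state -/
def ph0 (x : R3) : ℝ := Real.exp (-‖x‖ / 2) / Real.sqrt (8 * Real.pi)

/-- `2s` state -/
def ph2 (x : R3) : ℝ := (1 - ‖x‖ / 4) * Real.exp (-‖x‖ / 4) / (8 * Real.sqrt Real.pi)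

/-- overlap with the ground state -/
def al (f : R3 → ℝ) : ℝ := ∫ x, ph0 x * f x

/-- overlap with the `2s` state -/
def be (f : R3 → ℝ) : ℝ := ∫ x, ph2 x * f x

/-- the hydrogen form -/
def qh (f : R3 → ℝ) : ℝ := (∫ x, gsq f x) - ∫ x, 1 / ‖x‖ * (f x) ^ 2

theorem continuous_ph0 : Continuous ph0 := by
  unfold ph0
  fun_prop

theorem continuous_ph2 : Continuous ph2 := by
  unfold ph2
  fun_prop

theorem ph0_pos (x : R3) : 0 < ph0 x := by
  unfold ph0
  positivity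

private lemma wave_int (n : ℕ) {a : ℝ} (ha : 0 < a) :
    IntegrableOn (fun r : ℝ => r ^ n * Real.exp (-(a * r))) (Ioi 0) := by
  have h := integrableOn_rpow_mul_exp_neg_mul_rpow (s := (n : ℝ)) (p := 1) (b := a)
    (by have := Nat.cast_nonneg (α := ℝ) n; linarith) one_pos ha
  refine h.congr_fun ?_ measurableSet_Ioi
  intro r _
  simp only [Real.rpow_natCast, Real.rpow_one, neg_mul]

private lemma wave_val (n : ℕ) {a : ℝ} (ha : 0 < a) :
    ∫ r in Ioi (0 : ℝ), r ^ n * Real.exp (-(a * r)) = (n.factorial : ℝ) / a ^ (n + 1) := by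
  have h := Real.integral_rpow_mul_exp_neg_mul_Ioi (a := (n : ℝ) + 1) (r := a)
    (by positivity) ha
  rw [Real.Gamma_nat_eq_factorial] at h
  have e : (1 / a) ^ ((n : ℝ) + 1) = 1 / a ^ (n + 1) := by
    rw [show (n : ℝ) + 1 = ((n + 1 : ℕ) : ℝ) by push_cast; ring, Real.rpow_natCast, one_div,
      inv_pow, one_div]
  rw [e] at h
  rw [← mul_comm (n.factorial : ℝ), mul_one_div] at h
  rw [← h]
  refine setIntegral_congr_fun measurableSet_Ioi ?_
  intro r _
  simp only [add_sub_cancel_right, Real.rpow_natCast]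

private lemma wave_quad (m : ℕ) (c0 c1 c2 : ℝ) {a : ℝ} (ha : 0 < a) :
    IntegrableOn (fun r : ℝ => (c0 * r ^ m + c1 * r ^ (m + 1) + c2 * r ^ (m + 2))
      * Real.exp (-(a * r))) (Ioi 0) ∧
    ∫ r in Ioi (0 : ℝ), (c0 * r ^ m + c1 * r ^ (m + 1) + c2 * r ^ (m + 2)) * Real.exp (-(a * r))
      = c0 * ((m.factorial : ℝ) / a ^ (m + 1)) + c1 * (((m + 1).factorial : ℝ) / a ^ (m + 2))
        + c2 * (((m + 2).factorial : ℝ) / a ^ (m + 3)) := by
  have h0 := (wave_int m ha).const_mul c0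
  have h1 := (wave_int (m + 1) ha).const_mul c1
  have h2 := (wave_int (m + 2) ha).const_mul c2
  have e : (fun r : ℝ => (c0 * r ^ m + c1 * r ^ (m + 1) + c2 * r ^ (m + 2))
      * Real.exp (-(a * r))) = fun r => c0 * (r ^ m * Real.exp (-(a * r)))
        + c1 * (r ^ (m + 1) * Real.exp (-(a * r))) + c2 * (r ^ (m + 2) * Real.exp (-(a * r))) := by
    funext r
    ring
  rw [e]
  have h01 : IntegrableOn (fun r : ℝ => c0 * (r ^ m * Real.exp (-(a * r)))
      + c1 * (r ^ (m + 1) * Real.exp (-(a * r)))) (Ioi 0) := h0.add h1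
  refine ⟨h01.add h2, ?_⟩
  rw [integral_add h01 h2, integral_add h0 h1, integral_const_mul, integral_const_mul,
    integral_const_mul, wave_val m ha, wave_val (m + 1) ha, wave_val (m + 2) ha]

private lemma wave_rad {G g : ℝ → ℝ} (m : ℕ) (c0 c1 c2 : ℝ) {a : ℝ} (ha : 0 < a)
    (h : ∀ r, 0 < r → r ^ 2 * g r = (c0 * r ^ m + c1 * r ^ (m + 1) + c2 * r ^ (m + 2))
      * Real.exp (-(a * r))) (hG : G = g) :
    Integrable (fun x : R3 => G ‖x‖) ∧
    ∫ x : R3, G ‖x‖ = 4 * Real.pi * (c0 * ((m.factorial : ℝ) / a ^ (m + 1))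
      + c1 * (((m + 1).factorial : ℝ) / a ^ (m + 2)) + c2 * (((m + 2).factorial : ℝ) / a ^ (m + 3))) := by
  subst hG
  obtain ⟨h1, h2⟩ := wave_quad m c0 c1 c2 ha
  constructor
  · rw [integrable_radial]
    exact h1.congr_fun (fun r hr => (h r hr).symm) measurableSet_Ioi
  · rw [integral_radial, ← h2]
    congr 1
    exact setIntegral_congr_fun measurableSet_Ioi fun r hr => h r hr

private lemma wave_e1 (r : ℝ) : Real.exp (-r / 2) ^ 2 = Real.exp (-(1 * r)) := by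
  rw [← Real.exp_nat_mul]
  congr 1
  push_cast
  ring

private lemma wave_e2 (r : ℝ) : Real.exp (-r / 4) ^ 2 = Real.exp (-(1 / 2 * r)) := by
  rw [← Real.exp_nat_mul]
  congr 1
  push_cast
  ring

private lemma wave_e3 (r : ℝ) : Real.exp (-r / 2) * Real.exp (-r / 4) = Real.exp (-(3 / 4 * r)) := by
  rw [← Real.exp_add]
  congr 1
  ring

private lemma wave_s1 : Real.sqrt (8 * Real.pi) ^ 2 = 8 * Real.pi :=
  Real.sq_sqrt (by positivity)

private lemma wave_s2 : (8 * Real.sqrt Real.pi) ^ 2 = 64 * Real.pi := by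
  rw [mul_pow, Real.sq_sqrt Real.pi_pos.le]
  norm_num

private lemma wave_p00 (m : ℕ) :
    Integrable (fun x : R3 => ‖x‖ ^ m * (ph0 x) ^ 2) ∧ ∫ x : R3, ‖x‖ ^ m * (ph0 x) ^ 2
      = 4 * Real.pi * (1 / (8 * Real.pi) * (((m + 2).factorial : ℝ) / 1 ^ (m + 2 + 1))
        + 0 * (((m + 2 + 1).factorial : ℝ) / 1 ^ (m + 2 + 2))
        + 0 * (((m + 2 + 2).factorial : ℝ) / 1 ^ (m + 2 + 3))) := by
  refine wave_rad (G := fun r => r ^ m * (Real.exp (-r / 2) / Real.sqrt (8 * Real.pi)) ^ 2)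
    (m + 2) (1 / (8 * Real.pi)) 0 0 one_pos ?_ rfl
  intro r _
  rw [div_pow, wave_e1, wave_s1]
  ring

private lemma wave_p22 (m : ℕ) :
    Integrable (fun x : R3 => ‖x‖ ^ m * (ph2 x) ^ 2) ∧ ∫ x : R3, ‖x‖ ^ m * (ph2 x) ^ 2
      = 4 * Real.pi * (1 / (64 * Real.pi) * (((m + 2).factorial : ℝ) / (1 / 2) ^ (m + 2 + 1))
        + (-(1 / 2) / (64 * Real.pi)) * (((m + 2 + 1).factorial : ℝ) / (1 / 2) ^ (m + 2 + 2))
        + (1 / 16 / (64 * Real.pi)) * (((m + 2 + 2).factorial : ℝ) / (1 / 2) ^ (m + 2 + 3))) := by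
  refine wave_rad (G := fun r => r ^ m * ((1 - r / 4) * Real.exp (-r / 4) / (8 * Real.sqrt Real.pi)) ^ 2)
    (m + 2) _ _ _ (by norm_num) ?_ rfl
  intro r _
  rw [div_pow, mul_pow, wave_e2, wave_s2]
  ring

private lemma wave_p02 (m : ℕ) :
    Integrable (fun x : R3 => ‖x‖ ^ m * (ph0 x * ph2 x)) ∧ ∫ x : R3, ‖x‖ ^ m * (ph0 x * ph2 x)
      = 4 * Real.pi * (1 / (Real.sqrt (8 * Real.pi) * (8 * Real.sqrt Real.pi))
          * (((m + 2).factorial : ℝ) / (3 / 4) ^ (m + 2 + 1))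
        + (-(1 / 4) / (Real.sqrt (8 * Real.pi) * (8 * Real.sqrt Real.pi)))
          * (((m + 2 + 1).factorial : ℝ) / (3 / 4) ^ (m + 2 + 2))
        + 0 * (((m + 2 + 2).factorial : ℝ) / (3 / 4) ^ (m + 2 + 3))) := by
  refine wave_rad (G := fun r => r ^ m * (Real.exp (-r / 2) / Real.sqrt (8 * Real.pi)
    * ((1 - r / 4) * Real.exp (-r / 4) / (8 * Real.sqrt Real.pi))))
    (m + 2) _ _ _ (by norm_num) ?_ rfl
  intro r _
  rw [← wave_e3]
  ring

private lemma wave_p0 (m : ℕ) : Integrable (fun x : R3 => ‖x‖ ^ m * ph0 x) := by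
  refine (wave_rad (G := fun r => r ^ m * (Real.exp (-r / 2) / Real.sqrt (8 * Real.pi)))
    (m + 2) (1 / Real.sqrt (8 * Real.pi)) 0 0 (a := 1 / 2) (by norm_num) ?_ rfl).1
  intro r _
  rw [show -r / 2 = -(1 / 2 * r) by ring]
  ring

private lemma wave_p2 (m : ℕ) : Integrable (fun x : R3 => ‖x‖ ^ m * ph2 x) := by
  refine (wave_rad (G := fun r => r ^ m * ((1 - r / 4) * Real.exp (-r / 4) / (8 * Real.sqrt Real.pi)))
    (m + 2) (1 / (8 * Real.sqrt Real.pi)) (-(1 / 4) / (8 * Real.sqrt Real.pi)) 0 (a := 1 / 4)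
    (by norm_num) ?_ rfl).1
  intro r _
  rw [show -r / 4 = -(1 / 4 * r) by ring]
  ring

/-- all polynomial moments of products of the two functions are finite -/
theorem integrable_mom (m : ℕ) :
    Integrable (fun x => ‖x‖ ^ m * (ph0 x) ^ 2) ∧ Integrable (fun x => ‖x‖ ^ m * (ph2 x) ^ 2) ∧
      Integrable (fun x => ‖x‖ ^ m * (ph0 x * ph2 x)) ∧ Integrable (fun x => ‖x‖ ^ m * ph0 x) ∧
      Integrable (fun x => ‖x‖ ^ m * ph2 x) :=
  ⟨(wave_p00 m).1, (wave_p22 m).1, (wave_p02 m).1, wave_p0 m, wave_p2 m⟩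

theorem int_ph0_sq : ∫ x, (ph0 x) ^ 2 = 1 := by
  have h := (wave_p00 0).2
  simp only [pow_zero, one_mul] at h
  rw [h]
  have hpi := Real.pi_pos.ne'
  norm_num [Nat.factorial]
  field_simp
  norm_num

theorem int_ph2_sq : ∫ x, (ph2 x) ^ 2 = 1 := by
  have h := (wave_p22 0).2
  simp only [pow_zero, one_mul] at h
  rw [h]
  have hpi := Real.pi_pos.ne'
  norm_num [Nat.factorial]
  field_simp
  norm_num

theorem int_ph0_ph2 : ∫ x, ph0 x * ph2 x = 0 := by
  have h := (wave_p02 0).2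
  simp only [pow_zero, one_mul] at h
  rw [h]
  norm_num [Nat.factorial]
  ring

theorem int_r_ph0_sq : ∫ x, ‖x‖ * (ph0 x) ^ 2 = 3 := by
  have h := (wave_p00 1).2
  simp only [pow_one] at h
  rw [h]
  have hpi := Real.pi_pos.ne'
  norm_num [Nat.factorial]
  field_simp
  norm_num

theorem int_r_ph2_sq : ∫ x, ‖x‖ * (ph2 x) ^ 2 = 12 := by
  have h := (wave_p22 1).2
  simp only [pow_one] at h
  rw [h]
  have hpi := Real.pi_pos.ne'
  norm_num [Nat.factorial]
  field_simp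
  norm_num

end Pool.Agent.Lib.CX
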