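import Mathlib
import Pool.Agent.Lib.CX.Basic
import Pool.Agent.Lib.CX.Integ
import Pool.Agent.Lib.CX.Wave

/-! CX task E1: partial overlaps of a two-particle function with the ground state. -/

set_option autoImplicit false

open MeasureTheory Set

noncomputable section

namespace Pool.Agent.Lib.CX

/-- overlap in the second variable -/
def G1 (f : R3 × R3 → ℝ) (x : R3) : ℝ := ∫ y, ph0 y * f (x, y)

/-- overlap in the first variable -/
def G2 (f : R3 × R3 → ℝ) (y : R3) : ℝ := ∫ x, ph0 x * f (x, y)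

/-- overlap in both variables -/
def w0 (f : R3 × R3 → ℝ) : ℝ := ∫ p, ph0 p.1 * ph0 p.2 * f p

variable {f : R3 × R3 → ℝ}

/-! #### exchanging the two variables -/

theorem swap_contDiff (hf : ContDiff ℝ 1 f) : ContDiff ℝ 1 (fun p : R3 × R3 => f p.swap) :=
  hf.comp (contDiff_snd.prodMk contDiff_fst)

theorem swap_continuous (hf : Continuous f) : Continuous (fun p : R3 × R3 => f p.swap) :=
  hf.comp continuous_swap

theorem swap_cpt (hc : HasCompactSupport f) : HasCompactSupport (fun p : R3 × R3 => f p.swap) :=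
  hc.comp_homeomorph (Homeomorph.prodComm R3 R3)

theorem G1_swap (f : R3 × R3 → ℝ) : G1 (fun p : R3 × R3 => f p.swap) = G2 f := rfl

theorem G2_swap (f : R3 × R3 → ℝ) : G2 (fun p : R3 × R3 => f p.swap) = G1 f := rfl

theorem integral_swap_R3 (F : R3 × R3 → ℝ) : ∫ p : R3 × R3, F p.swap = ∫ p, F p :=
  integral_prod_swap F

theorem w0_swap (f : R3 × R3 → ℝ) : w0 (fun p : R3 × R3 => f p.swap) = w0 f := by
  unfold w0
  rw [← integral_swap_R3 (fun p : R3 × R3 => ph0 p.1 * ph0 p.2 * f p)]
  refine integral_congr_ae (ae_of_all _ fun p => ?_)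
  show ph0 p.1 * ph0 p.2 * f p.swap = ph0 p.swap.1 * ph0 p.swap.2 * f p.swap
  simp only [Prod.fst_swap, Prod.snd_swap]
  ring

/-! #### slices -/

theorem slice_isClosedEmbedding (x : R3) : Topology.IsClosedEmbedding (fun y : R3 => (x, y)) := by
  have h : Function.LeftInverse (Prod.snd : R3 × R3 → R3) (fun y : R3 => (x, y)) := fun y => rfl
  exact h.isClosedEmbedding continuous_snd (by fun_prop)

theorem slice2_cpt (hc : HasCompactSupport f) (x : R3) : HasCompactSupport (fun y => f (x, y)) :=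
  hc.comp_isClosedEmbedding (slice_isClosedEmbedding x)

theorem slice1_cpt (hc : HasCompactSupport f) (y : R3) : HasCompactSupport (fun x => f (x, y)) :=
  slice2_cpt (swap_cpt hc) y

theorem slice2_int (hf : Continuous f) (hc : HasCompactSupport f) (x : R3) :
    Integrable (fun y => ph0 y * f (x, y)) := by
  refine Continuous.integrable_of_hasCompactSupport ?_ ?_
  · exact continuous_ph0.mul (hf.comp (by fun_prop))
  · exact (slice2_cpt hc x).mul_left

/-- the derivative under the integral -/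
def dG1 (f : R3 × R3 → ℝ) (x y : R3) : R3 →L[ℝ] ℝ :=
  ph0 y • (fderiv ℝ f (x, y)).comp (ContinuousLinearMap.inl ℝ R3 R3)

theorem continuous_dG1 (hf : ContDiff ℝ 1 f) :
    Continuous (fun p : R3 × R3 => dG1 f p.1 p.2) := by
  unfold dG1
  have h1 : Continuous (fun p : R3 × R3 => fderiv ℝ f p) := hf.continuous_fderiv (by norm_num)
  exact (continuous_ph0.comp continuous_snd).smul (h1.clm_comp continuous_const)

theorem continuous_dG1_left (hf : ContDiff ℝ 1 f) (y : R3) : Continuous (fun x => dG1 f x y) := by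
  have e : (fun x => dG1 f x y) = (fun p : R3 × R3 => dG1 f p.1 p.2) ∘ (fun x => (x, y)) := rfl
  rw [e]
  exact (continuous_dG1 hf).comp (continuous_id.prodMk continuous_const)

theorem continuous_dG1_right (hf : ContDiff ℝ 1 f) (x : R3) :
    Continuous (fun y => dG1 f x y) := by
  have e : (fun y => dG1 f x y) = (fun p : R3 × R3 => dG1 f p.1 p.2) ∘ (fun y => (x, y)) := rfl
  rw [e]
  exact (continuous_dG1 hf).comp (continuous_const.prodMk continuous_id)

theorem dG1_eq_zero {p : R3 × R3} (hp : p ∉ tsupport f) : dG1 f p.1 p.2 = 0 := by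
  unfold dG1
  have h1 : fderiv ℝ f (p.1, p.2) = 0 := by
    have : p ∉ tsupport (fderiv ℝ f) := fun h => hp (tsupport_fderiv_subset ℝ h)
    exact image_eq_zero_of_notMem_tsupport this
  rw [h1]
  simp

/-- bound for the derivative -/
theorem dG1_bound (hf : ContDiff ℝ 1 f) (hc : HasCompactSupport f) :
    ∃ b : R3 → ℝ, Integrable b ∧ ∀ x y, ‖dG1 f x y‖ ≤ b y := by
  have hcs : HasCompactSupport (fun p : R3 × R3 => dG1 f p.1 p.2) :=
    HasCompactSupport.intro hc fun p hp => dG1_eq_zero hp
  obtain ⟨C, hC⟩ := (continuous_dG1 hf).bounded_above_of_compact_support hcs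
  have hK : IsCompact (Prod.snd '' tsupport f) := IsCompact.image hc continuous_snd
  refine ⟨(Prod.snd '' tsupport f).indicator (fun _ => C), ?_, fun x y => ?_⟩
  · exact (integrable_indicator_iff hK.measurableSet).2
      (integrableOn_const (hs := hK.measure_lt_top.ne))
  · by_cases hy : y ∈ Prod.snd '' tsupport f
    · rw [indicator_of_mem hy]
      exact hC (x, y)
    · rw [indicator_of_notMem hy]
      have : (x, y) ∉ tsupport f := fun h => hy ⟨(x, y), h, rfl⟩
      rw [dG1_eq_zero this]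
      simp

theorem hasFDerivAt_slice (hf : ContDiff ℝ 1 f) (x y : R3) :
    HasFDerivAt (fun x => f (x, y))
      ((fderiv ℝ f (x, y)).comp (ContinuousLinearMap.inl ℝ R3 R3)) x := by
  have h1 : HasFDerivAt f (fderiv ℝ f (x, y)) (x, y) :=
    ((hf.differentiable (by norm_num)) _).hasFDerivAt
  have h2 : HasFDerivAt (fun x : R3 => (x, y)) (ContinuousLinearMap.inl ℝ R3 R3) x :=
    hasFDerivAt_prodMk_left x y
  exact h1.comp x h2

theorem hasFDerivAt_G1 (hf : ContDiff ℝ 1 f) (hc : HasCompactSupport f) (x : R3) :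
    HasFDerivAt (G1 f) (∫ y, dG1 f x y) x := by
  obtain ⟨b, hb, hb'⟩ := dG1_bound hf hc
  refine hasFDerivAt_integral_of_dominated_of_fderiv_le (F' := dG1 f) Filter.univ_mem ?_ ?_ ?_ ?_
    hb ?_
  · exact Filter.Eventually.of_forall fun x =>
      (slice2_int hf.continuous hc x).aestronglyMeasurable
  · exact slice2_int hf.continuous hc x
  · exact (continuous_dG1_right hf x).aestronglyMeasurable
  · exact ae_of_all _ fun y x _ => hb' x y
  · refine ae_of_all _ fun y x _ => ?_
    exact (hasFDerivAt_slice hf x y).const_mul (ph0 y)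

theorem contDiff_G1 (hf : ContDiff ℝ 1 f) (hc : HasCompactSupport f) : ContDiff ℝ 1 (G1 f) := by
  rw [contDiff_one_iff_fderiv]
  refine ⟨fun x => (hasFDerivAt_G1 hf hc x).differentiableAt, ?_⟩
  have h1 : fderiv ℝ (G1 f) = fun x => ∫ y, dG1 f x y := by
    funext x
    exact (hasFDerivAt_G1 hf hc x).fderiv
  rw [h1]
  obtain ⟨b, hb, hb'⟩ := dG1_bound hf hc
  refine continuous_of_dominated (bound := b) (fun x => ?_) (fun x => ae_of_all _ fun y => hb' x y)
    hb (ae_of_all _ fun y => ?_)
  · exact (continuous_dG1_right hf x).aestronglyMeasurable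
  · exact continuous_dG1_left hf y

theorem contDiff_G2 (hf : ContDiff ℝ 1 f) (hc : HasCompactSupport f) : ContDiff ℝ 1 (G2 f) := by
  have := contDiff_G1 (swap_contDiff hf) (swap_cpt hc)
  rwa [G1_swap] at this

theorem hasCompactSupport_G1 (hc : HasCompactSupport f) : HasCompactSupport (G1 f) := by
  refine HasCompactSupport.intro (K := Prod.fst '' tsupport f)
    (IsCompact.image hc continuous_fst) fun x hx => ?_
  unfold G1
  have h : ∀ y, ph0 y * f (x, y) = 0 := by
    intro y
    have : (x, y) ∉ tsupport f := fun h => hx ⟨(x, y), h, rfl⟩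
    rw [image_eq_zero_of_notMem_tsupport this, mul_zero]
  simp [h]

theorem hasCompactSupport_G2 (hc : HasCompactSupport f) : HasCompactSupport (G2 f) := by
  have := hasCompactSupport_G1 (swap_cpt hc)
  rwa [G1_swap] at this

theorem fderiv_G1 (hf : ContDiff ℝ 1 f) (hc : HasCompactSupport f) (x v : R3) :
    fderiv ℝ (G1 f) x v = ∫ y, ph0 y * fderiv ℝ (fun x => f (x, y)) x v := by
  rw [(hasFDerivAt_G1 hf hc x).fderiv]
  obtain ⟨b, hb, hb'⟩ := dG1_bound hf hc
  have hint : Integrable (dG1 f x) := by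
    refine hb.mono' ?_ (ae_of_all _ fun y => hb' x y)
    exact (continuous_dG1_right hf x).aestronglyMeasurable
  rw [ContinuousLinearMap.integral_apply hint]
  refine integral_congr_ae (ae_of_all _ fun y => ?_)
  show dG1 f x y v = ph0 y * fderiv ℝ (fun x => f (x, y)) x v
  rw [(hasFDerivAt_slice hf x y).fderiv]
  rfl

theorem fderiv_G2 (hf : ContDiff ℝ 1 f) (hc : HasCompactSupport f) (y v : R3) :
    fderiv ℝ (G2 f) y v = ∫ x, ph0 x * fderiv ℝ (fun y => f (x, y)) y v := by
  have := fderiv_G1 (swap_contDiff hf) (swap_cpt hc) y v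
  rwa [G1_swap] at this

theorem int_w0 (hf : Continuous f) (hc : HasCompactSupport f) :
    Integrable (fun p : R3 × R3 => ph0 p.1 * ph0 p.2 * f p) := by
  refine Continuous.integrable_of_hasCompactSupport ?_ hc.mul_left
  exact ((continuous_ph0.comp continuous_fst).mul (continuous_ph0.comp continuous_snd)).mul hf

theorem al_G1 (hf : Continuous f) (hc : HasCompactSupport f) : al (G1 f) = w0 f := by
  unfold w0
  rw [show (∫ p : R3 × R3, ph0 p.1 * ph0 p.2 * f p) =
    ∫ x, ∫ y, ph0 x * ph0 y * f (x, y) from integral_prod _ (int_w0 hf hc)]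
  unfold al G1
  refine integral_congr_ae (ae_of_all _ fun x => ?_)
  show ph0 x * (∫ y, ph0 y * f (x, y)) = ∫ y, ph0 x * ph0 y * f (x, y)
  rw [← integral_const_mul]
  refine integral_congr_ae (ae_of_all _ fun y => ?_)
  show ph0 x * (ph0 y * f (x, y)) = ph0 x * ph0 y * f (x, y)
  ring

theorem al_G2 (hf : Continuous f) (hc : HasCompactSupport f) : al (G2 f) = w0 f := by
  have := al_G1 (swap_continuous hf) (swap_cpt hc)
  rwa [G1_swap, w0_swap] at this

/-- kinetic energy, attraction, repulsion, norm of a two-particle function -/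
def k2 (f : R3 × R3 → ℝ) : ℝ :=
  ∫ p : R3 × R3, (gsq (fun x => f (x, p.2)) p.1 + gsq (fun y => f (p.1, y)) p.2)

def a2 (f : R3 × R3 → ℝ) : ℝ := ∫ p : R3 × R3, (1 / ‖p.1‖ + 1 / ‖p.2‖) * (f p) ^ 2

def r2 (f : R3 × R3 → ℝ) : ℝ := ∫ p : R3 × R3, 1 / ‖p.1 - p.2‖ * (f p) ^ 2

def n2 (f : R3 × R3 → ℝ) : ℝ := ∫ p : R3 × R3, (f p) ^ 2

theorem int_ph0_sq' : Integrable (fun x => (ph0 x) ^ 2) := by
  have := (integrable_mom 0).1
  simpa using this

theorem continuous_G1 (hf : Continuous f) (hc : HasCompactSupport f) : Continuous (G1 f) := by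
  have hcont : Continuous (fun p : R3 × R3 => ph0 p.2 * f p) :=
    (continuous_ph0.comp continuous_snd).mul hf
  obtain ⟨C, hC⟩ := hcont.bounded_above_of_compact_support hc.mul_left
  have hK : IsCompact (Prod.snd '' tsupport f) := IsCompact.image hc continuous_snd
  refine continuous_of_dominated (bound := (Prod.snd '' tsupport f).indicator (fun _ => C))
    (fun x => (slice2_int hf hc x).aestronglyMeasurable) (fun x => ae_of_all _ fun y => ?_)
    ((integrable_indicator_iff hK.measurableSet).2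
      (integrableOn_const (hs := hK.measure_lt_top.ne))) (ae_of_all _ fun y => ?_)
  · by_cases hy : y ∈ Prod.snd '' tsupport f
    · rw [indicator_of_mem hy]
      exact hC (x, y)
    · rw [indicator_of_notMem hy]
      have : (x, y) ∉ tsupport f := fun h => hy ⟨(x, y), h, rfl⟩
      rw [image_eq_zero_of_notMem_tsupport this]
      simp
  · exact continuous_const.mul (hf.comp (by fun_prop))

theorem continuous_G2 (hf : Continuous f) (hc : HasCompactSupport f) : Continuous (G2 f) := by
  have := continuous_G1 (swap_continuous hf) (swap_cpt hc)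
  rwa [G1_swap] at this

theorem int_three {α : Type} [MeasurableSpace α] {μ : Measure α} {A B C : α → ℝ} (b c : ℝ)
    (hA : Integrable A μ) (hB : Integrable B μ) (hC : Integrable C μ) :
    ∫ a, (A a - b * B a + c * C a) ∂μ = (∫ a, A a ∂μ) - b * (∫ a, B a ∂μ)
      + c * (∫ a, C a ∂μ) := by
  have h1 : Integrable (fun a => A a - b * B a) μ := hA.sub (hB.const_mul b)
  rw [integral_add h1 (hC.const_mul c), integral_sub hA (hB.const_mul b), integral_const_mul,
    integral_const_mul]

theorem int_six {α : Type} [MeasurableSpace α] {μ : Measure α} {A B C D E F : α → ℝ}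
    (hA : Integrable A μ) (hB : Integrable B μ) (hC : Integrable C μ) (hD : Integrable D μ)
    (hE : Integrable E μ) (hF : Integrable F μ) :
    ∫ a, (A a + B a + C a - 2 * D a - 2 * E a + 2 * F a) ∂μ
      = (∫ a, A a ∂μ) + (∫ a, B a ∂μ) + (∫ a, C a ∂μ) - 2 * (∫ a, D a ∂μ)
        - 2 * (∫ a, E a ∂μ) + 2 * (∫ a, F a ∂μ) := by
  have h1 : Integrable (fun a => A a + B a) μ := hA.add hB
  have h2 : Integrable (fun a => A a + B a + C a) μ := h1.add hC
  have h3 : Integrable (fun a => A a + B a + C a - 2 * D a) μ := h2.sub (hD.const_mul 2)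
  have h4 : Integrable (fun a => A a + B a + C a - 2 * D a - 2 * E a) μ :=
    h3.sub (hE.const_mul 2)
  rw [integral_add h4 (hF.const_mul 2), integral_sub h3 (hE.const_mul 2),
    integral_sub h2 (hD.const_mul 2), integral_add h1 hC, integral_add hA hB,
    integral_const_mul, integral_const_mul, integral_const_mul]

/-- Bessel -/
theorem bessel2 (hf : Continuous f) (hc : HasCompactSupport f) :
    (∫ x, (G1 f x) ^ 2) + (∫ y, (G2 f y) ^ 2) - (w0 f) ^ 2 ≤ n2 f := by
  have hg1 := continuous_G1 hf hc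
  have hg2 := continuous_G2 hf hc
  have hc1 := hasCompactSupport_G1 hc
  have hc2 := hasCompactSupport_G2 hc
  have h20 := int_ph0_sq'
  have i1 : Integrable (fun x => (G1 f x) ^ 2) := by
    have h : HasCompactSupport (fun x => (G1 f x) ^ 2) := by
      simp only [pow_two]
      exact hc1.mul_left
    exact (hg1.pow 2).integrable_of_hasCompactSupport h
  have i2 : Integrable (fun x => (G2 f x) ^ 2) := by
    have h : HasCompactSupport (fun x => (G2 f x) ^ 2) := by
      simp only [pow_two]
      exact hc2.mul_left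
    exact (hg2.pow 2).integrable_of_hasCompactSupport h
  have j1 : Integrable (fun x => ph0 x * G1 f x) :=
    (continuous_ph0.mul hg1).integrable_of_hasCompactSupport hc1.mul_left
  have j2 : Integrable (fun x => ph0 x * G2 f x) :=
    (continuous_ph0.mul hg2).integrable_of_hasCompactSupport hc2.mul_left
  -- the six integrals
  have eA : Integrable (fun p : R3 × R3 => (f p) ^ 2) := by
    have h : HasCompactSupport (fun x => (f x) ^ 2) := by
      simp only [pow_two]
      exact hc.mul_left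
    exact (hf.pow 2).integrable_of_hasCompactSupport h
  have eB : Integrable (fun p : R3 × R3 => (G1 f p.1) ^ 2 * (ph0 p.2) ^ 2) := i1.mul_prod h20
  have vB : ∫ p : R3 × R3, (G1 f p.1) ^ 2 * (ph0 p.2) ^ 2 = ∫ x, (G1 f x) ^ 2 := by
    have := integral_prod_mul (μ := (volume : Measure R3)) (ν := (volume : Measure R3))
      (fun x => (G1 f x) ^ 2) (fun x => (ph0 x) ^ 2)
    rw [int_ph0_sq, mul_one] at this
    exact this
  set K : R3 → ℝ := fun y => G2 f y - w0 f * ph0 y with hK
  have iK : Integrable (fun y => (K y) ^ 2) := by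
    have e : (fun y => (K y) ^ 2) = fun y => (G2 f y) ^ 2 - 2 * w0 f * (ph0 y * G2 f y)
        + (w0 f) ^ 2 * (ph0 y) ^ 2 := by
      funext y
      simp only [hK]
      ring
    rw [e]
    exact (i2.sub (j2.const_mul _)).add (h20.const_mul _)
  have valK : ∫ y, (K y) ^ 2 = (∫ y, (G2 f y) ^ 2) - (w0 f) ^ 2 := by
    have e : (fun y => (K y) ^ 2) = fun y => (G2 f y) ^ 2 - 2 * w0 f * (ph0 y * G2 f y)
        + (w0 f) ^ 2 * (ph0 y) ^ 2 := by
      funext y
      simp only [hK]
      ring
    rw [e, int_three (2 * w0 f) ((w0 f) ^ 2) i2 j2 h20, int_ph0_sq]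
    have : ∫ y, ph0 y * G2 f y = w0 f := al_G2 hf hc
    rw [this]
    ring
  have eC : Integrable (fun p : R3 × R3 => (ph0 p.1) ^ 2 * (K p.2) ^ 2) := h20.mul_prod iK
  have vC : ∫ p : R3 × R3, (ph0 p.1) ^ 2 * (K p.2) ^ 2 = (∫ y, (G2 f y) ^ 2) - (w0 f) ^ 2 := by
    have := integral_prod_mul (μ := (volume : Measure R3)) (ν := (volume : Measure R3))
      (fun x => (ph0 x) ^ 2) (fun x => (K x) ^ 2)
    rw [int_ph0_sq, one_mul, valK] at this
    exact this
  have eAB : Integrable (fun p : R3 × R3 => G1 f p.1 * (ph0 p.2 * f p)) := by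
    refine Continuous.integrable_of_hasCompactSupport ?_ ?_
    · exact (hg1.comp continuous_fst).mul ((continuous_ph0.comp continuous_snd).mul hf)
    · exact (hc.mul_left).mul_left
  have vAB : ∫ p : R3 × R3, G1 f p.1 * (ph0 p.2 * f p) = ∫ x, (G1 f x) ^ 2 := by
    rw [show (∫ p : R3 × R3, G1 f p.1 * (ph0 p.2 * f p)) =
      ∫ x, ∫ y, G1 f x * (ph0 y * f (x, y)) from integral_prod _ eAB]
    refine integral_congr_ae (ae_of_all _ fun x => ?_)
    show (∫ y, G1 f x * (ph0 y * f (x, y))) = (G1 f x) ^ 2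
    rw [integral_const_mul, pow_two]
    rfl
  have hKc : Continuous K := hg2.sub (continuous_const.mul continuous_ph0)
  have eAC : Integrable (fun p : R3 × R3 => K p.2 * (ph0 p.1 * f p)) := by
    refine Continuous.integrable_of_hasCompactSupport ?_ ?_
    · exact (hKc.comp continuous_snd).mul ((continuous_ph0.comp continuous_fst).mul hf)
    · exact (hc.mul_left).mul_left
  have vAC : ∫ p : R3 × R3, K p.2 * (ph0 p.1 * f p) = (∫ y, (G2 f y) ^ 2) - (w0 f) ^ 2 := by
    rw [show (∫ p : R3 × R3, K p.2 * (ph0 p.1 * f p)) =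
      ∫ y, ∫ x, K y * (ph0 x * f (x, y)) from integral_prod_symm _ eAC]
    have e1 : (∫ y, ∫ x, K y * (ph0 x * f (x, y))) = ∫ y, ((G2 f y) ^ 2
        - w0 f * (ph0 y * G2 f y)) := by
      refine integral_congr_ae (ae_of_all _ fun y => ?_)
      show (∫ x, K y * (ph0 x * f (x, y))) = (G2 f y) ^ 2 - w0 f * (ph0 y * G2 f y)
      rw [integral_const_mul]
      show K y * G2 f y = _
      simp only [hK]
      ring
    rw [e1, integral_sub i2 (j2.const_mul _), integral_const_mul]
    have : ∫ y, ph0 y * G2 f y = w0 f := al_G2 hf hc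
    rw [this]
    ring
  have jK : Integrable (fun y => ph0 y * K y) := by
    have e : (fun y => ph0 y * K y) = fun y => ph0 y * G2 f y - w0 f * (ph0 y) ^ 2 := by
      funext y
      simp only [hK]
      ring
    rw [e]
    exact j2.sub (h20.const_mul _)
  have eBC : Integrable (fun p : R3 × R3 => (ph0 p.1 * G1 f p.1) * (ph0 p.2 * K p.2)) :=
    j1.mul_prod jK
  have vBC : ∫ p : R3 × R3, (ph0 p.1 * G1 f p.1) * (ph0 p.2 * K p.2) = 0 := by
    have := integral_prod_mul (μ := (volume : Measure R3)) (ν := (volume : Measure R3))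
      (fun x => ph0 x * G1 f x) (fun x => ph0 x * K x)
    have e : (∫ y, ph0 y * K y) = 0 := by
      have e : (fun y => ph0 y * K y) = fun y => ph0 y * G2 f y - w0 f * (ph0 y) ^ 2 := by
        funext y
        simp only [hK]
        ring
      rw [e, integral_sub j2 (h20.const_mul _), integral_const_mul, int_ph0_sq]
      have : ∫ y, ph0 y * G2 f y = w0 f := al_G2 hf hc
      rw [this]
      ring
    rw [e, mul_zero] at this
    exact this
  have key : 0 ≤ ∫ p : R3 × R3, (f p - G1 f p.1 * ph0 p.2 - ph0 p.1 * K p.2) ^ 2 :=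
    integral_nonneg fun p => sq_nonneg _
  have eq : (∫ p : R3 × R3, (f p - G1 f p.1 * ph0 p.2 - ph0 p.1 * K p.2) ^ 2)
      = n2 f + (∫ x, (G1 f x) ^ 2) + ((∫ y, (G2 f y) ^ 2) - (w0 f) ^ 2)
        - 2 * (∫ x, (G1 f x) ^ 2) - 2 * ((∫ y, (G2 f y) ^ 2) - (w0 f) ^ 2) + 2 * 0 := by
    have e0 : (fun p : R3 × R3 => (f p - G1 f p.1 * ph0 p.2 - ph0 p.1 * K p.2) ^ 2) =
        fun p : R3 × R3 => (f p) ^ 2 + (G1 f p.1) ^ 2 * (ph0 p.2) ^ 2
          + (ph0 p.1) ^ 2 * (K p.2) ^ 2 - 2 * (G1 f p.1 * (ph0 p.2 * f p))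
          - 2 * (K p.2 * (ph0 p.1 * f p)) + 2 * ((ph0 p.1 * G1 f p.1) * (ph0 p.2 * K p.2)) := by
      funext p
      ring
    rw [e0, int_six eA eB eC eAB eAC eBC, vB, vC, vAB, vAC, vBC]
    rfl
  rw [eq] at key
  linarith

end Pool.Agent.Lib.CX
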