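import Mathlib
import Pool.Agent.Lib.CX.Basic
import Pool.Agent.Lib.CX.Integ
import Pool.Agent.Lib.CX.Prj
import Pool.Agent.Lib.CX.Kin

/-! CX task G2: smooth compactly supported approximations of the trial functions. -/

set_option autoImplicit false

open MeasureTheory Set Filter Topology

noncomputable section

namespace Pool.Agent.Lib.CX

/-- orbital part -/
def tf (α β a b : ℝ) : ℝ := Real.exp (-α * a - β * b) + Real.exp (-β * a - α * b)

/-- its derivative in `a` -/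
def tfa (α β a b : ℝ) : ℝ :=
  -α * Real.exp (-α * a - β * b) - β * Real.exp (-β * a - α * b)

/-- its derivative in `b` -/
def tfb (α β a b : ℝ) : ℝ :=
  -β * Real.exp (-α * a - β * b) - α * Real.exp (-β * a - α * b)

/-- the trial function in the coordinates a, b, u -/
def tF (α β c a b u : ℝ) : ℝ := tf α β a b * (1 + c * u)

/-- kinetic energy density of the trial function in the coordinates a, b, u -/
def tK (α β c a b u : ℝ) : ℝ :=
  ((tfa α β a b) ^ 2 + (tfb α β a b) ^ 2) * (1 + c * u) ^ 2 + 2 * c ^ 2 * (tf α β a b) ^ 2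
    + c * tf α β a b * (1 + c * u) * (tfa α β a b * ((a ^ 2 + u ^ 2 - b ^ 2) / (a * u))
      + tfb α β a b * ((b ^ 2 + u ^ 2 - a ^ 2) / (b * u)))

namespace ApxDAux

theorem int_exp {m : ℝ} (hm : 0 < m) : Integrable (fun x : R3 => Real.exp (-m * ‖x‖)) := by
  rw [integrable_fun_norm_addHaar (f := fun r => Real.exp (-m * r)) volume]
  have h := integrableOn_rpow_mul_exp_neg_mul_rpow (p := 1) (s := 2) (b := m) (by norm_num)
    (by norm_num) hm
  refine h.congr_fun (fun r hr => ?_) measurableSet_Ioi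
  simp only [smul_eq_mul, Real.rpow_one, finrank_euclideanSpace, Fintype.card_fin]
  norm_num

theorem int_inv_exp {m : ℝ} (hm : 0 < m) :
    Integrable (fun x : R3 => 1 / ‖x‖ * Real.exp (-m * ‖x‖)) := by
  rw [integrable_fun_norm_addHaar (f := fun r => 1 / r * Real.exp (-m * r)) volume]
  have h := integrableOn_rpow_mul_exp_neg_mul_rpow (p := 1) (s := 1) (b := m) (by norm_num)
    (by norm_num) hm
  refine h.congr_fun (fun r hr => ?_) measurableSet_Ioi
  have hr' : r ≠ 0 := (mem_Ioi.1 hr).ne'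
  simp only [smul_eq_mul, Real.rpow_one, finrank_euclideanSpace, Fintype.card_fin]
  norm_num
  field_simp

/-- The basic dominating function. -/
def E (m : ℝ) (p : R3 × R3) : ℝ := Real.exp (-m * ‖p.1‖) * Real.exp (-m * ‖p.2‖)

theorem E_pos (m : ℝ) (p : R3 × R3) : 0 < E m p := mul_pos (Real.exp_pos _) (Real.exp_pos _)

theorem int_E {m : ℝ} (hm : 0 < m) : Integrable (E m) :=
  (int_exp hm).mul_prod (int_exp hm)

theorem int_E1 {m : ℝ} (hm : 0 < m) : Integrable (fun p : R3 × R3 => 1 / ‖p.1‖ * E m p) := by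
  refine ((int_inv_exp hm).mul_prod (int_exp hm)).congr (Eventually.of_forall fun p => ?_)
  simp only [E]
  ring

theorem int_E2 {m : ℝ} (hm : 0 < m) : Integrable (fun p : R3 × R3 => 1 / ‖p.2‖ * E m p) := by
  refine ((int_exp hm).mul_prod (int_inv_exp hm)).congr (Eventually.of_forall fun p => ?_)
  simp only [E]
  ring

theorem int_E3 {m : ℝ} (hm : 0 < m) :
    Integrable (fun p : R3 × R3 => 1 / ‖p.1 - p.2‖ * E m p) := by
  have h := (int_exp (half_pos hm)).convolution_integrand (ContinuousLinearMap.mul ℝ ℝ)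
    (int_inv_exp (half_pos hm))
  refine Integrable.mono' h ?_ (Eventually.of_forall fun p => ?_)
  · refine Measurable.aestronglyMeasurable ?_
    unfold E
    fun_prop
  · rw [Real.norm_of_nonneg (mul_nonneg (by positivity) (E_pos m p).le)]
    simp only [ContinuousLinearMap.mul_apply']
    have h1 : ‖p.1 - p.2‖ ≤ ‖p.1‖ + ‖p.2‖ := norm_sub_le _ _
    have h2 : E m p ≤ Real.exp (-(m / 2) * ‖p.2‖) * Real.exp (-(m / 2) * ‖p.1 - p.2‖) := by
      unfold E
      rw [← Real.exp_add, ← Real.exp_add]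
      refine Real.exp_le_exp.2 ?_
      nlinarith [norm_nonneg p.1, norm_nonneg p.2]
    calc 1 / ‖p.1 - p.2‖ * E m p ≤ 1 / ‖p.1 - p.2‖ *
          (Real.exp (-(m / 2) * ‖p.2‖) * Real.exp (-(m / 2) * ‖p.1 - p.2‖)) :=
          mul_le_mul_of_nonneg_left h2 (by positivity)
      _ = _ := by ring

theorem growth {m c : ℝ} (hm : 0 < m) (hc : 0 ≤ c) {s u : ℝ} (hu : 0 ≤ u) (hus : u ≤ s) :
    (1 + c * u) ^ 2 * (Real.exp (-m * s)) ^ 2 ≤
      ((1 + c) ^ 2 * (1 + 2 / m) ^ 2) * Real.exp (-m * s) := by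
  have hs : 0 ≤ s := hu.trans hus
  have h1 : 1 + s ≤ (1 + 2 / m) * Real.exp (m * s / 2) := by
    have h2 : m * s / 2 + 1 ≤ Real.exp (m * s / 2) := Real.add_one_le_exp _
    have h3 : (1 + 2 / m) * (m * s / 2 + 1) = 1 + s + (m * s / 2 + 2 / m) := by
      field_simp
      ring
    have h4 : (1 + 2 / m) * (m * s / 2 + 1) ≤ (1 + 2 / m) * Real.exp (m * s / 2) :=
      mul_le_mul_of_nonneg_left h2 (by positivity)
    have h5 : 0 ≤ m * s / 2 + 2 / m := by positivity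
    linarith
  have h2 : 1 + c * u ≤ (1 + c) * (1 + s) := by nlinarith [mul_nonneg hc hs, mul_nonneg hc hu]
  have h3 : 1 + c * u ≤ (1 + c) * ((1 + 2 / m) * Real.exp (m * s / 2)) :=
    h2.trans (mul_le_mul_of_nonneg_left h1 (by linarith))
  have h4 : 0 ≤ 1 + c * u := by positivity
  have h5 : (1 + c * u) ^ 2 ≤ ((1 + c) * ((1 + 2 / m) * Real.exp (m * s / 2))) ^ 2 :=
    pow_le_pow_left₀ h4 h3 2
  have h6 : (Real.exp (m * s / 2)) ^ 2 * (Real.exp (-m * s)) ^ 2 = Real.exp (-m * s) := by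
    rw [← Real.exp_nat_mul, ← Real.exp_nat_mul, ← Real.exp_add]
    congr 1
    push_cast
    ring
  calc (1 + c * u) ^ 2 * (Real.exp (-m * s)) ^ 2 ≤
      ((1 + c) * ((1 + 2 / m) * Real.exp (m * s / 2))) ^ 2 * (Real.exp (-m * s)) ^ 2 :=
        mul_le_mul_of_nonneg_right h5 (by positivity)
    _ = ((1 + c) ^ 2 * (1 + 2 / m) ^ 2) *
        ((Real.exp (m * s / 2)) ^ 2 * (Real.exp (-m * s)) ^ 2) := by ring
    _ = _ := by rw [h6]

theorem ratio {a b u : ℝ} (ha : 0 ≤ a) (hb : 0 ≤ b) (hu : 0 ≤ u) (h1 : b ≤ a + u) (h2 : a ≤ b + u)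
    (h3 : u ≤ a + b) : |(a ^ 2 + u ^ 2 - b ^ 2) / (a * u)| ≤ 2 := by
  rw [abs_div, abs_of_nonneg (mul_nonneg ha hu)]
  refine div_le_of_le_mul₀ (mul_nonneg ha hu) (by norm_num) ?_
  rw [abs_le]
  constructor
  · nlinarith
  · nlinarith

variable {α β c : ℝ}

theorem comb_le {α β x y e : ℝ} (hα : 0 < α) (hβ : 0 < β) (x0 : 0 < x) (y0 : 0 < y)
    (hx : x ≤ e) (hy : y ≤ e) : |-α * x - β * y| ≤ (α + β) * e := by
  have h1 := mul_le_mul_of_nonneg_left hx hα.le
  have h2 := mul_le_mul_of_nonneg_left hy hβ.le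
  have h3 := mul_pos hα x0
  have h4 := mul_pos hβ y0
  have h5 := h3.le.trans h1
  have h6 := h4.le.trans h2
  rw [abs_le]
  constructor <;> linarith

/-- The algebraic estimate. -/
theorem alg {α β c f fa fb v e r s : ℝ} (hα : 0 < α) (hβ : 0 < β) (hc : 0 ≤ c) (he0 : 0 < e)
    (f0 : 0 ≤ f) (f1 : f ≤ 2 * e) (ha : |fa| ≤ (α + β) * e) (hb : |fb| ≤ (α + β) * e)
    (hv1 : 1 ≤ v) (hr : |r| ≤ 2) (hs : |s| ≤ 2) :
    |(fa ^ 2 + fb ^ 2) * v ^ 2 + 2 * c ^ 2 * f ^ 2 + c * f * v * (fa * r + fb * s)| ≤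
      (2 * (α + β) ^ 2 + 8 * c ^ 2 + 8 * c * (α + β)) * (v ^ 2 * e ^ 2) := by
  have f2 : f ^ 2 ≤ 4 * e ^ 2 := by
    have := pow_le_pow_left₀ f0 f1 2
    linarith
  have fa2 : fa ^ 2 ≤ (α + β) ^ 2 * e ^ 2 := by
    rw [← sq_abs, ← mul_pow]
    exact pow_le_pow_left₀ (abs_nonneg _) ha 2
  have fb2 : fb ^ 2 ≤ (α + β) ^ 2 * e ^ 2 := by
    rw [← sq_abs, ← mul_pow]
    exact pow_le_pow_left₀ (abs_nonneg _) hb 2
  have hv2 : v ≤ v ^ 2 := by nlinarith
  have q1 : v * e ^ 2 ≤ v ^ 2 * e ^ 2 := mul_le_mul_of_nonneg_right hv2 (sq_nonneg e)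
  have q0 : e ^ 2 ≤ v ^ 2 * e ^ 2 := by
    have := mul_le_mul_of_nonneg_right hv1 (sq_nonneg e)
    linarith
  have k1 : |(fa ^ 2 + fb ^ 2) * v ^ 2| ≤ 2 * (α + β) ^ 2 * (v ^ 2 * e ^ 2) := by
    rw [abs_of_nonneg (by positivity)]
    have := mul_le_mul_of_nonneg_right (add_le_add fa2 fb2) (sq_nonneg v)
    linarith
  have k2 : |2 * c ^ 2 * f ^ 2| ≤ 8 * c ^ 2 * (v ^ 2 * e ^ 2) := by
    rw [abs_of_nonneg (by positivity)]
    have := mul_le_mul_of_nonneg_left (f2.trans (mul_le_mul_of_nonneg_left q0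
      (by norm_num : (0 : ℝ) ≤ 4))) (by positivity : (0 : ℝ) ≤ 2 * c ^ 2)
    linarith
  have k3 : |c * f * v * (fa * r + fb * s)| ≤ 8 * c * (α + β) * (v ^ 2 * e ^ 2) := by
    rw [abs_mul, abs_mul, abs_mul, abs_of_nonneg hc, abs_of_nonneg f0,
      abs_of_nonneg (zero_le_one.trans hv1)]
    have l1 : |fa * r + fb * s| ≤ 4 * ((α + β) * e) := by
      refine (abs_add_le _ _).trans ?_
      rw [abs_mul, abs_mul]
      have m1 := mul_le_mul ha hr (abs_nonneg _) (by positivity)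
      have m2 := mul_le_mul hb hs (abs_nonneg _) (by positivity)
      linarith
    have l2 : c * f * v ≤ c * (2 * e) * v := by gcongr
    calc _ ≤ c * (2 * e) * v * (4 * ((α + β) * e)) :=
          mul_le_mul l2 l1 (abs_nonneg _) (by positivity)
      _ = 8 * c * (α + β) * (v * e ^ 2) := by ring
      _ ≤ _ := mul_le_mul_of_nonneg_left q1 (by positivity)
  refine (abs_add_le _ _).trans ?_
  have := abs_add_le ((fa ^ 2 + fb ^ 2) * v ^ 2) (2 * c ^ 2 * f ^ 2)
  linarith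

theorem bounds (hα : 0 < α) (hβ : 0 < β) (hc : 0 ≤ c) : ∃ m C : ℝ, 0 < m ∧ 0 ≤ C ∧
    ∀ p : R3 × R3, (tF α β c ‖p.1‖ ‖p.2‖ ‖p.1 - p.2‖) ^ 2 ≤ C * E m p ∧
      |tK α β c ‖p.1‖ ‖p.2‖ ‖p.1 - p.2‖| ≤ C * E m p := by
  set m := min α β with hm
  have hm0 : 0 < m := lt_min hα hβ
  have hmα : m ≤ α := min_le_left _ _
  have hmβ : m ≤ β := min_le_right _ _
  set G := (1 + c) ^ 2 * (1 + 2 / m) ^ 2 with hG
  have hG0 : 0 ≤ G := by positivity
  refine ⟨m, (4 + 2 * (α + β) ^ 2 + 8 * c ^ 2 + 8 * c * (α + β)) * G, hm0, by positivity,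
    fun p => ?_⟩
  set a := ‖p.1‖ with ha
  set b := ‖p.2‖ with hb
  set u := ‖p.1 - p.2‖ with hu
  have ha0 : 0 ≤ a := norm_nonneg _
  have hb0 : 0 ≤ b := norm_nonneg _
  have hu0 : 0 ≤ u := norm_nonneg _
  have t1 : u ≤ a + b := norm_sub_le _ _
  have t2 : a ≤ b + u := by
    have := norm_add_le p.2 (p.1 - p.2)
    rwa [add_sub_cancel] at this
  have t3 : b ≤ a + u := by
    have := norm_sub_le p.1 (p.1 - p.2)
    rwa [sub_sub_cancel] at this
  set e := Real.exp (-m * (a + b)) with he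
  have hE : E m p = e := by
    unfold E
    rw [← Real.exp_add, he]
    congr 1
    ring
  have he0 : 0 < e := Real.exp_pos _
  have e1 : Real.exp (-α * a - β * b) ≤ e := Real.exp_le_exp.2 (by nlinarith)
  have e2 : Real.exp (-β * a - α * b) ≤ e := Real.exp_le_exp.2 (by nlinarith)
  have p1 := Real.exp_pos (-α * a - β * b)
  have p2 := Real.exp_pos (-β * a - α * b)
  have f0 : 0 ≤ tf α β a b := by
    unfold tf
    positivity
  have f1 : tf α β a b ≤ 2 * e := by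
    unfold tf
    linarith
  have fa : |tfa α β a b| ≤ (α + β) * e := comb_le hα hβ p1 p2 e1 e2
  have fb : |tfb α β a b| ≤ (α + β) * e := by
    have := comb_le hβ hα p1 p2 e1 e2
    rwa [add_comm β α] at this
  have g0 := growth hm0 hc hu0 t1
  rw [← he, ← hG] at g0
  have hv1 : 1 ≤ 1 + c * u := by linarith [mul_nonneg hc hu0]
  have r1 := ratio ha0 hb0 hu0 t3 t2 t1
  have r2 := ratio hb0 ha0 hu0 t2 t3 (t1.trans (le_of_eq (add_comm a b)))
  have hS : 0 ≤ 2 * (α + β) ^ 2 + 8 * c ^ 2 + 8 * c * (α + β) := by positivity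
  rw [hE]
  constructor
  · have h1 : (tF α β c a b u) ^ 2 = (1 + c * u) ^ 2 * (tf α β a b) ^ 2 := by
      unfold tF
      ring
    rw [h1]
    calc (1 + c * u) ^ 2 * (tf α β a b) ^ 2 ≤ (1 + c * u) ^ 2 * (2 * e) ^ 2 :=
          mul_le_mul_of_nonneg_left (pow_le_pow_left₀ f0 f1 2) (sq_nonneg _)
      _ = 4 * ((1 + c * u) ^ 2 * e ^ 2) := by ring
      _ ≤ 4 * (G * e) := mul_le_mul_of_nonneg_left g0 (by norm_num)
      _ ≤ (4 + (2 * (α + β) ^ 2 + 8 * c ^ 2 + 8 * c * (α + β))) * (G * e) :=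
          mul_le_mul_of_nonneg_right (le_add_of_nonneg_right hS) (mul_nonneg hG0 he0.le)
      _ = _ := by ring
  · have k4 := alg hα hβ hc he0 f0 f1 fa fb hv1 r1 r2
    unfold tK
    refine k4.trans ((mul_le_mul_of_nonneg_left g0 hS).trans ?_)
    calc _ ≤ (4 + (2 * (α + β) ^ 2 + 8 * c ^ 2 + 8 * c * (α + β))) * (G * e) :=
          mul_le_mul_of_nonneg_right (le_add_of_nonneg_left (by norm_num))
            (mul_nonneg hG0 he0.le)
      _ = _ := by ring

theorem meas_F (α β c : ℝ) :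
    Measurable (fun p : R3 × R3 => tF α β c ‖p.1‖ ‖p.2‖ ‖p.1 - p.2‖) := by
  unfold tF tf
  fun_prop

theorem meas_K (α β c : ℝ) :
    Measurable (fun p : R3 × R3 => tK α β c ‖p.1‖ ‖p.2‖ ‖p.1 - p.2‖) := by
  unfold tK tf tfa tfb
  fun_prop

end ApxDAux

open ApxDAux

/-- the four functions are integrable -/
theorem trial_integrable {α β c : ℝ} (hα : 0 < α) (hβ : 0 < β) (hc : 0 ≤ c) :
    Integrable (fun p : R3 × R3 => (tF α β c ‖p.1‖ ‖p.2‖ ‖p.1 - p.2‖) ^ 2) ∧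
    Integrable (fun p : R3 × R3 => tK α β c ‖p.1‖ ‖p.2‖ ‖p.1 - p.2‖) ∧
    Integrable (fun p : R3 × R3 => (1 / ‖p.1‖ + 1 / ‖p.2‖) * (tF α β c ‖p.1‖ ‖p.2‖ ‖p.1 - p.2‖) ^ 2) ∧
    Integrable (fun p : R3 × R3 => 1 / ‖p.1 - p.2‖ * (tF α β c ‖p.1‖ ‖p.2‖ ‖p.1 - p.2‖) ^ 2) := by
  obtain ⟨m, C, hm, hC, hb⟩ := bounds hα hβ hc
  have mF := meas_F α β c
  have mK := meas_K α β c
  refine ⟨?_, ?_, ?_, ?_⟩
  · refine Integrable.mono' ((int_E hm).const_mul C) (mF.pow_const 2).aestronglyMeasurable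
      (Eventually.of_forall fun p => ?_)
    rw [Real.norm_of_nonneg (sq_nonneg _)]
    exact (hb p).1
  · refine Integrable.mono' ((int_E hm).const_mul C) mK.aestronglyMeasurable
      (Eventually.of_forall fun p => ?_)
    rw [Real.norm_eq_abs]
    exact (hb p).2
  · refine Integrable.mono' (((int_E1 hm).add (int_E2 hm)).const_mul C) ?_
      (Eventually.of_forall fun p => ?_)
    · refine Measurable.aestronglyMeasurable (Measurable.mul ?_ (mF.pow_const 2))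
      fun_prop
    · rw [Real.norm_of_nonneg (by positivity), Pi.add_apply]
      calc _ ≤ (1 / ‖p.1‖ + 1 / ‖p.2‖) * (C * E m p) :=
            mul_le_mul_of_nonneg_left (hb p).1 (by positivity)
        _ = _ := by ring
  · refine Integrable.mono' ((int_E3 hm).const_mul C) ?_ (Eventually.of_forall fun p => ?_)
    · refine Measurable.aestronglyMeasurable (Measurable.mul ?_ (mF.pow_const 2))
      fun_prop
    · rw [Real.norm_of_nonneg (by positivity)]
      calc _ ≤ 1 / ‖p.1 - p.2‖ * (C * E m p) :=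
            mul_le_mul_of_nonneg_left (hb p).1 (by positivity)
        _ = _ := by ring

end Pool.Agent.Lib.CX
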