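import Mathlib
import Pool.Agent.Lib.CX.Basic
import Pool.Agent.Lib.CX.Integ
import Pool.Agent.Lib.CX.Prj
import Pool.Agent.Lib.CX.Kin
import Pool.Agent.Lib.CX.ApxD

/-! CX task G4: smooth compactly supported approximations. -/

set_option autoImplicit false
set_option linter.unusedSectionVars false

open MeasureTheory Set Filter Topology

noncomputable section

namespace Pool.Agent.Lib.CX

/-- a smooth cutoff function -/
def bmp : ContDiffBump (0 : R3) := ⟨1, 2, one_pos, one_lt_two⟩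

lemma bmp_cd : ContDiff ℝ (⊤ : ℕ∞) (bmp : R3 → ℝ) := bmp.contDiff

lemma bmp_bd : ∃ M : ℝ, 0 ≤ M ∧ ∀ x : R3, ‖fderiv ℝ bmp x‖ ≤ M := by
  have h1 : Continuous (fderiv ℝ (bmp : R3 → ℝ)) := bmp_cd.continuous_fderiv (by simp)
  have h2 : HasCompactSupport (fderiv ℝ (bmp : R3 → ℝ)) := bmp.hasCompactSupport.fderiv ℝ
  obtain ⟨M, hM⟩ := h1.bounded_above_of_compact_support h2
  exact ⟨M, (norm_nonneg _).trans (hM 0), hM⟩

lemma rho_pos' {δ : ℝ} (hδ : 0 < δ) (x : R3) : 0 < rho δ x :=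
  Real.sqrt_pos.mpr (by positivity)

lemma norm_le_rho_apx (δ : ℝ) (x : R3) : ‖x‖ ≤ rho δ x :=
  Real.le_sqrt_of_sq_le (by nlinarith [sq_nonneg δ])

lemma rho_le_add {δ : ℝ} (hδ : 0 ≤ δ) (x : R3) : rho δ x ≤ ‖x‖ + δ := by
  refine (Real.sqrt_le_left (by positivity)).mpr ?_
  nlinarith [norm_nonneg x]

lemma rho_cd {δ : ℝ} (hδ : 0 < δ) : ContDiff ℝ (⊤ : ℕ∞) (rho δ) := by
  unfold rho
  refine ContDiff.sqrt ((contDiff_norm_sq ℝ).add contDiff_const) fun x => ?_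
  positivity

lemma rho_deriv {δ : ℝ} (hδ : 0 < δ) (x : R3) :
    HasFDerivAt (rho δ) ((1 / rho δ x) • (innerSL ℝ x : R3 →L[ℝ] ℝ)) x := by
  have h1 : HasFDerivAt (fun x : R3 => ‖x‖ ^ 2 + δ ^ 2) (2 • (innerSL ℝ x : R3 →L[ℝ] ℝ)) x := by
    have := (hasStrictFDerivAt_norm_sq x).hasFDerivAt
    exact this.add_const _
  have h2 : (‖x‖ ^ 2 + δ ^ 2) ≠ 0 := by positivity
  have h3 := h1.sqrt h2
  refine h3.congr_fderiv ?_
  ext v
  simp only [smul_apply, smul_eq_mul, rho, nsmul_eq_mul, Nat.cast_ofNat]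
  have h4 : √(‖x‖ ^ 2 + δ ^ 2) ≠ 0 := (Real.sqrt_pos.mpr (by positivity)).ne'
  field_simp

lemma tf_symm (α β a b : ℝ) : tf α β a b = tf α β b a := by
  unfold tf
  rw [add_comm]
  congr 2 <;> ring

lemma tfa_swap (α β a b : ℝ) : tfa α β b a = tfb α β a b := by
  unfold tfa tfb
  rw [show -α * b - β * a = -β * a - α * b by ring, show -β * b - α * a = -α * a - β * b by ring]
  ring

lemma tf_deriv (α β a b : ℝ) : HasDerivAt (fun a => tf α β a b) (tfa α β a b) a := by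
  unfold tf tfa
  have h1 : HasDerivAt (fun a : ℝ => -α * a - β * b) (-α) a := by
    simpa using ((hasDerivAt_id a).const_mul (-α)).sub_const (β * b)
  have h2 : HasDerivAt (fun a : ℝ => -β * a - α * b) (-β) a := by
    simpa using ((hasDerivAt_id a).const_mul (-β)).sub_const (α * b)
  have h3 := h1.exp.add h2.exp
  refine h3.congr_deriv ?_
  ring

variable {α β c δ : ℝ}

/-- the approximating functions -/
def aF (α β c δ : ℝ) (p : R3 × R3) : ℝ :=
  tf α β (rho δ p.1) (rho δ p.2) * (1 + c * rho δ (p.1 - p.2)) *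
    (bmp (δ • p.1) * bmp (δ • p.2))

lemma aF_symm (x y : R3) : aF α β c δ (x, y) = aF α β c δ (y, x) := by
  unfold aF
  have h1 : rho δ (x - y) = rho δ (y - x) := by
    unfold rho
    rw [norm_sub_rev]
  simp only [h1, tf_symm α β (rho δ x) (rho δ y), mul_comm (bmp (δ • x))]

lemma aF_cd (hδ : 0 < δ) : ContDiff ℝ (⊤ : ℕ∞) (aF α β c δ) := by
  have h1 : ContDiff ℝ (⊤ : ℕ∞) fun p : R3 × R3 => rho δ p.1 := (rho_cd hδ).comp contDiff_fst
  have h2 : ContDiff ℝ (⊤ : ℕ∞) fun p : R3 × R3 => rho δ p.2 := (rho_cd hδ).comp contDiff_snd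
  have h3 : ContDiff ℝ (⊤ : ℕ∞) fun p : R3 × R3 => rho δ (p.1 - p.2) :=
    (rho_cd hδ).comp (contDiff_fst.sub contDiff_snd)
  have h4 : ContDiff ℝ (⊤ : ℕ∞) fun p : R3 × R3 => bmp (δ • p.1) :=
    bmp_cd.comp (contDiff_fst.const_smul δ)
  have h5 : ContDiff ℝ (⊤ : ℕ∞) fun p : R3 × R3 => bmp (δ • p.2) :=
    bmp_cd.comp (contDiff_snd.const_smul δ)
  have h6 : ContDiff ℝ (⊤ : ℕ∞) fun p : R3 × R3 => tf α β (rho δ p.1) (rho δ p.2) := by
    unfold tf
    exact ((((contDiff_const.mul h1).sub (contDiff_const.mul h2))).exp).add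
      ((((contDiff_const.mul h1).sub (contDiff_const.mul h2))).exp)
  exact (h6.mul (contDiff_const.add (contDiff_const.mul h3))).mul (h4.mul h5)

lemma aF_cpt (hδ : 0 < δ) : HasCompactSupport (aF α β c δ) := by
  have h0 : ∀ x : R3, 2 / δ < ‖x‖ → bmp (δ • x) = 0 := by
    intro x hx
    have h1 : δ • x ∉ Function.support (bmp : R3 → ℝ) := by
      rw [bmp.support_eq, Metric.mem_ball, dist_zero_right, norm_smul, Real.norm_eq_abs,
        abs_of_pos hδ, not_lt]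
      rw [div_lt_iff₀ hδ] at hx
      change 2 ≤ δ * ‖x‖
      linarith
    exact Function.notMem_support.mp h1
  refine HasCompactSupport.intro (K := Metric.closedBall (0 : R3) (2 / δ) ×ˢ
    Metric.closedBall (0 : R3) (2 / δ)) ((isCompact_closedBall _ _).prod (isCompact_closedBall _ _))
    fun p hp => ?_
  rw [mem_prod, mem_closedBall_zero_iff, mem_closedBall_zero_iff, not_and_or, not_le, not_le] at hp
  unfold aF
  rcases hp with hp | hp
  · rw [h0 _ hp]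
    ring
  · rw [h0 _ hp]
    ring

/-- the derivative in the first variable -/
lemma aF_deriv (hδ : 0 < δ) (x y : R3) :
    HasFDerivAt (fun x => aF α β c δ (x, y))
      (((tfa α β (rho δ x) (rho δ y) * (1 + c * rho δ (x - y)) *
          (bmp (δ • x) * bmp (δ • y))) * (1 / rho δ x)) • (innerSL ℝ x : R3 →L[ℝ] ℝ) +
        ((tf α β (rho δ x) (rho δ y) * c * (bmp (δ • x) * bmp (δ • y))) *
          (1 / rho δ (x - y))) • (innerSL ℝ (x - y) : R3 →L[ℝ] ℝ) +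
        (tf α β (rho δ x) (rho δ y) * (1 + c * rho δ (x - y)) * bmp (δ • y) * δ) •
          fderiv ℝ bmp (δ • x)) x := by
  have h1 : HasFDerivAt (fun x => tf α β (rho δ x) (rho δ y))
      (tfa α β (rho δ x) (rho δ y) • ((1 / rho δ x) • (innerSL ℝ x : R3 →L[ℝ] ℝ))) x :=
    (tf_deriv α β (rho δ x) (rho δ y)).comp_hasFDerivAt x (rho_deriv hδ x)
  have h2 : HasFDerivAt (fun x => rho δ (x - y))
      ((1 / rho δ (x - y)) • (innerSL ℝ (x - y) : R3 →L[ℝ] ℝ)) x := by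
    have h3 := (rho_deriv hδ (x - y)).comp x ((hasFDerivAt_id x).sub_const y)
    rw [ContinuousLinearMap.comp_id] at h3
    exact h3
  have h3 : HasFDerivAt (fun x => 1 + c * rho δ (x - y))
      (c • ((1 / rho δ (x - y)) • (innerSL ℝ (x - y) : R3 →L[ℝ] ℝ))) x :=
    (h2.const_mul c).const_add 1
  have h4 : HasFDerivAt (fun x : R3 => bmp (δ • x)) (δ • fderiv ℝ bmp (δ • x)) x := by
    have h5 : HasFDerivAt (fun x : R3 => δ • x) (δ • ContinuousLinearMap.id ℝ R3) x :=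
      (hasFDerivAt_id x).const_smul δ
    have h6 := ((bmp_cd.differentiable (by simp)).differentiableAt (x := δ • x)).hasFDerivAt.comp
      x h5
    refine h6.congr_fderiv ?_
    ext v
    simp
  have h7 := (h1.mul h3).mul (h4.mul_const (bmp (δ • y)))
  refine h7.congr_fderiv ?_
  ext v
  simp only [add_apply, smul_apply, smul_eq_mul,
    Pi.mul_apply]
  ring

lemma inner_e3 (x : R3) (k : Fin 3) : (innerSL ℝ x : R3 →L[ℝ] ℝ) (e3 k) = x k := by
  rw [innerSL_apply_apply, e3, EuclideanSpace.inner_single_right]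
  simp

lemma sum_sq_norm (x : R3) : ∑ k : Fin 3, (x k) ^ 2 = ‖x‖ ^ 2 := by
  rw [EuclideanSpace.norm_sq_eq]
  simp

lemma sum_mul_inner (x y : R3) : ∑ k : Fin 3, x k * y k = inner ℝ x y := by
  rw [PiLp.inner_apply]
  simp [mul_comm]

/-- squared gradient of a combination -/
lemma gsq_formula {f : R3 → ℝ} {x u : R3} {a b d : ℝ} {g : R3 →L[ℝ] ℝ}
    (h : HasFDerivAt f (a • (innerSL ℝ x : R3 →L[ℝ] ℝ) + b • (innerSL ℝ u : R3 →L[ℝ] ℝ) + d • g) x) :
    gsq f x = ∑ k : Fin 3, (a * x k + b * u k + d * g (e3 k)) ^ 2 := by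
  unfold gsq
  rw [h.fderiv]
  refine Finset.sum_congr rfl fun k _ => ?_
  simp only [add_apply, smul_apply, smul_eq_mul, inner_e3]

/-- the limit of the squared gradient in the first variable -/
def tK1 (α β c : ℝ) (x y : R3) : ℝ :=
  ∑ k : Fin 3, (tfa α β ‖x‖ ‖y‖ * (1 + c * ‖x - y‖) * (1 / ‖x‖) * x k +
    tf α β ‖x‖ ‖y‖ * c * (1 / ‖x - y‖) * (x - y) k) ^ 2

lemma tK1_eq {x y : R3} (hx : x ≠ 0) (hxy : x ≠ y) : tK1 α β c x y =
    (tfa α β ‖x‖ ‖y‖) ^ 2 * (1 + c * ‖x - y‖) ^ 2 + c ^ 2 * (tf α β ‖x‖ ‖y‖) ^ 2 +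
      c * tf α β ‖x‖ ‖y‖ * (1 + c * ‖x - y‖) * (tfa α β ‖x‖ ‖y‖ *
        ((‖x‖ ^ 2 + ‖x - y‖ ^ 2 - ‖y‖ ^ 2) / (‖x‖ * ‖x - y‖))) := by
  have ha : ‖x‖ ≠ 0 := norm_ne_zero_iff.mpr hx
  have hu : ‖x - y‖ ≠ 0 := norm_ne_zero_iff.mpr (sub_ne_zero.mpr hxy)
  have hin : 2 * inner ℝ x (x - y) = ‖x‖ ^ 2 + ‖x - y‖ ^ 2 - ‖y‖ ^ 2 := by
    have h1 := norm_sub_sq_real x (x - y)
    rw [sub_sub_cancel] at h1
    linarith
  unfold tK1
  set A := tfa α β ‖x‖ ‖y‖ * (1 + c * ‖x - y‖) * (1 / ‖x‖) with hA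
  set B := tf α β ‖x‖ ‖y‖ * c * (1 / ‖x - y‖) with hB
  have h2 : ∑ k : Fin 3, (A * x k + B * (x - y) k) ^ 2 =
      A ^ 2 * ‖x‖ ^ 2 + B ^ 2 * ‖x - y‖ ^ 2 + A * B * (2 * inner ℝ x (x - y)) := by
    rw [← sum_sq_norm, ← sum_sq_norm, ← sum_mul_inner, Finset.mul_sum, Finset.mul_sum,
      Finset.mul_sum, Finset.mul_sum, ← Finset.sum_add_distrib, ← Finset.sum_add_distrib]
    refine Finset.sum_congr rfl fun k _ => ?_
    ring
  rw [h2, hin, hA, hB]
  field_simp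

lemma tK_eq {x y : R3} (hx : x ≠ 0) (hy : y ≠ 0) (hxy : x ≠ y) :
    tK α β c ‖x‖ ‖y‖ ‖x - y‖ = tK1 α β c x y + tK1 α β c y x := by
  rw [tK1_eq hx hxy, tK1_eq hy hxy.symm, norm_sub_rev y x, tfa_swap α β ‖x‖ ‖y‖, tf_symm α β ‖y‖ ‖x‖]
  unfold tK
  ring

/-- bound for the cutoff functions -/
lemma bmp_mul_le (u v : R3) : 0 ≤ bmp u * bmp v ∧ bmp u * bmp v ≤ 1 :=
  ⟨mul_nonneg bmp.nonneg bmp.nonneg, mul_le_one₀ bmp.le_one bmp.nonneg bmp.le_one⟩

/-- exponential bound -/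
lemma exp_bd {m a b a' b' : ℝ} (hm : 0 ≤ m) (ha : a ≤ a') (hb : b ≤ b') (hα : m ≤ α)
    (hβ : m ≤ β) (ha0 : 0 ≤ a) (hb0 : 0 ≤ b) :
    Real.exp (-α * a' - β * b') ≤ Real.exp (-(m * (a + b))) := by
  refine Real.exp_le_exp.mpr ?_
  have h1 : m * a ≤ α * a' := mul_le_mul hα ha ha0 (hm.trans hα)
  have h2 : m * b ≤ β * b' := mul_le_mul hβ hb hb0 (hm.trans hβ)
  linarith

lemma lin_exp {h s : ℝ} (hh : 0 < h) (_hs : 0 ≤ s) :
    (2 + s) * Real.exp (-(2 * h * s)) ≤ (2 + 1 / h) * Real.exp (-(h * s)) := by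
  have h1 : (2 + s) * Real.exp (-(h * s)) ≤ 2 + 1 / h := by
    have h2 : h * s + 1 ≤ Real.exp (h * s) := Real.add_one_le_exp _
    have h3 : Real.exp (-(h * s)) * Real.exp (h * s) = 1 := by
      rw [← Real.exp_add]
      simp
    have h4 : 0 < Real.exp (-(h * s)) := Real.exp_pos _
    have h5 : 2 + s ≤ (2 + 1 / h) * Real.exp (h * s) := by
      have h6 : (2 + 1 / h) * (h * s + 1) ≤ (2 + 1 / h) * Real.exp (h * s) :=
        mul_le_mul_of_nonneg_left h2 (by positivity)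
      have h7 : (2 + 1 / h) * (h * s + 1) = 2 + s + (2 * (h * s) + 1 / h) := by
        field_simp
        ring
      have h8 : 0 ≤ 2 * (h * s) + 1 / h := by positivity
      linarith
    calc (2 + s) * Real.exp (-(h * s))
        ≤ ((2 + 1 / h) * Real.exp (h * s)) * Real.exp (-(h * s)) :=
          mul_le_mul_of_nonneg_right h5 h4.le
      _ = (2 + 1 / h) * (Real.exp (-(h * s)) * Real.exp (h * s)) := by ring
      _ = _ := by rw [h3, mul_one]
  have h2 : Real.exp (-(2 * h * s)) = Real.exp (-(h * s)) * Real.exp (-(h * s)) := by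
    rw [← Real.exp_add]
    congr 1
    ring
  rw [h2, ← mul_assoc]
  exact mul_le_mul_of_nonneg_right h1 (Real.exp_pos _).le

/-- the dominating function -/
def aW (h : ℝ) (p : R3 × R3) : ℝ := (tF h h 0 ‖p.1‖ ‖p.2‖ ‖p.1 - p.2‖) ^ 2

lemma aW_eq (h : ℝ) (x y : R3) : aW h (x, y) = 4 * (Real.exp (-(h * (‖x‖ + ‖y‖)))) ^ 2 := by
  unfold aW tF tf
  simp only [zero_mul, add_zero, mul_one]
  rw [show -h * ‖x‖ - h * ‖y‖ = -(h * (‖x‖ + ‖y‖)) by ring]
  ring

section bounds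

variable {h : ℝ} (hh : 0 < h) (hα : 2 * h ≤ α) (hβ : 2 * h ≤ β) (hc : 0 ≤ c) (hδ : 0 < δ)
  (hδ1 : δ ≤ 1)

include hh hα hβ hc hδ hδ1

lemma tf_bd (x y : R3) : 0 ≤ tf α β (rho δ x) (rho δ y) ∧
    tf α β (rho δ x) (rho δ y) ≤ 2 * Real.exp (-(2 * h * (‖x‖ + ‖y‖))) := by
  refine ⟨?_, ?_⟩
  · unfold tf
    positivity
  · unfold tf
    have h1 := exp_bd (α := α) (β := β) (m := 2 * h) (by positivity) (norm_le_rho_apx δ x)
      (norm_le_rho_apx δ y) hα hβ (norm_nonneg _) (norm_nonneg _)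
    have h2 := exp_bd (α := β) (β := α) (m := 2 * h) (by positivity) (norm_le_rho_apx δ x)
      (norm_le_rho_apx δ y) hβ hα (norm_nonneg _) (norm_nonneg _)
    linarith

lemma tfa_bd (x y : R3) : |tfa α β (rho δ x) (rho δ y)| ≤
    (α + β) * Real.exp (-(2 * h * (‖x‖ + ‖y‖))) := by
  have h1 := exp_bd (α := α) (β := β) (m := 2 * h) (by positivity) (norm_le_rho_apx δ x)
    (norm_le_rho_apx δ y) hα hβ (norm_nonneg _) (norm_nonneg _)
  have h2 := exp_bd (α := β) (β := α) (m := 2 * h) (by positivity) (norm_le_rho_apx δ x)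
    (norm_le_rho_apx δ y) hβ hα (norm_nonneg _) (norm_nonneg _)
  have h3 : 0 ≤ α := by linarith
  have h4 : 0 ≤ β := by linarith
  have h5 : tfa α β (rho δ x) (rho δ y) = -(α * Real.exp (-α * rho δ x - β * rho δ y) +
    β * Real.exp (-β * rho δ x - α * rho δ y)) := by
    unfold tfa
    ring
  rw [h5, abs_neg, abs_of_nonneg (by positivity)]
  have h6 := mul_le_mul_of_nonneg_left h1 h3
  have h7 := mul_le_mul_of_nonneg_left h2 h4
  linarith

lemma lin_bd (x y : R3) : 0 ≤ 1 + c * rho δ (x - y) ∧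
    1 + c * rho δ (x - y) ≤ (1 + c) * (2 + (‖x‖ + ‖y‖)) := by
  have h1 := rho_pos' hδ (x - y)
  have h2 := rho_le_add hδ.le (x - y)
  have h3 := norm_sub_le x y
  have h4 := norm_nonneg x
  have h5 := norm_nonneg y
  refine ⟨by positivity, ?_⟩
  have h6 : rho δ (x - y) ≤ 1 + (‖x‖ + ‖y‖) := by linarith
  have h7 := mul_le_mul_of_nonneg_left h6 hc
  nlinarith

lemma lin_tf_bd (x y : R3) : (1 + c * rho δ (x - y)) * Real.exp (-(2 * h * (‖x‖ + ‖y‖))) ≤
    (1 + c) * (2 + 1 / h) * Real.exp (-(h * (‖x‖ + ‖y‖))) := by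
  have h1 := (lin_bd hh hα hβ hc hδ hδ1 x y).2
  have h2 := lin_exp hh (add_nonneg (norm_nonneg x) (norm_nonneg y))
  calc (1 + c * rho δ (x - y)) * Real.exp (-(2 * h * (‖x‖ + ‖y‖)))
      ≤ ((1 + c) * (2 + (‖x‖ + ‖y‖))) * Real.exp (-(2 * h * (‖x‖ + ‖y‖))) :=
        mul_le_mul_of_nonneg_right h1 (Real.exp_pos _).le
    _ = (1 + c) * ((2 + (‖x‖ + ‖y‖)) * Real.exp (-(2 * h * (‖x‖ + ‖y‖)))) := by ring
    _ ≤ (1 + c) * ((2 + 1 / h) * Real.exp (-(h * (‖x‖ + ‖y‖)))) :=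
        mul_le_mul_of_nonneg_left h2 (by positivity)
    _ = _ := by ring

lemma aF_bd (x y : R3) : (aF α β c δ (x, y)) ^ 2 ≤
    ((1 + c) * (2 + 1 / h)) ^ 2 * aW h (x, y) := by
  have h1 := tf_bd hh hα hβ hc hδ hδ1 x y
  have h2 := lin_bd hh hα hβ hc hδ hδ1 x y
  have h3 := lin_tf_bd hh hα hβ hc hδ hδ1 x y
  have h4 := bmp_mul_le (δ • x) (δ • y)
  have h5 : 0 ≤ aF α β c δ (x, y) := by
    unfold aF
    exact mul_nonneg (mul_nonneg h1.1 h2.1) h4.1
  have h6 : aF α β c δ (x, y) ≤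
      2 * ((1 + c) * (2 + 1 / h) * Real.exp (-(h * (‖x‖ + ‖y‖)))) := by
    unfold aF
    calc tf α β (rho δ x) (rho δ y) * (1 + c * rho δ (x - y)) * (bmp (δ • x) * bmp (δ • y))
        ≤ tf α β (rho δ x) (rho δ y) * (1 + c * rho δ (x - y)) * 1 :=
          mul_le_mul_of_nonneg_left h4.2 (mul_nonneg h1.1 h2.1)
      _ ≤ (2 * Real.exp (-(2 * h * (‖x‖ + ‖y‖)))) * (1 + c * rho δ (x - y)) := by
          rw [mul_one]
          exact mul_le_mul_of_nonneg_right h1.2 h2.1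
      _ = 2 * ((1 + c * rho δ (x - y)) * Real.exp (-(2 * h * (‖x‖ + ‖y‖)))) := by ring
      _ ≤ _ := mul_le_mul_of_nonneg_left h3 (by norm_num)
  rw [aW_eq]
  calc (aF α β c δ (x, y)) ^ 2
      ≤ (2 * ((1 + c) * (2 + 1 / h) * Real.exp (-(h * (‖x‖ + ‖y‖))))) ^ 2 :=
        pow_le_pow_left₀ h5 h6 2
    _ = _ := by ring

lemma gsq_bd {M : ℝ} (hM : 0 ≤ M) (hMb : ∀ x : R3, ‖fderiv ℝ bmp x‖ ≤ M) (x y : R3) :
    gsq (fun x => aF α β c δ (x, y)) x ≤
      3 * (((α + β) * ((1 + c) * (2 + 1 / h))) ^ 2 + (2 * c) ^ 2 +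
        3 * (2 * ((1 + c) * (2 + 1 / h)) * M) ^ 2) * aW h (x, y) := by
  have h1 := tf_bd hh hα hβ hc hδ hδ1 x y
  have h1' := tfa_bd hh hα hβ hc hδ hδ1 x y
  have h2 := lin_bd hh hα hβ hc hδ hδ1 x y
  have h3 := lin_tf_bd hh hα hβ hc hδ hδ1 x y
  have h4 := bmp_mul_le (δ • x) (δ • y)
  have hρ := rho_pos' hδ x
  have hρ' := rho_pos' hδ (x - y)
  set E := Real.exp (-(h * (‖x‖ + ‖y‖))) with hE
  set E2 := Real.exp (-(2 * h * (‖x‖ + ‖y‖))) with hE2
  have hE0 : 0 < E := Real.exp_pos _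
  have hE20 : 0 < E2 := Real.exp_pos _
  have hEE : E2 ≤ E := by
    refine Real.exp_le_exp.mpr ?_
    have := norm_nonneg x
    have := norm_nonneg y
    nlinarith [mul_nonneg hh.le (add_nonneg (norm_nonneg x) (norm_nonneg y))]
  set Q := (1 + c) * (2 + 1 / h) with hQ
  rw [gsq_formula (aF_deriv hδ x y)]
  set X := bmp (δ • x) * bmp (δ • y) with hX
  set P := 1 + c * rho δ (x - y) with hP
  set t := tf α β (rho δ x) (rho δ y) with ht
  set ta := tfa α β (rho δ x) (rho δ y) with hta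
  -- the three coefficients
  have b1 : |ta * P * X * (1 / rho δ x)| * ‖x‖ ≤ (α + β) * Q * E := by
    have e1 : |ta * P * X * (1 / rho δ x)| * ‖x‖ = |ta| * P * X * (‖x‖ / rho δ x) := by
      rw [abs_mul, abs_mul, abs_mul, abs_of_nonneg h2.1, abs_of_nonneg h4.1,
        abs_of_pos (by positivity : 0 < 1 / rho δ x)]
      ring
    rw [e1]
    have e2 : ‖x‖ / rho δ x ≤ 1 := (div_le_one hρ).mpr (norm_le_rho_apx δ x)
    calc |ta| * P * X * (‖x‖ / rho δ x) ≤ |ta| * P * 1 * 1 := by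
          refine mul_le_mul (mul_le_mul_of_nonneg_left h4.2 (mul_nonneg (abs_nonneg _) h2.1)) e2
            (by positivity) ?_
          exact mul_nonneg (mul_nonneg (abs_nonneg _) h2.1) zero_le_one
      _ = |ta| * P := by ring
      _ ≤ ((α + β) * E2) * P := mul_le_mul_of_nonneg_right h1' h2.1
      _ = (α + β) * (P * E2) := by ring
      _ ≤ (α + β) * (Q * E) := mul_le_mul_of_nonneg_left h3 (by linarith)
      _ = _ := by ring
  have b2 : |t * c * X * (1 / rho δ (x - y))| * ‖x - y‖ ≤ 2 * c * E := by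
    have e1 : |t * c * X * (1 / rho δ (x - y))| * ‖x - y‖ =
        t * c * X * (‖x - y‖ / rho δ (x - y)) := by
      rw [abs_mul, abs_mul, abs_mul, abs_of_nonneg h1.1, abs_of_nonneg hc, abs_of_nonneg h4.1,
        abs_of_pos (by positivity : 0 < 1 / rho δ (x - y))]
      ring
    rw [e1]
    have e2 : ‖x - y‖ / rho δ (x - y) ≤ 1 := (div_le_one hρ').mpr (norm_le_rho_apx δ (x - y))
    calc t * c * X * (‖x - y‖ / rho δ (x - y)) ≤ t * c * 1 * 1 := by
          refine mul_le_mul (mul_le_mul_of_nonneg_left h4.2 (mul_nonneg h1.1 hc)) e2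
            (by positivity) ?_
          exact mul_nonneg (mul_nonneg h1.1 hc) zero_le_one
      _ = t * c := by ring
      _ ≤ (2 * E2) * c := mul_le_mul_of_nonneg_right h1.2 hc
      _ ≤ (2 * E) * c := mul_le_mul_of_nonneg_right (by linarith) hc
      _ = _ := by ring
  have b3 : |t * P * bmp (δ • y) * δ| * M ≤ 2 * Q * M * E := by
    rw [abs_mul, abs_mul, abs_mul, abs_of_nonneg h1.1, abs_of_nonneg h2.1,
      abs_of_nonneg bmp.nonneg, abs_of_pos hδ]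
    calc t * P * bmp (δ • y) * δ * M ≤ t * P * 1 * 1 * M := by
          refine mul_le_mul_of_nonneg_right (mul_le_mul (mul_le_mul_of_nonneg_left bmp.le_one
            (mul_nonneg h1.1 h2.1)) hδ1 hδ.le ?_) hM
          exact mul_nonneg (mul_nonneg h1.1 h2.1) zero_le_one
      _ = t * P * M := by ring
      _ ≤ (2 * E2) * P * M := by
          refine mul_le_mul_of_nonneg_right (mul_le_mul_of_nonneg_right h1.2 h2.1) hM
      _ = 2 * (P * E2) * M := by ring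
      _ ≤ 2 * (Q * E) * M := by
          refine mul_le_mul_of_nonneg_right (mul_le_mul_of_nonneg_left h3 (by norm_num)) hM
      _ = _ := by ring
  set A := ta * P * X * (1 / rho δ x) with hA
  set B := t * c * X * (1 / rho δ (x - y)) with hB
  set D := t * P * bmp (δ • y) * δ with hD
  have hg : ∀ k : Fin 3, |fderiv ℝ bmp (δ • x) (e3 k)| ≤ M := by
    intro k
    have e1 := (fderiv ℝ bmp (δ • x)).le_opNorm (e3 k)
    have e2 : ‖e3 k‖ = 1 := by
      unfold e3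
      rw [PiLp.norm_single, norm_one]
    rw [e2, mul_one, Real.norm_eq_abs] at e1
    exact e1.trans (hMb _)
  have hterm : ∀ k : Fin 3, (A * x k + B * (x - y) k + D * fderiv ℝ bmp (δ • x) (e3 k)) ^ 2 ≤
      3 * (A ^ 2 * (x k) ^ 2 + B ^ 2 * ((x - y) k) ^ 2 + (D * M) ^ 2) := by
    intro k
    have e1 : ∀ p q r : ℝ, (p + q + r) ^ 2 ≤ 3 * (p ^ 2 + q ^ 2 + r ^ 2) := fun p q r => by
      nlinarith [sq_nonneg (p - q), sq_nonneg (q - r), sq_nonneg (p - r)]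
    refine (e1 _ _ _).trans ?_
    have f0 : (fderiv ℝ bmp (δ • x) (e3 k)) ^ 2 ≤ M ^ 2 := by
      rw [← sq_abs]
      exact pow_le_pow_left₀ (abs_nonneg _) (hg k) 2
    have e2 : (D * fderiv ℝ bmp (δ • x) (e3 k)) ^ 2 ≤ (D * M) ^ 2 := by
      have f1 : (D * fderiv ℝ bmp (δ • x) (e3 k)) ^ 2 =
          D ^ 2 * (fderiv ℝ bmp (δ • x) (e3 k)) ^ 2 := mul_pow _ _ _
      have f2 : (D * M) ^ 2 = D ^ 2 * M ^ 2 := mul_pow _ _ _
      rw [f1, f2]
      exact mul_le_mul_of_nonneg_left f0 (sq_nonneg D)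
    have f3 : (A * x k) ^ 2 = A ^ 2 * (x k) ^ 2 := mul_pow _ _ _
    have f4 : (B * (x - y) k) ^ 2 = B ^ 2 * ((x - y) k) ^ 2 := mul_pow _ _ _
    rw [f3, f4]
    linarith
  have hsum : ∑ k : Fin 3, (A * x k + B * (x - y) k + D * fderiv ℝ bmp (δ • x) (e3 k)) ^ 2 ≤
      ∑ k : Fin 3, 3 * (A ^ 2 * (x k) ^ 2 + B ^ 2 * ((x - y) k) ^ 2 + (D * M) ^ 2) :=
    Finset.sum_le_sum fun k _ => hterm k
  refine hsum.trans ?_
  rw [← Finset.mul_sum, Finset.sum_add_distrib, Finset.sum_add_distrib, ← Finset.mul_sum,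
    ← Finset.mul_sum, sum_sq_norm, sum_sq_norm, Finset.sum_const, Finset.card_univ,
    Fintype.card_fin, nsmul_eq_mul, aW_eq, ← hE]
  have c1 : A ^ 2 * ‖x‖ ^ 2 ≤ ((α + β) * Q * E) ^ 2 := by
    rw [← sq_abs A, ← mul_pow]
    exact pow_le_pow_left₀ (by positivity) b1 2
  have c2 : B ^ 2 * ‖x - y‖ ^ 2 ≤ (2 * c * E) ^ 2 := by
    rw [← sq_abs B, ← mul_pow]
    exact pow_le_pow_left₀ (by positivity) b2 2
  have c3 : (D * M) ^ 2 ≤ (2 * Q * M * E) ^ 2 := by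
    have f1 : (D * M) ^ 2 = (|D| * M) ^ 2 := by
      rw [mul_pow D M, mul_pow |D| M, sq_abs]
    rw [f1]
    exact pow_le_pow_left₀ (by positivity) b3 2
  push_cast
  have hEs : 0 ≤ E ^ 2 := sq_nonneg _
  have d1 : 0 ≤ (((α + β) * Q) ^ 2 + (2 * c) ^ 2 + 3 * (2 * Q * M) ^ 2) * E ^ 2 := by positivity
  calc 3 * (A ^ 2 * ‖x‖ ^ 2 + B ^ 2 * ‖x - y‖ ^ 2 + 3 * (D * M) ^ 2)
      ≤ 3 * (((α + β) * Q * E) ^ 2 + (2 * c * E) ^ 2 + 3 * (2 * Q * M * E) ^ 2) := by linarith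
    _ = 3 * ((((α + β) * Q) ^ 2 + (2 * c) ^ 2 + 3 * (2 * Q * M) ^ 2) * E ^ 2) := by ring
    _ ≤ 3 * (((α + β) * Q) ^ 2 + (2 * c) ^ 2 + 3 * (2 * Q * M) ^ 2) * (4 * E ^ 2) := by
        linarith

end bounds

/-- the parameters -/
def dl (j : ℕ) : ℝ := 1 / ((j : ℝ) + 1)

lemma dl_pos (j : ℕ) : 0 < dl j := by
  unfold dl
  positivity

lemma dl_le (j : ℕ) : dl j ≤ 1 := by
  unfold dl
  rw [div_le_one (by positivity)]
  have : (0 : ℝ) ≤ j := Nat.cast_nonneg j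
  linarith

lemma dl_lim : Tendsto dl atTop (𝓝 0) := tendsto_one_div_add_atTop_nhds_zero_nat

lemma rho_lim (x : R3) : Tendsto (fun j => rho (dl j) x) atTop (𝓝 ‖x‖) := by
  refine tendsto_of_tendsto_of_tendsto_of_le_of_le tendsto_const_nhds ?_
    (fun j => norm_le_rho (dl j) x) (fun j => rho_le_add (dl_pos j).le x)
  simpa using dl_lim.const_add ‖x‖

lemma bmp_lim (x : R3) : Tendsto (fun j => bmp (dl j • x)) atTop (𝓝 1) := by
  have h1 : Tendsto (fun j => dl j • x) atTop (𝓝 ((0 : ℝ) • x)) := dl_lim.smul_const x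
  have h2 := (bmp_cd.continuous.tendsto ((0 : ℝ) • x)).comp h1
  have h3 : bmp ((0 : ℝ) • x) = 1 := by
    rw [zero_smul]
    exact bmp.one_of_mem_closedBall (Metric.mem_closedBall_self bmp.rIn_pos.le)
  rw [h3] at h2
  exact h2

lemma tf_lim (x y : R3) :
    Tendsto (fun j => tf α β (rho (dl j) x) (rho (dl j) y)) atTop (𝓝 (tf α β ‖x‖ ‖y‖)) := by
  unfold tf
  have h1 := rho_lim x
  have h2 := rho_lim y
  have h3 : Tendsto (fun j => -α * rho (dl j) x - β * rho (dl j) y) atTop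
      (𝓝 (-α * ‖x‖ - β * ‖y‖)) := (h1.const_mul _).sub (h2.const_mul _)
  have h4 : Tendsto (fun j => -β * rho (dl j) x - α * rho (dl j) y) atTop
      (𝓝 (-β * ‖x‖ - α * ‖y‖)) := (h1.const_mul _).sub (h2.const_mul _)
  exact ((Real.continuous_exp.tendsto _).comp h3).add ((Real.continuous_exp.tendsto _).comp h4)

lemma tfa_lim (x y : R3) :
    Tendsto (fun j => tfa α β (rho (dl j) x) (rho (dl j) y)) atTop (𝓝 (tfa α β ‖x‖ ‖y‖)) := by
  unfold tfa
  have h1 := rho_lim x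
  have h2 := rho_lim y
  have h3 : Tendsto (fun j => -α * rho (dl j) x - β * rho (dl j) y) atTop
      (𝓝 (-α * ‖x‖ - β * ‖y‖)) := (h1.const_mul _).sub (h2.const_mul _)
  have h4 : Tendsto (fun j => -β * rho (dl j) x - α * rho (dl j) y) atTop
      (𝓝 (-β * ‖x‖ - α * ‖y‖)) := (h1.const_mul _).sub (h2.const_mul _)
  exact (((Real.continuous_exp.tendsto _).comp h3).const_mul _).sub
    (((Real.continuous_exp.tendsto _).comp h4).const_mul _)

lemma lin_lim (x y : R3) :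
    Tendsto (fun j => 1 + c * rho (dl j) (x - y)) atTop (𝓝 (1 + c * ‖x - y‖)) :=
  ((rho_lim (x - y)).const_mul c).const_add 1

lemma aF_lim (x y : R3) :
    Tendsto (fun j => aF α β c (dl j) (x, y)) atTop (𝓝 (tF α β c ‖x‖ ‖y‖ ‖x - y‖)) := by
  unfold aF tF
  have h1 := ((tf_lim (α := α) (β := β) x y).mul (lin_lim (c := c) x y)).mul
    ((bmp_lim x).mul (bmp_lim y))
  simpa using h1

lemma gsq_lim {x y : R3} (hx : x ≠ 0) (hxy : x ≠ y) :
    Tendsto (fun j => gsq (fun x => aF α β c (dl j) (x, y)) x) atTop (𝓝 (tK1 α β c x y)) := by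
  obtain ⟨M, hM, hMb⟩ := bmp_bd
  have hx' : ‖x‖ ≠ 0 := norm_ne_zero_iff.mpr hx
  have hu' : ‖x - y‖ ≠ 0 := norm_ne_zero_iff.mpr (sub_ne_zero.mpr hxy)
  have h0 : ∀ j, gsq (fun x => aF α β c (dl j) (x, y)) x = _ := fun j =>
    gsq_formula (aF_deriv (dl_pos j) x y)
  simp_rw [h0]
  unfold tK1
  refine tendsto_finsetSum _ fun k _ => ?_
  refine Tendsto.pow ?_ 2
  have t1 := tf_lim (α := α) (β := β) x y
  have t2 := tfa_lim (α := α) (β := β) x y
  have t3 := lin_lim (c := c) x y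
  have t4 := (bmp_lim x).mul (bmp_lim y)
  have t5 : Tendsto (fun j => 1 / rho (dl j) x) atTop (𝓝 (1 / ‖x‖)) :=
    tendsto_const_nhds.div (rho_lim x) hx'
  have t6 : Tendsto (fun j => 1 / rho (dl j) (x - y)) atTop (𝓝 (1 / ‖x - y‖)) :=
    tendsto_const_nhds.div (rho_lim (x - y)) hu'
  have a1 : Tendsto (fun j => tfa α β (rho (dl j) x) (rho (dl j) y) *
      (1 + c * rho (dl j) (x - y)) * (bmp (dl j • x) * bmp (dl j • y)) * (1 / rho (dl j) x) * x k)
      atTop (𝓝 (tfa α β ‖x‖ ‖y‖ * (1 + c * ‖x - y‖) * (1 / ‖x‖) * x k)) := by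
    have := (((t2.mul t3).mul t4).mul t5).mul_const (x k)
    rwa [mul_one, mul_one] at this
  have a2 : Tendsto (fun j => tf α β (rho (dl j) x) (rho (dl j) y) * c *
      (bmp (dl j • x) * bmp (dl j • y)) * (1 / rho (dl j) (x - y)) * (x - y) k)
      atTop (𝓝 (tf α β ‖x‖ ‖y‖ * c * (1 / ‖x - y‖) * (x - y) k)) := by
    have := (((t1.mul_const c).mul t4).mul t6).mul_const ((x - y) k)
    rwa [mul_one, mul_one] at this
  have a3 : Tendsto (fun j => tf α β (rho (dl j) x) (rho (dl j) y) *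
      (1 + c * rho (dl j) (x - y)) * bmp (dl j • y) * dl j * fderiv ℝ bmp (dl j • x) (e3 k))
      atTop (𝓝 0) := by
    have b1 := (((t1.mul t3).mul (bmp_lim y)).mul dl_lim)
    rw [mul_zero] at b1
    have b2 := bdd_le_mul_tendsto_zero' (f := fun j => fderiv ℝ bmp (dl j • x) (e3 k)) M
      (Eventually.of_forall fun j => by
        have e1 := (fderiv ℝ bmp (dl j • x)).le_opNorm (e3 k)
        have e2 : ‖e3 k‖ = 1 := by
          unfold e3
          rw [PiLp.norm_single, norm_one]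
        rw [e2, mul_one, Real.norm_eq_abs] at e1
        exact e1.trans (hMb _)) b1
    exact b2.congr fun j => by ring
  have := (a1.add a2).add a3
  rwa [add_zero] at this

/-- slices of a smooth function -/
lemma fderiv_slice1 {F : R3 × R3 → ℝ} (hF : ContDiff ℝ (⊤ : ℕ∞) F) (p : R3 × R3) (v : R3) :
    fderiv ℝ (fun x => F (x, p.2)) p.1 v = fderiv ℝ F p (v, 0) := by
  have h1 : HasFDerivAt F (fderiv ℝ F p) (p.1, p.2) :=
    ((hF.differentiable (by simp)).differentiableAt (x := p)).hasFDerivAt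
  have h2 : HasFDerivAt (fun x : R3 => (x, p.2)) (ContinuousLinearMap.inl ℝ R3 R3) p.1 :=
    hasFDerivAt_prodMk_left p.1 p.2
  have h3 := h1.comp p.1 h2
  have h4 : fderiv ℝ (fun x => F (x, p.2)) p.1 =
      (fderiv ℝ F p).comp (ContinuousLinearMap.inl ℝ R3 R3) := h3.fderiv
  rw [h4]
  simp

lemma fderiv_slice2 {F : R3 × R3 → ℝ} (hF : ContDiff ℝ (⊤ : ℕ∞) F) (p : R3 × R3) (v : R3) :
    fderiv ℝ (fun y => F (p.1, y)) p.2 v = fderiv ℝ F p (0, v) := by
  have h1 : HasFDerivAt F (fderiv ℝ F p) (p.1, p.2) :=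
    ((hF.differentiable (by simp)).differentiableAt (x := p)).hasFDerivAt
  have h2 : HasFDerivAt (fun y : R3 => (p.1, y)) (ContinuousLinearMap.inr ℝ R3 R3) p.2 :=
    hasFDerivAt_prodMk_right p.1 p.2
  have h3 := h1.comp p.2 h2
  have h4 : fderiv ℝ (fun y => F (p.1, y)) p.2 =
      (fderiv ℝ F p).comp (ContinuousLinearMap.inr ℝ R3 R3) := h3.fderiv
  rw [h4]
  simp

lemma k2_cont {F : R3 × R3 → ℝ} (hF : ContDiff ℝ (⊤ : ℕ∞) F) :
    Continuous fun p : R3 × R3 => gsq (fun x => F (x, p.2)) p.1 + gsq (fun y => F (p.1, y)) p.2 := by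
  have h0 : Continuous (fderiv ℝ F) := hF.continuous_fderiv (by simp)
  unfold gsq
  simp_rw [fderiv_slice1 hF, fderiv_slice2 hF]
  refine Continuous.add ?_ ?_
  · exact continuous_finsetSum _ fun k _ => (h0.clm_apply continuous_const).pow 2
  · exact continuous_finsetSum _ fun k _ => (h0.clm_apply continuous_const).pow 2

lemma gsq_nonneg' (f : R3 → ℝ) (x : R3) : 0 ≤ gsq f x :=
  Finset.sum_nonneg fun _ _ => sq_nonneg _

/-- almost everywhere nonzero -/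
lemma ae_fst_ne : ∀ᵐ p : R3 × R3, p.1 ≠ 0 := by
  have h1 : ∀ᵐ x : R3, x ≠ 0 := by
    rw [ae_iff]
    simp
  exact Measure.quasiMeasurePreserving_fst.ae h1

lemma ae_snd_ne : ∀ᵐ p : R3 × R3, p.2 ≠ 0 := by
  have h1 : ∀ᵐ x : R3, x ≠ 0 := by
    rw [ae_iff]
    simp
  exact Measure.quasiMeasurePreserving_snd.ae h1

/-- the second gradient, by symmetry -/
lemma gsq_snd (x y : R3) : gsq (fun y => aF α β c δ (x, y)) y = gsq (fun z => aF α β c δ (z, x)) y := by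
  have h1 : (fun y => aF α β c δ (x, y)) = fun z => aF α β c δ (z, x) := by
    funext z
    exact aF_symm x z
  rw [h1]

lemma aW_symm (h : ℝ) (x y : R3) : aW h (y, x) = aW h (x, y) := by
  rw [aW_eq, aW_eq, add_comm]

theorem apx {α β c : ℝ} (hα : 0 < α) (hβ : 0 < β) (hc : 0 ≤ c) :
    ∃ F : ℕ → R3 × R3 → ℝ, (∀ j, ContDiff ℝ (⊤ : ℕ∞) (F j) ∧ HasCompactSupport (F j) ∧
        ∀ x y, F j (x, y) = F j (y, x)) ∧
      Tendsto (fun j => n2 (F j)) atTop
        (𝓝 (∫ p : R3 × R3, (tF α β c ‖p.1‖ ‖p.2‖ ‖p.1 - p.2‖) ^ 2)) ∧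
      Tendsto (fun j => k2 (F j)) atTop
        (𝓝 (∫ p : R3 × R3, tK α β c ‖p.1‖ ‖p.2‖ ‖p.1 - p.2‖)) ∧
      Tendsto (fun j => a2 (F j)) atTop
        (𝓝 (∫ p : R3 × R3, (1 / ‖p.1‖ + 1 / ‖p.2‖) * (tF α β c ‖p.1‖ ‖p.2‖ ‖p.1 - p.2‖) ^ 2)) ∧
      Tendsto (fun j => r2 (F j)) atTop
        (𝓝 (∫ p : R3 × R3, 1 / ‖p.1 - p.2‖ * (tF α β c ‖p.1‖ ‖p.2‖ ‖p.1 - p.2‖) ^ 2)) := by
  set h : ℝ := min α β / 2 with hh'
  have hh : 0 < h := by
    have := lt_min hα hβ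
    positivity
  have h2a : 2 * h ≤ α := by
    rw [hh']
    have := min_le_left α β
    linarith
  have h2b : 2 * h ≤ β := by
    rw [hh']
    have := min_le_right α β
    linarith
  obtain ⟨I1, -, I3, I4⟩ := trial_integrable hh hh (le_refl (0 : ℝ))
  obtain ⟨M, hM, hMb⟩ := bmp_bd
  have hcd : ∀ j, ContDiff ℝ (⊤ : ℕ∞) (aF α β c (dl j)) := fun j => aF_cd (dl_pos j)
  have hcont : ∀ j, Continuous (aF α β c (dl j)) := fun j => (hcd j).continuous
  have m1 : Measurable fun p : R3 × R3 => 1 / ‖p.1‖ + 1 / ‖p.2‖ := by fun_prop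
  have m2 : Measurable fun p : R3 × R3 => 1 / ‖p.1 - p.2‖ := by fun_prop
  refine ⟨fun j => aF α β c (dl j), fun j => ⟨hcd j, aF_cpt (dl_pos j), aF_symm⟩, ?_, ?_, ?_, ?_⟩
  · refine tendsto_integral_of_dominated_convergence
      (fun p => ((1 + c) * (2 + 1 / h)) ^ 2 * aW h p) (fun j => ?_) (I1.const_mul _)
      (fun j => ?_) ?_
    · exact ((hcont j).pow 2).aestronglyMeasurable
    · refine Eventually.of_forall fun p => ?_
      rw [Real.norm_of_nonneg (sq_nonneg _)]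
      exact aF_bd hh h2a h2b hc (dl_pos j) (dl_le j) p.1 p.2
    · exact Eventually.of_forall fun p => (aF_lim p.1 p.2).pow 2
  · set C := 3 * (((α + β) * ((1 + c) * (2 + 1 / h))) ^ 2 + (2 * c) ^ 2 +
        3 * (2 * ((1 + c) * (2 + 1 / h)) * M) ^ 2) with hC
    refine tendsto_integral_of_dominated_convergence
      (fun p => (2 * C) * aW h p) (fun j => ?_) (I1.const_mul _)
      (fun j => ?_) ?_
    · exact (k2_cont (hcd j)).aestronglyMeasurable
    · refine Eventually.of_forall fun p => ?_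
      rw [Real.norm_of_nonneg (add_nonneg (gsq_nonneg' _ _) (gsq_nonneg' _ _)), gsq_snd]
      have e1 := gsq_bd hh h2a h2b hc (dl_pos j) (dl_le j) hM hMb p.1 p.2
      have e2 := gsq_bd hh h2a h2b hc (dl_pos j) (dl_le j) hM hMb p.2 p.1
      rw [aW_symm] at e2
      rw [← hC] at e1 e2
      have e3 : aW h p = aW h (p.1, p.2) := rfl
      rw [e3]
      linarith
    · filter_upwards [ae_fst_ne, ae_snd_ne, ae_prod_ne] with p hp1 hp2 hp3
      rw [tK_eq hp1 hp2 hp3]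
      refine (gsq_lim hp1 hp3).add ?_
      simp_rw [gsq_snd]
      exact gsq_lim hp2 hp3.symm
  · refine tendsto_integral_of_dominated_convergence
      (fun p => ((1 + c) * (2 + 1 / h)) ^ 2 * ((1 / ‖p.1‖ + 1 / ‖p.2‖) * aW h p))
      (fun j => ?_) (I3.const_mul _) (fun j => ?_) ?_
    · exact m1.aestronglyMeasurable.mul ((hcont j).pow 2).aestronglyMeasurable
    · refine Eventually.of_forall fun p => ?_
      have e0 : 0 ≤ 1 / ‖p.1‖ + 1 / ‖p.2‖ := by positivity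
      rw [Real.norm_of_nonneg (mul_nonneg e0 (sq_nonneg _))]
      have e1 := mul_le_mul_of_nonneg_left
        (aF_bd hh h2a h2b hc (dl_pos j) (dl_le j) p.1 p.2) e0
      refine e1.trans (le_of_eq ?_)
      ring
    · exact Eventually.of_forall fun p => ((aF_lim p.1 p.2).pow 2).const_mul _
  · refine tendsto_integral_of_dominated_convergence
      (fun p => ((1 + c) * (2 + 1 / h)) ^ 2 * (1 / ‖p.1 - p.2‖ * aW h p))
      (fun j => ?_) (I4.const_mul _) (fun j => ?_) ?_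
    · exact m2.aestronglyMeasurable.mul ((hcont j).pow 2).aestronglyMeasurable
    · refine Eventually.of_forall fun p => ?_
      have e0 : 0 ≤ 1 / ‖p.1 - p.2‖ := by positivity
      rw [Real.norm_of_nonneg (mul_nonneg e0 (sq_nonneg _))]
      have e1 := mul_le_mul_of_nonneg_left
        (aF_bd hh h2a h2b hc (dl_pos j) (dl_le j) p.1 p.2) e0
      refine e1.trans (le_of_eq ?_)
      ring
    · exact Eventually.of_forall fun p => ((aF_lim p.1 p.2).pow 2).const_mul _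

end Pool.Agent.Lib.CX
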