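import Mathlib
import Pool.Agent.Lib.CX.Basic

/-! CX task A2: freezing particle `0` and permuting particles. -/

set_option autoImplicit false

open MeasureTheory Set

noncomputable section

namespace Pool.Agent.Lib.CX

variable {n : ℕ}

/-- squared gradient in particle `i` -/
def kinp (f : X n → ℝ) (i : Fin n) (x : X n) : ℝ := ∑ k : Fin 3, (fderiv ℝ f x (ed i k)) ^ 2

/-- the measurable equivalence `R3 × X n = X (n+1)` -/
def consE (n : ℕ) : R3 × X n ≃ᵐ X (n + 1) :=
  (MeasurableEquiv.piFinSuccAbove (fun _ : Fin (n + 1) => R3) 0).symm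

theorem consE_apply (p : R3 × X n) : consE n p = (Fin.cons p.1 p.2 : X (n + 1)) := by
  funext i
  refine Fin.cases ?_ (fun j => ?_) i
  · simp [consE, MeasurableEquiv.piFinSuccAbove, Fin.insertNthEquiv]
  · simp [consE, MeasurableEquiv.piFinSuccAbove, Fin.insertNthEquiv]

theorem mp_consE : MeasurePreserving (consE n) :=
  (volume_preserving_piFinSuccAbove (fun _ : Fin (n + 1) => R3) 0).symm

/-- `X (n+1)` is `R3 × X n` -/
theorem integrable_cons {F : X (n + 1) → ℝ} (hF : Integrable F) :
    Integrable (fun p : R3 × X n => F (Fin.cons p.1 p.2 : X (n + 1))) := by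
  have h := (mp_consE (n := n)).integrable_comp_emb (consE n).measurableEmbedding (g := F)
  have h2 : Integrable (F ∘ (consE n)) := h.2 hF
  have h3 : (F ∘ (consE n)) = fun p : R3 × X n => F (Fin.cons p.1 p.2 : X (n + 1)) := by
    funext p
    show F (consE n p) = _
    rw [consE_apply]
  rwa [h3] at h2

theorem integral_cons (F : X (n + 1) → ℝ) :
    ∫ x, F x = ∫ p : R3 × X n, F (Fin.cons p.1 p.2 : X (n + 1)) := by
  rw [← (mp_consE (n := n)).integral_comp (consE n).measurableEmbedding F]
  refine integral_congr_ae (ae_of_all _ fun p => ?_)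
  show F (consE n p) = _
  rw [consE_apply]

theorem integral_cons_iter {F : X (n + 1) → ℝ} (hF : Integrable F) :
    ∫ x, F x = ∫ u : R3, ∫ y : X n, F (Fin.cons u y : X (n + 1)) := by
  rw [integral_cons]
  exact integral_prod _ (integrable_cons hF)

theorem integral_cons_iter' {F : X (n + 1) → ℝ} (hF : Integrable F) :
    ∫ x, F x = ∫ y : X n, ∫ u : R3, F (Fin.cons u y : X (n + 1)) := by
  rw [integral_cons]
  exact integral_prod_symm _ (integrable_cons hF)

theorem sum_spin_cons (G : (Fin (n + 1) → Fin 2) → ℝ) :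
    ∑ s, G s = ∑ a : Fin 2, ∑ s : Fin n → Fin 2, G (Fin.cons a s : Fin (n + 1) → Fin 2) := by
  rw [← Fintype.sum_prod_type']
  symm
  refine Fintype.sum_equiv (Fin.consEquiv (fun _ : Fin (n + 1) => Fin 2)) _ _ (fun p => rfl)

theorem cons_leftInv (u : R3) : Function.LeftInverse (fun z : X (n + 1) => (fun i => z i.succ))
    (fun y : X n => (Fin.cons u y : X (n + 1))) := by
  intro y
  rfl

theorem continuous_cons_right (u : R3) :
    Continuous (fun y : X n => (Fin.cons u y : X (n + 1))) := by
  refine continuous_pi fun i => ?_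
  refine Fin.cases ?_ (fun j => ?_) i
  · simpa using continuous_const
  · simpa using continuous_apply j

theorem contDiff_cons_right (u : R3) :
    ContDiff ℝ (⊤ : ℕ∞) (fun y : X n => (Fin.cons u y : X (n + 1))) := by
  refine contDiff_pi.2 fun i => ?_
  refine Fin.cases ?_ (fun j => ?_) i
  · simpa using contDiff_const
  · simpa using contDiff_apply ℝ R3 j

theorem isClosedEmbedding_cons_right (u : R3) :
    Topology.IsClosedEmbedding (fun y : X n => (Fin.cons u y : X (n + 1))) :=
  (cons_leftInv u).isClosedEmbedding (continuous_pi fun i => continuous_apply i.succ)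
    (continuous_cons_right u)

theorem sign_lift (τ : Equiv.Perm (Fin n)) :
    Equiv.Perm.sign (Equiv.Perm.decomposeFin.symm (0, τ)) = Equiv.Perm.sign τ := by
  rw [Equiv.Perm.decomposeFin.symm_sign]
  simp

theorem cons_comp_lift {α : Type} (τ : Equiv.Perm (Fin n)) (a : α) (s : Fin n → α) :
    (Fin.cons a s : Fin (n + 1) → α) ∘ (Equiv.Perm.decomposeFin.symm (0, τ)) =
      (Fin.cons a (s ∘ τ) : Fin (n + 1) → α) := by
  funext i
  refine Fin.cases ?_ (fun j => ?_) i
  · simp
  · simp [Equiv.Perm.decomposeFin_symm_apply_succ]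

/-- the slice of an admissible function is admissible -/
theorem slice_adm {ψ : (Fin (n + 1) → Fin 2) → X (n + 1) → ℝ} (h : Adm (n + 1) ψ)
    (a : Fin 2) (u : R3) :
    Adm n (fun s y => ψ (Fin.cons a s : Fin (n + 1) → Fin 2) (Fin.cons u y : X (n + 1))) := by
  refine ⟨fun s => ?_, fun s => ?_, fun τ s x => ?_⟩
  · exact (h.smooth _).comp (contDiff_cons_right u)
  · exact (h.cpt _).comp_isClosedEmbedding (isClosedEmbedding_cons_right u)
  · have := h.anti (Equiv.Perm.decomposeFin.symm (0, τ)) (Fin.cons a s) (Fin.cons u x)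
    rw [cons_comp_lift, cons_comp_lift, sign_lift] at this
    exact this

theorem fderiv_cons_succ {f : X (n + 1) → ℝ} (hf : Differentiable ℝ f) (u : R3) (y : X n)
    (i : Fin n) (k : Fin 3) :
    fderiv ℝ (fun y : X n => f (Fin.cons u y : X (n + 1))) y (ed i k)
      = fderiv ℝ f (Fin.cons u y : X (n + 1)) (ed i.succ k) := by
  let L : X n →L[ℝ] X (n + 1) := ContinuousLinearMap.pi (fun i : Fin (n + 1) =>
    Fin.cases (motive := fun _ => X n →L[ℝ] R3) 0 (fun j => ContinuousLinearMap.proj j) i)
  have hL : HasFDerivAt (fun y : X n => (Fin.cons u y : X (n + 1))) L y := by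
    refine hasFDerivAt_pi.2 fun i => ?_
    refine Fin.cases ?_ (fun j => ?_) i
    · exact hasFDerivAt_const u y
    · exact (ContinuousLinearMap.proj (R := ℝ) (φ := fun _ : Fin n => R3) j).hasFDerivAt
  have h1 := (hf (Fin.cons u y : X (n + 1))).hasFDerivAt.comp y hL
  have h2 : fderiv ℝ (fun y : X n => f (Fin.cons u y : X (n + 1))) y =
      (fderiv ℝ f (Fin.cons u y : X (n + 1))).comp L := h1.fderiv
  rw [h2, ContinuousLinearMap.comp_apply]
  congr 1
  funext j
  refine Fin.cases ?_ (fun j => ?_) j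
  · show (0 : R3) = _
    simp [ed]
  · show ed i k j = ed i.succ k j.succ
    by_cases hji : j = i
    · subst hji
      simp [ed]
    · have : j.succ ≠ i.succ := fun h => hji (Fin.succ_injective _ h)
      simp [ed, Pi.single_eq_of_ne hji, Pi.single_eq_of_ne this]

theorem fderiv_cons_zero {f : X (n + 1) → ℝ} (hf : Differentiable ℝ f) (u : R3) (y : X n)
    (k : Fin 3) :
    fderiv ℝ (fun u : R3 => f (Fin.cons u y : X (n + 1))) u (e3 k)
      = fderiv ℝ f (Fin.cons u y : X (n + 1)) (ed 0 k) := by
  let L : R3 →L[ℝ] X (n + 1) := ContinuousLinearMap.pi (fun i : Fin (n + 1) =>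
    Fin.cases (motive := fun _ => R3 →L[ℝ] R3) (ContinuousLinearMap.id ℝ R3) (fun _ => 0) i)
  have hL : HasFDerivAt (fun u : R3 => (Fin.cons u y : X (n + 1))) L u := by
    refine hasFDerivAt_pi.2 fun i => ?_
    refine Fin.cases ?_ (fun j => ?_) i
    · exact hasFDerivAt_id u
    · exact hasFDerivAt_const (y j) u
  have h1 := (hf (Fin.cons u y : X (n + 1))).hasFDerivAt.comp u hL
  have h2 : fderiv ℝ (fun u : R3 => f (Fin.cons u y : X (n + 1))) u =
      (fderiv ℝ f (Fin.cons u y : X (n + 1))).comp L := h1.fderiv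
  rw [h2, ContinuousLinearMap.comp_apply]
  congr 1
  funext j
  refine Fin.cases ?_ (fun j => ?_) j
  · show e3 k = ed 0 k 0
    simp [ed]
  · show (0 : R3) = ed 0 k j.succ
    simp [ed]

end Pool.Agent.Lib.CX
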