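import Mathlib
import Pool.Agent.Lib.CX.Basic
import Pool.Agent.Lib.CX.Slice

/-! CX task A3: permuting the particles. -/

set_option autoImplicit false

open MeasureTheory Set Filter Topology

noncomputable section

namespace Pool.Agent.Lib.CX

variable {n : ℕ}

/-- permuting the particles as a measurable equivalence -/
def permE (σ : Equiv.Perm (Fin n)) : X n ≃ᵐ X n :=
  MeasurableEquiv.piCongrLeft (fun _ : Fin n => R3) σ.symm

theorem permE_apply (σ : Equiv.Perm (Fin n)) (x : X n) : permE σ x = x ∘ σ := by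
  funext i
  have h : (Equiv.piCongrLeft (fun _ : Fin n => R3) σ.symm) x (σ.symm (σ i)) = x (σ i) :=
    Equiv.piCongrLeft_apply_apply (fun _ : Fin n => R3) σ.symm x (σ i)
  rw [Equiv.symm_apply_apply] at h
  exact h

theorem mp_permE (σ : Equiv.Perm (Fin n)) : MeasurePreserving (permE σ) :=
  volume_measurePreserving_piCongrLeft (fun _ : Fin n => R3) σ.symm

/-- permuting the particles -/
theorem integral_perm (σ : Equiv.Perm (Fin n)) (F : (Fin n → Fin 2) → X n → ℝ) :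
    ∑ s : Fin n → Fin 2, ∫ x : X n, F (s ∘ σ) (x ∘ σ) = ∑ s, ∫ x, F s x := by
  have h1 : ∀ s : Fin n → Fin 2, ∫ x : X n, F (s ∘ σ) (x ∘ σ) = ∫ x, F (s ∘ σ) x := by
    intro s
    rw [← (mp_permE σ).integral_comp (permE σ).measurableEmbedding (F (s ∘ σ))]
    refine integral_congr_ae (ae_of_all _ fun x => ?_)
    show _ = F (s ∘ σ) (permE σ x)
    rw [permE_apply]
  rw [Finset.sum_congr rfl (fun s _ => h1 s)]
  refine Fintype.sum_equiv (Equiv.arrowCongr σ.symm (Equiv.refl (Fin 2))) _ _ (fun s => ?_)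
  congr 1

theorem sign_sq (σ : Equiv.Perm (Fin n)) :
    (((Equiv.Perm.sign σ : ℤˣ) : ℤ) : ℝ) ^ 2 = 1 := by
  rcases Int.units_eq_one_or (Equiv.Perm.sign σ) with h | h <;> rw [h] <;> norm_num

theorem fderiv_perm {ψ : (Fin n → Fin 2) → X n → ℝ} (h : Adm n ψ) (σ : Equiv.Perm (Fin n))
    (s : Fin n → Fin 2) (x : X n) (i : Fin n) (k : Fin 3) :
    fderiv ℝ (ψ (s ∘ σ)) (x ∘ σ) (ed i k)
      = (((Equiv.Perm.sign σ : ℤˣ) : ℤ) : ℝ) * fderiv ℝ (ψ s) x (ed (σ i) k) := by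
  let L : X n →L[ℝ] X n := ContinuousLinearMap.pi (fun i : Fin n =>
    ContinuousLinearMap.proj (σ i))
  have hL : HasFDerivAt (fun y : X n => y ∘ σ) L x := by
    refine hasFDerivAt_pi.2 fun i => ?_
    exact (ContinuousLinearMap.proj (R := ℝ) (φ := fun _ : Fin n => R3) (σ i)).hasFDerivAt
  have hd : DifferentiableAt ℝ (ψ (s ∘ σ)) (x ∘ σ) :=
    ((h.smooth (s ∘ σ)).differentiable (by simp)) _
  have hd' : DifferentiableAt ℝ (ψ s) x := ((h.smooth s).differentiable (by simp)) _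
  have h1 : HasFDerivAt (fun y : X n => ψ (s ∘ σ) (y ∘ σ))
      ((fderiv ℝ (ψ (s ∘ σ)) (x ∘ σ)).comp L) x := hd.hasFDerivAt.comp x hL
  have h2 : HasFDerivAt (fun y : X n => (((Equiv.Perm.sign σ : ℤˣ) : ℤ) : ℝ) * ψ s y)
      ((((Equiv.Perm.sign σ : ℤˣ) : ℤ) : ℝ) • fderiv ℝ (ψ s) x) x :=
    hd'.hasFDerivAt.const_mul _
  have h3 : (fun y : X n => ψ (s ∘ σ) (y ∘ σ)) =
      fun y : X n => (((Equiv.Perm.sign σ : ℤˣ) : ℤ) : ℝ) * ψ s y := by
    funext y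
    exact h.anti σ s y
  rw [h3] at h1
  have h4 := h1.unique h2
  have h5 := congrArg (fun A : X n →L[ℝ] ℝ => A (ed (σ i) k)) h4
  have h6 : L (ed (σ i) k) = ed i k := by
    funext j
    show ed (σ i) k (σ j) = ed i k j
    by_cases hji : j = i
    · subst hji
      simp [ed]
    · have : σ j ≠ σ i := fun h => hji (σ.injective h)
      simp [ed, Pi.single_eq_of_ne hji, Pi.single_eq_of_ne this]
  have h7 : fderiv ℝ (ψ (s ∘ σ)) (x ∘ σ) (L (ed (σ i) k)) =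
      (((Equiv.Perm.sign σ : ℤˣ) : ℤ) : ℝ) * fderiv ℝ (ψ s) x (ed (σ i) k) := h5
  rw [h6] at h7
  exact h7

/-- the weighted one-particle kinetic energies of all particles are equal -/
theorem kinp_perm {ψ : (Fin (n + 1) → Fin 2) → X (n + 1) → ℝ} (h : Adm (n + 1) ψ)
    (w : R3 → ℝ) (i : Fin (n + 1)) :
    ∑ s, ∫ x, w (x i) * kinp (ψ s) i x = ∑ s, ∫ x, w (x 0) * kinp (ψ s) 0 x := by
  rw [← integral_perm (Equiv.swap 0 i) (fun s x => w (x i) * kinp (ψ s) i x)]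
  refine Finset.sum_congr rfl fun s _ => integral_congr_ae (ae_of_all _ fun x => ?_)
  show w ((x ∘ Equiv.swap 0 i) i) * kinp (ψ (s ∘ Equiv.swap 0 i)) i (x ∘ Equiv.swap 0 i) =
    w (x 0) * kinp (ψ s) 0 x
  have e1 : (x ∘ Equiv.swap 0 i) i = x 0 := by simp
  rw [e1]
  congr 1
  unfold kinp
  refine Finset.sum_congr rfl fun k _ => ?_
  rw [fderiv_perm h, mul_pow, sign_sq, one_mul, Equiv.swap_apply_right]

theorem sq_perm {ψ : (Fin (n + 1) → Fin 2) → X (n + 1) → ℝ} (h : Adm (n + 1) ψ)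
    (w : R3 → ℝ) (i : Fin (n + 1)) :
    ∑ s, ∫ x, w (x i) * (ψ s x) ^ 2 = ∑ s, ∫ x, w (x 0) * (ψ s x) ^ 2 := by
  rw [← integral_perm (Equiv.swap 0 i) (fun s x => w (x i) * (ψ s x) ^ 2)]
  refine Finset.sum_congr rfl fun s _ => integral_congr_ae (ae_of_all _ fun x => ?_)
  show w ((x ∘ Equiv.swap 0 i) i) * (ψ (s ∘ Equiv.swap 0 i) (x ∘ Equiv.swap 0 i)) ^ 2 =
    w (x 0) * (ψ s x) ^ 2
  have e1 : (x ∘ Equiv.swap 0 i) i = x 0 := by simp
  rw [e1, h.anti, mul_pow, sign_sq, one_mul]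

end Pool.Agent.Lib.CX
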