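import Mathlib
import Pool.Agent.Lib.CX.Basic
import Pool.Agent.Lib.CX.Integ
import Pool.Agent.Lib.CX.Slice
import Pool.Agent.Lib.CX.Perm
import Pool.Agent.Lib.CX.Hyd

/-! CX task A4: the energies are bounded below; first consequences. -/

set_option autoImplicit false

open MeasureTheory Set

noncomputable section

namespace Pool.Agent.Lib.CX

variable {n : ℕ} {t : ℝ} {ψ : (Fin n → Fin 2) → X n → ℝ}

theorem attd_nonneg (x : X n) : 0 ≤ attd x :=
  Finset.sum_nonneg fun i _ => by positivity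

theorem repd_nonneg (x : X n) : 0 ≤ repd x := by
  refine Finset.sum_nonneg fun i _ => Finset.sum_nonneg fun j _ => ?_
  split_ifs
  · positivity
  · exact le_rfl

theorem nrm_nonneg (ψ : (Fin n → Fin 2) → X n → ℝ) : 0 ≤ nrm ψ :=
  Finset.sum_nonneg fun s _ => integral_nonneg fun x => sq_nonneg _

theorem kin_nonneg (ψ : (Fin n → Fin 2) → X n → ℝ) : 0 ≤ kin ψ :=
  Finset.sum_nonneg fun s _ => integral_nonneg fun x =>
    Finset.sum_nonneg fun i _ => Finset.sum_nonneg fun k _ => sq_nonneg _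

theorem att_nonneg (ψ : (Fin n → Fin 2) → X n → ℝ) : 0 ≤ att ψ :=
  Finset.sum_nonneg fun s _ => integral_nonneg fun x => mul_nonneg (attd_nonneg x) (sq_nonneg _)

theorem rep_nonneg (ψ : (Fin n → Fin 2) → X n → ℝ) : 0 ≤ rep ψ :=
  Finset.sum_nonneg fun s _ => integral_nonneg fun x => mul_nonneg (repd_nonneg x) (sq_nonneg _)

/-- scalar multiples -/
theorem adm_smul (h : Adm n ψ) (c : ℝ) : Adm n (fun s x => c * ψ s x) where
  smooth s := contDiff_const.mul (h.smooth s)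
  cpt s := (h.cpt s).mul_left (f := fun _ => c)
  anti σ s x := by
    rw [h.anti]
    ring

theorem nrm_smul (ψ : (Fin n → Fin 2) → X n → ℝ) (c : ℝ) :
    nrm (fun s x => c * ψ s x) = c ^ 2 * nrm ψ := by
  simp only [nrm, mul_pow, integral_const_mul, Finset.mul_sum]

theorem kin_smul (h : Adm n ψ) (c : ℝ) : kin (fun s x => c * ψ s x) = c ^ 2 * kin ψ := by
  have h1 : ∀ s x, kind (fun x => c * ψ s x) x = c ^ 2 * kind (ψ s) x := by
    intro s x
    have h2 : fderiv ℝ (fun x => c * ψ s x) x = c • fderiv ℝ (ψ s) x :=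
      fderiv_const_mul ((h.smooth s).differentiable (by simp) x) c
    simp only [kind, h2, smul_apply, smul_eq_mul, mul_pow, Finset.mul_sum]
  simp only [kin, h1, integral_const_mul, Finset.mul_sum]

theorem att_smul (ψ : (Fin n → Fin 2) → X n → ℝ) (c : ℝ) :
    att (fun s x => c * ψ s x) = c ^ 2 * att ψ := by
  have h1 : ∀ (s : Fin n → Fin 2) (x : X n), attd x * (c * ψ s x) ^ 2 =
      c ^ 2 * (attd x * (ψ s x) ^ 2) := fun s x => by ring
  simp only [att, h1, integral_const_mul, Finset.mul_sum]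

theorem rep_smul (ψ : (Fin n → Fin 2) → X n → ℝ) (c : ℝ) :
    rep (fun s x => c * ψ s x) = c ^ 2 * rep ψ := by
  have h1 : ∀ (s : Fin n → Fin 2) (x : X n), repd x * (c * ψ s x) ^ 2 =
      c ^ 2 * (repd x * (ψ s x) ^ 2) := fun s x => by ring
  simp only [rep, h1, integral_const_mul, Finset.mul_sum]

theorem cont_kinp {f : X n → ℝ} (hf : ContDiff ℝ (⊤ : ℕ∞) f) (i : Fin n) :
    Continuous (kinp f i) := by
  have h1 : Continuous (fderiv ℝ f) := hf.continuous_fderiv (by simp)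
  unfold kinp
  fun_prop

theorem cpt_kinp {f : X n → ℝ} (hf : HasCompactSupport f) (i : Fin n) :
    HasCompactSupport (kinp f i) := by
  have h1 : HasCompactSupport (fderiv ℝ f) := hf.fderiv ℝ
  refine h1.comp_left (g := fun L : X n →L[ℝ] ℝ => ∑ k : Fin 3, (L (ed i k)) ^ 2) ?_
  simp

theorem int_kinp (h : Adm n ψ) (s : Fin n → Fin 2) (i : Fin n) : Integrable (kinp (ψ s) i) :=
  (cont_kinp (h.smooth s) i).integrable_of_hasCompactSupport (cpt_kinp (h.cpt s) i)

theorem cont_sq (h : Adm n ψ) (s : Fin n → Fin 2) : Continuous fun x => (ψ s x) ^ 2 :=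
  (h.smooth s).continuous.pow 2

theorem cpt_sq (h : Adm n ψ) (s : Fin n → Fin 2) : HasCompactSupport fun x => (ψ s x) ^ 2 :=
  (h.cpt s).comp_left (g := fun r : ℝ => r ^ 2) (by simp)

theorem int_sq (h : Adm n ψ) (s : Fin n → Fin 2) : Integrable fun x => (ψ s x) ^ 2 :=
  (cont_sq h s).integrable_of_hasCompactSupport (cpt_sq h s)

theorem cpt_slice {f : X (n + 1) → ℝ} (hf : HasCompactSupport f) (y : X n) :
    HasCompactSupport fun u : R3 => f (Fin.cons u y : X (n + 1)) := by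
  have h1 : IsCompact ((fun x : X (n + 1) => x 0) '' tsupport f) :=
    hf.isCompact.image (continuous_apply 0)
  refine HasCompactSupport.intro h1 fun u hu => ?_
  by_contra h0
  exact hu ⟨_, subset_tsupport f h0, Fin.cons_zero _ _⟩

theorem smooth_slice {f : X (n + 1) → ℝ} (hf : ContDiff ℝ (⊤ : ℕ∞) f) (y : X n) :
    ContDiff ℝ (⊤ : ℕ∞) fun u : R3 => f (Fin.cons u y : X (n + 1)) := by
  refine hf.comp ?_
  rw [contDiff_pi]
  intro i
  refine Fin.cases ?_ (fun i => ?_) i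
  · simp only [Fin.cons_zero]
    exact contDiff_fun_id
  · simp only [Fin.cons_succ]
    exact contDiff_const

theorem int3_nonneg {Y : Type*} [MeasureSpace Y] {F G H : Y → ℝ} (a b : ℝ) (hF : Integrable F)
    (hG : Integrable G) (hH : Integrable H) :
    ∫ x, (F x - a * G x + b * H x) = (∫ x, F x) - a * (∫ x, G x) + b * ∫ x, H x := by
  have h1 : Integrable fun x => F x - a * G x := hF.sub (hG.const_mul a)
  rw [integral_add h1 (hH.const_mul b), integral_sub hF (hG.const_mul a), integral_const_mul,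
    integral_const_mul]

/-- the hydrogen bound in one particle -/
theorem hyd_zero {ψ : (Fin (n + 1) → Fin 2) → X (n + 1) → ℝ} (h : Adm (n + 1) ψ) (Z : ℝ)
    (hZ : 0 ≤ Z) (s : Fin (n + 1) → Fin 2) :
    Z * (∫ x, 1 / ‖x 0‖ * (ψ s x) ^ 2) - Z ^ 2 / 4 * ∫ x, (ψ s x) ^ 2 ≤
      ∫ x, kinp (ψ s) 0 x := by
  have i1 := int_kinp h s 0
  have i2 := integrable_inv_coord (cont_sq h s) (cpt_sq h s) 0
  have i3 := int_sq h s
  have e : 0 ≤ ∫ x, (kinp (ψ s) 0 x - Z * (1 / ‖x 0‖ * (ψ s x) ^ 2) + Z ^ 2 / 4 * (ψ s x) ^ 2) := by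
    have i4 : Integrable fun x => (kinp (ψ s) 0 x - Z * (1 / ‖x 0‖ * (ψ s x) ^ 2) +
        Z ^ 2 / 4 * (ψ s x) ^ 2) := (i1.sub (i2.const_mul Z)).add (i3.const_mul _)
    rw [integral_cons_iter' i4]
    refine integral_nonneg fun y => ?_
    have hs := smooth_slice (h.smooth s) y
    have hc := cpt_slice (h.cpt s) y
    have h1 := hydrogen (hs.of_le (by exact_mod_cast le_top)) hc Z hZ
    have hsq : Continuous fun u : R3 => (ψ s (Fin.cons u y : X (n + 1))) ^ 2 := hs.continuous.pow 2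
    have hsc : HasCompactSupport fun u : R3 => (ψ s (Fin.cons u y : X (n + 1))) ^ 2 :=
      hc.comp_left (g := fun r : ℝ => r ^ 2) (by simp)
    have j2 := integrable_inv_norm hsq hsc
    have j3 : Integrable fun u : R3 => (ψ s (Fin.cons u y : X (n + 1))) ^ 2 :=
      hsq.integrable_of_hasCompactSupport hsc
    have eg : ∀ u : R3, kinp (ψ s) 0 (Fin.cons u y : X (n + 1)) =
        gsq (fun u : R3 => ψ s (Fin.cons u y : X (n + 1))) u := by
      intro u
      unfold kinp gsq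
      refine Finset.sum_congr rfl fun k _ => ?_
      rw [fderiv_cons_zero ((h.smooth s).differentiable (by simp))]
    have j1 : Integrable fun u : R3 => gsq (fun u : R3 => ψ s (Fin.cons u y : X (n + 1))) u := by
      refine Continuous.integrable_of_hasCompactSupport ?_ ?_
      · have h2 : Continuous (fderiv ℝ fun u : R3 => ψ s (Fin.cons u y : X (n + 1))) :=
          hs.continuous_fderiv (by simp)
        unfold gsq
        fun_prop
      · have h2 : HasCompactSupport (fderiv ℝ fun u : R3 => ψ s (Fin.cons u y : X (n + 1))) :=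
          hc.fderiv ℝ
        exact h2.comp_left (g := fun L : R3 →L[ℝ] ℝ => ∑ k : Fin 3, (L (e3 k)) ^ 2) (by simp)
    change 0 ≤ ∫ u : R3, (kinp (ψ s) 0 (Fin.cons u y : X (n + 1)) -
      Z * (1 / ‖u‖ * (ψ s (Fin.cons u y : X (n + 1))) ^ 2) +
        Z ^ 2 / 4 * (ψ s (Fin.cons u y : X (n + 1))) ^ 2)
    simp only [eg]
    rw [int3_nonneg Z (Z ^ 2 / 4) j1 j2 j3]
    linarith
  rw [int3_nonneg Z (Z ^ 2 / 4) i1 i2 i3] at e
  linarith

theorem kin_eq (h : Adm n ψ) : kin ψ = ∑ i : Fin n, ∑ s, ∫ x, kinp (ψ s) i x := by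
  rw [Finset.sum_comm]
  unfold kin
  refine Finset.sum_congr rfl fun s _ => ?_
  rw [← integral_finsetSum _ fun i _ => int_kinp h s i]
  rfl

theorem att_eq (h : Adm n ψ) : att ψ = ∑ i : Fin n, ∑ s, ∫ x, 1 / ‖x i‖ * (ψ s x) ^ 2 := by
  rw [Finset.sum_comm]
  unfold att
  refine Finset.sum_congr rfl fun s _ => ?_
  rw [← integral_finsetSum _ fun i _ => integrable_inv_coord (cont_sq h s) (cpt_sq h s) i]
  simp only [attd, Finset.sum_mul]

/-- the hydrogen bound for all particles, nuclear charge `Z` -/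
theorem att_le_kin (h : Adm n ψ) (Z : ℝ) (hZ : 0 ≤ Z) :
    Z * att ψ - n * Z ^ 2 / 4 * nrm ψ ≤ kin ψ := by
  cases n with
  | zero =>
    rw [kin_eq h, att_eq h]
    simp
  | succ m =>
    have h1 : ∀ i : Fin (m + 1), Z * (∑ s, ∫ x, 1 / ‖x i‖ * (ψ s x) ^ 2) - Z ^ 2 / 4 * nrm ψ ≤
        ∑ s, ∫ x, kinp (ψ s) i x := by
      intro i
      have e1 := kinp_perm h (fun _ => 1) i
      have e2 := sq_perm h (fun u => 1 / ‖u‖) i
      simp only [one_mul] at e1
      rw [e1, e2]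
      unfold nrm
      rw [Finset.mul_sum, Finset.mul_sum, ← Finset.sum_sub_distrib]
      exact Finset.sum_le_sum fun s _ => hyd_zero h Z hZ s
    rw [kin_eq h, att_eq h]
    have h2 := Finset.sum_le_sum fun i (_ : i ∈ Finset.univ) => h1 i
    rw [Finset.sum_sub_distrib, ← Finset.mul_sum, Finset.sum_const, Finset.card_univ,
      Fintype.card_fin, nsmul_eq_mul] at h2
    calc _ = Z * (∑ i : Fin (m + 1), ∑ s, ∫ x, 1 / ‖x i‖ * (ψ s x) ^ 2) -
        ((m + 1 : ℕ) : ℝ) * (Z ^ 2 / 4 * nrm ψ) := by ring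
      _ ≤ _ := h2

theorem en_lower (ht : 0 ≤ t) (h : Adm n ψ) : -(n / 4 : ℝ) * nrm ψ ≤ en t ψ := by
  have h1 := att_le_kin h 1 zero_le_one
  have h2 := mul_nonneg ht (rep_nonneg ψ)
  unfold en
  have h3 : -(n / 4 : ℝ) * nrm ψ = -(n * 1 ^ 2 / 4 * nrm ψ) := by ring
  rw [h3]
  linarith

theorem eSet_bddBelow (n : ℕ) (ht : 0 ≤ t) : BddBelow (eSet n t) := by
  refine ⟨-(n / 4 : ℝ), ?_⟩
  rintro e ⟨ψ, h, h1, rfl⟩
  have h2 := en_lower ht h
  rwa [h1, mul_one] at h2

theorem en_smul (h : Adm n ψ) (c : ℝ) : en t (fun s x => c * ψ s x) = c ^ 2 * en t ψ := by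
  unfold en
  rw [kin_smul h, att_smul, rep_smul]
  ring

/-- the variational principle for functions of arbitrary norm -/
theorem eps_mul_le (ht : 0 ≤ t) (h : Adm n ψ) : eps n t * nrm ψ ≤ en t ψ := by
  rcases (nrm_nonneg ψ).eq_or_lt with h0 | h0
  · have h1 := en_lower ht h
    rw [← h0, mul_zero] at h1 ⊢
    exact h1
  · have hs : 0 < √(nrm ψ) := Real.sqrt_pos.2 h0
    have hc : ((√(nrm ψ))⁻¹) ^ 2 = (nrm ψ)⁻¹ := by
      rw [inv_pow, Real.sq_sqrt h0.le]
    have h2 : eps n t ≤ (nrm ψ)⁻¹ * en t ψ := by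
      refine csInf_le (eSet_bddBelow n ht) ⟨_, adm_smul h (√(nrm ψ))⁻¹, ?_, ?_⟩
      · rw [nrm_smul, hc, inv_mul_cancel₀ h0.ne']
      · rw [en_smul h, hc]
    calc eps n t * nrm ψ ≤ ((nrm ψ)⁻¹ * en t ψ) * nrm ψ := by gcongr
      _ = en t ψ := by field_simp

theorem eps_zero (t : ℝ) : eps 0 t = 0 := by
  have h1 : ∀ ψ : (Fin 0 → Fin 2) → X 0 → ℝ, en t ψ = 0 := by
    intro ψ
    simp [en, kin, att, rep, kind, attd, repd]
  have h2 : eSet 0 t = {0} := by
    apply Set.eq_singleton_iff_unique_mem.2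
    constructor
    · refine ⟨fun _ _ => 1, ⟨fun s => contDiff_const, fun s => ?_, fun σ s x => ?_⟩, ?_, (h1 _).symm⟩
      · exact HasCompactSupport.of_compactSpace _
      · simp [Subsingleton.elim σ 1]
      · have hv : (volume : Measure (X 0)) = Measure.dirac default := by
          rw [volume_pi, Measure.pi_of_empty]
          congr 1
          exact Subsingleton.elim _ _
        simp [nrm, hv]
    · rintro e ⟨ψ, -, -, rfl⟩
      exact h1 ψ
  rw [eps, h2, csInf_singleton]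

/-- if every normalised test function has energy at least `c` then so has the infimum -/
theorem le_eps {c : ℝ} (hne : (eSet n t).Nonempty) (hc : ∀ ψ, Adm n ψ → nrm ψ = 1 → c ≤ en t ψ) :
    c ≤ eps n t := by
  refine le_csInf hne ?_
  rintro e ⟨ψ, h, h1, rfl⟩
  exact hc ψ h h1

/-- near-minimisers -/
theorem exists_near (hne : (eSet n t).Nonempty) {δ : ℝ} (hδ : 0 < δ) :
    ∃ ψ : (Fin n → Fin 2) → X n → ℝ, Adm n ψ ∧ nrm ψ = 1 ∧ en t ψ < eps n t + δ := by
  obtain ⟨e, ⟨ψ, h, h1, rfl⟩, h2⟩ := exists_lt_of_csInf_lt hne (lt_add_of_pos_right (eps n t) hδ)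
  exact ⟨ψ, h, h1, h2⟩

end Pool.Agent.Lib.CX
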