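import Mathlib
import Pool.Agent.Lib.CX.Basic
import Pool.Agent.Lib.CX.Sph
import Pool.Agent.Lib.CX.SphB

/-! CX task C2: spherical means. -/

set_option autoImplicit false

open MeasureTheory Set

noncomputable section

namespace Pool.Agent.Lib.CX

/-- spherical mean over the sphere of radius `r` (any real `r`) -/
def mn (f : R3 → ℝ) (r : ℝ) : ℝ := 1 / (4 * Real.pi) * ∫ w in pbox, f (r • sph w.1 w.2)

/-- mean of the radial derivative -/
def dmn (f : R3 → ℝ) (r : ℝ) : ℝ :=
  1 / (4 * Real.pi) * ∫ w in pbox, fderiv ℝ f (r • sph w.1 w.2) (sph w.1 w.2)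

variable {f : R3 → ℝ}

/-- the closed parameter box -/
def cbox : Set (ℝ × ℝ) := Icc (-1 : ℝ) 1 ×ˢ Icc (-Real.pi) Real.pi

theorem isCompact_cbox : IsCompact cbox := isCompact_Icc.prod isCompact_Icc

theorem pbox_subset_cbox : pbox ⊆ cbox := prod_mono Ioo_subset_Icc_self Ioo_subset_Icc_self

theorem pbox_ae_eq_cbox : pbox =ᵐ[(volume : Measure (ℝ × ℝ))] cbox := by
  unfold pbox cbox
  rw [Measure.volume_eq_prod]
  exact Measure.set_prod_ae_eq Ioo_ae_eq_Icc Ioo_ae_eq_Icc

theorem measurableSet_pbox : MeasurableSet pbox := measurableSet_Ioo.prod measurableSet_Ioo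

theorem setIntegral_pbox (F : ℝ × ℝ → ℝ) : ∫ w in pbox, F w = ∫ w in cbox, F w :=
  setIntegral_congr_set pbox_ae_eq_cbox

theorem norm_sph_pbox {w : ℝ × ℝ} (hw : w ∈ pbox) : ‖sph w.1 w.2‖ = 1 := by
  apply norm_sph
  have h1 := hw.1.1
  have h2 := hw.1.2
  nlinarith

theorem norm_sph_cbox {w : ℝ × ℝ} (hw : w ∈ cbox) : ‖sph w.1 w.2‖ = 1 := by
  apply norm_sph
  have h1 := hw.1.1
  have h2 := hw.1.2
  nlinarith

theorem integrableOn_pbox {F : ℝ × ℝ → ℝ} (hF : Continuous F) : IntegrableOn F pbox :=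
  (hF.continuousOn.integrableOn_compact isCompact_cbox).mono_set pbox_subset_cbox

theorem continuous_smul_sph : Continuous (fun p : ℝ × (ℝ × ℝ) => p.1 • sph p.2.1 p.2.2) :=
  continuous_fst.smul (continuous_sph.comp continuous_snd)

theorem continuous_integral_pbox {F : ℝ → ℝ × ℝ → ℝ} (hF : Continuous (Function.uncurry F)) :
    Continuous (fun r => ∫ w in pbox, F r w) := by
  have h1 : (fun r => ∫ w in pbox, F r w) = fun r => ∫ w in cbox, F r w := by
    funext r
    exact setIntegral_pbox _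
  rw [h1]
  exact continuous_parametric_integral_of_continuous hF isCompact_cbox

theorem continuous_mn (hf : Continuous f) : Continuous (mn f) := by
  refine continuous_const.mul (continuous_integral_pbox (F := fun r w => f (r • sph w.1 w.2)) ?_)
  exact hf.comp continuous_smul_sph

theorem continuous_ray_deriv (hf : ContDiff ℝ 1 f) :
    Continuous (fun p : ℝ × (ℝ × ℝ) => fderiv ℝ f (p.1 • sph p.2.1 p.2.2) (sph p.2.1 p.2.2)) :=
  ((hf.continuous_fderiv one_ne_zero).comp continuous_smul_sph).clm_apply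
    (continuous_sph.comp continuous_snd)

/-- derivative along the ray of the part with mean zero -/
theorem hasDerivAt_ray (hf : ContDiff ℝ 1 f) (z φ r : ℝ) :
    HasDerivAt (fun r : ℝ => f (r • sph z φ)) (fderiv ℝ f (r • sph z φ) (sph z φ)) r := by
  have h1 : HasFDerivAt f (fderiv ℝ f (r • sph z φ)) (r • sph z φ) :=
    (hf.differentiable one_ne_zero).differentiableAt.hasFDerivAt
  have h2 : HasDerivAt (fun r : ℝ => r • sph z φ) (sph z φ) r := by
    simpa using (hasDerivAt_id r).smul_const (sph z φ)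
  exact h1.comp_hasDerivAt r h2

theorem hasDerivAt_mn (hf : ContDiff ℝ 1 f) (r : ℝ) : HasDerivAt (mn f) (dmn f r) r := by
  -- uniform bound on the derivative
  have hK : IsCompact (Icc (r - 1) (r + 1) ×ˢ cbox) := isCompact_Icc.prod isCompact_cbox
  obtain ⟨C, hC⟩ := hK.exists_bound_of_continuousOn (continuous_ray_deriv hf).continuousOn
  have hmeas : ∀ s : ℝ, Continuous (fun w : ℝ × ℝ => f (s • sph w.1 w.2)) := fun s =>
    hf.continuous.comp (continuous_sph.const_smul s)
  have hmeas' : Continuous (fun w : ℝ × ℝ => fderiv ℝ f (r • sph w.1 w.2) (sph w.1 w.2)) :=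
    (continuous_ray_deriv hf).comp (continuous_const.prodMk continuous_id)
  have hfin : volume pbox < ⊤ := by
    rw [volume_pbox]
    exact ENNReal.ofReal_lt_top
  have key := hasDerivAt_integral_of_dominated_loc_of_deriv_le
    (μ := volume.restrict pbox) (F := fun s w => f (s • sph w.1 w.2))
    (F' := fun s w => fderiv ℝ f (s • sph w.1 w.2) (sph w.1 w.2)) (x₀ := r)
    (bound := fun _ => C) (s := Metric.ball r 1) (Metric.ball_mem_nhds r one_pos)
    (Filter.Eventually.of_forall fun s => (hmeas s).aestronglyMeasurable)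
    (integrableOn_pbox (hmeas r)) hmeas'.aestronglyMeasurable
    ((ae_restrict_iff' measurableSet_pbox).2 (Filter.Eventually.of_forall fun w hw s hs => ?_))
    (integrableOn_const (hs := hfin.ne)) ((ae_restrict_iff' measurableSet_pbox).2
      (Filter.Eventually.of_forall fun w _ s _ => hasDerivAt_ray hf w.1 w.2 s))
  · exact key.2.const_mul _
  · have h1 : s ∈ Icc (r - 1) (r + 1) := by
      rw [Metric.mem_ball, Real.dist_eq, abs_lt] at hs
      exact ⟨by linarith, by linarith⟩
    exact hC (s, w) ⟨h1, pbox_subset_cbox hw⟩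

theorem continuous_dmn (hf : ContDiff ℝ 1 f) : Continuous (dmn f) := by
  refine continuous_const.mul (continuous_integral_pbox
    (F := fun r w => fderiv ℝ f (r • sph w.1 w.2) (sph w.1 w.2)) ?_)
  exact continuous_ray_deriv hf

theorem contDiff_mn (hf : ContDiff ℝ 1 f) : ContDiff ℝ 1 (mn f) := by
  rw [contDiff_one_iff_deriv]
  refine ⟨fun r => (hasDerivAt_mn hf r).differentiableAt, ?_⟩
  have h1 : deriv (mn f) = dmn f := funext fun r => (hasDerivAt_mn hf r).deriv
  rw [h1]
  exact continuous_dmn hf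

theorem mn_eq_zero {R : ℝ} (hR : ∀ x, R ≤ ‖x‖ → f x = 0) {r : ℝ} (hr : R ≤ |r|) :
    mn f r = 0 := by
  have h1 : ∫ w in pbox, f (r • sph w.1 w.2) = ∫ w in pbox, (0 : ℝ) := by
    refine setIntegral_congr_fun measurableSet_pbox fun w hw => ?_
    apply hR
    rw [norm_smul, norm_sph_pbox hw, mul_one]
    exact hr
  rw [mn, h1]
  simp

theorem exists_radius (hc : HasCompactSupport f) : ∃ R : ℝ, 0 < R ∧ ∀ x, R ≤ ‖x‖ → f x = 0 := by
  obtain ⟨R, hR⟩ := hc.isCompact.isBounded.subset_ball (0 : R3)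
  refine ⟨max R 1, lt_max_of_lt_right one_pos, fun x hx => ?_⟩
  by_contra h
  have h1 : x ∈ tsupport f := subset_tsupport f h
  have h2 := hR h1
  rw [Metric.mem_ball, dist_zero_right] at h2
  exact absurd (le_trans (le_max_left _ _) hx) (not_le.2 h2)

theorem hasCompactSupport_mn (hc : HasCompactSupport f) : HasCompactSupport (mn f) := by
  obtain ⟨R, -, hR⟩ := exists_radius hc
  refine HasCompactSupport.intro (isCompact_Icc (a := -R) (b := R)) fun r hr => ?_
  apply mn_eq_zero hR
  by_contra h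
  rw [not_le, abs_lt] at h
  exact hr ⟨h.1.le, h.2.le⟩

theorem integral_one_pbox : ∫ _ in pbox, (1 : ℝ) = 4 * Real.pi := by
  rw [setIntegral_const, measureReal_def, volume_pbox, ENNReal.toReal_ofReal (by positivity)]
  simp

theorem pythagoras {F : ℝ × ℝ → ℝ} (hF : Continuous F) :
    ∫ w in pbox, (F w) ^ 2
      = 4 * Real.pi * (1 / (4 * Real.pi) * ∫ w in pbox, F w) ^ 2
        + ∫ w in pbox, (F w - 1 / (4 * Real.pi) * ∫ w in pbox, F w) ^ 2 := by
  set m : ℝ := 1 / (4 * Real.pi) * ∫ w in pbox, F w with hm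
  have hpi := Real.pi_pos
  have hI : ∫ w in pbox, F w = 4 * Real.pi * m := by
    rw [hm]
    field_simp
  have h1 : ∫ w in pbox, (F w - m) ^ 2
      = (∫ w in pbox, (F w) ^ 2) - 2 * m * (∫ w in pbox, F w) + m ^ 2 * ∫ _ in pbox, (1 : ℝ) := by
    rw [← integral_const_mul, ← integral_const_mul, ← integral_sub, ← integral_add]
    · refine integral_congr_ae (Filter.Eventually.of_forall fun w => ?_)
      simp only
      ring
    · exact ((integrableOn_pbox (hF.pow 2)).sub
        ((integrableOn_pbox hF).const_mul _))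
    · exact (integrableOn_pbox continuous_const).const_mul _
    · exact integrableOn_pbox (hF.pow 2)
    · exact (integrableOn_pbox hF).const_mul _
  rw [h1, hI, integral_one_pbox]
  ring

/-- Pythagoras on each sphere -/
theorem sq_mn (hf : Continuous f) (r : ℝ) :
    ∫ w in pbox, (f (r • sph w.1 w.2)) ^ 2
      = 4 * Real.pi * (mn f r) ^ 2 + ∫ w in pbox, (f (r • sph w.1 w.2) - mn f r) ^ 2 :=
  pythagoras (F := fun w => f (r • sph w.1 w.2))
    (hf.comp (continuous_sph.const_smul r))

theorem sq_dmn (hf : ContDiff ℝ 1 f) (r : ℝ) :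
    ∫ w in pbox, (fderiv ℝ f (r • sph w.1 w.2) (sph w.1 w.2)) ^ 2
      = 4 * Real.pi * (dmn f r) ^ 2
        + ∫ w in pbox, (fderiv ℝ f (r • sph w.1 w.2) (sph w.1 w.2) - dmn f r) ^ 2 :=
  pythagoras (F := fun w => fderiv ℝ f (r • sph w.1 w.2) (sph w.1 w.2))
    ((continuous_ray_deriv hf).comp (continuous_const.prodMk continuous_id))

/-- the spherical mean as a function on `R3` -/
def sm (f : R3 → ℝ) (x : R3) : ℝ := mn f ‖x‖

/-- the part of `f` with vanishing spherical means -/
def hh (f : R3 → ℝ) (x : R3) : ℝ := f x - sm f x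

end Pool.Agent.Lib.CX
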