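import Mathlib
import Pool.Agent.Lib.CX.Basic
import Pool.Agent.Lib.CX.Sph
import Pool.Agent.Lib.CX.SphB
import Pool.Agent.Lib.CX.Mean

/-! CX task C4: the part of a function with vanishing spherical means. -/

set_option autoImplicit false

open MeasureTheory Set Filter Topology

noncomputable section

namespace Pool.Agent.Lib.CX

variable {f : R3 → ℝ}

theorem continuous_sm (hf : Continuous f) : Continuous (sm f) :=
  (continuous_mn hf).comp continuous_norm

theorem hasCompactSupport_sm (hc : HasCompactSupport f) : HasCompactSupport (sm f) := by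
  obtain ⟨R, -, hR⟩ := exists_radius hc
  refine HasCompactSupport.intro (isCompact_closedBall (0 : R3) R) fun x hx => ?_
  rw [Metric.mem_closedBall, dist_zero_right, not_le] at hx
  apply mn_eq_zero hR
  rw [abs_of_nonneg (norm_nonneg x)]
  exact hx.le

theorem continuous_hh (hf : Continuous f) : Continuous (hh f) := hf.sub (continuous_sm hf)

theorem hasCompactSupport_hh (hc : HasCompactSupport f) : HasCompactSupport (hh f) :=
  hc.sub (hasCompactSupport_sm hc)

theorem integral_hh_sphere (hf : Continuous f) {r : ℝ} (hr : 0 < r) :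
    ∫ w in pbox, hh f (r • sph w.1 w.2) = 0 := by
  have h1 : ∫ w in pbox, hh f (r • sph w.1 w.2)
      = ∫ w in pbox, (f (r • sph w.1 w.2) - mn f r) := by
    refine setIntegral_congr_fun measurableSet_pbox fun w hw => ?_
    simp only [hh, sm]
    rw [norm_smul, norm_sph_pbox hw, mul_one, Real.norm_eq_abs, abs_of_pos hr]
  have h2 : IntegrableOn (fun w : ℝ × ℝ => f (r • sph w.1 w.2)) pbox :=
    integrableOn_pbox (hf.comp (continuous_sph.const_smul r))
  rw [h1, integral_sub h2 (integrableOn_pbox continuous_const)]
  have h3 : ∫ _ in pbox, mn f r = 4 * Real.pi * mn f r := by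
    rw [setIntegral_const, measureReal_def, volume_pbox, ENNReal.toReal_ofReal (by positivity),
      smul_eq_mul]
  have hpi := Real.pi_pos
  rw [h3, mn]
  field_simp
  ring

/-- `hh f` is orthogonal to radial functions -/
theorem hh_orth (hf : Continuous f) (hc : HasCompactSupport f) (g : ℝ → ℝ) :
    ∫ x, g ‖x‖ * hh f x = 0 := by
  by_cases hi : Integrable (fun x => g ‖x‖ * hh f x)
  · rw [integral_sph_iter hi]
    have h1 : ∀ r ∈ Ioi (0 : ℝ), r ^ 2 * ∫ w in pbox, g ‖r • sph w.1 w.2‖ *
        hh f (r • sph w.1 w.2) = 0 := by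
      intro r hr
      have h2 : ∫ w in pbox, g ‖r • sph w.1 w.2‖ * hh f (r • sph w.1 w.2)
          = ∫ w in pbox, g r * hh f (r • sph w.1 w.2) := by
        refine setIntegral_congr_fun measurableSet_pbox fun w hw => ?_
        have hn : ‖r • sph w.1 w.2‖ = r := by
          rw [norm_smul, norm_sph_pbox hw, mul_one, Real.norm_eq_abs, abs_of_pos hr]
        change g ‖r • sph w.1 w.2‖ * hh f (r • sph w.1 w.2) = g r * hh f (r • sph w.1 w.2)
        rw [hn]
      rw [h2, integral_const_mul, integral_hh_sphere hf hr]
      ring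
    rw [setIntegral_congr_fun measurableSet_Ioi h1]
    simp
  · exact integral_undef hi

theorem sm_pair (hf : Continuous f) (hc : HasCompactSupport f) {g : ℝ → ℝ}
    (hg : Continuous g) : ∫ x, g ‖x‖ * f x = ∫ x, g ‖x‖ * sm f x := by
  have h1 := hh_orth hf hc g
  have hgn : Continuous fun x : R3 => g ‖x‖ := hg.comp continuous_norm
  have i1 : Integrable (fun x => g ‖x‖ * f x) :=
    (hgn.mul hf).integrable_of_hasCompactSupport hc.mul_left
  have i2 : Integrable (fun x => g ‖x‖ * sm f x) :=
    (hgn.mul (continuous_sm hf)).integrable_of_hasCompactSupport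
      (hasCompactSupport_sm hc).mul_left
  have h2 : ∫ x, g ‖x‖ * hh f x = (∫ x, g ‖x‖ * f x) - ∫ x, g ‖x‖ * sm f x := by
    rw [← integral_sub i1 i2]
    refine integral_congr_ae (Filter.Eventually.of_forall fun x => ?_)
    simp only [hh]
    ring
  linarith

theorem sq_sm (hf : Continuous f) (hc : HasCompactSupport f) :
    ∫ x, (f x) ^ 2 = (∫ x, (sm f x) ^ 2) + ∫ x, (hh f x) ^ 2 := by
  have cs := continuous_sm hf
  have ch := continuous_hh hf
  have ks := hasCompactSupport_sm hc
  have kh := hasCompactSupport_hh hc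
  have i1 : Integrable (fun x => (sm f x) ^ 2) := by
    have h := (cs.mul cs).integrable_of_hasCompactSupport (μ := volume) ks.mul_left
    refine h.congr (Filter.Eventually.of_forall fun x => ?_)
    exact (sq (sm f x)).symm
  have i2 : Integrable (fun x => (hh f x) ^ 2) := by
    have h := (ch.mul ch).integrable_of_hasCompactSupport (μ := volume) kh.mul_left
    refine h.congr (Filter.Eventually.of_forall fun x => ?_)
    exact (sq (hh f x)).symm
  have i3 : Integrable (fun x => sm f x * hh f x) :=
    (cs.mul ch).integrable_of_hasCompactSupport kh.mul_left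
  have h1 : ∫ x, sm f x * hh f x = 0 := hh_orth hf hc (mn f)
  have h2 : ∫ x, (f x) ^ 2 = ∫ x, ((sm f x) ^ 2 + (hh f x) ^ 2 + 2 * (sm f x * hh f x)) := by
    refine integral_congr_ae (Filter.Eventually.of_forall fun x => ?_)
    simp only [hh]
    ring
  have i12 : Integrable (fun x => (sm f x) ^ 2 + (hh f x) ^ 2) := i1.add i2
  rw [h2, integral_add i12 (i3.const_mul 2), integral_add i1 i2, integral_const_mul, h1]
  ring

end Pool.Agent.Lib.CX
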