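import Mathlib
import Pool.Agent.Lib.CX.Basic
import Pool.Agent.Lib.CX.Sph
import Pool.Agent.Lib.CX.SphB

/-! CX task F1: the coordinates `(r₁, r₂, r₁₂)`. -/

set_option autoImplicit false

open MeasureTheory Set

noncomputable section

namespace Pool.Agent.Lib.CX

/-- one centre moving: `(a, u) = (‖x‖, ‖x - y‖)` for fixed `y`, `b = ‖y‖` -/
def triSet1 (b : ℝ) : Set (ℝ × ℝ) := {p | 0 < p.1 ∧ |p.1 - b| < p.2 ∧ p.2 < p.1 + b}

theorem measurableSet_triSet1 (b : ℝ) : MeasurableSet (triSet1 b) := by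
  unfold triSet1
  apply MeasurableSet.inter
  · exact measurableSet_lt measurable_const measurable_fst
  apply MeasurableSet.inter
  · exact measurableSet_lt ((measurable_fst.sub_const b).abs) measurable_snd
  · exact measurableSet_lt measurable_snd (measurable_fst.add_const b)

/-- the image of the substitution `z = (r² + b² - u²)/(2rb)` -/
theorem tri1_image {r b : ℝ} (hr : 0 < r) (hb : 0 < b) :
    (fun u : ℝ => (r ^ 2 + b ^ 2 - u ^ 2) / (2 * r * b)) '' (Ioo |r - b| (r + b))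
      = Ioo (-1 : ℝ) 1 := by
  ext z
  simp only [mem_image, mem_Ioo]
  constructor
  · rintro ⟨u, ⟨h1, h2⟩, rfl⟩
    have h0 : 0 ≤ |r - b| := abs_nonneg _
    have h3 : (r - b) ^ 2 < u ^ 2 := by
      rw [← sq_abs (r - b)]
      nlinarith
    have h4 : u ^ 2 < (r + b) ^ 2 := by nlinarith
    constructor
    · rw [lt_div_iff₀ (by positivity)]
      nlinarith
    · rw [div_lt_iff₀ (by positivity)]
      nlinarith
  · rintro ⟨h1, h2⟩
    have hrb : 0 < r * b := by positivity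
    have h3 : (r - b) ^ 2 < r ^ 2 + b ^ 2 - 2 * r * b * z := by nlinarith
    have h4 : r ^ 2 + b ^ 2 - 2 * r * b * z < (r + b) ^ 2 := by nlinarith
    have h5 : 0 ≤ r ^ 2 + b ^ 2 - 2 * r * b * z := le_trans (sq_nonneg _) h3.le
    refine ⟨Real.sqrt (r ^ 2 + b ^ 2 - 2 * r * b * z), ⟨?_, ?_⟩, ?_⟩
    · rw [← Real.sqrt_sq_eq_abs]
      exact Real.sqrt_lt_sqrt (sq_nonneg _) h3
    · rw [Real.sqrt_lt' (by positivity)]
      exact h4
    · rw [Real.sq_sqrt h5]
      field_simp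
      ring

/-- substitution in the inner integral -/
theorem tri1_subst {r b : ℝ} (hr : 0 < r) (hb : 0 < b) (g : ℝ → ENNReal) :
    ∫⁻ z in Ioo (-1 : ℝ) 1, g (Real.sqrt (r ^ 2 + b ^ 2 - 2 * r * b * z))
      = ∫⁻ u in Ioo |r - b| (r + b), ENNReal.ofReal (u / (r * b)) * g u := by
  have hinj : InjOn (fun u : ℝ => (r ^ 2 + b ^ 2 - u ^ 2) / (2 * r * b)) (Ioo |r - b| (r + b)) := by
    intro u hu v hv huv
    simp only at huv
    have h0 : 0 ≤ |r - b| := abs_nonneg _
    have h1 : 0 < u := lt_of_le_of_lt h0 hu.1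
    have h2 : 0 < v := lt_of_le_of_lt h0 hv.1
    have h3 : (2 * r * b) ≠ 0 := by positivity
    have h4 : u ^ 2 = v ^ 2 := by
      field_simp at huv
      linarith
    exact (pow_left_inj₀ h1.le h2.le (by norm_num)).mp h4
  have hder : ∀ u ∈ Ioo |r - b| (r + b),
      HasDerivWithinAt (fun u : ℝ => (r ^ 2 + b ^ 2 - u ^ 2) / (2 * r * b)) (-(u / (r * b)))
        (Ioo |r - b| (r + b)) u := by
    intro u _
    apply HasDerivAt.hasDerivWithinAt
    have h1 : HasDerivAt (fun u : ℝ => (r ^ 2 + b ^ 2 - u ^ 2) / (2 * r * b))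
        ((-(2 * u)) / (2 * r * b)) u := by
      apply HasDerivAt.div_const
      have := (hasDerivAt_pow 2 u).const_sub (r ^ 2 + b ^ 2)
      simpa using this
    have h2 : -(u / (r * b)) = (-(2 * u)) / (2 * r * b) := by
      field_simp
    rw [h2]
    exact h1
  rw [← tri1_image hr hb, lintegral_image_eq_lintegral_abs_deriv_mul measurableSet_Ioo hder hinj]
  apply setLIntegral_congr_fun measurableSet_Ioo
  intro u hu
  have h0 : 0 ≤ |r - b| := abs_nonneg _
  have h1 : 0 < u := lt_of_le_of_lt h0 hu.1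
  have h2 : r ^ 2 + b ^ 2 - 2 * r * b * ((r ^ 2 + b ^ 2 - u ^ 2) / (2 * r * b)) = u ^ 2 := by
    field_simp
    ring
  simp only
  rw [h2, Real.sqrt_sq h1.le, abs_neg, abs_of_pos (by positivity)]

theorem norm_smul_sph {r z φ : ℝ} (hr : 0 < r) (hz : z ^ 2 ≤ 1) : ‖r • sph z φ‖ = r := by
  rw [norm_smul, norm_sph hz, mul_one, Real.norm_eq_abs, abs_of_pos hr]

theorem norm_smul_sph_sub {r b z φ : ℝ} (hz : z ^ 2 ≤ 1) :
    ‖r • sph z φ - b • e3 2‖ = Real.sqrt (r ^ 2 + b ^ 2 - 2 * r * b * z) := by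
  rw [EuclideanSpace.norm_eq]
  congr 1
  have h1 : Real.sqrt (1 - z ^ 2) ^ 2 = 1 - z ^ 2 := Real.sq_sqrt (by linarith)
  have h2 := Real.sin_sq_add_cos_sq φ
  simp only [Fin.sum_univ_three, e3, sph, Real.norm_eq_abs, sq_abs]
  simp
  have h3 : (r * (Real.sqrt (1 - z ^ 2) * Real.cos φ)) ^ 2
      + (r * (Real.sqrt (1 - z ^ 2) * Real.sin φ)) ^ 2 = r ^ 2 * (1 - z ^ 2) := by
    have : (r * (Real.sqrt (1 - z ^ 2) * Real.cos φ)) ^ 2
      + (r * (Real.sqrt (1 - z ^ 2) * Real.sin φ)) ^ 2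
        = r ^ 2 * (Real.sqrt (1 - z ^ 2) ^ 2) * (Real.sin φ ^ 2 + Real.cos φ ^ 2) := by ring
    rw [this, h1, h2]
    ring
  rw [h3]
  ring

theorem measurable_tri1 (b : ℝ) : Measurable (fun x : R3 => (‖x‖, ‖x - b • e3 2‖)) := by
  fun_prop

/-- the right hand side as an iterated integral -/
theorem tri1_rhs (b : ℝ) {h : ℝ × ℝ → ENNReal} (hh : Measurable h) :
    ∫⁻ p in triSet1 b, h p
      = ∫⁻ r in Ioi (0 : ℝ), ∫⁻ u in Ioo |r - b| (r + b), h (r, u) := by
  rw [← lintegral_indicator (measurableSet_triSet1 b), Measure.volume_eq_prod,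
    lintegral_prod _ (hh.indicator (measurableSet_triSet1 b)).aemeasurable,
    ← lintegral_indicator measurableSet_Ioi]
  apply lintegral_congr
  intro r
  by_cases hr : 0 < r
  · rw [indicator_of_mem (mem_Ioi.mpr hr), ← lintegral_indicator measurableSet_Ioo]
    apply lintegral_congr
    intro u
    by_cases hu : u ∈ Ioo |r - b| (r + b)
    · rw [indicator_of_mem hu, indicator_of_mem (show (r, u) ∈ triSet1 b from ⟨hr, hu.1, hu.2⟩)]
    · rw [indicator_of_notMem hu, indicator_of_notMem]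
      rintro ⟨_, h1, h2⟩
      exact hu ⟨h1, h2⟩
  · rw [indicator_of_notMem (by simpa using hr)]
    have : ∀ u : ℝ, (triSet1 b).indicator h (r, u) = 0 := by
      intro u
      apply indicator_of_notMem
      rintro ⟨h1, _⟩
      exact hr h1
    simp only [this, lintegral_zero]

/-- the inner integral over the sphere -/
theorem tri1_inner {r b : ℝ} (hr : 0 < r) {g : ℝ × ℝ → ENNReal} (hg : Measurable g) :
    ∫⁻ w in pbox, g (‖r • sph w.1 w.2‖, ‖r • sph w.1 w.2 - b • e3 2‖)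
      = ENNReal.ofReal (2 * Real.pi) * ∫⁻ z in Ioo (-1 : ℝ) 1,
        g (r, Real.sqrt (r ^ 2 + b ^ 2 - 2 * r * b * z)) := by
  have hpb : (volume : Measure (ℝ × ℝ)).restrict pbox
      = (volume.restrict (Ioo (-1 : ℝ) 1)).prod (volume.restrict (Ioo (-Real.pi) Real.pi)) := by
    rw [Measure.prod_restrict, ← Measure.volume_eq_prod, pbox]
  have hm1 : Measurable (fun p : ℝ × (ℝ × ℝ) =>
      g (‖p.1 • sph p.2.1 p.2.2‖, ‖p.1 • sph p.2.1 p.2.2 - b • e3 2‖)) :=
    (hg.comp (measurable_tri1 b)).comp measurable_smul_sph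
  have hm5 : Measurable (fun w : ℝ × ℝ => (r, w)) := measurable_prodMk_left
  have hm3 : Measurable (fun w : ℝ × ℝ => g (‖r • sph w.1 w.2‖, ‖r • sph w.1 w.2 - b • e3 2‖)) := by
    have h := hm1.comp hm5
    exact h
  have hm4 : Measurable (fun z : ℝ => g (r, Real.sqrt (r ^ 2 + b ^ 2 - 2 * r * b * z))) := by
    apply hg.comp
    fun_prop
  rw [hpb, lintegral_prod _ hm3.aemeasurable, ← lintegral_const_mul _ hm4]
  apply setLIntegral_congr_fun measurableSet_Ioo
  intro z hz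
  have hz2 : z ^ 2 ≤ 1 := by nlinarith [hz.1, hz.2]
  have h1 : ∀ φ : ℝ, g (‖r • sph z φ‖, ‖r • sph z φ - b • e3 2‖)
      = g (r, Real.sqrt (r ^ 2 + b ^ 2 - 2 * r * b * z)) := by
    intro φ
    rw [norm_smul_sph hr hz2, norm_smul_sph_sub hz2]
  have h2 : (volume.restrict (Ioo (-Real.pi) Real.pi)) univ = ENNReal.ofReal (2 * Real.pi) := by
    rw [Measure.restrict_apply_univ, Real.volume_Ioo]
    congr 1
    ring
  calc ∫⁻ φ in Ioo (-Real.pi) Real.pi, g (‖r • sph z φ‖, ‖r • sph z φ - b • e3 2‖)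
      = ∫⁻ φ in Ioo (-Real.pi) Real.pi, g (r, Real.sqrt (r ^ 2 + b ^ 2 - 2 * r * b * z)) :=
        lintegral_congr h1
    _ = g (r, Real.sqrt (r ^ 2 + b ^ 2 - 2 * r * b * z)) * ENNReal.ofReal (2 * Real.pi) := by
        rw [lintegral_const, h2]
    _ = _ := mul_comm _ _

/-- the case where the fixed point is on the axis, tested on functions -/
theorem tri1_axis {b : ℝ} (hb : 0 < b) {g : ℝ × ℝ → ENNReal} (hg : Measurable g) :
    ∫⁻ x : R3, g (‖x‖, ‖x - b • e3 2‖)
      = ∫⁻ p in triSet1 b, ENNReal.ofReal (2 * Real.pi / b * (p.1 * p.2)) * g p := by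
  have hdens : Measurable (fun p : ℝ × ℝ => ENNReal.ofReal (2 * Real.pi / b * (p.1 * p.2))) := by
    fun_prop
  have hm1 : Measurable (fun p : ℝ × (ℝ × ℝ) =>
      g (‖p.1 • sph p.2.1 p.2.2‖, ‖p.1 • sph p.2.1 p.2.2 - b • e3 2‖)) :=
    (hg.comp (measurable_tri1 b)).comp measurable_smul_sph
  have hd2 : Measurable (fun p : ℝ × ℝ => ENNReal.ofReal (2 * Real.pi / b * (p.1 * p.2)) * g p) :=
    hdens.mul hg
  have hd3 : Measurable (fun x : R3 => g (‖x‖, ‖x - b • e3 2‖)) := hg.comp (measurable_tri1 b)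
  rw [tri1_rhs b hd2]
  rw [← sph_map, lintegral_map hd3 measurable_smul_sph]
  unfold smeas
  rw [lintegral_prod _ hm1.aemeasurable]
  have hm2 : Measurable (fun r : ℝ => ∫⁻ w, g (‖r • sph w.1 w.2‖, ‖r • sph w.1 w.2 - b • e3 2‖)
      ∂(volume.restrict pbox)) := hm1.lintegral_prod_right'
  have hr2 : Measurable (fun r : ℝ => ENNReal.ofReal (r ^ 2)) := by fun_prop
  unfold rmeas
  rw [lintegral_withDensity_eq_lintegral_mul _ hr2 hm2]
  apply setLIntegral_congr_fun measurableSet_Ioi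
  intro r hr
  have hr' : 0 < r := hr
  simp only [Pi.mul_apply]
  rw [tri1_inner hr' hg, tri1_subst hr' hb (fun u => g (r, u))]
  rw [← mul_assoc, ← lintegral_const_mul' _ _
    (ENNReal.mul_ne_top ENNReal.ofReal_ne_top ENNReal.ofReal_ne_top)]
  apply setLIntegral_congr_fun measurableSet_Ioo
  intro u hu
  have h0 : 0 ≤ |r - b| := abs_nonneg _
  have hu0 : 0 < u := lt_of_le_of_lt h0 hu.1
  simp only
  rw [← mul_assoc, ← ENNReal.ofReal_mul (by positivity), ← ENNReal.ofReal_mul (by positivity)]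
  congr 2
  field_simp

/-- the case where the fixed point is on the axis -/
theorem tri1_map_axis {b : ℝ} (hb : 0 < b) :
    Measure.map (fun x : R3 => (‖x‖, ‖x - b • e3 2‖)) volume
      = ((volume : Measure (ℝ × ℝ)).restrict (triSet1 b)).withDensity
          fun p => ENNReal.ofReal (2 * Real.pi / b * (p.1 * p.2)) := by
  refine Measure.ext_of_lintegral _ (fun g hg => ?_)
  have hdens : Measurable (fun p : ℝ × ℝ => ENNReal.ofReal (2 * Real.pi / b * (p.1 * p.2))) := by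
    fun_prop
  rw [lintegral_map hg (measurable_tri1 b), tri1_axis hb hg,
    lintegral_withDensity_eq_lintegral_mul _ hdens hg]
  rfl

theorem tri1_map {y : R3} (hy : y ≠ 0) :
    Measure.map (fun x : R3 => (‖x‖, ‖x - y‖)) volume
      = ((volume : Measure (ℝ × ℝ)).restrict (triSet1 ‖y‖)).withDensity
          fun p => ENNReal.ofReal (2 * Real.pi / ‖y‖ * (p.1 * p.2)) := by
  have hb : 0 < ‖y‖ := norm_pos_iff.mpr hy
  rw [← tri1_map_axis hb]
  have hn : ‖‖y‖ • e3 2‖ = ‖y‖ := by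
    rw [norm_smul, norm_norm]
    simp [e3]
  set A := (Submodule.reflection (ℝ ∙ (y - ‖y‖ • e3 2))ᗮ) with hA
  have hAy : A y = ‖y‖ • e3 2 := Submodule.reflection_sub (by rw [hn])
  have hmp : MeasurePreserving A (volume : Measure R3) volume := A.measurePreserving
  have hF : Measurable (fun x : R3 => (‖x‖, ‖x - ‖y‖ • e3 2‖)) := by fun_prop
  conv_rhs => rw [← hmp.map_eq, Measure.map_map hF hmp.measurable]
  congr 1
  funext x
  simp only [Function.comp]
  rw [← hAy, ← map_sub, A.norm_map, A.norm_map]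

end Pool.Agent.Lib.CX
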