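import Mathlib
import Pool.Agent.Lib.CX.Basic
import Pool.Agent.Lib.CX.Sph
import Pool.Agent.Lib.CX.SphB
import Pool.Agent.Lib.CX.Tri1

/-! CX task F2: the coordinates `(r₁, r₂, r₁₂)`. -/

set_option autoImplicit false

open MeasureTheory Set Filter Topology

noncomputable section

namespace Pool.Agent.Lib.CX

/-- both centres moving: `(a, b, u) = (‖x‖, ‖y‖, ‖x - y‖)` -/
def triSet : Set (ℝ × ℝ × ℝ) :=
  {p | 0 < p.1 ∧ 0 < p.2.1 ∧ |p.1 - p.2.1| < p.2.2 ∧ p.2.2 < p.1 + p.2.1}

/-- the density -/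
def trimeas : Measure (ℝ × ℝ × ℝ) :=
  ((volume : Measure (ℝ × ℝ × ℝ)).restrict triSet).withDensity
    fun p => ENNReal.ofReal (8 * Real.pi ^ 2 * (p.1 * p.2.1 * p.2.2))

theorem Tri_measurableSet : MeasurableSet triSet := by
  have h : triSet = {p : ℝ × ℝ × ℝ | 0 < p.1} ∩ ({p : ℝ × ℝ × ℝ | 0 < p.2.1} ∩
      ({p : ℝ × ℝ × ℝ | |p.1 - p.2.1| < p.2.2} ∩ {p : ℝ × ℝ × ℝ | p.2.2 < p.1 + p.2.1})) := rfl
  rw [h]
  refine (measurableSet_lt measurable_const (by fun_prop)).inter
    ((measurableSet_lt measurable_const (by fun_prop)).inter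
      ((measurableSet_lt ?_ (by fun_prop)).inter (measurableSet_lt (by fun_prop) (by fun_prop))))
  exact (continuous_abs.comp (continuous_fst.sub (continuous_fst.comp continuous_snd))).measurable

theorem Tri_measurableSet1 : MeasurableSet {p : ℝ × (ℝ × ℝ) | p.2 ∈ triSet1 p.1} := by
  have h : {p : ℝ × (ℝ × ℝ) | p.2 ∈ triSet1 p.1} = {p : ℝ × (ℝ × ℝ) | 0 < p.2.1} ∩
      ({p : ℝ × (ℝ × ℝ) | |p.2.1 - p.1| < p.2.2} ∩ {p : ℝ × (ℝ × ℝ) | p.2.2 < p.2.1 + p.1}) := rfl
  rw [h]
  refine (measurableSet_lt measurable_const (by fun_prop)).inter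
      ((measurableSet_lt ?_ (by fun_prop)).inter (measurableSet_lt (by fun_prop) (by fun_prop)))
  exact (continuous_abs.comp ((continuous_fst.comp continuous_snd).sub continuous_fst)).measurable

theorem Tri_measurableSet2 (b : ℝ) : MeasurableSet (triSet1 b) :=
  measurable_prodMk_left (x := b) Tri_measurableSet1

/-- Radial functions, lower integral. -/
theorem Tri_radial {Φ : ℝ → ENNReal} (hΦ : Measurable Φ) :
    ∫⁻ y : R3, Φ ‖y‖ = ENNReal.ofReal (4 * Real.pi) *
      ∫⁻ r in Ioi (0 : ℝ), ENNReal.ofReal (r ^ 2) * Φ r := by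
  have hm : Measurable fun y : R3 => Φ ‖y‖ := hΦ.comp measurable_norm
  rw [← sph_map, lintegral_map hm measurable_smul_sph]
  unfold smeas
  have hm2 : Measurable fun a : ℝ × ℝ × ℝ => Φ ‖a.1 • sph a.2.1 a.2.2‖ :=
    hm.comp measurable_smul_sph
  rw [lintegral_prod _ hm2.aemeasurable]
  have h1 : ∀ r : ℝ, ∫⁻ w in pbox, Φ ‖r • sph w.1 w.2‖ = Φ |r| * ENNReal.ofReal (4 * Real.pi) := by
    intro r
    have hb : MeasurableSet pbox := measurableSet_Ioo.prod measurableSet_Ioo
    have h2 : ∫⁻ w in pbox, Φ ‖r • sph w.1 w.2‖ = ∫⁻ _ in pbox, Φ |r| := by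
      refine setLIntegral_congr_fun hb fun w hw => ?_
      have h3 : ‖sph w.1 w.2‖ = 1 := by
        refine norm_sph ?_
        have h4 := hw.1
        rw [mem_Ioo] at h4
        nlinarith
      change Φ ‖r • sph w.1 w.2‖ = Φ |r|
      rw [norm_smul, h3, mul_one, Real.norm_eq_abs]
    rw [h2, setLIntegral_const, volume_pbox]
  simp only [h1]
  unfold rmeas
  have hm4 : Measurable fun r : ℝ => Φ |r| * ENNReal.ofReal (4 * Real.pi) :=
    (hΦ.comp continuous_abs.measurable).mul_const _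
  rw [lintegral_withDensity_eq_lintegral_mul _ (by fun_prop) hm4, ← lintegral_const_mul]
  · refine setLIntegral_congr_fun measurableSet_Ioi fun r hr => ?_
    change ENNReal.ofReal (r ^ 2) * (Φ |r| * ENNReal.ofReal (4 * Real.pi)) = _
    rw [abs_of_pos hr]
    ring
  · have h5 : Measurable fun r : ℝ => ENNReal.ofReal (r ^ 2) * Φ r :=
      (by fun_prop : Measurable fun r : ℝ => ENNReal.ofReal (r ^ 2)).mul hΦ
    exact h5

theorem tri_map :
    Measure.map (fun p : R3 × R3 => (‖p.1‖, ‖p.2‖, ‖p.1 - p.2‖)) volume = trimeas := by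
  refine Measure.ext_of_lintegral _ fun f hf => ?_
  have hT : Measurable fun p : R3 × R3 => (‖p.1‖, ‖p.2‖, ‖p.1 - p.2‖) :=
    (measurable_fst.norm.prodMk (measurable_snd.norm.prodMk
      (measurable_fst.sub measurable_snd).norm))
  rw [lintegral_map hf hT]
  -- the inner integral
  let H : ℝ × (ℝ × ℝ) → ENNReal := {p : ℝ × (ℝ × ℝ) | p.2 ∈ triSet1 p.1}.indicator
    fun p => ENNReal.ofReal (2 * Real.pi / p.1 * (p.2.1 * p.2.2)) * f (p.2.1, p.1, p.2.2)
  have hH : Measurable H := by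
    refine Measurable.indicator ?_ Tri_measurableSet1
    exact (by fun_prop : Measurable fun p : ℝ × (ℝ × ℝ) =>
      ENNReal.ofReal (2 * Real.pi / p.1 * (p.2.1 * p.2.2))).mul (hf.comp (by fun_prop))
  let Φ : ℝ → ENNReal := fun b => ∫⁻ q : ℝ × ℝ, H (b, q)
  have hΦ : Measurable Φ := hH.lintegral_prod_right'
  have h1 : ∀ y : R3, y ≠ 0 → ∫⁻ x : R3, f (‖x‖, ‖y‖, ‖x - y‖) = Φ ‖y‖ := by
    intro y hy
    have hfy : Measurable fun q : ℝ × ℝ => f (q.1, ‖y‖, q.2) := hf.comp (by fun_prop)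
    have hTy : Measurable fun x : R3 => (‖x‖, ‖x - y‖) :=
      measurable_norm.prodMk (measurable_id.sub_const y).norm
    have h2 : ∫⁻ x : R3, f (‖x‖, ‖y‖, ‖x - y‖) =
        ∫⁻ q, f (q.1, ‖y‖, q.2) ∂(Measure.map (fun x : R3 => (‖x‖, ‖x - y‖)) volume) := by
      rw [lintegral_map hfy hTy]
    rw [h2, tri1_map hy, lintegral_withDensity_eq_lintegral_mul _ (by fun_prop) hfy,
      ← lintegral_indicator (Tri_measurableSet2 ‖y‖)]
    rfl
  have h3 : ∫⁻ p : R3 × R3, f (‖p.1‖, ‖p.2‖, ‖p.1 - p.2‖) = ∫⁻ y : R3, Φ ‖y‖ := by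
    have hfT : Measurable fun p : R3 × R3 => f (‖p.1‖, ‖p.2‖, ‖p.1 - p.2‖) := hf.comp hT
    rw [Measure.volume_eq_prod, lintegral_prod_symm' _ hfT]
    refine lintegral_congr_ae ?_
    have h4 : ∀ᵐ y : R3, y ≠ 0 := by
      rw [ae_iff]
      simp
    filter_upwards [h4] with y hy
    exact h1 y hy
  rw [h3, Tri_radial hΦ]
  -- the right hand side
  let g : ℝ × ℝ × ℝ → ENNReal := triSet.indicator
    fun p => ENNReal.ofReal (8 * Real.pi ^ 2 * (p.1 * p.2.1 * p.2.2)) * f p
  have hg : Measurable g := by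
    refine Measurable.indicator ?_ Tri_measurableSet
    exact (by fun_prop : Measurable fun p : ℝ × ℝ × ℝ =>
      ENNReal.ofReal (8 * Real.pi ^ 2 * (p.1 * p.2.1 * p.2.2))).mul hf
  have h5 : ∫⁻ p, f p ∂trimeas = ∫⁻ p, g p := by
    unfold trimeas
    rw [lintegral_withDensity_eq_lintegral_mul _ (by fun_prop) hf,
      ← lintegral_indicator Tri_measurableSet]
    rfl
  rw [h5]
  have h6 : ∀ b a u : ℝ, 0 < b → ENNReal.ofReal (4 * Real.pi) *
      (ENNReal.ofReal (b ^ 2) * H (b, (a, u))) = g (a, b, u) := by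
    intro b a u hb
    by_cases hab : (a, u) ∈ triSet1 b
    · have e1 : H (b, (a, u)) = ENNReal.ofReal (2 * Real.pi / b * (a * u)) * f (a, b, u) :=
        indicator_of_mem (s := {p : ℝ × (ℝ × ℝ) | p.2 ∈ triSet1 p.1}) hab _
      have hmem : (a, b, u) ∈ triSet := ⟨hab.1, hb, hab.2.1, hab.2.2⟩
      have e2 : g (a, b, u) = ENNReal.ofReal (8 * Real.pi ^ 2 * (a * b * u)) * f (a, b, u) :=
        indicator_of_mem hmem _
      rw [e1, e2, ← mul_assoc, ← mul_assoc, ← ENNReal.ofReal_mul (by positivity),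
        ← ENNReal.ofReal_mul (by positivity)]
      congr 2
      field_simp
      ring
    · have e1 : H (b, (a, u)) = 0 :=
        indicator_of_notMem (s := {p : ℝ × (ℝ × ℝ) | p.2 ∈ triSet1 p.1}) hab _
      have hmem : (a, b, u) ∉ triSet := fun h => hab ⟨h.1, h.2.2.1, h.2.2.2⟩
      have e2 : g (a, b, u) = 0 := indicator_of_notMem hmem _
      rw [e1, e2, mul_zero, mul_zero]
  have h7 : ENNReal.ofReal (4 * Real.pi) *
      ∫⁻ r in Ioi (0 : ℝ), ENNReal.ofReal (r ^ 2) * Φ r =
        ∫⁻ b : ℝ, ∫⁻ a : ℝ, ∫⁻ u : ℝ, g (a, b, u) := by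
    have hm3 : Measurable fun r : ℝ => ENNReal.ofReal (r ^ 2) * Φ r :=
      (by fun_prop : Measurable fun r : ℝ => ENNReal.ofReal (r ^ 2)).mul hΦ
    rw [← lintegral_const_mul _ hm3, ← lintegral_indicator measurableSet_Ioi]
    refine lintegral_congr fun b => ?_
    by_cases hb : b ∈ Ioi (0 : ℝ)
    · rw [indicator_of_mem hb]
      have hHb : Measurable fun q : ℝ × ℝ => H (b, q) := hH.comp (by fun_prop)
      change ENNReal.ofReal (4 * Real.pi) * (ENNReal.ofReal (b ^ 2) * ∫⁻ q : ℝ × ℝ, H (b, q)) = _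
      rw [← lintegral_const_mul _ hHb, ← lintegral_const_mul _ (hHb.const_mul _),
        Measure.volume_eq_prod, lintegral_prod _ ((hHb.const_mul _).const_mul _).aemeasurable]
      exact lintegral_congr fun a => lintegral_congr fun u => h6 b a u hb
    · rw [indicator_of_notMem hb]
      symm
      have h8 : ∀ a u : ℝ, g (a, b, u) = 0 := by
        intro a u
        have hmem : (a, b, u) ∉ triSet := fun h => hb h.2.1
        exact indicator_of_notMem hmem _
      simp only [h8, lintegral_zero]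
  rw [h7]
  have h9 : Measurable (Function.uncurry fun (a b : ℝ) => ∫⁻ u : ℝ, g (a, b, u)) := by
    have h10 : Measurable fun p : (ℝ × ℝ) × ℝ => g (p.1.1, p.1.2, p.2) := hg.comp (by fun_prop)
    exact h10.lintegral_prod_right'
  rw [lintegral_lintegral_swap (f := fun b a => ∫⁻ u : ℝ, g (a, b, u))
    (h9.comp measurable_swap).aemeasurable, Measure.volume_eq_prod,
    lintegral_prod _ hg.aemeasurable]
  refine lintegral_congr fun a => ?_
  have hga : Measurable fun q : ℝ × ℝ => g (a, q) := hg.comp (by fun_prop)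
  rw [Measure.volume_eq_prod, lintegral_prod _ hga.aemeasurable]

/-- Fubini for functions supported in `triSet`. -/
theorem Tri_fubini {F : ℝ × ℝ × ℝ → ℝ} (hF : Integrable (triSet.indicator F)) :
    ∫ p, triSet.indicator F p = ∫ a in Ioi (0 : ℝ), ∫ b in Ioi (0 : ℝ),
          ∫ u in Ioo |a - b| (a + b), F (a, b, u) := by
  rw [Measure.volume_eq_prod] at hF ⊢
  rw [integral_prod _ hF, ← integral_indicator measurableSet_Ioi]
  refine integral_congr_ae ?_
  filter_upwards [hF.prod_right_ae] with a ha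
  by_cases h : a ∈ Ioi (0 : ℝ)
  · rw [indicator_of_mem h, ← integral_indicator measurableSet_Ioi, Measure.volume_eq_prod]
    rw [Measure.volume_eq_prod] at ha
    rw [integral_prod _ ha]
    refine integral_congr_ae (Eventually.of_forall fun b => ?_)
    change ∫ u, triSet.indicator F (a, (b, u)) = _
    by_cases hb : b ∈ Ioi (0 : ℝ)
    · rw [indicator_of_mem hb, ← integral_indicator measurableSet_Ioo]
      refine integral_congr_ae (Eventually.of_forall fun u => ?_)
      change triSet.indicator F (a, (b, u)) = _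
      by_cases hu : u ∈ Ioo |a - b| (a + b)
      · have hmem : (a, (b, u)) ∈ triSet := ⟨h, hb, hu.1, hu.2⟩
        rw [indicator_of_mem hu, indicator_of_mem hmem]
      · have hmem : (a, (b, u)) ∉ triSet := fun h' => hu ⟨h'.2.2.1, h'.2.2.2⟩
        rw [indicator_of_notMem hu, indicator_of_notMem hmem]
    · rw [indicator_of_notMem hb]
      have h8 : ∀ u : ℝ, triSet.indicator F (a, (b, u)) = 0 := by
        intro u
        have hmem : (a, (b, u)) ∉ triSet := fun h' => hb h'.2.1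
        exact indicator_of_notMem hmem _
      simp only [h8, integral_zero]
  · rw [indicator_of_notMem h]
    have h8 : ∀ q : ℝ × ℝ, triSet.indicator F (a, q) = 0 := by
      intro q
      have hmem : (a, q) ∉ triSet := fun h' => h h'.1
      exact indicator_of_notMem hmem _
    simp only [h8, integral_zero]

/-- iterated form -/
theorem integral_tri {h : ℝ → ℝ → ℝ → ℝ} (hm : Measurable fun p : ℝ × ℝ × ℝ => h p.1 p.2.1 p.2.2)
    (hi : Integrable fun p : R3 × R3 => h ‖p.1‖ ‖p.2‖ ‖p.1 - p.2‖) :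
    ∫ p : R3 × R3, h ‖p.1‖ ‖p.2‖ ‖p.1 - p.2‖
      = 8 * Real.pi ^ 2 * ∫ a in Ioi (0 : ℝ), ∫ b in Ioi (0 : ℝ),
          ∫ u in Ioo |a - b| (a + b), h a b u * (a * b * u) := by
  have hT : Measurable fun p : R3 × R3 => (‖p.1‖, ‖p.2‖, ‖p.1 - p.2‖) :=
    (measurable_fst.norm.prodMk (measurable_snd.norm.prodMk
      (measurable_fst.sub measurable_snd).norm))
  let k : ℝ × ℝ × ℝ → ℝ := fun p => h p.1 p.2.1 p.2.2
  let w : ℝ × ℝ × ℝ → ℝ := fun p => 8 * Real.pi ^ 2 * (p.1 * p.2.1 * p.2.2)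
  have hw : Measurable w := by
    change Measurable fun p : ℝ × ℝ × ℝ => 8 * Real.pi ^ 2 * (p.1 * p.2.1 * p.2.2)
    fun_prop
  have hw0 : ∀ p ∈ triSet, 0 ≤ w p := by
    intro p hp
    have h1 : 0 < p.2.2 := (abs_nonneg _).trans_lt hp.2.2.1
    have h2 := hp.1
    have h3 := hp.2.1
    change 0 ≤ 8 * Real.pi ^ 2 * (p.1 * p.2.1 * p.2.2)
    positivity
  have h4 : ∫ p : R3 × R3, h ‖p.1‖ ‖p.2‖ ‖p.1 - p.2‖ = ∫ p, k p ∂trimeas := by
    rw [← tri_map, integral_map hT.aemeasurable hm.aestronglyMeasurable]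
  have h5 : Integrable k trimeas := by
    rw [← tri_map, integrable_map_measure hm.aestronglyMeasurable hT.aemeasurable]
    exact hi
  have h6 : Integrable (triSet.indicator fun p => w p * k p) := by
    rw [integrable_indicator_iff Tri_measurableSet]
    unfold trimeas at h5
    rw [integrable_withDensity_iff_integrable_smul' (by fun_prop)
      (Eventually.of_forall fun _ => ENNReal.ofReal_lt_top)] at h5
    refine (integrable_congr ?_).1 h5
    filter_upwards [ae_restrict_mem Tri_measurableSet] with p hp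
    rw [ENNReal.toReal_ofReal (hw0 p hp), smul_eq_mul]
  have h7 : ∫ p, k p ∂trimeas = ∫ p, (triSet.indicator fun p => w p * k p) p := by
    unfold trimeas
    rw [integral_withDensity_eq_integral_toReal_smul (by fun_prop)
      (Eventually.of_forall fun _ => ENNReal.ofReal_lt_top), integral_indicator Tri_measurableSet]
    refine setIntegral_congr_fun Tri_measurableSet fun p hp => ?_
    change (ENNReal.ofReal (w p)).toReal • k p = w p * k p
    rw [ENNReal.toReal_ofReal (hw0 p hp), smul_eq_mul]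
  rw [h4, h7, Tri_fubini h6, ← integral_const_mul]
  refine integral_congr_ae (Eventually.of_forall fun a => ?_)
  change _ = 8 * Real.pi ^ 2 * ∫ b in Ioi (0 : ℝ), ∫ u in Ioo |a - b| (a + b), h a b u * (a * b * u)
  rw [← integral_const_mul]
  refine integral_congr_ae (Eventually.of_forall fun b => ?_)
  change _ = 8 * Real.pi ^ 2 * ∫ u in Ioo |a - b| (a + b), h a b u * (a * b * u)
  rw [← integral_const_mul]
  refine integral_congr_ae (Eventually.of_forall fun u => ?_)
  change 8 * Real.pi ^ 2 * (a * b * u) * h a b u = 8 * Real.pi ^ 2 * (h a b u * (a * b * u))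
  ring

/-- iterated form, one centre -/
theorem integral_tri1 {h : ℝ → ℝ → ℝ} (hm : Measurable fun p : ℝ × ℝ => h p.1 p.2) {y : R3}
    (hy : y ≠ 0) (hi : Integrable fun x : R3 => h ‖x‖ ‖x - y‖) :
    ∫ x : R3, h ‖x‖ ‖x - y‖
      = 2 * Real.pi / ‖y‖ * ∫ a in Ioi (0 : ℝ), ∫ u in Ioo |a - ‖y‖| (a + ‖y‖),
          h a u * (a * u) := by
  have hT : Measurable fun x : R3 => (‖x‖, ‖x - y‖) :=
    measurable_norm.prodMk (measurable_id.sub_const y).norm
  have hy0 : 0 < ‖y‖ := norm_pos_iff.2 hy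
  have hS := Tri_measurableSet2 ‖y‖
  let k : ℝ × ℝ → ℝ := fun p => h p.1 p.2
  let w : ℝ × ℝ → ℝ := fun p => 2 * Real.pi / ‖y‖ * (p.1 * p.2)
  have hw0 : ∀ p ∈ triSet1 ‖y‖, 0 ≤ w p := by
    intro p hp
    have h1 : 0 < p.2 := (abs_nonneg _).trans_lt hp.2.1
    have h2 := hp.1
    change 0 ≤ 2 * Real.pi / ‖y‖ * (p.1 * p.2)
    positivity
  have h4 : ∫ x : R3, h ‖x‖ ‖x - y‖ = ∫ p, k p ∂(((volume : Measure (ℝ × ℝ)).restrict
      (triSet1 ‖y‖)).withDensity fun p => ENNReal.ofReal (2 * Real.pi / ‖y‖ * (p.1 * p.2))) := by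
    rw [← tri1_map hy, integral_map hT.aemeasurable hm.aestronglyMeasurable]
  have h5 : Integrable k (((volume : Measure (ℝ × ℝ)).restrict
      (triSet1 ‖y‖)).withDensity fun p => ENNReal.ofReal (2 * Real.pi / ‖y‖ * (p.1 * p.2))) := by
    rw [← tri1_map hy, integrable_map_measure hm.aestronglyMeasurable hT.aemeasurable]
    exact hi
  have h6 : Integrable ((triSet1 ‖y‖).indicator fun p => w p * k p) := by
    rw [integrable_indicator_iff hS]
    rw [integrable_withDensity_iff_integrable_smul' (by fun_prop)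
      (Eventually.of_forall fun _ => ENNReal.ofReal_lt_top)] at h5
    refine (integrable_congr ?_).1 h5
    filter_upwards [ae_restrict_mem hS] with p hp
    rw [ENNReal.toReal_ofReal (hw0 p hp), smul_eq_mul]
  have h7 : ∫ p, k p ∂(((volume : Measure (ℝ × ℝ)).restrict
      (triSet1 ‖y‖)).withDensity fun p => ENNReal.ofReal (2 * Real.pi / ‖y‖ * (p.1 * p.2))) =
        ∫ p, ((triSet1 ‖y‖).indicator fun p => w p * k p) p := by
    rw [integral_withDensity_eq_integral_toReal_smul (by fun_prop)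
      (Eventually.of_forall fun _ => ENNReal.ofReal_lt_top), integral_indicator hS]
    refine setIntegral_congr_fun hS fun p hp => ?_
    change (ENNReal.ofReal (w p)).toReal • k p = w p * k p
    rw [ENNReal.toReal_ofReal (hw0 p hp), smul_eq_mul]
  rw [h4, h7]
  rw [Measure.volume_eq_prod] at h6 ⊢
  rw [integral_prod _ h6, ← integral_const_mul, ← integral_indicator measurableSet_Ioi]
  refine integral_congr_ae (Eventually.of_forall fun a => ?_)
  change ∫ u, (triSet1 ‖y‖).indicator (fun p => w p * k p) (a, u) = _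
  by_cases ha : a ∈ Ioi (0 : ℝ)
  · rw [indicator_of_mem ha, ← integral_const_mul, ← integral_indicator measurableSet_Ioo]
    refine integral_congr_ae (Eventually.of_forall fun u => ?_)
    change (triSet1 ‖y‖).indicator (fun p => w p * k p) (a, u) = _
    by_cases hu : u ∈ Ioo |a - ‖y‖| (a + ‖y‖)
    · have hmem : (a, u) ∈ triSet1 ‖y‖ := ⟨ha, hu.1, hu.2⟩
      rw [indicator_of_mem hu, indicator_of_mem hmem]
      change 2 * Real.pi / ‖y‖ * (a * u) * h a u = 2 * Real.pi / ‖y‖ * (h a u * (a * u))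
      ring
    · have hmem : (a, u) ∉ triSet1 ‖y‖ := fun h' => hu ⟨h'.2.1, h'.2.2⟩
      rw [indicator_of_notMem hu, indicator_of_notMem hmem]
  · rw [indicator_of_notMem ha]
    have h8 : ∀ u : ℝ, (triSet1 ‖y‖).indicator (fun p => w p * k p) (a, u) = 0 := by
      intro u
      have hmem : (a, u) ∉ triSet1 ‖y‖ := fun h' => ha h'.1
      exact indicator_of_notMem hmem _
    simp only [h8, integral_zero]

end Pool.Agent.Lib.CX
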