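import Mathlib
import Pool.Agent.Lib.CX.Basic
import Pool.Agent.Lib.CX.Wave
import Pool.Agent.Lib.CX.Tri

/-! CX task E3: the integrals with `r₁₂` against the hydrogen functions. -/

set_option autoImplicit false

open MeasureTheory Set

noncomputable section

namespace Pool.Agent.Lib.CX

/-- `∫ φ₀² |x - y| dx` -/
def Up (y : R3) : ℝ := ∫ x, (ph0 x) ^ 2 * ‖x - y‖

theorem Upot_ph0_sq (x : R3) : (ph0 x) ^ 2 = Real.exp (-‖x‖) / (8 * Real.pi) := by
  unfold ph0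
  rw [div_pow, Real.sq_sqrt (by positivity), ← Real.exp_nat_mul]
  congr 2
  push_cast
  ring

theorem Upot_integrable (y : R3) : Integrable fun x : R3 => (ph0 x) ^ 2 * ‖x - y‖ := by
  have h0 := (integrable_mom 0).1
  have h1 := (integrable_mom 1).1
  have h2 : Integrable fun x : R3 => ‖x‖ ^ 1 * (ph0 x) ^ 2 + ‖y‖ * (‖x‖ ^ 0 * (ph0 x) ^ 2) :=
    h1.add (h0.const_mul ‖y‖)
  refine h2.mono' ?_ ?_
  · exact ((continuous_ph0.pow 2).mul (continuous_id.sub continuous_const).norm).aestronglyMeasurable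
  · refine Filter.Eventually.of_forall fun x => ?_
    rw [norm_mul, Real.norm_of_nonneg (sq_nonneg _), norm_norm]
    have h3 : ‖x - y‖ ≤ ‖x‖ + ‖y‖ := norm_sub_le _ _
    have h4 : 0 ≤ (ph0 x) ^ 2 := sq_nonneg _
    rw [pow_one, pow_zero]
    nlinarith

theorem Up_radial {y z : R3} (h : ‖y‖ = ‖z‖) : Up y = Up z := by
  let A : R3 ≃ₗᵢ[ℝ] R3 := (ℝ ∙ (y - z))ᗮ.reflection
  have hA : A y = z := Submodule.reflection_sub h
  have h1 := A.measurePreserving.integral_comp A.toHomeomorph.measurableEmbedding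
    (fun x => (ph0 x) ^ 2 * ‖x - z‖)
  unfold Up
  rw [← h1]
  refine integral_congr_ae (Filter.Eventually.of_forall fun x => ?_)
  change (ph0 x) ^ 2 * ‖x - y‖ = (ph0 (A x)) ^ 2 * ‖A x - z‖
  have h2 : ph0 (A x) = ph0 x := by
    unfold ph0
    rw [A.norm_map]
  rw [h2, ← hA, ← map_sub, A.norm_map]

theorem Upot_inner {a b : ℝ} (ha : 0 < a) (hb : 0 < b) :
    ∫ u in Ioo |a - b| (a + b), (Real.exp (-a) / (8 * Real.pi) * u) * (a * u) =
      Real.exp (-a) / (8 * Real.pi) * a * (((a + b) ^ 3 - |a - b| ^ 3) / 3) := by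
  have hle : |a - b| ≤ a + b := abs_le.2 ⟨by linarith, by linarith⟩
  rw [← integral_Ioc_eq_integral_Ioo, ← intervalIntegral.integral_of_le hle]
  have h1 : ∀ u : ℝ, (Real.exp (-a) / (8 * Real.pi) * u) * (a * u) =
      Real.exp (-a) / (8 * Real.pi) * a * u ^ 2 := fun u => by ring
  simp only [h1]
  rw [intervalIntegral.integral_const_mul, integral_pow]
  norm_num

/-- The first antiderivative. -/
theorem Upot_deriv1 (b a : ℝ) :
    HasDerivAt (fun a : ℝ => -(Real.exp (-a)) * (2 * (a ^ 4 + 4 * a ^ 3 + 12 * a ^ 2 + 24 * a + 24)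
      + 6 * b ^ 2 * (a ^ 2 + 2 * a + 2))) (Real.exp (-a) * (2 * a ^ 4 + 6 * a ^ 2 * b ^ 2)) a := by
  have h1 : HasDerivAt (fun a : ℝ => -(Real.exp (-a))) (Real.exp (-a)) a := by
    have h := ((hasDerivAt_neg a).exp).neg
    refine HasDerivAt.congr_deriv h ?_
    ring
  have h2 : HasDerivAt (fun a : ℝ => 2 * (a ^ 4 + 4 * a ^ 3 + 12 * a ^ 2 + 24 * a + 24)
      + 6 * b ^ 2 * (a ^ 2 + 2 * a + 2))
      (2 * (4 * a ^ 3 + 4 * (3 * a ^ 2) + 12 * (2 * a) + 24) + 6 * b ^ 2 * (2 * a + 2)) a := by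
    have e4 := hasDerivAt_pow 4 a
    have e3 := hasDerivAt_pow 3 a
    have e2 := hasDerivAt_pow 2 a
    have e1 := hasDerivAt_id a
    have h := ((((e4.add (e3.const_mul 4)).add (e2.const_mul 12)).add (e1.const_mul 24)).add_const
      24).const_mul 2 |>.add (((e2.add (e1.const_mul 2)).add_const 2).const_mul (6 * b ^ 2))
    refine HasDerivAt.congr_deriv h ?_
    norm_num
  refine HasDerivAt.congr_deriv (h1.mul h2) ?_
  ring

/-- The second antiderivative. -/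
theorem Upot_deriv2 (b a : ℝ) :
    HasDerivAt (fun a : ℝ => -(Real.exp (-a)) * (6 * b * (a ^ 3 + 3 * a ^ 2 + 6 * a + 6)
      + 2 * b ^ 3 * (a + 1))) (Real.exp (-a) * (6 * a ^ 3 * b + 2 * a * b ^ 3)) a := by
  have h1 : HasDerivAt (fun a : ℝ => -(Real.exp (-a))) (Real.exp (-a)) a := by
    have h := ((hasDerivAt_neg a).exp).neg
    refine HasDerivAt.congr_deriv h ?_
    ring
  have h2 : HasDerivAt (fun a : ℝ => 6 * b * (a ^ 3 + 3 * a ^ 2 + 6 * a + 6)
      + 2 * b ^ 3 * (a + 1))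
      (6 * b * (3 * a ^ 2 + 3 * (2 * a) + 6) + 2 * b ^ 3) a := by
    have e3 := hasDerivAt_pow 3 a
    have e2 := hasDerivAt_pow 2 a
    have e1 := hasDerivAt_id a
    have h := (((e3.add (e2.const_mul 3)).add (e1.const_mul 6)).add_const
      6).const_mul (6 * b) |>.add ((e1.add_const 1).const_mul (2 * b ^ 3))
    refine HasDerivAt.congr_deriv h ?_
    norm_num
  refine HasDerivAt.congr_deriv (h1.mul h2) ?_
  ring

theorem Upot_tendsto (b : ℝ) :
    Filter.Tendsto (fun a : ℝ => -(Real.exp (-a)) * (6 * b * (a ^ 3 + 3 * a ^ 2 + 6 * a + 6)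
      + 2 * b ^ 3 * (a + 1))) Filter.atTop (nhds 0) := by
  have h := fun n : ℕ => Real.tendsto_pow_mul_exp_neg_atTop_nhds_zero n
  have h2 := (((h 3).const_mul (-(6 * b))).add ((h 2).const_mul (-(18 * b)))).add
    (((h 1).const_mul (-(36 * b) - 2 * b ^ 3)).add ((h 0).const_mul (-(36 * b) - 2 * b ^ 3)))
  simp only [mul_zero, add_zero] at h2
  refine h2.congr fun a => ?_
  ring

theorem Upot_outer {b : ℝ} (hb : 0 < b) :
    ∫ a in Ioi (0 : ℝ), Real.exp (-a) / (8 * Real.pi) * a * (((a + b) ^ 3 - |a - b| ^ 3) / 3) =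
      (48 + 12 * b ^ 2 - Real.exp (-b) * (12 * b + 48)) / (24 * Real.pi) := by
  have hpi : (0 : ℝ) < Real.pi := Real.pi_pos
  have hF1 : ∀ a ∈ Ioc (0 : ℝ) b,
      Real.exp (-a) / (8 * Real.pi) * a * (((a + b) ^ 3 - |a - b| ^ 3) / 3) =
        (24 * Real.pi)⁻¹ * (Real.exp (-a) * (2 * a ^ 4 + 6 * a ^ 2 * b ^ 2)) := by
    intro a ha
    rw [abs_of_nonpos (by linarith [ha.2])]
    field_simp
    ring
  have hF2 : ∀ a ∈ Ioi b,
      Real.exp (-a) / (8 * Real.pi) * a * (((a + b) ^ 3 - |a - b| ^ 3) / 3) =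
        (24 * Real.pi)⁻¹ * (Real.exp (-a) * (6 * a ^ 3 * b + 2 * a * b ^ 3)) := by
    intro a ha
    have ha' : b < a := ha
    rw [abs_of_pos (by linarith)]
    field_simp
    ring
  have hpos : ∀ a ∈ Ioi b, 0 ≤ Real.exp (-a) * (6 * a ^ 3 * b + 2 * a * b ^ 3) := by
    intro a ha
    have ha' : 0 < a := hb.trans ha
    positivity
  have hi2 : IntegrableOn (fun a : ℝ => Real.exp (-a) * (6 * a ^ 3 * b + 2 * a * b ^ 3)) (Ioi b) :=
    integrableOn_Ioi_deriv_of_nonneg' (fun a _ => Upot_deriv2 b a) hpos (Upot_tendsto b)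
  have he2 : ∫ a in Ioi b, Real.exp (-a) * (6 * a ^ 3 * b + 2 * a * b ^ 3) =
      Real.exp (-b) * (6 * b * (b ^ 3 + 3 * b ^ 2 + 6 * b + 6) + 2 * b ^ 3 * (b + 1)) := by
    rw [integral_Ioi_of_hasDerivAt_of_nonneg' (fun a _ => Upot_deriv2 b a) hpos (Upot_tendsto b)]
    ring
  have hc1 : Continuous fun a : ℝ => Real.exp (-a) * (2 * a ^ 4 + 6 * a ^ 2 * b ^ 2) := by fun_prop
  have he1 : ∫ a in Ioc (0 : ℝ) b, Real.exp (-a) * (2 * a ^ 4 + 6 * a ^ 2 * b ^ 2) =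
      48 + 12 * b ^ 2 - Real.exp (-b) * (2 * (b ^ 4 + 4 * b ^ 3 + 12 * b ^ 2 + 24 * b + 24)
        + 6 * b ^ 2 * (b ^ 2 + 2 * b + 2)) := by
    rw [← intervalIntegral.integral_of_le hb.le,
      intervalIntegral.integral_eq_sub_of_hasDerivAt (fun a _ => Upot_deriv1 b a)
        (hc1.intervalIntegrable _ _)]
    simp only [neg_zero, Real.exp_zero]
    ring
  have hi1 : IntegrableOn (fun a : ℝ => Real.exp (-a) * (2 * a ^ 4 + 6 * a ^ 2 * b ^ 2))
      (Ioc 0 b) := (hc1.integrableOn_Icc).mono_set Ioc_subset_Icc_self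
  rw [← Ioc_union_Ioi_eq_Ioi hb.le, setIntegral_union (Ioc_disjoint_Ioi le_rfl) measurableSet_Ioi,
    setIntegral_congr_fun measurableSet_Ioc hF1, setIntegral_congr_fun measurableSet_Ioi hF2,
    integral_const_mul, integral_const_mul, he1, he2]
  · field_simp
    ring
  · exact (integrableOn_congr_fun hF1 measurableSet_Ioc).2 (hi1.const_mul _)
  · exact (integrableOn_congr_fun hF2 measurableSet_Ioi).2 (hi2.const_mul _)

theorem Up_formula {y : R3} (hy : y ≠ 0) :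
    Up y = ‖y‖ + 4 / ‖y‖ - (4 / ‖y‖ + 1) * Real.exp (-‖y‖) := by
  have hb : 0 < ‖y‖ := norm_pos_iff.2 hy
  have hpi : (0 : ℝ) < Real.pi := Real.pi_pos
  have hi := Upot_integrable y
  simp only [Upot_ph0_sq] at hi
  unfold Up
  simp only [Upot_ph0_sq]
  have hm : Measurable fun p : ℝ × ℝ => Real.exp (-p.1) / (8 * Real.pi) * p.2 := by fun_prop
  rw [integral_tri1 (h := fun a u => Real.exp (-a) / (8 * Real.pi) * u) hm hy hi]
  rw [setIntegral_congr_fun measurableSet_Ioi fun a ha => Upot_inner ha hb, Upot_outer hb]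
  field_simp
  ring

theorem Up_le (y : R3) : 0 ≤ Up y ∧ Up y ≤ ‖y‖ + 3 := by
  refine ⟨integral_nonneg fun x => mul_nonneg (sq_nonneg _) (norm_nonneg _), ?_⟩
  have h0 := (integrable_mom 0).1
  have h1 := (integrable_mom 1).1
  have h2 : Integrable fun x : R3 => ‖x‖ ^ 1 * (ph0 x) ^ 2 + ‖y‖ * (‖x‖ ^ 0 * (ph0 x) ^ 2) :=
    h1.add (h0.const_mul ‖y‖)
  have h3 : Up y ≤ ∫ x, (‖x‖ ^ 1 * (ph0 x) ^ 2 + ‖y‖ * (‖x‖ ^ 0 * (ph0 x) ^ 2)) := by
    refine integral_mono (Upot_integrable y) h2 fun x => ?_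
    have h3 : ‖x - y‖ ≤ ‖x‖ + ‖y‖ := norm_sub_le _ _
    have h4 : 0 ≤ (ph0 x) ^ 2 := sq_nonneg _
    change (ph0 x) ^ 2 * ‖x - y‖ ≤ ‖x‖ ^ 1 * (ph0 x) ^ 2 + ‖y‖ * (‖x‖ ^ 0 * (ph0 x) ^ 2)
    rw [pow_one, pow_zero]
    nlinarith
  rw [integral_add h1 (h0.const_mul ‖y‖), integral_const_mul] at h3
  simp only [pow_one, pow_zero, one_mul] at h3
  rw [int_r_ph0_sq, int_ph0_sq] at h3
  linarith

theorem continuous_Up : Continuous Up := by
  have h : LipschitzWith 1 Up := by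
    refine LipschitzWith.of_le_add fun y z => ?_
    have h0 := (integrable_mom 0).1
    simp only [pow_zero, one_mul] at h0
    have h1 : Up y ≤ ∫ x, ((ph0 x) ^ 2 * ‖x - z‖ + dist y z * (ph0 x) ^ 2) := by
      refine integral_mono (Upot_integrable y)
        ((Upot_integrable z).add (h0.const_mul (dist y z))) fun x => ?_
      have h3 : ‖x - y‖ ≤ ‖x - z‖ + dist y z := by
        rw [dist_comm, dist_eq_norm]
        have h5 : x - y = (x - z) + (z - y) := by abel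
        rw [h5]
        exact norm_add_le _ _
      have h4 : 0 ≤ (ph0 x) ^ 2 := sq_nonneg _
      change (ph0 x) ^ 2 * ‖x - y‖ ≤ (ph0 x) ^ 2 * ‖x - z‖ + dist y z * (ph0 x) ^ 2
      nlinarith
    rw [integral_add (Upot_integrable z) (h0.const_mul (dist y z)), integral_const_mul,
      int_ph0_sq, mul_one] at h1
    exact h1
  exact h.continuous

end Pool.Agent.Lib.CX
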