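import Mathlib
import Pool.Agent.Lib.CX.Basic
import Pool.Agent.Lib.CX.SphB
import Pool.Agent.Lib.CX.Wave
import Pool.Agent.Lib.CX.Upot

/-! CX task F4: two integrals. -/

set_option autoImplicit false

open MeasureTheory Set Filter Topology

noncomputable section

namespace Pool.Agent.Lib.CX

/-- Moments of the exponential function. -/
theorem UpotB_mom (k : ℕ) {c : ℝ} (hc : 0 < c) :
    IntegrableOn (fun r : ℝ => r ^ k * Real.exp (-(c * r))) (Ioi 0) ∧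
      ∫ r in Ioi (0 : ℝ), r ^ k * Real.exp (-(c * r)) = k.factorial / c ^ (k + 1) := by
  have h1 := Real.integral_rpow_mul_exp_neg_mul_Ioi (a := (k : ℝ) + 1) (r := c) (by positivity) hc
  have h2 : ∫ r in Ioi (0 : ℝ), r ^ k * Real.exp (-(c * r)) = k.factorial / c ^ (k + 1) := by
    rw [Real.Gamma_nat_eq_factorial, add_sub_cancel_right] at h1
    simp only [Real.rpow_natCast] at h1
    rw [h1]
    have h3 : ((k : ℝ) + 1) = ((k + 1 : ℕ) : ℝ) := by push_cast; ring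
    rw [h3, Real.rpow_natCast, one_div, inv_pow]
    field_simp
  refine ⟨?_, h2⟩
  by_contra h
  have h4 : ∫ r in Ioi (0 : ℝ), r ^ k * Real.exp (-(c * r)) = 0 := integral_undef h
  rw [h4] at h2
  have h5 : (0 : ℝ) < k.factorial / c ^ (k + 1) := by positivity
  linarith

/-- integrable on the half line, with integral `a` -/
def HIu (f : ℝ → ℝ) (a : ℝ) : Prop := IntegrableOn f (Ioi 0) ∧ ∫ r in Ioi (0 : ℝ), f r = a

theorem UpotB_HI (k : ℕ) {c : ℝ} (hc : 0 < c) :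
    HIu (fun r : ℝ => r ^ k * Real.exp (-(c * r))) (k.factorial / c ^ (k + 1)) := UpotB_mom k hc

theorem HIu.add {f g : ℝ → ℝ} {a b : ℝ} (hf : HIu f a) (hg : HIu g b) :
    HIu (fun r => f r + g r) (a + b) :=
  ⟨hf.1.add hg.1, by rw [integral_add hf.1 hg.1, hf.2, hg.2]⟩

theorem HIu.sub {f g : ℝ → ℝ} {a b : ℝ} (hf : HIu f a) (hg : HIu g b) :
    HIu (fun r => f r - g r) (a - b) :=
  ⟨hf.1.sub hg.1, by rw [integral_sub hf.1 hg.1, hf.2, hg.2]⟩

theorem HIu.cmul {f : ℝ → ℝ} {a : ℝ} (c : ℝ) (hf : HIu f a) : HIu (fun r => c * f r) (c * a) :=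
  ⟨hf.1.const_mul c, by rw [integral_const_mul, hf.2]⟩

theorem UpotB_ae : ∀ᵐ y : R3, y ≠ 0 := by
  rw [ae_iff]
  simp

theorem int_Up_ph0_sq : ∫ y, (ph0 y) ^ 2 * Up y = 35 / 8 := by
  have hpi : (0 : ℝ) < Real.pi := Real.pi_pos
  have h1 : ∫ y, (ph0 y) ^ 2 * Up y = ∫ y : R3, (fun r : ℝ => Real.exp (-r) / (8 * Real.pi) *
      (r + 4 / r - (4 / r + 1) * Real.exp (-r))) ‖y‖ := by
    refine integral_congr_ae ?_
    filter_upwards [UpotB_ae] with y hy
    rw [Upot_ph0_sq, Up_formula hy]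
  rw [h1.trans (integral_radial (fun r : ℝ => Real.exp (-r) / (8 * Real.pi) *
      (r + 4 / r - (4 / r + 1) * Real.exp (-r))))]
  have h2 : ∀ r ∈ Ioi (0 : ℝ), r ^ 2 * (Real.exp (-r) / (8 * Real.pi) *
      (r + 4 / r - (4 / r + 1) * Real.exp (-r))) =
      (8 * Real.pi)⁻¹ * ((r ^ 3 * Real.exp (-(1 * r)) + 4 * (r ^ 1 * Real.exp (-(1 * r)))) -
        (4 * (r ^ 1 * Real.exp (-(2 * r))) + r ^ 2 * Real.exp (-(2 * r)))) := by
    intro r hr
    have hr0 : (0 : ℝ) < r := hr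
    have h3 : Real.exp (-(2 * r)) = Real.exp (-r) * Real.exp (-r) := by
      rw [← Real.exp_add]
      congr 1
      ring
    rw [h3, one_mul]
    field_simp
  rw [setIntegral_congr_fun measurableSet_Ioi h2, integral_const_mul]
  have a1 := (((UpotB_HI 3 one_pos).add
    ((UpotB_HI 1 one_pos).cmul 4)).sub
      (((UpotB_HI 1 two_pos).cmul 4).add (UpotB_HI 2 two_pos)))
  rw [a1.2]
  field_simp
  norm_num [Nat.factorial]

theorem int_Up_ph0_ph2 : (∫ y, ph0 y * ph2 y * Up y) ^ 2 ≤ 69 / 80 := by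
  have hpi : (0 : ℝ) < Real.pi := Real.pi_pos
  set w : ℝ := Real.sqrt (8 * Real.pi) * (8 * Real.sqrt Real.pi) with hw
  have hw0 : 0 < w := by positivity
  have hw2 : w ^ 2 = 512 * Real.pi ^ 2 := by
    rw [hw, mul_pow, mul_pow, Real.sq_sqrt (by positivity), Real.sq_sqrt hpi.le]
    ring
  have h1 : ∫ y, ph0 y * ph2 y * Up y = ∫ y : R3, (fun r : ℝ => w⁻¹ * ((1 - r / 4) *
      Real.exp (-(3 / 4 * r)) * (r + 4 / r - (4 / r + 1) * Real.exp (-r)))) ‖y‖ := by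
    refine integral_congr_ae ?_
    filter_upwards [UpotB_ae] with y hy
    rw [Up_formula hy]
    unfold ph0 ph2
    have h3 : Real.exp (-(3 / 4 * ‖y‖)) = Real.exp (-‖y‖ / 2) * Real.exp (-‖y‖ / 4) := by
      rw [← Real.exp_add]
      congr 1
      ring
    rw [h3, hw]
    field_simp
  rw [h1.trans (integral_radial (fun r : ℝ => w⁻¹ * ((1 - r / 4) *
      Real.exp (-(3 / 4 * r)) * (r + 4 / r - (4 / r + 1) * Real.exp (-r)))))]
  have h2 : ∀ r ∈ Ioi (0 : ℝ), r ^ 2 * (w⁻¹ * ((1 - r / 4) *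
      Real.exp (-(3 / 4 * r)) * (r + 4 / r - (4 / r + 1) * Real.exp (-r)))) =
      w⁻¹ * (((r ^ 3 * Real.exp (-(3 / 4 * r)) + 4 * (r ^ 1 * Real.exp (-(3 / 4 * r)))) -
        ((1 / 4) * (r ^ 4 * Real.exp (-(3 / 4 * r))) + r ^ 2 * Real.exp (-(3 / 4 * r)))) -
        (4 * (r ^ 1 * Real.exp (-(7 / 4 * r))) - (1 / 4) * (r ^ 3 * Real.exp (-(7 / 4 * r))))) := by
    intro r hr
    have hr0 : (0 : ℝ) < r := hr
    have h3 : Real.exp (-(7 / 4 * r)) = Real.exp (-(3 / 4 * r)) * Real.exp (-r) := by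
      rw [← Real.exp_add]
      congr 1
      ring
    rw [h3]
    field_simp
    ring
  rw [setIntegral_congr_fun measurableSet_Ioi h2, integral_const_mul]
  have h34 : (0 : ℝ) < 3 / 4 := by norm_num
  have h74 : (0 : ℝ) < 7 / 4 := by norm_num
  have a1 := ((((UpotB_HI 3 h34).add ((UpotB_HI 1 h34).cmul 4)).sub
    (((UpotB_HI 4 h34).cmul (1 / 4)).add (UpotB_HI 2 h34))).sub
      (((UpotB_HI 1 h74).cmul 4).sub ((UpotB_HI 3 h74).cmul (1 / 4))))
  rw [a1.2]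
  have a2 : ∀ J : ℝ, (4 * Real.pi * (w⁻¹ * J)) ^ 2 = J ^ 2 / 32 := by
    intro J
    rw [mul_pow, mul_pow, mul_pow, inv_pow, hw2]
    field_simp
    ring
  rw [a2]
  norm_num [Nat.factorial]

end Pool.Agent.Lib.CX
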