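import Mathlib
import Pool.Agent.Lib.CX.Basic
import Pool.Agent.Lib.CX.Integ
import Pool.Agent.Lib.CX.Mean
import Pool.Agent.Lib.CX.MeanB
import Pool.Agent.Lib.CX.Wave
import Pool.Agent.Lib.CX.Prj
import Pool.Agent.Lib.CX.Upot
import Pool.Agent.Lib.CX.UpotB

/-! CX task E4: lower bound of the repulsion. -/

set_option autoImplicit false

open MeasureTheory Set

noncomputable section

namespace Pool.Agent.Lib.CX

variable {f : R3 × R3 → ℝ}

private theorem int3 {Ω : Type*} [MeasureSpace Ω] {a b c : Ω → ℝ} (ha : Integrable a)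
    (hb : Integrable b) (hc : Integrable c) :
    ∫ x, (a x + b x + c x) = (∫ x, a x) + (∫ x, b x) + ∫ x, c x := by
  have h := integral_add (ha.add hb) hc
  simp only [Pi.add_apply] at h
  rw [h, integral_add ha hb]

private theorem int4 {Ω : Type*} [MeasureSpace Ω] {a b c d : Ω → ℝ} (ha : Integrable a)
    (hb : Integrable b) (hc : Integrable c) (hd : Integrable d) :
    ∫ x, (a x + b x + c x + d x) = (∫ x, a x) + (∫ x, b x) + (∫ x, c x) + ∫ x, d x := by
  have h := integral_add ((ha.add hb).add hc) hd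
  simp only [Pi.add_apply] at h
  rw [h, int3 ha hb hc]

private theorem int6 {Ω : Type*} [MeasureSpace Ω] {a b c d e f : Ω → ℝ} (ha : Integrable a)
    (hb : Integrable b) (hc : Integrable c) (hd : Integrable d) (he : Integrable e)
    (hf : Integrable f) :
    ∫ x, ((a x + b x) + (c x + d x) + (e x + f x)) = ((∫ x, a x) + (∫ x, b x)) +
      ((∫ x, c x) + ∫ x, d x) + ((∫ x, e x) + ∫ x, f x) := by
  have h := integral_add ((ha.add hb).add (hc.add hd)) (he.add hf)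
  have h' := integral_add (ha.add hb) (hc.add hd)
  simp only [Pi.add_apply] at h h'
  rw [h, h', integral_add ha hb, integral_add hc hd, integral_add he hf]

/-- functions with two finite moments -/
private structure Gd (α : R3 → ℝ) : Prop where
  cont : Continuous α
  i0 : Integrable α
  i1 : Integrable (fun x => ‖x‖ * α x)

private theorem gd_of_compact {α : R3 → ℝ} (h : Continuous α) (hc : HasCompactSupport α) :
    Gd α :=
  ⟨h, h.integrable_of_hasCompactSupport hc,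
    (continuous_norm.mul h).integrable_of_hasCompactSupport hc.mul_left⟩

private theorem gd_add {α β : R3 → ℝ} (hα : Gd α) (hβ : Gd β) : Gd (fun x => α x + β x) := by
  refine ⟨hα.cont.add hβ.cont, hα.i0.add hβ.i0, ?_⟩
  have := hα.i1.add hβ.i1
  refine this.congr (Filter.Eventually.of_forall fun x => ?_)
  simp only [Pi.add_apply]
  ring

private theorem gd_smul {α : R3 → ℝ} (c : ℝ) (hα : Gd α) : Gd (fun x => c * α x) := by
  refine ⟨continuous_const.mul hα.cont, hα.i0.const_mul c, ?_⟩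
  refine (hα.i1.const_mul c).congr (Filter.Eventually.of_forall fun x => ?_)
  simp only
  ring

private theorem gd_r1 {α β : R3 → ℝ} (hα : Gd α) (hβ : Gd β) :
    Integrable (fun p : R3 × R3 => ‖p.1‖ * (α p.1 * β p.2)) ∧
      ∫ p : R3 × R3, ‖p.1‖ * (α p.1 * β p.2) = (∫ x, ‖x‖ * α x) * ∫ y, β y := by
  have h := hα.i1.mul_prod hβ.i0
  have he : (fun p : R3 × R3 => ‖p.1‖ * (α p.1 * β p.2)) =
      fun p : R3 × R3 => (‖p.1‖ * α p.1) * β p.2 := by
    funext p
    ring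
  constructor
  · rw [he]
    exact h
  · rw [he]
    exact integral_prod_mul (fun x => ‖x‖ * α x) β

private theorem gd_r2 {α β : R3 → ℝ} (hα : Gd α) (hβ : Gd β) :
    Integrable (fun p : R3 × R3 => ‖p.2‖ * (α p.1 * β p.2)) ∧
      ∫ p : R3 × R3, ‖p.2‖ * (α p.1 * β p.2) = (∫ x, α x) * ∫ y, ‖y‖ * β y := by
  have h := hα.i0.mul_prod hβ.i1
  have he : (fun p : R3 × R3 => ‖p.2‖ * (α p.1 * β p.2)) =
      fun p : R3 × R3 => α p.1 * (‖p.2‖ * β p.2) := by
    funext p
    ring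
  constructor
  · rw [he]
    exact h
  · rw [he]
    exact integral_prod_mul α (fun y => ‖y‖ * β y)

private theorem gd_r12 {α β : R3 → ℝ} (hα : Gd α) (hβ : Gd β) :
    Integrable (fun p : R3 × R3 => ‖p.1 - p.2‖ * (α p.1 * β p.2)) := by
  have h := (gd_r1 hα hβ).1.norm.add (gd_r2 hα hβ).1.norm
  refine h.mono' ?_ (Filter.Eventually.of_forall fun p => ?_)
  · have h1 := hα.cont
    have h2 := hβ.cont
    exact Continuous.aestronglyMeasurable (by fun_prop)
  · simp only [Pi.add_apply, norm_mul, norm_norm]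
    rw [← add_mul]
    exact mul_le_mul_of_nonneg_right (norm_sub_le _ _) (by positivity)

private theorem gd_Up {β : R3 → ℝ} (ha : Gd (fun x => (ph0 x) ^ 2)) (hβ : Gd β) :
    ∫ p : R3 × R3, ‖p.1 - p.2‖ * ((ph0 p.1) ^ 2 * β p.2) = ∫ y, β y * Up y := by
  have h := gd_r12 ha hβ
  rw [Measure.volume_eq_prod] at h ⊢
  rw [integral_prod_symm _ h]
  apply integral_congr_ae
  refine Filter.Eventually.of_forall fun y => ?_
  simp only [Up]
  rw [← integral_const_mul]
  apply integral_congr_ae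
  refine Filter.Eventually.of_forall fun x => ?_
  simp only
  ring

private theorem gd_Up' {β : R3 → ℝ} (ha : Gd (fun x => (ph0 x) ^ 2)) (hβ : Gd β) :
    ∫ p : R3 × R3, ‖p.1 - p.2‖ * (β p.1 * (ph0 p.2) ^ 2) = ∫ y, β y * Up y := by
  have h := gd_r12 hβ ha
  rw [Measure.volume_eq_prod] at h ⊢
  rw [integral_prod _ h]
  apply integral_congr_ae
  refine Filter.Eventually.of_forall fun y => ?_
  simp only [Up]
  rw [← integral_const_mul]
  apply integral_congr_ae
  refine Filter.Eventually.of_forall fun x => ?_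
  simp only
  rw [norm_sub_rev]
  ring

private theorem pair_snd (hf : Continuous f) (hc : HasCompactSupport f) {β : R3 → ℝ}
    (hβ : Continuous β) : Integrable (fun p : R3 × R3 => ph0 p.1 * β p.2 * f p) ∧
    ∫ p : R3 × R3, ph0 p.1 * β p.2 * f p = ∫ y, β y * G2 f y := by
  have h0 := continuous_ph0
  have h : Integrable (fun p : R3 × R3 => ph0 p.1 * β p.2 * f p) :=
    Continuous.integrable_of_hasCompactSupport (by fun_prop) hc.mul_left
  refine ⟨h, ?_⟩
  rw [Measure.volume_eq_prod] at h ⊢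
  rw [integral_prod_symm _ h]
  apply integral_congr_ae
  refine Filter.Eventually.of_forall fun y => ?_
  simp only [G2]
  rw [← integral_const_mul]
  apply integral_congr_ae
  refine Filter.Eventually.of_forall fun x => ?_
  simp only
  ring

private theorem pair_fst (hf : Continuous f) (hc : HasCompactSupport f) {β : R3 → ℝ}
    (hβ : Continuous β) : Integrable (fun p : R3 × R3 => β p.1 * ph0 p.2 * f p) ∧
    ∫ p : R3 × R3, β p.1 * ph0 p.2 * f p = ∫ y, β y * G1 f y := by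
  have h0 := continuous_ph0
  have h : Integrable (fun p : R3 × R3 => β p.1 * ph0 p.2 * f p) :=
    Continuous.integrable_of_hasCompactSupport (by fun_prop) hc.mul_left
  refine ⟨h, ?_⟩
  rw [Measure.volume_eq_prod] at h ⊢
  rw [integral_prod _ h]
  apply integral_congr_ae
  refine Filter.Eventually.of_forall fun y => ?_
  simp only [G1]
  rw [← integral_const_mul]
  apply integral_congr_ae
  refine Filter.Eventually.of_forall fun x => ?_
  simp only
  ring

/-- the facts on `B ph2 + hh G / (3 + r)` -/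
private theorem one_side {G : R3 → ℝ} (hG : Continuous G) (hGc : HasCompactSupport G) (B : ℝ)
    (H : ℝ) (hH : H = ∫ x, 1 / (3 + ‖x‖) * (hh G x) ^ 2) {p : R3 → ℝ}
    (hp : p = fun x => B * ph2 x + 1 / (3 + ‖x‖) * hh G x) :
    Continuous p ∧ Gd (fun x => ph0 x * p x) ∧ Gd (fun x => (p x) ^ 2) ∧
    (∫ x, ph0 x * p x) = 0 ∧
    (∫ x, ph0 x * p x * Up x) = B * (∫ x, ph0 x * ph2 x * Up x) ∧
    3 * (∫ x, (p x) ^ 2) + (∫ x, ‖x‖ * (p x) ^ 2) = 15 * B ^ 2 + H ∧
    (∫ x, p x * G x) = B * be G + H := by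
  have hk : Continuous (fun x => 1 / (3 + ‖x‖) * hh G x) := by
    have h1 : Continuous (hh G) := hG.sub (continuous_sm hG)
    refine Continuous.mul ?_ h1
    refine continuous_const.div (by fun_prop) fun x => ?_
    have := norm_nonneg x
    positivity
  have hhc : HasCompactSupport (hh G) := by
    have h1 : HasCompactSupport (fun x => -sm G x) := (hasCompactSupport_sm hGc).comp_left neg_zero
    have h2 := hGc.add h1
    have h3 : hh G = fun x => G x + -sm G x := by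
      funext x
      simp only [hh]
      ring
    rw [h3]
    exact h2
  have hkc : HasCompactSupport (fun x => 1 / (3 + ‖x‖) * hh G x) := hhc.mul_left
  have h0c := continuous_ph0
  have h2c := continuous_ph2
  obtain ⟨m0a, m0b, m0c, m0d, m0e⟩ := integrable_mom 0
  obtain ⟨m1a, m1b, m1c, m1d, m1e⟩ := integrable_mom 1
  simp only [pow_zero, one_mul, pow_one] at m0a m0b m0c m0d m0e m1a m1b m1c m1d m1e
  set k : R3 → ℝ := fun x => 1 / (3 + ‖x‖) * hh G x with hkdef
  have hpk : ∀ x, p x = B * ph2 x + k x := fun x => by rw [hp]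
  have hpc : Continuous p := by
    have : p = fun x => B * ph2 x + k x := funext hpk
    rw [this]
    exact (continuous_const.mul h2c).add hk
  have g02 : Gd (fun x => ph0 x * ph2 x) := ⟨h0c.mul h2c, m0c, m1c⟩
  have g22 : Gd (fun x => (ph2 x) ^ 2) := ⟨h2c.pow 2, m0b, m1b⟩
  have g0k : Gd (fun x => ph0 x * k x) := gd_of_compact (h0c.mul hk) hkc.mul_left
  have g2k : Gd (fun x => ph2 x * k x) := gd_of_compact (h2c.mul hk) hkc.mul_left
  have gkk : Gd (fun x => (k x) ^ 2) := gd_of_compact (hk.pow 2) (by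
    have : (fun x => (k x) ^ 2) = fun x => k x * k x := by
      funext x
      ring
    rw [this]
    exact hkc.mul_left)
  have ht : ∀ x : R3, (3 + ‖x‖) ≠ 0 := by
    intro x
    have h3 : 0 ≤ ‖x‖ := norm_nonneg x
    exact (by linarith : (0 : ℝ) < 3 + ‖x‖).ne'
  have e0p : (fun x => ph0 x * p x) = fun x => B * (ph0 x * ph2 x) + ph0 x * k x := by
    funext x
    rw [hpk]
    ring
  have epp : (fun x => (p x) ^ 2) =
      fun x => (B ^ 2 * (ph2 x) ^ 2 + (2 * B) * (ph2 x * k x)) + (k x) ^ 2 := by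
    funext x
    rw [hpk]
    ring
  have g0p : Gd (fun x => ph0 x * p x) := by
    rw [e0p]
    exact gd_add (gd_smul B g02) g0k
  have gpp : Gd (fun x => (p x) ^ 2) := by
    rw [epp]
    exact gd_add (gd_add (gd_smul _ g22) (gd_smul _ g2k)) gkk
  have z0k : ∫ x, ph0 x * k x = 0 := by
    have := hh_orth hG hGc (fun r => Real.exp (-r / 2) / Real.sqrt (8 * Real.pi) * (1 / (3 + r)))
    rw [← this]
    apply integral_congr_ae
    refine Filter.Eventually.of_forall fun x => ?_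
    simp only [ph0, hkdef]
    ring
  have z0kU : ∫ x, ph0 x * k x * Up x = 0 := by
    have := hh_orth hG hGc (fun r => Real.exp (-r / 2) / Real.sqrt (8 * Real.pi) * (1 / (3 + r)) *
      Up (EuclideanSpace.single 0 r))
    rw [← this]
    apply integral_congr_ae
    refine Filter.Eventually.of_forall fun x => ?_
    have hU : Up x = Up (EuclideanSpace.single (0 : Fin 3) ‖x‖) := by
      apply Up_radial
      simp
    simp only
    rw [hU]
    simp only [ph0, hkdef]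
    ring
  have z2k : ∫ x, (3 + ‖x‖) * (ph2 x * k x) = 0 := by
    have := hh_orth hG hGc (fun r => (1 - r / 4) * Real.exp (-r / 4) / (8 * Real.sqrt Real.pi))
    rw [← this]
    apply integral_congr_ae
    refine Filter.Eventually.of_forall fun x => ?_
    simp only [ph2, hkdef]
    have h3 := ht x
    field_simp
  have zkk : ∫ x, (3 + ‖x‖) * (k x) ^ 2 = H := by
    rw [hH]
    apply integral_congr_ae
    refine Filter.Eventually.of_forall fun x => ?_
    simp only [hkdef]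
    have h3 := ht x
    field_simp
  have i02U : Integrable (fun x => ph0 x * ph2 x * Up x) := by
    have h1 : Integrable (fun x => 3 * (ph0 x * ph2 x) + ‖x‖ * (ph0 x * ph2 x)) :=
      (m0c.const_mul 3).add m1c
    refine h1.norm.mono' (Continuous.aestronglyMeasurable ((h0c.mul h2c).mul continuous_Up))
      (Filter.Eventually.of_forall fun x => ?_)
    have h2 := Up_le x
    have h3 : 0 ≤ 3 + ‖x‖ := by positivity
    have h4 : ‖3 * (ph0 x * ph2 x) + ‖x‖ * (ph0 x * ph2 x)‖ = |ph0 x * ph2 x| * (3 + ‖x‖) := by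
      rw [← add_mul, Real.norm_eq_abs, abs_mul, abs_of_nonneg h3, mul_comm]
    rw [h4, Real.norm_eq_abs, abs_mul, abs_of_nonneg h2.1]
    exact mul_le_mul_of_nonneg_left (by linarith [h2.2]) (abs_nonneg _)
  have i0kU : Integrable (fun x => ph0 x * k x * Up x) := by
    refine Continuous.integrable_of_hasCompactSupport ((h0c.mul hk).mul continuous_Up) ?_
    exact (hkc.mul_left (f := ph0)).mul_right
  refine ⟨hpc, g0p, gpp, ?_, ?_, ?_, ?_⟩
  · rw [e0p, integral_add (m0c.const_mul B) g0k.i0, integral_const_mul, int_ph0_ph2, z0k]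
    ring
  · have e : (fun x => ph0 x * p x * Up x) = fun x => B * (ph0 x * ph2 x * Up x) +
        ph0 x * k x * Up x := by
      funext x
      rw [hpk]
      ring
    rw [e, integral_add (i02U.const_mul B) i0kU, integral_const_mul, z0kU]
    ring
  · have e1 : 3 * (∫ x, (p x) ^ 2) + (∫ x, ‖x‖ * (p x) ^ 2) = ∫ x, (3 + ‖x‖) * (p x) ^ 2 := by
      rw [← integral_const_mul, ← integral_add (gpp.i0.const_mul 3) gpp.i1]
      apply integral_congr_ae
      refine Filter.Eventually.of_forall fun x => ?_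
      simp only
      ring
    have i2 : ∀ {α : R3 → ℝ}, Gd α → Integrable (fun x => (3 + ‖x‖) * α x) := by
      intro α hα
      refine ((hα.i0.const_mul 3).add hα.i1).congr (Filter.Eventually.of_forall fun x => ?_)
      simp only [Pi.add_apply]
      ring
    have e2 : (fun x => (3 + ‖x‖) * (p x) ^ 2) = fun x => (B ^ 2 * ((3 + ‖x‖) * (ph2 x) ^ 2) +
        (2 * B) * ((3 + ‖x‖) * (ph2 x * k x))) + (3 + ‖x‖) * (k x) ^ 2 := by
      funext x
      rw [hpk]
      ring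
    have e3 : ∫ x, (3 + ‖x‖) * (ph2 x) ^ 2 = 15 := by
      have h1 : ∫ x, (3 + ‖x‖) * (ph2 x) ^ 2 =
          ∫ x, (3 * (ph2 x) ^ 2 + ‖x‖ * (ph2 x) ^ 2) := by
        apply integral_congr_ae
        refine Filter.Eventually.of_forall fun x => ?_
        simp only
        ring
      rw [h1, integral_add (m0b.const_mul 3) m1b, integral_const_mul, int_ph2_sq, int_r_ph2_sq]
      norm_num
    rw [e1, e2, int3 ((i2 g22).const_mul _) ((i2 g2k).const_mul _) (i2 gkk), integral_const_mul,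
      integral_const_mul, e3, z2k, zkk]
    ring
  · have iG1 : Integrable (fun x => ph2 x * G x) :=
      Continuous.integrable_of_hasCompactSupport (h2c.mul hG) hGc.mul_left
    have iG2 : Integrable (fun x => k x * hh G x) :=
      Continuous.integrable_of_hasCompactSupport (hk.mul (hG.sub (continuous_sm hG))) hkc.mul_right
    have iG3 : Integrable (fun x => k x * sm G x) :=
      Continuous.integrable_of_hasCompactSupport (hk.mul (continuous_sm hG)) hkc.mul_right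
    have e : (fun x => p x * G x) = fun x => (B * (ph2 x * G x) + k x * hh G x) + k x * sm G x := by
      funext x
      rw [hpk]
      simp only [hh]
      ring
    have z : ∫ x, k x * sm G x = 0 := by
      have := hh_orth hG hGc (fun r => 1 / (3 + r) * mn G r)
      rw [← this]
      apply integral_congr_ae
      refine Filter.Eventually.of_forall fun x => ?_
      simp only [hkdef, sm]
      ring
    have z2 : ∫ x, k x * hh G x = H := by
      rw [hH]
      apply integral_congr_ae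
      refine Filter.Eventually.of_forall fun x => ?_
      simp only [hkdef]
      ring
    rw [e, int3 (iG1.const_mul B) iG2 iG3, integral_const_mul, z, z2]
    simp only [be]
    ring

theorem rep_lower (hf : ContDiff ℝ 1 f) (hc : HasCompactSupport f) :
    2 / 9 * (w0 f) ^ 2 + 5 / 144 * ((be (G1 f)) ^ 2 + (be (G2 f)) ^ 2)
        + (∫ x, 1 / (3 + ‖x‖) * (hh (G1 f) x) ^ 2) + (∫ x, 1 / (3 + ‖x‖) * (hh (G2 f) x) ^ 2)
      ≤ r2 f := by
  have hfc : Continuous f := hf.continuous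
  have hG1 : Continuous (G1 f) := (contDiff_G1 hf hc).continuous
  have hG2 : Continuous (G2 f) := (contDiff_G2 hf hc).continuous
  have hG1c := hasCompactSupport_G1 hc
  have hG2c := hasCompactSupport_G2 hc
  obtain ⟨H1, hH1⟩ : ∃ H, H = ∫ x, 1 / (3 + ‖x‖) * (hh (G1 f) x) ^ 2 := ⟨_, rfl⟩
  obtain ⟨H2, hH2⟩ : ∃ H, H = ∫ x, 1 / (3 + ‖x‖) * (hh (G2 f) x) ^ 2 := ⟨_, rfl⟩
  obtain ⟨b1, hb1⟩ : ∃ b, b = be (G1 f) := ⟨_, rfl⟩
  obtain ⟨b2, hb2⟩ : ∃ b, b = be (G2 f) := ⟨_, rfl⟩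
  obtain ⟨w, hw⟩ : ∃ w, w = w0 f := ⟨_, rfl⟩
  obtain ⟨X, hX⟩ : ∃ X, X = ∫ x, ph0 x * ph2 x * Up x := ⟨_, rfl⟩
  obtain ⟨A, hA⟩ : ∃ A : ℝ, A = 2 / 9 * w := ⟨_, rfl⟩
  obtain ⟨B1, hB1⟩ : ∃ B : ℝ, B = 5 / 144 * b1 := ⟨_, rfl⟩
  obtain ⟨B2, hB2⟩ : ∃ B : ℝ, B = 5 / 144 * b2 := ⟨_, rfl⟩
  obtain ⟨q, hq⟩ : ∃ q : R3 → ℝ, q = fun x => B1 * ph2 x + 1 / (3 + ‖x‖) * hh (G1 f) x := ⟨_, rfl⟩
  obtain ⟨p, hp⟩ : ∃ p : R3 → ℝ, p = fun x => B2 * ph2 x + 1 / (3 + ‖x‖) * hh (G2 f) x := ⟨_, rfl⟩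
  obtain ⟨qc, q0, qq, q1, q2, q3, q4⟩ := one_side hG1 hG1c B1 H1 hH1 hq
  obtain ⟨pc, p0, pp, p1, p2, p3, p4⟩ := one_side hG2 hG2c B2 H2 hH2 hp
  rw [← hH1, ← hH2, ← hb1, ← hb2, ← hw]
  rw [← hX] at q2 p2
  rw [← hb1] at q4
  rw [← hb2] at p4
  have hX2 : X ^ 2 ≤ 69 / 80 := by
    rw [hX]
    exact int_Up_ph0_ph2
  have h0c := continuous_ph0
  obtain ⟨m0a, -, -, -, -⟩ := integrable_mom 0
  obtain ⟨m1a, -, -, -, -⟩ := integrable_mom 1
  simp only [pow_zero, one_mul, pow_one] at m0a m1a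
  have g00 : Gd (fun x => (ph0 x) ^ 2) := ⟨h0c.pow 2, m0a, m1a⟩
  -- the test function
  set u : R3 × R3 → ℝ := fun z => A * (ph0 z.1 * ph0 z.2) + ph0 z.1 * p z.2 + q z.1 * ph0 z.2
    with hu
  set v : R3 × R3 → ℝ := fun z => ph0 z.1 * p z.2 + q z.1 * ph0 z.2 with hv
  -- pairing with f
  have hpair : Integrable (fun z => u z * f z) ∧
      ∫ z, u z * f z = A * w + (B2 * b2 + H2) + (B1 * b1 + H1) := by
    obtain ⟨j1, k1⟩ := pair_snd hfc hc h0c
    obtain ⟨j2, k2⟩ := pair_snd hfc hc pc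
    obtain ⟨j3, k3⟩ := pair_fst hfc hc qc
    have e : (fun z => u z * f z) = fun z : R3 × R3 => (A * (ph0 z.1 * ph0 z.2 * f z) +
        ph0 z.1 * p z.2 * f z) + q z.1 * ph0 z.2 * f z := by
      funext z
      simp only [hu]
      ring
    have hw2 : ∫ z : R3 × R3, ph0 z.1 * ph0 z.2 * f z = w := by
      rw [hw]
      rfl
    refine ⟨?_, ?_⟩
    · rw [e]
      exact ((j1.const_mul A).add j2).add j3
    · rw [e, int3 (j1.const_mul A) j2 j3, integral_const_mul, hw2, k2, k3, p4, q4]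
  -- the quadratic form
  have eu : (fun z : R3 × R3 => ‖z.1 - z.2‖ * (u z) ^ 2) = fun z : R3 × R3 =>
      (((A ^ 2 * (‖z.1 - z.2‖ * ((ph0 z.1) ^ 2 * (ph0 z.2) ^ 2)) +
        2 * A * (‖z.1 - z.2‖ * ((ph0 z.1) ^ 2 * (ph0 z.2 * p z.2)))) +
        2 * A * (‖z.1 - z.2‖ * ((ph0 z.1 * q z.1) * (ph0 z.2) ^ 2))) +
        ‖z.1 - z.2‖ * (v z) ^ 2) := by
    funext z
    simp only [hu, hv]
    ring
  have ev : (fun z : R3 × R3 => ‖z.1 - z.2‖ * (v z) ^ 2) = fun z : R3 × R3 =>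
      (‖z.1 - z.2‖ * ((ph0 z.1) ^ 2 * (p z.2) ^ 2) +
        ‖z.1 - z.2‖ * ((q z.1) ^ 2 * (ph0 z.2) ^ 2)) +
        2 * (‖z.1 - z.2‖ * ((ph0 z.1 * q z.1) * (ph0 z.2 * p z.2))) := by
    funext z
    simp only [hv]
    ring
  have iv : Integrable (fun z : R3 × R3 => ‖z.1 - z.2‖ * (v z) ^ 2) := by
    rw [ev]
    exact ((gd_r12 g00 pp).add (gd_r12 qq g00)).add ((gd_r12 q0 p0).const_mul 2)
  have ew : (fun z : R3 × R3 => (‖z.1‖ + ‖z.2‖) * (v z) ^ 2) = fun z : R3 × R3 =>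
      ((‖z.1‖ * ((ph0 z.1) ^ 2 * (p z.2) ^ 2) + ‖z.2‖ * ((ph0 z.1) ^ 2 * (p z.2) ^ 2)) +
        (‖z.1‖ * ((q z.1) ^ 2 * (ph0 z.2) ^ 2) + ‖z.2‖ * ((q z.1) ^ 2 * (ph0 z.2) ^ 2))) +
        (2 * (‖z.1‖ * ((ph0 z.1 * q z.1) * (ph0 z.2 * p z.2))) +
          2 * (‖z.2‖ * ((ph0 z.1 * q z.1) * (ph0 z.2 * p z.2)))) := by
    funext z
    simp only [hv]
    ring
  have i1 := (gd_r1 g00 pp).1.add (gd_r2 g00 pp).1
  have i2 := (gd_r1 qq g00).1.add (gd_r2 qq g00).1
  have i3 := ((gd_r1 q0 p0).1.const_mul 2).add ((gd_r2 q0 p0).1.const_mul 2)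
  have iw : Integrable (fun z : R3 × R3 => (‖z.1‖ + ‖z.2‖) * (v z) ^ 2) := by
    rw [ew]
    exact (i1.add i2).add i3
  have hle : ∫ z : R3 × R3, ‖z.1 - z.2‖ * (v z) ^ 2 ≤ 15 * B1 ^ 2 + H1 + (15 * B2 ^ 2 + H2) := by
    have h1 : ∫ z : R3 × R3, ‖z.1 - z.2‖ * (v z) ^ 2 ≤
        ∫ z : R3 × R3, (‖z.1‖ + ‖z.2‖) * (v z) ^ 2 := by
      refine integral_mono iv iw fun z => ?_
      exact mul_le_mul_of_nonneg_right (norm_sub_le _ _) (sq_nonneg _)
    refine h1.trans (le_of_eq ?_)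
    have h2 : ∫ z : R3 × R3, (‖z.1‖ + ‖z.2‖) * (v z) ^ 2 =
        (((∫ x, ‖x‖ * (ph0 x) ^ 2) * ∫ y, (p y) ^ 2) + ((∫ x, (ph0 x) ^ 2) * ∫ y, ‖y‖ * (p y) ^ 2)) +
        (((∫ x, ‖x‖ * (q x) ^ 2) * ∫ y, (ph0 y) ^ 2) + ((∫ x, (q x) ^ 2) * ∫ y, ‖y‖ * (ph0 y) ^ 2)) +
        (2 * ((∫ x, ‖x‖ * (ph0 x * q x)) * ∫ y, ph0 y * p y) +
          2 * ((∫ x, ph0 x * q x) * ∫ y, ‖y‖ * (ph0 y * p y))) := by
      rw [ew, int6 (gd_r1 g00 pp).1 (gd_r2 g00 pp).1 (gd_r1 qq g00).1 (gd_r2 qq g00).1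
        ((gd_r1 q0 p0).1.const_mul 2) ((gd_r2 q0 p0).1.const_mul 2)]
      rw [integral_const_mul, integral_const_mul, (gd_r1 g00 pp).2, (gd_r2 g00 pp).2,
        (gd_r1 qq g00).2, (gd_r2 qq g00).2, (gd_r1 q0 p0).2, (gd_r2 q0 p0).2]
    rw [h2, int_r_ph0_sq, int_ph0_sq, p1, q1]
    linarith
  have hq4 : Integrable (fun z : R3 × R3 => ‖z.1 - z.2‖ * (u z) ^ 2) ∧
      ∫ z : R3 × R3, ‖z.1 - z.2‖ * (u z) ^ 2 = A ^ 2 * (35 / 8) + 2 * A * (B2 * X) +
        2 * A * (B1 * X) + ∫ z : R3 × R3, ‖z.1 - z.2‖ * (v z) ^ 2 := by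
    have j1 := (gd_r12 g00 g00).const_mul (A ^ 2)
    have j2 := (gd_r12 g00 p0).const_mul (2 * A)
    have j3 := (gd_r12 q0 g00).const_mul (2 * A)
    refine ⟨?_, ?_⟩
    · rw [eu]
      exact ((j1.add j2).add j3).add iv
    · rw [eu, int4 j1 j2 j3 iv, integral_const_mul, integral_const_mul, integral_const_mul,
        gd_Up g00 g00, gd_Up g00 p0, gd_Up' g00 q0, int_Up_ph0_sq, p2, q2]
  -- conclusion
  have ir : Integrable (fun z : R3 × R3 => 1 / ‖z.1 - z.2‖ * (f z) ^ 2) := by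
    refine integrable_prod_sub (f := fun z => (f z) ^ 2) (hfc.pow 2) ?_
    have : (fun z => (f z) ^ 2) = fun z => f z * f z := by
      funext z
      ring
    rw [this]
    exact hc.mul_left
  have hmain : 2 * (∫ z, u z * f z) - ∫ z : R3 × R3, ‖z.1 - z.2‖ * (u z) ^ 2 ≤ r2 f := by
    unfold r2
    rw [← integral_const_mul, ← integral_sub (hpair.1.const_mul 2) hq4.1]
    refine integral_mono_ae ((hpair.1.const_mul 2).sub hq4.1) ir ?_
    filter_upwards [ae_prod_ne] with z hz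
    have hpos : 0 < ‖z.1 - z.2‖ := norm_pos_iff.2 (sub_ne_zero.2 hz)
    have hsq : 0 ≤ ‖z.1 - z.2‖ * (f z / ‖z.1 - z.2‖ - u z) ^ 2 := by positivity
    have hexp : ‖z.1 - z.2‖ * (f z / ‖z.1 - z.2‖ - u z) ^ 2 =
        1 / ‖z.1 - z.2‖ * (f z) ^ 2 - 2 * (u z * f z) + ‖z.1 - z.2‖ * (u z) ^ 2 := by
      field_simp
      ring
    rw [hexp] at hsq
    linarith
  rw [hpair.2, hq4.2] at hmain
  have hw3 : w = 9 / 2 * A := by rw [hA]; ring
  have hb13 : b1 = 144 / 5 * B1 := by rw [hB1]; ring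
  have hb23 : b2 = 144 / 5 * B2 := by rw [hB2]; ring
  have hfin : 2 * A * X * (B1 + B2) ≤ 1 / 8 * A ^ 2 + 69 / 5 * (B1 ^ 2 + B2 ^ 2) := by
    have h1 : 0 ≤ (1 / 8) * (A - 8 * X * (B1 + B2)) ^ 2 := by positivity
    have h2 : X ^ 2 * (B1 + B2) ^ 2 ≤ 69 / 80 * (B1 + B2) ^ 2 :=
      mul_le_mul_of_nonneg_right hX2 (sq_nonneg _)
    have h3 : 0 ≤ (B1 - B2) ^ 2 := sq_nonneg _
    nlinarith
  rw [hw3, hb13, hb23] at hmain ⊢
  nlinarith [hmain, hfin, hle]

end Pool.Agent.Lib.CX
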