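import Mathlib
import Pool.Agent.Lib.CX.Basic
import Pool.Agent.Lib.CX.Sph

/-! CX task C5: the gradient in spherical coordinates. -/

set_option autoImplicit false

open MeasureTheory Set

noncomputable section

namespace Pool.Agent.Lib.CX

/-- derivative of `sph` in the height -/
def sphz (z φ : ℝ) : R3 :=
  !₂[-(z / Real.sqrt (1 - z ^ 2)) * Real.cos φ, -(z / Real.sqrt (1 - z ^ 2)) * Real.sin φ, 1]

/-- derivative of `sph` in the longitude -/
def sphp (z φ : ℝ) : R3 :=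
  !₂[-(Real.sqrt (1 - z ^ 2) * Real.sin φ), Real.sqrt (1 - z ^ 2) * Real.cos φ, 0]

private lemma hasDerivAt_vec3 {a b c : ℝ → ℝ} {a' b' c' t : ℝ} (ha : HasDerivAt a a' t)
    (hb : HasDerivAt b b' t) (hc : HasDerivAt c c' t) :
    HasDerivAt (fun t => (!₂[a t, b t, c t] : R3)) !₂[a', b', c'] t := by
  have h : HasDerivAt (fun t => ![a t, b t, c t]) ![a', b', c'] t := by
    rw [hasDerivAt_pi]
    intro i
    fin_cases i
    · exact ha
    · exact hb
    · exact hc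
  exact ((PiLp.continuousLinearEquiv 2 ℝ (fun _ : Fin 3 => ℝ)).symm :
    (Fin 3 → ℝ) →L[ℝ] R3).hasFDerivAt.comp_hasDerivAt t h

theorem hasDerivAt_sph_z {z : ℝ} (hz : z ∈ Ioo (-1 : ℝ) 1) (φ : ℝ) :
    HasDerivAt (fun z => sph z φ) (sphz z φ) z := by
  have h1 : 0 < 1 - z ^ 2 := by nlinarith [hz.1, hz.2]
  have h2 : HasDerivAt (fun z : ℝ => Real.sqrt (1 - z ^ 2)) (-(z / Real.sqrt (1 - z ^ 2))) z := by
    have h3 := ((hasDerivAt_pow 2 z).const_sub 1).sqrt h1.ne'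
    have h4 : -((2 : ℕ) * z ^ (2 - 1)) / (2 * Real.sqrt (1 - z ^ 2)) =
        -(z / Real.sqrt (1 - z ^ 2)) := by
      have h5 : Real.sqrt (1 - z ^ 2) ≠ 0 := (Real.sqrt_pos.2 h1).ne'
      field_simp
      norm_num
    rw [h4] at h3
    exact h3
  exact hasDerivAt_vec3 (h2.mul_const _) (h2.mul_const _) (hasDerivAt_id z)

theorem hasDerivAt_sph_p (z φ : ℝ) : HasDerivAt (fun φ => sph z φ) (sphp z φ) φ := by
  have h1 : HasDerivAt (fun φ : ℝ => Real.sqrt (1 - z ^ 2) * Real.cos φ)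
      (-(Real.sqrt (1 - z ^ 2) * Real.sin φ)) φ := by
    have h := (Real.hasDerivAt_cos φ).const_mul (Real.sqrt (1 - z ^ 2))
    rw [mul_neg] at h
    exact h
  exact hasDerivAt_vec3 h1 ((Real.hasDerivAt_sin φ).const_mul _) (hasDerivAt_const φ z)

private lemma map_vec3 (L : R3 →L[ℝ] ℝ) (a b c : ℝ) :
    L !₂[a, b, c] = a * L (e3 0) + b * L (e3 1) + c * L (e3 2) := by
  have h : (!₂[a, b, c] : R3) = a • e3 0 + b • e3 1 + c • e3 2 := by
    ext i
    fin_cases i <;> simp [e3]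
  rw [h, map_add, map_add, map_smul, map_smul, map_smul, smul_eq_mul, smul_eq_mul, smul_eq_mul]

/-- orthonormal frame identity -/
theorem grad_sph {r z φ : ℝ} (hr : 0 < r) (hz : z ∈ Ioo (-1 : ℝ) 1)
    (L : R3 →L[ℝ] ℝ) :
    r ^ 2 * ((∑ k : Fin 3, (L (e3 k)) ^ 2) - (L (sph z φ)) ^ 2)
      = (1 - z ^ 2) * (L (r • sphz z φ)) ^ 2 + (L (r • sphp z φ)) ^ 2 / (1 - z ^ 2) := by
  have h1 : 0 < 1 - z ^ 2 := by nlinarith [hz.1, hz.2]
  set s := Real.sqrt (1 - z ^ 2) with hs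
  have hs2 : s ^ 2 = 1 - z ^ 2 := Real.sq_sqrt h1.le
  have hs0 : s ≠ 0 := (Real.sqrt_pos.2 h1).ne'
  have hcs := Real.sin_sq_add_cos_sq φ
  rw [Fin.sum_univ_three, map_smul, map_smul]
  simp only [sph, sphz, sphp, map_vec3, smul_eq_mul, ← hs]
  generalize L (e3 0) = p
  generalize L (e3 1) = q
  generalize L (e3 2) = t
  generalize Real.cos φ = c at *
  generalize Real.sin φ = d at *
  rw [← hs2]
  have e1 : s ^ 2 * (r * (-(z / s) * c * p + -(z / s) * d * q + 1 * t)) ^ 2 =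
      r ^ 2 * (s * t - z * (c * p + d * q)) ^ 2 := by
    field_simp
    ring
  have e2 : (r * (-(s * d) * p + s * c * q + 0 * t)) ^ 2 / s ^ 2 =
      r ^ 2 * (c * q - d * p) ^ 2 := by
    field_simp
    ring
  rw [e1, e2]
  have hz2 : z ^ 2 = 1 - s ^ 2 := by linarith
  have e3' : p ^ 2 + q ^ 2 = (c * p + d * q) ^ 2 + (c * q - d * p) ^ 2 := by
    have : (c * p + d * q) ^ 2 + (c * q - d * p) ^ 2 = (d ^ 2 + c ^ 2) * (p ^ 2 + q ^ 2) := by ring
    rw [this, hcs, one_mul]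
  have e4 : s * c * p + s * d * q + z * t = s * (c * p + d * q) + z * t := by ring
  rw [e4, e3']
  generalize c * p + d * q = A
  generalize c * q - d * p = B
  have e5 : A ^ 2 + B ^ 2 + t ^ 2 - (s * A + z * t) ^ 2 - ((s * t - z * A) ^ 2 + B ^ 2) =
      (1 - s ^ 2 - z ^ 2) * (A ^ 2 + t ^ 2) := by ring
  have e6 : (1 - s ^ 2 - z ^ 2) = 0 := by linarith
  rw [e6, zero_mul] at e5
  linear_combination r ^ 2 * e5

end Pool.Agent.Lib.CX
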