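import Mathlib
import Pool.Agent.Lib.CX.Basic

/-! CX task C4: the two Legendre inequalities on `(-1, 1)`. -/

set_option autoImplicit false

open MeasureTheory Set

noncomputable section

namespace Pool.Agent.Lib.CX

theorem leg_zonal {G G' : ℝ → ℝ} (hG : ContinuousOn G (Icc (-1) 1))
    (hd : ∀ z ∈ Ioo (-1 : ℝ) 1, HasDerivAt G (G' z) z) (hc : ContinuousOn G' (Ioo (-1) 1))
    (hi : IntegrableOn (fun z => (1 - z ^ 2) * (G' z) ^ 2) (Ioo (-1) 1)) :
    2 * ∫ z in Ioo (-1 : ℝ) 1, (G z - 1 / 2 * ∫ y in Ioo (-1 : ℝ) 1, G y) ^ 2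
      ≤ ∫ z in Ioo (-1 : ℝ) 1, (1 - z ^ 2) * (G' z) ^ 2 := by
  set p : ℝ → ℝ := fun z => G z - G 0 with hp
  have p0 : p 0 = 0 := by simp [hp]
  have hpd : ∀ z ∈ Ioo (-1 : ℝ) 1, HasDerivAt p (G' z) z := fun z hz => (hd z hz).sub_const _
  have hpc : ContinuousOn p (Icc (-1) 1) := hG.sub continuousOn_const
  set Ψ : ℝ → ℝ := fun z => (1 - z ^ 2) * (p z) ^ 2 / z with hΨ
  set Ψ' : ℝ → ℝ := fun z => if z = 0 then (G' 0) ^ 2 else
    ((-(2 * z)) * (p z) ^ 2 + (1 - z ^ 2) * (2 * p z * G' z)) / z -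
      (1 - z ^ 2) * (p z) ^ 2 / z ^ 2 with hΨ'
  have hder : ∀ z ∈ Ioo (-1 : ℝ) 1, HasDerivAt Ψ (Ψ' z) z := by
    intro z hz
    by_cases h0 : z = 0
    · subst h0
      have h1 : Ψ' 0 = (G' 0) ^ 2 := by simp [hΨ']
      rw [h1, hasDerivAt_iff_tendsto_slope]
      have h2 : Filter.Tendsto (slope p 0) (nhdsWithin 0 {0}ᶜ) (nhds (G' 0)) :=
        hasDerivAt_iff_tendsto_slope.mp (hpd 0 hz)
      have h3 : Filter.Tendsto (fun z : ℝ => (1 - z ^ 2) * (slope p 0 z) ^ 2)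
          (nhdsWithin 0 {0}ᶜ) (nhds ((1 - 0 ^ 2) * (G' 0) ^ 2)) := by
        refine Filter.Tendsto.mul ?_ (h2.pow 2)
        exact (Continuous.tendsto (by fun_prop : Continuous fun z : ℝ => 1 - z ^ 2) 0).mono_left
          nhdsWithin_le_nhds
      have h4 : ((1 : ℝ) - 0 ^ 2) * (G' 0) ^ 2 = (G' 0) ^ 2 := by ring
      rw [h4] at h3
      refine h3.congr' ?_
      filter_upwards [self_mem_nhdsWithin] with y hy
      have hy' : y ≠ 0 := hy
      simp only [slope_def_field, hΨ, p0]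
      field_simp
      ring
    · have h1 : Ψ' z = ((-(2 * z)) * (p z) ^ 2 + (1 - z ^ 2) * (2 * p z * G' z)) / z -
          (1 - z ^ 2) * (p z) ^ 2 / z ^ 2 := by simp [hΨ', h0]
      rw [h1]
      have a1 : HasDerivAt (fun z : ℝ => 1 - z ^ 2) (-(2 * z)) z := by
        simpa using (hasDerivAt_pow 2 z).const_sub 1
      have a2 := (a1.mul ((hpd z hz).pow 2)).div (hasDerivAt_id z) h0
      refine a2.congr_deriv ?_
      simp only [id, Pi.pow_apply, Pi.mul_apply]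
      field_simp
      ring
  have hcont : ContinuousOn Ψ (Icc (-1) 1) := by
    intro z hz
    by_cases h1 : z ∈ Ioo (-1 : ℝ) 1
    · exact (hder z h1).continuousAt.continuousWithinAt
    · have h0 : z ≠ 0 := fun h => h1 (by rw [h]; constructor <;> norm_num)
      exact ((((continuousOn_const.sub (continuousOn_id.pow 2)).mul (hpc.pow 2)) z hz).div
        continuousWithinAt_id h0)
  set F : ℝ → ℝ := fun z => (1 - z ^ 2) * (G' z) ^ 2 - 2 * (p z) ^ 2 with hF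
  have i1 : IntegrableOn (fun z => 2 * (p z) ^ 2) (Icc (-1) 1) :=
    (continuousOn_const.mul (hpc.pow 2)).integrableOn_Icc
  have i2 : IntegrableOn (fun z => (1 - z ^ 2) * (G' z) ^ 2) (Icc (-1) 1) :=
    (integrableOn_Icc_iff_integrableOn_Ioo).mpr hi
  have hle : ∀ z ∈ Ioo (-1 : ℝ) 1, Ψ' z ≤ F z := by
    intro z hz
    have h1 : 0 < 1 - z ^ 2 := by nlinarith [hz.1, hz.2]
    by_cases h0 : z = 0
    · subst h0
      simp [hΨ', hF, p0]
    · simp only [hΨ', h0, if_false, hF]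
      have h2 : (1 - z ^ 2) * (G' z) ^ 2 - 2 * (p z) ^ 2 -
          (((-(2 * z)) * (p z) ^ 2 + (1 - z ^ 2) * (2 * p z * G' z)) / z -
            (1 - z ^ 2) * (p z) ^ 2 / z ^ 2) = (1 - z ^ 2) * (G' z - p z / z) ^ 2 := by
        field_simp
        ring
      have h3 : 0 ≤ (1 - z ^ 2) * (G' z - p z / z) ^ 2 := by positivity
      linarith
  have key : Ψ 1 - Ψ (-1) ≤ ∫ y in (-1 : ℝ)..1, F y :=
    intervalIntegral.sub_le_integral_of_hasDeriv_right_of_le (by norm_num) hcont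
      (fun x hx => (hder x hx).hasDerivWithinAt) (i2.sub i1) hle
  have e0 : Ψ 1 - Ψ (-1) = 0 := by simp [hΨ]
  rw [e0, intervalIntegral.integral_of_le (by norm_num), integral_Ioc_eq_integral_Ioo] at key
  have e1 : ∫ y in Ioo (-1 : ℝ) 1, F y = (∫ z in Ioo (-1 : ℝ) 1, (1 - z ^ 2) * (G' z) ^ 2) -
      2 * ∫ z in Ioo (-1 : ℝ) 1, (G z - G 0) ^ 2 := by
    simp only [hF]
    rw [integral_sub hi (i1.mono_set Ioo_subset_Icc_self), integral_const_mul]
  rw [e1] at key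
  -- the mean minimises
  set m : ℝ := 1 / 2 * ∫ y in Ioo (-1 : ℝ) 1, G y with hm
  have j1 : IntegrableOn (fun z => (G z - m) ^ 2) (Ioo (-1) 1) :=
    (((hG.sub continuousOn_const).pow 2).integrableOn_Icc).mono_set Ioo_subset_Icc_self
  have j2 : IntegrableOn (fun z => 2 * (m - G 0) * (G z - m)) (Ioo (-1) 1) :=
    (((continuousOn_const.mul (hG.sub continuousOn_const))).integrableOn_Icc).mono_set
      Ioo_subset_Icc_self
  have j3 : IntegrableOn (fun _ : ℝ => (m - G 0) ^ 2) (Ioo (-1) 1) :=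
    (continuousOn_const.integrableOn_Icc).mono_set Ioo_subset_Icc_self
  have jG : IntegrableOn G (Ioo (-1) 1) := (hG.integrableOn_Icc).mono_set Ioo_subset_Icc_self
  have jm : IntegrableOn (fun _ : ℝ => m) (Ioo (-1) 1) :=
    (continuousOn_const.integrableOn_Icc).mono_set Ioo_subset_Icc_self
  have e2 : ∫ z in Ioo (-1 : ℝ) 1, (G z - G 0) ^ 2 =
      (∫ z in Ioo (-1 : ℝ) 1, (G z - m) ^ 2) + 2 * (m - G 0) ^ 2 := by
    have h1 : ∀ z, (G z - G 0) ^ 2 = (G z - m) ^ 2 + 2 * (m - G 0) * (G z - m) +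
        (m - G 0) ^ 2 := fun z => by ring
    have j12 : IntegrableOn (fun z => (G z - m) ^ 2 + 2 * (m - G 0) * (G z - m))
        (Ioo (-1) 1) := j1.add j2
    simp only [h1]
    rw [integral_add j12 j3, integral_add j1 j2, integral_const_mul,
      integral_sub jG jm, setIntegral_const, setIntegral_const]
    have h2 : ∫ y in Ioo (-1 : ℝ) 1, G y = 2 * m := by rw [hm]; ring
    rw [h2]
    simp only [Measure.real, Real.volume_Ioo, smul_eq_mul]
    rw [ENNReal.toReal_ofReal (by norm_num)]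
    ring
  have h5 : 0 ≤ (m - G 0) ^ 2 := sq_nonneg _
  rw [e2] at key
  linarith

theorem leg_tan {v v' : ℝ → ℝ} (hv : ContinuousOn v (Icc (-1) 1)) (h0 : v (-1) = 0) (h1 : v 1 = 0)
    (hd : ∀ z ∈ Ioo (-1 : ℝ) 1, HasDerivAt v (v' z) z) (hc : ContinuousOn v' (Ioo (-1) 1))
    (hi : IntegrableOn (fun z => (1 - z ^ 2) * (v' z) ^ 2) (Ioo (-1) 1))
    (hj : IntegrableOn (fun z => (v z) ^ 2 / (1 - z ^ 2)) (Ioo (-1) 1)) :
    2 * ∫ z in Ioo (-1 : ℝ) 1, (v z) ^ 2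
      ≤ (∫ z in Ioo (-1 : ℝ) 1, (1 - z ^ 2) * (v' z) ^ 2)
        + ∫ z in Ioo (-1 : ℝ) 1, (v z) ^ 2 / (1 - z ^ 2) := by
  set F : ℝ → ℝ := fun z => (1 - z ^ 2) * (v' z) ^ 2 + (v z) ^ 2 / (1 - z ^ 2) -
    2 * (v z) ^ 2 with hF
  have i1 : IntegrableOn (fun z => 2 * (v z) ^ 2) (Icc (-1) 1) :=
    (continuousOn_const.mul (hv.pow 2)).integrableOn_Icc
  have i2 : IntegrableOn (fun z => (1 - z ^ 2) * (v' z) ^ 2) (Icc (-1) 1) :=
    (integrableOn_Icc_iff_integrableOn_Ioo).mpr hi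
  have i3 : IntegrableOn (fun z => (v z) ^ 2 / (1 - z ^ 2)) (Icc (-1) 1) :=
    (integrableOn_Icc_iff_integrableOn_Ioo).mpr hj
  have hcont : ContinuousOn (fun z => -(z * (v z) ^ 2)) (Icc (-1) 1) :=
    (continuousOn_id.mul (hv.pow 2)).neg
  have hder : ∀ z ∈ Ioo (-1 : ℝ) 1, HasDerivAt (fun z => -(z * (v z) ^ 2))
      (-((v z) ^ 2 + z * (2 * v z * v' z))) z := by
    intro z hz
    have a1 := ((hasDerivAt_id z).mul ((hd z hz).pow 2)).neg
    refine a1.congr_deriv ?_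
    simp only [id, Pi.pow_apply]
    ring
  have hle : ∀ z ∈ Ioo (-1 : ℝ) 1, -((v z) ^ 2 + z * (2 * v z * v' z)) ≤ F z := by
    intro z hz
    have h1 : 0 < 1 - z ^ 2 := by nlinarith [hz.1, hz.2]
    have h2 : F z - -((v z) ^ 2 + z * (2 * v z * v' z)) =
        (1 - z ^ 2) * (v' z + z * v z / (1 - z ^ 2)) ^ 2 := by
      simp only [hF]
      field_simp
      ring
    have h3 : 0 ≤ (1 - z ^ 2) * (v' z + z * v z / (1 - z ^ 2)) ^ 2 := by positivity
    linarith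
  have iF : IntegrableOn F (Icc (-1) 1) := (i2.add i3).sub i1
  have key : -((1 : ℝ) * (v 1) ^ 2) - -((-1 : ℝ) * (v (-1)) ^ 2) ≤ ∫ y in (-1 : ℝ)..1, F y :=
    intervalIntegral.sub_le_integral_of_hasDeriv_right_of_le (by norm_num) hcont
      (fun x hx => (hder x hx).hasDerivWithinAt) iF hle
  have e0 : -((1 : ℝ) * (v 1) ^ 2) - -((-1 : ℝ) * (v (-1)) ^ 2) = 0 := by rw [h0, h1]; ring
  rw [e0, intervalIntegral.integral_of_le (by norm_num), integral_Ioc_eq_integral_Ioo] at key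
  have e1 : ∫ y in Ioo (-1 : ℝ) 1, F y = (∫ z in Ioo (-1 : ℝ) 1, (1 - z ^ 2) * (v' z) ^ 2) +
      (∫ z in Ioo (-1 : ℝ) 1, (v z) ^ 2 / (1 - z ^ 2)) - 2 * ∫ z in Ioo (-1 : ℝ) 1, (v z) ^ 2 := by
    have i4 : IntegrableOn (fun z => (1 - z ^ 2) * (v' z) ^ 2 + (v z) ^ 2 / (1 - z ^ 2))
        (Ioo (-1) 1) := hi.add hj
    simp only [hF]
    rw [integral_sub i4 (i1.mono_set Ioo_subset_Icc_self), integral_add hi hj,
      integral_const_mul]
  rw [e1] at key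
  linarith

end Pool.Agent.Lib.CX
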