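import Mathlib
import Pool.Agent.Lib.CX.Basic

/-! CX task C3: Wirtinger inequality for periodic functions. -/

set_option autoImplicit false

open MeasureTheory Set

noncomputable section

namespace Pool.Agent.Lib.CX

namespace WirAux

open Filter Topology

lemma end_cont {u s w : ℝ → ℝ} {p u0 s0 : ℝ} (hu : HasDerivAt u u0 p) (hs : HasDerivAt s s0 p)
    (hu0 : u p = 0) (hs0 : s p = 0) (hne : s0 ≠ 0) (hw : ContinuousAt w p) :
    ContinuousAt (fun x => w x / s x * u x ^ 2) p := by
  rw [continuousAt_iff_punctured_nhds]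
  have h1 := hasDerivAt_iff_tendsto_slope.1 hu
  have h2 := hasDerivAt_iff_tendsto_slope.1 hs
  have h3 : Tendsto u (𝓝[≠] p) (𝓝 0) := by
    have := hu.continuousAt.tendsto.mono_left (nhdsWithin_le_nhds (s := {p}ᶜ))
    rwa [hu0] at this
  have h4 : Tendsto w (𝓝[≠] p) (𝓝 (w p)) := hw.tendsto.mono_left nhdsWithin_le_nhds
  have h5 : Tendsto (fun x => w x * (slope u p x * u x / slope s p x)) (𝓝[≠] p)
      (𝓝 (w p * (u0 * 0 / s0))) := h4.mul ((h1.mul h3).div h2 hne)
  have e : w p / s p * u p ^ 2 = w p * (u0 * 0 / s0) := by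
    rw [hu0]
    simp
  rw [e]
  refine h5.congr' ?_
  filter_upwards [self_mem_nhdsWithin] with x hx
  have hxp : x - p ≠ 0 := sub_ne_zero.2 hx
  rw [slope_def_field, slope_def_field, hu0, hs0, sub_zero, sub_zero]
  by_cases hsx : s x = 0
  · rw [hsx]
    simp
  · field_simp

lemma half {u u' : ℝ → ℝ} (hd : ∀ x, HasDerivAt u (u' x) x) (hc : Continuous u') {a : ℝ}
    (h0 : u a = 0) (h1 : u (a + Real.pi) = 0) :
    ∫ x in a..(a + Real.pi), (u x) ^ 2 ≤ ∫ x in a..(a + Real.pi), (u' x) ^ 2 := by
  have hpi := Real.pi_pos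
  have huc : Continuous u := continuous_iff_continuousAt.2 fun x => (hd x).continuousAt
  set F : ℝ → ℝ := fun x => Real.cos (x - a) / Real.sin (x - a) * u x ^ 2 with hF
  have hsd : ∀ x, HasDerivAt (fun x => Real.sin (x - a)) (Real.cos (x - a)) x := by
    intro x
    exact (Real.hasDerivAt_sin (x - a)).comp_sub_const x a
  have hcd : ∀ x, HasDerivAt (fun x => Real.cos (x - a)) (-Real.sin (x - a)) x := by
    intro x
    exact (Real.hasDerivAt_cos (x - a)).comp_sub_const x a
  have hpos : ∀ x ∈ Ioo a (a + Real.pi), 0 < Real.sin (x - a) := fun x hx =>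
    Real.sin_pos_of_pos_of_lt_pi (by linarith [hx.1]) (by linarith [hx.2])
  have hFc : ContinuousOn F (Icc a (a + Real.pi)) := by
    intro x hx
    apply ContinuousAt.continuousWithinAt
    rcases eq_or_lt_of_le hx.1 with h | h
    · subst h
      exact end_cont (hd _) (hsd _) h0 (by simp) (by simp) (hcd _).continuousAt
    · rcases eq_or_lt_of_le hx.2 with h' | h'
      · rw [h']
        exact end_cont (hd _) (hsd _) h1 (by simp) (by simp) (hcd _).continuousAt
      · exact ((hcd x).continuousAt.div (hsd x).continuousAt (hpos x ⟨h, h'⟩).ne').mul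
          (huc.continuousAt.pow 2)
  have hder : ∀ x ∈ Ioo a (a + Real.pi), HasDerivWithinAt F
      ((-Real.sin (x - a) * Real.sin (x - a) - Real.cos (x - a) * Real.cos (x - a)) /
        Real.sin (x - a) ^ 2 * u x ^ 2 + Real.cos (x - a) / Real.sin (x - a) *
          (2 * u x * u' x)) (Ioi x) x := by
    intro x hx
    have h2 := ((hcd x).div (hsd x) (hpos x hx).ne').mul ((hd x).pow 2)
    refine HasDerivAt.hasDerivWithinAt (h2.congr_deriv ?_)
    simp
  have key := intervalIntegral.sub_le_integral_of_hasDeriv_right_of_le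
    (φ := fun x => (u' x) ^ 2 - (u x) ^ 2) (by linarith : a ≤ a + Real.pi) hFc hder
    ((by fun_prop : Continuous fun x => (u' x) ^ 2 - (u x) ^ 2).continuousOn.integrableOn_Icc)
    (by
      intro x hx
      have hs := (hpos x hx).ne'
      have hcs := Real.sin_sq_add_cos_sq (x - a)
      have e : (u' x) ^ 2 - (u x) ^ 2 -
          ((-Real.sin (x - a) * Real.sin (x - a) - Real.cos (x - a) * Real.cos (x - a)) /
        Real.sin (x - a) ^ 2 * u x ^ 2 + Real.cos (x - a) / Real.sin (x - a) *
          (2 * u x * u' x)) = (u' x - Real.cos (x - a) / Real.sin (x - a) * u x) ^ 2 := by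
        field_simp
        ring
      have := sq_nonneg (u' x - Real.cos (x - a) / Real.sin (x - a) * u x)
      linarith)
  have e0 : F (a + Real.pi) - F a = 0 := by
    simp only [hF]
    rw [h0, h1]
    simp
  have hsub : ∫ x in a..(a + Real.pi), ((u' x) ^ 2 - (u x) ^ 2) =
      (∫ x in a..(a + Real.pi), (u' x) ^ 2) - ∫ x in a..(a + Real.pi), (u x) ^ 2 :=
    intervalIntegral.integral_sub ((hc.pow 2).intervalIntegrable _ _)
      ((huc.pow 2).intervalIntegrable _ _)
  rw [e0, hsub] at key
  linarith

end WirAux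

theorem wirtinger {h h' : ℝ → ℝ} (hd : ∀ x, HasDerivAt h (h' x) x) (hc : Continuous h')
    (hper : Function.Periodic h (2 * Real.pi)) :
    ∫ x in Ioo (-Real.pi) Real.pi,
        (h x - 1 / (2 * Real.pi) * ∫ y in Ioo (-Real.pi) Real.pi, h y) ^ 2
      ≤ ∫ x in Ioo (-Real.pi) Real.pi, (h' x) ^ 2 := by
  have hpi := Real.pi_pos
  have hhc : Continuous h := continuous_iff_continuousAt.2 fun x => (hd x).continuousAt
  have conv : ∀ f : ℝ → ℝ, ∫ x in Ioo (-Real.pi) Real.pi, f x
      = ∫ x in (-Real.pi)..Real.pi, f x := by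
    intro f
    rw [intervalIntegral.integral_of_le (by linarith), integral_Ioc_eq_integral_Ioo]
  -- a point with equal values at distance pi
  obtain ⟨a, ha⟩ : ∃ a, h (a + Real.pi) = h a := by
    set k : ℝ → ℝ := fun x => h (x + Real.pi) - h x with hk
    have hkc : Continuous k := (hhc.comp (by fun_prop)).sub hhc
    have hk1 : k (0 + Real.pi) = -k 0 := by
      simp only [hk]
      have := hper 0
      rw [zero_add] at this
      rw [zero_add, ← two_mul, this]
      ring
    rw [zero_add] at hk1
    have h2 : (0 : ℝ) ∈ k '' Set.uIcc 0 Real.pi := by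
      apply intermediate_value_uIcc hkc.continuousOn
      rw [hk1, Set.mem_uIcc]
      rcases le_total 0 (k 0) with h | h
      · right
        constructor <;> linarith
      · left
        constructor <;> linarith
    obtain ⟨x, -, hx⟩ := h2
    exact ⟨x, by simp only [hk] at hx; linarith⟩
  have hdu : ∀ x, HasDerivAt (fun x => h x - h a) (h' x) x := fun x => (hd x).sub_const _
  have hh1 := WirAux.half hdu hc (a := a) (by simp) (by rw [ha]; simp)
  have hh2 := WirAux.half hdu hc (a := a + Real.pi) (by rw [ha]; simp) (by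
    have : a + Real.pi + Real.pi = a + 2 * Real.pi := by ring
    rw [this, hper a]
    simp)
  have hi1 : ∀ x y : ℝ, IntervalIntegrable (fun x => (h x - h a) ^ 2) volume x y := fun x y =>
    ((hhc.sub continuous_const).pow 2).intervalIntegrable _ _
  have hi2 : ∀ x y : ℝ, IntervalIntegrable (fun x => (h' x) ^ 2) volume x y := fun x y =>
    (hc.pow 2).intervalIntegrable _ _
  have e2 : a + Real.pi + Real.pi = a + 2 * Real.pi := by ring
  have hall : ∫ x in a..(a + 2 * Real.pi), (h x - h a) ^ 2
      ≤ ∫ x in a..(a + 2 * Real.pi), (h' x) ^ 2 := by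
    rw [e2] at hh2
    rw [← intervalIntegral.integral_add_adjacent_intervals (hi1 a (a + Real.pi)) (hi1 _ _),
      ← intervalIntegral.integral_add_adjacent_intervals (hi2 a (a + Real.pi)) (hi2 _ _)]
    linarith
  have hper' : Function.Periodic h' (2 * Real.pi) := by
    intro x
    have h1 : HasDerivAt h (h' (x + 2 * Real.pi)) x := by
      have h2 := (hd (x + 2 * Real.pi)).comp_add_const x (2 * Real.pi)
      have h3 : (fun y => h (y + 2 * Real.pi)) = h := funext hper
      rwa [h3] at h2
    exact h1.unique (hd x)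
  have s1 : Function.Periodic (fun x => (h x - h a) ^ 2) (2 * Real.pi) := fun x => by
    simp only
    rw [hper x]
  have s2 : Function.Periodic (fun x => (h' x) ^ 2) (2 * Real.pi) := fun x => by
    simp only
    rw [hper' x]
  have e3 : -Real.pi + 2 * Real.pi = Real.pi := by ring
  have t1 := s1.intervalIntegral_add_eq a (-Real.pi)
  have t2 := s2.intervalIntegral_add_eq a (-Real.pi)
  rw [e3] at t1 t2
  rw [t1, t2] at hall
  rw [conv, conv, conv]
  refine le_trans ?_ hall
  set m : ℝ := 1 / (2 * Real.pi) * ∫ y in (-Real.pi)..Real.pi, h y with hm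
  have hI : ∫ y in (-Real.pi)..Real.pi, h y = 2 * Real.pi * m := by
    rw [hm]
    field_simp
  have expand : ∀ c : ℝ, ∫ x in (-Real.pi)..Real.pi, (h x - c) ^ 2
      = (∫ x in (-Real.pi)..Real.pi, (h x) ^ 2) - 2 * c * (2 * Real.pi * m)
        + c ^ 2 * (2 * Real.pi) := by
    intro c
    have e : ∀ x, (h x - c) ^ 2 = (h x) ^ 2 - 2 * c * h x + c ^ 2 := fun x => by ring
    simp only [e]
    rw [intervalIntegral.integral_add, intervalIntegral.integral_sub,
      intervalIntegral.integral_const_mul, hI, intervalIntegral.integral_const, smul_eq_mul]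
    · ring
    · exact (hhc.pow 2).intervalIntegrable _ _
    · exact (continuous_const.mul hhc).intervalIntegrable _ _
    · exact ((hhc.pow 2).sub (continuous_const.mul hhc)).intervalIntegrable _ _
    · exact continuous_const.intervalIntegrable _ _
  rw [expand, expand]
  have : 0 ≤ 2 * Real.pi * (m - h a) ^ 2 := by positivity
  linarith

end Pool.Agent.Lib.CX
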