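import Mathlib
import Pool.Agent.Lib.CX.Basic
import Pool.Agent.Lib.CX.Sph
import Pool.Agent.Lib.CX.SphB
import Pool.Agent.Lib.CX.Mean
import Pool.Agent.Lib.CX.Wir
import Pool.Agent.Lib.CX.Leg
import Pool.Agent.Lib.CX.Grad

/-! CX task C6: Poincare inequality on the sphere. -/

set_option autoImplicit false

open MeasureTheory Set

noncomputable section

namespace Pool.Agent.Lib.CX

lemma s2p_pbox_meas : MeasurableSet pbox := measurableSet_Ioo.prod measurableSet_Ioo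

lemma s2p_int {g : ℝ × ℝ → ℝ} (hg : ContinuousOn g (Ioo (-1 : ℝ) 1 ×ˢ univ)) {C : ℝ}
    (hb : ∀ z ∈ Ioo (-1 : ℝ) 1, ∀ φ ∈ Ioo (-Real.pi) Real.pi, |g (z, φ)| ≤ C) :
    IntegrableOn g pbox := by
  refine IntegrableOn.of_bound (by rw [volume_pbox]; exact ENNReal.ofReal_lt_top)
    ((hg.mono (prod_mono_right (subset_univ _))).aestronglyMeasurable s2p_pbox_meas) C ?_
  refine ae_restrict_of_forall_mem s2p_pbox_meas fun w hw => ?_
  exact hb w.1 hw.1 w.2 hw.2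

lemma s2p_iter {g : ℝ × ℝ → ℝ} (hg : IntegrableOn g pbox) :
    ∫ w in pbox, g w = ∫ z in Ioo (-1 : ℝ) 1, ∫ φ in Ioo (-Real.pi) Real.pi, g (z, φ) := by
  rw [Measure.volume_eq_prod] at hg ⊢
  exact setIntegral_prod g hg

lemma s2p_iter' {g : ℝ × ℝ → ℝ} (hg : IntegrableOn g pbox) :
    ∫ w in pbox, g w = ∫ φ in Ioo (-Real.pi) Real.pi, ∫ z in Ioo (-1 : ℝ) 1, g (z, φ) := by
  rw [Measure.volume_eq_prod] at hg ⊢
  unfold pbox at hg ⊢
  unfold IntegrableOn at hg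
  rw [← Measure.prod_restrict] at hg ⊢
  exact integral_prod_symm g hg

lemma s2p_outer {g : ℝ × ℝ → ℝ} (hg : IntegrableOn g pbox) :
    IntegrableOn (fun z => ∫ φ in Ioo (-Real.pi) Real.pi, g (z, φ)) (Ioo (-1 : ℝ) 1) := by
  rw [Measure.volume_eq_prod] at hg
  unfold pbox at hg
  unfold IntegrableOn at hg
  rw [← Measure.prod_restrict] at hg
  exact hg.integral_prod_left

lemma s2p_outer' {g : ℝ × ℝ → ℝ} (hg : IntegrableOn g pbox) :
    IntegrableOn (fun φ => ∫ z in Ioo (-1 : ℝ) 1, g (z, φ)) (Ioo (-Real.pi) Real.pi) := by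
  rw [Measure.volume_eq_prod] at hg
  unfold pbox at hg
  unfold IntegrableOn at hg
  rw [← Measure.prod_restrict] at hg
  exact hg.integral_prod_right

/-- Pythagoras for the mean over the longitude -/
lemma s2p_pyth {h : ℝ → ℝ} (hh : Continuous h) (m : ℝ) :
    ∫ x in Ioo (-Real.pi) Real.pi, (h x - m) ^ 2 =
      2 * Real.pi * (1 / (2 * Real.pi) * (∫ y in Ioo (-Real.pi) Real.pi, h y) - m) ^ 2 +
      ∫ x in Ioo (-Real.pi) Real.pi,
        (h x - 1 / (2 * Real.pi) * ∫ y in Ioo (-Real.pi) Real.pi, h y) ^ 2 := by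
  have hi : IntegrableOn h (Ioo (-Real.pi) Real.pi) :=
    (hh.integrableOn_Icc).mono_set Ioo_subset_Icc_self
  have hi2 : IntegrableOn (fun x => (h x) ^ 2) (Ioo (-Real.pi) Real.pi) :=
    ((hh.pow 2).integrableOn_Icc).mono_set Ioo_subset_Icc_self
  have hvol : ∀ c : ℝ, ∫ _ in Ioo (-Real.pi) Real.pi, c = 2 * Real.pi * c := fun c => by
    rw [setIntegral_const, Real.volume_real_Ioo_of_le (by linarith [Real.pi_pos]), smul_eq_mul]
    ring
  have hfin : IsFiniteMeasure (volume.restrict (Ioo (-Real.pi) Real.pi)) := by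
    refine ⟨?_⟩
    rw [Measure.restrict_apply_univ, Real.volume_Ioo]
    exact ENNReal.ofReal_lt_top
  have key : ∀ c : ℝ, ∫ x in Ioo (-Real.pi) Real.pi, (h x - c) ^ 2 =
      (∫ x in Ioo (-Real.pi) Real.pi, (h x) ^ 2) - 2 * c * (∫ x in Ioo (-Real.pi) Real.pi, h x) +
        2 * Real.pi * c ^ 2 := by
    intro c
    have h1 : ∀ x, (h x - c) ^ 2 = (h x) ^ 2 - 2 * c * h x + c ^ 2 := fun x => by ring
    simp_rw [h1]
    have h2 : IntegrableOn (fun x => 2 * c * h x) (Ioo (-Real.pi) Real.pi) := hi.const_mul _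
    have h3 : IntegrableOn (fun x => (h x) ^ 2 - 2 * c * h x) (Ioo (-Real.pi) Real.pi) :=
      hi2.sub h2
    rw [integral_add h3 (integrable_const _), integral_sub hi2 h2, integral_const_mul, hvol]
  rw [key, key]
  have := Real.pi_pos
  field_simp
  ring

variable {F Fz Fp : ℝ → ℝ → ℝ} {B : ℝ}

/-- longitude average -/
def sG (F : ℝ → ℝ → ℝ) (z : ℝ) : ℝ :=
  1 / (2 * Real.pi) * ∫ y in Ioo (-Real.pi) Real.pi, F z y

lemma sG_cont (hF : Continuous (Function.uncurry F)) : Continuous (sG F) := by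
  have h1 : sG F = fun z => 1 / (2 * Real.pi) * ∫ y in (-Real.pi)..Real.pi, F z y := by
    funext z
    unfold sG
    rw [intervalIntegral.integral_of_le (by linarith [Real.pi_pos]),
      integral_Ioc_eq_integral_Ioo]
  rw [h1]
  exact continuous_const.mul
    (intervalIntegral.continuous_parametric_intervalIntegral_of_continuous' hF _ _)

lemma s2p_finJ : IsFiniteMeasure (volume.restrict (Ioo (-Real.pi) Real.pi)) := by
  refine ⟨?_⟩
  rw [Measure.restrict_apply_univ, Real.volume_Ioo]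
  exact ENNReal.ofReal_lt_top

/-- local bound for the derivative in the height -/
lemma s2p_loc (bz : ∀ z ∈ Ioo (-1 : ℝ) 1, ∀ φ, (1 - z ^ 2) * (Fz z φ) ^ 2 ≤ B) {z : ℝ}
    (hz : z ∈ Ioo (-1 : ℝ) 1) : ∃ (s : Set ℝ) (C : ℝ), s ∈ nhds z ∧ s ⊆ Ioo (-1 : ℝ) 1 ∧
      ∀ w ∈ s, ∀ φ, ‖Fz w φ‖ ≤ C := by
  obtain ⟨a, ha1, ha2⟩ := exists_between (show |z| < 1 from abs_lt.mpr hz)
  have ha0 : 0 ≤ a := (abs_nonneg z).trans ha1.le
  refine ⟨Ioo (-a) a, √(B / (1 - a ^ 2)), ?_, ?_, fun w hw φ => ?_⟩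
  · exact Ioo_mem_nhds (abs_lt.mp ha1).1 (abs_lt.mp ha1).2
  · exact Ioo_subset_Ioo (by linarith) ha2.le
  · have h1 : 0 < 1 - a ^ 2 := by nlinarith
    have h2 : w ^ 2 ≤ a ^ 2 := sq_le_sq' hw.1.le hw.2.le
    have h3 := bz w ⟨by linarith [hw.1], by linarith [hw.2]⟩ φ
    refine Real.le_sqrt_of_sq_le ?_
    rw [Real.norm_eq_abs, sq_abs, le_div_iff₀ h1]
    nlinarith [sq_nonneg (Fz w φ)]

lemma sG_deriv (hF : Continuous (Function.uncurry F))
    (hFz : ∀ z ∈ Ioo (-1 : ℝ) 1, ∀ φ, HasDerivAt (fun z => F z φ) (Fz z φ) z)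
    (hFzc : ContinuousOn (Function.uncurry Fz) (Ioo (-1 : ℝ) 1 ×ˢ univ))
    (bz : ∀ z ∈ Ioo (-1 : ℝ) 1, ∀ φ, (1 - z ^ 2) * (Fz z φ) ^ 2 ≤ B) {z : ℝ}
    (hz : z ∈ Ioo (-1 : ℝ) 1) : HasDerivAt (sG F) (sG Fz z) z := by
  have := s2p_finJ
  obtain ⟨s, C, hs, hs1, hsC⟩ := s2p_loc bz hz
  have hFs : ∀ z, Continuous (F z) := fun z => hF.comp (by fun_prop : Continuous fun y => (z, y))
  have hFzs : ∀ z ∈ Ioo (-1 : ℝ) 1, Continuous (Fz z) := fun z hz => by
    rw [← continuousOn_univ]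
    exact hFzc.comp (by fun_prop : Continuous fun y => (z, y)).continuousOn
      fun y _ => ⟨hz, mem_univ y⟩
  have h1 := (hasDerivAt_integral_of_dominated_loc_of_deriv_le
    (μ := volume.restrict (Ioo (-Real.pi) Real.pi)) (F := F) (F' := Fz) (x₀ := z)
    (bound := fun _ => C) (s := s) hs
    (Filter.Eventually.of_forall fun w => (hFs w).aestronglyMeasurable)
    (((hFs z).integrableOn_Icc).mono_set Ioo_subset_Icc_self)
    (hFzs z hz).aestronglyMeasurable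
    (Filter.Eventually.of_forall fun y w hw => hsC w hw y)
    (integrable_const C)
    (Filter.Eventually.of_forall fun y w hw => hFz w (hs1 hw) y)).2
  exact h1.const_mul _

lemma sG_cont' (hFzc : ContinuousOn (Function.uncurry Fz) (Ioo (-1 : ℝ) 1 ×ˢ univ))
    (bz : ∀ z ∈ Ioo (-1 : ℝ) 1, ∀ φ, (1 - z ^ 2) * (Fz z φ) ^ 2 ≤ B) :
    ContinuousOn (sG Fz) (Ioo (-1 : ℝ) 1) := by
  have := s2p_finJ
  intro z hz
  refine ContinuousAt.continuousWithinAt ?_
  obtain ⟨s, C, hs, hs1, hsC⟩ := s2p_loc bz hz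
  have hFzs : ∀ z ∈ Ioo (-1 : ℝ) 1, Continuous (Fz z) := fun z hz => by
    rw [← continuousOn_univ]
    exact hFzc.comp (by fun_prop : Continuous fun y => (z, y)).continuousOn
      fun y _ => ⟨hz, mem_univ y⟩
  have h1 : ContinuousAt (fun w => ∫ y in Ioo (-Real.pi) Real.pi, Fz w y) z := by
    refine continuousAt_of_dominated (bound := fun _ => C) ?_ ?_ (integrable_const C) ?_
    · filter_upwards [hs] with w hw using (hFzs w (hs1 hw)).aestronglyMeasurable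
    · filter_upwards [hs] with w hw using Filter.Eventually.of_forall fun y => hsC w hw y
    · refine Filter.Eventually.of_forall fun y => ?_
      have h2 : ContinuousAt (Function.uncurry Fz) (z, y) :=
        hFzc.continuousAt ((isOpen_Ioo.prod isOpen_univ).mem_nhds ⟨hz, mem_univ y⟩)
      exact ContinuousAt.comp (f := fun w : ℝ => (w, y)) h2
        (by fun_prop : Continuous fun w : ℝ => (w, y)).continuousAt
  exact continuousAt_const.mul h1

lemma sG_bound (bz : ∀ z ∈ Ioo (-1 : ℝ) 1, ∀ φ, (1 - z ^ 2) * (Fz z φ) ^ 2 ≤ B) {z : ℝ}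
    (hz : z ∈ Ioo (-1 : ℝ) 1) : (1 - z ^ 2) * (sG Fz z) ^ 2 ≤ B := by
  have hz1 : 0 < 1 - z ^ 2 := by nlinarith [hz.1, hz.2]
  have hB : 0 ≤ B := le_trans (by positivity) (bz z hz 0)
  have hp := Real.pi_pos
  have h1 : ∀ φ, ‖Fz z φ‖ ≤ √(B / (1 - z ^ 2)) := fun φ => by
    refine Real.le_sqrt_of_sq_le ?_
    rw [Real.norm_eq_abs, sq_abs, le_div_iff₀ hz1]
    linarith [bz z hz φ]
  have h2 : ‖∫ y in Ioo (-Real.pi) Real.pi, Fz z y‖ ≤ √(B / (1 - z ^ 2)) * (2 * Real.pi) := by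
    have h3 := norm_setIntegral_le_of_norm_le_const (μ := volume)
      (s := Ioo (-Real.pi) Real.pi) (f := Fz z) (C := √(B / (1 - z ^ 2)))
      (by rw [Real.volume_Ioo]; exact ENNReal.ofReal_lt_top) (fun y _ => h1 y)
    rw [Real.volume_real_Ioo_of_le (by linarith)] at h3
    calc _ ≤ _ := h3
      _ = _ := by ring
  have h4 : |sG Fz z| ≤ √(B / (1 - z ^ 2)) := by
    unfold sG
    rw [abs_mul, abs_of_pos (by positivity : 0 < 1 / (2 * Real.pi))]
    rw [Real.norm_eq_abs] at h2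
    calc 1 / (2 * Real.pi) * |∫ y in Ioo (-Real.pi) Real.pi, Fz z y|
        ≤ 1 / (2 * Real.pi) * (√(B / (1 - z ^ 2)) * (2 * Real.pi)) :=
          mul_le_mul_of_nonneg_left h2 (by positivity)
      _ = _ := by field_simp
  have h5 : (sG Fz z) ^ 2 ≤ B / (1 - z ^ 2) := by
    rw [← sq_abs]
    calc |sG Fz z| ^ 2 ≤ √(B / (1 - z ^ 2)) ^ 2 := pow_le_pow_left₀ (abs_nonneg _) h4 2
      _ = _ := Real.sq_sqrt (by positivity)
  rw [le_div_iff₀ hz1] at h5
  linarith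

/-- bound for the part with vanishing longitude average -/
lemma sv_bound (hF : Continuous (Function.uncurry F))
    (hFp : ∀ z φ, HasDerivAt (F z) (Fp z φ) φ)
    (bp : ∀ z ∈ Ioo (-1 : ℝ) 1, ∀ φ, (Fp z φ) ^ 2 ≤ B * (1 - z ^ 2)) {z : ℝ}
    (hz : z ∈ Ioo (-1 : ℝ) 1) {φ : ℝ} (hφ : φ ∈ Ioo (-Real.pi) Real.pi) :
    (F z φ - sG F z) ^ 2 ≤ 4 * Real.pi ^ 2 * (B * (1 - z ^ 2)) := by
  have hp := Real.pi_pos
  have hB : 0 ≤ B * (1 - z ^ 2) := le_trans (sq_nonneg _) (bp z hz 0)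
  set K := √(B * (1 - z ^ 2)) with hK
  have hK0 : 0 ≤ K := Real.sqrt_nonneg _
  have hFs : Continuous (F z) := hF.comp (by fun_prop : Continuous fun y => (z, y))
  have h1 : ∀ y ∈ Ioo (-Real.pi) Real.pi, ‖F z φ - F z y‖ ≤ K * (2 * Real.pi) := by
    intro y hy
    have h2 := (convex_Ioo (-Real.pi) Real.pi).norm_image_sub_le_of_norm_hasDerivWithin_le
      (f := F z) (f' := Fp z) (C := K) (fun x _ => (hFp z x).hasDerivWithinAt)
      (fun x _ => by
        refine Real.le_sqrt_of_sq_le ?_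
        rw [Real.norm_eq_abs, sq_abs]
        exact bp z hz x) hy hφ
    refine h2.trans (mul_le_mul_of_nonneg_left ?_ hK0)
    rw [Real.norm_eq_abs, abs_le]
    constructor <;> linarith [hy.1, hy.2, hφ.1, hφ.2]
  have hfin := s2p_finJ
  have h3 : F z φ - sG F z =
      1 / (2 * Real.pi) * ∫ y in Ioo (-Real.pi) Real.pi, (F z φ - F z y) := by
    rw [integral_sub (integrable_const _) ((hFs.integrableOn_Icc).mono_set Ioo_subset_Icc_self),
      setIntegral_const, Real.volume_real_Ioo_of_le (by linarith), smul_eq_mul]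
    unfold sG
    field_simp
    ring
  have h4 : ‖∫ y in Ioo (-Real.pi) Real.pi, (F z φ - F z y)‖ ≤
      K * (2 * Real.pi) * (2 * Real.pi) := by
    have h5 := norm_setIntegral_le_of_norm_le_const (μ := volume)
      (s := Ioo (-Real.pi) Real.pi) (f := fun y => F z φ - F z y) (C := K * (2 * Real.pi))
      (by rw [Real.volume_Ioo]; exact ENNReal.ofReal_lt_top) (fun y hy => h1 y hy)
    rw [Real.volume_real_Ioo_of_le (by linarith)] at h5
    calc _ ≤ _ := h5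
      _ = _ := by ring
  have h6 : |F z φ - sG F z| ≤ K * (2 * Real.pi) := by
    rw [h3, abs_mul, abs_of_pos (by positivity : 0 < 1 / (2 * Real.pi))]
    rw [Real.norm_eq_abs] at h4
    calc 1 / (2 * Real.pi) * |∫ y in Ioo (-Real.pi) Real.pi, (F z φ - F z y)|
        ≤ 1 / (2 * Real.pi) * (K * (2 * Real.pi) * (2 * Real.pi)) :=
          mul_le_mul_of_nonneg_left h4 (by positivity)
      _ = _ := by field_simp
  calc (F z φ - sG F z) ^ 2 = |F z φ - sG F z| ^ 2 := (sq_abs _).symm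
    _ ≤ (K * (2 * Real.pi)) ^ 2 := pow_le_pow_left₀ (abs_nonneg _) h6 2
    _ = 4 * Real.pi ^ 2 * (B * (1 - z ^ 2)) := by
        rw [mul_pow, hK, Real.sq_sqrt hB]
        ring

/-- the inequality for functions of height and longitude -/
lemma s2p_abs (hF : Continuous (Function.uncurry F))
    (hper : ∀ z, Function.Periodic (F z) (2 * Real.pi))
    (hFp : ∀ z φ, HasDerivAt (F z) (Fp z φ) φ) (hFpc : Continuous (Function.uncurry Fp))
    (hFz : ∀ z ∈ Ioo (-1 : ℝ) 1, ∀ φ, HasDerivAt (fun z => F z φ) (Fz z φ) z)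
    (hFzc : ContinuousOn (Function.uncurry Fz) (Ioo (-1 : ℝ) 1 ×ˢ univ))
    (bp : ∀ z ∈ Ioo (-1 : ℝ) 1, ∀ φ, (Fp z φ) ^ 2 ≤ B * (1 - z ^ 2))
    (bz : ∀ z ∈ Ioo (-1 : ℝ) 1, ∀ φ, (1 - z ^ 2) * (Fz z φ) ^ 2 ≤ B)
    (h1 : ∀ φ, F 1 φ = F 1 0) (hm1 : ∀ φ, F (-1) φ = F (-1) 0) :
    2 * ∫ w in pbox, (F w.1 w.2 - 1 / (4 * Real.pi) * ∫ w in pbox, F w.1 w.2) ^ 2 ≤
      ∫ w in pbox, ((1 - w.1 ^ 2) * (Fz w.1 w.2) ^ 2 + (Fp w.1 w.2) ^ 2 / (1 - w.1 ^ 2)) := by
  have hp := Real.pi_pos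
  have hfin := s2p_finJ
  have hpos : ∀ z ∈ Ioo (-1 : ℝ) 1, 0 < 1 - z ^ 2 := fun z hz => by nlinarith [hz.1, hz.2]
  have hB : 0 ≤ B := by
    have := bz 0 ⟨by norm_num, by norm_num⟩ 0
    nlinarith [sq_nonneg (Fz 0 0)]
  have hFs : ∀ z, Continuous (F z) := fun z => hF.comp (by fun_prop : Continuous fun y => (z, y))
  have hFps : ∀ z, Continuous (Fp z) := fun z =>
    hFpc.comp (by fun_prop : Continuous fun y => (z, y))
  have hFzs : ∀ z ∈ Ioo (-1 : ℝ) 1, Continuous (Fz z) := fun z hz => by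
    rw [← continuousOn_univ]
    exact hFzc.comp (by fun_prop : Continuous fun y => (z, y)).continuousOn
      fun y _ => ⟨hz, mem_univ y⟩
  have hFzt : ∀ φ, ContinuousOn (fun z => Fz z φ) (Ioo (-1 : ℝ) 1) := fun φ =>
    hFzc.comp (by fun_prop : Continuous fun z : ℝ => (z, φ)).continuousOn
      fun z hz => ⟨hz, mem_univ φ⟩
  have hGc : Continuous (sG F) := sG_cont hF
  have hGd : ∀ z ∈ Ioo (-1 : ℝ) 1, HasDerivAt (sG F) (sG Fz z) z := fun z hz =>
    sG_deriv hF hFz hFzc bz hz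
  have hGc' : ContinuousOn (sG Fz) (Ioo (-1 : ℝ) 1) := sG_cont' hFzc bz
  have hGb : ∀ z ∈ Ioo (-1 : ℝ) 1, (1 - z ^ 2) * (sG Fz z) ^ 2 ≤ B := fun z hz => sG_bound bz hz
  have hvb : ∀ z ∈ Ioo (-1 : ℝ) 1, ∀ φ ∈ Ioo (-Real.pi) Real.pi,
      (F z φ - sG F z) ^ 2 ≤ 4 * Real.pi ^ 2 * (B * (1 - z ^ 2)) := fun z hz φ hφ =>
    sv_bound hF hFp bp hz hφ
  have hvzb : ∀ z ∈ Ioo (-1 : ℝ) 1, ∀ φ, (1 - z ^ 2) * (Fz z φ - sG Fz z) ^ 2 ≤ 4 * B := by
    intro z hz φ
    have a1 := bz z hz φ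
    have a2 := hGb z hz
    have a3 := hpos z hz
    have a4 : (Fz z φ - sG Fz z) ^ 2 ≤ 2 * (Fz z φ) ^ 2 + 2 * (sG Fz z) ^ 2 := by
      nlinarith [sq_nonneg (Fz z φ + sG Fz z)]
    nlinarith [mul_le_mul_of_nonneg_left a4 a3.le]
  -- continuity on the box
  have c1 : ContinuousOn (fun w : ℝ × ℝ => 1 - w.1 ^ 2) (Ioo (-1 : ℝ) 1 ×ˢ univ) := by fun_prop
  have cF : Continuous (fun w : ℝ × ℝ => F w.1 w.2) := hF
  have cFp : Continuous (fun w : ℝ × ℝ => Fp w.1 w.2) := hFpc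
  have cFz : ContinuousOn (fun w : ℝ × ℝ => Fz w.1 w.2) (Ioo (-1 : ℝ) 1 ×ˢ univ) := hFzc
  have cG : Continuous (fun w : ℝ × ℝ => sG F w.1) := hGc.comp continuous_fst
  have cGz : ContinuousOn (fun w : ℝ × ℝ => sG Fz w.1) (Ioo (-1 : ℝ) 1 ×ˢ univ) :=
    hGc'.comp continuous_fst.continuousOn fun w hw => hw.1
  have hne : ∀ w ∈ Ioo (-1 : ℝ) 1 ×ˢ (univ : Set ℝ), 1 - w.1 ^ 2 ≠ 0 := fun w hw =>
    (hpos w.1 hw.1).ne'
  -- integrability on the box
  have iA : IntegrableOn (fun w : ℝ × ℝ => (1 - w.1 ^ 2) * (Fz w.1 w.2) ^ 2) pbox := by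
    refine s2p_int (C := B) (c1.mul (cFz.pow 2)) fun z hz φ _ => ?_
    rw [abs_of_nonneg (mul_nonneg (hpos z hz).le (sq_nonneg _))]
    exact bz z hz φ
  have iB : IntegrableOn (fun w : ℝ × ℝ => (Fp w.1 w.2) ^ 2 / (1 - w.1 ^ 2)) pbox := by
    refine s2p_int (C := B) ((cFp.continuousOn.pow 2).div c1 hne) fun z hz φ _ => ?_
    rw [abs_of_nonneg (div_nonneg (sq_nonneg _) (hpos z hz).le), div_le_iff₀ (hpos z hz)]
    exact bp z hz φ
  have iC : IntegrableOn (fun w : ℝ × ℝ => (1 - w.1 ^ 2) * (Fz w.1 w.2 - sG Fz w.1) ^ 2) pbox := by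
    refine s2p_int (C := 4 * B) (c1.mul ((cFz.sub cGz).pow 2)) fun z hz φ _ => ?_
    rw [abs_of_nonneg (mul_nonneg (hpos z hz).le (sq_nonneg _))]
    exact hvzb z hz φ
  have iD : IntegrableOn (fun w : ℝ × ℝ => (F w.1 w.2 - sG F w.1) ^ 2 / (1 - w.1 ^ 2)) pbox := by
    refine s2p_int (C := 4 * Real.pi ^ 2 * B)
      (((cF.sub cG).continuousOn.pow 2).div c1 hne) fun z hz φ hφ => ?_
    rw [abs_of_nonneg (div_nonneg (sq_nonneg _) (hpos z hz).le), div_le_iff₀ (hpos z hz)]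
    have := hvb z hz φ hφ
    linarith
  have iE : IntegrableOn (fun w : ℝ × ℝ => (F w.1 w.2 - sG F w.1) ^ 2) pbox := by
    refine s2p_int (C := 4 * Real.pi ^ 2 * B) ((cF.sub cG).continuousOn.pow 2)
      fun z hz φ hφ => ?_
    rw [abs_of_nonneg (sq_nonneg _)]
    refine (hvb z hz φ hφ).trans ?_
    have : B * (1 - z ^ 2) ≤ B := by nlinarith [sq_nonneg z]
    nlinarith [sq_nonneg Real.pi]
  have iF : IntegrableOn (fun w : ℝ × ℝ => F w.1 w.2) pbox := by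
    have h2 : IntegrableOn (fun w : ℝ × ℝ => F w.1 w.2)
        (Icc (-1 : ℝ) 1 ×ˢ Icc (-Real.pi) Real.pi) :=
      cF.continuousOn.integrableOn_compact (isCompact_Icc.prod isCompact_Icc)
    exact h2.mono_set (prod_mono Ioo_subset_Icc_self Ioo_subset_Icc_self)
  set m : ℝ := 1 / (4 * Real.pi) * ∫ w in pbox, F w.1 w.2 with hm
  have hmG : m = 1 / 2 * ∫ z in Ioo (-1 : ℝ) 1, sG F z := by
    rw [hm, s2p_iter iF]
    unfold sG
    rw [integral_const_mul]
    field_simp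
    ring
  have iM : IntegrableOn (fun w : ℝ × ℝ => (F w.1 w.2 - m) ^ 2) pbox := by
    have h2 : IntegrableOn (fun w : ℝ × ℝ => (F w.1 w.2 - m) ^ 2)
        (Icc (-1 : ℝ) 1 ×ˢ Icc (-Real.pi) Real.pi) :=
      ((cF.sub continuous_const).pow 2).continuousOn.integrableOn_compact
        (isCompact_Icc.prod isCompact_Icc)
    exact h2.mono_set (prod_mono Ioo_subset_Icc_self Ioo_subset_Icc_self)
  -- one-dimensional integrability
  have jG : IntegrableOn (fun z => (sG F z - m) ^ 2) (Ioo (-1 : ℝ) 1) :=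
    (((hGc.sub continuous_const).pow 2).integrableOn_Icc).mono_set Ioo_subset_Icc_self
  have jG' : IntegrableOn (fun z => (1 - z ^ 2) * (sG Fz z) ^ 2) (Ioo (-1 : ℝ) 1) := by
    refine IntegrableOn.of_bound (by rw [Real.volume_Ioo]; exact ENNReal.ofReal_lt_top)
      (ContinuousOn.aestronglyMeasurable (by fun_prop) measurableSet_Ioo) B ?_
    refine ae_restrict_of_forall_mem measurableSet_Ioo fun z hz => ?_
    rw [Real.norm_eq_abs, abs_of_nonneg (mul_nonneg (hpos z hz).le (sq_nonneg _))]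
    exact hGb z hz
  -- Legendre inequality for the zonal part
  have hzon : 2 * ∫ z in Ioo (-1 : ℝ) 1, (sG F z - m) ^ 2 ≤
      ∫ z in Ioo (-1 : ℝ) 1, (1 - z ^ 2) * (sG Fz z) ^ 2 := by
    have := leg_zonal hGc.continuousOn hGd hGc' jG'
    rwa [← hmG] at this
  -- step 1
  have e1 : ∫ w in pbox, (1 - w.1 ^ 2) * (Fz w.1 w.2) ^ 2 =
      2 * Real.pi * (∫ z in Ioo (-1 : ℝ) 1, (1 - z ^ 2) * (sG Fz z) ^ 2) +
        ∫ w in pbox, (1 - w.1 ^ 2) * (Fz w.1 w.2 - sG Fz w.1) ^ 2 := by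
    rw [s2p_iter iA, s2p_iter iC, ← integral_const_mul,
      ← integral_add (jG'.const_mul _) (s2p_outer iC)]
    refine setIntegral_congr_fun measurableSet_Ioo fun z hz => ?_
    have h2 := s2p_pyth (hFzs z hz) 0
    simp only [sub_zero] at h2
    simp only [integral_const_mul]
    rw [h2]
    unfold sG
    ring
  -- step 2
  have e2 : ∫ w in pbox, (F w.1 w.2 - sG F w.1) ^ 2 / (1 - w.1 ^ 2) ≤
      ∫ w in pbox, (Fp w.1 w.2) ^ 2 / (1 - w.1 ^ 2) := by
    rw [s2p_iter iB, s2p_iter iD]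
    refine setIntegral_mono_on (s2p_outer iD) (s2p_outer iB) measurableSet_Ioo fun z hz => ?_
    simp only [integral_div]
    refine div_le_div_of_nonneg_right ?_ (hpos z hz).le
    exact wirtinger (hFp z) (hFps z) (hper z)
  -- step 3
  have e3' : ∫ w in pbox, (F w.1 w.2 - m) ^ 2 =
      2 * Real.pi * (∫ z in Ioo (-1 : ℝ) 1, (sG F z - m) ^ 2) +
        ∫ w in pbox, (F w.1 w.2 - sG F w.1) ^ 2 := by
    rw [s2p_iter iM, s2p_iter iE, ← integral_const_mul,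
      ← integral_add (jG.const_mul _) (s2p_outer iE)]
    refine setIntegral_congr_fun measurableSet_Ioo fun z hz => ?_
    have h2 := s2p_pyth (hFs z) m
    simp only
    rw [h2]
    rfl
  -- step 4
  have e4 : 2 * ∫ w in pbox, (F w.1 w.2 - sG F w.1) ^ 2 ≤
      (∫ w in pbox, (1 - w.1 ^ 2) * (Fz w.1 w.2 - sG Fz w.1) ^ 2) +
        ∫ w in pbox, (F w.1 w.2 - sG F w.1) ^ 2 / (1 - w.1 ^ 2) := by
    rw [s2p_iter' iE, s2p_iter' iC, s2p_iter' iD, ← integral_const_mul,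
      ← integral_add (s2p_outer' iC) (s2p_outer' iD)]
    refine setIntegral_mono_on ((s2p_outer' iE).const_mul _)
      ((s2p_outer' iC).add (s2p_outer' iD)) measurableSet_Ioo fun φ hφ => ?_
    have hv0 : ∀ s : ℝ, (∀ φ, F s φ = F s 0) → F s φ - sG F s = 0 := by
      intro s hs
      have h2 : sG F s = F s 0 := by
        unfold sG
        simp_rw [hs]
        rw [setIntegral_const, Real.volume_real_Ioo_of_le (by linarith), smul_eq_mul]
        field_simp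
        ring
      rw [h2, hs φ, sub_self]
    refine leg_tan (v := fun z => F z φ - sG F z) (v' := fun z => Fz z φ - sG Fz z) ?_ ?_ ?_ ?_
      ?_ ?_ ?_
    · exact ((hF.comp (by fun_prop : Continuous fun z : ℝ => (z, φ))).sub hGc).continuousOn
    · exact hv0 (-1) hm1
    · exact hv0 1 h1
    · intro z hz
      exact (hFz z hz φ).sub (hGd z hz)
    · exact (hFzt φ).sub hGc'
    · refine IntegrableOn.of_bound (by rw [Real.volume_Ioo]; exact ENNReal.ofReal_lt_top)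
        (ContinuousOn.aestronglyMeasurable
          ((by fun_prop : ContinuousOn (fun z : ℝ => 1 - z ^ 2) (Ioo (-1 : ℝ) 1)).mul
            (((hFzt φ).sub hGc').pow 2)) measurableSet_Ioo) (4 * B) ?_
      refine ae_restrict_of_forall_mem measurableSet_Ioo fun z hz => ?_
      rw [Real.norm_eq_abs, abs_of_nonneg (mul_nonneg (hpos z hz).le (sq_nonneg _))]
      exact hvzb z hz φ
    · refine IntegrableOn.of_bound (by rw [Real.volume_Ioo]; exact ENNReal.ofReal_lt_top)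
        (ContinuousOn.aestronglyMeasurable
          ((((hF.comp (by fun_prop : Continuous fun z : ℝ => (z, φ))).sub
            hGc).continuousOn.pow 2).div
              (by fun_prop : ContinuousOn (fun z : ℝ => 1 - z ^ 2) (Ioo (-1 : ℝ) 1))
              fun z hz => (hpos z hz).ne') measurableSet_Ioo) (4 * Real.pi ^ 2 * B) ?_
      refine ae_restrict_of_forall_mem measurableSet_Ioo fun z hz => ?_
      rw [Real.norm_eq_abs, abs_of_nonneg (div_nonneg (sq_nonneg _) (hpos z hz).le),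
        div_le_iff₀ (hpos z hz)]
      have := hvb z hz φ hφ
      linarith
  rw [integral_add iA iB, e1, e3']
  nlinarith [hzon, e2, e4]

lemma continuous_sphp : Continuous (fun p : ℝ × ℝ => sphp p.1 p.2) := by
  unfold sphp
  refine (PiLp.continuous_toLp 2 _).comp (continuous_pi fun i => ?_)
  fin_cases i <;> simp <;> fun_prop

lemma continuousOn_sphz :
    ContinuousOn (fun p : ℝ × ℝ => sphz p.1 p.2) (Ioo (-1 : ℝ) 1 ×ˢ univ) := by
  unfold sphz
  refine (PiLp.continuous_toLp 2 _).comp_continuousOn (continuousOn_pi.mpr fun i => ?_)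
  have h1 : ContinuousOn (fun p : ℝ × ℝ => p.1 / √(1 - p.1 ^ 2)) (Ioo (-1 : ℝ) 1 ×ˢ univ) := by
    refine ContinuousOn.div (by fun_prop) (by fun_prop) fun p hp => ?_
    have : 0 < 1 - p.1 ^ 2 := by nlinarith [hp.1.1, hp.1.2]
    exact (Real.sqrt_pos.mpr this).ne'
  fin_cases i
  · exact h1.neg.mul (by fun_prop)
  · exact h1.neg.mul (by fun_prop)
  · exact continuousOn_const

lemma norm_sphp {z φ : ℝ} (hz : z ∈ Ioo (-1 : ℝ) 1) : ‖sphp z φ‖ ^ 2 = 1 - z ^ 2 := by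
  have h1 : 0 < 1 - z ^ 2 := by nlinarith [hz.1, hz.2]
  rw [EuclideanSpace.norm_sq_eq, Fin.sum_univ_three]
  simp only [sphp, Real.norm_eq_abs, sq_abs]
  simp only [Matrix.cons_val]
  have h2 : √(1 - z ^ 2) ^ 2 = 1 - z ^ 2 := Real.sq_sqrt h1.le
  have h3 := Real.sin_sq_add_cos_sq φ
  calc (-(√(1 - z ^ 2) * Real.sin φ)) ^ 2 + (√(1 - z ^ 2) * Real.cos φ) ^ 2 + 0 ^ 2
      = √(1 - z ^ 2) ^ 2 * (Real.sin φ ^ 2 + Real.cos φ ^ 2) := by ring
    _ = 1 - z ^ 2 := by rw [h2, h3, mul_one]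

lemma norm_sphz {z φ : ℝ} (hz : z ∈ Ioo (-1 : ℝ) 1) : (1 - z ^ 2) * ‖sphz z φ‖ ^ 2 = 1 := by
  have h1 : 0 < 1 - z ^ 2 := by nlinarith [hz.1, hz.2]
  rw [EuclideanSpace.norm_sq_eq, Fin.sum_univ_three]
  simp only [sphz, Real.norm_eq_abs, sq_abs]
  simp only [Matrix.cons_val]
  have h2 : √(1 - z ^ 2) ^ 2 = 1 - z ^ 2 := Real.sq_sqrt h1.le
  have h3 := Real.sin_sq_add_cos_sq φ
  calc (1 - z ^ 2) * ((-(z / √(1 - z ^ 2)) * Real.cos φ) ^ 2 +
        (-(z / √(1 - z ^ 2)) * Real.sin φ) ^ 2 + 1 ^ 2)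
      = (1 - z ^ 2) * (z ^ 2 / √(1 - z ^ 2) ^ 2 * (Real.sin φ ^ 2 + Real.cos φ ^ 2) + 1) := by
        ring
    _ = 1 := by
        rw [h2, h3]
        field_simp
        ring

/-- Poincare inequality on the sphere of radius `r` with the sharp constant 2 -/
theorem s2p {f : R3 → ℝ} (hf : ContDiff ℝ 1 f) {r : ℝ} (hr : 0 < r) :
    2 * ∫ w in pbox, (f (r • sph w.1 w.2) - mn f r) ^ 2
      ≤ ∫ w in pbox, r ^ 2 * (gsq f (r • sph w.1 w.2)
          - (fderiv ℝ f (r • sph w.1 w.2) (sph w.1 w.2)) ^ 2) := by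
  have hcd : Continuous (fderiv ℝ f) := hf.continuous_fderiv one_ne_zero
  obtain ⟨M, hM⟩ := (isCompact_closedBall (0 : R3) r).exists_bound_of_continuousOn
    (f := fderiv ℝ f) hcd.continuousOn
  have hcs : Continuous (fun p : ℝ × ℝ => r • sph p.1 p.2) := continuous_sph.const_smul r
  have hMs : ∀ z ∈ Ioo (-1 : ℝ) 1, ∀ φ, ‖fderiv ℝ f (r • sph z φ)‖ ≤ M := by
    intro z hz φ
    refine hM _ ?_
    rw [mem_closedBall_zero_iff, norm_smul, norm_sph (by nlinarith [hz.1, hz.2]),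
      Real.norm_eq_abs, abs_of_pos hr, mul_one]
  have hM0 : 0 ≤ M := (norm_nonneg _).trans (hMs 0 ⟨by norm_num, by norm_num⟩ 0)
  have key := s2p_abs (F := fun z φ => f (r • sph z φ))
    (Fz := fun z φ => fderiv ℝ f (r • sph z φ) (r • sphz z φ))
    (Fp := fun z φ => fderiv ℝ f (r • sph z φ) (r • sphp z φ)) (B := (M * r) ^ 2)
    (hf.continuous.comp hcs) ?_ ?_ ?_ ?_ ?_ ?_ ?_ ?_ ?_
  · refine key.trans (le_of_eq ?_)
    refine setIntegral_congr_fun s2p_pbox_meas fun w hw => ?_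
    exact (grad_sph hr hw.1 (fderiv ℝ f (r • sph w.1 w.2))).symm
  · intro z φ
    simp only [sph, Real.cos_add_two_pi, Real.sin_add_two_pi]
  · intro z φ
    exact ((hf.differentiable one_ne_zero).differentiableAt.hasFDerivAt).comp_hasDerivAt φ
      ((hasDerivAt_sph_p z φ).const_smul r)
  · exact (hcd.comp hcs).clm_apply (continuous_sphp.const_smul r)
  · intro z hz φ
    exact ((hf.differentiable one_ne_zero).differentiableAt.hasFDerivAt).comp_hasDerivAt z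
      ((hasDerivAt_sph_z hz φ).const_smul r)
  · exact (hcd.comp hcs).continuousOn.clm_apply (continuousOn_sphz.const_smul r)
  · intro z hz φ
    have h1 : |fderiv ℝ f (r • sph z φ) (r • sphp z φ)| ≤ M * (r * ‖sphp z φ‖) := by
      have h2 := (fderiv ℝ f (r • sph z φ)).le_opNorm (r • sphp z φ)
      rw [norm_smul, Real.norm_eq_abs, Real.norm_eq_abs, abs_of_pos hr] at h2
      exact h2.trans (mul_le_mul_of_nonneg_right (hMs z hz φ) (by positivity))
    rw [← sq_abs, ← norm_sphp (φ := φ) hz]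
    calc |fderiv ℝ f (r • sph z φ) (r • sphp z φ)| ^ 2
        ≤ (M * (r * ‖sphp z φ‖)) ^ 2 := pow_le_pow_left₀ (abs_nonneg _) h1 2
      _ = _ := by ring
  · intro z hz φ
    have h1 : |fderiv ℝ f (r • sph z φ) (r • sphz z φ)| ≤ M * (r * ‖sphz z φ‖) := by
      have h2 := (fderiv ℝ f (r • sph z φ)).le_opNorm (r • sphz z φ)
      rw [norm_smul, Real.norm_eq_abs, Real.norm_eq_abs, abs_of_pos hr] at h2
      exact h2.trans (mul_le_mul_of_nonneg_right (hMs z hz φ) (by positivity))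
    have h3 : 0 < 1 - z ^ 2 := by nlinarith [hz.1, hz.2]
    rw [← sq_abs (fderiv ℝ f (r • sph z φ) (r • sphz z φ))]
    calc (1 - z ^ 2) * |fderiv ℝ f (r • sph z φ) (r • sphz z φ)| ^ 2
        ≤ (1 - z ^ 2) * (M * (r * ‖sphz z φ‖)) ^ 2 :=
          mul_le_mul_of_nonneg_left (pow_le_pow_left₀ (abs_nonneg _) h1 2) h3.le
      _ = (M * r) ^ 2 * ((1 - z ^ 2) * ‖sphz z φ‖ ^ 2) := by ring
      _ = (M * r) ^ 2 := by rw [norm_sphz hz, mul_one]
  · intro φ
    simp [sph]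
  · intro φ
    simp [sph]

end Pool.Agent.Lib.CX
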