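import Mathlib
import Pool.Agent.Lib.CX.Basic
import Pool.Agent.Lib.CX.Integ
import Pool.Agent.Lib.CX.Sph
import Pool.Agent.Lib.CX.SphB
import Pool.Agent.Lib.CX.Mean
import Pool.Agent.Lib.CX.S2P
import Pool.Agent.Lib.CX.Wave

/-! CX task D4: the hydrogen form with the first levels projected out. -/

set_option autoImplicit false

open MeasureTheory Set

noncomputable section

namespace Pool.Agent.Lib.CX

variable {f : R3 → ℝ}

namespace HydSaux

lemma sq_le_of_mem {w : ℝ × ℝ} (hw : w ∈ pbox) : w.1 ^ 2 ≤ 1 := by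
  obtain ⟨h1, h2⟩ := hw.1
  nlinarith

lemma norm_smul_sph {r : ℝ} (hr : 0 ≤ r) {w : ℝ × ℝ} (hw : w ∈ pbox) :
    ‖r • sph w.1 w.2‖ = r := by
  rw [norm_smul, norm_sph (sq_le_of_mem hw), mul_one, Real.norm_eq_abs, abs_of_nonneg hr]

lemma measurableSet_pbox : MeasurableSet pbox := measurableSet_Ioo.prod measurableSet_Ioo

/-- the compact box -/
def cbox : Set (ℝ × ℝ) := Icc (-1 : ℝ) 1 ×ˢ Icc (-Real.pi) Real.pi

lemma isCompact_cbox : IsCompact cbox := isCompact_Icc.prod isCompact_Icc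

lemma pbox_subset : pbox ⊆ cbox := prod_mono Ioo_subset_Icc_self Ioo_subset_Icc_self

lemma integrableOn_pbox {F : ℝ × ℝ → ℝ} (hF : Continuous F) : IntegrableOn F pbox :=
  (hF.continuousOn.integrableOn_compact isCompact_cbox).mono_set pbox_subset

lemma integrable_two {F : ℝ × (ℝ × ℝ) → ℝ} (hF : Continuous F) {R : ℝ}
    (h0 : ∀ r w, R ≤ r → w ∈ pbox → F (r, w) = 0) :
    Integrable F ((volume.restrict (Ioi (0 : ℝ))).prod (volume.restrict pbox)) := by
  rw [Measure.prod_restrict]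
  have h1 : IntegrableOn F (Icc (0 : ℝ) R ×ˢ cbox) (volume.prod volume) :=
    hF.continuousOn.integrableOn_compact (isCompact_Icc.prod isCompact_cbox)
  refine IntegrableOn.of_forall_sdiff_eq_zero h1 (measurableSet_Ioi.prod measurableSet_pbox) ?_
  rintro ⟨r, w⟩ ⟨⟨hr, hw⟩, hn⟩
  refine h0 r w ?_ hw
  by_contra hlt
  exact hn ⟨⟨le_of_lt hr, (not_le.1 hlt).le⟩, pbox_subset hw⟩

lemma integrable_one {F : ℝ → ℝ} (hF : Continuous F) {R : ℝ} (h0 : ∀ r, R ≤ r → F r = 0) :
    IntegrableOn F (Ioi (0 : ℝ)) := by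
  have h1 : IntegrableOn F (Icc (0 : ℝ) R) := hF.continuousOn.integrableOn_compact isCompact_Icc
  refine IntegrableOn.of_forall_sdiff_eq_zero h1 measurableSet_Ioi ?_
  rintro r ⟨hr, hn⟩
  refine h0 r ?_
  by_contra hlt
  exact hn ⟨le_of_lt hr, (not_le.1 hlt).le⟩

lemma exists_R (hc : HasCompactSupport f) :
    ∃ R : ℝ, 0 < R ∧ (∀ x, R ≤ ‖x‖ → f x = 0) ∧ ∀ x, R ≤ ‖x‖ → fderiv ℝ f x = 0 := by
  obtain ⟨R, hR⟩ := (hc.isCompact).isBounded.subset_closedBall (0 : R3)
  have hR' := le_abs_self R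
  have hR'' := abs_nonneg R
  refine ⟨|R| + 1, by linarith, fun x hx => ?_, fun x hx => ?_⟩
  · by_contra h
    have h1 := hR (subset_tsupport f h)
    rw [mem_closedBall_zero_iff] at h1
    linarith
  · by_contra h
    have h1 := hR (support_fderiv_subset ℝ h)
    rw [mem_closedBall_zero_iff] at h1
    linarith

end HydSaux

open HydSaux

/-- splitting of the form into the spherical mean and the rest, before any one-dimensional
inequality is used -/
theorem qh_split (hf : ContDiff ℝ 1 f) (hc : HasCompactSupport f) :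
    4 * Real.pi * (∫ r in Ioi (0 : ℝ), (r ^ 2 * (deriv (mn f) r) ^ 2 - r * (mn f r) ^ 2))
      + (∫ w in pbox, ∫ r in Ioi (0 : ℝ),
          (r ^ 2 * (deriv (fun r => f (r • sph w.1 w.2) - mn f r) r) ^ 2
            + 2 * (f (r • sph w.1 w.2) - mn f r) ^ 2
            - r * (f (r • sph w.1 w.2) - mn f r) ^ 2)) ≤ qh f := by
  obtain ⟨R, hRp, hR0, hR1⟩ := exists_R hc
  have hfc : Continuous f := hf.continuous
  have hdc : Continuous (fderiv ℝ f) := hf.continuous_fderiv one_ne_zero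
  have hpt : Continuous (fun p : ℝ × (ℝ × ℝ) => p.1 • sph p.2.1 p.2.2) :=
    continuous_fst.smul (continuous_sph.comp continuous_snd)
  have hV : Continuous (fun p : ℝ × (ℝ × ℝ) => f (p.1 • sph p.2.1 p.2.2)) := hfc.comp hpt
  have hDD : Continuous (fun p : ℝ × (ℝ × ℝ) =>
      fderiv ℝ f (p.1 • sph p.2.1 p.2.2) (sph p.2.1 p.2.2)) :=
    (hdc.comp hpt).clm_apply (continuous_sph.comp continuous_snd)
  have hgs : Continuous (gsq f) := by
    unfold gsq
    exact continuous_finsetSum _ fun k _ => (hdc.clm_apply continuous_const).pow 2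
  have hG : Continuous (fun p : ℝ × (ℝ × ℝ) => gsq f (p.1 • sph p.2.1 p.2.2)) := hgs.comp hpt
  have hmn : Continuous (mn f) := continuous_mn hfc
  have hdmn : Continuous (dmn f) := continuous_dmn hf
  have hgs0 : ∀ x, R ≤ ‖x‖ → gsq f x = 0 := by
    intro x hx
    simp [gsq, hR1 x hx]
  have hmn0 : ∀ r, R ≤ r → mn f r = 0 := fun r hr => mn_eq_zero hR0 (hr.trans (le_abs_self r))
  have hnn : ∀ r w, 0 < r → w ∈ pbox → ‖r • sph w.1 w.2‖ = r := fun r w hr hw =>
    norm_smul_sph hr.le hw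
  have hV0 : ∀ r w, R ≤ r → w ∈ pbox → f (r • sph w.1 w.2) = 0 := fun r w hr hw =>
    hR0 _ (by rw [hnn r w (hRp.trans_le hr) hw]; exact hr)
  have hD0 : ∀ r w, R ≤ r → w ∈ pbox → fderiv ℝ f (r • sph w.1 w.2) (sph w.1 w.2) = 0 :=
    fun r w hr hw => by
      rw [hR1 _ (by rw [hnn r w (hRp.trans_le hr) hw]; exact hr)]
      rfl
  have hG0 : ∀ r w, R ≤ r → w ∈ pbox → gsq f (r • sph w.1 w.2) = 0 := fun r w hr hw =>
    hgs0 _ (by rw [hnn r w (hRp.trans_le hr) hw]; exact hr)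
  have hdmn0 : ∀ r, R ≤ r → dmn f r = 0 := by
    intro r hr
    unfold dmn
    rw [setIntegral_congr_fun measurableSet_pbox (g := fun _ => (0 : ℝ))
      (fun w hw => hD0 r w hr hw)]
    simp
  -- the densities
  have hderiv : ∀ (w : ℝ × ℝ) (r : ℝ), deriv (fun r => f (r • sph w.1 w.2) - mn f r) r
      = fderiv ℝ f (r • sph w.1 w.2) (sph w.1 w.2) - dmn f r := fun w r =>
    ((hasDerivAt_ray hf w.1 w.2 r).sub (hasDerivAt_mn hf r)).deriv
  have hderiv1 : ∀ r, deriv (mn f) r = dmn f r := fun r => (hasDerivAt_mn hf r).deriv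
  let F1 : ℝ × (ℝ × ℝ) → ℝ := fun p =>
    p.1 ^ 2 * gsq f (p.1 • sph p.2.1 p.2.2) - p.1 * (f (p.1 • sph p.2.1 p.2.2)) ^ 2
  let F2 : ℝ × (ℝ × ℝ) → ℝ := fun p =>
    p.1 ^ 2 * (fderiv ℝ f (p.1 • sph p.2.1 p.2.2) (sph p.2.1 p.2.2) - dmn f p.1) ^ 2
      + 2 * (f (p.1 • sph p.2.1 p.2.2) - mn f p.1) ^ 2
      - p.1 * (f (p.1 • sph p.2.1 p.2.2) - mn f p.1) ^ 2
  have hF1c : Continuous F1 :=
    ((continuous_fst.pow 2).mul hG).sub (continuous_fst.mul (hV.pow 2))
  have hF2c : Continuous F2 :=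
    (((continuous_fst.pow 2).mul ((hDD.sub (hdmn.comp continuous_fst)).pow 2)).add
      (continuous_const.mul ((hV.sub (hmn.comp continuous_fst)).pow 2))).sub
      (continuous_fst.mul ((hV.sub (hmn.comp continuous_fst)).pow 2))
  have hF1i := integrable_two (R := R) hF1c (fun r w hr hw => by
    simp only [F1, hG0 r w hr hw, hV0 r w hr hw]
    ring)
  have hF2i := integrable_two (R := R) hF2c (fun r w hr hw => by
    simp only [F2, hD0 r w hr hw, hV0 r w hr hw, hmn0 r hr, hdmn0 r hr]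
    ring)
  have hai : IntegrableOn (fun r => r ^ 2 * (dmn f r) ^ 2 - r * (mn f r) ^ 2) (Ioi (0 : ℝ)) :=
    integrable_one (R := R) (((continuous_id.pow 2).mul (hdmn.pow 2)).sub
      (continuous_id.mul (hmn.pow 2))) (fun r hr => by
      rw [hmn0 r hr, hdmn0 r hr]
      ring)
  -- pointwise inequality in r
  have hcur : ∀ {F : ℝ × (ℝ × ℝ) → ℝ} (_ : Continuous F) (r : ℝ),
      IntegrableOn (fun w => F (r, w)) pbox := fun hF r =>
    integrableOn_pbox (hF.comp (by fun_prop))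
  have hkey : ∀ r ∈ Ioi (0 : ℝ), 4 * Real.pi * (r ^ 2 * (dmn f r) ^ 2 - r * (mn f r) ^ 2)
      + ∫ w in pbox, F2 (r, w) ≤ ∫ w in pbox, F1 (r, w) := by
    intro r hr
    have hr' : (0 : ℝ) < r := hr
    have i1 : IntegrableOn (fun w : ℝ × ℝ => gsq f (r • sph w.1 w.2)) pbox := hcur hG r
    have i2 : IntegrableOn (fun w : ℝ × ℝ => (f (r • sph w.1 w.2)) ^ 2) pbox := hcur (hV.pow 2) r
    have i3 : IntegrableOn (fun w : ℝ × ℝ =>
        (fderiv ℝ f (r • sph w.1 w.2) (sph w.1 w.2)) ^ 2) pbox := hcur (hDD.pow 2) r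
    have i4 : IntegrableOn (fun w : ℝ × ℝ => (f (r • sph w.1 w.2) - mn f r) ^ 2) pbox :=
      hcur ((hV.sub (hmn.comp continuous_fst)).pow 2) r
    have i5 : IntegrableOn (fun w : ℝ × ℝ =>
        (fderiv ℝ f (r • sph w.1 w.2) (sph w.1 w.2) - dmn f r) ^ 2) pbox :=
      hcur ((hDD.sub (hdmn.comp continuous_fst)).pow 2) r
    have e1 : ∫ w in pbox, F1 (r, w) = r ^ 2 * (∫ w in pbox, gsq f (r • sph w.1 w.2))
        - r * ∫ w in pbox, (f (r • sph w.1 w.2)) ^ 2 := by
      simp only [F1]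
      rw [integral_sub (i1.const_mul _) (i2.const_mul _), integral_const_mul, integral_const_mul]
    have e2 : ∫ w in pbox, F2 (r, w)
        = r ^ 2 * (∫ w in pbox, (fderiv ℝ f (r • sph w.1 w.2) (sph w.1 w.2) - dmn f r) ^ 2)
          + 2 * (∫ w in pbox, (f (r • sph w.1 w.2) - mn f r) ^ 2)
          - r * ∫ w in pbox, (f (r • sph w.1 w.2) - mn f r) ^ 2 := by
      have i6 : IntegrableOn (fun w : ℝ × ℝ =>
          r ^ 2 * (fderiv ℝ f (r • sph w.1 w.2) (sph w.1 w.2) - dmn f r) ^ 2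
            + 2 * (f (r • sph w.1 w.2) - mn f r) ^ 2) pbox :=
        (i5.const_mul (r ^ 2)).add (i4.const_mul 2)
      simp only [F2]
      rw [integral_sub i6 (i4.const_mul _),
        integral_add (i5.const_mul _) (i4.const_mul _), integral_const_mul, integral_const_mul,
        integral_const_mul]
    have e3 := sq_mn hfc r
    have e4 := sq_dmn hf r
    have e5 := s2p hf hr'
    have e6 : ∫ w in pbox, r ^ 2 * (gsq f (r • sph w.1 w.2)
          - (fderiv ℝ f (r • sph w.1 w.2) (sph w.1 w.2)) ^ 2)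
        = r ^ 2 * ((∫ w in pbox, gsq f (r • sph w.1 w.2))
          - ∫ w in pbox, (fderiv ℝ f (r • sph w.1 w.2) (sph w.1 w.2)) ^ 2) := by
      rw [integral_const_mul, integral_sub i1 i3]
    rw [e6, e4] at e5
    rw [e1, e2, e3]
    nlinarith [e5]
  -- the right hand side
  have hfi : Integrable (gsq f) := hgs.integrable_of_hasCompactSupport (by
    refine hc.mono' ?_
    intro x hx
    by_contra h
    refine hx ?_
    simp [gsq, fderiv_of_notMem_tsupport (𝕜 := ℝ) h])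
  have hfi2 : Integrable (fun x => 1 / ‖x‖ * (f x) ^ 2) :=
    integrable_inv_norm (hfc.pow 2) (by
      refine hc.mono' ?_
      intro x hx
      refine subset_tsupport f ?_
      intro h
      exact hx (by simp [h]))
  have hrhs : qh f = ∫ r in Ioi (0 : ℝ), ∫ w in pbox, F1 (r, w) := by
    unfold qh
    rw [integral_sph_iter hfi, integral_sph_iter hfi2]
    have j1 : ∀ r ∈ Ioi (0 : ℝ), r ^ 2 * (∫ w in pbox,
        (fun x : R3 => 1 / ‖x‖ * (f x) ^ 2) (r • sph w.1 w.2))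
        = ∫ w in pbox, r * (f (r • sph w.1 w.2)) ^ 2 := by
      intro r hr
      have hr' : (0 : ℝ) < r := hr
      rw [← integral_const_mul]
      refine setIntegral_congr_fun measurableSet_pbox ?_
      intro w hw
      simp only
      rw [hnn r w hr' hw]
      field_simp
    have j2 : ∀ r ∈ Ioi (0 : ℝ), r ^ 2 * (∫ w in pbox, gsq f (r • sph w.1 w.2))
        = ∫ w in pbox, r ^ 2 * gsq f (r • sph w.1 w.2) := by
      intro r _
      rw [← integral_const_mul]
    rw [setIntegral_congr_fun measurableSet_Ioi j1, setIntegral_congr_fun measurableSet_Ioi j2]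
    have k1 := (integrable_two (R := R) (F := fun p : ℝ × (ℝ × ℝ) =>
      p.1 ^ 2 * gsq f (p.1 • sph p.2.1 p.2.2)) ((continuous_fst.pow 2).mul hG)
      (fun r w hr hw => by simp [hG0 r w hr hw])).integral_prod_left
    have k2 := (integrable_two (R := R) (F := fun p : ℝ × (ℝ × ℝ) =>
      p.1 * (f (p.1 • sph p.2.1 p.2.2)) ^ 2) (continuous_fst.mul (hV.pow 2))
      (fun r w hr hw => by simp [hV0 r w hr hw])).integral_prod_left
    rw [← integral_sub k1 k2]
    refine integral_congr_ae (Filter.Eventually.of_forall fun r => ?_)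
    simp only [F1]
    rw [integral_sub]
    · exact hcur (F := fun p : ℝ × (ℝ × ℝ) => p.1 ^ 2 * gsq f (p.1 • sph p.2.1 p.2.2))
        ((continuous_fst.pow 2).mul hG) r
    · exact hcur (F := fun p : ℝ × (ℝ × ℝ) => p.1 * (f (p.1 • sph p.2.1 p.2.2)) ^ 2)
        (continuous_fst.mul (hV.pow 2)) r
  have hlhs : (∫ w in pbox, ∫ r in Ioi (0 : ℝ),
          (r ^ 2 * (deriv (fun r => f (r • sph w.1 w.2) - mn f r) r) ^ 2
            + 2 * (f (r • sph w.1 w.2) - mn f r) ^ 2
            - r * (f (r • sph w.1 w.2) - mn f r) ^ 2))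
      = ∫ r in Ioi (0 : ℝ), ∫ w in pbox, F2 (r, w) := by
    rw [integral_integral_swap (f := fun r w => F2 (r, w)) hF2i]
    simp only [hderiv, F2]
  rw [hrhs, hlhs]
  simp only [hderiv1]
  rw [← integral_const_mul, ← integral_add (hai.const_mul _) hF2i.integral_prod_left]
  exact setIntegral_mono_on ((hai.const_mul _).add hF2i.integral_prod_left)
    hF1i.integral_prod_left measurableSet_Ioi hkey

end Pool.Agent.Lib.CX
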