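import Mathlib
import Pool.Agent.Lib.CX.Basic

/-! CX task D1: Jacobi's square completion on an interval between nodes. -/

set_option autoImplicit false
set_option linter.unusedVariables false

open MeasureTheory Set Filter Topology

noncomputable section

namespace Pool.Agent.Lib.CX

theorem jacobi_deriv {κ : ℝ} {w w' p p' : ℝ → ℝ} {r : ℝ}
    (hw : HasDerivAt w (w' r) r)
    (hw2 : HasDerivAt (fun r => r ^ 2 * w' r) ((-r + κ * r ^ 2) * w r) r)
    (hw0 : w r ≠ 0) (hp : HasDerivAt p (p' r) r) :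
    HasDerivAt (fun r => r ^ 2 * w' r / w r * (p r) ^ 2)
      ((r ^ 2 * (p' r) ^ 2 - r * (p r) ^ 2 + κ * r ^ 2 * (p r) ^ 2) -
        r ^ 2 * (p' r - w' r / w r * p r) ^ 2) r := by
  have h1 := (hw2.div hw hw0).mul (hp.pow 2)
  refine h1.congr_deriv ?_
  simp only [Pi.pow_apply, Pi.div_apply]
  field_simp
  ring

theorem jacobi_step {κ a b : ℝ} {w w' p p' : ℝ → ℝ}
    (hw : ∀ r ∈ Ioo a b, HasDerivAt w (w' r) r)
    (hw2 : ∀ r ∈ Ioo a b, HasDerivAt (fun r => r ^ 2 * w' r) ((-r + κ * r ^ 2) * w r) r)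
    (hw0 : ∀ r ∈ Ioo a b, w r ≠ 0)
    (hp : ∀ r ∈ Ioo a b, HasDerivAt p (p' r) r)
    {c d : ℝ} (hc : a < c) (hcd : c ≤ d) (hd : d < b)
    (hi : IntervalIntegrable (fun r => r ^ 2 * (p' r) ^ 2 - r * (p r) ^ 2
      + κ * r ^ 2 * (p r) ^ 2) volume c d) :
    d ^ 2 * w' d / w d * (p d) ^ 2 - c ^ 2 * w' c / w c * (p c) ^ 2 ≤
      ∫ r in c..d, (r ^ 2 * (p' r) ^ 2 - r * (p r) ^ 2 + κ * r ^ 2 * (p r) ^ 2) := by
  have hsub : ∀ r ∈ Icc c d, r ∈ Ioo a b := fun r hr =>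
    ⟨lt_of_lt_of_le hc hr.1, lt_of_le_of_lt hr.2 hd⟩
  have hder : ∀ r ∈ Icc c d, HasDerivAt (fun r => r ^ 2 * w' r / w r * (p r) ^ 2)
      ((r ^ 2 * (p' r) ^ 2 - r * (p r) ^ 2 + κ * r ^ 2 * (p r) ^ 2) -
        r ^ 2 * (p' r - w' r / w r * p r) ^ 2) r := fun r hr =>
    jacobi_deriv (hw r (hsub r hr)) (hw2 r (hsub r hr)) (hw0 r (hsub r hr)) (hp r (hsub r hr))
  refine intervalIntegral.sub_le_integral_of_hasDeriv_right_of_le
    (g := fun r => r ^ 2 * w' r / w r * (p r) ^ 2) hcd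
    (fun r hr => (hder r hr).continuousAt.continuousWithinAt)
    (fun r hr => (hder r ⟨hr.1.le, hr.2.le⟩).hasDerivWithinAt)
    ((intervalIntegrable_iff_integrableOn_Icc_of_le hcd).mp hi) (fun r _ => ?_)
  have : 0 ≤ r ^ 2 * (p' r - w' r / w r * p r) ^ 2 := by positivity
  linarith

/-- bounded interval; `w` solves `(r² w')' = (-r + κ r²) w` and does not vanish inside -/
theorem jacobi_Ioo {κ a b : ℝ} (ha : 0 ≤ a) (hab : a < b) {w w' p p' : ℝ → ℝ}
    (hw : ∀ r ∈ Ioo a b, HasDerivAt w (w' r) r)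
    (hw2 : ∀ r ∈ Ioo a b, HasDerivAt (fun r => r ^ 2 * w' r) ((-r + κ * r ^ 2) * w r) r)
    (hw0 : ∀ r ∈ Ioo a b, w r ≠ 0)
    (hp : ∀ r ∈ Ioo a b, HasDerivAt p (p' r) r) (hp' : ContinuousOn p' (Icc a b))
    (hpc : ContinuousOn p (Icc a b))
    (hla : Tendsto (fun r => r ^ 2 * w' r / w r * (p r) ^ 2) (𝓝[>] a) (𝓝 0))
    (hlb : Tendsto (fun r => r ^ 2 * w' r / w r * (p r) ^ 2) (𝓝[<] b) (𝓝 0)) :
    0 ≤ ∫ r in Ioo a b, (r ^ 2 * (p' r) ^ 2 - r * (p r) ^ 2 + κ * r ^ 2 * (p r) ^ 2) := by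
  set f : ℝ → ℝ := fun r => r ^ 2 * (p' r) ^ 2 - r * (p r) ^ 2 + κ * r ^ 2 * (p r) ^ 2 with hf
  set B : ℝ → ℝ := fun r => r ^ 2 * w' r / w r * (p r) ^ 2 with hB
  have hfc : ContinuousOn f (Icc a b) := by
    rw [hf]
    fun_prop
  have hfi : IntervalIntegrable f volume a b := hfc.intervalIntegrable_of_Icc hab.le
  have hsubi : ∀ c d : ℝ, a ≤ c → c ≤ d → d ≤ b → IntervalIntegrable f volume c d :=
    fun c d h1 h2 h3 => hfi.mono_set (by
      rw [uIcc_of_le h2, uIcc_of_le hab.le]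
      exact Icc_subset_Icc h1 h3)
  have hF : ContinuousOn (fun x => ∫ r in a..x, f r) (Icc a b) := by
    have := intervalIntegral.continuousOn_primitive_interval' hfi (left_mem_uIcc)
    rwa [uIcc_of_le hab.le] at this
  have h1 : ∀ d, a < d → d < b → B d ≤ ∫ r in a..d, f r := by
    intro d had hdb
    have ev : ∀ᶠ c in 𝓝[>] a, B d - B c ≤ (∫ r in a..d, f r) - ∫ r in a..c, f r := by
      have : Ioo a d ∈ 𝓝[>] a := Ioo_mem_nhdsGT had
      filter_upwards [this] with c hc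
      have h2 := jacobi_step hw hw2 hw0 hp hc.1 hc.2.le hdb (hsubi c d hc.1.le hc.2.le hdb.le)
      have h3 := intervalIntegral.integral_add_adjacent_intervals
        (hsubi a c le_rfl hc.1.le (hc.2.trans hdb).le) (hsubi c d hc.1.le hc.2.le hdb.le)
      have h4 : (∫ r in a..d, f r) - ∫ r in a..c, f r = ∫ r in c..d, f r := by
        rw [← h3]; ring
      rw [h4]
      exact h2
    have t1 : Tendsto (fun c => B d - B c) (𝓝[>] a) (𝓝 (B d - 0)) := hla.const_sub _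
    have t2 : Tendsto (fun c => (∫ r in a..d, f r) - ∫ r in a..c, f r) (𝓝[>] a)
        (𝓝 ((∫ r in a..d, f r) - ∫ r in a..a, f r)) := by
      refine Tendsto.const_sub _ ?_
      have := (hF a ⟨le_rfl, hab.le⟩).tendsto
      refine this.mono_left ?_
      rw [nhdsWithin_le_iff]
      exact mem_of_superset (Ioo_mem_nhdsGT hab) fun x hx => ⟨hx.1.le, hx.2.le⟩
    have := le_of_tendsto_of_tendsto t1 t2 ev
    simpa using this
  have h2 : (0 : ℝ) ≤ ∫ r in a..b, f r := by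
    have ev : ∀ᶠ d in 𝓝[<] b, B d ≤ ∫ r in a..d, f r := by
      filter_upwards [Ioo_mem_nhdsLT hab] with d hd
      exact h1 d hd.1 hd.2
    refine le_of_tendsto_of_tendsto hlb ?_ ev
    have := (hF b ⟨hab.le, le_rfl⟩).tendsto
    refine this.mono_left ?_
    rw [nhdsWithin_le_iff]
    exact mem_of_superset (Ioo_mem_nhdsLT hab) fun x hx => ⟨hx.1.le, hx.2.le⟩
  rw [intervalIntegral.integral_of_le hab.le, integral_Ioc_eq_integral_Ioo] at h2
  exact h2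

/-- half line -/
theorem jacobi_Ioi {κ a : ℝ} (ha : 0 ≤ a) {w w' p p' : ℝ → ℝ}
    (hw : ∀ r ∈ Ioi a, HasDerivAt w (w' r) r)
    (hw2 : ∀ r ∈ Ioi a, HasDerivAt (fun r => r ^ 2 * w' r) ((-r + κ * r ^ 2) * w r) r)
    (hw0 : ∀ r ∈ Ioi a, w r ≠ 0)
    (hp : ∀ r ∈ Ioi a, HasDerivAt p (p' r) r) (hp' : ContinuousOn p' (Ici a))
    (hpc : ContinuousOn p (Ici a))
    (hi : IntegrableOn (fun r => r ^ 2 * (p' r) ^ 2 - r * (p r) ^ 2 + κ * r ^ 2 * (p r) ^ 2)
      (Ioi a))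
    (hla : Tendsto (fun r => r ^ 2 * w' r / w r * (p r) ^ 2) (𝓝[>] a) (𝓝 0))
    (hlb : Tendsto (fun r => r ^ 2 * w' r / w r * (p r) ^ 2) atTop (𝓝 0)) :
    0 ≤ ∫ r in Ioi a, (r ^ 2 * (p' r) ^ 2 - r * (p r) ^ 2 + κ * r ^ 2 * (p r) ^ 2) := by
  set f : ℝ → ℝ := fun r => r ^ 2 * (p' r) ^ 2 - r * (p r) ^ 2 + κ * r ^ 2 * (p r) ^ 2 with hf
  set B : ℝ → ℝ := fun r => r ^ 2 * w' r / w r * (p r) ^ 2 with hB
  have hsubi : ∀ c d : ℝ, a ≤ c → c ≤ d → IntervalIntegrable f volume c d :=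
    fun c d h1 h2 => (intervalIntegrable_iff_integrableOn_Ioc_of_le h2).mpr
      (hi.mono_set fun x hx => lt_of_le_of_lt h1 hx.1)
  have h1 : ∀ d, a < d → B d ≤ ∫ r in a..d, f r := by
    intro d had
    have hF : ContinuousOn (fun x => ∫ r in a..x, f r) (Icc a d) := by
      have := intervalIntegral.continuousOn_primitive_interval' (hsubi a d le_rfl had.le)
        (left_mem_uIcc)
      rwa [uIcc_of_le had.le] at this
    have ev : ∀ᶠ c in 𝓝[>] a, B d - B c ≤ (∫ r in a..d, f r) - ∫ r in a..c, f r := by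
      filter_upwards [Ioo_mem_nhdsGT had] with c hc
      have h2 := jacobi_step (b := d + 1) (fun r hr => hw r hr.1) (fun r hr => hw2 r hr.1)
        (fun r hr => hw0 r hr.1) (fun r hr => hp r hr.1) hc.1 hc.2.le (by linarith)
        (hsubi c d hc.1.le hc.2.le)
      have h3 := intervalIntegral.integral_add_adjacent_intervals
        (hsubi a c le_rfl hc.1.le) (hsubi c d hc.1.le hc.2.le)
      have h4 : (∫ r in a..d, f r) - ∫ r in a..c, f r = ∫ r in c..d, f r := by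
        rw [← h3]; ring
      rw [h4]
      exact h2
    have t1 : Tendsto (fun c => B d - B c) (𝓝[>] a) (𝓝 (B d - 0)) := hla.const_sub _
    have t2 : Tendsto (fun c => (∫ r in a..d, f r) - ∫ r in a..c, f r) (𝓝[>] a)
        (𝓝 ((∫ r in a..d, f r) - ∫ r in a..a, f r)) := by
      refine Tendsto.const_sub _ ?_
      have := (hF a ⟨le_rfl, had.le⟩).tendsto
      refine this.mono_left ?_
      rw [nhdsWithin_le_iff]
      exact mem_of_superset (Ioo_mem_nhdsGT had) fun x hx => ⟨hx.1.le, hx.2.le⟩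
    have := le_of_tendsto_of_tendsto t1 t2 ev
    simpa using this
  refine le_of_tendsto_of_tendsto hlb
    (intervalIntegral_tendsto_integral_Ioi a hi tendsto_id) ?_
  filter_upwards [Ioi_mem_atTop a] with d hd
  exact h1 d hd

/-- a node of `w` where `p` vanishes as well gives no boundary term -/
theorem node_tendsto {ξ : ℝ} {w w' p : ℝ → ℝ} {d : ℝ}
    (hw : HasDerivAt w (w' ξ) ξ) (hw0 : w ξ = 0) (hw1 : w' ξ ≠ 0) (hwc : ContinuousAt w' ξ)
    (hp : HasDerivAt p d ξ) (hp0 : p ξ = 0) :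
    Tendsto (fun r => r ^ 2 * w' r / w r * (p r) ^ 2) (𝓝[≠] ξ) (𝓝 0) := by
  have h1 := hasDerivAt_iff_tendsto_slope.mp hw
  have h2 := hasDerivAt_iff_tendsto_slope.mp hp
  have h3 : Tendsto (fun r : ℝ => r) (𝓝[≠] ξ) (𝓝 ξ) := tendsto_id.mono_left nhdsWithin_le_nhds
  have h4 : Tendsto w' (𝓝[≠] ξ) (𝓝 (w' ξ)) := hwc.tendsto.mono_left nhdsWithin_le_nhds
  have h5 : Tendsto (fun r => r ^ 2 * w' r * (slope p ξ r) ^ 2 * (r - ξ) / slope w ξ r)
      (𝓝[≠] ξ) (𝓝 (ξ ^ 2 * w' ξ * d ^ 2 * (ξ - ξ) / w' ξ)) :=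
    ((((h3.pow 2).mul h4).mul (h2.pow 2)).mul (h3.sub_const ξ)).div h1 hw1
  rw [sub_self, mul_zero, zero_div] at h5
  refine h5.congr' ?_
  filter_upwards [self_mem_nhdsWithin, h1.eventually_ne hw1] with r hr hs
  have hr' : r - ξ ≠ 0 := sub_ne_zero.mpr hr
  have e1 : slope p ξ r = p r / (r - ξ) := by
    rw [slope_def_field, hp0, sub_zero]
  have e2 : slope w ξ r = w r / (r - ξ) := by
    rw [slope_def_field, hw0, sub_zero]
  rw [e2] at hs
  have hwr : w r ≠ 0 := by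
    intro h
    rw [h, zero_div] at hs
    exact hs rfl
  rw [e1, e2]
  field_simp

end Pool.Agent.Lib.CX
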