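import Mathlib
import Pool.Agent.Lib.CX.Basic
import Pool.Agent.Lib.CX.RadJ

/-! CX task D2: radial inequalities, first level, and the inequality for `l ≥ 1`. -/

set_option autoImplicit false

open MeasureTheory Set Filter Topology

noncomputable section

namespace Pool.Agent.Lib.CX

/-- the basic exponential -/
def Ex (r : ℝ) : ℝ := Real.exp (-r / 4)

theorem Ex_pos (r : ℝ) : 0 < Ex r := Real.exp_pos _

theorem Ex_pow (r : ℝ) (k : ℕ) : Ex r ^ k = Real.exp (-((k : ℝ) / 4 * r)) := by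
  rw [Ex, ← Real.exp_nat_mul]
  congr 1
  ring

theorem Ex_two (r : ℝ) : Real.exp (-r / 2) = Ex r ^ 2 := by
  rw [Ex_pow]
  congr 1
  push_cast
  ring

theorem Ex_deriv (r : ℝ) : HasDerivAt Ex (-(1 / 4) * Ex r) r := by
  have h : HasDerivAt (fun r : ℝ => Real.exp (-r / 4)) (Real.exp (-r / 4) * (-1 / 4)) r :=
    ((hasDerivAt_id r).neg.div_const 4).exp
  refine h.congr_deriv ?_
  simp only [Ex]
  ring

theorem Ex_cont : Continuous Ex := by
  unfold Ex
  fun_prop

theorem mom_tendsto (n k : ℕ) (hk : 0 < k) :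
    Tendsto (fun r : ℝ => r ^ n * Ex r ^ k) atTop (𝓝 0) := by
  have hk' : (0 : ℝ) < (k : ℝ) / 4 := by positivity
  have h := Real.tendsto_pow_mul_exp_neg_atTop_nhds_zero n
  have h2 : Tendsto (fun r : ℝ => (k : ℝ) / 4 * r) atTop atTop := tendsto_id.const_mul_atTop hk'
  have h3 := (h.comp h2).const_mul ((4 / (k : ℝ)) ^ n)
  rw [mul_zero] at h3
  refine h3.congr fun r => ?_
  have hk2 : (k : ℝ) ≠ 0 := by positivity
  simp only [Function.comp_apply]
  rw [Ex_pow, mul_pow, ← mul_assoc, ← mul_assoc, ← mul_pow]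
  have : 4 / (k : ℝ) * (k / 4) = 1 := by field_simp
  rw [this, one_pow, one_mul]

theorem mom_rpow (n k : ℕ) : (fun r : ℝ => r ^ n * Ex r ^ k) =
    fun r : ℝ => r ^ (((n : ℝ) + 1) - 1) * Real.exp (-((k : ℝ) / 4 * r)) := by
  funext r
  rw [Ex_pow, add_sub_cancel_right, Real.rpow_natCast]

theorem mom_int (n k : ℕ) (hk : 0 < k) :
    IntegrableOn (fun r : ℝ => r ^ n * Ex r ^ k) (Ioi 0) := by
  have hk' : (0 : ℝ) < (k : ℝ) / 8 := by positivity
  refine integrable_of_isBigO_exp_neg hk' ?_ ?_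
  · have := Ex_cont
    fun_prop
  · have h1 := (isLittleO_pow_exp_pos_mul_atTop n hk').isBigO.mul
      (Asymptotics.isBigO_refl (fun r : ℝ => Real.exp (-((k : ℝ) / 4 * r))) atTop)
    refine (h1.congr_left fun r => ?_).congr_right fun r => ?_
    · rw [Ex_pow]
    · rw [← Real.exp_add]
      congr 1
      ring

theorem mom_val (n k : ℕ) (hk : 0 < k) :
    ∫ r in Ioi (0 : ℝ), r ^ n * Ex r ^ k = n.factorial * (4 / k) ^ (n + 1) := by
  have hk' : (0 : ℝ) < (k : ℝ) / 4 := by positivity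
  rw [mom_rpow, Real.integral_rpow_mul_exp_neg_mul_Ioi (by positivity) hk', Real.Gamma_nat_eq_factorial,
    one_div_div]
  have : ((n : ℝ) + 1) = ((n + 1 : ℕ) : ℝ) := by push_cast; ring
  rw [this, Real.rpow_natCast]
  ring

theorem poly_int (P : Polynomial ℝ) (k : ℕ) (hk : 0 < k) :
    IntegrableOn (fun r : ℝ => P.eval r * Ex r ^ k) (Ioi 0) := by
  have : (fun r : ℝ => P.eval r * Ex r ^ k) =
      fun r => ∑ i ∈ Finset.range (P.natDegree + 1), P.coeff i * (r ^ i * Ex r ^ k) := by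
    funext r
    rw [Polynomial.eval_eq_sum_range, Finset.sum_mul]
    exact Finset.sum_congr rfl fun i _ => by ring
  rw [this]
  exact integrable_finsetSum _ fun i _ => (mom_int i k hk).const_mul _

theorem poly_tendsto (P : Polynomial ℝ) (k : ℕ) (hk : 0 < k) :
    Tendsto (fun r : ℝ => P.eval r * Ex r ^ k) atTop (𝓝 0) := by
  have : (fun r : ℝ => P.eval r * Ex r ^ k) =
      fun r => ∑ i ∈ Finset.range (P.natDegree + 1), P.coeff i * (r ^ i * Ex r ^ k) := by
    funext r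
    rw [Polynomial.eval_eq_sum_range, Finset.sum_mul]
    exact Finset.sum_congr rfl fun i _ => by ring
  rw [this]
  have h := tendsto_finsetSum (Finset.range (P.natDegree + 1)) (f := fun i r =>
    P.coeff i * (r ^ i * Ex r ^ k)) (a := fun i => P.coeff i * 0) (x := atTop)
    (fun i _ => (mom_tendsto i k hk).const_mul (P.coeff i))
  simpa using h

/-- the shift -/
def sS (c0 c2 r : ℝ) : ℝ := c0 * Ex r ^ 2 + c2 * (1 - r / 4) * Ex r
/-- its derivative -/
def sS' (c0 c2 r : ℝ) : ℝ := -(c0 / 2) * Ex r ^ 2 + c2 * (-(1 / 2) + r / 16) * Ex r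
/-- image under the operator -/
def sT (c0 c2 r : ℝ) : ℝ := c0 / 4 * Ex r ^ 2 + c2 / 16 * (1 - r / 4) * Ex r

theorem sS_deriv (c0 c2 r : ℝ) : HasDerivAt (sS c0 c2) (sS' c0 c2 r) r := by
  have hE := Ex_deriv r
  have h1 : HasDerivAt (fun r : ℝ => 1 - r / 4) (-(1 / 4)) r :=
    ((hasDerivAt_const r (1 : ℝ)).sub ((hasDerivAt_id r).div_const 4)).congr_deriv (by ring)
  have h2 := ((hE.pow 2).const_mul c0).add ((h1.const_mul c2).mul hE)
  refine h2.congr_deriv ?_
  simp only [sS']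
  push_cast
  ring

theorem sS'_deriv (c0 c2 r : ℝ) : HasDerivAt (fun r => r ^ 2 * sS' c0 c2 r)
    (-r * sS c0 c2 r + r ^ 2 * sT c0 c2 r) r := by
  have hE := Ex_deriv r
  have h1 : HasDerivAt (fun r : ℝ => -(1 / 2) + r / 16) (1 / 16) r :=
    ((hasDerivAt_const r (-(1 / 2) : ℝ)).add ((hasDerivAt_id r).div_const 16)).congr_deriv
      (by ring)
  have h2 := ((hasDerivAt_pow 2 r).mul
    (((hE.pow 2).const_mul (-(c0 / 2))).add ((h1.const_mul c2).mul hE)))
  refine h2.congr_deriv ?_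
  simp only [sS, sT, Pi.add_apply, Pi.mul_apply, Pi.pow_apply]
  push_cast
  ring

theorem sS_cont (c0 c2 : ℝ) : Continuous (sS c0 c2) := by
  have := Ex_cont
  unfold sS
  fun_prop

theorem sS'_cont (c0 c2 : ℝ) : Continuous (sS' c0 c2) := by
  have := Ex_cont
  unfold sS'
  fun_prop

theorem sT_cont (c0 c2 : ℝ) : Continuous (sT c0 c2) := by
  have := Ex_cont
  unfold sT
  fun_prop

/-- integrable on the half line with integral `v` -/
def HI (f : ℝ → ℝ) (v : ℝ) : Prop := IntegrableOn f (Ioi 0) ∧ ∫ r in Ioi (0 : ℝ), f r = v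

theorem HI.add {f g : ℝ → ℝ} {v w : ℝ} (hf : HI f v) (hg : HI g w) :
    HI (fun r => f r + g r) (v + w) :=
  ⟨hf.1.add hg.1, by rw [integral_add hf.1 hg.1, hf.2, hg.2]⟩

theorem HI.cm {f : ℝ → ℝ} {v : ℝ} (c : ℝ) (hf : HI f v) : HI (fun r => c * f r) (c * v) :=
  ⟨hf.1.const_mul c, by rw [integral_const_mul, hf.2]⟩

theorem HI.cg {f g : ℝ → ℝ} {v w : ℝ} (hf : HI f v) (h : ∀ r, g r = f r) (h2 : w = v) :
    HI g w := by
  have : g = f := funext h
  rw [this, h2]
  exact hf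

theorem HI.mom (n k : ℕ) (hk : 0 < k) :
    HI (fun r : ℝ => r ^ n * Ex r ^ k) (n.factorial * (4 / k) ^ (n + 1)) :=
  ⟨mom_int n k hk, mom_val n k hk⟩

theorem HI.cpt {f : ℝ → ℝ} (hf : Continuous f) (hc : HasCompactSupport f) :
    HI f (∫ r in Ioi (0 : ℝ), f r) :=
  ⟨(hf.integrable_of_hasCompactSupport hc).integrableOn, rfl⟩

theorem int_ss (c0 c2 κ : ℝ) :
    HI (fun r : ℝ => r ^ 2 * (κ * sS c0 c2 r - sT c0 c2 r) * sS c0 c2 r)
      (2 * (κ - 1 / 4) * c0 ^ 2 + 16 * (κ - 1 / 16) * c2 ^ 2) := by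
  have m1 := HI.mom 2 4 (by norm_num)
  have m2 := HI.mom 2 3 (by norm_num)
  have m3 := HI.mom 3 3 (by norm_num)
  have m4 := HI.mom 2 2 (by norm_num)
  have m5 := HI.mom 3 2 (by norm_num)
  have m6 := HI.mom 4 2 (by norm_num)
  refine ((m1.cm ((κ - 1 / 4) * c0 ^ 2)).add (((m2.add (m3.cm (-(1 / 4)))).cm
    (((κ - 1 / 4) + (κ - 1 / 16)) * c0 * c2)).add (((m4.add (m5.cm (-(1 / 2)))).add
      (m6.cm (1 / 16))).cm ((κ - 1 / 16) * c2 ^ 2)))).cg (fun r => ?_) ?_
  · simp only [sS, sT]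
    ring
  · norm_num [Nat.factorial]
    ring

/-- the primitive of the shift -/
theorem int_F {g : ℝ → ℝ} (hg : ContDiff ℝ 1 g) (hc : HasCompactSupport g) (c0 c2 : ℝ) :
    HI (fun r => (-r * sS c0 c2 r + r ^ 2 * sT c0 c2 r) * (sS c0 c2 r - 2 * g r) +
      r ^ 2 * sS' c0 c2 r * (sS' c0 c2 r - 2 * deriv g r)) 0 := by
  have hE := Ex_cont
  have hs := sS_cont c0 c2
  have hs' := sS'_cont c0 c2
  have ht := sT_cont c0 c2
  have hgc := hg.continuous
  have hgd := hg.continuous_deriv le_rfl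
  have hint : IntegrableOn (fun r => (-r * sS c0 c2 r + r ^ 2 * sT c0 c2 r) *
      (sS c0 c2 r - 2 * g r) + r ^ 2 * sS' c0 c2 r * (sS' c0 c2 r - 2 * deriv g r)) (Ioi 0) := by
    have a1 : IntegrableOn (fun r => (-r * sS c0 c2 r + r ^ 2 * sT c0 c2 r) * g r) (Ioi 0) :=
      (Continuous.integrable_of_hasCompactSupport (by fun_prop) hc.mul_left).integrableOn
    have a2 : IntegrableOn (fun r => (r ^ 2 * sS' c0 c2 r) * deriv g r) (Ioi 0) :=
      (Continuous.integrable_of_hasCompactSupport (by fun_prop) hc.deriv.mul_left).integrableOn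
    have P4 := poly_int (Polynomial.C (c0 ^ 2) * (-Polynomial.X + Polynomial.C (1 / 2) *
      Polynomial.X ^ 2)) 4 (by norm_num)
    have P3 := poly_int (Polynomial.C (c0 * c2) * (-Polynomial.C 2 * Polynomial.X *
      (1 - Polynomial.C (1 / 4) * Polynomial.X) + Polynomial.C (5 / 16) * Polynomial.X ^ 2 *
        (1 - Polynomial.C (1 / 4) * Polynomial.X) - Polynomial.X ^ 2 *
          (-Polynomial.C (1 / 2) + Polynomial.C (1 / 16) * Polynomial.X))) 3 (by norm_num)
    have P2 := poly_int (Polynomial.C (c2 ^ 2) * ((-Polynomial.X + Polynomial.C (1 / 16) *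
      Polynomial.X ^ 2) * (1 - Polynomial.C (1 / 4) * Polynomial.X) ^ 2 + Polynomial.X ^ 2 *
        (-Polynomial.C (1 / 2) + Polynomial.C (1 / 16) * Polynomial.X) ^ 2)) 2 (by norm_num)
    have := (((P4.add P3).add P2).add (a1.const_mul (-2))).add (a2.const_mul (-2))
    refine this.congr_fun (fun r _ => ?_) measurableSet_Ioi
    simp only [Pi.add_apply, Polynomial.eval_mul, Polynomial.eval_add, Polynomial.eval_sub,
      Polynomial.eval_neg, Polynomial.eval_C, Polynomial.eval_X, Polynomial.eval_pow,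
      Polynomial.eval_one, sS, sT, sS']
    ring
  have hder : ∀ r ∈ Ici (0 : ℝ), HasDerivAt (fun r => r ^ 2 * sS' c0 c2 r *
      (sS c0 c2 r - 2 * g r)) ((-r * sS c0 c2 r + r ^ 2 * sT c0 c2 r) * (sS c0 c2 r - 2 * g r) +
      r ^ 2 * sS' c0 c2 r * (sS' c0 c2 r - 2 * deriv g r)) r := by
    intro r _
    have h1 := (hg.differentiable one_ne_zero r).hasDerivAt
    exact (sS'_deriv c0 c2 r).mul ((sS_deriv c0 c2 r).sub (h1.const_mul 2))
  have hlim : Tendsto (fun r => r ^ 2 * sS' c0 c2 r * (sS c0 c2 r - 2 * g r)) atTop (𝓝 0) := by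
    have Q4 := poly_tendsto (Polynomial.C (c0 ^ 2) * (-Polynomial.C (1 / 2) *
      Polynomial.X ^ 2)) 4 (by norm_num)
    have Q3 := poly_tendsto (Polynomial.C (c0 * c2) * (-Polynomial.C (1 / 2) * Polynomial.X ^ 2 *
      (1 - Polynomial.C (1 / 4) * Polynomial.X) + Polynomial.X ^ 2 *
          (-Polynomial.C (1 / 2) + Polynomial.C (1 / 16) * Polynomial.X))) 3 (by norm_num)
    have Q2 := poly_tendsto (Polynomial.C (c2 ^ 2) * (Polynomial.X ^ 2 *
        (-Polynomial.C (1 / 2) + Polynomial.C (1 / 16) * Polynomial.X) *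
          (1 - Polynomial.C (1 / 4) * Polynomial.X))) 2 (by norm_num)
    have hq := (Q4.add Q3).add Q2
    simp only [add_zero] at hq
    have hz : ∀ᶠ r in atTop, g r = 0 := by
      have h2f := hc
      rw [hasCompactSupport_iff_eventuallyEq, Filter.coclosedCompact_eq_cocompact] at h2f
      exact h2f.filter_mono _root_.atTop_le_cocompact
    refine hq.congr' ?_
    filter_upwards [hz] with r hr
    simp only [Polynomial.eval_mul, Polynomial.eval_add, Polynomial.eval_sub,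
      Polynomial.eval_neg, Polynomial.eval_C, Polynomial.eval_X, Polynomial.eval_pow,
      Polynomial.eval_one, sS, sS', hr]
    ring
  refine ⟨hint, ?_⟩
  have := integral_Ioi_of_hasDerivAt_of_tendsto' hder hint hlim
  rw [this]
  simp

/-- the shift lemma -/
theorem shift {g : ℝ → ℝ} (hg : ContDiff ℝ 1 g) (hc : HasCompactSupport g) (κ c0 c2 : ℝ) :
    HI (fun r => r ^ 2 * (deriv g r - sS' c0 c2 r) ^ 2 - r * (g r - sS c0 c2 r) ^ 2 +
        κ * r ^ 2 * (g r - sS c0 c2 r) ^ 2)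
      ((∫ r in Ioi (0 : ℝ), (r ^ 2 * (deriv g r) ^ 2 - r * (g r) ^ 2)) +
        κ * (∫ r in Ioi (0 : ℝ), r ^ 2 * (g r) ^ 2) +
        (2 * (κ - 1 / 4) * c0 ^ 2 + 16 * (κ - 1 / 16) * c2 ^ 2) -
        2 * ((κ - 1 / 4) * c0 * (∫ r in Ioi (0 : ℝ), r ^ 2 * (Real.exp (-r / 2) * g r)) +
          (κ - 1 / 16) * c2 *
            (∫ r in Ioi (0 : ℝ), r ^ 2 * ((1 - r / 4) * Real.exp (-r / 4) * g r)))) := by
  have hgc := hg.continuous
  have hgd := hg.continuous_deriv le_rfl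
  have k1 : HI (fun r => r ^ 2 * (deriv g r) ^ 2 - r * (g r) ^ 2) _ :=
    HI.cpt (by fun_prop) (by
      refine HasCompactSupport.sub ?_ ?_
      · exact (hc.deriv.comp_left (g := fun x : ℝ => x ^ 2) (by simp)).mul_left
      · exact (hc.comp_left (g := fun x : ℝ => x ^ 2) (by simp)).mul_left)
  have k2 : HI (fun r => r ^ 2 * (g r) ^ 2) _ :=
    HI.cpt (by fun_prop) (by
      exact (hc.comp_left (g := fun x : ℝ => x ^ 2) (by simp)).mul_left)
  have k3 : HI (fun r => r ^ 2 * (Real.exp (-r / 2) * g r)) _ :=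
    HI.cpt (by fun_prop) (hc.mul_left.mul_left)
  have k4 : HI (fun r => r ^ 2 * ((1 - r / 4) * Real.exp (-r / 4) * g r)) _ :=
    HI.cpt (by fun_prop) (hc.mul_left.mul_left)
  refine (((((k1.add (k2.cm κ)).add (int_ss c0 c2 κ)).add (int_F hg hc c0 c2)).add
    (k3.cm (-2 * (κ - 1 / 4) * c0))).add (k4.cm (-2 * (κ - 1 / 16) * c2))).cg (fun r => ?_) ?_
  · rw [Ex_two]
    have : Real.exp (-r / 4) = Ex r := rfl
    rw [this]
    simp only [sS, sS', sT]
    ring
  · ring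

theorem sS_tendsto (c0 c2 : ℝ) : Tendsto (fun r => r * sS c0 c2 r) atTop (𝓝 0) := by
  have Q2 := poly_tendsto (Polynomial.C c0 * Polynomial.X) 2 (by norm_num)
  have Q1 := poly_tendsto (Polynomial.C c2 * (Polynomial.X * (1 - Polynomial.C (1 / 4) *
    Polynomial.X))) 1 (by norm_num)
  have hq := Q2.add Q1
  simp only [add_zero] at hq
  refine hq.congr fun r => ?_
  simp only [Polynomial.eval_mul, Polynomial.eval_sub, Polynomial.eval_C, Polynomial.eval_X,
      Polynomial.eval_one, sS]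
  ring

theorem bdry_top {g w w' : ℝ → ℝ} (hc : HasCompactSupport g) (c0 c2 : ℝ)
    (h : ∀ᶠ r in atTop, |w' r / w r| ≤ 1) :
    Tendsto (fun r => r ^ 2 * w' r / w r * (g r - sS c0 c2 r) ^ 2) atTop (𝓝 0) := by
  have hz : ∀ᶠ r in atTop, g r = 0 := by
    have h2f := hc
    rw [hasCompactSupport_iff_eventuallyEq, Filter.coclosedCompact_eq_cocompact] at h2f
    exact h2f.filter_mono _root_.atTop_le_cocompact
  have h1 := (sS_tendsto c0 c2).pow 2
  rw [zero_pow two_ne_zero] at h1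
  refine squeeze_zero_norm' ?_ h1
  filter_upwards [hz, h] with r hr hw
  rw [hr, zero_sub, neg_sq, Real.norm_eq_abs]
  have e : r ^ 2 * w' r / w r * sS c0 c2 r ^ 2 = (w' r / w r) * (r * sS c0 c2 r) ^ 2 := by ring
  rw [e, abs_mul, abs_of_nonneg (sq_nonneg (r * sS c0 c2 r))]
  exact mul_le_of_le_one_left (sq_nonneg _) hw

theorem bdry_zero {w w' p : ℝ → ℝ} (hw : Continuous w) (hw' : Continuous w') (hp : Continuous p)
    (h0 : w 0 ≠ 0) :
    Tendsto (fun r => r ^ 2 * w' r / w r * (p r) ^ 2) (𝓝[>] 0) (𝓝 0) := by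
  have h : ContinuousAt (fun r => r ^ 2 * w' r / w r * (p r) ^ 2) 0 := by
    refine ContinuousAt.mul (ContinuousAt.div ?_ hw.continuousAt h0) ?_
    · fun_prop
    · fun_prop
  have h2 := h.tendsto
  simp only [ne_eq, OfNat.ofNat_ne_zero, not_false_eq_true, zero_pow, zero_mul, zero_div] at h2
  exact h2.mono_left nhdsWithin_le_nhds

theorem HI.split {f : ℝ → ℝ} {v a : ℝ} (ha : 0 ≤ a) (hf : HI f v) :
    v = (∫ r in Ioo 0 a, f r) + ∫ r in Ioi a, f r := by
  rw [← hf.2, ← Ioc_union_Ioi_eq_Ioi ha, setIntegral_union Ioc_disjoint_Ioi_same measurableSet_Ioi,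
    integral_Ioc_eq_integral_Ioo]
  · exact hf.1.mono_set fun x hx => hx.1
  · exact hf.1.mono_set fun x hx => lt_of_le_of_lt ha hx

/-- the first excited radial level is `-1/16` -/
theorem rad2 {g : ℝ → ℝ} (hg : ContDiff ℝ 1 g) (hc : HasCompactSupport g) :
    -(1 / 16) * (∫ r in Ioi (0 : ℝ), r ^ 2 * (g r) ^ 2)
        - 3 / 32 * (∫ r in Ioi (0 : ℝ), r ^ 2 * (Real.exp (-r / 2) * g r)) ^ 2
      ≤ ∫ r in Ioi (0 : ℝ), (r ^ 2 * (deriv g r) ^ 2 - r * (g r) ^ 2) := by
  set c0 : ℝ := g 4 / Ex 4 ^ 2 with hc0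
  have hsh := shift hg hc (1 / 16) c0 0
  have hE4 := Ex_pos 4
  have hp4 : g 4 - sS c0 0 4 = 0 := by
    simp only [sS, hc0]
    field_simp
    ring
  have hgc := hg.continuous
  have hgd := hg.continuous_deriv le_rfl
  have hs := sS_cont c0 0
  have hs' := sS'_cont c0 0
  have hw := sS_cont 0 1
  have hw' := sS'_cont 0 1
  have hpd : ∀ r, HasDerivAt (fun r => g r - sS c0 0 r) (deriv g r - sS' c0 0 r) r := fun r =>
    ((hg.differentiable one_ne_zero r).hasDerivAt).sub (sS_deriv c0 0 r)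
  have hw2 : ∀ r, HasDerivAt (fun r => r ^ 2 * sS' 0 1 r)
      ((-r + 1 / 16 * r ^ 2) * sS 0 1 r) r := fun r => (sS'_deriv 0 1 r).congr_deriv (by
    simp only [sS, sT]
    ring)
  have hwne : ∀ r, r ≠ 4 → sS 0 1 r ≠ 0 := by
    intro r hr
    have hE := (Ex_pos r).ne'
    simp only [sS, zero_mul, one_mul, zero_add]
    refine mul_ne_zero (fun h => hr ?_) hE
    linarith
  have hnode : Tendsto (fun r => r ^ 2 * sS' 0 1 r / sS 0 1 r * (g r - sS c0 0 r) ^ 2)
      (𝓝[≠] 4) (𝓝 0) := by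
    refine node_tendsto (sS_deriv 0 1 4) ?_ ?_ hw'.continuousAt (hpd 4) hp4
    · simp [sS]
    · simp only [sS', zero_div, neg_zero, zero_mul, one_mul, zero_add]
      exact mul_ne_zero (by norm_num) hE4.ne'
  have i1 : 0 ≤ ∫ r in Ioo (0 : ℝ) 4, (r ^ 2 * (deriv g r - sS' c0 0 r) ^ 2 -
      r * (g r - sS c0 0 r) ^ 2 + 1 / 16 * r ^ 2 * (g r - sS c0 0 r) ^ 2) := by
    refine jacobi_Ioo (w := sS 0 1) (w' := sS' 0 1) (p := fun r => g r - sS c0 0 r)
      (p' := fun r => deriv g r - sS' c0 0 r) le_rfl (by norm_num) (fun r _ => sS_deriv 0 1 r)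
      (fun r _ => hw2 r) (fun r hr => hwne r hr.2.ne) (fun r _ => hpd r)
      (hgd.sub hs').continuousOn (hgc.sub hs).continuousOn
      (bdry_zero hw hw' (hgc.sub hs) (hwne 0 (by norm_num))) ?_
    exact hnode.mono_left (nhdsWithin_mono _ fun x hx => ne_of_lt hx)
  have i2 : 0 ≤ ∫ r in Ioi (4 : ℝ), (r ^ 2 * (deriv g r - sS' c0 0 r) ^ 2 -
      r * (g r - sS c0 0 r) ^ 2 + 1 / 16 * r ^ 2 * (g r - sS c0 0 r) ^ 2) := by
    refine jacobi_Ioi (w := sS 0 1) (w' := sS' 0 1) (p := fun r => g r - sS c0 0 r)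
      (p' := fun r => deriv g r - sS' c0 0 r) (by norm_num) (fun r _ => sS_deriv 0 1 r)
      (fun r _ => hw2 r) (fun r hr => hwne r (ne_of_gt hr)) (fun r _ => hpd r)
      (hgd.sub hs').continuousOn (hgc.sub hs).continuousOn
      (hsh.1.mono_set (Ioi_subset_Ioi (by norm_num))) ?_ ?_
    · exact hnode.mono_left (nhdsWithin_mono _ fun x hx => ne_of_gt hx)
    · refine bdry_top hc c0 0 ?_
      filter_upwards [eventually_ge_atTop 8] with r hr
      have hE := Ex_pos r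
      have e : sS' 0 1 r / sS 0 1 r = -((r - 8) / (4 * (r - 4))) := by
        have h1 : (1 - r / 4 : ℝ) ≠ 0 := by
          intro h
          linarith
        have h2 : (r - 4 : ℝ) ≠ 0 := by
          intro h
          linarith
        simp only [sS, sS', zero_div, neg_zero, zero_mul, one_mul, zero_add]
        rw [mul_div_mul_right _ _ hE.ne', div_eq_iff h1]
        field_simp
        ring
      rw [e, abs_neg, abs_of_nonneg (div_nonneg (by linarith) (by linarith))]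
      rw [div_le_one (by linarith)]
      linarith
  have hsp := hsh.split (a := 4) (by norm_num)
  set P := ∫ r in Ioi (0 : ℝ), r ^ 2 * (Real.exp (-r / 2) * g r)
  set D := ∫ r in Ioi (0 : ℝ), (r ^ 2 * (deriv g r) ^ 2 - r * (g r) ^ 2)
  set N := ∫ r in Ioi (0 : ℝ), r ^ 2 * (g r) ^ 2
  nlinarith [sq_nonneg (c0 - P / 2)]

/-- angular momentum at least one -/
theorem radL {g : ℝ → ℝ} (hg : ContDiff ℝ 1 g) (hc : HasCompactSupport g) :
    -(1 / 16) * (∫ r in Ioi (0 : ℝ), r ^ 2 * (g r) ^ 2)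
      ≤ ∫ r in Ioi (0 : ℝ), (r ^ 2 * (deriv g r) ^ 2 + 2 * (g r) ^ 2 - r * (g r) ^ 2) := by
  have hgc := hg.continuous
  have hgd := hg.continuous_deriv le_rfl
  have c1 : HasCompactSupport fun r => g r ^ 2 :=
    hc.comp_left (g := fun x : ℝ => x ^ 2) (by simp)
  have c2 : HasCompactSupport fun r => deriv g r ^ 2 :=
    hc.deriv.comp_left (g := fun x : ℝ => x ^ 2) (by simp)
  have k1 : HI (fun r => r ^ 2 * (deriv g r) ^ 2 + 2 * (g r) ^ 2 - r * (g r) ^ 2) _ :=
    HI.cpt (by fun_prop) ((c2.mul_left.add c1.mul_left).sub c1.mul_left)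
  have k2 : HI (fun r => r ^ 2 * (g r) ^ 2) _ := HI.cpt (by fun_prop) c1.mul_left
  have hFs : HasCompactSupport fun r => (r - r ^ 2 / 4) * (g r) ^ 2 := c1.mul_left
  have hFd : ∀ r, HasDerivAt (fun r => (r - r ^ 2 / 4) * (g r) ^ 2)
      ((1 - r / 2) * (g r) ^ 2 + (r - r ^ 2 / 4) * (2 * g r * deriv g r)) r := by
    intro r
    have h1 := (hg.differentiable one_ne_zero r).hasDerivAt
    have h2 : HasDerivAt (fun r : ℝ => r - r ^ 2 / 4) (1 - r / 2) r :=
      ((hasDerivAt_id r).sub ((hasDerivAt_pow 2 r).div_const 4)).congr_deriv (by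
        push_cast
        ring)
    refine (h2.mul (h1.pow 2)).congr_deriv ?_
    push_cast
    simp only [Pi.pow_apply]
    ring
  have k3 : HI (fun r => (1 - r / 2) * (g r) ^ 2 + (r - r ^ 2 / 4) * (2 * g r * deriv g r)) 0 := by
    have hi : Integrable fun r => (1 - r / 2) * (g r) ^ 2 +
        (r - r ^ 2 / 4) * (2 * g r * deriv g r) :=
      Continuous.integrable_of_hasCompactSupport (by fun_prop)
        (c1.mul_left.add (hc.deriv.mul_left.mul_left))
    refine ⟨hi.integrableOn, ?_⟩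
    have ht : Tendsto (fun r => (r - r ^ 2 / 4) * (g r) ^ 2) atTop (𝓝 0) := by
      have h2f := hFs
      rw [hasCompactSupport_iff_eventuallyEq, Filter.coclosedCompact_eq_cocompact] at h2f
      exact (h2f.filter_mono _root_.atTop_le_cocompact).tendsto
    rw [integral_Ioi_of_hasDerivAt_of_tendsto' (fun r _ => hFd r) hi.integrableOn ht]
    simp
  have k4 : HI (fun r => (r * deriv g r - (1 - r / 4) * g r) ^ 2) _ :=
    ((k1.add (k2.cm (1 / 16))).add (k3.cm (-1))).cg (fun r => by ring) rfl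
  have h4 : 0 ≤ ∫ r in Ioi (0 : ℝ), (r * deriv g r - (1 - r / 4) * g r) ^ 2 :=
    setIntegral_nonneg measurableSet_Ioi fun r _ => sq_nonneg _
  rw [k4.2] at h4
  linarith

end Pool.Agent.Lib.CX
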