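import Mathlib
import Pool.Agent.Lib.CX.Basic
import Pool.Agent.Lib.CX.RadJ
import Pool.Agent.Lib.CX.Rad2

/-! CX task D3: radial inequality, second level. -/

set_option autoImplicit false

open MeasureTheory Set Filter Topology

noncomputable section

namespace Pool.Agent.Lib.CX

/-- third radial function -/
def w3 (r : ℝ) : ℝ := (1 - r / 3 + r ^ 2 / 54) * Real.exp (-r / 6)
/-- its derivative -/
def w3' (r : ℝ) : ℝ := (-(1 / 2) + 5 * r / 54 - r ^ 2 / 324) * Real.exp (-r / 6)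

theorem exp6_deriv (r : ℝ) :
    HasDerivAt (fun r : ℝ => Real.exp (-r / 6)) (-(1 / 6) * Real.exp (-r / 6)) r := by
  have h : HasDerivAt (fun r : ℝ => Real.exp (-r / 6)) (Real.exp (-r / 6) * (-1 / 6)) r :=
    ((hasDerivAt_id r).neg.div_const 6).exp
  exact h.congr_deriv (by ring)

theorem w3_deriv (r : ℝ) : HasDerivAt w3 (w3' r) r := by
  have h1 : HasDerivAt (fun r : ℝ => 1 - r / 3 + r ^ 2 / 54) (-(1 / 3) + r / 27) r :=
    (((hasDerivAt_const r (1 : ℝ)).sub ((hasDerivAt_id r).div_const 3)).add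
      ((hasDerivAt_pow 2 r).div_const 54)).congr_deriv (by
        push_cast
        ring)
  refine (h1.mul (exp6_deriv r)).congr_deriv ?_
  simp only [w3']
  ring

theorem w3'_deriv (r : ℝ) : HasDerivAt (fun r => r ^ 2 * w3' r)
    ((-r + 1 / 36 * r ^ 2) * w3 r) r := by
  have h1 : HasDerivAt (fun r : ℝ => -(1 / 2) + 5 * r / 54 - r ^ 2 / 324) (5 / 54 - r / 162) r :=
    (((hasDerivAt_const r (-(1 / 2) : ℝ)).add (((hasDerivAt_id r).const_mul 5).div_const 54)).sub
      ((hasDerivAt_pow 2 r).div_const 324)).congr_deriv (by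
        push_cast
        ring)
  refine ((hasDerivAt_pow 2 r).mul (h1.mul (exp6_deriv r))).congr_deriv ?_
  simp only [w3, Pi.mul_apply]
  push_cast
  ring

theorem w3_cont : Continuous w3 := by
  unfold w3
  fun_prop

theorem w3'_cont : Continuous w3' := by
  unfold w3'
  fun_prop

/-- the second excited radial level is `-1/36` -/
theorem rad3 {g : ℝ → ℝ} (hg : ContDiff ℝ 1 g) (hc : HasCompactSupport g) :
    -(1 / 36) * (∫ r in Ioi (0 : ℝ), r ^ 2 * (g r) ^ 2)
        - 1 / 9 * (∫ r in Ioi (0 : ℝ), r ^ 2 * (Real.exp (-r / 2) * g r)) ^ 2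
        - 5 / 2304 * (∫ r in Ioi (0 : ℝ), r ^ 2 * ((1 - r / 4) * Real.exp (-r / 4) * g r)) ^ 2
      ≤ ∫ r in Ioi (0 : ℝ), (r ^ 2 * (deriv g r) ^ 2 - r * (g r) ^ 2) := by
  obtain ⟨q, hq0, hq2⟩ : ∃ q : ℝ, 0 < q ∧ q ^ 2 = 27 :=
    ⟨Real.sqrt 27, Real.sqrt_pos.mpr (by norm_num), Real.sq_sqrt (by norm_num)⟩
  have hq5 : 5 < q := by nlinarith
  have hq6 : q < 6 := by nlinarith
  set a : ℝ := 9 - q with ha
  set b : ℝ := 9 + q with hb
  have ha3 : 3 < a := by linarith
  have ha4 : a < 4 := by linarith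
  have hb14 : 14 < b := by linarith
  have hb15 : b < 15 := by linarith
  have hroot : ∀ r : ℝ, 1 - r / 3 + r ^ 2 / 54 = (r - a) * (r - b) / 54 := by
    intro r
    have e : (r - a) * (r - b) = r ^ 2 - 18 * r + (81 - q ^ 2) := by
      rw [ha, hb]
      ring
    rw [e, hq2]
    ring
  have hEa := Ex_pos a
  have hEb := Ex_pos b
  -- the linear system
  obtain ⟨c0, c2, hpa, hpb⟩ : ∃ c0 c2 : ℝ, g a - sS c0 c2 a = 0 ∧ g b - sS c0 c2 b = 0 := by
    set d : ℝ := Ex a ^ 2 * ((1 - b / 4) * Ex b) - Ex b ^ 2 * ((1 - a / 4) * Ex a) with hd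
    have hdn : d < 0 := by
      have h1 : 0 < Ex a ^ 2 * ((b / 4 - 1) * Ex b) := by
        have : 0 < b / 4 - 1 := by linarith
        positivity
      have h2 : 0 < Ex b ^ 2 * ((1 - a / 4) * Ex a) := by
        have : 0 < 1 - a / 4 := by linarith
        positivity
      rw [hd]
      nlinarith
    have hd0 : d ≠ 0 := hdn.ne
    refine ⟨(g a * ((1 - b / 4) * Ex b) - g b * ((1 - a / 4) * Ex a)) / d,
      (Ex a ^ 2 * g b - Ex b ^ 2 * g a) / d, ?_, ?_⟩
    · have : g a * d - ((g a * ((1 - b / 4) * Ex b) - g b * ((1 - a / 4) * Ex a)) * Ex a ^ 2 +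
        (Ex a ^ 2 * g b - Ex b ^ 2 * g a) * (1 - a / 4) * Ex a) = 0 := by
        rw [hd]
        ring
      simp only [sS]
      have e : g a - ((g a * ((1 - b / 4) * Ex b) - g b * ((1 - a / 4) * Ex a)) / d * Ex a ^ 2 +
          (Ex a ^ 2 * g b - Ex b ^ 2 * g a) / d * (1 - a / 4) * Ex a) =
          (g a * d - ((g a * ((1 - b / 4) * Ex b) - g b * ((1 - a / 4) * Ex a)) * Ex a ^ 2 +
        (Ex a ^ 2 * g b - Ex b ^ 2 * g a) * (1 - a / 4) * Ex a)) / d := by
        rw [eq_div_iff hd0, sub_mul, add_mul]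
        have f1 : ∀ x y z : ℝ, x / d * y * z * d = x * y * z := by
          intro x y z
          field_simp
        have f2 : ∀ x y : ℝ, x / d * y * d = x * y := by
          intro x y
          field_simp
        rw [f1, f2]
      rw [e, this, zero_div]
    · have : g b * d - ((g a * ((1 - b / 4) * Ex b) - g b * ((1 - a / 4) * Ex a)) * Ex b ^ 2 +
        (Ex a ^ 2 * g b - Ex b ^ 2 * g a) * (1 - b / 4) * Ex b) = 0 := by
        rw [hd]
        ring
      simp only [sS]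
      have e : g b - ((g a * ((1 - b / 4) * Ex b) - g b * ((1 - a / 4) * Ex a)) / d * Ex b ^ 2 +
          (Ex a ^ 2 * g b - Ex b ^ 2 * g a) / d * (1 - b / 4) * Ex b) =
          (g b * d - ((g a * ((1 - b / 4) * Ex b) - g b * ((1 - a / 4) * Ex a)) * Ex b ^ 2 +
        (Ex a ^ 2 * g b - Ex b ^ 2 * g a) * (1 - b / 4) * Ex b)) / d := by
        rw [eq_div_iff hd0, sub_mul, add_mul]
        have f1 : ∀ x y z : ℝ, x / d * y * z * d = x * y * z := by
          intro x y z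
          field_simp
        have f2 : ∀ x y : ℝ, x / d * y * d = x * y := by
          intro x y
          field_simp
        rw [f1, f2]
      rw [e, this, zero_div]
  have hsh := shift hg hc (1 / 36) c0 c2
  have hgc := hg.continuous
  have hgd := hg.continuous_deriv le_rfl
  have hs := sS_cont c0 c2
  have hs' := sS'_cont c0 c2
  have hw := w3_cont
  have hw' := w3'_cont
  have hpd : ∀ r, HasDerivAt (fun r => g r - sS c0 c2 r) (deriv g r - sS' c0 c2 r) r := fun r =>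
    ((hg.differentiable one_ne_zero r).hasDerivAt).sub (sS_deriv c0 c2 r)
  have hwne : ∀ r, r ≠ a → r ≠ b → w3 r ≠ 0 := by
    intro r hra hrb
    simp only [w3]
    rw [hroot]
    refine mul_ne_zero ?_ (Real.exp_pos _).ne'
    exact div_ne_zero (mul_ne_zero (sub_ne_zero.mpr hra) (sub_ne_zero.mpr hrb)) (by norm_num)
  have hwa : w3 a = 0 := by
    simp only [w3]
    rw [hroot]
    ring
  have hwb : w3 b = 0 := by
    simp only [w3]
    rw [hroot]
    ring
  have hd' : ∀ r : ℝ, 1 - r / 3 + r ^ 2 / 54 = 0 → r ≠ 9 → w3' r ≠ 0 := by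
    intro r hr h9 h0
    simp only [w3'] at h0
    rcases mul_eq_zero.mp h0 with h | h
    · -- `-(1/2) + 5r/54 - r²/324 = (-(1/3) + r/27) - (1/6) * 0`
      have : -(1 / 3) + r / 27 = 0 := by linarith
      exact h9 (by linarith)
    · exact (Real.exp_pos _).ne' h
  have hwa' : w3' a ≠ 0 := hd' a (by rw [hroot]; ring) (by linarith)
  have hwb' : w3' b ≠ 0 := hd' b (by rw [hroot]; ring) (by linarith)
  have hna : Tendsto (fun r => r ^ 2 * w3' r / w3 r * (g r - sS c0 c2 r) ^ 2)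
      (𝓝[≠] a) (𝓝 0) :=
    node_tendsto (w3_deriv a) hwa hwa' hw'.continuousAt (hpd a) hpa
  have hnb : Tendsto (fun r => r ^ 2 * w3' r / w3 r * (g r - sS c0 c2 r) ^ 2)
      (𝓝[≠] b) (𝓝 0) :=
    node_tendsto (w3_deriv b) hwb hwb' hw'.continuousAt (hpd b) hpb
  have i1 : 0 ≤ ∫ r in Ioo (0 : ℝ) a, (r ^ 2 * (deriv g r - sS' c0 c2 r) ^ 2 -
      r * (g r - sS c0 c2 r) ^ 2 + 1 / 36 * r ^ 2 * (g r - sS c0 c2 r) ^ 2) := by
    refine jacobi_Ioo (w := w3) (w' := w3') (p := fun r => g r - sS c0 c2 r)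
      (p' := fun r => deriv g r - sS' c0 c2 r) le_rfl (by linarith) (fun r _ => w3_deriv r)
      (fun r _ => w3'_deriv r) (fun r hr => hwne r hr.2.ne (by linarith [hr.2])) (fun r _ => hpd r)
      (hgd.sub hs').continuousOn (hgc.sub hs).continuousOn
      (bdry_zero hw hw' (hgc.sub hs) (hwne 0 (by linarith) (by linarith))) ?_
    exact hna.mono_left (nhdsWithin_mono _ fun x hx => ne_of_lt hx)
  have i2 : 0 ≤ ∫ r in Ioo a b, (r ^ 2 * (deriv g r - sS' c0 c2 r) ^ 2 -
      r * (g r - sS c0 c2 r) ^ 2 + 1 / 36 * r ^ 2 * (g r - sS c0 c2 r) ^ 2) := by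
    refine jacobi_Ioo (w := w3) (w' := w3') (p := fun r => g r - sS c0 c2 r)
      (p' := fun r => deriv g r - sS' c0 c2 r) (by linarith) (by linarith) (fun r _ => w3_deriv r)
      (fun r _ => w3'_deriv r) (fun r hr => hwne r hr.1.ne' hr.2.ne) (fun r _ => hpd r)
      (hgd.sub hs').continuousOn (hgc.sub hs).continuousOn ?_ ?_
    · exact hna.mono_left (nhdsWithin_mono _ fun x hx => ne_of_gt hx)
    · exact hnb.mono_left (nhdsWithin_mono _ fun x hx => ne_of_lt hx)
  have i3 : 0 ≤ ∫ r in Ioi b, (r ^ 2 * (deriv g r - sS' c0 c2 r) ^ 2 -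
      r * (g r - sS c0 c2 r) ^ 2 + 1 / 36 * r ^ 2 * (g r - sS c0 c2 r) ^ 2) := by
    refine jacobi_Ioi (w := w3) (w' := w3') (p := fun r => g r - sS c0 c2 r)
      (p' := fun r => deriv g r - sS' c0 c2 r) (by linarith) (fun r _ => w3_deriv r)
      (fun r _ => w3'_deriv r) (fun r hr => hwne r ?_ (ne_of_gt hr)) (fun r _ => hpd r)
      (hgd.sub hs').continuousOn (hgc.sub hs).continuousOn
      (hsh.1.mono_set (Ioi_subset_Ioi (by linarith))) ?_ ?_
    · have : b < r := hr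
      linarith
    · exact hnb.mono_left (nhdsWithin_mono _ fun x hx => ne_of_gt hx)
    · refine bdry_top hc c0 c2 ?_
      filter_upwards [eventually_ge_atTop 100] with r hr
      have hE := Real.exp_pos (-r / 6)
      simp only [w3, w3']
      have h1 : 0 < 1 - r / 3 + r ^ 2 / 54 := by nlinarith
      rw [mul_div_mul_right _ _ hE.ne', abs_div, div_le_one (abs_pos.mpr h1.ne'), abs_le,
        abs_of_pos h1]
      constructor
      · nlinarith
      · nlinarith
  have hsp := hsh.split (a := a) (by linarith)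
  have hsp2 : ∫ r in Ioi a, (r ^ 2 * (deriv g r - sS' c0 c2 r) ^ 2 -
      r * (g r - sS c0 c2 r) ^ 2 + 1 / 36 * r ^ 2 * (g r - sS c0 c2 r) ^ 2) =
      (∫ r in Ioo a b, (r ^ 2 * (deriv g r - sS' c0 c2 r) ^ 2 -
      r * (g r - sS c0 c2 r) ^ 2 + 1 / 36 * r ^ 2 * (g r - sS c0 c2 r) ^ 2)) +
      ∫ r in Ioi b, (r ^ 2 * (deriv g r - sS' c0 c2 r) ^ 2 -
      r * (g r - sS c0 c2 r) ^ 2 + 1 / 36 * r ^ 2 * (g r - sS c0 c2 r) ^ 2) := by
    have hab : a ≤ b := by linarith
    rw [← Ioc_union_Ioi_eq_Ioi hab, setIntegral_union Ioc_disjoint_Ioi_same measurableSet_Ioi,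
      integral_Ioc_eq_integral_Ioo]
    · exact hsh.1.mono_set fun x hx => lt_trans (by linarith) hx.1
    · exact hsh.1.mono_set (Ioi_subset_Ioi (by linarith))
  rw [hsp2] at hsp
  set P := ∫ r in Ioi (0 : ℝ), r ^ 2 * (Real.exp (-r / 2) * g r)
  set Q := ∫ r in Ioi (0 : ℝ), r ^ 2 * ((1 - r / 4) * Real.exp (-r / 4) * g r)
  set D := ∫ r in Ioi (0 : ℝ), (r ^ 2 * (deriv g r) ^ 2 - r * (g r) ^ 2)
  set N := ∫ r in Ioi (0 : ℝ), r ^ 2 * (g r) ^ 2
  nlinarith [sq_nonneg (c0 - P / 2), sq_nonneg (c2 - Q / 16)]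

end Pool.Agent.Lib.CX
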