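import Mathlib
import Pool.Agent.Lib.CX.Basic
import Pool.Agent.Lib.CX.Integ
import Pool.Agent.Lib.CX.Sph
import Pool.Agent.Lib.CX.SphB
import Pool.Agent.Lib.CX.Mean
import Pool.Agent.Lib.CX.MeanB
import Pool.Agent.Lib.CX.S2P
import Pool.Agent.Lib.CX.Rad2
import Pool.Agent.Lib.CX.Rad3
import Pool.Agent.Lib.CX.Wave
import Pool.Agent.Lib.CX.HydS

/-! CX task D6: the hydrogen form with the first levels projected out. -/

set_option autoImplicit false

open MeasureTheory Set Filter Topology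

noncomputable section

namespace Pool.Agent.Lib.CX

variable {f : R3 → ℝ}

namespace Hyd2Aux

/-- derivative of the ray function -/
private def dd (f : R3 → ℝ) (w : ℝ × ℝ) (r : ℝ) : ℝ :=
  fderiv ℝ f (r • sph w.1 w.2) (sph w.1 w.2) - dmn f r

private lemma smul_cont : Continuous fun p : (ℝ × ℝ) × ℝ => p.2 • sph p.1.1 p.1.2 :=
  continuous_snd.smul (continuous_sph.comp continuous_fst)

private lemma gg_cont (hf : Continuous f) :
    Continuous fun p : (ℝ × ℝ) × ℝ => f (p.2 • sph p.1.1 p.1.2) - mn f p.2 :=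
  (hf.comp smul_cont).sub ((continuous_mn hf).comp continuous_snd)

private lemma dd_cont (hf : ContDiff ℝ 1 f) :
    Continuous fun p : (ℝ × ℝ) × ℝ => dd f p.1 p.2 := by
  have h1 : Continuous (fderiv ℝ f) := hf.continuous_fderiv (by norm_num)
  exact ((h1.comp smul_cont).clm_apply (continuous_sph.comp continuous_fst)).sub
    ((continuous_dmn hf).comp continuous_snd)

private lemma gg_hasDeriv (hf : ContDiff ℝ 1 f) (w : ℝ × ℝ) (r : ℝ) :
    HasDerivAt (fun r => f (r • sph w.1 w.2) - mn f r) (dd f w r) r :=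
  (hasDerivAt_ray hf w.1 w.2 r).sub (hasDerivAt_mn hf r)

private lemma gg_contDiff (hf : ContDiff ℝ 1 f) (w : ℝ × ℝ) :
    ContDiff ℝ 1 (fun r => f (r • sph w.1 w.2) - mn f r) := by
  have h1 : ContDiff ℝ 1 (fun r : ℝ => r • sph w.1 w.2) := contDiff_id.smul contDiff_const
  exact (hf.comp h1).sub (contDiff_mn hf)

private lemma exists_radius (hc : HasCompactSupport f) :
    ∃ R : ℝ, 0 < R ∧ (∀ x, R ≤ ‖x‖ → f x = 0) ∧ ∀ x, R ≤ ‖x‖ → fderiv ℝ f x = 0 := by
  obtain ⟨R, hR⟩ := hc.isCompact.isBounded.subset_ball (0 : R3)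
  have h1 : ∀ x, max R 1 ≤ ‖x‖ → x ∉ tsupport f := by
    intro x hx hx'
    have := hR hx'
    rw [Metric.mem_ball, dist_zero_right] at this
    exact absurd (lt_of_lt_of_le this (le_max_left R 1)) (not_lt.mpr hx)
  refine ⟨max R 1, lt_max_of_lt_right one_pos, fun x hx => image_eq_zero_of_notMem_tsupport (h1 x hx),
    fun x hx => ?_⟩
  by_contra h
  exact h1 x hx (support_fderiv_subset ℝ (Function.mem_support.mpr h))

private lemma norm_ray {w : ℝ × ℝ} (hw : w ∈ pbox) (r : ℝ) : ‖r • sph w.1 w.2‖ = |r| := by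
  have h1 : w.1 ^ 2 ≤ 1 := by
    have h2 : w.1 ∈ Ioo (-1 : ℝ) 1 := hw.1
    nlinarith [h2.1, h2.2]
  rw [norm_smul, norm_sph h1, mul_one, Real.norm_eq_abs]

private lemma gg_zero {R : ℝ} (hR : ∀ x, R ≤ ‖x‖ → f x = 0) {w : ℝ × ℝ} (hw : w ∈ pbox) {r : ℝ}
    (hr : R ≤ |r|) : f (r • sph w.1 w.2) - mn f r = 0 := by
  rw [hR _ (by rw [norm_ray hw]; exact hr), mn_eq_zero hR hr, sub_zero]

private lemma measurableSet_pbox : MeasurableSet pbox := measurableSet_Ioo.prod measurableSet_Ioo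

private lemma dd_zero {R : ℝ} (hR' : ∀ x, R ≤ ‖x‖ → fderiv ℝ f x = 0)
    {w : ℝ × ℝ} (hw : w ∈ pbox) {r : ℝ} (hr : R ≤ |r|) : dd f w r = 0 := by
  unfold dd
  rw [hR' _ (by rw [norm_ray hw]; exact hr)]
  have h1 : dmn f r = 0 := by
    unfold dmn
    have h2 : ∫ w in pbox, fderiv ℝ f (r • sph w.1 w.2) (sph w.1 w.2) = ∫ w in pbox, (0 : ℝ) := by
      refine setIntegral_congr_fun measurableSet_pbox fun v hv => ?_
      try simp only
      rw [hR' _ (by rw [norm_ray hv]; exact hr)]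
      rfl
    rw [h2, integral_zero, mul_zero]
  rw [h1]
  simp

private lemma gg_compact (hc : HasCompactSupport f) {w : ℝ × ℝ} (hw : w ∈ pbox) :
    HasCompactSupport (fun r => f (r • sph w.1 w.2) - mn f r) := by
  obtain ⟨R, hR0, hR, -⟩ := Hyd2Aux.exists_radius hc
  refine HasCompactSupport.of_support_subset_isCompact (isCompact_Icc (a := -R) (b := R)) ?_
  intro r hr
  rw [Function.mem_support] at hr
  rw [mem_Icc, ← abs_le]
  by_contra h
  exact hr (gg_zero hR hw (not_le.mp h).le)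

private lemma int_ray {F : (ℝ × ℝ) → ℝ → ℝ} (hF : Continuous fun p : (ℝ × ℝ) × ℝ => F p.1 p.2)
    {R : ℝ} {w : ℝ × ℝ} (hz : ∀ r, R ≤ r → F w r = 0) :
    IntegrableOn (F w) (Ioi 0) := by
  have hc : Continuous (F w) := hF.comp (continuous_const.prodMk continuous_id)
  have h1 : IntegrableOn (F w) (Ioc 0 R) :=
    (hc.integrableOn_Icc (a := 0) (b := R)).mono_set Ioc_subset_Icc_self
  refine h1.of_forall_sdiff_eq_zero measurableSet_Ioi fun r hr => ?_
  refine hz r ?_
  by_contra h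
  exact hr.2 ⟨hr.1, (not_le.mp h).le⟩

private lemma int_box {F : (ℝ × ℝ) → ℝ → ℝ} (hF : Continuous fun p : (ℝ × ℝ) × ℝ => F p.1 p.2)
    {R : ℝ} (hR : 0 ≤ R) (hz : ∀ w ∈ pbox, ∀ r, R ≤ r → F w r = 0) :
    IntegrableOn (fun w => ∫ r in Ioi (0 : ℝ), F w r) pbox := by
  have h1 : Continuous fun w : ℝ × ℝ => ∫ r in (0 : ℝ)..R, F w r :=
    intervalIntegral.continuous_parametric_intervalIntegral_of_continuous' (f := F) hF 0 R
  have h2 : IntegrableOn (fun w : ℝ × ℝ => ∫ r in (0 : ℝ)..R, F w r)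
      (Icc (-1 : ℝ) 1 ×ˢ Icc (-Real.pi) Real.pi) :=
    h1.continuousOn.integrableOn_compact (isCompact_Icc.prod isCompact_Icc)
  have h3 : pbox ⊆ Icc (-1 : ℝ) 1 ×ˢ Icc (-Real.pi) Real.pi :=
    prod_mono Ioo_subset_Icc_self Ioo_subset_Icc_self
  refine (h2.mono_set h3).congr_fun (fun w hw => ?_) measurableSet_pbox
  try simp only
  rw [intervalIntegral.integral_of_le hR]
  symm
  refine setIntegral_eq_of_subset_of_forall_sdiff_eq_zero measurableSet_Ioi Ioc_subset_Ioi_self
    fun r hr => ?_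
  refine hz w hw r ?_
  by_contra h
  exact hr.2 ⟨hr.1, (not_le.mp h).le⟩

private lemma hh_ray {w : ℝ × ℝ} (hw : w ∈ pbox) {r : ℝ} (hr : 0 < r) :
    hh f (r • sph w.1 w.2) = f (r • sph w.1 w.2) - mn f r := by
  unfold hh sm
  rw [norm_ray hw, abs_of_pos hr]

private lemma hh_cont (hf : Continuous f) : Continuous (hh f) := hf.sub (continuous_sm hf)

private lemma hh_compact (hc : HasCompactSupport f) : HasCompactSupport (hh f) :=
  hc.sub (hasCompactSupport_sm hc)

/-- the norm of the part with mean zero -/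
private lemma hh_sq (hf : ContDiff ℝ 1 f) (hc : HasCompactSupport f) :
    ∫ x, (hh f x) ^ 2 = ∫ w in pbox, ∫ r in Ioi (0 : ℝ),
      r ^ 2 * (f (r • sph w.1 w.2) - mn f r) ^ 2 := by
  have h1 : Integrable (fun x => (hh f x) ^ 2) := by
    have h2 : Continuous (fun x => (hh f x) ^ 2) := (hh_cont hf.continuous).pow 2
    have h3 : HasCompactSupport (fun x => (hh f x) ^ 2) :=
      (hh_compact hc).comp_left (g := fun y : ℝ => y ^ 2) (by norm_num)
    exact h2.integrable_of_hasCompactSupport h3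
  rw [integral_sph_iter' h1]
  refine setIntegral_congr_fun measurableSet_pbox fun w hw => ?_
  refine setIntegral_congr_fun measurableSet_Ioi fun r hr => ?_
  try simp only
  rw [hh_ray hw hr]

private lemma sm_sq : ∫ x, (sm f x) ^ 2 = 4 * Real.pi * ∫ r in Ioi (0 : ℝ), r ^ 2 * (mn f r) ^ 2 :=
  integral_radial (fun r => (mn f r) ^ 2)

private lemma al_eq (hf : ContDiff ℝ 1 f) (hc : HasCompactSupport f) :
    (al f) ^ 2 = 2 * Real.pi *
      (∫ r in Ioi (0 : ℝ), r ^ 2 * (Real.exp (-r / 2) * mn f r)) ^ 2 := by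
  have h1 : al f = ∫ x, (fun r => Real.exp (-r / 2) / Real.sqrt (8 * Real.pi)) ‖x‖ * f x := rfl
  rw [sm_pair (g := fun r => Real.exp (-r / 2) / Real.sqrt (8 * Real.pi)) hf.continuous hc
    (by fun_prop)] at h1
  have h2 := integral_radial (fun r => Real.exp (-r / 2) / Real.sqrt (8 * Real.pi) * mn f r)
  have h3 : al f = 4 * Real.pi * ∫ r in Ioi (0 : ℝ),
      r ^ 2 * (Real.exp (-r / 2) / Real.sqrt (8 * Real.pi) * mn f r) := h1.trans h2
  have h4 : ∫ r in Ioi (0 : ℝ), r ^ 2 * (Real.exp (-r / 2) / Real.sqrt (8 * Real.pi) * mn f r)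
      = (Real.sqrt (8 * Real.pi))⁻¹ *
        ∫ r in Ioi (0 : ℝ), r ^ 2 * (Real.exp (-r / 2) * mn f r) := by
    rw [← integral_const_mul]
    refine integral_congr_ae (Eventually.of_forall fun r => ?_)
    try simp only
    ring
  have h5 : (Real.sqrt (8 * Real.pi)) ^ 2 = 8 * Real.pi :=
    Real.sq_sqrt (by positivity)
  have hpi := Real.pi_pos
  rw [h3, h4, mul_pow, mul_pow _⁻¹, inv_pow, h5]
  field_simp
  ring

private lemma be_eq (hf : ContDiff ℝ 1 f) (hc : HasCompactSupport f) :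
    (be f) ^ 2 = Real.pi / 4 *
      (∫ r in Ioi (0 : ℝ), r ^ 2 * ((1 - r / 4) * Real.exp (-r / 4) * mn f r)) ^ 2 := by
  have h1 : be f = ∫ x, (fun r => (1 - r / 4) * Real.exp (-r / 4) / (8 * Real.sqrt Real.pi)) ‖x‖
      * f x := rfl
  rw [sm_pair (g := fun r => (1 - r / 4) * Real.exp (-r / 4) / (8 * Real.sqrt Real.pi))
    hf.continuous hc (by fun_prop)] at h1
  have h2 := integral_radial
    (fun r => (1 - r / 4) * Real.exp (-r / 4) / (8 * Real.sqrt Real.pi) * mn f r)
  have h3 : be f = 4 * Real.pi * ∫ r in Ioi (0 : ℝ),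
      r ^ 2 * ((1 - r / 4) * Real.exp (-r / 4) / (8 * Real.sqrt Real.pi) * mn f r) := h1.trans h2
  have h4 : ∫ r in Ioi (0 : ℝ),
      r ^ 2 * ((1 - r / 4) * Real.exp (-r / 4) / (8 * Real.sqrt Real.pi) * mn f r)
      = (8 * Real.sqrt Real.pi)⁻¹ *
        ∫ r in Ioi (0 : ℝ), r ^ 2 * ((1 - r / 4) * Real.exp (-r / 4) * mn f r) := by
    rw [← integral_const_mul]
    refine integral_congr_ae (Eventually.of_forall fun r => ?_)
    try simp only
    ring
  have h5 : (8 * Real.sqrt Real.pi) ^ 2 = 64 * Real.pi := by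
    rw [mul_pow, Real.sq_sqrt Real.pi_pos.le]
    norm_num
  have hpi := Real.pi_pos
  rw [h3, h4, mul_pow, mul_pow _⁻¹, inv_pow, h5]
  field_simp
  ring

/-- the form of the rays -/
private lemma ray_deriv (hf : ContDiff ℝ 1 f) (w : ℝ × ℝ) :
    ∫ r in Ioi (0 : ℝ),
          (r ^ 2 * (deriv (fun r => f (r • sph w.1 w.2) - mn f r) r) ^ 2
            + 2 * (f (r • sph w.1 w.2) - mn f r) ^ 2
            - r * (f (r • sph w.1 w.2) - mn f r) ^ 2)
      = ∫ r in Ioi (0 : ℝ), (r ^ 2 * (dd f w r) ^ 2 + 2 * (f (r • sph w.1 w.2) - mn f r) ^ 2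
            - r * (f (r • sph w.1 w.2) - mn f r) ^ 2) := by
  refine integral_congr_ae (Eventually.of_forall fun r => ?_)
  try simp only
  rw [(gg_hasDeriv hf w r).deriv]

private lemma F1_cont (hf : ContDiff ℝ 1 f) : Continuous fun p : (ℝ × ℝ) × ℝ =>
    (p.2 ^ 2 * (dd f p.1 p.2) ^ 2 + 2 * (f (p.2 • sph p.1.1 p.1.2) - mn f p.2) ^ 2
            - p.2 * (f (p.2 • sph p.1.1 p.1.2) - mn f p.2) ^ 2) := by
  have h1 := gg_cont hf.continuous
  have h2 := dd_cont hf
  exact (((continuous_snd.pow 2).mul (h2.pow 2)).add (continuous_const.mul (h1.pow 2))).sub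
    (continuous_snd.mul (h1.pow 2))

private lemma F2_cont (hf : ContDiff ℝ 1 f) : Continuous fun p : (ℝ × ℝ) × ℝ =>
    (2 * (f (p.2 • sph p.1.1 p.1.2) - mn f p.2) ^ 2
            - p.2 * (f (p.2 • sph p.1.1 p.1.2) - mn f p.2) ^ 2) := by
  have h1 := gg_cont hf.continuous
  exact (continuous_const.mul (h1.pow 2)).sub (continuous_snd.mul (h1.pow 2))

private lemma F3_cont (hf : ContDiff ℝ 1 f) : Continuous fun p : (ℝ × ℝ) × ℝ =>
    (p.2 ^ 2 * (f (p.2 • sph p.1.1 p.1.2) - mn f p.2) ^ 2) := by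
  have h1 := gg_cont hf.continuous
  exact (continuous_snd.pow 2).mul (h1.pow 2)

end Hyd2Aux

open Hyd2Aux

theorem hyd_one (hf : ContDiff ℝ 1 f) (hc : HasCompactSupport f) :
    -(1 / 4) * (al f) ^ 2 - 1 / 16 * ((∫ x, (f x) ^ 2) - (al f) ^ 2) ≤ qh f := by
  obtain ⟨R, hR0, hR, hR'⟩ := Hyd2Aux.exists_radius hc
  have h1 := rad2 (contDiff_mn hf) (hasCompactSupport_mn hc)
  have h2 : ∫ w in pbox, -(1 / 16) * (∫ r in Ioi (0 : ℝ),
        r ^ 2 * (f (r • sph w.1 w.2) - mn f r) ^ 2)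
      ≤ ∫ w in pbox, ∫ r in Ioi (0 : ℝ),
          (r ^ 2 * (deriv (fun r => f (r • sph w.1 w.2) - mn f r) r) ^ 2
            + 2 * (f (r • sph w.1 w.2) - mn f r) ^ 2
            - r * (f (r • sph w.1 w.2) - mn f r) ^ 2) := by
    refine setIntegral_mono_on ?_ ?_ Hyd2Aux.measurableSet_pbox ?_
    · refine Integrable.const_mul ?_ _
      refine int_box (F := fun w r => r ^ 2 * (f (r • sph w.1 w.2) - mn f r) ^ 2) (F3_cont hf)
        hR0.le fun w hw r hr => ?_
      try simp only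
      rw [gg_zero hR hw (hr.trans (le_abs_self r))]
      ring
    · simp only [ray_deriv hf]
      refine int_box (F := fun w r => r ^ 2 * (dd f w r) ^ 2
        + 2 * (f (r • sph w.1 w.2) - mn f r) ^ 2 - r * (f (r • sph w.1 w.2) - mn f r) ^ 2)
        (F1_cont hf) hR0.le fun w hw r hr => ?_
      try simp only
      rw [gg_zero hR hw (hr.trans (le_abs_self r)), dd_zero hR' hw (hr.trans (le_abs_self r))]
      ring
    · intro w hw
      exact radL (gg_contDiff hf w) (gg_compact hc hw)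
  rw [integral_const_mul, ← hh_sq hf hc] at h2
  have h3 := qh_split hf hc
  have h4 := sq_sm hf.continuous hc
  rw [sm_sq] at h4
  rw [h4, al_eq hf hc]
  have h5 := mul_le_mul_of_nonneg_left h1 (a := 4 * Real.pi) (by positivity)
  nlinarith [h5, h3, h2]

theorem hyd_two (hf : ContDiff ℝ 1 f) (hc : HasCompactSupport f) :
    -(1 / 4) * (al f) ^ 2 - 1 / 16 * (be f) ^ 2
        - 1 / 36 * ((∫ x, (sm f x) ^ 2) - (al f) ^ 2 - (be f) ^ 2)
        + (∫ x, (2 / ‖x‖ ^ 2 - 1 / ‖x‖) * (hh f x) ^ 2) ≤ qh f := by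
  obtain ⟨R, hR0, hR, hR'⟩ := Hyd2Aux.exists_radius hc
  have h1 := rad3 (contDiff_mn hf) (hasCompactSupport_mn hc)
  have h2 : ∫ w in pbox, (∫ r in Ioi (0 : ℝ), (2 * (f (r • sph w.1 w.2) - mn f r) ^ 2
            - r * (f (r • sph w.1 w.2) - mn f r) ^ 2))
      ≤ ∫ w in pbox, ∫ r in Ioi (0 : ℝ),
          (r ^ 2 * (deriv (fun r => f (r • sph w.1 w.2) - mn f r) r) ^ 2
            + 2 * (f (r • sph w.1 w.2) - mn f r) ^ 2
            - r * (f (r • sph w.1 w.2) - mn f r) ^ 2) := by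
    simp only [ray_deriv hf]
    refine setIntegral_mono_on ?_ ?_ Hyd2Aux.measurableSet_pbox ?_
    · refine int_box (F := fun w r => 2 * (f (r • sph w.1 w.2) - mn f r) ^ 2
        - r * (f (r • sph w.1 w.2) - mn f r) ^ 2) (F2_cont hf)
        hR0.le fun w hw r hr => ?_
      try simp only
      rw [gg_zero hR hw (hr.trans (le_abs_self r))]
      ring
    · refine int_box (F := fun w r => r ^ 2 * (dd f w r) ^ 2
        + 2 * (f (r • sph w.1 w.2) - mn f r) ^ 2 - r * (f (r • sph w.1 w.2) - mn f r) ^ 2)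
        (F1_cont hf) hR0.le fun w hw r hr => ?_
      try simp only
      rw [gg_zero hR hw (hr.trans (le_abs_self r)), dd_zero hR' hw (hr.trans (le_abs_self r))]
      ring
    · intro w hw
      refine setIntegral_mono ?_ ?_ fun r => ?_
      · refine int_ray (F := fun w r => 2 * (f (r • sph w.1 w.2) - mn f r) ^ 2
          - r * (f (r • sph w.1 w.2) - mn f r) ^ 2) (F2_cont hf) (R := R) fun r hr => ?_
        try simp only
        rw [gg_zero hR hw (hr.trans (le_abs_self r))]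
        ring
      · refine int_ray (F := fun w r => r ^ 2 * (dd f w r) ^ 2
          + 2 * (f (r • sph w.1 w.2) - mn f r) ^ 2 - r * (f (r • sph w.1 w.2) - mn f r) ^ 2)
          (F1_cont hf) (R := R) fun r hr => ?_
        try simp only
        rw [gg_zero hR hw (hr.trans (le_abs_self r)), dd_zero hR' hw (hr.trans (le_abs_self r))]
        ring
      · try simp only
        have : 0 ≤ r ^ 2 * (dd f w r) ^ 2 := by positivity
        linarith
  have h2' : ∫ x, (2 / ‖x‖ ^ 2 - 1 / ‖x‖) * (hh f x) ^ 2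
      = ∫ w in pbox, (∫ r in Ioi (0 : ℝ), (2 * (f (r • sph w.1 w.2) - mn f r) ^ 2
            - r * (f (r • sph w.1 w.2) - mn f r) ^ 2)) := by
    have hi : Integrable (fun x => (2 / ‖x‖ ^ 2 - 1 / ‖x‖) * (hh f x) ^ 2) := by
      obtain ⟨C, hC⟩ := (hh_compact hc).exists_bound_of_continuous (hh_cont hf.continuous)
      have hz : ∀ x, R ≤ ‖x‖ → hh f x = 0 := by
        intro x hx
        unfold hh sm
        rw [hR x hx, mn_eq_zero hR (by rw [abs_norm]; exact hx), sub_zero]
      have h6 : Integrable (fun x : R3 =>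
          (fun r : ℝ => (Ioo (0 : ℝ) R).indicator (fun r => (2 / r ^ 2 + 1 / r) * C ^ 2) r) ‖x‖) := by
        rw [integrable_radial]
        have h7 : IntegrableOn (fun r : ℝ => (2 + r) * C ^ 2) (Ioo 0 R) := by
          have : Continuous (fun r : ℝ => (2 + r) * C ^ 2) := by fun_prop
          exact (this.integrableOn_Icc (a := 0) (b := R)).mono_set Ioo_subset_Icc_self
        have h8 : IntegrableOn (fun r : ℝ => r ^ 2 *
            (Ioo (0 : ℝ) R).indicator (fun r => (2 / r ^ 2 + 1 / r) * C ^ 2) r) (Ioo 0 R) := by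
          refine h7.congr_fun (fun r hr => ?_) measurableSet_Ioo
          try simp only
          rw [indicator_of_mem hr]
          have : r ≠ 0 := hr.1.ne'
          field_simp
        refine h8.of_forall_sdiff_eq_zero measurableSet_Ioi fun r hr => ?_
        try simp only
        rw [indicator_of_notMem hr.2, mul_zero]
      refine h6.mono' ?_ ?_
      · have m1 : Measurable (fun x : R3 => 2 / ‖x‖ ^ 2 - 1 / ‖x‖) := by fun_prop
        exact (m1.mul ((hh_cont hf.continuous).measurable.pow_const 2)).aestronglyMeasurable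
      · have h0 : ∀ᵐ x : R3 ∂volume, x ≠ 0 := by
          rw [ae_iff]
          simp
        filter_upwards [h0] with x hx0
        have hx1 : 0 < ‖x‖ := norm_pos_iff.mpr hx0
        by_cases hx : R ≤ ‖x‖
        · rw [hz x hx]
          simp only [ne_eq, OfNat.ofNat_ne_zero, not_false_eq_true, zero_pow, mul_zero, norm_zero]
          refine indicator_nonneg (fun r hr => ?_) _
          have : 0 < r := hr.1
          positivity
        · try simp only
          have hmem : ‖x‖ ∈ Ioo (0 : ℝ) R := ⟨hx1, not_le.mp hx⟩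
          rw [indicator_of_mem hmem, norm_mul]
          have h9 : ‖(hh f x) ^ 2‖ ≤ C ^ 2 := by
            rw [norm_pow]
            have := norm_nonneg (hh f x)
            have := hC x
            gcongr
          have h10 : ‖(2 / ‖x‖ ^ 2 - 1 / ‖x‖ : ℝ)‖ ≤ 2 / ‖x‖ ^ 2 + 1 / ‖x‖ := by
            refine (norm_sub_le _ _).trans (le_of_eq ?_)
            rw [Real.norm_of_nonneg (by positivity), Real.norm_of_nonneg (by positivity)]
          exact mul_le_mul h10 h9 (norm_nonneg _) (by positivity)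
    rw [integral_sph_iter' hi]
    refine setIntegral_congr_fun Hyd2Aux.measurableSet_pbox fun w hw => ?_
    refine setIntegral_congr_fun measurableSet_Ioi fun r hr => ?_
    try simp only
    have hr0 : r ≠ 0 := ne_of_gt hr
    rw [hh_ray hw hr, norm_ray hw, abs_of_pos hr]
    field_simp
  rw [← h2'] at h2
  have h3 := qh_split hf hc
  rw [sm_sq, al_eq hf hc, be_eq hf hc]
  have h5 := mul_le_mul_of_nonneg_left h1 (a := 4 * Real.pi) (by positivity)
  nlinarith [h5, h3, h2]

end Pool.Agent.Lib.CX
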