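import Mathlib
import Pool.Agent.Lib.CX.Basic
import Pool.Agent.Lib.CX.Integ
import Pool.Agent.Lib.CX.Slice
import Pool.Agent.Lib.CX.Prj

/-! CX task G1: singlet functions from symmetric functions, and components of a two-electron
function. -/

set_option autoImplicit false

open MeasureTheory Set

noncomputable section

namespace Pool.Agent.Lib.CX

namespace SpinFAux

/-- the homeomorphism -/
def hm : X 2 ≃ₜ R3 × R3 := Homeomorph.finTwoArrow

lemma hm_apply (x : X 2) : hm x = (x 0, x 1) := rfl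

lemma hm_symm (p : R3 × R3) : hm.symm p = ![p.1, p.2] := rfl

lemma int2 (G : X 2 → ℝ) : ∫ x, G x = ∫ p : R3 × R3, G ![p.1, p.2] := by
  have h := (volume_preserving_finTwoArrow R3).symm
  have h2 := h.integral_comp (MeasurableEquiv.measurableEmbedding _) G
  rw [← h2]
  rfl

lemma hasFDerivAt_fst (u v : R3) :
    HasFDerivAt (fun x : R3 => (![x, v] : X 2)) (ContinuousLinearMap.single ℝ (fun _ => R3) 0) u := by
  rw [hasFDerivAt_pi']
  intro i
  fin_cases i
  · have : (ContinuousLinearMap.proj (R := ℝ) (φ := fun _ : Fin 2 => R3) 0).comp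
        (ContinuousLinearMap.single ℝ (fun _ => R3) 0) = ContinuousLinearMap.id ℝ R3 := by
      ext x
      simp
    change HasFDerivAt (fun x : R3 => x) ((ContinuousLinearMap.proj (R := ℝ)
      (φ := fun _ : Fin 2 => R3) 0).comp (ContinuousLinearMap.single ℝ (fun _ => R3) 0)) u
    rw [this]
    exact hasFDerivAt_id u
  · have : (ContinuousLinearMap.proj (R := ℝ) (φ := fun _ : Fin 2 => R3) 1).comp
        (ContinuousLinearMap.single ℝ (fun _ => R3) 0) = 0 := by
      ext x
      simp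
    change HasFDerivAt (fun x : R3 => v) ((ContinuousLinearMap.proj (R := ℝ)
      (φ := fun _ : Fin 2 => R3) 1).comp (ContinuousLinearMap.single ℝ (fun _ => R3) 0)) u
    rw [this]
    exact hasFDerivAt_const v u

lemma hasFDerivAt_snd (u v : R3) :
    HasFDerivAt (fun y : R3 => (![u, y] : X 2)) (ContinuousLinearMap.single ℝ (fun _ => R3) 1) v := by
  rw [hasFDerivAt_pi']
  intro i
  fin_cases i
  · have : (ContinuousLinearMap.proj (R := ℝ) (φ := fun _ : Fin 2 => R3) 0).comp
        (ContinuousLinearMap.single ℝ (fun _ => R3) 1) = 0 := by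
      ext x
      simp
    change HasFDerivAt (fun x : R3 => u) ((ContinuousLinearMap.proj (R := ℝ)
      (φ := fun _ : Fin 2 => R3) 0).comp (ContinuousLinearMap.single ℝ (fun _ => R3) 1)) v
    rw [this]
    exact hasFDerivAt_const u v
  · have : (ContinuousLinearMap.proj (R := ℝ) (φ := fun _ : Fin 2 => R3) 1).comp
        (ContinuousLinearMap.single ℝ (fun _ => R3) 1) = ContinuousLinearMap.id ℝ R3 := by
      ext x
      simp
    change HasFDerivAt (fun x : R3 => x) ((ContinuousLinearMap.proj (R := ℝ)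
      (φ := fun _ : Fin 2 => R3) 1).comp (ContinuousLinearMap.single ℝ (fun _ => R3) 1)) v
    rw [this]
    exact hasFDerivAt_id v

lemma fderiv_fst {f : X 2 → ℝ} (hf : Differentiable ℝ f) (u v w : R3) :
    fderiv ℝ (fun x : R3 => f ![x, v]) u w = fderiv ℝ f ![u, v] (Pi.single 0 w) := by
  have h := ((hf ![u, v]).hasFDerivAt.comp u (hasFDerivAt_fst u v)).fderiv
  have h2 : fderiv ℝ (fun x : R3 => f ![x, v]) u = (fderiv ℝ f ![u, v]).comp
      (ContinuousLinearMap.single ℝ (fun _ => R3) 0) := h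
  rw [h2]
  rfl

lemma fderiv_snd {f : X 2 → ℝ} (hf : Differentiable ℝ f) (u v w : R3) :
    fderiv ℝ (fun y : R3 => f ![u, y]) v w = fderiv ℝ f ![u, v] (Pi.single 1 w) := by
  have h := ((hf ![u, v]).hasFDerivAt.comp v (hasFDerivAt_snd u v)).fderiv
  have h2 : fderiv ℝ (fun y : R3 => f ![u, y]) v = (fderiv ℝ f ![u, v]).comp
      (ContinuousLinearMap.single ℝ (fun _ => R3) 1) := h
  rw [h2]
  rfl

lemma kind_two {f : X 2 → ℝ} (hf : Differentiable ℝ f) (p : R3 × R3) :
    kind f ![p.1, p.2] = gsq (fun x => f ![x, p.2]) p.1 + gsq (fun y => f ![p.1, y]) p.2 := by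
  unfold kind gsq
  rw [Fin.sum_univ_two]
  simp_rw [fderiv_fst hf, fderiv_snd hf]
  rfl

lemma attd_two (p : R3 × R3) : attd (![p.1, p.2] : X 2) = 1 / ‖p.1‖ + 1 / ‖p.2‖ := by
  unfold attd
  rw [Fin.sum_univ_two]
  rfl

lemma repd_two (p : R3 × R3) : repd (![p.1, p.2] : X 2) = 1 / ‖p.1 - p.2‖ := by
  unfold repd
  rw [Fin.sum_univ_two, Fin.sum_univ_two, Fin.sum_univ_two]
  simp

lemma gsq_const_mul {f : R3 → ℝ} (c : ℝ) (hf : Differentiable ℝ f) (x : R3) :
    gsq (fun x => c * f x) x = c ^ 2 * gsq f x := by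
  unfold gsq
  rw [Finset.mul_sum]
  refine Finset.sum_congr rfl fun k _ => ?_
  rw [fderiv_const_mul (hf x)]
  change (c * fderiv ℝ f x (e3 k)) ^ 2 = _
  ring

lemma n2_const (c : ℝ) (F : R3 × R3 → ℝ) : n2 (fun p => c * F p) = c ^ 2 * n2 F := by
  unfold n2
  rw [← integral_const_mul]
  congr 1
  ext p
  ring

lemma a2_const (c : ℝ) (F : R3 × R3 → ℝ) : a2 (fun p => c * F p) = c ^ 2 * a2 F := by
  unfold a2
  rw [← integral_const_mul]
  congr 1
  ext p
  ring

lemma r2_const (c : ℝ) (F : R3 × R3 → ℝ) : r2 (fun p => c * F p) = c ^ 2 * r2 F := by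
  unfold r2
  rw [← integral_const_mul]
  congr 1
  ext p
  ring

lemma k2_const (c : ℝ) {F : R3 × R3 → ℝ} (hF : Differentiable ℝ F) :
    k2 (fun p => c * F p) = c ^ 2 * k2 F := by
  unfold k2
  rw [← integral_const_mul]
  congr 1
  ext p
  have h1 : Differentiable ℝ fun x => F (x, p.2) :=
    hF.comp (differentiable_id.prodMk (differentiable_const _))
  have h2 : Differentiable ℝ fun y => F (p.1, y) :=
    hF.comp ((differentiable_const _).prodMk differentiable_id)
  rw [gsq_const_mul c h1, gsq_const_mul c h2]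
  ring

/-- spin coefficients of the singlet -/
def cf (s : Fin 2 → Fin 2) : ℝ :=
  (if s 0 = 0 ∧ s 1 = 1 then 1 else if s 0 = 1 ∧ s 1 = 0 then -1 else 0) / Real.sqrt 2

lemma cf_sum : ∑ s, cf s ^ 2 = 1 := by
  have h2 : (Real.sqrt 2) ^ 2 = 2 := Real.sq_sqrt (by norm_num)
  rw [← (finTwoArrowEquiv (Fin 2)).symm.sum_comp, Fintype.sum_prod_type, Fin.sum_univ_two,
    Fin.sum_univ_two, Fin.sum_univ_two]
  simp [cf, div_pow, h2]
  norm_num

lemma perm_two : ∀ σ : Equiv.Perm (Fin 2), σ = 1 ∨ σ = Equiv.swap 0 1 := by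
  decide

lemma cf_swap (s : Fin 2 → Fin 2) : cf (s ∘ (Equiv.swap 0 1 : Equiv.Perm (Fin 2))) = -cf s := by
  unfold cf
  simp only [Function.comp, Equiv.swap_apply_left, Equiv.swap_apply_right]
  generalize s 0 = a
  generalize s 1 = b
  rw [← neg_div]
  congr 1
  fin_cases a <;> fin_cases b <;> norm_num

end SpinFAux

open SpinFAux

/-- the components of a two-electron function as functions on `R3 × R3` -/
theorem components {ψ : (Fin 2 → Fin 2) → X 2 → ℝ} (h : Adm 2 ψ) :
    nrm ψ = ∑ s, n2 (fun p => ψ s ![p.1, p.2]) ∧ kin ψ = ∑ s, k2 (fun p => ψ s ![p.1, p.2]) ∧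
      att ψ = ∑ s, a2 (fun p => ψ s ![p.1, p.2]) ∧ rep ψ = ∑ s, r2 (fun p => ψ s ![p.1, p.2]) ∧
      ∀ s, ContDiff ℝ (⊤ : ℕ∞) (fun p : R3 × R3 => ψ s ![p.1, p.2]) ∧
        HasCompactSupport (fun p : R3 × R3 => ψ s ![p.1, p.2]) := by
  have hd : ∀ s, Differentiable ℝ (ψ s) := fun s => (h.smooth s).differentiable (by simp)
  refine ⟨?_, ?_, ?_, ?_, fun s => ⟨?_, ?_⟩⟩
  · unfold nrm n2
    exact Finset.sum_congr rfl fun s _ => int2 _
  · unfold kin k2
    refine Finset.sum_congr rfl fun s _ => ?_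
    rw [int2]
    congr 1
    ext p
    exact kind_two (hd s) p
  · unfold att a2
    refine Finset.sum_congr rfl fun s _ => ?_
    rw [int2]
    congr 1
    ext p
    rw [attd_two]
  · unfold rep r2
    refine Finset.sum_congr rfl fun s _ => ?_
    rw [int2]
    congr 1
    ext p
    rw [repd_two]
  · refine (h.smooth s).comp ?_
    rw [contDiff_pi]
    intro i
    fin_cases i
    · exact contDiff_fst
    · exact contDiff_snd
  · exact (h.cpt s).comp_homeomorph hm.symm

theorem singlet {F : R3 × R3 → ℝ} (hF : ContDiff ℝ (⊤ : ℕ∞) F) (hc : HasCompactSupport F)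
    (hs : ∀ x y, F (x, y) = F (y, x)) :
    ∃ ψ : (Fin 2 → Fin 2) → X 2 → ℝ, Adm 2 ψ ∧ nrm ψ = n2 F ∧ kin ψ = k2 F ∧ att ψ = a2 F ∧
      rep ψ = r2 F := by
  have hA : Adm 2 (fun s x => cf s * F (x 0, x 1)) := by
    refine ⟨fun s => ?_, fun s => ?_, fun σ s x => ?_⟩
    · refine contDiff_const.mul (hF.comp ?_)
      exact (contDiff_apply ℝ R3 (0 : Fin 2)).prodMk (contDiff_apply ℝ R3 (1 : Fin 2))
    · exact (hc.comp_homeomorph hm).mul_left
    · rcases perm_two σ with rfl | rfl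
      · simp
      · have h1 := cf_swap s
        rw [h1, Equiv.Perm.sign_swap (by decide)]
        simp only [Function.comp, Equiv.swap_apply_left, Equiv.swap_apply_right]
        rw [hs (x 1) (x 0)]
        push_cast
        ring
  obtain ⟨h1, h2, h3, h4, -⟩ := components hA
  have hd : Differentiable ℝ F := hF.differentiable (by simp)
  refine ⟨_, hA, ?_, ?_, ?_, ?_⟩
  · rw [h1]
    change ∑ s, n2 (fun p => cf s * F p) = _
    simp_rw [n2_const]
    rw [← Finset.sum_mul, cf_sum, one_mul]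
  · rw [h2]
    change ∑ s, k2 (fun p => cf s * F p) = _
    simp_rw [k2_const _ hd]
    rw [← Finset.sum_mul, cf_sum, one_mul]
  · rw [h3]
    change ∑ s, a2 (fun p => cf s * F p) = _
    simp_rw [a2_const]
    rw [← Finset.sum_mul, cf_sum, one_mul]
  · rw [h4]
    change ∑ s, r2 (fun p => cf s * F p) = _
    simp_rw [r2_const]
    rw [← Finset.sum_mul, cf_sum, one_mul]

end Pool.Agent.Lib.CX
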