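import Mathlib
import Pool.Agent.Lib.CX.Basic
import Pool.Agent.Lib.CX.Integ
import Pool.Agent.Lib.CX.Wave
import Pool.Agent.Lib.CX.Hyd2
import Pool.Agent.Lib.CX.Prj

/-! CX task E2: the two-particle form without repulsion. -/

set_option autoImplicit false

open MeasureTheory Set

noncomputable section

namespace Pool.Agent.Lib.CX

variable {f : R3 × R3 → ℝ}

theorem sq_cpt {α : Type} [TopologicalSpace α] {g : α → ℝ} (hc : HasCompactSupport g) :
    HasCompactSupport (fun x => (g x) ^ 2) := by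
  simp only [pow_two]
  exact hc.mul_left

/-- weighted Pythagoras for the overlap in the second variable -/
theorem pyth_G1 {F : R3 × R3 → ℝ} (hF : Continuous F) (hc : HasCompactSupport F) {w : R3 → ℝ}
    (hw : ∀ g : R3 × R3 → ℝ, Continuous g → HasCompactSupport g →
      Integrable (fun p => w p.1 * g p))
    (hw' : ∀ g : R3 → ℝ, Continuous g → HasCompactSupport g → Integrable (fun x => w x * g x)) :
    Integrable (fun p : R3 × R3 => w p.1 * (F p - ph0 p.2 * G1 F p.1) ^ 2) ∧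
      ∫ p : R3 × R3, w p.1 * (F p - ph0 p.2 * G1 F p.1) ^ 2
        = (∫ p : R3 × R3, w p.1 * (F p) ^ 2) - ∫ x, w x * (G1 F x) ^ 2 := by
  have hg := continuous_G1 hF hc
  have hgc := hasCompactSupport_G1 hc
  have i1 : Integrable (fun p : R3 × R3 => w p.1 * (F p) ^ 2) := hw _ (hF.pow 2) (sq_cpt hc)
  have i2 : Integrable (fun p : R3 × R3 => w p.1 * (G1 F p.1 * (ph0 p.2 * F p))) := by
    refine hw _ ?_ ?_
    · exact (hg.comp continuous_fst).mul ((continuous_ph0.comp continuous_snd).mul hF)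
    · exact (hc.mul_left).mul_left
  have i3' : Integrable (fun x => w x * (G1 F x) ^ 2) := hw' _ (hg.pow 2) (sq_cpt hgc)
  have i3 : Integrable (fun p : R3 × R3 => (w p.1 * (G1 F p.1) ^ 2) * (ph0 p.2) ^ 2) :=
    i3'.mul_prod int_ph0_sq'
  have v2 : ∫ p : R3 × R3, w p.1 * (G1 F p.1 * (ph0 p.2 * F p)) = ∫ x, w x * (G1 F x) ^ 2 := by
    rw [show (∫ p : R3 × R3, w p.1 * (G1 F p.1 * (ph0 p.2 * F p))) =
      ∫ x, ∫ y, w x * (G1 F x * (ph0 y * F (x, y))) from integral_prod _ i2]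
    refine integral_congr_ae (ae_of_all _ fun x => ?_)
    show (∫ y, w x * (G1 F x * (ph0 y * F (x, y)))) = w x * (G1 F x) ^ 2
    rw [integral_const_mul, integral_const_mul, pow_two]
    rfl
  have v3 : ∫ p : R3 × R3, (w p.1 * (G1 F p.1) ^ 2) * (ph0 p.2) ^ 2
      = ∫ x, w x * (G1 F x) ^ 2 := by
    have := integral_prod_mul (μ := (volume : Measure R3)) (ν := (volume : Measure R3))
      (fun x => w x * (G1 F x) ^ 2) (fun x => (ph0 x) ^ 2)
    rw [int_ph0_sq, mul_one] at this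
    exact this
  have e : (fun p : R3 × R3 => w p.1 * (F p - ph0 p.2 * G1 F p.1) ^ 2) =
      fun p : R3 × R3 => w p.1 * (F p) ^ 2 - 2 * (w p.1 * (G1 F p.1 * (ph0 p.2 * F p)))
        + 1 * ((w p.1 * (G1 F p.1) ^ 2) * (ph0 p.2) ^ 2) := by
    funext p
    ring
  rw [e]
  refine ⟨(i1.sub (i2.const_mul 2)).add (i3.const_mul 1), ?_⟩
  rw [int_three 2 1 i1 i2 i3, v2, v3]
  ring

/-- the partial derivative in the first variable -/
def dk (f : R3 × R3 → ℝ) (k : Fin 3) (p : R3 × R3) : ℝ := fderiv ℝ f p (e3 k, 0)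

theorem fderiv_slice (hf : ContDiff ℝ 1 f) (x y : R3) (k : Fin 3) :
    fderiv ℝ (fun x => f (x, y)) x (e3 k) = dk f k (x, y) := by
  rw [(hasFDerivAt_slice hf x y).fderiv]
  rfl

theorem continuous_dk (hf : ContDiff ℝ 1 f) (k : Fin 3) : Continuous (dk f k) :=
  (hf.continuous_fderiv (by norm_num)).clm_apply continuous_const

theorem dk_cpt (hc : HasCompactSupport f) (k : Fin 3) : HasCompactSupport (dk f k) := by
  refine HasCompactSupport.intro hc fun p hp => ?_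
  have : p ∉ tsupport (fderiv ℝ f) := fun h => hp (tsupport_fderiv_subset ℝ h)
  unfold dk
  rw [image_eq_zero_of_notMem_tsupport this]
  rfl

theorem fderiv_G1_dk (hf : ContDiff ℝ 1 f) (hc : HasCompactSupport f) (x : R3) (k : Fin 3) :
    fderiv ℝ (G1 f) x (e3 k) = G1 (dk f k) x := by
  rw [fderiv_G1 hf hc]
  unfold G1
  refine integral_congr_ae (ae_of_all _ fun y => ?_)
  show ph0 y * fderiv ℝ (fun x => f (x, y)) x (e3 k) = ph0 y * dk f k (x, y)
  rw [fderiv_slice hf]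

/-- the function with the overlap removed -/
def rem (f : R3 × R3 → ℝ) (p : R3 × R3) : ℝ := f p - ph0 p.2 * G1 f p.1

theorem rem_contDiff (hf : ContDiff ℝ 1 f) (hc : HasCompactSupport f) (y : R3) :
    ContDiff ℝ 1 (fun x => rem f (x, y)) := by
  have h1 : ContDiff ℝ 1 (fun x : R3 => f (x, y)) :=
    hf.comp (contDiff_id.prodMk contDiff_const)
  have h2 : ContDiff ℝ 1 (fun x : R3 => ph0 y * G1 f x) :=
    contDiff_const.mul (contDiff_G1 hf hc)
  exact h1.sub h2

theorem rem_cpt (hc : HasCompactSupport f) (y : R3) :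
    HasCompactSupport (fun x => rem f (x, y)) := by
  have h1 : HasCompactSupport (fun x : R3 => f (x, y)) := slice1_cpt hc y
  have h2 : HasCompactSupport (fun x : R3 => ph0 y * G1 f x) :=
    (hasCompactSupport_G1 hc).mul_left
  exact h1.sub h2

theorem gsq_rem (hf : ContDiff ℝ 1 f) (hc : HasCompactSupport f) (x y : R3) :
    gsq (fun x => rem f (x, y)) x = ∑ k : Fin 3, (dk f k (x, y) - ph0 y * G1 (dk f k) x) ^ 2 := by
  unfold gsq
  refine Finset.sum_congr rfl fun k _ => ?_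
  congr 1
  have h1 : HasFDerivAt (fun x => f (x, y))
      ((fderiv ℝ f (x, y)).comp (ContinuousLinearMap.inl ℝ R3 R3)) x := hasFDerivAt_slice hf x y
  have h2 : HasFDerivAt (G1 f) (fderiv ℝ (G1 f) x) x :=
    ((contDiff_G1 hf hc).differentiable (by norm_num) x).hasFDerivAt
  have h3 : HasFDerivAt (fun x => rem f (x, y))
      ((fderiv ℝ f (x, y)).comp (ContinuousLinearMap.inl ℝ R3 R3)
        - ph0 y • fderiv ℝ (G1 f) x) x := h1.sub (h2.const_mul (ph0 y))
  rw [h3.fderiv]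
  show (fderiv ℝ f (x, y)) (ContinuousLinearMap.inl ℝ R3 R3 (e3 k))
    - ph0 y * fderiv ℝ (G1 f) x (e3 k) = dk f k (x, y) - ph0 y * G1 (dk f k) x
  rw [fderiv_G1_dk hf hc]
  rfl

theorem gsq_slice (hf : ContDiff ℝ 1 f) (x y : R3) :
    gsq (fun x => f (x, y)) x = ∑ k : Fin 3, (dk f k (x, y)) ^ 2 := by
  unfold gsq
  exact Finset.sum_congr rfl fun k _ => by rw [fderiv_slice hf]

theorem int_dk_sq (hf : ContDiff ℝ 1 f) (hc : HasCompactSupport f) (k : Fin 3) :
    Integrable (fun p : R3 × R3 => (dk f k p) ^ 2) :=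
  ((continuous_dk hf k).pow 2).integrable_of_hasCompactSupport (sq_cpt (dk_cpt hc k))

theorem int_gsq_slice (hf : ContDiff ℝ 1 f) (hc : HasCompactSupport f) :
    Integrable (fun p : R3 × R3 => gsq (fun x => f (x, p.2)) p.1) := by
  have e : (fun p : R3 × R3 => gsq (fun x => f (x, p.2)) p.1) =
      fun p : R3 × R3 => ∑ k : Fin 3, (dk f k p) ^ 2 := by
    funext p
    exact gsq_slice hf p.1 p.2
  rw [e]
  exact integrable_finsetSum _ fun k _ => int_dk_sq hf hc k

theorem al_rem (hf : Continuous f) (hc : HasCompactSupport f) (y : R3) :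
    al (fun x => rem f (x, y)) = G2 f y - w0 f * ph0 y := by
  unfold al
  have e : (fun x => ph0 x * rem f (x, y)) = fun x => ph0 x * f (x, y)
      - ph0 y * (ph0 x * G1 f x) := by
    funext x
    unfold rem
    ring
  have i1 : Integrable (fun x => ph0 x * f (x, y)) :=
    slice2_int (swap_continuous hf) (swap_cpt hc) y
  have i2 : Integrable (fun x => ph0 x * G1 f x) :=
    (continuous_ph0.mul (continuous_G1 hf hc)).integrable_of_hasCompactSupport
      (hasCompactSupport_G1 hc).mul_left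
  rw [e, integral_sub i1 (i2.const_mul _), integral_const_mul]
  have : ∫ x, ph0 x * G1 f x = w0 f := al_G1 hf hc
  rw [this, mul_comm]
  rfl

/-- the inequality for one of the two particles -/
theorem two_half (hf : ContDiff ℝ 1 f) (hc : HasCompactSupport f) :
    qh (G1 f) - 1 / 4 * ((∫ y, (G2 f y) ^ 2) - (w0 f) ^ 2)
        - 1 / 16 * (n2 f - (∫ x, (G1 f x) ^ 2) - (∫ y, (G2 f y) ^ 2) + (w0 f) ^ 2)
      ≤ (∫ p : R3 × R3, gsq (fun x => f (x, p.2)) p.1)
        - ∫ p : R3 × R3, 1 / ‖p.1‖ * (f p) ^ 2 := by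
  have hfc := hf.continuous
  have hg2 := continuous_G2 hfc hc
  have hc2 := hasCompactSupport_G2 hc
  have h20 := int_ph0_sq'
  -- potential
  obtain ⟨p1, p2⟩ := pyth_G1 hfc hc (w := fun x => 1 / ‖x‖)
    (fun g hg hgc => integrable_prod_fst hg hgc) (fun g hg hgc => integrable_inv_norm hg hgc)
  -- norm
  obtain ⟨n1, nn2⟩ := pyth_G1 hfc hc (w := fun _ => 1)
    (fun g hg hgc => by simpa using hg.integrable_of_hasCompactSupport hgc)
    (fun g hg hgc => by simpa using hg.integrable_of_hasCompactSupport hgc)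
  simp only [one_mul] at n1 nn2
  -- kinetic energy
  have hk : ∀ k : Fin 3, Integrable (fun p : R3 × R3 => (dk f k p - ph0 p.2 * G1 (dk f k) p.1) ^ 2)
      ∧ ∫ p : R3 × R3, (dk f k p - ph0 p.2 * G1 (dk f k) p.1) ^ 2
        = (∫ p : R3 × R3, (dk f k p) ^ 2) - ∫ x, (G1 (dk f k) x) ^ 2 := by
    intro k
    obtain ⟨a, b⟩ := pyth_G1 (continuous_dk hf k) (dk_cpt hc k) (w := fun _ => 1)
      (fun g hg hgc => by simpa using hg.integrable_of_hasCompactSupport hgc)
      (fun g hg hgc => by simpa using hg.integrable_of_hasCompactSupport hgc)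
    simp only [one_mul] at a b
    exact ⟨a, b⟩
  have ek : (fun p : R3 × R3 => gsq (fun x => rem f (x, p.2)) p.1) =
      fun p : R3 × R3 => ∑ k : Fin 3, (dk f k p - ph0 p.2 * G1 (dk f k) p.1) ^ 2 := by
    funext p
    exact gsq_rem hf hc p.1 p.2
  have k1 : Integrable (fun p : R3 × R3 => gsq (fun x => rem f (x, p.2)) p.1) := by
    rw [ek]
    exact integrable_finsetSum _ fun k _ => (hk k).1
  have kk2 : ∫ p : R3 × R3, gsq (fun x => rem f (x, p.2)) p.1
      = (∫ p : R3 × R3, gsq (fun x => f (x, p.2)) p.1) - ∫ x, gsq (G1 f) x := by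
    have e1 : (∫ p : R3 × R3, gsq (fun x => rem f (x, p.2)) p.1) =
        ∑ k : Fin 3, ((∫ p : R3 × R3, (dk f k p) ^ 2) - ∫ x, (G1 (dk f k) x) ^ 2) := by
      rw [ek, integral_finsetSum _ fun k _ => (hk k).1]
      exact Finset.sum_congr rfl fun k _ => (hk k).2
    have e2 : (∫ p : R3 × R3, gsq (fun x => f (x, p.2)) p.1) =
        ∑ k : Fin 3, ∫ p : R3 × R3, (dk f k p) ^ 2 := by
      have e : (fun p : R3 × R3 => gsq (fun x => f (x, p.2)) p.1) =
          fun p : R3 × R3 => ∑ k : Fin 3, (dk f k p) ^ 2 := by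
        funext p
        exact gsq_slice hf p.1 p.2
      rw [e, integral_finsetSum _ fun k _ => int_dk_sq hf hc k]
    have e3' : (∫ x, gsq (G1 f) x) = ∑ k : Fin 3, ∫ x, (G1 (dk f k) x) ^ 2 := by
      have e : (fun x => gsq (G1 f) x) = fun x => ∑ k : Fin 3, (G1 (dk f k) x) ^ 2 := by
        funext x
        unfold gsq
        exact Finset.sum_congr rfl fun k _ => by rw [fderiv_G1_dk hf hc]
      rw [e, integral_finsetSum _ fun k _ => ?_]
      exact ((continuous_G1 (continuous_dk hf k) (dk_cpt hc k)).pow 2)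
        |>.integrable_of_hasCompactSupport (sq_cpt (hasCompactSupport_G1 (dk_cpt hc k)))
    rw [e1, e2, e3', Finset.sum_sub_distrib]
  -- the inequality for every `y`
  have hy : ∀ y : R3, -(1 / 4) * (G2 f y - w0 f * ph0 y) ^ 2
      - 1 / 16 * ((∫ x, (rem f (x, y)) ^ 2) - (G2 f y - w0 f * ph0 y) ^ 2)
      ≤ (∫ x, gsq (fun x => rem f (x, y)) x) - ∫ x, 1 / ‖x‖ * (rem f (x, y)) ^ 2 := by
    intro y
    have h := hyd_one (rem_contDiff hf hc y) (rem_cpt hc y)
    rw [al_rem hfc hc y] at h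
    exact h
  -- integrate
  have i2 : Integrable (fun x => (G2 f x) ^ 2) :=
    (hg2.pow 2).integrable_of_hasCompactSupport (sq_cpt hc2)
  have j2 : Integrable (fun x => ph0 x * G2 f x) :=
    (continuous_ph0.mul hg2).integrable_of_hasCompactSupport hc2.mul_left
  have eK : (fun y => (G2 f y - w0 f * ph0 y) ^ 2) = fun y => (G2 f y) ^ 2
      - 2 * w0 f * (ph0 y * G2 f y) + (w0 f) ^ 2 * (ph0 y) ^ 2 := by
    funext y
    ring
  have iK : Integrable (fun y => (G2 f y - w0 f * ph0 y) ^ 2) := by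
    rw [eK]
    exact (i2.sub (j2.const_mul _)).add (h20.const_mul _)
  have valK : ∫ y, (G2 f y - w0 f * ph0 y) ^ 2 = (∫ y, (G2 f y) ^ 2) - (w0 f) ^ 2 := by
    rw [eK, int_three (2 * w0 f) ((w0 f) ^ 2) i2 j2 h20, int_ph0_sq]
    have : ∫ y, ph0 y * G2 f y = w0 f := al_G2 hfc hc
    rw [this]
    ring
  have n1' : Integrable (fun p : R3 × R3 => (rem f p) ^ 2) := n1
  have iN : Integrable (fun y => ∫ x, (rem f (x, y)) ^ 2) := n1'.integral_prod_right
  have vN : ∫ y, (∫ x, (rem f (x, y)) ^ 2) = n2 f - ∫ x, (G1 f x) ^ 2 := by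
    rw [← show (∫ p : R3 × R3, (rem f p) ^ 2) = ∫ y, ∫ x, (rem f (x, y)) ^ 2 from
      integral_prod_symm _ n1']
    exact nn2
  have iT : Integrable (fun y => ∫ x, gsq (fun x => rem f (x, y)) x) := k1.integral_prod_right
  have vT : ∫ y, (∫ x, gsq (fun x => rem f (x, y)) x) =
      (∫ p : R3 × R3, gsq (fun x => f (x, p.2)) p.1) - ∫ x, gsq (G1 f) x := by
    rw [← show (∫ p : R3 × R3, gsq (fun x => rem f (x, p.2)) p.1) =
      ∫ y, ∫ x, gsq (fun x => rem f (x, y)) x from integral_prod_symm _ k1]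
    exact kk2
  have p1' : Integrable (fun p : R3 × R3 => 1 / ‖p.1‖ * (rem f p) ^ 2) := p1
  have iV : Integrable (fun y => ∫ x, 1 / ‖x‖ * (rem f (x, y)) ^ 2) := p1'.integral_prod_right
  have vV : ∫ y, (∫ x, 1 / ‖x‖ * (rem f (x, y)) ^ 2) =
      (∫ p : R3 × R3, 1 / ‖p.1‖ * (f p) ^ 2) - ∫ x, 1 / ‖x‖ * (G1 f x) ^ 2 := by
    rw [← show (∫ p : R3 × R3, 1 / ‖p.1‖ * (rem f p) ^ 2) =
      ∫ y, ∫ x, 1 / ‖x‖ * (rem f (x, y)) ^ 2 from integral_prod_symm _ p1']
    exact p2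
  have hL : Integrable (fun y => -(1 / 4) * (G2 f y - w0 f * ph0 y) ^ 2
      - 1 / 16 * ((∫ x, (rem f (x, y)) ^ 2) - (G2 f y - w0 f * ph0 y) ^ 2)) :=
    (iK.const_mul _).sub ((iN.sub iK).const_mul _)
  have hR : Integrable (fun y => (∫ x, gsq (fun x => rem f (x, y)) x)
      - ∫ x, 1 / ‖x‖ * (rem f (x, y)) ^ 2) := iT.sub iV
  have hmono := integral_mono hL hR hy
  rw [integral_sub iT iV, vT, vV] at hmono
  have hLv : ∫ y, (-(1 / 4) * (G2 f y - w0 f * ph0 y) ^ 2
      - 1 / 16 * ((∫ x, (rem f (x, y)) ^ 2) - (G2 f y - w0 f * ph0 y) ^ 2)) =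
      -(1 / 4) * ((∫ y, (G2 f y) ^ 2) - (w0 f) ^ 2)
        - 1 / 16 * (n2 f - (∫ x, (G1 f x) ^ 2) - ((∫ y, (G2 f y) ^ 2) - (w0 f) ^ 2)) := by
    have iNK : Integrable (fun y => (∫ x, (rem f (x, y)) ^ 2)
      - (G2 f y - w0 f * ph0 y) ^ 2) := iN.sub iK
    rw [integral_sub (iK.const_mul _) (iNK.const_mul _), integral_const_mul,
      integral_const_mul, valK, integral_sub iN iK, vN, valK]
  rw [hLv] at hmono
  unfold qh
  linarith

/-- with `nᵢ = ‖Gᵢ‖² - w₀²` and `ρ = ‖f‖² - w₀² - n₁ - n₂` -/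
theorem two_form (hf : ContDiff ℝ 1 f) (hc : HasCompactSupport f) :
    qh (G1 f) + qh (G2 f)
        - 1 / 4 * (((∫ x, (G1 f x) ^ 2) - (w0 f) ^ 2) + ((∫ y, (G2 f y) ^ 2) - (w0 f) ^ 2))
        - 1 / 8 * (n2 f - (∫ x, (G1 f x) ^ 2) - (∫ y, (G2 f y) ^ 2) + (w0 f) ^ 2)
      ≤ k2 f - a2 f := by
  have h1 := two_half hf hc
  have h2 := two_half (swap_contDiff hf) (swap_cpt hc)
  rw [G1_swap, G2_swap, w0_swap] at h2
  have e1 : n2 (fun p : R3 × R3 => f p.swap) = n2 f :=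
    integral_swap_R3 (fun p : R3 × R3 => (f p) ^ 2)
  have e2 : (∫ p : R3 × R3, gsq (fun x => f (Prod.swap (x, p.2))) p.1)
      = ∫ p : R3 × R3, gsq (fun y => f (p.1, y)) p.2 :=
    integral_swap_R3 (fun p : R3 × R3 => gsq (fun y => f (p.1, y)) p.2)
  have e3' : (∫ p : R3 × R3, 1 / ‖p.1‖ * (f p.swap) ^ 2)
      = ∫ p : R3 × R3, 1 / ‖p.2‖ * (f p) ^ 2 :=
    integral_swap_R3 (fun p : R3 × R3 => 1 / ‖p.2‖ * (f p) ^ 2)
  rw [e1, e2, e3'] at h2
  have i1 := int_gsq_slice hf hc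
  have i2 : Integrable (fun p : R3 × R3 => gsq (fun y => f (p.1, y)) p.2) := by
    have h := int_gsq_slice (swap_contDiff hf) (swap_cpt hc)
    have h' := (Measure.measurePreserving_swap (μ := (volume : Measure R3))
      (ν := (volume : Measure R3))).integrable_comp_emb
      (MeasurableEquiv.prodComm (α := R3) (β := R3)).measurableEmbedding
      (g := fun p : R3 × R3 => gsq (fun y => f (p.1, y)) p.2)
    exact h'.1 h
  have ek : k2 f = (∫ p : R3 × R3, gsq (fun x => f (x, p.2)) p.1)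
      + ∫ p : R3 × R3, gsq (fun y => f (p.1, y)) p.2 := integral_add i1 i2
  have a1 : Integrable (fun p : R3 × R3 => 1 / ‖p.1‖ * (f p) ^ 2) :=
    integrable_prod_fst (hf.continuous.pow 2) (sq_cpt hc)
  have a2' : Integrable (fun p : R3 × R3 => 1 / ‖p.2‖ * (f p) ^ 2) :=
    integrable_prod_snd (hf.continuous.pow 2) (sq_cpt hc)
  have ea : a2 f = (∫ p : R3 × R3, 1 / ‖p.1‖ * (f p) ^ 2)
      + ∫ p : R3 × R3, 1 / ‖p.2‖ * (f p) ^ 2 := by
    rw [← integral_add a1 a2']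
    unfold a2
    refine integral_congr_ae (ae_of_all _ fun p => ?_)
    show (1 / ‖p.1‖ + 1 / ‖p.2‖) * (f p) ^ 2 = 1 / ‖p.1‖ * (f p) ^ 2 + 1 / ‖p.2‖ * (f p) ^ 2
    ring
  rw [ek, ea]
  linarith

end Pool.Agent.Lib.CX
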