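import Mathlib
import Pool.Agent.Lib.CX.Basic
import Pool.Agent.Lib.CX.Integ
import Pool.Agent.Lib.CX.Slice
import Pool.Agent.Lib.CX.MeanB
import Pool.Agent.Lib.CX.Bdd
import Pool.Agent.Lib.CX.Hyd2
import Pool.Agent.Lib.CX.Prj
import Pool.Agent.Lib.CX.Two
import Pool.Agent.Lib.CX.Bzv
import Pool.Agent.Lib.CX.SpinF

/-! CX task E5: the lower bound `-5/18` for two electrons at coupling one. -/

set_option autoImplicit false

open MeasureTheory Set

noncomputable section

namespace Pool.Agent.Lib.CX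

private lemma baz_pt (r : ℝ) (hr : 0 < r) : -(1 / 36) ≤ 2 / r ^ 2 - 1 / r + 1 / (3 + r) := by
  have h3 : 0 < 3 + r := by linarith
  have e : 2 / r ^ 2 - 1 / r + 1 / (3 + r) + 1 / 36
      = (r ^ 3 + 3 * r ^ 2 - 36 * r + 216) / (36 * r ^ 2 * (3 + r)) := by
    field_simp
    ring
  have h : 0 ≤ (r ^ 3 + 3 * r ^ 2 - 36 * r + 216) / (36 * r ^ 2 * (3 + r)) := by
    refine div_nonneg ?_ (by positivity)
    nlinarith [sq_nonneg (r - 3), mul_pos hr (mul_pos hr hr), sq_nonneg (r - 6)]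
  linarith

private lemma baz_hh {G : R3 → ℝ} (hG : Continuous G) (hc : HasCompactSupport G) :
    -(1 / 36) * (∫ x, (hh G x) ^ 2) ≤ (∫ x, (2 / ‖x‖ ^ 2 - 1 / ‖x‖) * (hh G x) ^ 2)
      + ∫ x, 1 / (3 + ‖x‖) * (hh G x) ^ 2 := by
  have hcont : Continuous (hh G) := by
    unfold hh
    exact hG.sub (continuous_sm hG)
  have hcs : HasCompactSupport (hh G) := by
    have h1 := hc.sub (hasCompactSupport_sm hc)
    exact h1
  have hcont2 : Continuous (fun x => (hh G x) ^ 2) := hcont.pow 2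
  have hcs2 : HasCompactSupport (fun x => (hh G x) ^ 2) := by
    have : (fun x => (hh G x) ^ 2) = fun x => hh G x * hh G x := by
      funext x
      ring
    rw [this]
    exact hcs.mul_left
  have hI2 : Integrable (fun x => (hh G x) ^ 2) := hcont2.integrable_of_hasCompactSupport hcs2
  have hw : Continuous (fun x : R3 => 1 / (3 + ‖x‖)) := by
    refine continuous_const.div (by fun_prop) ?_
    intro x
    positivity
  have hI3 : Integrable (fun x => 1 / (3 + ‖x‖) * (hh G x) ^ 2) :=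
    (hw.mul hcont2).integrable_of_hasCompactSupport hcs2.mul_left
  by_cases hI : Integrable (fun x => (2 / ‖x‖ ^ 2 - 1 / ‖x‖) * (hh G x) ^ 2)
  · rw [← integral_add hI hI3, ← integral_const_mul]
    refine integral_mono_ae (hI2.const_mul _) (hI.add hI3) ?_
    have h0 : ∀ᵐ x : R3, x ≠ 0 := by
      rw [ae_iff]
      simp
    filter_upwards [h0] with x hx
    have hr : 0 < ‖x‖ := norm_pos_iff.mpr hx
    have h1 := baz_pt ‖x‖ hr
    have h2 := mul_le_mul_of_nonneg_right h1 (sq_nonneg (hh G x))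
    show -(1 / 36) * (hh G x) ^ 2 ≤ (2 / ‖x‖ ^ 2 - 1 / ‖x‖) * (hh G x) ^ 2
      + 1 / (3 + ‖x‖) * (hh G x) ^ 2
    linarith
  · rw [integral_undef hI, zero_add]
    have h1 : 0 ≤ ∫ x, (hh G x) ^ 2 := integral_nonneg fun x => sq_nonneg _
    have h2 : 0 ≤ ∫ x, 1 / (3 + ‖x‖) * (hh G x) ^ 2 := integral_nonneg fun x => by positivity
    linarith

theorem baz {f : R3 × R3 → ℝ} (hf : ContDiff ℝ 1 f) (hc : HasCompactSupport f) :
    -(5 / 18) * n2 f ≤ k2 f - a2 f + r2 f := by
  have hG1 := contDiff_G1 hf hc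
  have hG2 := contDiff_G2 hf hc
  have hc1 := hasCompactSupport_G1 hc
  have hc2 := hasCompactSupport_G2 hc
  have a1 := hyd_two hG1 hc1
  have b1 := hyd_two hG2 hc2
  rw [al_G1 hf.continuous hc] at a1
  rw [al_G2 hf.continuous hc] at b1
  have c1 := baz_hh hG1.continuous hc1
  have c2 := baz_hh hG2.continuous hc2
  have d1 := sq_sm hG1.continuous hc1
  have d2 := sq_sm hG2.continuous hc2
  have e1 := two_form hf hc
  have e2 := rep_lower hf hc
  have e3 := bessel2 hf.continuous hc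
  linarith

theorem eps_two_one (hne : (eSet 2 1).Nonempty) : -(5 / 18) ≤ eps 2 1 := by
  refine le_csInf hne ?_
  rintro e ⟨ψ, hψ, hn, rfl⟩
  obtain ⟨h1, h2, h3, h4, h5⟩ := components hψ
  unfold en
  rw [h2, h3, h4, one_mul, ← Finset.sum_sub_distrib, ← Finset.sum_add_distrib]
  have h6 : ∀ s, -(5 / 18) * n2 (fun p => ψ s ![p.1, p.2])
      ≤ k2 (fun p => ψ s ![p.1, p.2]) - a2 (fun p => ψ s ![p.1, p.2])
        + r2 (fun p => ψ s ![p.1, p.2]) :=
    fun s => baz ((h5 s).1.of_le (by exact_mod_cast le_top)) (h5 s).2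
  have h7 := Finset.sum_le_sum fun s (_ : s ∈ Finset.univ) => h6 s
  rw [← Finset.mul_sum, ← h1, hn] at h7
  linarith

end Pool.Agent.Lib.CX
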