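import Mathlib
import Pool.Agent.Lib.CX.Basic

/-! CX task H1: from `X n` to `EuclideanSpace ℝ (Fin n × Fin 3)`. -/

set_option autoImplicit false

open MeasureTheory Set

noncomputable section

namespace Pool.Agent.Lib.CX

variable {n : ℕ}

/-- from `X n` to the space of the problem -/
def LX (x : X n) : EuclideanSpace ℝ (Fin n × Fin 3) :=
  WithLp.toLp 2 (fun p : Fin n × Fin 3 => WithLp.ofLp (x p.1) p.2)

/-- and back -/
def MX (y : EuclideanSpace ℝ (Fin n × Fin 3)) : X n :=
  fun i => WithLp.toLp 2 (fun k : Fin 3 => WithLp.ofLp y (i, k))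

theorem MX_LX (x : X n) : MX (LX x) = x := by
  rfl

theorem LX_MX (y : EuclideanSpace ℝ (Fin n × Fin 3)) : LX (MX y) = y := by
  rfl

/-- `LX` as a continuous linear equivalence -/
private def LXe : X n ≃L[ℝ] EuclideanSpace ℝ (Fin n × Fin 3) :=
  LinearEquiv.toContinuousLinearEquiv
    { toFun := LX
      invFun := MX
      map_add' := fun _ _ => rfl
      map_smul' := fun _ _ => rfl
      left_inv := MX_LX
      right_inv := LX_MX }

private theorem LXe_coe : (LXe (n := n) : X n → EuclideanSpace ℝ (Fin n × Fin 3)) = LX := rfl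

private theorem LXe_symm_coe :
    ((LXe (n := n)).symm : EuclideanSpace ℝ (Fin n × Fin 3) → X n) = MX := rfl

theorem contDiff_LX : ContDiff ℝ (⊤ : ℕ∞) (LX (n := n)) := by
  rw [← LXe_coe]
  exact (LXe (n := n)).contDiff

theorem contDiff_MX : ContDiff ℝ (⊤ : ℕ∞) (MX (n := n)) := by
  rw [← LXe_symm_coe]
  exact (LXe (n := n)).symm.contDiff

private theorem measurePreserving_unc :
    MeasurePreserving (fun (f : Fin n → Fin 3 → ℝ) (p : Fin n × Fin 3) => f p.1 p.2)
      volume volume := by
  have hm : Measurable (fun (f : Fin n → Fin 3 → ℝ) (p : Fin n × Fin 3) => f p.1 p.2) := by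
    rw [measurable_pi_iff]
    intro p
    exact (measurable_pi_apply p.2).comp (measurable_pi_apply p.1)
  refine ⟨hm, ?_⟩
  rw [volume_pi (α := fun _ : Fin n × Fin 3 => ℝ)]
  symm
  apply Measure.pi_eq
  intro s hs
  rw [Measure.map_apply hm (MeasurableSet.univ_pi hs)]
  have h1 : (fun (f : Fin n → Fin 3 → ℝ) (p : Fin n × Fin 3) => f p.1 p.2) ⁻¹' (univ.pi s) =
      univ.pi (fun i => univ.pi (fun k => s (i, k))) := by
    ext f
    simp only [mem_preimage, mem_pi, mem_univ, forall_true_left, Prod.forall]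
  rw [h1, volume_pi_pi, Fintype.prod_prod_type]
  apply Finset.prod_congr rfl
  intro i _
  rw [volume_pi_pi]

theorem measurePreserving_LX : MeasurePreserving (LX (n := n)) volume volume := by
  have h1 : MeasurePreserving (fun (x : X n) (i : Fin n) => WithLp.ofLp (x i)) volume volume :=
    volume_preserving_pi (fun _ => PiLp.volume_preserving_ofLp (Fin 3))
  have h2 := PiLp.volume_preserving_toLp (Fin n × Fin 3)
  exact h2.comp (measurePreserving_unc.comp h1)

theorem measurePreserving_MX : MeasurePreserving (MX (n := n)) volume volume := by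
  have h := MeasurePreserving.symm (LXe (n := n)).toHomeomorph.toMeasurableEquiv
    (by exact measurePreserving_LX)
  exact h

/-- integrals (no integrability needed) -/
theorem integral_LX (F : EuclideanSpace ℝ (Fin n × Fin 3) → ℝ) :
    ∫ y, F y = ∫ x : X n, F (LX x) := by
  have h := MeasurePreserving.integral_comp' (f := (LXe (n := n)).toHomeomorph.toMeasurableEquiv)
    (by exact measurePreserving_LX) F
  exact h.symm

theorem hasCompactSupport_LX {E : Type*} [NormedAddCommGroup E]
    {f : EuclideanSpace ℝ (Fin n × Fin 3) → E} (hf : HasCompactSupport f) :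
    HasCompactSupport (fun x : X n => f (LX x)) := by
  exact hf.comp_homeomorph (LXe (n := n)).toHomeomorph

theorem hasCompactSupport_MX {E : Type*} [NormedAddCommGroup E]
    {f : X n → E} (hf : HasCompactSupport f) :
    HasCompactSupport (fun y => f (MX y)) := by
  exact hf.comp_homeomorph (LXe (n := n)).symm.toHomeomorph

private theorem LX_ed (i : Fin n) (k : Fin 3) :
    LX (ed i k) = EuclideanSpace.single (i, k) (1 : ℝ) := by
  ext p
  obtain ⟨j, l⟩ := p
  simp only [LX, ed, e3]
  by_cases hj : j = i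
  · subst hj
    by_cases hl : l = k
    · subst hl
      simp
    · simp [hl]
  · simp [hj]

theorem fderiv_LX {E : Type*} [NormedAddCommGroup E] [NormedSpace ℝ E]
    {f : EuclideanSpace ℝ (Fin n × Fin 3) → E} (hf : Differentiable ℝ f) (x : X n) (i : Fin n)
    (k : Fin 3) :
    fderiv ℝ (fun x : X n => f (LX x)) x (ed i k)
      = fderiv ℝ f (LX x) (EuclideanSpace.single (i, k) (1 : ℝ)) := by
  have h1 : HasFDerivAt (LX (n := n)) ((LXe (n := n)) : X n →L[ℝ] EuclideanSpace ℝ (Fin n × Fin 3)) x :=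
    (LXe (n := n)).hasFDerivAt
  have h2 := (hf (LX x)).hasFDerivAt.comp x h1
  have h3 : fderiv ℝ (fun x : X n => f (LX x)) x =
      (fderiv ℝ f (LX x)).comp ((LXe (n := n)) : X n →L[ℝ] EuclideanSpace ℝ (Fin n × Fin 3)) :=
    h2.fderiv
  rw [h3, ← LX_ed]
  rfl

theorem sqrt_LX (x : X n) (i : Fin n) :
    Real.sqrt (∑ k : Fin 3, (WithLp.ofLp (LX x) (i, k)) ^ 2) = ‖x i‖ := by
  rw [EuclideanSpace.norm_eq]
  simp [LX]

theorem sqrt_LX_sub (x : X n) (i j : Fin n) :
    Real.sqrt (∑ k : Fin 3, (WithLp.ofLp (LX x) (i, k) - WithLp.ofLp (LX x) (j, k)) ^ 2)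
      = ‖x i - x j‖ := by
  rw [EuclideanSpace.norm_eq]
  simp [LX]

theorem LX_perm (x : X n) (σ : Equiv.Perm (Fin n)) :
    (WithLp.toLp 2 (fun p : Fin n × Fin 3 => WithLp.ofLp (LX x) (σ p.1, p.2))
      : EuclideanSpace ℝ (Fin n × Fin 3)) = LX (x ∘ σ) := by
  rfl

end Pool.Agent.Lib.CX
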