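import Mathlib
import Pool.Agent.Lib.CX.Basic
import Pool.Agent.Lib.CX.Integ
import Pool.Agent.Lib.CX.BrA

/-! CX task H2: real and complex test functions. -/

set_option autoImplicit false

open MeasureTheory Set

noncomputable section

namespace Pool.Agent.Lib.CX

variable {n : ℕ}

private theorem integrable_kind {f : X n → ℝ} (hf : ContDiff ℝ (⊤ : ℕ∞) f)
    (hc : HasCompactSupport f) : Integrable (fun x => kind f x) := by
  unfold kind
  apply integrable_finsetSum
  intro i _
  apply integrable_finsetSum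
  intro k _
  have h1 : Continuous (fun x => fderiv ℝ f x (ed i k)) :=
    (hf.continuous_fderiv (by simp)).clm_apply continuous_const
  have h2 : HasCompactSupport (fun x => fderiv ℝ f x (ed i k)) := hc.fderiv_apply (𝕜 := ℝ) (ed i k)
  have h3 : HasCompactSupport (fun x => (fderiv ℝ f x (ed i k)) ^ 2) := by
    refine h2.mono ?_
    intro x hx
    rw [Function.mem_support] at hx ⊢
    intro h0
    apply hx
    simp only [h0]
    norm_num
  exact (h1.pow 2).integrable_of_hasCompactSupport h3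

private theorem cpt_sq {f : X n → ℝ} (hc : HasCompactSupport f) :
    HasCompactSupport (fun x => (f x) ^ 2) := by
  refine hc.mono ?_
  intro x hx
  rw [Function.mem_support] at hx ⊢
  intro h0
  apply hx
  simp only [h0]
  norm_num

/-- the energy of one complex component -/
private theorem key (φ : EuclideanSpace ℝ (Fin n × Fin 3) → ℂ) (hφ : ContDiff ℝ (⊤ : ℕ∞) φ)
    (hc : HasCompactSupport φ) (Z : ℝ) :
    (∫ x, ((∑ j : Fin n × Fin 3, ‖fderiv ℝ φ x (EuclideanSpace.single j (1 : ℝ))‖ ^ 2)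
        + ((∑ i : Fin n, ∑ j : Fin n,
              if i < j then 1 / Real.sqrt (∑ k : Fin 3, (WithLp.ofLp x (i, k) - WithLp.ofLp x (j, k)) ^ 2) else 0)
            - ∑ i : Fin n, Z / Real.sqrt (∑ k : Fin 3, (WithLp.ofLp x (i, k)) ^ 2)) * ‖φ x‖ ^ 2)) =
      ((∫ x : X n, kind (fun x => (φ (LX x)).re) x) - Z * (∫ x : X n, attd x * ((φ (LX x)).re) ^ 2)
          + ∫ x : X n, repd x * ((φ (LX x)).re) ^ 2) +
      ((∫ x : X n, kind (fun x => (φ (LX x)).im) x) - Z * (∫ x : X n, attd x * ((φ (LX x)).im) ^ 2)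
          + ∫ x : X n, repd x * ((φ (LX x)).im) ^ 2) := by
  set u : X n → ℝ := fun x => (φ (LX x)).re with hu
  set v : X n → ℝ := fun x => (φ (LX x)).im with hv
  have hF : ContDiff ℝ (⊤ : ℕ∞) (fun x : X n => φ (LX x)) := hφ.comp contDiff_LX
  have hFc : HasCompactSupport (fun x : X n => φ (LX x)) := hasCompactSupport_LX hc
  have hus : ContDiff ℝ (⊤ : ℕ∞) u := Complex.reCLM.contDiff.comp hF
  have hvs : ContDiff ℝ (⊤ : ℕ∞) v := Complex.imCLM.contDiff.comp hF
  have huc : HasCompactSupport u := hFc.comp_left (g := Complex.re) Complex.zero_re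
  have hvc : HasCompactSupport v := hFc.comp_left (g := Complex.im) Complex.zero_im
  have hd : Differentiable ℝ φ := hφ.differentiable (by simp)
  have hFd : Differentiable ℝ (fun x : X n => φ (LX x)) := hF.differentiable (by simp)
  have hre : ∀ x : X n, ∀ w : X n, fderiv ℝ u x w = (fderiv ℝ (fun x : X n => φ (LX x)) x w).re := by
    intro x w
    have h1 : HasFDerivAt u (Complex.reCLM.comp (fderiv ℝ (fun x : X n => φ (LX x)) x)) x :=
      Complex.reCLM.hasFDerivAt.comp x (hFd x).hasFDerivAt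
    rw [h1.fderiv]
    rfl
  have him : ∀ x : X n, ∀ w : X n, fderiv ℝ v x w = (fderiv ℝ (fun x : X n => φ (LX x)) x w).im := by
    intro x w
    have h1 : HasFDerivAt v (Complex.imCLM.comp (fderiv ℝ (fun x : X n => φ (LX x)) x)) x :=
      Complex.imCLM.hasFDerivAt.comp x (hFd x).hasFDerivAt
    rw [h1.fderiv]
    rfl
  have hnsq : ∀ z : ℂ, ‖z‖ ^ 2 = z.re ^ 2 + z.im ^ 2 := by
    intro z
    rw [← Complex.normSq_eq_norm_sq, Complex.normSq_apply]
    ring
  rw [integral_LX]
  have hpt : ∀ x : X n, ((∑ j : Fin n × Fin 3, ‖fderiv ℝ φ (LX x) (EuclideanSpace.single j (1 : ℝ))‖ ^ 2)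
        + ((∑ i : Fin n, ∑ j : Fin n,
              if i < j then 1 / Real.sqrt (∑ k : Fin 3, (WithLp.ofLp (LX x) (i, k) - WithLp.ofLp (LX x) (j, k)) ^ 2) else 0)
            - ∑ i : Fin n, Z / Real.sqrt (∑ k : Fin 3, (WithLp.ofLp (LX x) (i, k)) ^ 2)) * ‖φ (LX x)‖ ^ 2) =
      (((kind u x + kind v x) + (repd x * (u x) ^ 2 + repd x * (v x) ^ 2)) -
        (Z * (attd x * (u x) ^ 2) + Z * (attd x * (v x) ^ 2))) := by
    intro x
    have e1 : (∑ j : Fin n × Fin 3, ‖fderiv ℝ φ (LX x) (EuclideanSpace.single j (1 : ℝ))‖ ^ 2) =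
        kind u x + kind v x := by
      unfold kind
      rw [Fintype.sum_prod_type, ← Finset.sum_add_distrib]
      apply Finset.sum_congr rfl
      intro i _
      rw [← Finset.sum_add_distrib]
      apply Finset.sum_congr rfl
      intro k _
      rw [← fderiv_LX hd x i k, hnsq, hre, him]
    have e2 : (∑ i : Fin n, ∑ j : Fin n,
              if i < j then 1 / Real.sqrt (∑ k : Fin 3, (WithLp.ofLp (LX x) (i, k) - WithLp.ofLp (LX x) (j, k)) ^ 2) else 0)
          = repd x := by
      unfold repd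
      apply Finset.sum_congr rfl
      intro i _
      apply Finset.sum_congr rfl
      intro j _
      rw [sqrt_LX_sub]
    have e3 : (∑ i : Fin n, Z / Real.sqrt (∑ k : Fin 3, (WithLp.ofLp (LX x) (i, k)) ^ 2)) = Z * attd x := by
      unfold attd
      rw [Finset.mul_sum]
      apply Finset.sum_congr rfl
      intro i _
      rw [sqrt_LX]
      ring
    rw [e1, e2, e3, hnsq]
    simp only [hu, hv]
    ring
  rw [integral_congr_ae (Filter.Eventually.of_forall hpt)]
  have iku := integrable_kind hus huc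
  have ikv := integrable_kind hvs hvc
  have iau : Integrable (fun x => attd x * (u x) ^ 2) := integrable_attd (hus.continuous.pow 2) (cpt_sq huc)
  have iav : Integrable (fun x => attd x * (v x) ^ 2) := integrable_attd (hvs.continuous.pow 2) (cpt_sq hvc)
  have iru : Integrable (fun x => repd x * (u x) ^ 2) := integrable_repd (hus.continuous.pow 2) (cpt_sq huc)
  have irv : Integrable (fun x => repd x * (v x) ^ 2) := integrable_repd (hvs.continuous.pow 2) (cpt_sq hvc)
  have zau : Integrable (fun x => Z * (attd x * (u x) ^ 2)) := iau.const_mul Z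
  have zav : Integrable (fun x => Z * (attd x * (v x) ^ 2)) := iav.const_mul Z
  have jk : Integrable (fun x => kind u x + kind v x) := iku.add ikv
  have jr : Integrable (fun x => repd x * (u x) ^ 2 + repd x * (v x) ^ 2) := iru.add irv
  have jkr : Integrable (fun x => (kind u x + kind v x) +
      (repd x * (u x) ^ 2 + repd x * (v x) ^ 2)) := jk.add jr
  have ja : Integrable (fun x => Z * (attd x * (u x) ^ 2) + Z * (attd x * (v x) ^ 2)) :=
    zau.add zav
  rw [integral_sub jkr ja, integral_add jk jr, integral_add iku ikv, integral_add iru irv,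
    integral_add zau zav, integral_const_mul, integral_const_mul]
  ring

private theorem keyn (φ : EuclideanSpace ℝ (Fin n × Fin 3) → ℂ) (hφ : ContDiff ℝ (⊤ : ℕ∞) φ)
    (hc : HasCompactSupport φ) :
    (∫ x, ‖φ x‖ ^ 2) = (∫ x : X n, ((φ (LX x)).re) ^ 2) + ∫ x : X n, ((φ (LX x)).im) ^ 2 := by
  have hF : ContDiff ℝ (⊤ : ℕ∞) (fun x : X n => φ (LX x)) := hφ.comp contDiff_LX
  have hFc : HasCompactSupport (fun x : X n => φ (LX x)) := hasCompactSupport_LX hc
  have hus : ContDiff ℝ (⊤ : ℕ∞) (fun x : X n => (φ (LX x)).re) := Complex.reCLM.contDiff.comp hF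
  have hvs : ContDiff ℝ (⊤ : ℕ∞) (fun x : X n => (φ (LX x)).im) := Complex.imCLM.contDiff.comp hF
  have huc : HasCompactSupport (fun x : X n => (φ (LX x)).re) :=
    hFc.comp_left (g := Complex.re) Complex.zero_re
  have hvc : HasCompactSupport (fun x : X n => (φ (LX x)).im) :=
    hFc.comp_left (g := Complex.im) Complex.zero_im
  have hnsq : ∀ z : ℂ, ‖z‖ ^ 2 = z.re ^ 2 + z.im ^ 2 := by
    intro z
    rw [← Complex.normSq_eq_norm_sq, Complex.normSq_apply]
    ring
  rw [integral_LX]
  have i1 : Integrable (fun x : X n => ((φ (LX x)).re) ^ 2) :=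
    (hus.continuous.pow 2).integrable_of_hasCompactSupport (cpt_sq huc)
  have i2 : Integrable (fun x : X n => ((φ (LX x)).im) ^ 2) :=
    (hvs.continuous.pow 2).integrable_of_hasCompactSupport (cpt_sq hvc)
  rw [← integral_add i1 i2]
  apply integral_congr_ae
  exact Filter.Eventually.of_forall fun x => hnsq _

theorem real_mem_FSet {ψ : (Fin n → Fin 2) → X n → ℝ} (h : Adm n ψ) (h1 : nrm ψ = 1) (Z : ℝ) :
    kin ψ - Z * att ψ + rep ψ ∈ FSet n Z := by
  set φ : (Fin n → Fin 2) → EuclideanSpace ℝ (Fin n × Fin 3) → ℂ := fun s y => ((ψ s (MX y) : ℝ) : ℂ)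
    with hφ
  have hsm : ∀ s, ContDiff ℝ (⊤ : ℕ∞) (φ s) := fun s =>
    Complex.ofRealCLM.contDiff.comp ((h.smooth s).comp contDiff_MX)
  have hcp : ∀ s, HasCompactSupport (φ s) := fun s =>
    (hasCompactSupport_MX (h.cpt s)).comp_left (g := ((↑) : ℝ → ℂ)) Complex.ofReal_zero
  have hre : ∀ s, (fun x : X n => (φ s (LX x)).re) = ψ s := by
    intro s
    funext x
    simp only [hφ, MX_LX, Complex.ofReal_re]
  have him : ∀ s, (fun x : X n => (φ s (LX x)).im) = fun _ => 0 := by
    intro s
    funext x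
    simp only [hφ, MX_LX, Complex.ofReal_im]
  have hre' : ∀ s (x : X n), (φ s (LX x)).re = ψ s x := fun s x => congrFun (hre s) x
  have him' : ∀ s (x : X n), (φ s (LX x)).im = 0 := fun s x => congrFun (him s) x
  refine ⟨φ, fun s => ⟨hsm s, hcp s⟩, ?_, ?_, ?_⟩
  · intro σ s y
    have h2 := h.anti σ s (MX y)
    have h3 : MX (WithLp.toLp 2 (fun p : Fin n × Fin 3 => WithLp.ofLp y (σ p.1, p.2))) = (MX y) ∘ σ := rfl
    simp only [hφ, h3, h2]
    push_cast
    rfl
  · rw [← h1]
    unfold nrm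
    apply Finset.sum_congr rfl
    intro s _
    rw [keyn (φ s) (hsm s) (hcp s)]
    simp only [hre', him']
    simp
  · unfold kin att rep
    rw [Finset.mul_sum, ← Finset.sum_sub_distrib, ← Finset.sum_add_distrib]
    apply Finset.sum_congr rfl
    intro s _
    rw [key (φ s) (hsm s) (hcp s) Z]
    simp only [hre', him']
    have hk : ∀ x : X n, kind (fun _ : X n => (0 : ℝ)) x = 0 := by
      intro x
      unfold kind
      simp
    simp only [hk]
    have hpsi : (fun x : X n => ψ s x) = ψ s := rfl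
    simp

theorem FSet_real {Z e : ℝ} (he : e ∈ FSet n Z) :
    ∃ u v : (Fin n → Fin 2) → X n → ℝ, Adm n u ∧ Adm n v ∧ nrm u + nrm v = 1 ∧
      e = (kin u - Z * att u + rep u) + (kin v - Z * att v + rep v) := by
  obtain ⟨φ, hs, hanti, hn, he⟩ := he
  have hF : ∀ s, ContDiff ℝ (⊤ : ℕ∞) (fun x : X n => φ s (LX x)) := fun s => (hs s).1.comp contDiff_LX
  have hFc : ∀ s, HasCompactSupport (fun x : X n => φ s (LX x)) := fun s => hasCompactSupport_LX (hs s).2
  have ha : ∀ (σ : Equiv.Perm (Fin n)) (s : Fin n → Fin 2) (x : X n),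
      φ (s ∘ σ) (LX (x ∘ σ)) = (((Equiv.Perm.sign σ : ℤˣ) : ℤ) : ℂ) * φ s (LX x) := by
    intro σ s x
    have := hanti σ s (LX x)
    rw [LX_perm] at this
    exact this
  have hcast : ∀ σ : Equiv.Perm (Fin n), ((((Equiv.Perm.sign σ : ℤˣ) : ℤ) : ℂ)) =
      (((((Equiv.Perm.sign σ : ℤˣ) : ℤ) : ℝ)) : ℂ) := by
    intro σ
    push_cast
    rfl
  refine ⟨fun s x => (φ s (LX x)).re, fun s x => (φ s (LX x)).im, ⟨?_, ?_, ?_⟩, ⟨?_, ?_, ?_⟩, ?_, ?_⟩
  · exact fun s => Complex.reCLM.contDiff.comp (hF s)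
  · exact fun s => (hFc s).comp_left (g := Complex.re) Complex.zero_re
  · intro σ s x
    simp only [ha]
    rw [hcast, Complex.re_ofReal_mul]
  · exact fun s => Complex.imCLM.contDiff.comp (hF s)
  · exact fun s => (hFc s).comp_left (g := Complex.im) Complex.zero_im
  · intro σ s x
    simp only [ha]
    rw [hcast, Complex.im_ofReal_mul]
  · unfold nrm
    rw [← Finset.sum_add_distrib, ← hn]
    apply Finset.sum_congr rfl
    intro s _
    rw [keyn (φ s) (hs s).1 (hs s).2]
  · rw [he]
    unfold kin att rep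
    rw [Finset.mul_sum, Finset.mul_sum, ← Finset.sum_sub_distrib, ← Finset.sum_sub_distrib,
      ← Finset.sum_add_distrib, ← Finset.sum_add_distrib, ← Finset.sum_add_distrib]
    apply Finset.sum_congr rfl
    intro s _
    rw [key (φ s) (hs s).1 (hs s).2 Z]

end Pool.Agent.Lib.CX
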