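import Mathlib
import Pool.Agent.Lib.CX.Basic
import Pool.Agent.Lib.CX.Integ
import Pool.Agent.Lib.CX.Bdd

/-! CX task A6: dilations, virial-exact near-minimisers, concavity in the coupling. -/

set_option autoImplicit false

open MeasureTheory Set

noncomputable section

namespace Pool.Agent.Lib.CX

variable {n : ℕ} {t : ℝ} {ψ : (Fin n → Fin 2) → X n → ℝ}

private lemma dil_int (G : X n → ℝ) {l : ℝ} (hl : 0 < l) :
    ∫ x, G (l • x) = (l ^ (3 * n))⁻¹ * ∫ x, G x := by
  rw [Measure.integral_comp_smul]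
  have h1 : Module.finrank ℝ (X n) = 3 * n := by
    rw [Module.finrank_pi_fintype]
    simp [mul_comm]
  rw [h1, smul_eq_mul, abs_of_pos (inv_pos.2 (pow_pos hl _))]

private lemma dil_attd (x : X n) {l : ℝ} (hl : 0 < l) : attd x = l * attd (l • x) := by
  unfold attd
  rw [Finset.mul_sum]
  refine Finset.sum_congr rfl fun i _ => ?_
  rw [Pi.smul_apply, norm_smul, Real.norm_of_nonneg hl.le, one_div, one_div, mul_inv,
    ← mul_assoc, mul_inv_cancel₀ hl.ne', one_mul]

private lemma dil_repd (x : X n) {l : ℝ} (hl : 0 < l) : repd x = l * repd (l • x) := by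
  unfold repd
  rw [Finset.mul_sum]
  refine Finset.sum_congr rfl fun i _ => ?_
  rw [Finset.mul_sum]
  refine Finset.sum_congr rfl fun j _ => ?_
  split_ifs
  · rw [Pi.smul_apply, Pi.smul_apply, ← smul_sub, norm_smul, Real.norm_of_nonneg hl.le, one_div,
      one_div, mul_inv, ← mul_assoc, mul_inv_cancel₀ hl.ne', one_mul]
  · rw [mul_zero]

/-- dilation -/
theorem dilate (h : Adm n ψ) {l : ℝ} (hl : 0 < l) :
    ∃ φ : (Fin n → Fin 2) → X n → ℝ, Adm n φ ∧ nrm φ = nrm ψ ∧ kin φ = l ^ 2 * kin ψ ∧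
      att φ = l * att ψ ∧ rep φ = l * rep ψ := by
  set c : ℝ := Real.sqrt (l ^ (3 * n)) with hc
  have hp : 0 < l ^ (3 * n) := pow_pos hl _
  have hc2 : c ^ 2 = l ^ (3 * n) := Real.sq_sqrt hp.le
  have key : ∀ G : X n → ℝ, ∫ x, c ^ 2 * G (l • x) = ∫ x, G x := by
    intro G
    rw [integral_const_mul, dil_int G hl, hc2, ← mul_assoc, mul_inv_cancel₀ hp.ne', one_mul]
  refine ⟨fun s x => c * ψ s (l • x), ⟨fun s => ?_, fun s => ?_, fun σ s x => ?_⟩, ?_, ?_, ?_, ?_⟩
  · exact contDiff_const.mul ((h.smooth s).comp (contDiff_id.const_smul l))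
  · exact ((h.cpt s).comp_smul hl.ne').mul_left
  · have h1 : l • (x ∘ σ) = (l • x) ∘ σ := rfl
    change c * ψ (s ∘ σ) (l • (x ∘ σ)) = _ * (c * ψ s (l • x))
    rw [h1, h.anti]
    ring
  · unfold nrm
    refine Finset.sum_congr rfl fun s _ => ?_
    rw [← key fun x => (ψ s x) ^ 2]
    refine integral_congr_ae (Filter.Eventually.of_forall fun x => ?_)
    change (c * ψ s (l • x)) ^ 2 = c ^ 2 * (ψ s (l • x)) ^ 2
    ring
  · unfold kin
    rw [Finset.mul_sum]
    refine Finset.sum_congr rfl fun s _ => ?_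
    rw [← key fun x => kind (ψ s) x, ← integral_const_mul]
    refine integral_congr_ae (Filter.Eventually.of_forall fun x => ?_)
    change kind (fun y => c * ψ s (l • y)) x = l ^ 2 * (c ^ 2 * kind (ψ s) (l • x))
    have hd : Differentiable ℝ (ψ s) := (h.smooth s).differentiable (by simp)
    have h2 : fderiv ℝ (fun y => c * ψ s (l • y)) x = c • (l • fderiv ℝ (ψ s) (l • x)) := by
      rw [fderiv_const_mul]
      · congr 1
        exact fderiv_comp_smul l
      · exact (hd _).comp x ((differentiableAt_id).const_smul l)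
    unfold kind
    rw [h2]
    simp only [Finset.mul_sum]
    refine Finset.sum_congr rfl fun i _ => Finset.sum_congr rfl fun k _ => ?_
    simp only [ContinuousLinearMap.smul_apply, smul_eq_mul]
    ring
  · unfold att
    rw [Finset.mul_sum]
    refine Finset.sum_congr rfl fun s _ => ?_
    rw [← key fun x => attd x * (ψ s x) ^ 2, ← integral_const_mul]
    refine integral_congr_ae (Filter.Eventually.of_forall fun x => ?_)
    change attd x * (c * ψ s (l • x)) ^ 2 = l * (c ^ 2 * (attd (l • x) * (ψ s (l • x)) ^ 2))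
    rw [dil_attd x hl]
    ring
  · unfold rep
    rw [Finset.mul_sum]
    refine Finset.sum_congr rfl fun s _ => ?_
    rw [← key fun x => repd x * (ψ s x) ^ 2, ← integral_const_mul]
    refine integral_congr_ae (Filter.Eventually.of_forall fun x => ?_)
    change repd x * (c * ψ s (l • x)) ^ 2 = l * (c ^ 2 * (repd (l • x) * (ψ s (l • x)) ^ 2))
    rw [dil_repd x hl]
    ring

theorem eps_le_dilate (ht : 0 ≤ t) (h : Adm n ψ) {l : ℝ} (hl : 0 < l) :
    eps n t * nrm ψ ≤ l ^ 2 * kin ψ - l * (att ψ - t * rep ψ) := by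
  obtain ⟨φ, hφ, h1, h2, h3, h4⟩ := dilate h hl
  have h5 := eps_mul_le ht hφ
  unfold en at h5
  rw [h1, h2, h3, h4] at h5
  linarith

/-- near-minimisers with exact virial relation -/
theorem exists_virial (ht : 0 ≤ t) (hne : (eSet n t).Nonempty) (hneg : eps n t < 0)
    {δ : ℝ} (hδ : 0 < δ) :
    ∃ ψ : (Fin n → Fin 2) → X n → ℝ, Adm n ψ ∧ nrm ψ = 1 ∧ en t ψ < eps n t + δ ∧
      kin ψ = -en t ψ := by
  obtain ⟨ψ, hψ, h1, h2⟩ := exists_near (n := n) (t := t) hne
    (lt_min hδ (neg_pos.2 hneg))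
  have h3 : en t ψ < eps n t + δ := h2.trans_le (by linarith [min_le_left δ (-eps n t)])
  have h4 : en t ψ < 0 := h2.trans_le (by linarith [min_le_right δ (-eps n t)])
  set K := kin ψ with hK
  set a := att ψ - t * rep ψ with ha
  have hen : en t ψ = K - a := by
    unfold en
    rw [ha, hK]
    ring
  have hK0 : 0 ≤ K := kin_nonneg ψ
  have ha0 : 0 < a := by linarith
  have hKpos : 0 < K := by
    refine hK0.lt_of_ne fun h0 => ?_
    have h5 := eps_le_dilate ht hψ (l := (|eps n t| + 1) / a) (by positivity)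
    rw [h1, ← hK, ← h0, ← ha, mul_zero, mul_one, div_mul_cancel₀ _ ha0.ne'] at h5
    have := neg_abs_le (eps n t)
    linarith
  have hl : 0 < a / (2 * K) := by positivity
  obtain ⟨φ, hφ, g1, g2, g3, g4⟩ := dilate hψ hl
  have e1 : kin φ = a ^ 2 / (4 * K) := by
    rw [g2, ← hK]
    field_simp
    ring
  have e2 : att φ - t * rep φ = a ^ 2 / (2 * K) := by
    rw [g3, g4]
    have : a / (2 * K) * att ψ - t * (a / (2 * K) * rep ψ) = a / (2 * K) * a := by
      rw [ha]
      ring
    rw [this]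
    field_simp
  have e3 : en t φ = -(a ^ 2 / (4 * K)) := by
    have : en t φ = kin φ - (att φ - t * rep φ) := by
      unfold en
      ring
    rw [this, e1, e2]
    field_simp
    ring
  refine ⟨φ, hφ, g1.trans h1, ?_, ?_⟩
  · refine lt_of_le_of_lt ?_ h3
    rw [e3, hen]
    have h6 : 0 ≤ (2 * K - a) ^ 2 / (4 * K) := by positivity
    have h7 : (2 * K - a) ^ 2 / (4 * K) = K - a + a ^ 2 / (4 * K) := by
      field_simp
      ring
    linarith
  · rw [e1, e3, neg_neg]

/-- concavity in the coupling -/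
theorem eps_concave (hne : (eSet n 0).Nonempty) {a b θ : ℝ} (ha : 0 ≤ a) (hb : 0 ≤ b)
    (h0 : 0 ≤ θ) (h1 : θ ≤ 1) :
    (1 - θ) * eps n a + θ * eps n b ≤ eps n ((1 - θ) * a + θ * b) := by
  have hne' : (eSet n ((1 - θ) * a + θ * b)).Nonempty := by
    obtain ⟨_, ψ, hψ, h2, _⟩ := hne
    exact ⟨_, ψ, hψ, h2, rfl⟩
  refine le_eps hne' fun ψ hψ h2 => ?_
  have h3 := eps_mul_le ha hψ
  have h4 := eps_mul_le hb hψ
  rw [h2, mul_one] at h3 h4
  have h5 : en ((1 - θ) * a + θ * b) ψ = (1 - θ) * en a ψ + θ * en b ψ := by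
    unfold en
    ring
  rw [h5]
  exact add_le_add (mul_le_mul_of_nonneg_left h3 (sub_nonneg.2 h1))
    (mul_le_mul_of_nonneg_left h4 h0)

end Pool.Agent.Lib.CX
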