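import Mathlib
import Pool.Agent.Lib.CX.Basic
import Pool.Agent.Lib.CX.Integ
import Pool.Agent.Lib.CX.Slice
import Pool.Agent.Lib.CX.Perm
import Pool.Agent.Lib.CX.Bdd

/-! CX task A8: antisymmetrised product with a far away electron. -/

set_option autoImplicit false

open MeasureTheory Set Filter Topology

noncomputable section

namespace Pool.Agent.Lib.CX

variable {n : ℕ}

namespace Far

/-! ### general facts -/

/-- permuting the coordinates, as a linear map -/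
def pc {m : ℕ} (σ : Equiv.Perm (Fin m)) : X m →L[ℝ] X m :=
  ContinuousLinearMap.pi fun i => ContinuousLinearMap.proj (σ i)

theorem pc_apply {m : ℕ} (σ : Equiv.Perm (Fin m)) (x : X m) : pc σ x = x ∘ σ := rfl

/-- permuting the coordinates, as a homeomorphism -/
def pcH {m : ℕ} (σ : Equiv.Perm (Fin m)) : X m ≃ₜ X m where
  toFun x := x ∘ σ
  invFun x := x ∘ σ.symm
  left_inv x := by
    funext i
    simp
  right_inv x := by
    funext i
    simp
  continuous_toFun := (pc σ).continuous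
  continuous_invFun := (pc σ.symm).continuous

theorem ed_comp {m : ℕ} (σ : Equiv.Perm (Fin m)) (j : Fin m) (k : Fin 3) :
    (ed j k : X m) ∘ σ = ed (σ.symm j) k := by
  funext i
  simp only [Function.comp_apply, ed, Pi.single_apply]
  by_cases h : σ i = j
  · have h2 : i = σ.symm j := by rw [← h, Equiv.symm_apply_apply]
    rw [if_pos h, if_pos h2]
  · have h2 : i ≠ σ.symm j := fun h3 => h (by rw [h3, Equiv.apply_symm_apply])
    rw [if_neg h, if_neg h2]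

theorem measurePreserving_pc {m : ℕ} (σ : Equiv.Perm (Fin m)) :
    MeasurePreserving (fun x : X m => x ∘ σ) volume volume := by
  have h1 := volume_measurePreserving_piCongrLeft (fun _ : Fin m => R3) σ.symm
  have h2 : ⇑(MeasurableEquiv.piCongrLeft (fun _ : Fin m => R3) σ.symm) =
      fun x : X m => x ∘ σ := by
    funext x i
    have h3 := Equiv.piCongrLeft_apply_apply (fun _ : Fin m => R3) σ.symm x (σ i)
    rw [Equiv.symm_apply_apply] at h3
    exact h3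
  rw [h2] at h1
  exact h1

theorem fderiv_pc {m : ℕ} {f : X m → ℝ} (hf : Differentiable ℝ f) (σ : Equiv.Perm (Fin m))
    (x : X m) (j : Fin m) (k : Fin 3) :
    fderiv ℝ (fun x : X m => f (x ∘ σ)) x (ed j k) =
      fderiv ℝ f (x ∘ σ) (ed (σ.symm j) k) := by
  have h1 : HasFDerivAt (fun x : X m => f (pc σ x)) ((fderiv ℝ f (pc σ x)).comp (pc σ)) x :=
    (hf (pc σ x)).hasFDerivAt.comp x (pc σ).hasFDerivAt
  have h2 : fderiv ℝ (fun x : X m => f (x ∘ σ)) x = (fderiv ℝ f (pc σ x)).comp (pc σ) :=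
    h1.fderiv
  rw [h2, ContinuousLinearMap.comp_apply, pc_apply, pc_apply, ed_comp]

theorem kind_pc {m : ℕ} {f : X m → ℝ} (hf : Differentiable ℝ f) (σ : Equiv.Perm (Fin m))
    (x : X m) : kind (fun x : X m => f (x ∘ σ)) x = kind f (x ∘ σ) := by
  unfold kind
  simp only [fderiv_pc hf]
  exact Equiv.sum_comp σ.symm fun i => ∑ k : Fin 3, (fderiv ℝ f (x ∘ σ) (ed i k)) ^ 2

theorem attd_pc {m : ℕ} (σ : Equiv.Perm (Fin m)) (x : X m) : attd (x ∘ σ) = attd x := by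
  unfold attd
  exact Equiv.sum_comp σ fun i => 1 / ‖x i‖

theorem repd_eq {m : ℕ} (x : X m) :
    repd x = 1 / 2 * ∑ i : Fin m, ∑ j : Fin m, 1 / ‖x i - x j‖ := by
  have h1 : ∀ i j : Fin m, 1 / ‖x i - x j‖ = (if i < j then 1 / ‖x i - x j‖ else 0) +
      (if j < i then 1 / ‖x j - x i‖ else 0) := by
    intro i j
    rcases lt_trichotomy i j with h | h | h
    · rw [if_pos h, if_neg h.not_gt, add_zero]
    · subst h
      simp
    · rw [if_neg h.not_gt, if_pos h, zero_add, norm_sub_rev]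
  have h2 : ∑ i : Fin m, ∑ j : Fin m, 1 / ‖x i - x j‖ = repd x + repd x := by
    calc ∑ i : Fin m, ∑ j : Fin m, 1 / ‖x i - x j‖
        = ∑ i : Fin m, ∑ j : Fin m, ((if i < j then 1 / ‖x i - x j‖ else 0) +
            (if j < i then 1 / ‖x j - x i‖ else 0)) :=
          Finset.sum_congr rfl fun i _ => Finset.sum_congr rfl fun j _ => h1 i j
      _ = repd x + ∑ i : Fin m, ∑ j : Fin m, (if j < i then 1 / ‖x j - x i‖ else 0) := by
          simp only [Finset.sum_add_distrib]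
          rfl
      _ = repd x + repd x := by
          rw [Finset.sum_comm]
          rfl
  rw [h2]
  ring

theorem repd_pc {m : ℕ} (σ : Equiv.Perm (Fin m)) (x : X m) : repd (x ∘ σ) = repd x := by
  rw [repd_eq, repd_eq]
  congr 1
  calc ∑ i : Fin m, ∑ j : Fin m, 1 / ‖(x ∘ σ) i - (x ∘ σ) j‖
      = ∑ i : Fin m, ∑ j : Fin m, 1 / ‖x (σ i) - x j‖ :=
        Finset.sum_congr rfl fun i _ => Equiv.sum_comp σ fun j => 1 / ‖x (σ i) - x j‖
    _ = _ := Equiv.sum_comp σ fun i => ∑ j : Fin m, 1 / ‖x i - x j‖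

/-- if the product of two functions vanishes, so does the product of their derivatives -/
theorem fderiv_mul_zero {m : ℕ} {f g : X m → ℝ} (hf : Differentiable ℝ f)
    (hg : Differentiable ℝ g) (h : ∀ x, f x * g x = 0) (x v : X m) :
    fderiv ℝ f x v * fderiv ℝ g x v = 0 := by
  by_contra hne
  have h1 : fderiv ℝ f x v ≠ 0 := left_ne_zero_of_mul hne
  have h2 : fderiv ℝ g x v ≠ 0 := right_ne_zero_of_mul hne
  have hl : HasDerivAt (fun r : ℝ => x + r • v) v 0 := by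
    have := ((hasDerivAt_id (0 : ℝ)).smul_const v).const_add x
    simpa using this
  have e : x + (0 : ℝ) • v = x := by simp
  have d1 : HasDerivAt (fun r : ℝ => f (x + r • v)) (fderiv ℝ f x v) 0 := by
    have h3 : HasFDerivAt f (fderiv ℝ f x) (x + (0 : ℝ) • v) := by
      rw [e]
      exact (hf x).hasFDerivAt
    exact h3.comp_hasDerivAt 0 hl
  have d2 : HasDerivAt (fun r : ℝ => g (x + r • v)) (fderiv ℝ g x v) 0 := by
    have h3 : HasFDerivAt g (fderiv ℝ g x) (x + (0 : ℝ) • v) := by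
      rw [e]
      exact (hg x).hasFDerivAt
    exact h3.comp_hasDerivAt 0 hl
  have n1 := d1.eventually_ne (c := 0) h1
  have n2 := d2.eventually_ne (c := 0) h2
  obtain ⟨r, hr1, hr2⟩ := (n1.and n2).exists
  exact mul_ne_zero hr1 hr2 (h _)

/-! ### the product -/

/-- the product -/
def om (ψ : (Fin n → Fin 2) → X n → ℝ) (χ : R3 → ℝ) (s : Fin (n + 1) → Fin 2)
    (x : X (n + 1)) : ℝ :=
  if s 0 = 0 then χ (x 0) * ψ (Fin.tail s) (Fin.tail x : X n) else 0

section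

variable {ψ : (Fin n → Fin 2) → X n → ℝ} {χ : R3 → ℝ}

theorem om_zero (s : Fin n → Fin 2) (u : R3) (y : X n) :
    om ψ χ (Fin.cons 0 s : Fin (n + 1) → Fin 2) (Fin.cons u y : X (n + 1)) = χ u * ψ s y := by
  simp [om]

theorem om_one (s : Fin n → Fin 2) (x : X (n + 1)) :
    om ψ χ (Fin.cons 1 s : Fin (n + 1) → Fin 2) x = 0 := by
  simp [om]

theorem om_smooth (h : Adm n ψ) (hχ : ContDiff ℝ (⊤ : ℕ∞) χ) (s : Fin (n + 1) → Fin 2) :
    ContDiff ℝ (⊤ : ℕ∞) (om ψ χ s) := by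
  unfold om
  by_cases h0 : s 0 = 0
  · simp only [h0, if_true]
    have h1 : ContDiff ℝ (⊤ : ℕ∞) fun x : X (n + 1) => (Fin.tail x : X n) :=
      contDiff_pi.mpr fun j => contDiff_apply ℝ R3 j.succ
    exact (hχ.comp (contDiff_apply ℝ R3 0)).mul ((h.smooth _).comp h1)
  · simp only [h0, if_false]
    exact contDiff_const

theorem om_cpt (h : Adm n ψ) (hc : HasCompactSupport χ) (s : Fin (n + 1) → Fin 2) :
    HasCompactSupport (om ψ χ s) := by
  have hcont : Continuous fun p : R3 × X n => (Fin.cons p.1 p.2 : X (n + 1)) := by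
    refine continuous_pi fun i => ?_
    refine Fin.cases ?_ (fun j => ?_) i
    · exact continuous_fst
    · exact (continuous_apply j).comp continuous_snd
  have hK : IsCompact ((fun p : R3 × X n => (Fin.cons p.1 p.2 : X (n + 1))) ''
      (tsupport χ ×ˢ tsupport (ψ (Fin.tail s)))) :=
    (IsCompact.prod hc (h.cpt _)).image hcont
  refine HasCompactSupport.intro hK fun x hx => ?_
  unfold om
  by_cases h0 : s 0 = 0
  · rw [if_pos h0]
    by_contra hne
    have h1 : χ (x 0) ≠ 0 := left_ne_zero_of_mul hne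
    have h2 : ψ (Fin.tail s) (Fin.tail x : X n) ≠ 0 := right_ne_zero_of_mul hne
    refine hx ⟨(x 0, Fin.tail x), ⟨subset_tsupport _ h1, subset_tsupport _ h2⟩, ?_⟩
    exact Fin.cons_self_tail x
  · rw [if_neg h0]

/-- permutations which fix `0` -/
theorem om_perm (h : Adm n ψ) (τ : Equiv.Perm (Fin (n + 1))) (hτ : τ 0 = 0)
    (s : Fin (n + 1) → Fin 2) (x : X (n + 1)) :
    om ψ χ (s ∘ τ) (x ∘ τ) = (((Equiv.Perm.sign τ : ℤˣ) : ℤ) : ℝ) * om ψ χ s x := by
  obtain ⟨⟨p, e⟩, rfl⟩ := Equiv.Perm.decomposeFin.symm.surjective τ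
  rw [Equiv.Perm.decomposeFin_symm_apply_zero] at hτ
  subst hτ
  have hs : Equiv.Perm.sign (Equiv.Perm.decomposeFin.symm ((0 : Fin (n + 1)), e)) =
      Equiv.Perm.sign e := by
    rw [Equiv.Perm.decomposeFin.symm_sign, if_pos rfl, one_mul]
  have h0 : (Equiv.Perm.decomposeFin.symm ((0 : Fin (n + 1)), e)) 0 = 0 :=
    Equiv.Perm.decomposeFin_symm_apply_zero _ _
  have h1 : ∀ j : Fin n, (Equiv.Perm.decomposeFin.symm ((0 : Fin (n + 1)), e)) j.succ =
      (e j).succ := by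
    intro j
    rw [Equiv.Perm.decomposeFin_symm_apply_succ, Equiv.swap_self]
    rfl
  have t1 : Fin.tail (s ∘ (Equiv.Perm.decomposeFin.symm ((0 : Fin (n + 1)), e))) =
      (Fin.tail s) ∘ e := by
    funext j
    simp only [Fin.tail, Function.comp_apply, h1]
  have t2 : (Fin.tail (x ∘ (Equiv.Perm.decomposeFin.symm ((0 : Fin (n + 1)), e))) : X n) =
      (Fin.tail x : X n) ∘ e := by
    funext j
    simp only [Fin.tail, Function.comp_apply, h1]
  unfold om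
  rw [hs, t1, t2, h.anti]
  simp only [Function.comp_apply, h0]
  by_cases hz : s 0 = 0
  · rw [if_pos hz, if_pos hz]
    ring
  · rw [if_neg hz, if_neg hz, mul_zero]

/-- the terms of the antisymmetrised product -/
def tm (ψ : (Fin n → Fin 2) → X n → ℝ) (χ : R3 → ℝ) (i : Fin (n + 1))
    (s : Fin (n + 1) → Fin 2) (x : X (n + 1)) : ℝ :=
  (((Equiv.Perm.sign (Equiv.swap 0 i) : ℤˣ) : ℤ) : ℝ) *
    om ψ χ (s ∘ Equiv.swap 0 i) (x ∘ Equiv.swap 0 i)

theorem sg_sq {m : ℕ} (σ : Equiv.Perm (Fin m)) :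
    (((Equiv.Perm.sign σ : ℤˣ) : ℤ) : ℝ) ^ 2 = 1 := by
  rcases Int.units_eq_one_or (Equiv.Perm.sign σ) with h | h <;> rw [h] <;> norm_num

theorem tm_smooth (h : Adm n ψ) (hχ : ContDiff ℝ (⊤ : ℕ∞) χ) (i : Fin (n + 1))
    (s : Fin (n + 1) → Fin 2) : ContDiff ℝ (⊤ : ℕ∞) (tm ψ χ i s) :=
  contDiff_const.mul ((om_smooth h hχ _).comp (pc (Equiv.swap 0 i)).contDiff)

theorem tm_cpt (h : Adm n ψ) (hc : HasCompactSupport χ) (i : Fin (n + 1))
    (s : Fin (n + 1) → Fin 2) : HasCompactSupport (tm ψ χ i s) := by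
  have h1 : HasCompactSupport (om ψ χ (s ∘ Equiv.swap 0 i) ∘ pcH (Equiv.swap 0 i)) :=
    (om_cpt h hc (s ∘ Equiv.swap 0 i)).comp_homeomorph (pcH (Equiv.swap 0 i))
  exact h1.mul_left (f := fun _ =>
    (((Equiv.Perm.sign (Equiv.swap 0 i) : ℤˣ) : ℤ) : ℝ))

theorem tm_mul {D : ℝ} (hD : 0 < D)
    (hsep : ∀ s x u, ψ s x ≠ 0 → χ u ≠ 0 → ∀ i, D ≤ ‖x i - u‖) {i j : Fin (n + 1)}
    (hij : i ≠ j) (s : Fin (n + 1) → Fin 2) (x : X (n + 1)) :
    tm ψ χ i s x * tm ψ χ j s x = 0 := by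
  by_contra hne
  have h1 : tm ψ χ i s x ≠ 0 := left_ne_zero_of_mul hne
  have h2 : tm ψ χ j s x ≠ 0 := right_ne_zero_of_mul hne
  have key : ∀ i : Fin (n + 1), tm ψ χ i s x ≠ 0 → χ (x i) ≠ 0 ∧
      ψ (Fin.tail (s ∘ Equiv.swap 0 i)) (Fin.tail (x ∘ Equiv.swap 0 i) : X n) ≠ 0 := by
    intro i hi
    have h3 : om ψ χ (s ∘ Equiv.swap 0 i) (x ∘ Equiv.swap 0 i) ≠ 0 := right_ne_zero_of_mul hi
    unfold om at h3
    by_cases h0 : (s ∘ Equiv.swap 0 i) 0 = 0
    · rw [if_pos h0] at h3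
      refine ⟨?_, right_ne_zero_of_mul h3⟩
      have h4 := left_ne_zero_of_mul h3
      simpa using h4
    · rw [if_neg h0] at h3
      exact absurd rfl h3
  obtain ⟨-, k2⟩ := key i h1
  obtain ⟨k3, -⟩ := key j h2
  have h3 : Equiv.swap 0 i j ≠ 0 := by
    intro h4
    have h5 := congrArg (Equiv.swap 0 i) h4
    rw [Equiv.swap_apply_self, Equiv.swap_apply_left] at h5
    exact hij h5.symm
  obtain ⟨k, hk⟩ := Fin.exists_succ_eq.mpr h3
  have h4 := hsep _ _ (x j) k2 k3 k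
  have h5 : (Fin.tail (x ∘ Equiv.swap 0 i) : X n) k = x j := by
    simp only [Fin.tail, Function.comp_apply]
    rw [hk, Equiv.swap_apply_self]
  rw [h5, sub_self, norm_zero] at h4
  linarith

/-- the antisymmetrised product -/
def Ph (ψ : (Fin n → Fin 2) → X n → ℝ) (χ : R3 → ℝ) (s : Fin (n + 1) → Fin 2)
    (x : X (n + 1)) : ℝ := (√(n + 1 : ℝ))⁻¹ * ∑ i, tm ψ χ i s x

theorem tm_perm (h : Adm n ψ) (i : Fin (n + 1)) (σ : Equiv.Perm (Fin (n + 1)))
    (s : Fin (n + 1) → Fin 2) (x : X (n + 1)) :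
    tm ψ χ i (s ∘ σ) (x ∘ σ) =
      (((Equiv.Perm.sign σ : ℤˣ) : ℤ) : ℝ) * tm ψ χ (σ i) s x := by
  set a := Equiv.swap 0 i with ha
  set b := Equiv.swap 0 (σ i) with hb
  set τ : Equiv.Perm (Fin (n + 1)) := b * (σ * a) with hτ
  have h1 : σ * a = b * τ := by rw [hτ, hb, Equiv.swap_mul_self_mul]
  have h2 : (s ∘ σ) ∘ a = (s ∘ b) ∘ τ := by
    have : ⇑(σ * a) = ⇑(b * τ) := by rw [h1]
    rw [Equiv.Perm.coe_mul, Equiv.Perm.coe_mul] at this
    rw [Function.comp_assoc, this, Function.comp_assoc]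
  have h3 : (x ∘ σ) ∘ a = (x ∘ b) ∘ τ := by
    have : ⇑(σ * a) = ⇑(b * τ) := by rw [h1]
    rw [Equiv.Perm.coe_mul, Equiv.Perm.coe_mul] at this
    rw [Function.comp_assoc, this, Function.comp_assoc]
  have h4 : τ 0 = 0 := by
    rw [hτ, Equiv.Perm.mul_apply, Equiv.Perm.mul_apply, ha, Equiv.swap_apply_left, hb,
      Equiv.swap_apply_right]
  have h5 : (((Equiv.Perm.sign τ : ℤˣ) : ℤ) : ℝ) = (((Equiv.Perm.sign b : ℤˣ) : ℤ) : ℝ) *
      ((((Equiv.Perm.sign σ : ℤˣ) : ℤ) : ℝ) * (((Equiv.Perm.sign a : ℤˣ) : ℤ) : ℝ)) := by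
    rw [hτ, map_mul, map_mul]
    push_cast
    rfl
  unfold tm
  rw [h2, h3, om_perm h τ h4, h5]
  have h6 := sg_sq a
  linear_combination ((((Equiv.Perm.sign b : ℤˣ) : ℤ) : ℝ) *
    (((Equiv.Perm.sign σ : ℤˣ) : ℤ) : ℝ) * om ψ χ (s ∘ b) (x ∘ b)) * h6

theorem Ph_adm (h : Adm n ψ) (hχ : ContDiff ℝ (⊤ : ℕ∞) χ) (hc : HasCompactSupport χ) :
    Adm (n + 1) (Ph ψ χ) where
  smooth s := contDiff_const.mul (ContDiff.sum fun i _ => tm_smooth h hχ i s)
  cpt s := by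
    have hK : IsCompact (⋃ i : Fin (n + 1), tsupport (tm ψ χ i s)) :=
      isCompact_iUnion fun i => tm_cpt h hc i s
    refine HasCompactSupport.intro hK fun x hx => ?_
    have h1 : ∀ i, tm ψ χ i s x = 0 := by
      intro i
      refine image_eq_zero_of_notMem_tsupport fun h2 => hx (mem_iUnion.mpr ⟨i, h2⟩)
    unfold Ph
    simp [h1]
  anti σ s x := by
    unfold Ph
    simp only [tm_perm h]
    rw [← Finset.mul_sum, Equiv.sum_comp σ fun i => tm ψ χ i s x]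
    ring

/-! ### the densities -/

/-- the weighted square of the product -/
theorem Ph_sq {D : ℝ} (hD : 0 < D)
    (hsep : ∀ s x u, ψ s x ≠ 0 → χ u ≠ 0 → ∀ i, D ≤ ‖x i - u‖)
    (s : Fin (n + 1) → Fin 2) (x : X (n + 1)) :
    (Ph ψ χ s x) ^ 2 = (n + 1 : ℝ)⁻¹ *
      ∑ i, (om ψ χ (s ∘ Equiv.swap 0 i) (x ∘ Equiv.swap 0 i)) ^ 2 := by
  have h0 : (0 : ℝ) ≤ n + 1 := by positivity
  have h1 : (∑ i, tm ψ χ i s x) ^ 2 = ∑ i, (tm ψ χ i s x) ^ 2 := by
    rw [sq, Finset.sum_mul_sum]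
    refine Finset.sum_congr rfl fun i _ => ?_
    rw [Finset.sum_eq_single i]
    · rw [sq]
    · intro j _ hji
      exact tm_mul hD hsep (Ne.symm hji) s x
    · intro h
      exact absurd (Finset.mem_univ i) h
  unfold Ph
  rw [mul_pow, h1, inv_pow, Real.sq_sqrt h0]
  congr 1
  refine Finset.sum_congr rfl fun i _ => ?_
  unfold tm
  rw [mul_pow, sg_sq, one_mul]

theorem Ph_kind (h : Adm n ψ) (hχ : ContDiff ℝ (⊤ : ℕ∞) χ) {D : ℝ} (hD : 0 < D)
    (hsep : ∀ s x u, ψ s x ≠ 0 → χ u ≠ 0 → ∀ i, D ≤ ‖x i - u‖)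
    (s : Fin (n + 1) → Fin 2) (x : X (n + 1)) :
    kind (Ph ψ χ s) x = (n + 1 : ℝ)⁻¹ *
      ∑ i, kind (om ψ χ (s ∘ Equiv.swap 0 i)) (x ∘ Equiv.swap 0 i) := by
  have h0 : (0 : ℝ) ≤ n + 1 := by positivity
  have hd : ∀ i, Differentiable ℝ (tm ψ χ i s) := fun i =>
    (tm_smooth h hχ i s).differentiable (by simp)
  have hdo : ∀ s', Differentiable ℝ (om ψ χ s') := fun s' =>
    (om_smooth h hχ s').differentiable (by simp)
  have h1 : ∀ v, fderiv ℝ (Ph ψ χ s) x v =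
      (√(n + 1 : ℝ))⁻¹ * ∑ i, fderiv ℝ (tm ψ χ i s) x v := by
    intro v
    have h2 : HasFDerivAt (Ph ψ χ s)
        ((√(n + 1 : ℝ))⁻¹ • ∑ i, fderiv ℝ (tm ψ χ i s) x) x :=
      (HasFDerivAt.fun_sum fun i _ => (hd i x).hasFDerivAt).const_mul _
    rw [h2.fderiv]
    simp
  have h2 : ∀ v, (fderiv ℝ (Ph ψ χ s) x v) ^ 2 =
      (n + 1 : ℝ)⁻¹ * ∑ i, (fderiv ℝ (tm ψ χ i s) x v) ^ 2 := by
    intro v
    rw [h1, mul_pow, inv_pow, Real.sq_sqrt h0]
    congr 1
    rw [sq, Finset.sum_mul_sum]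
    refine Finset.sum_congr rfl fun i _ => ?_
    rw [Finset.sum_eq_single i]
    · rw [sq]
    · intro j _ hji
      exact fderiv_mul_zero (hd i) (hd j) (fun y => tm_mul hD hsep (Ne.symm hji) s y) x v
    · intro h
      exact absurd (Finset.mem_univ i) h
  have h3 : ∀ i, kind (tm ψ χ i s) x =
      kind (om ψ χ (s ∘ Equiv.swap 0 i)) (x ∘ Equiv.swap 0 i) := by
    intro i
    rw [← kind_pc (hdo _)]
    unfold kind
    refine Finset.sum_congr rfl fun j _ => Finset.sum_congr rfl fun k _ => ?_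
    have h4 : HasFDerivAt (tm ψ χ i s) ((((Equiv.Perm.sign (Equiv.swap 0 i) : ℤˣ) : ℤ) : ℝ) •
        fderiv ℝ (fun y : X (n + 1) => om ψ χ (s ∘ Equiv.swap 0 i)
          (y ∘ Equiv.swap 0 i)) x) x := by
      have h5 : DifferentiableAt ℝ (fun y : X (n + 1) => om ψ χ (s ∘ Equiv.swap 0 i)
          (y ∘ Equiv.swap 0 i)) x :=
        (hdo _ _).comp x (pc (Equiv.swap 0 i)).differentiableAt
      exact h5.hasFDerivAt.const_mul _
    rw [h4.fderiv, smul_apply, smul_eq_mul, mul_pow, sg_sq, one_mul]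
  calc kind (Ph ψ χ s) x = ∑ j : Fin (n + 1), ∑ k : Fin 3, ((n + 1 : ℝ)⁻¹ *
        ∑ i, (fderiv ℝ (tm ψ χ i s) x (ed j k)) ^ 2) := by
        unfold kind
        simp only [h2]
    _ = (n + 1 : ℝ)⁻¹ * ∑ i, kind (tm ψ χ i s) x := by
        unfold kind
        simp only [← Finset.mul_sum]
        congr 1
        exact (Finset.sum_congr rfl fun j _ => Finset.sum_comm).trans Finset.sum_comm
    _ = _ := by simp only [h3]

/-! ### integrals -/

theorem avg {F A : (Fin (n + 1) → Fin 2) → X (n + 1) → ℝ}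
    (hA : ∀ s x, A s x = (n + 1 : ℝ)⁻¹ *
      ∑ i, F (s ∘ Equiv.swap 0 i) (x ∘ Equiv.swap 0 i)) (hF : ∀ s, Integrable (F s)) :
    ∑ s, ∫ x, A s x = ∑ s, ∫ x, F s x := by
  have hi : ∀ s (i : Fin (n + 1)), Integrable (fun x : X (n + 1) =>
      F (s ∘ Equiv.swap 0 i) (x ∘ Equiv.swap 0 i)) := fun s i =>
    ((measurePreserving_pc (Equiv.swap 0 i)).integrable_comp (hF _).1).mpr (hF _)
  have h1 : ∀ s, ∫ x, A s x = (n + 1 : ℝ)⁻¹ *
      ∑ i, ∫ x, F (s ∘ Equiv.swap 0 i) (x ∘ Equiv.swap 0 i) := by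
    intro s
    simp only [hA]
    rw [integral_const_mul, integral_finsetSum _ fun i _ => hi s i]
  simp only [h1]
  rw [← Finset.mul_sum, Finset.sum_comm]
  have h2 : ∀ i : Fin (n + 1), ∑ s : Fin (n + 1) → Fin 2,
      ∫ x, F (s ∘ Equiv.swap 0 i) (x ∘ Equiv.swap 0 i) = ∑ s, ∫ x, F s x := fun i =>
    integral_perm (Equiv.swap 0 i) F
  simp only [h2]
  rw [Finset.sum_const, Finset.card_univ, Fintype.card_fin, nsmul_eq_mul, ← mul_assoc]
  have h3 : (n + 1 : ℝ) ≠ 0 := by positivity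
  push_cast
  rw [inv_mul_cancel₀ h3, one_mul]

theorem split {g : (Fin (n + 1) → Fin 2) → X (n + 1) → ℝ}
    (h1 : ∀ (s' : Fin n → Fin 2) x, g (Fin.cons 1 s' : Fin (n + 1) → Fin 2) x = 0) :
    ∑ s, ∫ x, g s x = ∑ s' : Fin n → Fin 2, ∫ p : R3 × X n,
      g (Fin.cons 0 s' : Fin (n + 1) → Fin 2) (Fin.cons p.1 p.2 : X (n + 1)) := by
  rw [sum_spin_cons, Fin.sum_univ_two]
  simp only [h1, integral_zero, Finset.sum_const_zero, add_zero, integral_cons]

theorem int_chi (hχ : ContDiff ℝ (⊤ : ℕ∞) χ) (hc : HasCompactSupport χ) :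
    Integrable fun u => (χ u) ^ 2 :=
  (hχ.continuous.pow 2).integrable_of_hasCompactSupport (by
    simp only [pow_two]
    exact hc.mul_left)

theorem int_psi (h : Adm n ψ) (s : Fin n → Fin 2) : Integrable fun y => (ψ s y) ^ 2 :=
  ((h.smooth s).continuous.pow 2).integrable_of_hasCompactSupport (by
    simp only [pow_two]
    exact (h.cpt s).mul_left)

theorem cpt_sq {m : ℕ} {f : X m → ℝ} (hc : HasCompactSupport f) :
    HasCompactSupport fun x => (f x) ^ 2 := by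
  simp only [pow_two]
  exact hc.mul_left

theorem cont_kind {m : ℕ} {f : X m → ℝ} (hf : ContDiff ℝ (⊤ : ℕ∞) f) : Continuous (kind f) := by
  unfold kind
  have h1 : Continuous (fderiv ℝ f) := hf.continuous_fderiv (by simp)
  fun_prop

theorem cpt_kind {m : ℕ} {f : X m → ℝ} (hc : HasCompactSupport f) :
    HasCompactSupport (kind f) := by
  refine (hc.fderiv (𝕜 := ℝ)).mono fun x hx => ?_
  rw [Function.mem_support] at hx ⊢
  intro h0
  refine hx ?_
  unfold kind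
  simp [h0]

theorem cont_gsq {f : R3 → ℝ} (hf : ContDiff ℝ (⊤ : ℕ∞) f) : Continuous (gsq f) := by
  unfold gsq
  have h1 : Continuous (fderiv ℝ f) := hf.continuous_fderiv (by simp)
  fun_prop

theorem cpt_gsq {f : R3 → ℝ} (hc : HasCompactSupport f) : HasCompactSupport (gsq f) := by
  refine (hc.fderiv (𝕜 := ℝ)).mono fun x hx => ?_
  rw [Function.mem_support] at hx ⊢
  intro h0
  refine hx ?_
  unfold gsq
  simp [h0]

theorem attd_cons (u : R3) (y : X n) :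
    attd (Fin.cons u y : X (n + 1)) = 1 / ‖u‖ + attd y := by
  unfold attd
  rw [Fin.sum_univ_succ]
  simp

theorem repd_cons (u : R3) (y : X n) :
    repd (Fin.cons u y : X (n + 1)) = (∑ j : Fin n, 1 / ‖u - y j‖) + repd y := by
  unfold repd
  rw [Fin.sum_univ_succ]
  congr 1
  · rw [Fin.sum_univ_succ]
    simp
  · refine Finset.sum_congr rfl fun i _ => ?_
    rw [Fin.sum_univ_succ]
    simp

theorem nrm_om :
    ∑ s, ∫ x, (om ψ χ s x) ^ 2 = nrm ψ * ∫ u, (χ u) ^ 2 := by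
  rw [split fun s' x => by rw [om_one]; norm_num]
  unfold nrm
  rw [Finset.sum_mul]
  refine Finset.sum_congr rfl fun s _ => ?_
  simp only [om_zero, mul_pow]
  rw [mul_comm]
  exact integral_prod_mul (fun u => (χ u) ^ 2) (fun y : X n => (ψ s y) ^ 2)

theorem kind_om (h : Adm n ψ) (hχ : ContDiff ℝ (⊤ : ℕ∞) χ) (s : Fin n → Fin 2) (u : R3)
    (y : X n) : kind (om ψ χ (Fin.cons 0 s : Fin (n + 1) → Fin 2)) (Fin.cons u y : X (n + 1)) =
      gsq χ u * (ψ s y) ^ 2 + (χ u) ^ 2 * kind (ψ s) y := by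
  have hd : Differentiable ℝ (om ψ χ (Fin.cons 0 s : Fin (n + 1) → Fin 2)) :=
    (om_smooth h hχ _).differentiable (by simp)
  have hχd : Differentiable ℝ χ := hχ.differentiable (by simp)
  have hψd : Differentiable ℝ (ψ s) := (h.smooth s).differentiable (by simp)
  unfold kind gsq
  rw [Fin.sum_univ_succ]
  congr 1
  · rw [Finset.sum_mul]
    refine Finset.sum_congr rfl fun k _ => ?_
    rw [← fderiv_cons_zero hd]
    simp only [om_zero]
    rw [((hχd u).hasFDerivAt.mul_const (ψ s y)).fderiv, smul_apply, smul_eq_mul]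
    ring
  · rw [Finset.mul_sum]
    refine Finset.sum_congr rfl fun i _ => ?_
    rw [Finset.mul_sum]
    refine Finset.sum_congr rfl fun k _ => ?_
    rw [← fderiv_cons_succ hd]
    simp only [om_zero]
    rw [((hψd y).hasFDerivAt.const_mul (χ u)).fderiv, smul_apply, smul_eq_mul]
    ring

theorem kin_om (h : Adm n ψ) (hχ : ContDiff ℝ (⊤ : ℕ∞) χ) (hc : HasCompactSupport χ) :
    ∑ s, ∫ x, kind (om ψ χ s) x = kin ψ * (∫ u, (χ u) ^ 2) + nrm ψ * ∫ u, gsq χ u := by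
  have h1 : ∀ (s' : Fin n → Fin 2) x,
      kind (om ψ χ (Fin.cons 1 s' : Fin (n + 1) → Fin 2)) x = 0 := by
    intro s' x
    have h2 : om ψ χ (Fin.cons 1 s' : Fin (n + 1) → Fin 2) = fun _ => 0 :=
      funext fun y => om_one s' y
    rw [h2]
    unfold kind
    simp
  rw [split h1]
  unfold kin nrm
  rw [Finset.sum_mul, Finset.sum_mul, ← Finset.sum_add_distrib]
  refine Finset.sum_congr rfl fun s _ => ?_
  simp only [kind_om h hχ]
  have i1 : Integrable (fun p : R3 × X n => gsq χ p.1 * (ψ s p.2) ^ 2) :=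
    ((cont_gsq hχ).integrable_of_hasCompactSupport (cpt_gsq hc)).mul_prod (int_psi h s)
  have i2 : Integrable (fun p : R3 × X n => (χ p.1) ^ 2 * kind (ψ s) p.2) :=
    (int_chi hχ hc).mul_prod
      ((cont_kind (h.smooth s)).integrable_of_hasCompactSupport (cpt_kind (h.cpt s)))
  rw [integral_add i1 i2]
  have e1 := integral_prod_mul (μ := (volume : Measure R3)) (ν := (volume : Measure (X n)))
    (gsq χ) (fun y : X n => (ψ s y) ^ 2)
  have e2 := integral_prod_mul (μ := (volume : Measure R3)) (ν := (volume : Measure (X n)))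
    (fun u => (χ u) ^ 2) (kind (ψ s))
  have e1' : ∫ p : R3 × X n, gsq χ p.1 * (ψ s p.2) ^ 2 =
    (∫ u, gsq χ u) * ∫ y, (ψ s y) ^ 2 := e1
  have e2' : ∫ p : R3 × X n, (χ p.1) ^ 2 * kind (ψ s) p.2 =
    (∫ u, (χ u) ^ 2) * ∫ y, kind (ψ s) y := e2
  rw [e1', e2']
  ring

theorem att_om (h : Adm n ψ) (hχ : ContDiff ℝ (⊤ : ℕ∞) χ) (hc : HasCompactSupport χ) :
    att ψ * (∫ u, (χ u) ^ 2) ≤ ∑ s, ∫ x, attd x * (om ψ χ s x) ^ 2 := by
  rw [split fun s' x => by rw [om_one]; norm_num]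
  unfold att
  rw [Finset.sum_mul]
  refine Finset.sum_le_sum fun s _ => ?_
  have e1 : ∫ p : R3 × X n, (χ p.1) ^ 2 * (attd p.2 * (ψ s p.2) ^ 2) =
      (∫ u, (χ u) ^ 2) * ∫ y, attd y * (ψ s y) ^ 2 :=
    integral_prod_mul (μ := (volume : Measure R3)) (ν := (volume : Measure (X n)))
      (fun u => (χ u) ^ 2) (fun y : X n => attd y * (ψ s y) ^ 2)
  rw [mul_comm, ← e1]
  have i1 : Integrable (fun p : R3 × X n => (χ p.1) ^ 2 * (attd p.2 * (ψ s p.2) ^ 2)) :=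
    (int_chi hχ hc).mul_prod
      (integrable_attd ((h.smooth s).continuous.pow 2) (cpt_sq (h.cpt s)))
  have i2 : Integrable (fun p : R3 × X n => attd (Fin.cons p.1 p.2 : X (n + 1)) *
      (om ψ χ (Fin.cons 0 s : Fin (n + 1) → Fin 2) (Fin.cons p.1 p.2 : X (n + 1))) ^ 2) :=
    integrable_cons (integrable_attd ((om_smooth h hχ _).continuous.pow 2)
      (cpt_sq (om_cpt h hc _)))
  refine integral_mono i1 i2 fun p => ?_
  simp only [om_zero, attd_cons]
  have h1 : 0 ≤ 1 / ‖p.1‖ := by positivity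
  have h2 : 0 ≤ 1 / ‖p.1‖ * (χ p.1 * ψ s p.2) ^ 2 := by positivity
  nlinarith [h2]

theorem rep_om (h : Adm n ψ) (hχ : ContDiff ℝ (⊤ : ℕ∞) χ) (hc : HasCompactSupport χ)
    {D : ℝ} (hD : 0 < D) (hsep : ∀ s x u, ψ s x ≠ 0 → χ u ≠ 0 → ∀ i, D ≤ ‖x i - u‖) :
    ∑ s, ∫ x, repd x * (om ψ χ s x) ^ 2 ≤ (rep ψ + n / D * nrm ψ) * ∫ u, (χ u) ^ 2 := by
  rw [split fun s' x => by rw [om_one]; norm_num]
  unfold rep nrm
  rw [Finset.mul_sum, ← Finset.sum_add_distrib, Finset.sum_mul]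
  refine Finset.sum_le_sum fun s _ => ?_
  have i0 : Integrable (fun y : X n => repd y * (ψ s y) ^ 2) :=
    integrable_repd ((h.smooth s).continuous.pow 2) (cpt_sq (h.cpt s))
  have e0 : ∫ y, (repd y * (ψ s y) ^ 2 + n / D * (ψ s y) ^ 2) =
      (∫ y, repd y * (ψ s y) ^ 2) + n / D * ∫ y, (ψ s y) ^ 2 := by
    rw [integral_add i0 ((int_psi h s).const_mul _), integral_const_mul]
  have e1 : ∫ p : R3 × X n, (χ p.1) ^ 2 *
      (repd p.2 * (ψ s p.2) ^ 2 + n / D * (ψ s p.2) ^ 2) =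
      (∫ u, (χ u) ^ 2) * ∫ y, (repd y * (ψ s y) ^ 2 + n / D * (ψ s y) ^ 2) :=
    integral_prod_mul (μ := (volume : Measure R3)) (ν := (volume : Measure (X n)))
      (fun u => (χ u) ^ 2) (fun y : X n => repd y * (ψ s y) ^ 2 + n / D * (ψ s y) ^ 2)
  rw [← e0, mul_comm, ← e1]
  have i1 : Integrable (fun p : R3 × X n => (χ p.1) ^ 2 *
      (repd p.2 * (ψ s p.2) ^ 2 + n / D * (ψ s p.2) ^ 2)) :=
    (int_chi hχ hc).mul_prod (i0.add ((int_psi h s).const_mul _))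
  have i2 : Integrable (fun p : R3 × X n => repd (Fin.cons p.1 p.2 : X (n + 1)) *
      (om ψ χ (Fin.cons 0 s : Fin (n + 1) → Fin 2) (Fin.cons p.1 p.2 : X (n + 1))) ^ 2) :=
    integrable_cons (integrable_repd ((om_smooth h hχ _).continuous.pow 2)
      (cpt_sq (om_cpt h hc _)))
  refine integral_mono i2 i1 fun p => ?_
  simp only [om_zero, repd_cons]
  by_cases h0 : χ p.1 * ψ s p.2 = 0
  · have h1 : (χ p.1 * ψ s p.2) ^ 2 = 0 := by rw [h0]; norm_num
    have h2 : (χ p.1) ^ 2 * (ψ s p.2) ^ 2 = 0 := by rw [← mul_pow]; exact h1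
    rw [h1]
    have h3 : (χ p.1) ^ 2 * (repd p.2 * (ψ s p.2) ^ 2 + n / D * (ψ s p.2) ^ 2) =
        (repd p.2 + n / D) * ((χ p.1) ^ 2 * (ψ s p.2) ^ 2) := by ring
    rw [h3, h2]
    simp
  · have h1 : ∀ j, 1 / ‖p.1 - p.2 j‖ ≤ 1 / D := by
      intro j
      have h2 := hsep s p.2 p.1 (right_ne_zero_of_mul h0) (left_ne_zero_of_mul h0) j
      rw [norm_sub_rev] at h2
      exact one_div_le_one_div_of_le hD h2
    have h2 : ∑ j : Fin n, 1 / ‖p.1 - p.2 j‖ ≤ n / D := by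
      calc ∑ j : Fin n, 1 / ‖p.1 - p.2 j‖ ≤ ∑ _j : Fin n, 1 / D :=
            Finset.sum_le_sum fun j _ => h1 j
        _ = n / D := by
            rw [Finset.sum_const, Finset.card_univ, Fintype.card_fin, nsmul_eq_mul]
            ring
    have h3 : 0 ≤ (χ p.1 * ψ s p.2) ^ 2 := sq_nonneg _
    nlinarith [mul_le_mul_of_nonneg_right h2 h3]

end

end Far

open Far

/-- antisymmetrised product with a one-electron function `χ` supported at distance `≥ D` -/
theorem antisym_prod {ψ : (Fin n → Fin 2) → X n → ℝ} (h : Adm n ψ) {χ : R3 → ℝ}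
    (hχ : ContDiff ℝ (⊤ : ℕ∞) χ) (hc : HasCompactSupport χ) {D : ℝ} (hD : 0 < D)
    (hsep : ∀ s x u, ψ s x ≠ 0 → χ u ≠ 0 → ∀ i, D ≤ ‖x i - u‖) :
    ∃ Φ : (Fin (n + 1) → Fin 2) → X (n + 1) → ℝ, Adm (n + 1) Φ ∧
      nrm Φ = nrm ψ * ∫ u, (χ u) ^ 2 ∧
      kin Φ = kin ψ * (∫ u, (χ u) ^ 2) + nrm ψ * ∫ u, gsq χ u ∧
      att ψ * (∫ u, (χ u) ^ 2) ≤ att Φ ∧
      rep Φ ≤ (rep ψ + n / D * nrm ψ) * ∫ u, (χ u) ^ 2 := by
  refine ⟨Ph ψ χ, Ph_adm h hχ hc, ?_, ?_, ?_, ?_⟩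
  · rw [← nrm_om]
    exact avg (F := fun s x => (om ψ χ s x) ^ 2) (Ph_sq hD hsep) fun s =>
      ((om_smooth h hχ s).continuous.pow 2).integrable_of_hasCompactSupport
        (Far.cpt_sq (om_cpt h hc s))
  · rw [← kin_om h hχ hc]
    exact avg (F := fun s x => kind (om ψ χ s) x) (Ph_kind h hχ hD hsep) fun s =>
      (cont_kind (om_smooth h hχ s)).integrable_of_hasCompactSupport
        (cpt_kind (om_cpt h hc s))
  · refine (att_om h hχ hc).trans_eq (Eq.symm ?_)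
    refine avg (F := fun s x => attd x * (om ψ χ s x) ^ 2) (fun s x => ?_) fun s =>
      integrable_attd ((om_smooth h hχ s).continuous.pow 2) (Far.cpt_sq (om_cpt h hc s))
    rw [Ph_sq hD hsep]
    simp only [attd_pc]
    rw [← Finset.mul_sum]
    ring
  · refine (rep_om h hχ hc hD hsep).trans' (le_of_eq ?_)
    refine avg (F := fun s x => repd x * (om ψ χ s x) ^ 2) (fun s x => ?_) fun s =>
      integrable_repd ((om_smooth h hχ s).continuous.pow 2) (Far.cpt_sq (om_cpt h hc s))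
    rw [Ph_sq hD hsep]
    simp only [repd_pc]
    rw [← Finset.mul_sum]
    ring

end Pool.Agent.Lib.CX
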