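import Mathlib
import Pool.Agent.Lib.CX.Basic
import Pool.Agent.Lib.CX.Integ
import Pool.Agent.Lib.CX.Slice
import Pool.Agent.Lib.CX.Bdd
import Pool.Agent.Lib.CX.Far

/-! CX task A7: one more electron far away. -/

set_option autoImplicit false

open MeasureTheory Set

noncomputable section

namespace Pool.Agent.Lib.CX

variable {n : ℕ} {t : ℝ}

/-- A normalised smooth function with compact support. -/
theorem Mono_bump : ∃ (χ : R3 → ℝ) (r : ℝ), ContDiff ℝ (⊤ : ℕ∞) χ ∧ 0 < r ∧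
    (∀ u, χ u ≠ 0 → ‖u‖ ≤ r) ∧ ∫ u, (χ u) ^ 2 = 1 := by
  let b : ContDiffBump (0 : R3) := ⟨1, 2, one_pos, one_lt_two⟩
  have hb : ContDiff ℝ (⊤ : ℕ∞) (b : R3 → ℝ) := b.contDiff
  have hc : HasCompactSupport (b : R3 → ℝ) := b.hasCompactSupport
  have hsq : Continuous fun u : R3 => (b u) ^ 2 := hb.continuous.pow 2
  have hsc : HasCompactSupport fun u : R3 => (b u) ^ 2 :=
    hc.comp_left (g := fun x : ℝ => x ^ 2) (by norm_num)
  have hpos : 0 < ∫ u, (b u) ^ 2 := by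
    refine hsq.integral_pos_of_hasCompactSupport_nonneg_nonzero hsc
      (fun u => sq_nonneg _) (x := 0) ?_
    have h1 : b (0 : R3) = 1 := b.one_of_mem_closedBall (by simp [b])
    rw [h1]
    norm_num
  set I := ∫ u, (b u) ^ 2 with hI
  refine ⟨fun u => (Real.sqrt I)⁻¹ * b u, 2, contDiff_const.mul hb, by norm_num, ?_, ?_⟩
  · intro u hu
    have h2 : b u ≠ 0 := fun h => hu (by
      change (Real.sqrt I)⁻¹ * b u = 0
      rw [h, mul_zero])
    have h3 : u ∈ Function.support (b : R3 → ℝ) := h2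
    rw [b.support_eq] at h3
    have h4 : dist u 0 < 2 := h3
    rw [dist_zero_right] at h4
    exact h4.le
  · have h5 : ∀ u : R3, ((Real.sqrt I)⁻¹ * b u) ^ 2 = I⁻¹ * (b u) ^ 2 := by
      intro u
      rw [mul_pow, inv_pow, Real.sq_sqrt hpos.le]
    simp only [h5]
    rw [integral_const_mul, ← hI, inv_mul_cancel₀ hpos.ne']

/-- Scaling and translation. -/
theorem Mono_scale (f : R3 → ℝ) (v : R3) {L : ℝ} (hL : 0 < L) :
    ∫ u, f (L⁻¹ • (u - v)) = L ^ 3 * ∫ u, f u := by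
  rw [integral_sub_right_eq_self (fun u => f (L⁻¹ • u)) v, Measure.integral_comp_smul,
    smul_eq_mul]
  congr 1
  have h1 : Module.finrank ℝ R3 = 3 := by simp
  rw [h1, abs_of_pos (by positivity), inv_pow, inv_inv]

/-- adding a far away electron changes the energy arbitrarily little -/
theorem add_far {ψ : (Fin n → Fin 2) → X n → ℝ} (h : Adm n ψ) (h1 : nrm ψ = 1) {δ : ℝ}
    (hδ : 0 < δ) :
    ∃ Φ : (Fin (n + 1) → Fin 2) → X (n + 1) → ℝ, Adm (n + 1) Φ ∧ nrm Φ = 1 ∧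
      kin Φ ≤ kin ψ + δ ∧ att ψ ≤ att Φ ∧ rep Φ ≤ rep ψ + δ := by
  classical
  -- the supports are bounded
  obtain ⟨R, hR0, hR⟩ : ∃ R : ℝ, 0 ≤ R ∧ ∀ s x, ψ s x ≠ 0 → ∀ i, ‖x i‖ ≤ R := by
    have h2 : ∀ s, ∃ R : ℝ, ∀ x, ψ s x ≠ 0 → ‖x‖ ≤ R := by
      intro s
      obtain ⟨R, hR⟩ := (h.cpt s).isCompact.isBounded.exists_norm_le
      exact ⟨R, fun x hx => hR x (subset_tsupport _ hx)⟩
    choose R hR using h2
    refine ⟨∑ s, |R s|, Finset.sum_nonneg fun s _ => abs_nonneg _, fun s x hx i => ?_⟩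
    exact (norm_le_pi_norm x i).trans ((hR s x hx).trans ((le_abs_self _).trans
      (Finset.single_le_sum (f := fun s => |R s|) (fun s _ => abs_nonneg _) (Finset.mem_univ s))))
  obtain ⟨χ₀, r, hχ, hr, hsupp, hone⟩ := Mono_bump
  have hχd : Differentiable ℝ χ₀ := hχ.differentiable (by simp)
  set G := ∫ u, gsq χ₀ u with hG
  have hG0 : 0 ≤ G := integral_nonneg fun u => Finset.sum_nonneg fun k _ => sq_nonneg _
  -- the scale
  obtain ⟨L, hL, hLG⟩ : ∃ L : ℝ, 0 < L ∧ L⁻¹ ^ 2 * G ≤ δ := by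
    refine ⟨Real.sqrt (G / δ + 1), Real.sqrt_pos.2 (by positivity), ?_⟩
    rw [inv_pow, Real.sq_sqrt (by positivity), inv_mul_le_iff₀ (by positivity)]
    have h3 : (G / δ + 1) * δ = G + δ := by field_simp
    rw [h3]
    linarith
  -- the distance
  obtain ⟨D, hD, hDn⟩ : ∃ D : ℝ, 0 < D ∧ (n : ℝ) / D ≤ δ := by
    refine ⟨(n + 1) / δ, by positivity, ?_⟩
    rw [div_div_eq_mul_div, div_le_iff₀ (by positivity)]
    nlinarith
  obtain ⟨v, hv⟩ : ∃ v : R3, ‖v‖ = R + L * r + D := by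
    refine ⟨(R + L * r + D) • e3 0, ?_⟩
    have h4 : ‖e3 0‖ = 1 := by simp [e3]
    rw [norm_smul, h4, mul_one, Real.norm_of_nonneg (by positivity)]
  set a : ℝ := Real.sqrt (L⁻¹ ^ 3) with ha
  have ha2 : a ^ 2 = L⁻¹ ^ 3 := Real.sq_sqrt (by positivity)
  let χ : R3 → ℝ := fun u => a * χ₀ (L⁻¹ • (u - v))
  have hχs : ContDiff ℝ (⊤ : ℕ∞) χ := by
    have h16 : ContDiff ℝ (⊤ : ℕ∞) (fun u : R3 => L⁻¹ • (u - v)) :=
      (contDiff_id.sub contDiff_const).const_smul L⁻¹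
    exact contDiff_const.mul (hχ.comp h16)
  have hχsupp : ∀ u, χ u ≠ 0 → ‖u - v‖ ≤ L * r := by
    intro u hu
    have h5 : χ₀ (L⁻¹ • (u - v)) ≠ 0 := fun h => hu (by
      change a * χ₀ (L⁻¹ • (u - v)) = 0
      rw [h, mul_zero])
    have h6 := hsupp _ h5
    rw [norm_smul, Real.norm_of_nonneg (by positivity), inv_mul_le_iff₀ hL] at h6
    exact h6
  have hχc : HasCompactSupport χ := by
    refine HasCompactSupport.of_support_subset_isCompact (isCompact_closedBall v (L * r)) ?_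
    intro u hu
    rw [mem_closedBall_iff_norm]
    exact hχsupp u hu
  have hχ1 : ∫ u, (χ u) ^ 2 = 1 := by
    have h7 : ∀ u, (χ u) ^ 2 = L⁻¹ ^ 3 * (fun w => (χ₀ w) ^ 2) (L⁻¹ • (u - v)) := by
      intro u
      change (a * χ₀ (L⁻¹ • (u - v))) ^ 2 = _
      rw [mul_pow, ha2]
    simp only [h7]
    rw [integral_const_mul, Mono_scale (fun w => (χ₀ w) ^ 2) v hL, hone, mul_one, ← mul_pow,
      inv_mul_cancel₀ hL.ne', one_pow]
  have hχ2 : ∫ u, gsq χ u = L⁻¹ ^ 2 * G := by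
    have h8 : ∀ u, gsq χ u = L⁻¹ ^ 5 * gsq χ₀ (L⁻¹ • (u - v)) := by
      intro u
      have h9 : HasFDerivAt χ (a • ((fderiv ℝ χ₀ (L⁻¹ • (u - v))).comp
          (L⁻¹ • ContinuousLinearMap.id ℝ R3))) u := by
        have h10 : HasFDerivAt (fun u : R3 => L⁻¹ • (u - v)) (L⁻¹ • ContinuousLinearMap.id ℝ R3)
            u := ((hasFDerivAt_id u).sub_const v).const_smul L⁻¹
        exact ((hχd _).hasFDerivAt.comp u h10).const_mul a
      unfold gsq
      rw [h9.fderiv, Finset.mul_sum]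
      refine Finset.sum_congr rfl fun k _ => ?_
      simp only [ContinuousLinearMap.smul_apply, ContinuousLinearMap.comp_apply,
        ContinuousLinearMap.id_apply, map_smul, smul_eq_mul]
      rw [mul_pow, mul_pow, ha2]
      ring
    simp only [h8]
    rw [integral_const_mul, Mono_scale (gsq χ₀) v hL]
    have h11 : L⁻¹ ^ 5 * (L ^ 3 * G) = L⁻¹ ^ 2 * G * (L⁻¹ * L) ^ 3 := by ring
    rw [← hG, h11, inv_mul_cancel₀ hL.ne', one_pow, mul_one]
  have hsep : ∀ s x u, ψ s x ≠ 0 → χ u ≠ 0 → ∀ i, D ≤ ‖x i - u‖ := by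
    intro s x u hx hu i
    have h12 := hR s x hx i
    have h13 := hχsupp u hu
    have h14 : ‖v‖ ≤ ‖x i‖ + ‖x i - u‖ + ‖u - v‖ := by
      have h15 : v = x i - (x i - u) - (u - v) := by abel
      calc ‖v‖ = ‖x i - (x i - u) - (u - v)‖ := by rw [← h15]
        _ ≤ ‖x i - (x i - u)‖ + ‖u - v‖ := norm_sub_le _ _
        _ ≤ ‖x i‖ + ‖x i - u‖ + ‖u - v‖ := by
          gcongr
          exact norm_sub_le _ _
    rw [hv] at h14
    linarith
  obtain ⟨Φ, hΦ, a1, a2, a3, a4⟩ := antisym_prod h hχs hχc hD hsep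
  rw [hχ1] at a1 a2 a3 a4
  rw [hχ2, h1] at a2
  rw [h1] at a1 a4
  refine ⟨Φ, hΦ, by rw [a1, one_mul], ?_, by rwa [mul_one] at a3, ?_⟩
  · rw [a2]
    linarith
  · rw [mul_one, mul_one] at a4
    linarith

theorem Mono_exists (n : ℕ) : ∃ ψ : (Fin n → Fin 2) → X n → ℝ, Adm n ψ ∧ nrm ψ = 1 := by
  induction n with
  | zero =>
    refine ⟨fun _ _ => 1, ⟨fun s => contDiff_const, fun s => ?_, fun σ s x => ?_⟩, ?_⟩
    · exact HasCompactSupport.of_compactSpace _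
    · have h1 : σ = 1 := Subsingleton.elim _ _
      rw [h1, Equiv.Perm.sign_one]
      simp
    · unfold nrm
      have h2 : (volume : Measure (X 0)) = Measure.dirac default := by
        rw [volume_pi]
        exact Measure.pi_of_empty _ _
      rw [h2]
      simp
  | succ n ih =>
    obtain ⟨ψ, h, h1⟩ := ih
    obtain ⟨Φ, hΦ, h2, -⟩ := add_far h h1 one_pos
    exact ⟨Φ, hΦ, h2⟩

theorem eSet_nonempty (n : ℕ) (t : ℝ) : (eSet n t).Nonempty := by
  obtain ⟨ψ, h, h1⟩ := Mono_exists n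
  exact ⟨_, ψ, h, h1, rfl⟩

theorem eps_succ_le (n : ℕ) (ht : 0 ≤ t) : eps (n + 1) t ≤ eps n t := by
  refine le_of_forall_pos_le_add fun ε hε => ?_
  set δ : ℝ := ε / (2 + t) with hδ
  have hδ0 : 0 < δ := by positivity
  have hδ1 : δ * (2 + t) = ε := by
    rw [hδ]
    field_simp
  obtain ⟨ψ, h, h1, h2⟩ := exists_near (eSet_nonempty n t) hδ0
  obtain ⟨Φ, hΦ, a1, a2, a3, a4⟩ := add_far h h1 hδ0
  have h3 : eps (n + 1) t ≤ en t Φ := csInf_le (eSet_bddBelow (n + 1) ht) ⟨Φ, hΦ, a1, rfl⟩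
  have h4 : en t Φ ≤ en t ψ + (1 + t) * δ := by
    unfold en
    nlinarith
  nlinarith

end Pool.Agent.Lib.CX
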