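import Mathlib
import Pool.Agent.Lib.CX.Basic
import Pool.Agent.Lib.CX.Bdd
import Pool.Agent.Lib.CX.Dil
import Pool.Agent.Lib.CX.Mono
import Pool.Agent.Lib.CX.BrB

/-! CX: the energies of the problem in terms of `eps`. -/

set_option autoImplicit false

open MeasureTheory Set

noncomputable section

namespace Pool.Agent.Lib.CX

theorem sInf_FSet (n : ℕ) {Z : ℝ} (hZ : 0 < Z) : sInf (FSet n Z) = Z ^ 2 * eps n (1 / Z) := by
  have ht : 0 ≤ 1 / Z := by positivity
  have low : ∀ u : (Fin n → Fin 2) → X n → ℝ, Adm n u →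
      Z ^ 2 * eps n (1 / Z) * nrm u ≤ kin u - Z * att u + rep u := by
    intro u hu
    have h := eps_le_dilate ht hu (l := 1 / Z) (by positivity)
    have h2 := mul_le_mul_of_nonneg_left h (by positivity : 0 ≤ Z ^ 2)
    have e : Z ^ 2 * ((1 / Z) ^ 2 * kin u - 1 / Z * (att u - 1 / Z * rep u))
        = kin u - Z * att u + rep u := by
      field_simp
      ring
    rw [e] at h2
    linarith
  have hlow : ∀ e ∈ FSet n Z, Z ^ 2 * eps n (1 / Z) ≤ e := by
    intro e he
    obtain ⟨u, v, hu, hv, h1, rfl⟩ := FSet_real he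
    have a := low u hu
    have b := low v hv
    have : Z ^ 2 * eps n (1 / Z) = Z ^ 2 * eps n (1 / Z) * nrm u + Z ^ 2 * eps n (1 / Z) * nrm v := by
      rw [← mul_add, h1, mul_one]
    linarith
  have hup : ∀ ψ : (Fin n → Fin 2) → X n → ℝ, Adm n ψ → nrm ψ = 1 →
      Z ^ 2 * en (1 / Z) ψ ∈ FSet n Z := by
    intro ψ hψ h1
    obtain ⟨φ, hφ, e1, e2, e3, e4⟩ := dilate hψ hZ
    have := real_mem_FSet hφ (e1.trans h1) Z
    rw [e2, e3, e4] at this
    have e : Z ^ 2 * en (1 / Z) ψ = Z ^ 2 * kin ψ - Z * (Z * att ψ) + Z * rep ψ := by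
      unfold en
      field_simp
    rw [e]
    exact this
  obtain ⟨ψ, hψ, h1, -⟩ := exists_near (eSet_nonempty n (1 / Z)) (zero_lt_one)
  apply le_antisymm
  · have hb : BddBelow (FSet n Z) := ⟨_, fun e he => hlow e he⟩
    have h3 : sInf (FSet n Z) / Z ^ 2 ≤ eps n (1 / Z) := by
      refine le_eps (eSet_nonempty n (1 / Z)) fun φ hφ h2 => ?_
      rw [div_le_iff₀ (by positivity)]
      have := csInf_le hb (hup φ hφ h2)
      linarith
    rw [div_le_iff₀ (by positivity)] at h3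
    linarith
  · exact le_csInf ⟨_, hup ψ hψ h1⟩ hlow

end Pool.Agent.Lib.CX
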