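import Mathlib
import Pool.Agent.Lib.CX.Basic
import Pool.Agent.Lib.CX.Integ
import Pool.Agent.Lib.CX.Slice
import Pool.Agent.Lib.CX.Perm
import Pool.Agent.Lib.CX.Bdd
import Pool.Agent.Lib.CX.Kin

/-! CX: the polarised energy form tested with the multiplier `∑ g(x_i)`. -/

set_option autoImplicit false

open MeasureTheory Set

noncomputable section

namespace Pool.Agent.Lib.CX

variable {n : ℕ}

/-- the symmetric multiplier -/
def gs (μ κ : ℝ) (x : X n) : ℝ := ∑ i : Fin n, gw μ κ (x i)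

/-- `∑ᵢ ⟨g(xᵢ)⟩` -/
def Gm (μ κ : ℝ) (ψ : (Fin n → Fin 2) → X n → ℝ) : ℝ := ∑ s, ∫ x, gs μ κ x * (ψ s x) ^ 2

/-- polarised energy form minus `c` times the scalar product, at `(gψ, ψ)` -/
def BL (μ κ t c : ℝ) (ψ : (Fin n → Fin 2) → X n → ℝ) : ℝ :=
  ∑ s, ∫ x, ((∑ i : Fin n, ∑ k : Fin 3,
      fderiv ℝ (fun y => gs μ κ y * ψ s y) x (ed i k) * fderiv ℝ (ψ s) x (ed i k))
    - attd x * (gs μ κ x * (ψ s x) ^ 2) + t * (repd x * (gs μ κ x * (ψ s x) ^ 2))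
    - c * (gs μ κ x * (ψ s x) ^ 2))

end Pool.Agent.Lib.CX
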