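import Mathlib
import Pool.Agent.Lib.CX.Basic
import Pool.Agent.Lib.CX.Integ
import Pool.Agent.Lib.CX.Slice
import Pool.Agent.Lib.CX.Perm
import Pool.Agent.Lib.CX.Bdd

/-! CX task A5: the energy of the particles `1, ..., n` when particle `0` is frozen. -/

set_option autoImplicit false

open MeasureTheory Set

noncomputable section

namespace Pool.Agent.Lib.CX

variable {n : ℕ} {t : ℝ}

/-- attraction and repulsion of the particles `1, ..., n` against a continuous function -/
theorem integrable_attd_tail {f : X (n + 1) → ℝ} (hf : Continuous f) (hc : HasCompactSupport f) :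
    Integrable (fun x => attd (Fin.tail x : X n) * f x) := by
  have h1 : (fun x : X (n + 1) => attd (Fin.tail x : X n) * f x) =
      fun x => ∑ i : Fin n, 1 / ‖x i.succ‖ * f x := by
    funext x
    simp only [attd, Finset.sum_mul, Fin.tail]
  rw [h1]
  exact integrable_finsetSum _ fun i _ => integrable_inv_coord hf hc i.succ

theorem integrable_repd_tail {f : X (n + 1) → ℝ} (hf : Continuous f) (hc : HasCompactSupport f) :
    Integrable (fun x => repd (Fin.tail x : X n) * f x) := by
  have h1 : (fun x : X (n + 1) => repd (Fin.tail x : X n) * f x) =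
      fun x => ∑ i : Fin n, ∑ j : Fin n, if i < j then 1 / ‖x i.succ - x j.succ‖ * f x else 0 := by
    funext x
    simp only [repd, Finset.sum_mul, Fin.tail, ite_mul, zero_mul]
  rw [h1]
  refine integrable_finsetSum _ fun i _ => integrable_finsetSum _ fun j _ => ?_
  by_cases hij : i < j
  · simp only [hij, if_true]
    exact integrable_inv_sub hf hc fun h => hij.ne (Fin.succ_injective _ h)
  · simp only [hij, if_false]
    exact integrable_zero _ _ _

/-- the integrand of the energy of the particles `1, ..., n` -/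
def restd (t : ℝ) (f : X (n + 1) → ℝ) (x : X (n + 1)) : ℝ :=
  (∑ i : Fin n, kinp f i.succ x) - attd (Fin.tail x : X n) * (f x) ^ 2
    + t * (repd (Fin.tail x : X n) * (f x) ^ 2)

/-- the slice -/
def slc (ψ : (Fin (n + 1) → Fin 2) → X (n + 1) → ℝ) (a : Fin 2) (u : R3) :
    (Fin n → Fin 2) → X n → ℝ :=
  fun s y => ψ (Fin.cons a s : Fin (n + 1) → Fin 2) (Fin.cons u y : X (n + 1))

theorem rest_slice {ψ : (Fin (n + 1) → Fin 2) → X (n + 1) → ℝ} (h : Adm (n + 1) ψ) (a : Fin 2)
    (u : R3) : ∑ s : Fin n → Fin 2, ∫ y : X n,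
      restd t (ψ (Fin.cons a s : Fin (n + 1) → Fin 2)) (Fin.cons u y : X (n + 1)) =
        en t (slc ψ a u) := by
  have hA : Adm n (slc ψ a u) := slice_adm h a u
  have e1 : ∀ (s : Fin n → Fin 2) (y : X n),
      restd t (ψ (Fin.cons a s : Fin (n + 1) → Fin 2)) (Fin.cons u y : X (n + 1)) =
        kind (slc ψ a u s) y - 1 * (attd y * (slc ψ a u s y) ^ 2) +
          t * (repd y * (slc ψ a u s y) ^ 2) := by
    intro s y
    have k1 : ∀ i : Fin n, kinp (ψ (Fin.cons a s : Fin (n + 1) → Fin 2)) i.succ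
        (Fin.cons u y : X (n + 1)) = kinp (slc ψ a u s) i y := by
      intro i
      unfold kinp
      refine Finset.sum_congr rfl fun k _ => ?_
      rw [← fderiv_cons_succ ((h.smooth _).differentiable (by simp))]
      rfl
    unfold restd
    simp only [k1, Fin.tail_cons, one_mul]
    rfl
  have i1 : ∀ s, Integrable (kind (slc ψ a u s)) := fun s =>
    integrable_finsetSum _ fun i _ => int_kinp hA s i
  have e2 : ∀ s : Fin n → Fin 2, ∫ y : X n,
      restd t (ψ (Fin.cons a s : Fin (n + 1) → Fin 2)) (Fin.cons u y : X (n + 1)) =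
        (∫ y, kind (slc ψ a u s) y) - 1 * (∫ y, attd y * (slc ψ a u s y) ^ 2) +
          t * ∫ y, repd y * (slc ψ a u s y) ^ 2 := by
    intro s
    simp only [e1]
    exact int3_nonneg 1 t (i1 s) (integrable_attd (cont_sq hA s) (cpt_sq hA s))
      (integrable_repd (cont_sq hA s) (cpt_sq hA s))
  simp only [e2, en, kin, att, rep]
  rw [Finset.sum_add_distrib, Finset.sum_sub_distrib, Finset.mul_sum]
  simp only [one_mul]

theorem integrable_restd {ψ : (Fin (n + 1) → Fin 2) → X (n + 1) → ℝ} (h : Adm (n + 1) ψ)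
    {w : R3 → ℝ} (hw : Continuous w) (s : Fin (n + 1) → Fin 2) :
    Integrable fun x => w (x 0) * restd t (ψ s) x := by
  have hw' : Continuous fun x : X (n + 1) => w (x 0) := hw.comp (continuous_apply 0)
  have c1 : Continuous fun x => w (x 0) * (ψ s x) ^ 2 := hw'.mul (cont_sq h s)
  have c2 : HasCompactSupport fun x => w (x 0) * (ψ s x) ^ 2 := (cpt_sq h s).mul_left
  have i1 : ∀ i : Fin n, Integrable fun x => w (x 0) * kinp (ψ s) i.succ x := fun i =>
    (hw'.mul (cont_kinp (h.smooth s) i.succ)).integrable_of_hasCompactSupport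
      (cpt_kinp (h.cpt s) i.succ).mul_left
  have i2 := integrable_attd_tail c1 c2
  have i3 := integrable_repd_tail c1 c2
  have i4 : Integrable fun x => ∑ i : Fin n, w (x 0) * kinp (ψ s) i.succ x :=
    integrable_finsetSum _ fun i _ => i1 i
  refine ((i4.sub i2).add (i3.const_mul t)).congr (Filter.Eventually.of_forall fun x => ?_)
  simp only [restd, Pi.add_apply, Pi.sub_apply, ← Finset.mul_sum]
  ring

theorem rest_bound (ht : 0 ≤ t) {ψ : (Fin (n + 1) → Fin 2) → X (n + 1) → ℝ}
    (h : Adm (n + 1) ψ) {w : R3 → ℝ} (hw : Continuous w) (hw0 : ∀ u, 0 ≤ w u) :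
    eps n t * ∑ s, ∫ x, w (x 0) * (ψ s x) ^ 2
      ≤ ∑ s, ∫ x, w (x 0) * ((∑ i : Fin n, kinp (ψ s) i.succ x)
          - attd (Fin.tail x : X n) * (ψ s x) ^ 2
          + t * (repd (Fin.tail x : X n) * (ψ s x) ^ 2)) := by
  change _ ≤ ∑ s, ∫ x, w (x 0) * restd t (ψ s) x
  have hw' : Continuous fun x : X (n + 1) => w (x 0) := hw.comp (continuous_apply 0)
  have j1 : ∀ s, Integrable fun x => w (x 0) * (ψ s x) ^ 2 := fun s =>
    (hw'.mul (cont_sq h s)).integrable_of_hasCompactSupport (cpt_sq h s).mul_left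
  have j2 : ∀ s, Integrable fun x => w (x 0) * restd t (ψ s) x := integrable_restd h hw
  rw [sum_spin_cons, sum_spin_cons, Finset.mul_sum]
  refine Finset.sum_le_sum fun a _ => ?_
  have e1 : ∑ s : Fin n → Fin 2, ∫ x, w (x 0) *
      (ψ (Fin.cons a s : Fin (n + 1) → Fin 2) x) ^ 2 = ∫ u : R3, w u * nrm (slc ψ a u) := by
    have k1 : ∀ s : Fin n → Fin 2, ∫ x, w (x 0) *
      (ψ (Fin.cons a s : Fin (n + 1) → Fin 2) x) ^ 2 =
        ∫ u : R3, ∫ y : X n, w u * (slc ψ a u s y) ^ 2 := fun s => integral_cons_iter (j1 _)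
    simp only [k1]
    rw [← integral_finsetSum]
    · refine integral_congr_ae (Filter.Eventually.of_forall fun u => ?_)
      simp only [integral_const_mul, nrm, Finset.mul_sum]
    · intro s _
      exact (integrable_cons (j1 (Fin.cons a s : Fin (n + 1) → Fin 2))).integral_prod_left
  have e2 : ∑ s : Fin n → Fin 2, ∫ x, w (x 0) *
      restd t (ψ (Fin.cons a s : Fin (n + 1) → Fin 2)) x = ∫ u : R3, w u * en t (slc ψ a u) := by
    have k1 : ∀ s : Fin n → Fin 2, ∫ x, w (x 0) *
      restd t (ψ (Fin.cons a s : Fin (n + 1) → Fin 2)) x =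
        ∫ u : R3, ∫ y : X n, w u *
          restd t (ψ (Fin.cons a s : Fin (n + 1) → Fin 2)) (Fin.cons u y : X (n + 1)) :=
      fun s => integral_cons_iter (j2 _)
    simp only [k1]
    rw [← integral_finsetSum]
    · refine integral_congr_ae (Filter.Eventually.of_forall fun u => ?_)
      simp only [integral_const_mul]
      rw [← Finset.mul_sum, rest_slice h]
    · intro s _
      exact (integrable_cons (j2 (Fin.cons a s : Fin (n + 1) → Fin 2))).integral_prod_left
  have i1 : Integrable fun u : R3 => w u * nrm (slc ψ a u) := by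
    have k2 : Integrable fun u : R3 => ∑ s : Fin n → Fin 2, ∫ y : X n, w u * (slc ψ a u s y) ^ 2 :=
      integrable_finsetSum _ fun s _ =>
        (integrable_cons (j1 (Fin.cons a s : Fin (n + 1) → Fin 2))).integral_prod_left
    refine k2.congr (Filter.Eventually.of_forall fun u => ?_)
    simp only [integral_const_mul, nrm, Finset.mul_sum]
  have i2 : Integrable fun u : R3 => w u * en t (slc ψ a u) := by
    have k2 : Integrable fun u : R3 => ∑ s : Fin n → Fin 2, ∫ y : X n, w u *
        restd t (ψ (Fin.cons a s : Fin (n + 1) → Fin 2)) (Fin.cons u y : X (n + 1)) :=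
      integrable_finsetSum _ fun s _ =>
        (integrable_cons (j2 (Fin.cons a s : Fin (n + 1) → Fin 2))).integral_prod_left
    refine k2.congr (Filter.Eventually.of_forall fun u => ?_)
    simp only [integral_const_mul]
    rw [← Finset.mul_sum, rest_slice h]
  rw [e1, e2, ← integral_const_mul]
  refine integral_mono (i1.const_mul _) i2 fun u => ?_
  have h1 := eps_mul_le ht (slice_adm h a u)
  have h2 := mul_le_mul_of_nonneg_left h1 (hw0 u)
  calc eps n t * (w u * nrm (slc ψ a u)) = w u * (eps n t * nrm (slc ψ a u)) := by ring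
    _ ≤ w u * en t (slc ψ a u) := h2

/-- two electrons, no repulsion: `2 ε₁ ≤ ε₂` -/
theorem two_eps_one (ht : 0 ≤ t) (hne : (eSet 2 t).Nonempty) : 2 * eps 1 t ≤ eps 2 t := by
  refine le_eps hne fun ψ h h1 => ?_
  have h2 := rest_bound (n := 1) ht h (w := fun _ => 1) continuous_const fun _ => zero_le_one
  have e0 : ∑ s, ∫ x, (fun _ => (1 : ℝ)) ((x : X 2) 0) * (ψ s x) ^ 2 = 1 := by
    have h5 := h1
    unfold nrm at h5
    simpa only [one_mul] using h5
  have e1 : ∀ s, ∫ x, (fun _ => (1 : ℝ)) ((x : X 2) 0) * ((∑ i : Fin 1, kinp (ψ s) i.succ x)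
          - attd (Fin.tail x : X 1) * (ψ s x) ^ 2
          + t * (repd (Fin.tail x : X 1) * (ψ s x) ^ 2)) =
        (∫ x, kinp (ψ s) 1 x) - ∫ x, 1 / ‖x 1‖ * (ψ s x) ^ 2 := by
    intro s
    rw [← integral_sub (int_kinp h s 1) (integrable_inv_coord (cont_sq h s) (cpt_sq h s) 1)]
    refine integral_congr_ae (Filter.Eventually.of_forall fun x => ?_)
    simp [attd, repd, Fin.tail]
  rw [e0, mul_one] at h2
  simp only [e1] at h2
  rw [Finset.sum_sub_distrib] at h2
  have p1 := kinp_perm h (fun _ => 1) 1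
  have p2 := sq_perm h (fun u => 1 / ‖u‖) 1
  simp only [one_mul] at p1
  have k1 := kin_eq h
  have k2 := att_eq h
  rw [Fin.sum_univ_two] at k1 k2
  have h3 := mul_nonneg ht (rep_nonneg ψ)
  unfold en
  rw [k1, k2]
  linarith

end Pool.Agent.Lib.CX
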