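import Mathlib
import Pool.Agent.Lib.CX.LiebDef
import Pool.Agent.Lib.CX.Rest

/-! CX task B3: lower bound of the polarised form (Lieb's argument). -/

set_option autoImplicit false

open MeasureTheory Set

noncomputable section

namespace Pool.Agent.Lib.CX

variable {n : ℕ} {μ κ t c : ℝ}

namespace LiebLAux

/-- the repulsion felt by particle `m` -/
def rr {N : ℕ} (m : Fin N) (x : X N) : ℝ := ∑ j : Fin N, if j = m then 0 else 1 / ‖x m - x j‖

lemma rr_nonneg {N : ℕ} (m : Fin N) (x : X N) : 0 ≤ rr m x :=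
  Finset.sum_nonneg fun j _ => by split_ifs <;> positivity

lemma repd_eq {N : ℕ} (x : X N) : 2 * repd x = ∑ m, rr m x := by
  have h1 : ∑ m, rr m x = ∑ i : Fin N, ∑ j : Fin N,
      ((if i < j then 1 / ‖x i - x j‖ else 0) + (if j < i then 1 / ‖x j - x i‖ else 0)) := by
    unfold rr
    refine Finset.sum_congr rfl fun i _ => Finset.sum_congr rfl fun j _ => ?_
    rcases lt_trichotomy i j with h | h | h
    · rw [if_neg h.ne', if_pos h, if_neg h.not_gt, add_zero]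
    · subst h
      simp
    · rw [if_neg h.ne, if_neg h.not_gt, if_pos h, zero_add, norm_sub_rev]
  rw [h1]
  simp only [Finset.sum_add_distrib]
  rw [Finset.sum_comm (f := fun i j : Fin N => if j < i then 1 / ‖x j - x i‖ else 0)]
  unfold repd
  ring

lemma rr_perm {N : ℕ} (σ : Equiv.Perm (Fin N)) (m : Fin N) (x : X N) :
    rr m (x ∘ σ) = rr (σ m) x := by
  unfold rr
  rw [← Equiv.sum_comp σ (fun j => if j = σ m then (0 : ℝ) else 1 / ‖x (σ m) - x j‖)]
  refine Finset.sum_congr rfl fun j _ => ?_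
  simp only [Function.comp, EmbeddingLike.apply_eq_iff_eq]

lemma repd_perm {N : ℕ} (σ : Equiv.Perm (Fin N)) (x : X N) : repd (x ∘ σ) = repd x := by
  have h1 := repd_eq (x ∘ σ)
  have h2 := repd_eq x
  rw [Finset.sum_congr rfl fun m _ => rr_perm σ m x, Equiv.sum_comp σ (fun m => rr m x)] at h1
  linarith

lemma attd_perm {N : ℕ} (σ : Equiv.Perm (Fin N)) (x : X N) : attd (x ∘ σ) = attd x := by
  unfold attd
  exact Equiv.sum_comp σ (fun i => 1 / ‖x i‖)

lemma attd_succ (x : X (n + 1)) : attd x - 1 / ‖x 0‖ = attd (Fin.tail x : X n) := by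
  unfold attd
  rw [Fin.sum_univ_succ]
  simp [Fin.tail]

lemma repd_succ (x : X (n + 1)) : repd x - rr 0 x = repd (Fin.tail x : X n) := by
  unfold repd rr
  rw [Fin.sum_univ_succ, Fin.sum_univ_succ, Fin.sum_univ_succ (f := fun j : Fin (n + 1) =>
    if j = 0 then (0 : ℝ) else 1 / ‖x 0 - x j‖)]
  simp only [lt_self_iff_false, if_false, Fin.succ_pos, if_true, Fin.succ_ne_zero, zero_add,
    Fin.sum_univ_succ, Fin.not_lt_zero, Fin.succ_lt_succ_iff, Fin.tail, if_true]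
  ring

lemma kinp_perm0 {N : ℕ} {ψ : (Fin N → Fin 2) → X N → ℝ} (h : Adm N ψ) (σ : Equiv.Perm (Fin N))
    (s : Fin N → Fin 2) (x : X N) (i : Fin N) :
    kinp (ψ (s ∘ σ)) i (x ∘ σ) = kinp (ψ s) (σ i) x := by
  unfold kinp
  refine Finset.sum_congr rfl fun k _ => ?_
  rw [fderiv_perm h]
  rcases Int.units_eq_one_or (Equiv.Perm.sign σ) with h1 | h1 <;> simp [h1]

lemma kind_eq {N : ℕ} (f : X N → ℝ) (x : X N) : kind f x = ∑ i, kinp f i x := rfl

lemma kind_perm0 {N : ℕ} {ψ : (Fin N → Fin 2) → X N → ℝ} (h : Adm N ψ) (σ : Equiv.Perm (Fin N))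
    (s : Fin N → Fin 2) (x : X N) :
    kind (ψ (s ∘ σ)) (x ∘ σ) = kind (ψ s) x := by
  rw [kind_eq, kind_eq, Finset.sum_congr rfl fun i _ => kinp_perm0 h σ s x i]
  exact Equiv.sum_comp σ (fun i => kinp (ψ s) i x)

lemma sq_perm0 {N : ℕ} {ψ : (Fin N → Fin 2) → X N → ℝ} (h : Adm N ψ) (σ : Equiv.Perm (Fin N))
    (s : Fin N → Fin 2) (x : X N) : (ψ (s ∘ σ) (x ∘ σ)) ^ 2 = (ψ s x) ^ 2 := by
  rw [h.anti]
  rcases Int.units_eq_one_or (Equiv.Perm.sign σ) with h1 | h1 <;> simp [h1]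

/-- the kinetic term of particle `m` tested with its own multiplier -/
def PP (μ κ : ℝ) {N : ℕ} (ψ : (Fin N → Fin 2) → X N → ℝ) (m : Fin N) (s : Fin N → Fin 2)
    (x : X N) : ℝ :=
  gw μ κ (x m) * kinp (ψ s) m x +
    ∑ k : Fin 3, fderiv ℝ (gw μ κ) (x m) (e3 k) * (ψ s x * fderiv ℝ (ψ s) x (ed m k))

/-- the energy of the other particles, weighted with the multiplier of `m` -/
def QQ (μ κ t : ℝ) {N : ℕ} (ψ : (Fin N → Fin 2) → X N → ℝ) (m : Fin N) (s : Fin N → Fin 2)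
    (x : X N) : ℝ :=
  gw μ κ (x m) * ((kind (ψ s) x - kinp (ψ s) m x) - (attd x - 1 / ‖x m‖) * (ψ s x) ^ 2
    + t * ((repd x - rr m x) * (ψ s x) ^ 2))

lemma PP_perm {N : ℕ} {ψ : (Fin N → Fin 2) → X N → ℝ} (h : Adm N ψ) (σ : Equiv.Perm (Fin N))
    (m : Fin N) (s : Fin N → Fin 2) (x : X N) :
    PP μ κ ψ m (s ∘ σ) (x ∘ σ) = PP μ κ ψ (σ m) s x := by
  unfold PP
  rw [kinp_perm0 h]
  congr 1
  refine Finset.sum_congr rfl fun k _ => ?_
  rw [fderiv_perm h, h.anti]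
  rcases Int.units_eq_one_or (Equiv.Perm.sign σ) with h1 | h1 <;> simp [h1]

lemma QQ_perm {N : ℕ} {ψ : (Fin N → Fin 2) → X N → ℝ} (h : Adm N ψ) (σ : Equiv.Perm (Fin N))
    (m : Fin N) (s : Fin N → Fin 2) (x : X N) :
    QQ μ κ t ψ m (s ∘ σ) (x ∘ σ) = QQ μ κ t ψ (σ m) s x := by
  unfold QQ
  rw [kinp_perm0 h, kind_perm0 h, attd_perm, repd_perm, rr_perm, sq_perm0 h]
  rfl

lemma off {N : ℕ} {f : X N → ℝ} {x : X N} (hx : x ∉ tsupport f) :
    f x = 0 ∧ fderiv ℝ f x = 0 := by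
  refine ⟨image_eq_zero_of_notMem_tsupport hx, ?_⟩
  have h1 : x ∉ tsupport (fderiv ℝ f) := fun h => hx (tsupport_fderiv_subset ℝ h)
  exact image_eq_zero_of_notMem_tsupport h1

section integr

variable {N : ℕ} {ψ : (Fin N → Fin 2) → X N → ℝ}

lemma cont_fd (h : Adm N ψ) (s : Fin N → Fin 2) (v : X N) :
    Continuous fun x => fderiv ℝ (ψ s) x v :=
  ((h.smooth s).continuous_fderiv (by simp)).clm_apply continuous_const

lemma cont_kinp (h : Adm N ψ) (s : Fin N → Fin 2) (m : Fin N) : Continuous (kinp (ψ s) m) := by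
  unfold kinp
  exact continuous_finsetSum _ fun k _ => (cont_fd h s _).pow 2

lemma cont_gw (hμ : 0 < μ) (hκ : 0 < κ) (m : Fin N) : Continuous fun x : X N => gw μ κ (x m) :=
  (gw_contDiff hμ hκ).continuous.comp (continuous_apply m)

lemma kinp_off {s : Fin N → Fin 2} {x : X N} (hx : x ∉ tsupport (ψ s)) (m : Fin N) :
    kinp (ψ s) m x = 0 := by
  unfold kinp
  simp [(off hx).2]

lemma int_PP (hμ : 0 < μ) (hκ : 0 < κ) (h : Adm N ψ) (m : Fin N) (s : Fin N → Fin 2) :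
    Integrable (PP μ κ ψ m s) := by
  refine Continuous.integrable_of_hasCompactSupport ?_ ?_
  · unfold PP
    refine ((cont_gw hμ hκ m).mul (cont_kinp h s m)).add (continuous_finsetSum _ fun k _ => ?_)
    refine Continuous.mul ?_ ((h.smooth s).continuous.mul (cont_fd h s _))
    exact (((gw_contDiff hμ hκ).continuous_fderiv (by simp)).comp
      (continuous_apply m)).clm_apply continuous_const
  · refine HasCompactSupport.intro (h.cpt s) fun x hx => ?_
    unfold PP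
    rw [kinp_off hx, (off hx).1]
    simp

lemma int_G (hμ : 0 < μ) (hκ : 0 < κ) (h : Adm N ψ) (m : Fin N) (s : Fin N → Fin 2) :
    Integrable (fun x => gw μ κ (x m) * (ψ s x) ^ 2) := by
  refine Continuous.integrable_of_hasCompactSupport
    ((cont_gw hμ hκ m).mul ((h.smooth s).continuous.pow 2)) ?_
  exact HasCompactSupport.intro (h.cpt s) fun x hx => by simp [(off hx).1]

lemma int_K (hμ : 0 < μ) (hκ : 0 < κ) (h : Adm N ψ) (m : Fin N) (s : Fin N → Fin 2) :
    Integrable (fun x => gw μ κ (x m) * (kind (ψ s) x - kinp (ψ s) m x)) := by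
  refine Continuous.integrable_of_hasCompactSupport ?_ ?_
  · refine (cont_gw hμ hκ m).mul (Continuous.sub ?_ (cont_kinp h s m))
    exact continuous_finsetSum _ fun i _ => cont_kinp h s i
  · refine HasCompactSupport.intro (h.cpt s) fun x hx => ?_
    rw [kind_eq, kinp_off hx, Finset.sum_eq_zero fun i _ => kinp_off hx i]
    simp

lemma cpt_G (h : Adm N ψ) (m : Fin N) (s : Fin N → Fin 2) :
    HasCompactSupport (fun x => gw μ κ (x m) * (ψ s x) ^ 2) :=
  HasCompactSupport.intro (h.cpt s) fun x hx => by simp [(off hx).1]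

lemma int_A (hμ : 0 < μ) (hκ : 0 < κ) (h : Adm N ψ) (m : Fin N) (s : Fin N → Fin 2) :
    Integrable (fun x => attd x * (gw μ κ (x m) * (ψ s x) ^ 2)) :=
  integrable_attd ((cont_gw hμ hκ m).mul ((h.smooth s).continuous.pow 2)) (cpt_G h m s)

lemma int_R (hμ : 0 < μ) (hκ : 0 < κ) (h : Adm N ψ) (m : Fin N) (s : Fin N → Fin 2) :
    Integrable (fun x => repd x * (gw μ κ (x m) * (ψ s x) ^ 2)) :=
  integrable_repd ((cont_gw hμ hκ m).mul ((h.smooth s).continuous.pow 2)) (cpt_G h m s)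

lemma int_S (hμ : 0 < μ) (hκ : 0 < κ) (h : Adm N ψ) (m : Fin N) (s : Fin N → Fin 2) :
    Integrable (fun x => 1 / ‖x m‖ * (gw μ κ (x m) * (ψ s x) ^ 2)) :=
  integrable_inv_coord ((cont_gw hμ hκ m).mul ((h.smooth s).continuous.pow 2)) (cpt_G h m s) m

lemma int_T (hμ : 0 < μ) (hκ : 0 < κ) (h : Adm N ψ) (m : Fin N) (s : Fin N → Fin 2) :
    Integrable (fun x => rr m x * (gw μ κ (x m) * (ψ s x) ^ 2)) := by
  have e : (fun x => rr m x * (gw μ κ (x m) * (ψ s x) ^ 2)) = fun x => ∑ j : Fin N,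
      (if j = m then 0 else 1 / ‖x m - x j‖) * (gw μ κ (x m) * (ψ s x) ^ 2) := by
    funext x
    unfold rr
    rw [Finset.sum_mul]
  rw [e]
  refine integrable_finsetSum _ fun j _ => ?_
  by_cases hj : j = m
  · simp [hj]
  · simp only [if_neg hj]
    exact integrable_inv_sub ((cont_gw hμ hκ m).mul ((h.smooth s).continuous.pow 2))
      (cpt_G h m s) (Ne.symm hj)

lemma int_QQ (hμ : 0 < μ) (hκ : 0 < κ) (h : Adm N ψ) (m : Fin N) (s : Fin N → Fin 2) :
    Integrable (QQ μ κ t ψ m s) := by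
  have e : QQ μ κ t ψ m s = fun x => gw μ κ (x m) * (kind (ψ s) x - kinp (ψ s) m x)
      - (attd x * (gw μ κ (x m) * (ψ s x) ^ 2) - 1 / ‖x m‖ * (gw μ κ (x m) * (ψ s x) ^ 2))
      + t * (repd x * (gw μ κ (x m) * (ψ s x) ^ 2) - rr m x * (gw μ κ (x m) * (ψ s x) ^ 2)) := by
    funext x
    unfold QQ
    ring
  rw [e]
  exact ((int_K hμ hκ h m s).sub ((int_A hμ hκ h m s).sub (int_S hμ hκ h m s))).add
    (((int_R hμ hκ h m s).sub (int_T hμ hκ h m s)).const_mul t)

end integr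

/-! the pointwise identity -/

lemma fd_gs (hμ : 0 < μ) (hκ : 0 < κ) {N : ℕ} (x : X N) (i : Fin N) (k : Fin 3) :
    fderiv ℝ (gs μ κ : X N → ℝ) x (ed i k) = fderiv ℝ (gw μ κ) (x i) (e3 k) := by
  have hd : ∀ j : Fin N, HasFDerivAt (fun y : X N => gw μ κ (y j))
      ((fderiv ℝ (gw μ κ) (x j)).comp (ContinuousLinearMap.proj j)) x := fun j =>
    HasFDerivAt.comp (g := gw μ κ) (f := fun y : X N => y j) x
      ((gw_contDiff hμ hκ).differentiable (by simp) (x j)).hasFDerivAt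
      (ContinuousLinearMap.proj (R := ℝ) (φ := fun _ : Fin N => R3) j).hasFDerivAt
  have h1 : HasFDerivAt (gs μ κ : X N → ℝ)
      (∑ j : Fin N, (fderiv ℝ (gw μ κ) (x j)).comp (ContinuousLinearMap.proj j)) x :=
    HasFDerivAt.fun_sum fun j _ => hd j
  rw [h1.fderiv, _root_.sum_apply, Finset.sum_eq_single i]
  · simp [ed]
  · intro j _ hj
    simp [ed, Pi.single_eq_of_ne hj]
  · intro hi
    exact absurd (Finset.mem_univ i) hi

lemma dens (hμ : 0 < μ) (hκ : 0 < κ) {N : ℕ} {ψ : (Fin N → Fin 2) → X N → ℝ} (h : Adm N ψ)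
    (s : Fin N → Fin 2) (x : X N) :
    (∑ i : Fin N, ∑ k : Fin 3,
      fderiv ℝ (fun y => gs μ κ y * ψ s y) x (ed i k) * fderiv ℝ (ψ s) x (ed i k))
    - attd x * (gs μ κ x * (ψ s x) ^ 2) + t * (repd x * (gs μ κ x * (ψ s x) ^ 2))
    - c * (gs μ κ x * (ψ s x) ^ 2) =
    ∑ m : Fin N, (PP μ κ ψ m s x + QQ μ κ t ψ m s x
      - 1 / ‖x m‖ * (gw μ κ (x m) * (ψ s x) ^ 2) + t * (rr m x * (gw μ κ (x m) * (ψ s x) ^ 2))
      - c * (gw μ κ (x m) * (ψ s x) ^ 2)) := by
  have hgs : Differentiable ℝ (gs μ κ : X N → ℝ) := by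
    unfold gs
    exact Differentiable.fun_sum fun j _ => ((gw_contDiff hμ hκ).differentiable (by simp)).comp
      (differentiable_apply j)
  have hψ : Differentiable ℝ (ψ s) := (h.smooth s).differentiable (by simp)
  have e1 : ∀ i : Fin N, ∀ k : Fin 3,
      fderiv ℝ (fun y => gs μ κ y * ψ s y) x (ed i k) * fderiv ℝ (ψ s) x (ed i k)
      = gs μ κ x * (fderiv ℝ (ψ s) x (ed i k)) ^ 2
        + fderiv ℝ (gw μ κ) (x i) (e3 k) * (ψ s x * fderiv ℝ (ψ s) x (ed i k)) := by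
    intro i k
    have h1 : fderiv ℝ (fun y => gs μ κ y * ψ s y) x
        = gs μ κ x • fderiv ℝ (ψ s) x + ψ s x • fderiv ℝ (gs μ κ : X N → ℝ) x :=
      fderiv_fun_mul hgs.differentiableAt hψ.differentiableAt
    rw [h1]
    simp only [_root_.add_apply, _root_.smul_apply, smul_eq_mul]
    rw [fd_gs hμ hκ]
    ring
  have e2 : (∑ i : Fin N, ∑ k : Fin 3,
      fderiv ℝ (fun y => gs μ κ y * ψ s y) x (ed i k) * fderiv ℝ (ψ s) x (ed i k))
      = gs μ κ x * kind (ψ s) x + ∑ m : Fin N, ∑ k : Fin 3,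
        fderiv ℝ (gw μ κ) (x m) (e3 k) * (ψ s x * fderiv ℝ (ψ s) x (ed m k)) := by
    rw [Finset.sum_congr rfl fun i _ => Finset.sum_congr rfl fun k _ => e1 i k]
    simp only [Finset.sum_add_distrib]
    unfold kind
    rw [Finset.mul_sum]
    simp only [Finset.mul_sum]
  have e3 : ∀ m : Fin N, PP μ κ ψ m s x + QQ μ κ t ψ m s x
      - 1 / ‖x m‖ * (gw μ κ (x m) * (ψ s x) ^ 2) + t * (rr m x * (gw μ κ (x m) * (ψ s x) ^ 2))
      - c * (gw μ κ (x m) * (ψ s x) ^ 2)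
      = gw μ κ (x m) * (kind (ψ s) x - attd x * (ψ s x) ^ 2 + t * (repd x * (ψ s x) ^ 2)
        - c * (ψ s x) ^ 2) + ∑ k : Fin 3,
        fderiv ℝ (gw μ κ) (x m) (e3 k) * (ψ s x * fderiv ℝ (ψ s) x (ed m k)) := by
    intro m
    unfold PP QQ
    ring
  rw [e2, Finset.sum_congr rfl fun m _ => e3 m, Finset.sum_add_distrib, ← Finset.sum_mul]
  unfold gs
  ring

/-! the kinetic term -/

lemma swap_perm {N : ℕ} (F : Fin (N + 1) → (Fin (N + 1) → Fin 2) → X (N + 1) → ℝ)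
    (hF : ∀ (σ : Equiv.Perm (Fin (N + 1))) m s x, F m (s ∘ σ) (x ∘ σ) = F (σ m) s x)
    (m : Fin (N + 1)) : ∑ s, ∫ x, F m s x = ∑ s, ∫ x, F 0 s x := by
  rw [← integral_perm (Equiv.swap 0 m) (F 0)]
  refine Finset.sum_congr rfl fun s _ => ?_
  congr 1
  funext x
  rw [hF, Equiv.swap_apply_left]

lemma slice_cpt {f : X (n + 1) → ℝ} (hc : HasCompactSupport f) (y : X n) :
    HasCompactSupport (fun u : R3 => f (Fin.cons u y : X (n + 1))) := by
  have hcl : Topology.IsClosedEmbedding (fun u : R3 => (Fin.cons u y : X (n + 1))) := by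
    refine Function.LeftInverse.isClosedEmbedding (f := fun x : X (n + 1) => x 0) ?_
      (continuous_apply 0) ?_
    · intro u
      rfl
    · exact continuous_pi fun j => by
        refine Fin.cases ?_ (fun i => ?_) j
        · exact continuous_id
        · exact continuous_const
  exact hc.comp_isClosedEmbedding hcl

lemma slice_contDiff {f : X (n + 1) → ℝ} (hf : ContDiff ℝ (⊤ : ℕ∞) f) (y : X n) :
    ContDiff ℝ (⊤ : ℕ∞) (fun u : R3 => f (Fin.cons u y : X (n + 1))) := by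
  refine hf.comp (contDiff_pi.2 fun j => ?_)
  refine Fin.cases ?_ (fun i => ?_) j
  · exact contDiff_id
  · exact contDiff_const

lemma PP_nonneg (hμ : 0 < μ) (hκ : 0 < κ) {ψ : (Fin (n + 1) → Fin 2) → X (n + 1) → ℝ}
    (h : Adm (n + 1) ψ) (m : Fin (n + 1)) : 0 ≤ ∑ s, ∫ x, PP μ κ ψ m s x := by
  rw [swap_perm (PP μ κ ψ) (fun σ m s x => PP_perm h σ m s x) m]
  refine Finset.sum_nonneg fun s _ => ?_
  rw [integral_cons_iter' (int_PP hμ hκ h 0 s)]
  refine integral_nonneg fun y => ?_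
  have hψ : Differentiable ℝ (ψ s) := (h.smooth s).differentiable (by simp)
  have hf := slice_contDiff (h.smooth s) y
  have hc := slice_cpt (h.cpt s) y
  have h1 := kin_gw_nonneg hμ hκ (hf.of_le (by exact_mod_cast le_top)) hc
  have e : ∀ u : R3, PP μ κ ψ 0 s (Fin.cons u y : X (n + 1)) = ∑ k : Fin 3,
      fderiv ℝ (fun v => gw μ κ v * ψ s (Fin.cons v y : X (n + 1))) u (e3 k) *
        fderiv ℝ (fun v => ψ s (Fin.cons v y : X (n + 1))) u (e3 k) := by
    intro u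
    unfold PP kinp
    rw [Finset.mul_sum, ← Finset.sum_add_distrib]
    refine Finset.sum_congr rfl fun k _ => ?_
    have h2 : fderiv ℝ (fun v => gw μ κ v * ψ s (Fin.cons v y : X (n + 1))) u
        = gw μ κ u • fderiv ℝ (fun v => ψ s (Fin.cons v y : X (n + 1))) u
          + ψ s (Fin.cons u y : X (n + 1)) • fderiv ℝ (gw μ κ) u :=
      fderiv_fun_mul ((gw_contDiff hμ hκ).differentiable (by simp) u)
        (hf.differentiable (by simp) u)
    rw [h2]
    simp only [_root_.add_apply, _root_.smul_apply, smul_eq_mul]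
    rw [fderiv_cons_zero hψ]
    simp only [Fin.cons_zero]
    ring
  simp only [Pi.zero_apply]
  rw [integral_congr_ae (Filter.Eventually.of_forall e)]
  exact h1

/-! the other terms -/

lemma QQ_lower (hμ : 0 < μ) (hκ : 0 < κ) (ht : 0 ≤ t)
    {ψ : (Fin (n + 1) → Fin 2) → X (n + 1) → ℝ} (h : Adm (n + 1) ψ) (m : Fin (n + 1)) :
    eps n t * ∑ s, ∫ x, gw μ κ (x m) * (ψ s x) ^ 2 ≤ ∑ s, ∫ x, QQ μ κ t ψ m s x := by
  rw [swap_perm (QQ μ κ t ψ) (fun σ m s x => QQ_perm h σ m s x) m, sq_perm h (gw μ κ) m]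
  refine (rest_bound ht h (gw_contDiff hμ hκ).continuous fun u => (gw_pos hμ hκ u).le).trans
    (le_of_eq ?_)
  refine Finset.sum_congr rfl fun s _ => ?_
  congr 1
  funext x
  unfold QQ
  rw [attd_succ, repd_succ, kind_eq, Fin.sum_univ_succ, add_sub_cancel_left]

lemma int_sq {N : ℕ} {ψ : (Fin N → Fin 2) → X N → ℝ} (h : Adm N ψ) (s : Fin N → Fin 2) :
    Integrable (fun x => (ψ s x) ^ 2) := by
  refine Continuous.integrable_of_hasCompactSupport ((h.smooth s).continuous.pow 2) ?_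
  exact HasCompactSupport.intro (h.cpt s) fun x hx => by simp [(off hx).1]

lemma cpt_sq {N : ℕ} {ψ : (Fin N → Fin 2) → X N → ℝ} (h : Adm N ψ) (s : Fin N → Fin 2) :
    HasCompactSupport (fun x => (ψ s x) ^ 2) :=
  HasCompactSupport.intro (h.cpt s) fun x hx => by simp [(off hx).1]

lemma SS_upper (hμ : 0 < μ) (hκ : 0 < κ) {N : ℕ} {ψ : (Fin N → Fin 2) → X N → ℝ} (h : Adm N ψ) :
    ∑ s, ∑ m : Fin N, ∫ x, 1 / ‖x m‖ * (gw μ κ (x m) * (ψ s x) ^ 2)
      ≤ N * nrm ψ + κ * att ψ := by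
  unfold nrm att
  rw [Finset.mul_sum, Finset.mul_sum, ← Finset.sum_add_distrib]
  refine Finset.sum_le_sum fun s _ => ?_
  have h1 : ∀ m : Fin N, ∫ x, 1 / ‖x m‖ * (gw μ κ (x m) * (ψ s x) ^ 2)
      ≤ ∫ x, ((ψ s x) ^ 2 + κ * (1 / ‖x m‖ * (ψ s x) ^ 2)) := by
    intro m
    refine integral_mono (int_S hμ hκ h m s) ((int_sq h s).add
      ((integrable_inv_coord ((h.smooth s).continuous.pow 2) (cpt_sq h s) m).const_mul κ))
      fun x => ?_
    have h2 := gw_div hμ hκ (x m)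
    have h3 := mul_le_mul_of_nonneg_right h2 (sq_nonneg (ψ s x))
    simp only
    linarith
  refine (Finset.sum_le_sum fun m _ => h1 m).trans (le_of_eq ?_)
  rw [← integral_finsetSum, ← integral_const_mul, ← integral_const_mul, ← integral_add]
  · congr 1
    funext x
    rw [Finset.sum_add_distrib, Finset.sum_const, Finset.card_univ, Fintype.card_fin,
      nsmul_eq_mul, ← Finset.mul_sum, ← Finset.sum_mul]
    rfl
  · exact (int_sq h s).const_mul _
  · exact (integrable_attd ((h.smooth s).continuous.pow 2) (cpt_sq h s)).const_mul _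
  · intro m _
    exact (int_sq h s).add
      ((integrable_inv_coord ((h.smooth s).continuous.pow 2) (cpt_sq h s) m).const_mul κ)

lemma ae_ne_all (N : ℕ) : ∀ᵐ x : X N, ∀ i j : Fin N, i ≠ j → x i ≠ x j := by
  rw [ae_all_iff]
  intro i
  rw [ae_all_iff]
  intro j
  by_cases hij : i = j
  · exact Filter.Eventually.of_forall fun x h => absurd hij h
  · filter_upwards [ae_ne hij] with x hx _ using hx

lemma pair_sum (hμ : 0 < μ) (hκ : 0 < κ) {x : X (n + 1)}
    (hx : ∀ i j : Fin (n + 1), i ≠ j → x i ≠ x j) :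
    (n * (n + 1) / 2 : ℝ) - n * μ * gs μ κ x ≤ ∑ m, rr m x * gw μ κ (x m) := by
  have e1 : ∑ m, rr m x * gw μ κ (x m) = ∑ m : Fin (n + 1), ∑ j : Fin (n + 1),
      (if j = m then 0 else 1 / ‖x m - x j‖ * gw μ κ (x m)) := by
    unfold rr
    refine Finset.sum_congr rfl fun m _ => ?_
    rw [Finset.sum_mul]
    refine Finset.sum_congr rfl fun j _ => ?_
    split_ifs <;> simp
  have e2 : ∑ m : Fin (n + 1), ∑ j : Fin (n + 1),
      (if j = m then 0 else 1 / ‖x m - x j‖ * gw μ κ (x m)) = ∑ m : Fin (n + 1),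
      ∑ j : Fin (n + 1), (if j = m then 0 else 1 / ‖x m - x j‖ * gw μ κ (x j)) := by
    rw [Finset.sum_comm]
    refine Finset.sum_congr rfl fun m _ => Finset.sum_congr rfl fun j _ => ?_
    rw [norm_sub_rev]
    simp only [eq_comm]
  have e3 : 2 * ∑ m, rr m x * gw μ κ (x m) = ∑ m : Fin (n + 1), ∑ j : Fin (n + 1),
      (if j = m then 0 else (gw μ κ (x m) + gw μ κ (x j)) * (1 / ‖x m - x j‖)) := by
    rw [two_mul]
    nth_rewrite 2 [e1]
    rw [e2, e1, ← Finset.sum_add_distrib]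
    refine Finset.sum_congr rfl fun m _ => ?_
    rw [← Finset.sum_add_distrib]
    refine Finset.sum_congr rfl fun j _ => ?_
    split_ifs
    · simp
    · ring
  have e4 : ∑ m : Fin (n + 1), ∑ j : Fin (n + 1),
      (if j = m then 0 else (1 - μ * (gw μ κ (x m) + gw μ κ (x j)))) ≤
      ∑ m : Fin (n + 1), ∑ j : Fin (n + 1),
      (if j = m then 0 else (gw μ κ (x m) + gw μ κ (x j)) * (1 / ‖x m - x j‖)) := by
    refine Finset.sum_le_sum fun m _ => Finset.sum_le_sum fun j _ => ?_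
    split_ifs with hj
    · exact le_rfl
    · exact gw_pair hμ hκ (hx m j (Ne.symm hj))
  have e5 : ∑ m : Fin (n + 1), ∑ j : Fin (n + 1),
      (if j = m then 0 else (1 - μ * (gw μ κ (x m) + gw μ κ (x j)))) =
      n * (n + 1) - 2 * n * μ * gs μ κ x := by
    have h1 : ∀ m : Fin (n + 1), ∑ j : Fin (n + 1),
        (if j = m then 0 else (1 - μ * (gw μ κ (x m) + gw μ κ (x j))))
        = ∑ j : Fin (n + 1), (1 - μ * (gw μ κ (x m) + gw μ κ (x j)))
          - (1 - μ * (gw μ κ (x m) + gw μ κ (x m))) := by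
      intro m
      have h2 := Finset.sum_ite_eq' (Finset.univ : Finset (Fin (n + 1))) m
        (fun j => (1 - μ * (gw μ κ (x m) + gw μ κ (x j))))
      rw [if_pos (Finset.mem_univ m)] at h2
      rw [eq_sub_iff_add_eq, ← h2, ← Finset.sum_add_distrib]
      refine Finset.sum_congr rfl fun j _ => ?_
      split_ifs <;> simp
    rw [Finset.sum_congr rfl fun m _ => h1 m]
    simp only [Finset.sum_sub_distrib, Finset.sum_const, Finset.card_univ, Fintype.card_fin,
      nsmul_eq_mul, ← Finset.mul_sum, Finset.sum_add_distrib]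
    unfold gs
    push_cast
    ring
  linarith

lemma TT_lower (hμ : 0 < μ) (hκ : 0 < κ) {ψ : (Fin (n + 1) → Fin 2) → X (n + 1) → ℝ}
    (h : Adm (n + 1) ψ) :
    (n * (n + 1) / 2 : ℝ) * nrm ψ - n * μ * Gm μ κ ψ ≤
      ∑ s, ∑ m : Fin (n + 1), ∫ x, rr m x * (gw μ κ (x m) * (ψ s x) ^ 2) := by
  unfold nrm Gm
  rw [Finset.mul_sum, Finset.mul_sum, ← Finset.sum_sub_distrib]
  refine Finset.sum_le_sum fun s _ => ?_
  have hgs : Integrable (fun x => gs μ κ x * (ψ s x) ^ 2) := by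
    have : (fun x => gs μ κ x * (ψ s x) ^ 2) = fun x => ∑ m : Fin (n + 1),
        gw μ κ (x m) * (ψ s x) ^ 2 := by
      funext x
      unfold gs
      rw [Finset.sum_mul]
    rw [this]
    exact integrable_finsetSum _ fun m _ => int_G hμ hκ h m s
  rw [← integral_finsetSum _ fun m _ => int_T hμ hκ h m s, ← integral_const_mul,
    ← integral_const_mul, ← integral_sub ((int_sq h s).const_mul _) (hgs.const_mul _)]
  refine integral_mono_ae (((int_sq h s).const_mul _).sub (hgs.const_mul _))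
    (integrable_finsetSum _ fun m _ => int_T hμ hκ h m s) ?_
  filter_upwards [ae_ne_all (n + 1)] with x hx
  have h1 := mul_le_mul_of_nonneg_right (pair_sum hμ hκ hx) (sq_nonneg (ψ s x))
  rw [Finset.sum_mul] at h1
  have e : ∑ m : Fin (n + 1), rr m x * (gw μ κ (x m) * (ψ s x) ^ 2)
      = ∑ m : Fin (n + 1), rr m x * gw μ κ (x m) * (ψ s x) ^ 2 :=
    Finset.sum_congr rfl fun m _ => by ring
  rw [e]
  linarith

lemma int5 {N : ℕ} {f1 f2 f3 f4 f5 : X N → ℝ} (h1 : Integrable f1) (h2 : Integrable f2)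
    (h3 : Integrable f3) (h4 : Integrable f4) (h5 : Integrable f5) :
    ∫ x, (f1 x + f2 x - f3 x + t * f4 x - c * f5 x) = (∫ x, f1 x) + (∫ x, f2 x) - (∫ x, f3 x)
      + t * (∫ x, f4 x) - c * ∫ x, f5 x := by
  have e1 : ∫ x, (f1 x + f2 x - f3 x + t * f4 x - c * f5 x)
      = (∫ x, (f1 x + f2 x - f3 x + t * f4 x)) - ∫ x, c * f5 x :=
    integral_sub (((h1.add h2).sub h3).add (h4.const_mul t)) (h5.const_mul c)
  have e2 : ∫ x, (f1 x + f2 x - f3 x + t * f4 x)
      = (∫ x, (f1 x + f2 x - f3 x)) + ∫ x, t * f4 x :=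
    integral_add ((h1.add h2).sub h3) (h4.const_mul t)
  have e3 : ∫ x, (f1 x + f2 x - f3 x) = (∫ x, (f1 x + f2 x)) - ∫ x, f3 x :=
    integral_sub (h1.add h2) h3
  rw [e1, e2, e3, integral_add h1 h2, integral_const_mul, integral_const_mul]

end LiebLAux

open LiebLAux in
theorem lieb_lower (hμ : 0 < μ) (hκ : 0 < κ) (ht : 0 ≤ t)
    {ψ : (Fin (n + 1) → Fin 2) → X (n + 1) → ℝ} (h : Adm (n + 1) ψ) :
    (eps n t - c) * Gm μ κ ψ - (n + 1) * nrm ψ - κ * att ψ
        + t * ((n * (n + 1) / 2 : ℝ) * nrm ψ - n * μ * Gm μ κ ψ)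
      ≤ BL μ κ t c ψ := by
  have hG : Gm μ κ ψ = ∑ s, ∑ m : Fin (n + 1), ∫ x, gw μ κ (x m) * (ψ s x) ^ 2 := by
    unfold Gm
    refine Finset.sum_congr rfl fun s _ => ?_
    rw [← integral_finsetSum _ fun m _ => int_G hμ hκ h m s]
    congr 1
    funext x
    unfold gs
    rw [Finset.sum_mul]
  have hBL : BL μ κ t c ψ = (∑ m : Fin (n + 1), ∑ s, ∫ x, PP μ κ ψ m s x)
      + (∑ m : Fin (n + 1), ∑ s, ∫ x, QQ μ κ t ψ m s x)
      - (∑ s, ∑ m : Fin (n + 1), ∫ x, 1 / ‖x m‖ * (gw μ κ (x m) * (ψ s x) ^ 2))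
      + t * (∑ s, ∑ m : Fin (n + 1), ∫ x, rr m x * (gw μ κ (x m) * (ψ s x) ^ 2))
      - c * Gm μ κ ψ := by
    rw [Finset.sum_comm (f := fun (m : Fin (n + 1)) s => ∫ x, PP μ κ ψ m s x),
      Finset.sum_comm (f := fun (m : Fin (n + 1)) s => ∫ x, QQ μ κ t ψ m s x), hG,
      Finset.mul_sum, Finset.mul_sum, ← Finset.sum_add_distrib, ← Finset.sum_sub_distrib,
      ← Finset.sum_add_distrib, ← Finset.sum_sub_distrib]
    unfold BL
    refine Finset.sum_congr rfl fun s _ => ?_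
    rw [Finset.mul_sum, Finset.mul_sum, ← Finset.sum_add_distrib, ← Finset.sum_sub_distrib,
      ← Finset.sum_add_distrib, ← Finset.sum_sub_distrib,
      integral_congr_ae (Filter.Eventually.of_forall fun x => dens hμ hκ h s x),
      integral_finsetSum]
    · refine Finset.sum_congr rfl fun m _ => ?_
      have i1 := int_PP hμ hκ h m s
      have i2 := int_QQ (t := t) hμ hκ h m s
      have i3 := int_S hμ hκ h m s
      have i4 := int_T hμ hκ h m s
      have i5 := int_G hμ hκ h m s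
      exact int5 i1 i2 i3 i4 i5
    · intro m _
      exact ((((int_PP hμ hκ h m s).add (int_QQ hμ hκ h m s)).sub (int_S hμ hκ h m s)).add
        ((int_T hμ hκ h m s).const_mul t)).sub ((int_G hμ hκ h m s).const_mul c)
  have h1 : 0 ≤ ∑ m : Fin (n + 1), ∑ s, ∫ x, PP μ κ ψ m s x :=
    Finset.sum_nonneg fun m _ => PP_nonneg hμ hκ h m
  have h2 : eps n t * Gm μ κ ψ ≤ ∑ m : Fin (n + 1), ∑ s, ∫ x, QQ μ κ t ψ m s x := by
    rw [hG, Finset.sum_comm, Finset.mul_sum]
    exact Finset.sum_le_sum fun m _ => QQ_lower hμ hκ ht h m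
  have h3 := SS_upper hμ hκ h
  have h4 := mul_le_mul_of_nonneg_left (TT_lower hμ hκ h) ht
  push_cast at h3
  rw [hBL]
  linarith

end Pool.Agent.Lib.CX
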