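import Mathlib
import Pool.Agent.Lib.CX.LiebDef

/-! CX task B2: upper bound of the polarised form by the excess energy. -/

set_option autoImplicit false

open MeasureTheory Set

noncomputable section

namespace Pool.Agent.Lib.CX

variable {n : ℕ} {μ κ t : ℝ}

namespace LiebUAux

theorem gs_contDiff (hμ : 0 < μ) (hκ : 0 < κ) : ContDiff ℝ (⊤ : ℕ∞) (gs (n := n) μ κ) := by
  unfold gs
  exact ContDiff.sum fun i _ => (gw_contDiff hμ hκ).comp (contDiff_apply ℝ R3 i)

theorem gs_nonneg (hμ : 0 < μ) (hκ : 0 < κ) (x : X n) : 0 ≤ gs μ κ x :=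
  Finset.sum_nonneg fun i _ => (gw_pos hμ hκ (x i)).le

theorem gs_le (hμ : 0 < μ) (hκ : 0 < κ) (x : X n) : gs μ κ x ≤ n / μ := by
  unfold gs
  calc ∑ i : Fin n, gw μ κ (x i) ≤ ∑ _i : Fin n, 1 / μ :=
        Finset.sum_le_sum fun i _ => gw_le hμ hκ (x i)
    _ = n / μ := by simp [div_eq_mul_inv]

theorem gs_sq_le (hμ : 0 < μ) (hκ : 0 < κ) (x : X n) : gs μ κ x ^ 2 ≤ (n / μ) ^ 2 :=
  pow_le_pow_left₀ (gs_nonneg hμ hκ x) (gs_le hμ hκ x) 2

end LiebUAux

open LiebUAux in
theorem adm_gs (hμ : 0 < μ) (hκ : 0 < κ) {ψ : (Fin n → Fin 2) → X n → ℝ} (h : Adm n ψ) :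
    Adm n (fun s x => gs μ κ x * ψ s x) where
  smooth s := (gs_contDiff hμ hκ).mul (h.smooth s)
  cpt s := (h.cpt s).mul_left
  anti σ s x := by
    have h1 : gs μ κ (x ∘ σ) = gs μ κ x := Equiv.sum_comp σ fun i => gw μ κ (x i)
    rw [h1, h.anti σ s x]
    ring

namespace LiebUAux

theorem fderiv_gs (hμ : 0 < μ) (hκ : 0 < κ) (x : X n) (i : Fin n) (k : Fin 3) :
    fderiv ℝ (gs μ κ) x (ed i k) = fderiv ℝ (gw μ κ) (x i) (e3 k) := by
  have hd : Differentiable ℝ (gw μ κ) := (gw_contDiff hμ hκ).differentiable (by simp)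
  have h1 : HasFDerivAt (gs (n := n) μ κ)
      (∑ j : Fin n, (fderiv ℝ (gw μ κ) (x j)).comp (ContinuousLinearMap.proj j)) x := by
    unfold gs
    refine HasFDerivAt.fun_sum fun j _ => ?_
    exact (hd (x j)).hasFDerivAt.comp x (ContinuousLinearMap.proj j : X n →L[ℝ] R3).hasFDerivAt
  rw [h1.fderiv, sum_apply, Finset.sum_eq_single i]
  · simp [ed]
  · intro j _ hj
    simp [ed, hj]
  · simp

theorem fderiv_gs_mul (hμ : 0 < μ) (hκ : 0 < κ) {f : X n → ℝ} (hf : Differentiable ℝ f)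
    (x v : X n) : fderiv ℝ (fun y => gs μ κ y * f y) x v =
      gs μ κ x * fderiv ℝ f x v + f x * fderiv ℝ (gs μ κ) x v := by
  have hd : Differentiable ℝ (gs (n := n) μ κ) := (gs_contDiff hμ hκ).differentiable (by simp)
  rw [fderiv_fun_mul (hd x) (hf x)]
  simp

theorem kind_gs_le (hμ : 0 < μ) (hκ : 0 < κ) {f : X n → ℝ} (hf : Differentiable ℝ f) (x : X n) :
    kind (fun y => gs μ κ y * f y) x ≤ 2 * (n / μ) ^ 2 * kind f x + 2 * n * f x ^ 2 := by
  unfold kind
  have h1 : ∑ i : Fin n, ∑ k : Fin 3, (fderiv ℝ (gs μ κ) x (ed i k)) ^ 2 ≤ n := by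
    calc ∑ i : Fin n, ∑ k : Fin 3, (fderiv ℝ (gs μ κ) x (ed i k)) ^ 2
        ≤ ∑ _i : Fin n, (1 : ℝ) := by
          refine Finset.sum_le_sum fun i _ => ?_
          simp only [fderiv_gs hμ hκ]
          exact gw_grad hμ hκ (x i)
      _ = n := by simp
  calc ∑ i : Fin n, ∑ k : Fin 3, (fderiv ℝ (fun y => gs μ κ y * f y) x (ed i k)) ^ 2
      ≤ ∑ i : Fin n, ∑ k : Fin 3, (2 * (n / μ) ^ 2 * (fderiv ℝ f x (ed i k)) ^ 2 +
          2 * f x ^ 2 * (fderiv ℝ (gs μ κ) x (ed i k)) ^ 2) := by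
        refine Finset.sum_le_sum fun i _ => Finset.sum_le_sum fun k _ => ?_
        rw [fderiv_gs_mul hμ hκ hf]
        have h2 := gs_sq_le hμ hκ x
        have h3 := mul_le_mul_of_nonneg_right h2 (sq_nonneg (fderiv ℝ f x (ed i k)))
        have h4 := sq_nonneg (gs μ κ x * fderiv ℝ f x (ed i k) -
          f x * fderiv ℝ (gs μ κ) x (ed i k))
        nlinarith
    _ = 2 * (n / μ) ^ 2 * (∑ i : Fin n, ∑ k : Fin 3, (fderiv ℝ f x (ed i k)) ^ 2) +
          2 * f x ^ 2 * ∑ i : Fin n, ∑ k : Fin 3, (fderiv ℝ (gs μ κ) x (ed i k)) ^ 2 := by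
        simp only [Finset.sum_add_distrib, Finset.mul_sum]
    _ ≤ _ := by
        have h2 := mul_le_mul_of_nonneg_left h1 (by positivity : (0 : ℝ) ≤ 2 * f x ^ 2)
        linarith

/-- The polarised density. -/
def bdens (t c : ℝ) (f g : X n → ℝ) (x : X n) : ℝ :=
  (∑ i : Fin n, ∑ k : Fin 3, fderiv ℝ f x (ed i k) * fderiv ℝ g x (ed i k))
    - attd x * (f x * g x) + t * (repd x * (f x * g x)) - c * (f x * g x)

/-- Smooth with compact support. -/
def Cc (f : X n → ℝ) : Prop := ContDiff ℝ (⊤ : ℕ∞) f ∧ HasCompactSupport f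

theorem Cc.diff {f : X n → ℝ} (hf : Cc f) : Differentiable ℝ f := hf.1.differentiable (by simp)

theorem Cc.contD {f : X n → ℝ} (hf : Cc f) (v : X n) : Continuous fun x => fderiv ℝ f x v :=
  (hf.1.continuous_fderiv (by simp)).clm_apply continuous_const

theorem Cc.cptD {f : X n → ℝ} (hf : Cc f) (v : X n) : HasCompactSupport fun x => fderiv ℝ f x v :=
  hf.2.fderiv_apply (𝕜 := ℝ) v

theorem integrable_dd {f g : X n → ℝ} (hf : Cc f) (hg : Cc g) :
    Integrable fun x => ∑ i : Fin n, ∑ k : Fin 3, fderiv ℝ f x (ed i k) * fderiv ℝ g x (ed i k) := by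
  refine integrable_finsetSum _ fun i _ => integrable_finsetSum _ fun k _ => ?_
  exact ((hf.contD _).mul (hg.contD _)).integrable_of_hasCompactSupport (hg.cptD _).mul_left

theorem Cc.cont {f : X n → ℝ} (hf : Cc f) : Continuous f := hf.1.continuous

theorem Cc.mulc {f g : X n → ℝ} (hg : Cc g) : HasCompactSupport fun x => f x * g x :=
  hg.2.mul_left

theorem integrable_bdens (t c : ℝ) {f g : X n → ℝ} (hf : Cc f) (hg : Cc g) :
    Integrable (bdens t c f g) := by
  have h1 : Continuous fun x => f x * g x := hf.cont.mul hg.cont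
  have h2 : HasCompactSupport fun x => f x * g x := hg.mulc
  exact (((integrable_dd hf hg).sub (integrable_attd h1 h2)).add
    ((integrable_repd h1 h2).const_mul t)).sub ((h1.integrable_of_hasCompactSupport h2).const_mul c)

theorem form_eq {χ : (Fin n → Fin 2) → X n → ℝ} (h : Adm n χ) (c : ℝ) :
    en t χ - c * nrm χ = ∑ s, ∫ x, bdens t c (χ s) (χ s) x := by
  unfold en kin att rep nrm
  rw [Finset.mul_sum, Finset.mul_sum, ← Finset.sum_sub_distrib, ← Finset.sum_add_distrib,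
    ← Finset.sum_sub_distrib]
  refine Finset.sum_congr rfl fun s _ => ?_
  have hs : Cc (χ s) := ⟨h.smooth s, h.cpt s⟩
  have h1 : Continuous fun x => χ s x ^ 2 := hs.cont.pow 2
  have h2 : HasCompactSupport fun x => χ s x ^ 2 := by
    simp only [pow_two]
    exact hs.mulc
  have i1 : Integrable (kind (χ s)) := by
    have := integrable_dd hs hs
    simp only [← pow_two] at this
    exact this
  have i2 := integrable_attd h1 h2
  have i3 := (integrable_repd h1 h2).const_mul t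
  have i4 := (h1.integrable_of_hasCompactSupport h2 (μ := volume)).const_mul c
  have i12 : Integrable fun x => kind (χ s) x - attd x * χ s x ^ 2 := i1.sub i2
  have i123 : Integrable fun x => kind (χ s) x - attd x * χ s x ^ 2 +
      t * (repd x * χ s x ^ 2) := i12.add i3
  rw [← integral_const_mul, ← integral_const_mul, ← integral_sub i1 i2,
    ← integral_add i12 i3, ← integral_sub i123 i4]
  refine integral_congr_ae (Filter.Eventually.of_forall fun x => ?_)
  simp only [bdens, kind, pow_two]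

theorem bdens_expand (t c s : ℝ) {f g : X n → ℝ} (hf : Cc f) (hg : Cc g) (x : X n) :
    bdens t c (fun y => f y - s * g y) (fun y => f y - s * g y) x =
      bdens t c f f x - 2 * s * bdens t c g f x + s ^ 2 * bdens t c g g x := by
  have hd : ∀ v, fderiv ℝ (fun y => f y - s * g y) x v =
      fderiv ℝ f x v - s * fderiv ℝ g x v := by
    intro v
    rw [fderiv_fun_sub (hf.diff x) ((hg.diff x).const_mul s), fderiv_const_mul (hg.diff x)]
    simp
  unfold bdens
  simp only [hd]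
  have e1 : ∑ i : Fin n, ∑ k : Fin 3,
      (fderiv ℝ f x (ed i k) - s * fderiv ℝ g x (ed i k)) *
        (fderiv ℝ f x (ed i k) - s * fderiv ℝ g x (ed i k)) =
      (∑ i : Fin n, ∑ k : Fin 3, fderiv ℝ f x (ed i k) * fderiv ℝ f x (ed i k)) -
      2 * s * (∑ i : Fin n, ∑ k : Fin 3, fderiv ℝ g x (ed i k) * fderiv ℝ f x (ed i k)) +
      s ^ 2 * ∑ i : Fin n, ∑ k : Fin 3, fderiv ℝ g x (ed i k) * fderiv ℝ g x (ed i k) := by
    simp only [Finset.mul_sum, ← Finset.sum_sub_distrib, ← Finset.sum_add_distrib]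
    refine Finset.sum_congr rfl fun i _ => Finset.sum_congr rfl fun k _ => ?_
    ring
  rw [e1]
  ring

theorem adm_sub {ψ φ : (Fin n → Fin 2) → X n → ℝ} (h : Adm n ψ) (h' : Adm n φ) (s : ℝ) :
    Adm n (fun a x => ψ a x - s * φ a x) where
  smooth a := (h.smooth a).sub (contDiff_const.mul (h'.smooth a))
  cpt a := (h.cpt a).sub ((h'.cpt a).mul_left)
  anti σ a x := by
    rw [h.anti σ a x, h'.anti σ a x]
    ring

end LiebUAux

open LiebUAux in
theorem lieb_upper (hμ : 0 < μ) (hκ : 0 < κ) (ht : 0 ≤ t) :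
    ∃ C : ℝ, 0 ≤ C ∧ ∀ ψ : (Fin n → Fin 2) → X n → ℝ, Adm n ψ → ∀ s : ℝ, 0 < s →
      BL μ κ t (eps n t) ψ ≤ (en t ψ - eps n t * nrm ψ) / (2 * s)
        + s * C * (kin ψ + t * rep ψ + nrm ψ) := by
  set c := eps n t with hc
  refine ⟨(n / μ) ^ 2 + n + |c| * (n / μ) ^ 2, by positivity, ?_⟩
  intro ψ h s hs
  set Φ : (Fin n → Fin 2) → X n → ℝ := fun a x => gs μ κ x * ψ a x with hΦ
  have hA : Adm n Φ := adm_gs hμ hκ h
  have cψ : ∀ a, Cc (ψ a) := fun a => ⟨h.smooth a, h.cpt a⟩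
  have cΦ : ∀ a, Cc (Φ a) := fun a => ⟨hA.smooth a, hA.cpt a⟩
  -- the variational principle
  have h0 : 0 ≤ en t (fun a x => ψ a x - s * Φ a x) - c * nrm (fun a x => ψ a x - s * Φ a x) := by
    have := eps_mul_le ht (adm_sub h hA s)
    linarith
  have hBL : BL μ κ t c ψ = ∑ a, ∫ x, bdens t c (Φ a) (ψ a) x := by
    unfold BL bdens
    refine Finset.sum_congr rfl fun a _ => integral_congr_ae (Filter.Eventually.of_forall fun x => ?_)
    simp only [hΦ]
    ring
  have hexp : en t (fun a x => ψ a x - s * Φ a x) - c * nrm (fun a x => ψ a x - s * Φ a x) =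
      (en t ψ - c * nrm ψ) - 2 * s * BL μ κ t c ψ + s ^ 2 * (en t Φ - c * nrm Φ) := by
    rw [form_eq (adm_sub h hA s), form_eq h, form_eq hA, hBL, Finset.mul_sum, Finset.mul_sum,
      ← Finset.sum_sub_distrib, ← Finset.sum_add_distrib]
    refine Finset.sum_congr rfl fun a _ => ?_
    have i1 := integrable_bdens t c (cψ a) (cψ a)
    have i2 := (integrable_bdens t c (cΦ a) (cψ a)).const_mul (2 * s)
    have i3 := (integrable_bdens t c (cΦ a) (cΦ a)).const_mul (s ^ 2)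
    have i12 : Integrable fun x => bdens t c (ψ a) (ψ a) x - 2 * s * bdens t c (Φ a) (ψ a) x :=
      i1.sub i2
    rw [← integral_const_mul, ← integral_const_mul, ← integral_sub i1 i2,
      ← integral_add i12 i3]
    exact integral_congr_ae (Filter.Eventually.of_forall fun x => bdens_expand t c s (cψ a) (cΦ a) x)
  -- the upper bounds
  have i1 : ∀ a, Integrable (kind (ψ a)) := fun a => by
    have := integrable_dd (cψ a) (cψ a)
    simp only [← pow_two] at this
    exact this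
  have i1' : ∀ a, Integrable (kind (Φ a)) := fun a => by
    have := integrable_dd (cΦ a) (cΦ a)
    simp only [← pow_two] at this
    exact this
  have c2 : ∀ f : X n → ℝ, Cc f → Continuous (fun x => f x ^ 2) ∧
      HasCompactSupport fun x => f x ^ 2 := fun f hf => by
    refine ⟨hf.cont.pow 2, ?_⟩
    simp only [pow_two]
    exact hf.mulc
  have i4 : ∀ a, Integrable fun x => ψ a x ^ 2 := fun a =>
    (c2 _ (cψ a)).1.integrable_of_hasCompactSupport (c2 _ (cψ a)).2
  have i4' : ∀ a, Integrable fun x => Φ a x ^ 2 := fun a =>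
    (c2 _ (cΦ a)).1.integrable_of_hasCompactSupport (c2 _ (cΦ a)).2
  have hsq : ∀ a x, Φ a x ^ 2 ≤ (n / μ) ^ 2 * ψ a x ^ 2 := fun a x => by
    simp only [hΦ, mul_pow]
    exact mul_le_mul_of_nonneg_right (gs_sq_le hμ hκ x) (sq_nonneg _)
  have u1 : kin Φ ≤ 2 * (n / μ) ^ 2 * kin ψ + 2 * n * nrm ψ := by
    unfold kin nrm
    rw [Finset.mul_sum, Finset.mul_sum, ← Finset.sum_add_distrib]
    refine Finset.sum_le_sum fun a _ => ?_
    rw [← integral_const_mul, ← integral_const_mul,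
      ← integral_add ((i1 a).const_mul _) ((i4 a).const_mul _)]
    exact integral_mono (i1' a) (((i1 a).const_mul _).add ((i4 a).const_mul _))
      fun x => kind_gs_le hμ hκ (cψ a).diff x
  have u4 : nrm Φ ≤ (n / μ) ^ 2 * nrm ψ := by
    unfold nrm
    rw [Finset.mul_sum]
    refine Finset.sum_le_sum fun a _ => ?_
    rw [← integral_const_mul]
    exact integral_mono (i4' a) ((i4 a).const_mul _) (hsq a)
  have u3 : rep Φ ≤ (n / μ) ^ 2 * rep ψ := by
    unfold rep
    rw [Finset.mul_sum]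
    refine Finset.sum_le_sum fun a _ => ?_
    rw [← integral_const_mul]
    refine integral_mono (integrable_repd (c2 _ (cΦ a)).1 (c2 _ (cΦ a)).2)
      ((integrable_repd (c2 _ (cψ a)).1 (c2 _ (cψ a)).2).const_mul _) fun x => ?_
    have hr : 0 ≤ repd x := by
      unfold repd
      refine Finset.sum_nonneg fun i _ => Finset.sum_nonneg fun j _ => ?_
      split_ifs
      · positivity
      · exact le_rfl
    have := mul_le_mul_of_nonneg_left (hsq a x) hr
    simp only
    linarith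
  have hq : en t Φ - c * nrm Φ ≤ 2 * (((n / μ) ^ 2 + n + |c| * (n / μ) ^ 2) *
      (kin ψ + t * rep ψ + nrm ψ)) := by
    have a1 := att_nonneg Φ
    have a2 := kin_nonneg ψ
    have a3 := rep_nonneg ψ
    have a4 := nrm_nonneg ψ
    have a5 := nrm_nonneg Φ
    have b1 : -c * nrm Φ ≤ |c| * ((n / μ) ^ 2 * nrm ψ) :=
      (mul_le_mul_of_nonneg_right (neg_le_abs c) a5).trans
        (mul_le_mul_of_nonneg_left u4 (abs_nonneg c))
    have b2 : t * rep Φ ≤ t * ((n / μ) ^ 2 * rep ψ) := mul_le_mul_of_nonneg_left u3 ht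
    have m0 : 0 ≤ ((n : ℝ) / μ) ^ 2 := sq_nonneg _
    have n0 : (0 : ℝ) ≤ n := Nat.cast_nonneg n
    have c0 : 0 ≤ |c| := abs_nonneg c
    have p1 : 0 ≤ (n : ℝ) * kin ψ := mul_nonneg n0 a2
    have p2 : 0 ≤ (|c| * (n / μ) ^ 2) * kin ψ := by positivity
    have p3 : 0 ≤ ((n : ℝ) / μ) ^ 2 * (t * rep ψ) := by positivity
    have p4 : 0 ≤ (n : ℝ) * (t * rep ψ) := by positivity
    have p5 : 0 ≤ (|c| * (n / μ) ^ 2) * (t * rep ψ) := by positivity
    have p6 : 0 ≤ ((n : ℝ) / μ) ^ 2 * nrm ψ := by positivity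
    have p7 : 0 ≤ (|c| * (n / μ) ^ 2) * nrm ψ := by positivity
    unfold en
    linarith
  -- conclusion
  rw [hexp] at h0
  have h1 : s ^ 2 * (en t Φ - c * nrm Φ) ≤ s ^ 2 * (2 * (((n / μ) ^ 2 + n + |c| * (n / μ) ^ 2) *
      (kin ψ + t * rep ψ + nrm ψ))) := mul_le_mul_of_nonneg_left hq (sq_nonneg s)
  have h2 : 2 * s * BL μ κ t c ψ ≤ (en t ψ - c * nrm ψ) + 2 * s * (s *
      ((n / μ) ^ 2 + n + |c| * (n / μ) ^ 2) * (kin ψ + t * rep ψ + nrm ψ)) := by
    linarith
  have h3 : 0 < 2 * s := by linarith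
  have h4 : BL μ κ t c ψ - s * ((n / μ) ^ 2 + n + |c| * (n / μ) ^ 2) *
      (kin ψ + t * rep ψ + nrm ψ) ≤ (en t ψ - c * nrm ψ) / (2 * s) := by
    rw [le_div_iff₀ h3]
    linarith
  linarith

end Pool.Agent.Lib.CX
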