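import Mathlib
import Pool.Agent.Lib.CX.LiebDef
import Pool.Agent.Lib.CX.LiebU
import Pool.Agent.Lib.CX.LiebL
import Pool.Agent.Lib.CX.Dil
import Pool.Agent.Lib.CX.Mono

/-! CX task B4: consequences of the two bounds. -/

set_option autoImplicit false

open MeasureTheory Set

noncomputable section

namespace Pool.Agent.Lib.CX

variable {n : ℕ} {μ κ t : ℝ}

private lemma lieb_ae_ne_zero : ∀ᵐ x : X n, ∀ i, x i ≠ 0 := by
  rw [ae_all_iff]
  intro i
  exact Measure.ae_eval_ne (μ := fun _ : Fin n => (volume : Measure R3)) i 0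

private lemma lieb_sq_hcs {f : X n → ℝ} (hc : HasCompactSupport f) :
    HasCompactSupport (fun x => (f x) ^ 2) :=
  hc.comp_left (g := fun y : ℝ => y ^ 2) (by simp)

private lemma gs_cont (hμ : 0 < μ) (hκ : 0 < κ) : Continuous (gs μ κ : X n → ℝ) :=
  continuous_finsetSum _ fun i _ => (gw_contDiff hμ hκ).continuous.comp (continuous_apply i)

private lemma gm_poly (hμ : 0 < μ) (hκ : 0 < κ) {ψ : (Fin n → Fin 2) → X n → ℝ} (h : Adm n ψ)
    (h1 : nrm ψ = 1) (l : ℝ) : 0 ≤ Gm μ κ ψ * (l * l) + (-(2 * n)) * l + (att ψ + n * μ) := by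
  have hsq : ∀ s, Continuous fun x => (ψ s x) ^ 2 := fun s => (h.smooth s).continuous.pow 2
  have hi1 : ∀ s, Integrable fun x => gs μ κ x * (ψ s x) ^ 2 := fun s =>
    ((gs_cont hμ hκ).mul (hsq s)).integrable_of_hasCompactSupport (lieb_sq_hcs (h.cpt s)).mul_left
  have hi2 : ∀ s, Integrable fun x => (ψ s x) ^ 2 := fun s =>
    (hsq s).integrable_of_hasCompactSupport (lieb_sq_hcs (h.cpt s))
  have hi3 : ∀ s, Integrable fun x => attd x * (ψ s x) ^ 2 := fun s =>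
    integrable_attd (hsq s) (lieb_sq_hcs (h.cpt s))
  have h2 : ∀ s, 0 ≤ (l * l) * (∫ x, gs μ κ x * (ψ s x) ^ 2) + (n * μ - 2 * n * l) * (∫ x, (ψ s x) ^ 2)
      + ∫ x, attd x * (ψ s x) ^ 2 := by
    intro s
    have hi12 : Integrable fun x => (l * l) * (gs μ κ x * (ψ s x) ^ 2)
        + (n * μ - 2 * n * l) * (ψ s x) ^ 2 := ((hi1 s).const_mul _).add ((hi2 s).const_mul _)
    rw [← integral_const_mul, ← integral_const_mul, ← integral_add ((hi1 s).const_mul _)
      ((hi2 s).const_mul _), ← integral_add hi12 (hi3 s)]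
    refine integral_nonneg_of_ae ?_
    filter_upwards [lieb_ae_ne_zero] with x hx
    change 0 ≤ (l * l) * (gs μ κ x * (ψ s x) ^ 2) + (n * μ - 2 * n * l) * (ψ s x) ^ 2
      + attd x * (ψ s x) ^ 2
    have h3 : 0 ≤ (l * l) * gs μ κ x + (n * μ - 2 * n * l) + attd x := by
      have h4 : (l * l) * gs μ κ x + (n * μ - 2 * n * l) + attd x
          = ∑ i : Fin n, ((l * l) * gw μ κ (x i) + (μ - 2 * l) + 1 / ‖x i‖) := by
        unfold gs attd
        rw [Finset.sum_add_distrib, Finset.sum_add_distrib, Finset.mul_sum]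
        simp
        ring
      rw [h4]
      refine Finset.sum_nonneg fun i _ => ?_
      have h5 := gw_inv hμ hκ (hx i)
      have h6 := gw_pos hμ hκ (x i)
      have h7 : 0 ≤ (gw μ κ (x i) * l - 1) ^ 2 / gw μ κ (x i) := by positivity
      have h8 : (gw μ κ (x i) * l - 1) ^ 2 / gw μ κ (x i)
          = (l * l) * gw μ κ (x i) - 2 * l + 1 / gw μ κ (x i) := by
        field_simp
        ring
      linarith
    have h9 : (l * l) * (gs μ κ x * (ψ s x) ^ 2) + (n * μ - 2 * n * l) * (ψ s x) ^ 2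
      + attd x * (ψ s x) ^ 2 = ((l * l) * gs μ κ x + (n * μ - 2 * n * l) + attd x) * (ψ s x) ^ 2 := by
      ring
    rw [h9]
    positivity
  have h3 := Finset.sum_nonneg fun s (_ : s ∈ (Finset.univ : Finset (Fin n → Fin 2))) => h2 s
  rw [Finset.sum_add_distrib, Finset.sum_add_distrib, ← Finset.mul_sum, ← Finset.mul_sum] at h3
  have h4 : (∑ s : Fin n → Fin 2, ∫ x, (ψ s x) ^ 2) = 1 := h1
  rw [h4] at h3
  change 0 ≤ l * l * Gm μ κ ψ + (n * μ - 2 * n * l) * 1 + att ψ at h3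
  linarith

/-- Cauchy and Schwarz: `n² ≤ ⟨∑ g⟩ (⟨∑ 1/r⟩ + n μ)` for normalised functions -/
theorem gm_lower (hμ : 0 < μ) (hκ : 0 < κ) {ψ : (Fin n → Fin 2) → X n → ℝ} (h : Adm n ψ)
    (h1 : nrm ψ = 1) : (n : ℝ) ^ 2 ≤ Gm μ κ ψ * (att ψ + n * μ) := by
  have h2 := discrim_le_zero (gm_poly hμ hκ h h1)
  unfold discrim at h2
  nlinarith

/-- the inequality obtained from one trial function -/
private lemma lieb_step (hμ : 0 < μ) (hκ : 0 < κ) (ht : 0 ≤ t) {A R : ℝ}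
    (hA : ∀ δ : ℝ, 0 < δ → ∃ ψ : (Fin (n + 1) → Fin 2) → X (n + 1) → ℝ, Adm (n + 1) ψ ∧
      nrm ψ = 1 ∧ en t ψ < eps (n + 1) t + δ ∧ att ψ ≤ A + δ)
    (hR : (n + 1 : ℝ) * (1 - n * t / 2) ≤ R)
    (hD : 0 ≤ eps n t - eps (n + 1) t - t * n * μ) :
    ∃ C : ℝ, 0 ≤ C ∧ ∀ s : ℝ, 0 < s → ∀ δ : ℝ, 0 < δ →
      (eps n t - eps (n + 1) t - t * n * μ) * (n + 1 : ℝ) ^ 2 ≤
        (R + κ * (A + δ) + δ / (2 * s) + s * C * (eps (n + 1) t + δ + (A + δ) + 1))
          * (A + δ + (n + 1) * μ) := by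
  obtain ⟨C, hC, hup⟩ := lieb_upper (n := n + 1) hμ hκ ht
  refine ⟨C, hC, fun s hs δ hδ => ?_⟩
  obtain ⟨ψ, hψ, h1, h2, h3⟩ := hA δ hδ
  have hu := hup ψ hψ s hs
  have hl := lieb_lower (c := eps (n + 1) t) hμ hκ ht hψ
  have hg := gm_lower hμ hκ hψ h1
  rw [h1] at hu hl
  have hkr : kin ψ + t * rep ψ + 1 ≤ eps (n + 1) t + δ + (A + δ) + 1 := by
    have : en t ψ = kin ψ - att ψ + t * rep ψ := rfl
    linarith
  have h4 : (en t ψ - eps (n + 1) t * 1) / (2 * s) ≤ δ / (2 * s) :=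
    div_le_div_of_nonneg_right (by linarith) (by positivity)
  have h5 : s * C * (kin ψ + t * rep ψ + 1) ≤ s * C * (eps (n + 1) t + δ + (A + δ) + 1) :=
    mul_le_mul_of_nonneg_left hkr (by positivity)
  have h6 : κ * att ψ ≤ κ * (A + δ) := mul_le_mul_of_nonneg_left h3 hκ.le
  have hmain : (eps n t - eps (n + 1) t - t * n * μ) * Gm μ κ ψ ≤
      R + κ * (A + δ) + δ / (2 * s) + s * C * (eps (n + 1) t + δ + (A + δ) + 1) := by
    nlinarith
  have hG : 0 ≤ Gm μ κ ψ := by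
    refine Finset.sum_nonneg fun s _ => integral_nonneg fun x => ?_
    have : 0 ≤ gs μ κ x := Finset.sum_nonneg fun i _ => (gw_pos hμ hκ (x i)).le
    positivity
  have hatt : 0 ≤ att ψ := att_nonneg ψ
  have hP : 0 ≤ A + δ + (n + 1) * μ := by
    have : (0 : ℝ) ≤ (n + 1) * μ := by positivity
    linarith
  have hg2 : ((n : ℝ) + 1) ^ 2 ≤ Gm μ κ ψ * (A + δ + (n + 1) * μ) := by
    push_cast at hg
    refine hg.trans (mul_le_mul_of_nonneg_left ?_ hG)
    linarith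
  calc (eps n t - eps (n + 1) t - t * n * μ) * (n + 1 : ℝ) ^ 2
      ≤ (eps n t - eps (n + 1) t - t * n * μ) * (Gm μ κ ψ * (A + δ + (n + 1) * μ)) :=
        mul_le_mul_of_nonneg_left hg2 hD
    _ = ((eps n t - eps (n + 1) t - t * n * μ) * Gm μ κ ψ) * (A + δ + (n + 1) * μ) := by ring
    _ ≤ _ := mul_le_mul_of_nonneg_right hmain hP

/-- passing to the limit at `0` from the right -/
private lemma le_at_zero {f g : ℝ → ℝ} (hf : ContinuousAt f 0) (hg : ContinuousAt g 0) {e : ℝ}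
    (he : 0 < e) (h : ∀ x, 0 < x → x < e → f x ≤ g x) : f 0 ≤ g 0 := by
  have h1 : Filter.Tendsto f (nhdsWithin 0 (Ioi 0)) (nhds (f 0)) := hf.tendsto.mono_left nhdsWithin_le_nhds
  have h2 : Filter.Tendsto g (nhdsWithin 0 (Ioi 0)) (nhds (g 0)) := hg.tendsto.mono_left nhdsWithin_le_nhds
  refine le_of_tendsto_of_tendsto h1 h2 ?_
  filter_upwards [Ioo_mem_nhdsGT he] with x hx
  exact h x hx.1 hx.2

/-- quantitative form of Lieb's bound -/
theorem lieb_quant (ht : 0 ≤ t) {A R : ℝ}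
    (hA : ∀ δ : ℝ, 0 < δ → ∃ ψ : (Fin (n + 1) → Fin 2) → X (n + 1) → ℝ, Adm (n + 1) ψ ∧
      nrm ψ = 1 ∧ en t ψ < eps (n + 1) t + δ ∧ att ψ ≤ A + δ)
    (hR0 : 0 ≤ R) (hR : (n + 1 : ℝ) * (1 - n * t / 2) ≤ R) :
    (eps n t - eps (n + 1) t) * (n + 1 : ℝ) ^ 2 ≤ A * R := by
  have hA0 : 0 ≤ A := by
    refine le_of_forall_pos_le_add fun δ hδ => ?_
    obtain ⟨ψ, _, _, _, h3⟩ := hA δ hδ
    exact (att_nonneg ψ).trans h3
  have hD0 : 0 ≤ eps n t - eps (n + 1) t := sub_nonneg.2 (eps_succ_le n ht)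
  rcases hD0.eq_or_lt with hD | hD
  · rw [← hD, zero_mul]
    positivity
  -- `μ` small
  have hμ0 : 0 < (eps n t - eps (n + 1) t) / (t * n + 1) := by positivity
  have key : ∀ μ, 0 < μ → μ < (eps n t - eps (n + 1) t) / (t * n + 1) →
      (eps n t - eps (n + 1) t - t * n * μ) * (n + 1 : ℝ) ^ 2 ≤ R * (A + (n + 1) * μ) := by
    intro μ hμ hμ1
    have hDμ : 0 ≤ eps n t - eps (n + 1) t - t * n * μ := by
      rw [lt_div_iff₀ (by positivity)] at hμ1
      nlinarith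
    have hk : ∀ κ, 0 < κ → (eps n t - eps (n + 1) t - t * n * μ) * (n + 1 : ℝ) ^ 2 ≤
        (R + κ * A) * (A + (n + 1) * μ) := by
      intro κ hκ
      obtain ⟨C, hC, hst⟩ := lieb_step hμ hκ ht hA hR hDμ
      have hs : ∀ s, 0 < s → (eps n t - eps (n + 1) t - t * n * μ) * (n + 1 : ℝ) ^ 2 ≤
          (R + κ * A + s * C * (eps (n + 1) t + A + 1)) * (A + (n + 1) * μ) := by
        intro s hs
        have := le_at_zero (f := fun _ => (eps n t - eps (n + 1) t - t * n * μ) * (n + 1 : ℝ) ^ 2)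
          (g := fun δ => (R + κ * (A + δ) + δ / (2 * s) + s * C * (eps (n + 1) t + δ + (A + δ) + 1))
          * (A + δ + (n + 1) * μ)) continuousAt_const (by fun_prop) one_pos
          (fun δ hδ _ => hst s hs δ hδ)
        simpa using this
      have := le_at_zero (f := fun _ => (eps n t - eps (n + 1) t - t * n * μ) * (n + 1 : ℝ) ^ 2)
          (g := fun s => (R + κ * A + s * C * (eps (n + 1) t + A + 1)) * (A + (n + 1) * μ))
          continuousAt_const (by fun_prop) one_pos (fun s h0 _ => hs s h0)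
      simpa using this
    have := le_at_zero (f := fun _ => (eps n t - eps (n + 1) t - t * n * μ) * (n + 1 : ℝ) ^ 2)
          (g := fun κ => (R + κ * A) * (A + (n + 1) * μ))
          continuousAt_const (by fun_prop) one_pos (fun s h0 _ => hk s h0)
    simpa using this
  have := le_at_zero (f := fun μ => (eps n t - eps (n + 1) t - t * n * μ) * (n + 1 : ℝ) ^ 2)
    (g := fun μ => R * (A + (n + 1) * μ)) (by fun_prop) (by fun_prop) hμ0 key
  simp only [mul_zero, sub_zero, add_zero] at this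
  linarith

/-- Lieb's theorem in terms of the infima: no binding of the electron `n + 1` if `n t ≥ 2` -/
theorem lieb_no_binding (ht : 2 ≤ n * t) (ht0 : 0 ≤ t) : eps n t ≤ eps (n + 1) t := by
  have h := lieb_quant (n := n) (t := t) ht0 (A := eps (n + 1) t + (n + 1)) (R := 0) ?_ le_rfl ?_
  · rw [mul_zero] at h
    have h1 : (0 : ℝ) < (n + 1 : ℝ) ^ 2 := by positivity
    by_contra hcon
    push Not at hcon
    have h2 : 0 < (eps n t - eps (n + 1) t) * (n + 1 : ℝ) ^ 2 := mul_pos (by linarith) h1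
    linarith
  · intro δ hδ
    obtain ⟨ψ, hψ, h1, h2⟩ := exists_near (n := n + 1) (t := t) (eSet_nonempty _ _) hδ
    refine ⟨ψ, hψ, h1, h2, ?_⟩
    have h3 := att_le_kin hψ 2 (by norm_num)
    rw [h1] at h3
    push_cast at h3
    have h4 : en t ψ = kin ψ - att ψ + t * rep ψ := rfl
    have h5 := mul_nonneg ht0 (rep_nonneg ψ)
    linarith
  · have h1 : (0 : ℝ) ≤ (n + 1 : ℝ) := by positivity
    have h2 : 1 - n * t / 2 ≤ 0 := by linarith
    exact mul_nonpos_of_nonneg_of_nonpos h1 h2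

end Pool.Agent.Lib.CX
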