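import Mathlib
import Pool.Agent.Lib.CX.Basic
import Pool.Agent.Lib.CX.Integ
import Pool.Agent.Lib.CX.Slice
import Pool.Agent.Lib.CX.Perm
import Pool.Agent.Lib.CX.Bdd
import Pool.Agent.Lib.CX.Wave
import Pool.Agent.Lib.CX.Hyd2
import Pool.Agent.Lib.CX.Occ

/-! CX task E7: three electrons without repulsion. -/

set_option autoImplicit false

open MeasureTheory Set Filter Topology

noncomputable section

namespace Pool.Agent.Lib.CX

namespace ThreeAux

variable {n : ℕ}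

theorem continuous_kinp {f : X n → ℝ} (hf : ContDiff ℝ (⊤ : ℕ∞) f) (i : Fin n) :
    Continuous (kinp f i) := by
  unfold kinp
  apply continuous_finsetSum
  intro k _
  exact ((hf.continuous_fderiv (by simp)).clm_apply continuous_const).pow 2

theorem cs_kinp {f : X n → ℝ} (hc : HasCompactSupport f) (i : Fin n) :
    HasCompactSupport (kinp f i) := by
  apply HasCompactSupport.intro hc.isCompact
  intro x hx
  unfold kinp
  apply Finset.sum_eq_zero
  intro k _
  rw [fderiv_of_notMem_tsupport ℝ hx]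
  simp

theorem int_kinp {ψ : (Fin n → Fin 2) → X n → ℝ} (h : Adm n ψ) (i : Fin n)
    (s : Fin n → Fin 2) : Integrable (kinp (ψ s) i) :=
  (continuous_kinp (h.smooth s) i).integrable_of_hasCompactSupport (cs_kinp (h.cpt s) i)

theorem int_att {ψ : (Fin n → Fin 2) → X n → ℝ} (h : Adm n ψ) (i : Fin n)
    (s : Fin n → Fin 2) : Integrable (fun x => 1 / ‖x i‖ * (ψ s x) ^ 2) :=
  integrable_inv_coord ((h.smooth s).continuous.pow 2)
    (HasCompactSupport.intro (h.cpt s).isCompact (fun x hx => by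
      show (ψ s x) ^ 2 = 0
      rw [image_eq_zero_of_notMem_tsupport hx]
      norm_num)) i

theorem kin_eq {ψ : (Fin (n + 1) → Fin 2) → X (n + 1) → ℝ} (h : Adm (n + 1) ψ) :
    kin ψ = ((n + 1 : ℕ) : ℝ) * ∑ s, ∫ x, kinp (ψ s) 0 x := by
  have h1 : kin ψ = ∑ i, ∑ s, ∫ x, kinp (ψ s) i x := by
    unfold kin
    rw [Finset.sum_comm]
    refine Finset.sum_congr rfl fun s _ => ?_
    rw [← integral_finsetSum _ (fun i _ => int_kinp h i s)]
    rfl
  have h2 : ∀ i, ∑ s, ∫ x, kinp (ψ s) i x = ∑ s, ∫ x, kinp (ψ s) 0 x := by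
    intro i
    have h3 := kinp_perm h (fun _ => 1) i
    simpa using h3
  rw [h1]
  simp only [h2]
  rw [Finset.sum_const, Finset.card_univ, Fintype.card_fin, nsmul_eq_mul]

theorem att_eq {ψ : (Fin (n + 1) → Fin 2) → X (n + 1) → ℝ} (h : Adm (n + 1) ψ) :
    att ψ = ((n + 1 : ℕ) : ℝ) * ∑ s, ∫ x : X (n + 1), 1 / ‖x 0‖ * (ψ s x) ^ 2 := by
  have h1 : att ψ = ∑ i, ∑ s, ∫ x : X (n + 1), 1 / ‖x i‖ * (ψ s x) ^ 2 := by
    unfold att
    rw [Finset.sum_comm]
    refine Finset.sum_congr rfl fun s _ => ?_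
    rw [← integral_finsetSum _ (fun i _ => int_att h i s)]
    congr 1
    funext x
    unfold attd
    rw [Finset.sum_mul]
  have h2 : ∀ i, ∑ s, ∫ x : X (n + 1), 1 / ‖x i‖ * (ψ s x) ^ 2
      = ∑ s, ∫ x : X (n + 1), 1 / ‖x 0‖ * (ψ s x) ^ 2 := by
    intro i
    exact sq_perm h (fun u => 1 / ‖u‖) i
  rw [h1]
  simp only [h2]
  rw [Finset.sum_const, Finset.card_univ, Fintype.card_fin, nsmul_eq_mul]

/-- the slice in the variable of particle `0` -/
def sl (ψ : (Fin (n + 1) → Fin 2) → X (n + 1) → ℝ) (a : Fin 2) (s : Fin n → Fin 2) (y : X n)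
    (u : R3) : ℝ := ψ (Fin.cons a s : Fin (n + 1) → Fin 2) (Fin.cons u y : X (n + 1))

theorem contDiff_sl {ψ : (Fin (n + 1) → Fin 2) → X (n + 1) → ℝ} (h : Adm (n + 1) ψ) (a : Fin 2)
    (s : Fin n → Fin 2) (y : X n) : ContDiff ℝ 1 (sl ψ a s y) := by
  have h1 : ContDiff ℝ 1 (fun u : R3 => (Fin.cons u y : X (n + 1))) := by
    rw [contDiff_pi]
    intro i
    refine Fin.cases ?_ (fun k => ?_) i
    · simp only [Fin.cons_zero]
      exact contDiff_id
    · simp only [Fin.cons_succ]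
      exact contDiff_const
  exact ((h.smooth _).of_le (by simp)).comp h1

theorem cs_sl {ψ : (Fin (n + 1) → Fin 2) → X (n + 1) → ℝ} (h : Adm (n + 1) ψ) (a : Fin 2)
    (s : Fin n → Fin 2) (y : X n) : HasCompactSupport (sl ψ a s y) := by
  obtain ⟨R, hR⟩ := OccAux.exists_rad (h.cpt (Fin.cons a s : Fin (n + 1) → Fin 2))
  apply HasCompactSupport.intro (isCompact_closedBall (0 : R3) R)
  intro u hu
  rw [mem_closedBall_zero_iff, not_le] at hu
  unfold sl
  apply hR
  exact ⟨0, by rw [Fin.cons_zero]; exact hu⟩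

theorem gsq_sl {ψ : (Fin (n + 1) → Fin 2) → X (n + 1) → ℝ} (h : Adm (n + 1) ψ) (a : Fin 2)
    (s : Fin n → Fin 2) (y : X n) (u : R3) : gsq (sl ψ a s y) u
      = kinp (ψ (Fin.cons a s : Fin (n + 1) → Fin 2)) 0 (Fin.cons u y : X (n + 1)) := by
  unfold gsq kinp
  refine Finset.sum_congr rfl fun k _ => ?_
  rw [← fderiv_cons_zero ((h.smooth _).differentiable (by simp)) u y k]
  rfl

theorem int_gsq {f : R3 → ℝ} (hf : ContDiff ℝ 1 f) (hc : HasCompactSupport f) :
    Integrable (gsq f) := by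
  have h1 : Continuous (gsq f) := by
    unfold gsq
    apply continuous_finsetSum
    intro k _
    exact ((hf.continuous_fderiv (by simp)).clm_apply continuous_const).pow 2
  apply h1.integrable_of_hasCompactSupport
  apply HasCompactSupport.intro hc.isCompact
  intro x hx
  unfold gsq
  apply Finset.sum_eq_zero
  intro k _
  rw [fderiv_of_notMem_tsupport ℝ hx]
  simp

theorem int_inv_sq {f : R3 → ℝ} (hf : ContDiff ℝ 1 f) (hc : HasCompactSupport f) :
    Integrable (fun u => 1 / ‖u‖ * (f u) ^ 2) :=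
  integrable_inv_norm (hf.continuous.pow 2) (HasCompactSupport.intro hc.isCompact (fun x hx => by
      show (f x) ^ 2 = 0
      rw [image_eq_zero_of_notMem_tsupport hx]
      norm_num))

/-- the form of particle `0` -/
theorem form_slice {ψ : (Fin (n + 1) → Fin 2) → X (n + 1) → ℝ} (h : Adm (n + 1) ψ) (a : Fin 2)
    (s : Fin n → Fin 2) :
    -(3 / 16) * (∫ y : X n, (OccAux.chi ψ a s y) ^ 2)
      - 1 / 16 * (∫ x, (ψ (Fin.cons a s : Fin (n + 1) → Fin 2) x) ^ 2)
      ≤ (∫ x, kinp (ψ (Fin.cons a s : Fin (n + 1) → Fin 2)) 0 x)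
        - ∫ x : X (n + 1), 1 / ‖x 0‖ * (ψ (Fin.cons a s : Fin (n + 1) → Fin 2) x) ^ 2 := by
  set t : Fin (n + 1) → Fin 2 := Fin.cons a s with ht
  have i1 := int_kinp h 0 t
  have i2 := int_att h 0 t
  have i3 : Integrable (fun x => (ψ t x) ^ 2) := (OccAux.memLp_psi h t).integrable_sq
  have i4 : Integrable (fun x => kinp (ψ t) 0 x - 1 / ‖x 0‖ * (ψ t x) ^ 2) := i1.sub i2
  have i5 := (integrable_cons i4).integral_prod_right
  have i6 := (integrable_cons i3).integral_prod_right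
  have i7 := (integrable_cons (OccAux.int_SS h a 0 0 t)).integral_prod_right
  have e7 : (fun y : X n => ∫ u : R3, OccAux.pp a ψ 0 t (Fin.cons u y : X (n + 1))
      * OccAux.pp a ψ 0 t (Fin.cons u y : X (n + 1))) = fun y => (OccAux.chi ψ a s y) ^ 2 := by
    funext y
    simp only [ht, OccAux.pp_zero_cons, if_true]
    have h1 : ∀ u : R3, ph0 u * OccAux.chi ψ a s y * (ph0 u * OccAux.chi ψ a s y)
        = (OccAux.chi ψ a s y) ^ 2 * (ph0 u) ^ 2 := by
      intro u
      ring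
    simp only [h1]
    rw [integral_const_mul, int_ph0_sq, mul_one]
  have i8 : Integrable (fun y => (OccAux.chi ψ a s y) ^ 2) := by
    rw [← e7]
    exact i7
  rw [← integral_sub i1 i2, integral_cons_iter' i4, integral_cons_iter' i3,
    ← integral_const_mul, ← integral_const_mul, ← integral_sub (i8.const_mul _) (i6.const_mul _)]
  apply integral_mono ((i8.const_mul _).sub (i6.const_mul _)) i5
  intro y
  have hf := contDiff_sl h a s y
  have hc := cs_sl h a s y
  have h1 := hyd_one hf hc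
  have h2 : qh (sl ψ a s y) = ∫ u : R3, (kinp (ψ t) 0 (Fin.cons u y : X (n + 1))
      - 1 / ‖(Fin.cons u y : X (n + 1)) 0‖ * (ψ t (Fin.cons u y : X (n + 1))) ^ 2) := by
    unfold qh
    rw [← integral_sub (int_gsq hf hc) (int_inv_sq hf hc)]
    congr 1
    funext u
    rw [gsq_sl h, Fin.cons_zero]
    rfl
  have h3 : al (sl ψ a s y) = OccAux.chi ψ a s y := rfl
  have h4 : ∫ u, (sl ψ a s y u) ^ 2 = ∫ u : R3, (ψ t (Fin.cons u y : X (n + 1))) ^ 2 := rfl
  rw [h2, h3, h4] at h1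
  show -(3 / 16) * (OccAux.chi ψ a s y) ^ 2
      - 1 / 16 * (∫ u : R3, (ψ t (Fin.cons u y : X (n + 1))) ^ 2) ≤ _
  linarith

theorem form_zero {ψ : (Fin (n + 1) → Fin 2) → X (n + 1) → ℝ} (h : Adm (n + 1) ψ) :
    -(3 / 16) * (occ ψ 0 + occ ψ 1) - 1 / 16 * nrm ψ
      ≤ (∑ s, ∫ x, kinp (ψ s) 0 x) - ∑ s, ∫ x : X (n + 1), 1 / ‖x 0‖ * (ψ s x) ^ 2 := by
  have h1 : -(3 / 16) * (occ ψ 0 + occ ψ 1) - 1 / 16 * nrm ψ
      = ∑ a : Fin 2, ∑ s : Fin n → Fin 2, (-(3 / 16) * (∫ y : X n, (OccAux.chi ψ a s y) ^ 2)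
      - 1 / 16 * (∫ x, (ψ (Fin.cons a s : Fin (n + 1) → Fin 2) x) ^ 2)) := by
    have h2 : ∀ a, occ ψ a = ∑ s : Fin n → Fin 2, ∫ y : X n, (OccAux.chi ψ a s y) ^ 2 :=
      fun _ => rfl
    unfold nrm
    rw [sum_spin_cons, h2, h2, Fin.sum_univ_two, Fin.sum_univ_two, Finset.sum_sub_distrib,
      Finset.sum_sub_distrib, ← Finset.mul_sum, ← Finset.mul_sum, ← Finset.mul_sum,
      ← Finset.mul_sum]
    ring
  rw [h1, ← Finset.sum_sub_distrib, sum_spin_cons]
  exact Finset.sum_le_sum fun a _ => Finset.sum_le_sum fun s _ => form_slice h a s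

end ThreeAux

open ThreeAux

theorem three_free {ψ : (Fin 3 → Fin 2) → X 3 → ℝ} (h : Adm 3 ψ) :
    -(9 / 16) * nrm ψ ≤ kin ψ - att ψ := by
  have h1 := form_zero h
  have h2 := occ_le h 0
  have h3 := occ_le h 1
  rw [ThreeAux.kin_eq h, ThreeAux.att_eq h]
  push_cast
  norm_num at h1 ⊢
  linarith

end Pool.Agent.Lib.CX
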