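import Mathlib
import Pool.Agent.Lib.CX.Basic

/-! CX task G5: double integrals of polynomials times exponentials over `0 < a < b`. -/

set_option autoImplicit false

open MeasureTheory Set Filter Topology

noncomputable section

namespace Pool.Agent.Lib.CX

/-- the value of the double integral -/
def Jv (i j : ℕ) (p q : ℝ) : ℝ :=
  ∑ k ∈ Finset.range (j + 1), (j.factorial : ℝ) / ((j - k).factorial : ℝ) / q ^ (k + 1)
    * (((i + (j - k)).factorial : ℝ) / (p + q) ^ (i + (j - k) + 1))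

namespace TJ

/-- the polynomial in the antiderivative of `b ^ j exp (-q b)` -/
def S (q : ℝ) : ℕ → ℝ → ℝ
  | 0, _ => 1 / q
  | j + 1, b => b ^ (j + 1) / q + ((j : ℝ) + 1) / q * S q j b

theorem S_eq (q : ℝ) (j : ℕ) (b : ℝ) : S q j b = ∑ k ∈ Finset.range (j + 1),
    (j.factorial : ℝ) / ((j - k).factorial : ℝ) / q ^ (k + 1) * b ^ (j - k) := by
  induction j with
  | zero => simp [S]
  | succ j ih =>
    rw [Finset.sum_range_succ', S, ih, add_comm, Finset.mul_sum]
    congr 1
    · refine Finset.sum_congr rfl fun k _ => ?_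
      rw [Nat.succ_sub_succ_eq_sub, Nat.factorial_succ]
      push_cast
      rw [pow_succ q (k + 1)]
      ring
    · have : ((j + 1).factorial : ℝ) ≠ 0 := by positivity
      simp only [Nat.sub_zero, zero_add, pow_one]
      rw [div_self this]
      ring

theorem S_deriv {q : ℝ} (hq : q ≠ 0) (j : ℕ) (b : ℝ) :
    HasDerivAt (S q j) (q * S q j b - b ^ j) b := by
  induction j with
  | zero =>
    have h : S q 0 = fun _ => 1 / q := rfl
    rw [h]
    have := hasDerivAt_const b (1 / q)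
    convert! this using 1
    field_simp
    simp
  | succ j ih =>
    have h : S q (j + 1) = fun b => b ^ (j + 1) / q + ((j : ℝ) + 1) / q * S q j b := rfl
    rw [h]
    have h1 := ((hasDerivAt_pow (j + 1) b).div_const q).add (ih.const_mul (((j : ℝ) + 1) / q))
    convert! h1 using 1
    push_cast
    field_simp
    simp
    ring

theorem pow_exp_tendsto {q : ℝ} (hq : 0 < q) (j : ℕ) :
    Tendsto (fun b : ℝ => b ^ j * Real.exp (-q * b)) atTop (𝓝 0) := by
  have h := (isLittleO_pow_exp_pos_mul_atTop j hq).tendsto_div_nhds_zero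
  refine h.congr fun b => ?_
  rw [neg_mul, Real.exp_neg, div_eq_mul_inv]

theorem S_tendsto {q : ℝ} (hq : 0 < q) (j : ℕ) :
    Tendsto (fun b : ℝ => Real.exp (-q * b) * S q j b) atTop (𝓝 0) := by
  induction j with
  | zero =>
    have h := (pow_exp_tendsto hq 0).mul_const (1 / q)
    rw [zero_mul] at h
    refine h.congr fun b => ?_
    simp [S]
  | succ j ih =>
    have h := ((pow_exp_tendsto hq (j + 1)).div_const q).add (ih.const_mul (((j : ℝ) + 1) / q))
    rw [zero_div, mul_zero, add_zero] at h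
    refine h.congr fun b => ?_
    simp only [S]
    ring

theorem pow_exp_integrable {q : ℝ} (hq : 0 < q) (j : ℕ) (a : ℝ) :
    IntegrableOn (fun b : ℝ => b ^ j * Real.exp (-q * b)) (Ioi a) := by
  have hq2 : 0 < q / 2 := by positivity
  refine integrable_of_isBigO_exp_neg hq2 (by fun_prop) ?_
  have h := (isLittleO_pow_exp_pos_mul_atTop j hq2).isBigO
  have h2 : (fun b : ℝ => Real.exp (q / 2 * b) * Real.exp (-q * b)) =
      fun b : ℝ => Real.exp (-(q / 2) * b) := by
    funext b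
    rw [← Real.exp_add]
    ring_nf
  rw [← h2]
  exact h.mul (Asymptotics.isBigO_refl _ _)

theorem pow_exp_integral {q : ℝ} (hq : 0 < q) (j : ℕ) (a : ℝ) :
    ∫ b in Ioi a, b ^ j * Real.exp (-q * b) = Real.exp (-q * a) * S q j a := by
  have hd : ∀ b ∈ Ici a, HasDerivAt (fun b => -(Real.exp (-q * b) * S q j b))
      (b ^ j * Real.exp (-q * b)) b := by
    intro b _
    have h1 : HasDerivAt (fun b : ℝ => Real.exp (-q * b)) (Real.exp (-q * b) * (-q)) b := by
      have := ((hasDerivAt_id b).const_mul (-q)).exp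
      simpa using this
    have h2 := (h1.mul (S_deriv hq.ne' j b)).neg
    convert! h2 using 1
    ring
  have h := integral_Ioi_of_hasDerivAt_of_tendsto' hd (pow_exp_integrable hq j a)
    (m := 0) (by simpa using (S_tendsto hq j).neg)
  rw [h]
  ring

theorem S_zero {q : ℝ} (m : ℕ) : S q m 0 = (m.factorial : ℝ) / q ^ (m + 1) := by
  induction m with
  | zero => simp [S]
  | succ m ih =>
    rw [S, ih, Nat.factorial_succ, pow_succ q (m + 1)]
    push_cast
    rw [zero_pow (by omega)]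
    ring

theorem inner_fun (i j : ℕ) (p q a b : ℝ) : a ^ i * b ^ j * Real.exp (-p * a - q * b) =
    a ^ i * Real.exp (-p * a) * (b ^ j * Real.exp (-q * b)) := by
  have : Real.exp (-p * a - q * b) = Real.exp (-p * a) * Real.exp (-q * b) := by
    rw [← Real.exp_add]
    ring_nf
  rw [this]
  ring

end TJ

open TJ in
theorem Jv_inner (i j : ℕ) {p q : ℝ} (hq : 0 < q) (a : ℝ) :
    ∫ b in Ioi a, a ^ i * b ^ j * Real.exp (-p * a - q * b)
      = ∑ k ∈ Finset.range (j + 1), (j.factorial : ℝ) / ((j - k).factorial : ℝ) / q ^ (k + 1)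
          * (a ^ (i + (j - k)) * Real.exp (-(p + q) * a)) := by
  simp only [inner_fun]
  rw [integral_const_mul, pow_exp_integral hq, S_eq, Finset.mul_sum, Finset.mul_sum]
  refine Finset.sum_congr rfl fun k _ => ?_
  have : Real.exp (-(p + q) * a) = Real.exp (-p * a) * Real.exp (-q * a) := by
    rw [← Real.exp_add]
    ring_nf
  rw [this, pow_add]
  ring

open TJ in
theorem Jv_integrable_inner (i j : ℕ) {p q : ℝ} (hq : 0 < q) (a : ℝ) :
    IntegrableOn (fun b => a ^ i * b ^ j * Real.exp (-p * a - q * b)) (Ioi a) := by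
  simp only [inner_fun]
  exact (pow_exp_integrable hq j a).const_mul _

open TJ in
theorem Jv_integrable (i j : ℕ) {p q : ℝ} (hq : 0 < q) (hpq : 0 < p + q) :
    IntegrableOn (fun a => ∫ b in Ioi a, a ^ i * b ^ j * Real.exp (-p * a - q * b))
      (Ioi (0 : ℝ)) := by
  simp only [Jv_inner i j hq]
  exact integrable_finsetSum _ fun k _ => (pow_exp_integrable hpq _ 0).const_mul _

open TJ in
theorem Jv_eq (i j : ℕ) {p q : ℝ} (hq : 0 < q) (hpq : 0 < p + q) :
    ∫ a in Ioi (0 : ℝ), ∫ b in Ioi a, a ^ i * b ^ j * Real.exp (-p * a - q * b) = Jv i j p q := by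
  simp only [Jv_inner i j hq]
  rw [integral_finsetSum _ fun k _ => (pow_exp_integrable hpq _ 0).const_mul _]
  unfold Jv
  refine Finset.sum_congr rfl fun k _ => ?_
  rw [integral_const_mul, pow_exp_integral hpq, S_zero, mul_zero, Real.exp_zero, one_mul]

/-- a symmetric function on the quadrant -/
theorem quadrant_symm {H : ℝ → ℝ → ℝ} (hs : ∀ a b, H a b = H b a)
    (hi : IntegrableOn (fun p : ℝ × ℝ => H p.1 p.2) (Ioi 0 ×ˢ Ioi 0)) :
    ∫ a in Ioi (0 : ℝ), ∫ b in Ioi (0 : ℝ), H a b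
      = 2 * ∫ a in Ioi (0 : ℝ), ∫ b in Ioi a, H a b := by
  set μ : Measure ℝ := volume.restrict (Ioi (0 : ℝ)) with hμ
  set G : ℝ × ℝ → ℝ := fun p => H p.1 p.2 with hG
  have hGi : Integrable G (μ.prod μ) := by
    rw [hμ, Measure.prod_restrict]
    exact hi
  have hA : MeasurableSet {p : ℝ × ℝ | p.1 < p.2} := measurableSet_lt measurable_fst measurable_snd
  have h0 : ∫ a in Ioi (0 : ℝ), ∫ b in Ioi (0 : ℝ), H a b = ∫ p, G p ∂μ.prod μ :=
    (integral_prod G hGi).symm
  have h1 : ∫ a in Ioi (0 : ℝ), ∫ b in Ioi a, H a b =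
      ∫ p in {p : ℝ × ℝ | p.1 < p.2}, G p ∂μ.prod μ := by
    rw [← integral_indicator hA, integral_prod _ (hGi.indicator hA)]
    refine setIntegral_congr_fun measurableSet_Ioi fun a ha => ?_
    have h2 : ∀ b, {p : ℝ × ℝ | p.1 < p.2}.indicator G (a, b) = (Ioi a).indicator (H a) b := by
      intro b
      by_cases hab : a < b
      · rw [indicator_of_mem (show (a, b) ∈ {p : ℝ × ℝ | p.1 < p.2} from hab),
          indicator_of_mem (show b ∈ Ioi a from hab)]
      · rw [indicator_of_notMem (show (a, b) ∉ {p : ℝ × ℝ | p.1 < p.2} from hab),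
          indicator_of_notMem (show b ∉ Ioi a from hab)]
    simp only [h2]
    rw [hμ, setIntegral_indicator measurableSet_Ioi]
    congr 2
    rw [inter_eq_right.2 (Ioi_subset_Ioi (le_of_lt ha))]
  have h2 : ∫ p in {p : ℝ × ℝ | p.1 < p.2}ᶜ, G p ∂μ.prod μ =
      ∫ p in {p : ℝ × ℝ | p.1 < p.2}, G p ∂μ.prod μ := by
    rw [← integral_indicator hA, ← integral_indicator hA.compl,
      ← integral_prod_swap ({p : ℝ × ℝ | p.1 < p.2}.indicator G)]
    refine integral_congr_ae ?_
    have hd : (μ.prod μ) {p : ℝ × ℝ | p.1 = p.2} = 0 := by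
      rw [Measure.measure_prod_null (measurableSet_eq_fun measurable_fst measurable_snd)]
      refine Eventually.of_forall fun x => ?_
      have : Prod.mk x ⁻¹' {p : ℝ × ℝ | p.1 = p.2} = {x} := by
        ext y
        simp [eq_comm]
      show μ (Prod.mk x ⁻¹' {p : ℝ × ℝ | p.1 = p.2}) = 0
      rw [this]
      simp [hμ]
    filter_upwards [measure_eq_zero_iff_ae_notMem.1 hd] with p hp
    obtain ⟨a, b⟩ := p
    have hab : a ≠ b := hp
    by_cases h : a < b
    · rw [indicator_of_notMem (by simpa using h), indicator_of_notMem]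
      simpa using h.le
    · rw [indicator_of_mem (by simpa using h), indicator_of_mem]
      · exact hs a b
      · exact lt_of_le_of_ne (not_lt.1 h) (Ne.symm hab)
  rw [h0, h1, ← integral_add_compl hA hGi, h2]
  ring

/-- terms `c a ^ i b ^ j exp (-p a - q b)` as tuples `(c, i, j, p, q)` -/
def tev (L : List (ℝ × ℕ × ℕ × ℝ × ℝ)) (a b : ℝ) : ℝ :=
  (L.map fun t => t.1 * (a ^ t.2.1 * b ^ t.2.2.1 * Real.exp (-t.2.2.2.1 * a - t.2.2.2.2 * b))).sum

/-- the sum of the integrals -/
def tevJ (L : List (ℝ × ℕ × ℕ × ℝ × ℝ)) : ℝ :=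
  (L.map fun t => t.1 * Jv t.2.1 t.2.2.1 t.2.2.2.1 t.2.2.2.2).sum

theorem tev_inner (L : List (ℝ × ℕ × ℕ × ℝ × ℝ)) (hL : ∀ t ∈ L, 0 < t.2.2.2.1 ∧ 0 < t.2.2.2.2)
    (a : ℝ) : IntegrableOn (fun b => tev L a b) (Ioi a) := by
  induction L with
  | nil => simp [tev]
  | cons t L ih =>
    have h1 := ih fun s hs => hL s (List.mem_cons_of_mem _ hs)
    have h2 := (Jv_integrable_inner t.2.1 t.2.2.1 (p := t.2.2.2.1)
      (hL t List.mem_cons_self).2 a).const_mul t.1
    exact h2.add h1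

theorem tev_integral (L : List (ℝ × ℕ × ℕ × ℝ × ℝ))
    (hL : ∀ t ∈ L, 0 < t.2.2.2.1 ∧ 0 < t.2.2.2.2) :
    IntegrableOn (fun a => ∫ b in Ioi a, tev L a b) (Ioi (0 : ℝ)) ∧
      ∫ a in Ioi (0 : ℝ), ∫ b in Ioi a, tev L a b = tevJ L := by
  induction L with
  | nil => simp [tev, tevJ]
  | cons t L ih =>
    have hL' : ∀ s ∈ L, 0 < s.2.2.2.1 ∧ 0 < s.2.2.2.2 := fun s hs => hL s (List.mem_cons_of_mem _ hs)
    obtain ⟨h1, h2⟩ := ih hL'
    obtain ⟨hp, hq⟩ := hL t List.mem_cons_self
    have h3 := (Jv_integrable t.2.1 t.2.2.1 hq (add_pos hp hq)).const_mul t.1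
    have h4 : ∀ a, ∫ b in Ioi a, tev (t :: L) a b = t.1 * (∫ b in Ioi a,
        a ^ t.2.1 * b ^ t.2.2.1 * Real.exp (-t.2.2.2.1 * a - t.2.2.2.2 * b)) +
        ∫ b in Ioi a, tev L a b := by
      intro a
      rw [← integral_const_mul, ← integral_add
        ((Jv_integrable_inner t.2.1 t.2.2.1 hq a).const_mul t.1) (tev_inner L hL' a)]
      rfl
    simp only [h4]
    refine ⟨h3.add h1, ?_⟩
    rw [integral_add h3 h1, h2, integral_const_mul, Jv_eq _ _ hq (add_pos hp hq)]
    rfl

theorem tev_quadrant (L : List (ℝ × ℕ × ℕ × ℝ × ℝ))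
    (hL : ∀ t ∈ L, 0 < t.2.2.2.1 ∧ 0 < t.2.2.2.2) :
    Integrable (fun p : ℝ × ℝ => tev L p.1 p.2)
      ((volume.restrict (Ioi (0 : ℝ))).prod (volume.restrict (Ioi (0 : ℝ)))) := by
  induction L with
  | nil => simp [tev]
  | cons t L ih =>
    have h1 := ih fun s hs => hL s (List.mem_cons_of_mem _ hs)
    obtain ⟨hp, hq⟩ := hL t List.mem_cons_self
    have h2 := ((TJ.pow_exp_integrable hp t.2.1 0).mul_prod
      (TJ.pow_exp_integrable hq t.2.2.1 0)).const_mul t.1
    refine Integrable.add ?_ h1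
    refine h2.congr (Eventually.of_forall fun p => ?_)
    simp only [TJ.inner_fun]

/-- evaluation of a symmetric integral over the quadrant -/
theorem quad_eval {H : ℝ → ℝ → ℝ} (hs : ∀ a b, H a b = H b a) (L : List (ℝ × ℕ × ℕ × ℝ × ℝ))
    (hL : ∀ t ∈ L, 0 < t.2.2.2.1 ∧ 0 < t.2.2.2.2)
    (hH : ∀ a b, 0 < a → a ≤ b → H a b = tev L a b) :
    ∫ a in Ioi (0 : ℝ), ∫ b in Ioi (0 : ℝ), H a b = 2 * tevJ L := by
  have hA : MeasurableSet {p : ℝ × ℝ | p.1 ≤ p.2} := measurableSet_le measurable_fst measurable_snd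
  have h1 := tev_quadrant L hL
  have h2 : Integrable (fun p : ℝ × ℝ => tev L p.2 p.1)
      ((volume.restrict (Ioi (0 : ℝ))).prod (volume.restrict (Ioi (0 : ℝ)))) := h1.swap
  have hi : IntegrableOn (fun p : ℝ × ℝ => H p.1 p.2) (Ioi 0 ×ˢ Ioi 0) := by
    have h3 := (h1.indicator hA).add (h2.indicator hA.compl)
    rw [Measure.prod_restrict] at h3
    refine Integrable.congr h3 ?_
    filter_upwards [ae_restrict_mem (measurableSet_Ioi.prod measurableSet_Ioi)] with p hp
    obtain ⟨a, b⟩ := p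
    obtain ⟨ha, hb⟩ := hp
    simp only [mem_Ioi] at ha hb
    simp only [Pi.add_apply]
    by_cases hab : a ≤ b
    · rw [indicator_of_mem (show (a, b) ∈ {p : ℝ × ℝ | p.1 ≤ p.2} from hab),
        indicator_of_notMem (by simpa using hab), add_zero, hH a b ha hab]
    · rw [indicator_of_notMem (show (a, b) ∉ {p : ℝ × ℝ | p.1 ≤ p.2} from hab),
        indicator_of_mem (by simpa using hab), zero_add, hs a b, hH b a hb (not_le.1 hab).le]
  rw [quadrant_symm hs hi, ← (tev_integral L hL).2]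
  congr 1
  refine setIntegral_congr_fun measurableSet_Ioi fun a ha => ?_
  exact setIntegral_congr_fun measurableSet_Ioi fun b hb => hH a b ha (le_of_lt hb)

/-- integral of a polynomial over the range of the distance -/
theorem u_int (c0 c1 c2 c3 : ℝ) {a b : ℝ} (ha : 0 < a) (hab : a ≤ b) :
    ∫ u in Ioo |a - b| (a + b), (c0 + c1 * u + c2 * u ^ 2 + c3 * u ^ 3) =
      c0 * (2 * a) + c1 * (2 * a * b) + c2 * ((2 * a ^ 3 + 6 * a * b ^ 2) / 3) +
        c3 * (2 * a * b * (a ^ 2 + b ^ 2)) := by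
  rw [abs_sub_comm, abs_of_nonneg (sub_nonneg.2 hab), ← integral_Ioc_eq_integral_Ioo,
    ← intervalIntegral.integral_of_le (by linarith)]
  have hd : ∀ u ∈ uIcc (b - a) (a + b), HasDerivAt
      (fun u => c0 * u + c1 * (u ^ 2 / 2) + c2 * (u ^ 3 / 3) + c3 * (u ^ 4 / 4))
      (c0 + c1 * u + c2 * u ^ 2 + c3 * u ^ 3) u := by
    intro u _
    have h1 := (hasDerivAt_id u).const_mul c0
    have h2 := ((hasDerivAt_pow 2 u).div_const 2).const_mul c1
    have h3 := ((hasDerivAt_pow 3 u).div_const 3).const_mul c2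
    have h4 := ((hasDerivAt_pow 4 u).div_const 4).const_mul c3
    have h5 := ((h1.add h2).add h3).add h4
    convert! h5 using 1
    push_cast
    ring
  rw [intervalIntegral.integral_eq_sub_of_hasDerivAt hd (Continuous.intervalIntegrable (by fun_prop) _ _)]
  ring

end Pool.Agent.Lib.CX
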