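import Mathlib
import Pool.Agent.Lib.CX.Basic
import Pool.Agent.Lib.CX.Tri
import Pool.Agent.Lib.CX.ApxD
import Pool.Agent.Lib.CX.TValJ

/-! CX task G3: the integrals of the trial function with `α = 2`, `β = 1`, `c = 1/2`. -/

set_option autoImplicit false

open MeasureTheory Set

noncomputable section

namespace Pool.Agent.Lib.CX

namespace TV

theorem tf_symm (α β a b : ℝ) : tf α β b a = tf α β a b := by
  unfold tf
  rw [add_comm]
  ring_nf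

theorem tF_symm (α β c a b u : ℝ) : tF α β c b a u = tF α β c a b u := by
  unfold tF
  rw [tf_symm]

/-- the iterated integral of a symmetric integrand -/
theorem symm_inner {h : ℝ → ℝ → ℝ → ℝ} (hs : ∀ a b u, h b a u = h a b u) (a b : ℝ) :
    ∫ u in Ioo |a - b| (a + b), h a b u * (a * b * u) =
      ∫ u in Ioo |b - a| (b + a), h b a u * (b * a * u) := by
  rw [abs_sub_comm, add_comm a b]
  congr 1
  funext u
  rw [hs, mul_comm b a]

theorem exp_two (a b : ℝ) : Real.exp (-4 * a - 2 * b) = Real.exp (-2 * a - 1 * b) ^ 2 := by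
  rw [← Real.exp_nat_mul]
  push_cast
  ring_nf

theorem exp_two' (a b : ℝ) : Real.exp (-2 * a - 4 * b) = Real.exp (-1 * a - 2 * b) ^ 2 := by
  rw [← Real.exp_nat_mul]
  push_cast
  ring_nf

theorem exp_three (a b : ℝ) : Real.exp (-3 * a - 3 * b) =
    Real.exp (-2 * a - 1 * b) * Real.exp (-1 * a - 2 * b) := by
  rw [← Real.exp_add]
  ring_nf

/-- the terms for the norm -/
def LN : List (ℝ × ℕ × ℕ × ℝ × ℝ) :=
  [(2, 2, 2, 2, 4), (4, 2, 2, 3, 3), (2, 2, 2, 4, 2), (2, 2, 3, 2, 4), (4, 2, 3, 3, 3), (2, 2,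
    3, 4, 2), (1 / 2, 2, 4, 2, 4), (1, 2, 4, 3, 3), (1 / 2, 2, 4, 4, 2), (2 / 3, 4, 1, 2, 4), (4
    / 3, 4, 1, 3, 3), (2 / 3, 4, 1, 4, 2), (1 / 2, 4, 2, 2, 4), (1, 4, 2, 3, 3), (1 / 2, 4, 2,
    4, 2)]

/-- the terms for the attraction -/
def LA : List (ℝ × ℕ × ℕ × ℝ × ℝ) :=
  [(2, 1, 2, 2, 4), (4, 1, 2, 3, 3), (2, 1, 2, 4, 2), (2, 1, 3, 2, 4), (4, 1, 3, 3, 3), (2, 1,
    3, 4, 2), (1 / 2, 1, 4, 2, 4), (1, 1, 4, 3, 3), (1 / 2, 1, 4, 4, 2), (2, 2, 1, 2, 4), (4, 2,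
    1, 3, 3), (2, 2, 1, 4, 2), (2, 2, 2, 2, 4), (4, 2, 2, 3, 3), (2, 2, 2, 4, 2), (1 / 2, 2, 3,
    2, 4), (1, 2, 3, 3, 3), (1 / 2, 2, 3, 4, 2), (2 / 3, 3, 1, 2, 4), (4 / 3, 3, 1, 3, 3), (2 /
    3, 3, 1, 4, 2), (1 / 2, 3, 2, 2, 4), (1, 3, 2, 3, 3), (1 / 2, 3, 2, 4, 2), (2 / 3, 4, 0, 2,
    4), (4 / 3, 4, 0, 3, 3), (2 / 3, 4, 0, 4, 2), (1 / 2, 4, 1, 2, 4), (1, 4, 1, 3, 3), (1 / 2,
    4, 1, 4, 2)]

/-- the terms for the repulsion -/
def LW : List (ℝ × ℕ × ℕ × ℝ × ℝ) :=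
  [(2, 2, 1, 2, 4), (4, 2, 1, 3, 3), (2, 2, 1, 4, 2), (2, 2, 2, 2, 4), (4, 2, 2, 3, 3), (2, 2,
    2, 4, 2), (1 / 2, 2, 3, 2, 4), (1, 2, 3, 3, 3), (1 / 2, 2, 3, 4, 2), (1 / 6, 4, 1, 2, 4), (1
    / 3, 4, 1, 3, 3), (1 / 6, 4, 1, 4, 2)]

theorem LN_pos : ∀ t ∈ LN, 0 < t.2.2.2.1 ∧ 0 < t.2.2.2.2 := by
  intro t ht
  simp only [LN, List.mem_cons, List.not_mem_nil, or_false] at ht
  rcases ht with h | h | h | h | h | h | h | h | h | h | h | h | h | h | h <;>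
    (rw [h]; norm_num)

theorem LN_val : 2 * tevJ LN = 68179 / 373248 := by
  norm_num [tevJ, LN, Jv, Finset.sum_range_succ, Nat.factorial]

theorem LA_pos : ∀ t ∈ LA, 0 < t.2.2.2.1 ∧ 0 < t.2.2.2.2 := by
  intro t ht
  simp only [LA, List.mem_cons, List.not_mem_nil, or_false] at ht
  rcases ht with h | h | h | h | h | h | h | h | h | h | h | h | h | h | h | h | h | h | h | h |
    h | h | h | h | h | h | h | h | h | h <;> (rw [h]; norm_num)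

theorem LA_val : 2 * tevJ LA = 473 / 972 := by
  norm_num [tevJ, LA, Jv, Finset.sum_range_succ, Nat.factorial]

theorem LW_pos : ∀ t ∈ LW, 0 < t.2.2.2.1 ∧ 0 < t.2.2.2.2 := by
  intro t ht
  simp only [LW, List.mem_cons, List.not_mem_nil, or_false] at ht
  rcases ht with h | h | h | h | h | h | h | h | h | h | h | h <;> (rw [h]; norm_num)

theorem LW_val : 2 * tevJ LW = 135065 / 1119744 := by
  norm_num [tevJ, LW, Jv, Finset.sum_range_succ, Nat.factorial]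

end TV

open TV

theorem tval_norm : ∫ p : R3 × R3, (tF 2 1 (1 / 2) ‖p.1‖ ‖p.2‖ ‖p.1 - p.2‖) ^ 2
    = 8 * Real.pi ^ 2 * (68179 / 373248) := by
  have h := integral_tri (h := fun a b u => (tF 2 1 (1 / 2) a b u) ^ 2)
    (by unfold tF tf; fun_prop) (trial_integrable (by norm_num) (by norm_num) (by norm_num)).1
  rw [h, quad_eval (symm_inner fun a b u => by rw [tF_symm]) LN LN_pos, LN_val]
  intro a b ha hab
  have h1 : ∀ u, (tF 2 1 (1 / 2) a b u) ^ 2 * (a * b * u) = 0 + tf 2 1 a b ^ 2 * (a * b) * u +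
      tf 2 1 a b ^ 2 * (a * b) * u ^ 2 + tf 2 1 a b ^ 2 * (a * b) / 4 * u ^ 3 := by
    intro u
    unfold tF
    ring
  simp only [h1]
  rw [u_int _ _ _ _ ha hab]
  simp only [tev, LN, List.map_cons, List.map_nil, List.sum_cons, List.sum_nil, exp_two, exp_two',
    exp_three, tf]
  ring

theorem tval_att : ∫ p : R3 × R3,
    (1 / ‖p.1‖ + 1 / ‖p.2‖) * (tF 2 1 (1 / 2) ‖p.1‖ ‖p.2‖ ‖p.1 - p.2‖) ^ 2
    = 8 * Real.pi ^ 2 * (473 / 972) := by
  have h := integral_tri (h := fun a b u => (1 / a + 1 / b) * (tF 2 1 (1 / 2) a b u) ^ 2)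
    (by unfold tF tf; fun_prop) (trial_integrable (by norm_num) (by norm_num) (by norm_num)).2.2.1
  rw [h, quad_eval (symm_inner fun a b u => by rw [tF_symm, add_comm (1 / b)]) LA LA_pos, LA_val]
  intro a b ha hab
  have hb : 0 < b := lt_of_lt_of_le ha hab
  have h1 : ∀ u, (1 / a + 1 / b) * (tF 2 1 (1 / 2) a b u) ^ 2 * (a * b * u) =
      0 + tf 2 1 a b ^ 2 * (a + b) * u +
      tf 2 1 a b ^ 2 * (a + b) * u ^ 2 + tf 2 1 a b ^ 2 * (a + b) / 4 * u ^ 3 := by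
    intro u
    unfold tF
    field_simp
    ring
  simp only [h1]
  rw [u_int _ _ _ _ ha hab]
  simp only [tev, LA, List.map_cons, List.map_nil, List.sum_cons, List.sum_nil, exp_two, exp_two',
    exp_three, tf]
  ring

theorem tval_rep : ∫ p : R3 × R3,
    1 / ‖p.1 - p.2‖ * (tF 2 1 (1 / 2) ‖p.1‖ ‖p.2‖ ‖p.1 - p.2‖) ^ 2
    = 8 * Real.pi ^ 2 * (135065 / 1119744) := by
  have h := integral_tri (h := fun a b u => 1 / u * (tF 2 1 (1 / 2) a b u) ^ 2)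
    (by unfold tF tf; fun_prop) (trial_integrable (by norm_num) (by norm_num) (by norm_num)).2.2.2
  rw [h, quad_eval (symm_inner fun a b u => by rw [tF_symm]) LW LW_pos, LW_val]
  intro a b ha hab
  have h1 : ∀ u ∈ Ioo |a - b| (a + b), 1 / u * (tF 2 1 (1 / 2) a b u) ^ 2 * (a * b * u) =
      tf 2 1 a b ^ 2 * (a * b) + tf 2 1 a b ^ 2 * (a * b) * u +
      tf 2 1 a b ^ 2 * (a * b) / 4 * u ^ 2 + 0 * u ^ 3 := by
    intro u hu
    have hu0 : 0 < u := lt_of_le_of_lt (abs_nonneg _) hu.1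
    unfold tF
    field_simp
    ring
  rw [setIntegral_congr_fun measurableSet_Ioo h1, u_int _ _ _ _ ha hab]
  simp only [tev, LW, List.map_cons, List.map_nil, List.sum_cons, List.sum_nil, exp_two, exp_two',
    exp_three, tf]
  ring

end Pool.Agent.Lib.CX
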