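import Mathlib
import Pool.Agent.Lib.CX.Basic
import Pool.Agent.Lib.CX.Tri
import Pool.Agent.Lib.CX.ApxD
import Pool.Agent.Lib.CX.TValJ

/-! CX task G4: the integrals of the uncorrelated trial function, `α = β = 1/2`, `c = 0`. -/

set_option autoImplicit false

open MeasureTheory Set

noncomputable section

namespace Pool.Agent.Lib.CX

namespace TV0

/-- the iterated integral of a symmetric integrand -/
theorem symm_inner {h : ℝ → ℝ → ℝ → ℝ} (hs : ∀ a b u, h b a u = h a b u) (a b : ℝ) :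
    ∫ u in Ioo |a - b| (a + b), h a b u * (a * b * u) =
      ∫ u in Ioo |b - a| (b + a), h b a u * (b * a * u) := by
  rw [abs_sub_comm, add_comm a b]
  congr 1
  funext u
  rw [hs, mul_comm b a]

theorem tf_eq (a b : ℝ) : tf (1 / 2) (1 / 2) a b = 2 * Real.exp (-(1 / 2) * a - 1 / 2 * b) := by
  unfold tf
  ring

theorem tf_symm (a b : ℝ) : tf (1 / 2) (1 / 2) b a = tf (1 / 2) (1 / 2) a b := by
  rw [tf_eq, tf_eq]
  ring_nf

theorem tfa_eq (a b : ℝ) : tfa (1 / 2) (1 / 2) a b = -Real.exp (-(1 / 2) * a - 1 / 2 * b) := by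
  unfold tfa
  ring

theorem tfb_eq (a b : ℝ) : tfb (1 / 2) (1 / 2) a b = -Real.exp (-(1 / 2) * a - 1 / 2 * b) := by
  unfold tfb
  ring

theorem tF_symm (a b u : ℝ) : tF (1 / 2) (1 / 2) 0 b a u = tF (1 / 2) (1 / 2) 0 a b u := by
  unfold tF
  rw [tf_symm]

theorem tF_sq (a b u : ℝ) : tF (1 / 2) (1 / 2) 0 a b u ^ 2 = 4 * Real.exp (-1 * a - 1 * b) := by
  have : Real.exp (-1 * a - 1 * b) = Real.exp (-(1 / 2) * a - 1 / 2 * b) ^ 2 := by
    rw [← Real.exp_nat_mul]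
    push_cast
    ring_nf
  unfold tF
  rw [tf_eq, this]
  ring

theorem tK_eq (a b u : ℝ) : tK (1 / 2) (1 / 2) 0 a b u = 2 * Real.exp (-1 * a - 1 * b) := by
  have : Real.exp (-1 * a - 1 * b) = Real.exp (-(1 / 2) * a - 1 / 2 * b) ^ 2 := by
    rw [← Real.exp_nat_mul]
    push_cast
    ring_nf
  unfold tK
  rw [tf_eq, tfa_eq, tfb_eq, this]
  ring

theorem tK_meas (α β c : ℝ) : Measurable fun p : ℝ × ℝ × ℝ => tK α β c p.1 p.2.1 p.2.2 := by
  have h0 : Measurable fun p : ℝ × ℝ × ℝ => p.1 := measurable_fst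
  have h1 : Measurable fun p : ℝ × ℝ × ℝ => p.2.1 := measurable_snd.fst
  have h2 : Measurable fun p : ℝ × ℝ × ℝ => p.2.2 := measurable_snd.snd
  have e1 : Measurable fun p : ℝ × ℝ × ℝ => tf α β p.1 p.2.1 := by
    unfold tf
    fun_prop
  have e2 : Measurable fun p : ℝ × ℝ × ℝ => tfa α β p.1 p.2.1 := by
    unfold tfa
    fun_prop
  have e3 : Measurable fun p : ℝ × ℝ × ℝ => tfb α β p.1 p.2.1 := by
    unfold tfb
    fun_prop
  have e4 : Measurable fun p : ℝ × ℝ × ℝ => (1 + c * p.2.2) := (h2.const_mul c).const_add 1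
  have e5 : Measurable fun p : ℝ × ℝ × ℝ => (p.1 ^ 2 + p.2.2 ^ 2 - p.2.1 ^ 2) / (p.1 * p.2.2) :=
    (((h0.pow_const 2).add (h2.pow_const 2)).sub (h1.pow_const 2)).div (h0.mul h2)
  have e6 : Measurable fun p : ℝ × ℝ × ℝ => (p.2.1 ^ 2 + p.2.2 ^ 2 - p.1 ^ 2) / (p.2.1 * p.2.2) :=
    (((h1.pow_const 2).add (h2.pow_const 2)).sub (h0.pow_const 2)).div (h1.mul h2)
  unfold tK
  exact (((((e2.pow_const 2).add (e3.pow_const 2)).mul (e4.pow_const 2))).add
    ((e1.pow_const 2).const_mul (2 * c ^ 2))).add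
    (((e1.const_mul c).mul e4).mul ((e2.mul e5).add (e3.mul e6)))

end TV0

open TV0

theorem tval0_norm : ∫ p : R3 × R3, (tF (1 / 2) (1 / 2) 0 ‖p.1‖ ‖p.2‖ ‖p.1 - p.2‖) ^ 2
    = 256 * Real.pi ^ 2 := by
  have h := integral_tri (h := fun a b u => (tF (1 / 2) (1 / 2) 0 a b u) ^ 2)
    (by unfold tF tf; fun_prop) (trial_integrable (by norm_num) (by norm_num) le_rfl).1
  rw [h, quad_eval (symm_inner fun a b u => by rw [tF_symm]) [(8, 2, 2, 1, 1)]
    (by intro t ht; simp only [List.mem_cons, List.not_mem_nil, or_false] at ht; rw [ht]; norm_num)]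
  · norm_num [tevJ, Jv, Finset.sum_range_succ, Nat.factorial]
    ring
  intro a b ha hab
  have h1 : ∀ u, (tF (1 / 2) (1 / 2) 0 a b u) ^ 2 * (a * b * u) =
      0 + 4 * Real.exp (-1 * a - 1 * b) * (a * b) * u + 0 * u ^ 2 + 0 * u ^ 3 := by
    intro u
    rw [tF_sq]
    ring
  simp only [h1]
  rw [u_int _ _ _ _ ha hab]
  simp only [tev, List.map_cons, List.map_nil, List.sum_cons, List.sum_nil]
  ring

theorem tval0_att : ∫ p : R3 × R3,
    (1 / ‖p.1‖ + 1 / ‖p.2‖) * (tF (1 / 2) (1 / 2) 0 ‖p.1‖ ‖p.2‖ ‖p.1 - p.2‖) ^ 2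
    = 256 * Real.pi ^ 2 := by
  have h := integral_tri (h := fun a b u => (1 / a + 1 / b) * (tF (1 / 2) (1 / 2) 0 a b u) ^ 2)
    (by unfold tF tf; fun_prop) (trial_integrable (by norm_num) (by norm_num) le_rfl).2.2.1
  rw [h, quad_eval (symm_inner fun a b u => by rw [tF_symm, add_comm (1 / b)]) [(8, 1, 2, 1, 1), (8, 2, 1, 1, 1)]
    (by
      intro t ht
      simp only [List.mem_cons, List.not_mem_nil, or_false] at ht
      rcases ht with h | h <;> (rw [h]; norm_num))]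
  · norm_num [tevJ, Jv, Finset.sum_range_succ, Nat.factorial]
    ring
  intro a b ha hab
  have hb : 0 < b := lt_of_lt_of_le ha hab
  have h1 : ∀ u, (1 / a + 1 / b) * (tF (1 / 2) (1 / 2) 0 a b u) ^ 2 * (a * b * u) =
      0 + 4 * Real.exp (-1 * a - 1 * b) * (a + b) * u + 0 * u ^ 2 + 0 * u ^ 3 := by
    intro u
    rw [tF_sq]
    field_simp
    ring
  simp only [h1]
  rw [u_int _ _ _ _ ha hab]
  simp only [tev, List.map_cons, List.map_nil, List.sum_cons, List.sum_nil]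
  ring

theorem tval0_rep : ∫ p : R3 × R3,
    1 / ‖p.1 - p.2‖ * (tF (1 / 2) (1 / 2) 0 ‖p.1‖ ‖p.2‖ ‖p.1 - p.2‖) ^ 2
    = 80 * Real.pi ^ 2 := by
  have h := integral_tri (h := fun a b u => 1 / u * (tF (1 / 2) (1 / 2) 0 a b u) ^ 2)
    (by unfold tF tf; fun_prop) (trial_integrable (by norm_num) (by norm_num) le_rfl).2.2.2
  rw [h, quad_eval (symm_inner fun a b u => by rw [tF_symm]) [(8, 2, 1, 1, 1)]
    (by intro t ht; simp only [List.mem_cons, List.not_mem_nil, or_false] at ht; rw [ht]; norm_num)]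
  · norm_num [tevJ, Jv, Finset.sum_range_succ, Nat.factorial]
    ring
  intro a b ha hab
  have h1 : ∀ u ∈ Ioo |a - b| (a + b), 1 / u * (tF (1 / 2) (1 / 2) 0 a b u) ^ 2 * (a * b * u) =
      4 * Real.exp (-1 * a - 1 * b) * (a * b) + 0 * u + 0 * u ^ 2 + 0 * u ^ 3 := by
    intro u hu
    have hu0 : 0 < u := lt_of_le_of_lt (abs_nonneg _) hu.1
    rw [tF_sq]
    field_simp
    ring
  rw [setIntegral_congr_fun measurableSet_Ioo h1, u_int _ _ _ _ ha hab]
  simp only [tev, List.map_cons, List.map_nil, List.sum_cons, List.sum_nil]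
  ring

theorem tval0_kin : ∫ p : R3 × R3, tK (1 / 2) (1 / 2) 0 ‖p.1‖ ‖p.2‖ ‖p.1 - p.2‖
    = 128 * Real.pi ^ 2 := by
  have h := integral_tri (h := fun a b u => tK (1 / 2) (1 / 2) 0 a b u)
    (tK_meas (1 / 2) (1 / 2) 0)
    (trial_integrable (α := 1 / 2) (β := 1 / 2) (c := 0) (by norm_num) (by norm_num) le_rfl).2.1
  rw [h, quad_eval (symm_inner fun a b u => by rw [tK_eq, tK_eq]; ring_nf) [(4, 2, 2, 1, 1)]
    (by intro t ht; simp only [List.mem_cons, List.not_mem_nil, or_false] at ht; rw [ht]; norm_num)]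
  · norm_num [tevJ, Jv, Finset.sum_range_succ, Nat.factorial]
    ring
  intro a b ha hab
  have h1 : ∀ u, tK (1 / 2) (1 / 2) 0 a b u * (a * b * u) =
      0 + 2 * Real.exp (-1 * a - 1 * b) * (a * b) * u + 0 * u ^ 2 + 0 * u ^ 3 := by
    intro u
    rw [tK_eq]
    ring
  simp only [h1]
  rw [u_int _ _ _ _ ha hab]
  simp only [tev, List.map_cons, List.map_nil, List.sum_cons, List.sum_nil]
  ring

end Pool.Agent.Lib.CX
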