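import Mathlib
import Pool.Agent.Lib.CX.Basic
import Pool.Agent.Lib.CX.Tri
import Pool.Agent.Lib.CX.ApxD
import Pool.Agent.Lib.CX.TValJ

/-! CX task G7: the kinetic energy of the correlated trial function. -/

set_option autoImplicit false

open MeasureTheory Set Filter Topology

noncomputable section

namespace Pool.Agent.Lib.CX

namespace TVK

theorem tK_symm (α β c a b u : ℝ) : tK α β c b a u = tK α β c a b u := by
  have h1 : tf α β b a = tf α β a b := by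
    unfold tf
    rw [add_comm]
    ring_nf
  have h2 : tfa α β b a = tfb α β a b := by
    have e1 : Real.exp (-α * b - β * a) = Real.exp (-β * a - α * b) := by ring_nf
    have e2 : Real.exp (-β * b - α * a) = Real.exp (-α * a - β * b) := by ring_nf
    unfold tfa tfb
    rw [e1, e2]
    ring
  have h3 : tfb α β b a = tfa α β a b := by
    have e1 : Real.exp (-α * b - β * a) = Real.exp (-β * a - α * b) := by ring_nf
    have e2 : Real.exp (-β * b - α * a) = Real.exp (-α * a - β * b) := by ring_nf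
    unfold tfa tfb
    rw [e1, e2]
    ring
  unfold tK
  rw [h1, h2, h3]
  ring

/-- the iterated integral of a symmetric integrand -/
theorem symm_inner {h : ℝ → ℝ → ℝ → ℝ} (hs : ∀ a b u, h b a u = h a b u) (a b : ℝ) :
    ∫ u in Ioo |a - b| (a + b), h a b u * (a * b * u) =
      ∫ u in Ioo |b - a| (b + a), h b a u * (b * a * u) := by
  rw [abs_sub_comm, add_comm a b]
  congr 1
  funext u
  rw [hs, mul_comm b a]

theorem exp_two (a b : ℝ) : Real.exp (-4 * a - 2 * b) = Real.exp (-2 * a - 1 * b) ^ 2 := by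
  rw [← Real.exp_nat_mul]
  push_cast
  ring_nf

theorem exp_two' (a b : ℝ) : Real.exp (-2 * a - 4 * b) = Real.exp (-1 * a - 2 * b) ^ 2 := by
  rw [← Real.exp_nat_mul]
  push_cast
  ring_nf

theorem exp_three (a b : ℝ) : Real.exp (-3 * a - 3 * b) =
    Real.exp (-2 * a - 1 * b) * Real.exp (-1 * a - 2 * b) := by
  rw [← Real.exp_add]
  ring_nf

/-- the terms for the kinetic energy -/
def LK : List (ℝ × ℕ × ℕ × ℝ × ℝ) :=
  [(7, 2, 2, 2, 4), (12, 2, 2, 3, 3), (9, 2, 2, 4, 2), (8, 2, 3, 2, 4), (13, 2, 3, 3, 3), (9,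
    2, 3, 4, 2), (5 / 2, 2, 4, 2, 4), (4, 2, 4, 3, 3), (5 / 2, 2, 4, 4, 2), (-4 / 3, 3, 1, 2,
    4), (-4, 3, 1, 3, 3), (-8 / 3, 3, 1, 4, 2), (-1, 3, 2, 2, 4), (-3, 3, 2, 3, 3), (-2, 3, 2,
    4, 2), (4 / 3, 4, 0, 2, 4), (2, 4, 0, 3, 3), (2 / 3, 4, 0, 4, 2), (10 / 3, 4, 1, 2, 4), (16
    / 3, 4, 1, 3, 3), (10 / 3, 4, 1, 4, 2), (5 / 2, 4, 2, 2, 4), (4, 4, 2, 3, 3), (5 / 2, 4, 2,
    4, 2)]

theorem LK_pos : ∀ t ∈ LK, 0 < t.2.2.2.1 ∧ 0 < t.2.2.2.2 := by
  intro t ht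
  simp only [LK, List.mem_cons, List.not_mem_nil, or_false] at ht
  rcases ht with h | h | h | h | h | h | h | h | h | h | h | h | h | h | h | h | h | h | h | h | h | h | h | h <;> (rw [h]; norm_num)

theorem LK_val : 2 * tevJ LK = 261071 / 373248 := by
  norm_num [tevJ, LK, Jv, Finset.sum_range_succ, Nat.factorial]

theorem tK_meas (α β c : ℝ) : Measurable fun p : ℝ × ℝ × ℝ => tK α β c p.1 p.2.1 p.2.2 := by
  have h0 : Measurable fun p : ℝ × ℝ × ℝ => p.1 := measurable_fst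
  have h1 : Measurable fun p : ℝ × ℝ × ℝ => p.2.1 := measurable_snd.fst
  have h2 : Measurable fun p : ℝ × ℝ × ℝ => p.2.2 := measurable_snd.snd
  have e1 : Measurable fun p : ℝ × ℝ × ℝ => tf α β p.1 p.2.1 := by
    unfold tf
    fun_prop
  have e2 : Measurable fun p : ℝ × ℝ × ℝ => tfa α β p.1 p.2.1 := by
    unfold tfa
    fun_prop
  have e3 : Measurable fun p : ℝ × ℝ × ℝ => tfb α β p.1 p.2.1 := by
    unfold tfb
    fun_prop
  have e4 : Measurable fun p : ℝ × ℝ × ℝ => (1 + c * p.2.2) := (h2.const_mul c).const_add 1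
  have e5 : Measurable fun p : ℝ × ℝ × ℝ => (p.1 ^ 2 + p.2.2 ^ 2 - p.2.1 ^ 2) / (p.1 * p.2.2) :=
    (((h0.pow_const 2).add (h2.pow_const 2)).sub (h1.pow_const 2)).div (h0.mul h2)
  have e6 : Measurable fun p : ℝ × ℝ × ℝ => (p.2.1 ^ 2 + p.2.2 ^ 2 - p.1 ^ 2) / (p.2.1 * p.2.2) :=
    (((h1.pow_const 2).add (h2.pow_const 2)).sub (h0.pow_const 2)).div (h1.mul h2)
  unfold tK
  exact (((((e2.pow_const 2).add (e3.pow_const 2)).mul (e4.pow_const 2))).add
    ((e1.pow_const 2).const_mul (2 * c ^ 2))).add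
    (((e1.const_mul c).mul e4).mul ((e2.mul e5).add (e3.mul e6)))

end TVK

open TVK

theorem tval_kin : ∫ p : R3 × R3, tK 2 1 (1 / 2) ‖p.1‖ ‖p.2‖ ‖p.1 - p.2‖
    = 8 * Real.pi ^ 2 * (261071 / 373248) := by
  have h := integral_tri (h := fun a b u => tK 2 1 (1 / 2) a b u)
    (tK_meas 2 1 (1 / 2))
    (trial_integrable (α := 2) (β := 1) (c := 1 / 2) (by norm_num) (by norm_num) (by norm_num)).2.1
  rw [h, quad_eval (symm_inner fun a b u => tK_symm _ _ _ a b u) LK LK_pos, LK_val]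
  intro a b ha hab
  have hb : 0 < b := lt_of_lt_of_le ha hab
  have h1 : ∀ u ∈ Ioo |a - b| (a + b), tK 2 1 (1 / 2) a b u * (a * b * u) =
      (1 / 2 * tf 2 1 a b * (tfa 2 1 a b * b * (a ^ 2 - b ^ 2) + tfb 2 1 a b * a * (b ^ 2 - a ^ 2))) +
      ((tfa 2 1 a b ^ 2 + tfb 2 1 a b ^ 2) * (a * b) + 1 / 2 * tf 2 1 a b ^ 2 * (a * b) +
        1 / 4 * tf 2 1 a b * (tfa 2 1 a b * b * (a ^ 2 - b ^ 2) + tfb 2 1 a b * a * (b ^ 2 - a ^ 2))) * u +
      ((tfa 2 1 a b ^ 2 + tfb 2 1 a b ^ 2) * (a * b) +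
        1 / 2 * tf 2 1 a b * (tfa 2 1 a b * b + tfb 2 1 a b * a)) * u ^ 2 +
      ((tfa 2 1 a b ^ 2 + tfb 2 1 a b ^ 2) * (a * b) / 4 +
        1 / 4 * tf 2 1 a b * (tfa 2 1 a b * b + tfb 2 1 a b * a)) * u ^ 3 := by
    intro u hu
    have hu0 : 0 < u := lt_of_le_of_lt (abs_nonneg _) hu.1
    unfold tK
    field_simp
    ring
  rw [setIntegral_congr_fun measurableSet_Ioo h1, u_int _ _ _ _ ha hab]
  simp only [tev, LK, List.map_cons, List.map_nil, List.sum_cons, List.sum_nil, exp_two, exp_two',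
    exp_three, tf, tfa, tfb]
  ring

end Pool.Agent.Lib.CX
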