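import Mathlib
import Pool.Agent.Lib.CX.Basic
import Pool.Agent.Lib.CX.Bdd
import Pool.Agent.Lib.CX.Dil
import Pool.Agent.Lib.CX.SpinF
import Pool.Agent.Lib.CX.ApxD
import Pool.Agent.Lib.CX.Apx
import Pool.Agent.Lib.CX.TVal
import Pool.Agent.Lib.CX.TValK
import Pool.Agent.Lib.CX.TVal0

/-! CX: upper bounds for two electrons. -/

set_option autoImplicit false

open MeasureTheory Set Filter Topology

noncomputable section

namespace Pool.Agent.Lib.CX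

theorem eps2_trial {α β c : ℝ} (hα : 0 < α) (hβ : 0 < β) (hc : 0 ≤ c) {t l : ℝ} (ht : 0 ≤ t)
    (hl : 0 < l) {N K A W : ℝ}
    (hN : ∫ p : R3 × R3, (tF α β c ‖p.1‖ ‖p.2‖ ‖p.1 - p.2‖) ^ 2 = N)
    (hK : ∫ p : R3 × R3, tK α β c ‖p.1‖ ‖p.2‖ ‖p.1 - p.2‖ = K)
    (hA : ∫ p : R3 × R3,
      (1 / ‖p.1‖ + 1 / ‖p.2‖) * (tF α β c ‖p.1‖ ‖p.2‖ ‖p.1 - p.2‖) ^ 2 = A)
    (hW : ∫ p : R3 × R3, 1 / ‖p.1 - p.2‖ * (tF α β c ‖p.1‖ ‖p.2‖ ‖p.1 - p.2‖) ^ 2 = W) :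
    eps 2 t * N ≤ l ^ 2 * K - l * (A - t * W) := by
  obtain ⟨F, hF, h1, h2, h3, h4⟩ := apx hα hβ hc
  rw [hN] at h1
  rw [hK] at h2
  rw [hA] at h3
  rw [hW] at h4
  refine le_of_tendsto_of_tendsto (h1.const_mul (eps 2 t))
    ((h2.const_mul (l ^ 2)).sub ((h3.sub (h4.const_mul t)).const_mul l)) ?_
  refine Filter.Eventually.of_forall fun j => ?_
  obtain ⟨ψ, hψ, e1, e2, e3, e4⟩ := singlet (hF j).1 (hF j).2.1 (hF j).2.2
  have := eps_le_dilate ht hψ hl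
  rw [e1, e2, e3, e4] at this
  exact this

/-- correlated trial function -/
theorem eps2_corr {t l : ℝ} (ht : 0 ≤ t) (hl : 0 < l) :
    eps 2 t * 204537 ≤ l ^ 2 * 783213 - l * (544896 - t * 135065) := by
  have h := eps2_trial (by norm_num) (by norm_num) (by norm_num) ht hl tval_norm tval_kin
    tval_att tval_rep
  have hpi : 0 < 8 * Real.pi ^ 2 := by positivity
  have h2 : 8 * Real.pi ^ 2 * (eps 2 t * 204537) ≤
      8 * Real.pi ^ 2 * (l ^ 2 * 783213 - l * (544896 - t * 135065)) := by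
    nlinarith [h]
  exact le_of_mul_le_mul_left h2 hpi

/-- screening -/
theorem eps2_screen {t l : ℝ} (ht : 0 ≤ t) (hl : 0 < l) :
    eps 2 t ≤ l ^ 2 / 2 - l * (1 - 5 * t / 16) := by
  have h := eps2_trial (by norm_num) (by norm_num) (le_refl 0) ht hl tval0_norm tval0_kin
    tval0_att tval0_rep
  have hpi : 0 < 256 * Real.pi ^ 2 := by positivity
  have h2 : 256 * Real.pi ^ 2 * eps 2 t ≤
      256 * Real.pi ^ 2 * (l ^ 2 / 2 - l * (1 - 5 * t / 16)) := by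
    nlinarith [h]
  exact le_of_mul_le_mul_left h2 hpi

end Pool.Agent.Lib.CX
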