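import Mathlib
import Pool.Agent.Lib.CX.Basic
import Pool.Agent.Lib.CX.Bdd
import Pool.Agent.Lib.CX.Rest
import Pool.Agent.Lib.CX.Dil
import Pool.Agent.Lib.CX.Mono
import Pool.Agent.Lib.CX.Lieb
import Pool.Agent.Lib.CX.Baz
import Pool.Agent.Lib.CX.Three
import Pool.Agent.Lib.CX.TrialE

/-! CX: assembly in the units with nuclear charge one. -/

set_option autoImplicit false

open MeasureTheory Set Filter Topology

noncomputable section

namespace Pool.Agent.Lib.CX

theorem eps_one_lower {t : ℝ} (ht : 0 ≤ t) : -(1 / 4) ≤ eps 1 t := by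
  refine le_eps (eSet_nonempty 1 t) fun ψ h h1 => ?_
  have := en_lower ht h
  rw [h1] at this
  norm_num at this ⊢
  linarith

theorem eps3_zero_lower : -(9 / 16) ≤ eps 3 0 := by
  refine le_eps (eSet_nonempty 3 0) fun ψ h h1 => ?_
  have := three_free h
  rw [h1] at this
  unfold en
  linarith

theorem eps2_le_eps3_one : eps 2 1 ≤ eps 3 1 :=
  lieb_no_binding (n := 2) (t := 1) (by norm_num) (by norm_num)

/-- chord -/
theorem eps3_chord {t : ℝ} (h0 : 0 ≤ t) (h1 : t ≤ 1) : -(9 / 16) + 41 / 144 * t ≤ eps 3 t := by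
  have h := eps_concave (n := 3) (eSet_nonempty 3 0) (le_refl 0) (zero_le_one) h0 h1
  have e1 : (1 - t) * 0 + t * 1 = t := by ring
  rw [e1] at h
  have a := eps3_zero_lower
  have b : -(5 / 18) ≤ eps 3 1 := le_trans (eps_two_one (eSet_nonempty 2 1)) eps2_le_eps3_one
  have c : (1 - t) * -(9 / 16) ≤ (1 - t) * eps 3 0 := mul_le_mul_of_nonneg_left a (by linarith)
  have d : t * -(5 / 18) ≤ t * eps 3 1 := mul_le_mul_of_nonneg_left b h0
  nlinarith

theorem eps3_neg {t : ℝ} (h0 : 0 ≤ t) (h1 : t ≤ 1) : eps 3 t < 0 := by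
  have a : eps 3 t ≤ eps 2 t := eps_succ_le 2 h0
  have b := eps2_screen h0 (zero_lt_one)
  nlinarith

/-- Lieb's bound in quantitative form for three electrons -/
theorem eps_gap {t : ℝ} (h0 : 0 ≤ t) (h1 : t ≤ 1) :
    (eps 2 t - eps 3 t) * 3 ≤ (9 / 16 - eps 3 t) * (1 - t) := by
  have hneg := eps3_neg h0 h1
  have h := lieb_quant (n := 2) (t := t) h0 (A := 9 / 16 - eps 3 t) (R := 3 * (1 - t)) ?_
    (by linarith) (by norm_num)
  · norm_num at h
    nlinarith
  · intro δ hδ
    obtain ⟨ψ, ha, hn, he, hk⟩ := exists_virial h0 (eSet_nonempty 3 t) hneg hδ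
    refine ⟨ψ, ha, hn, he, ?_⟩
    have e1 := three_free ha
    have e2 := eps_mul_le h0 ha
    rw [hn] at e1 e2
    linarith

theorem convex_two {t : ℝ} (h0 : 0 < t) : 2 * eps 2 t ≤ eps 1 t + eps 3 t := by
  have g1 := eps_one_lower h0.le
  by_cases h1 : 1 ≤ t
  · have a : eps 2 t ≤ eps 3 t := lieb_no_binding (n := 2) (by norm_num; linarith) h0.le
    have b : eps 2 t ≤ eps 1 t := eps_succ_le 1 h0.le
    linarith
  push Not at h1
  have hch := eps3_chord h0.le h1.le
  by_cases h2 : t ≤ 1 / 2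
  · have a := eps2_screen h0.le (l := 1 - 5 * t / 16) (by linarith)
    nlinarith
  push Not at h2
  have c := eps2_corr h0.le (l := 27 / 100) (by norm_num)
  by_cases h3 : t ≤ 181 / 200
  · nlinarith
  push Not at h3
  have d := eps_gap h0.le h1.le
  nlinarith

/-- all particle numbers `n` with `n t ≥ 2` -/
theorem convex_large {n : ℕ} {t : ℝ} (h0 : 0 < t) (ht : 2 ≤ (n + 1 : ℝ) * t) :
    2 * eps (n + 1) t ≤ eps n t + eps (n + 2) t := by
  have a : eps (n + 1) t ≤ eps (n + 2) t :=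
    lieb_no_binding (n := n + 1) (by push_cast; exact ht) h0.le
  have b : eps (n + 1) t ≤ eps n t := eps_succ_le n h0.le
  linarith

end Pool.Agent.Lib.CX
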