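import Mathlib

/-! CX, closed shells: the algebra of pairs of polynomials. -/

set_option autoImplicit false

open MvPolynomial

noncomputable section

namespace Pool.Agent.Lib.CX.Sh

/-- real polynomials in three variables -/
abbrev MP : Type := MvPolynomial (Fin 3) ℝ

/-- pairs `(p, q)`, standing for `p + r q` -/
abbrev PP : Type := MP × MP

/-- Euler operator -/
def euler : MP →ₗ[ℝ] MP :=
  ∑ i : Fin 3, (LinearMap.mulLeft ℝ (X i : MP)) ∘ₗ (pderiv i : Derivation ℝ MP MP).toLinearMap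

/-- Laplace operator -/
def lapl : MP →ₗ[ℝ] MP :=
  ∑ i : Fin 3, (pderiv i : Derivation ℝ MP MP).toLinearMap ∘ₗ
    (pderiv i : Derivation ℝ MP MP).toLinearMap

/-- squared radius -/
def rsq : MP := ∑ i : Fin 3, X i ^ 2

theorem euler_apply (p : MP) : euler p = ∑ i : Fin 3, X i * pderiv i p := by
  simp [euler, LinearMap.sum_apply]

theorem lapl_apply (p : MP) : lapl p = ∑ i : Fin 3, pderiv i (pderiv i p) := by
  simp [lapl, LinearMap.sum_apply]

/-- the operator `r (-Δ + κ²)` on pairs -/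
def LL (κ : ℝ) : PP →ₗ[ℝ] PP where
  toFun P := ((2 * κ) • (euler P.1 + P.1) - ((2 : ℝ) • (P.2 + euler P.2) + rsq * lapl P.2),
    (2 * κ) • (euler P.2 + (2 : ℝ) • P.2) - lapl P.1)
  map_add' P Q := by
    ext1
    · simp only [Prod.fst_add, Prod.snd_add, map_add, smul_add, mul_add]
      abel
    · simp only [Prod.fst_add, Prod.snd_add, map_add, smul_add]
      abel
  map_smul' c P := by
    ext1
    · simp only [Prod.smul_fst, Prod.smul_snd, map_smul, RingHom.id_apply, smul_sub, smul_add,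
        mul_smul_comm]
      simp only [smul_comm c]
    · simp only [Prod.smul_fst, Prod.smul_snd, map_smul, RingHom.id_apply, smul_sub, smul_add]
      simp only [smul_comm c]

theorem LL_apply (κ : ℝ) (P : PP) : LL κ P =
    ((2 * κ) • (euler P.1 + P.1) - ((2 : ℝ) • (P.2 + euler P.2) + rsq * lapl P.2),
    (2 * κ) • (euler P.2 + (2 : ℝ) • P.2) - lapl P.1) := rfl

/-- polynomials of degree less than `K - j` -/
def FF (j K : ℕ) : Submodule ℝ MP := restrictSupport ℝ {m : Fin 3 →₀ ℕ | m.degree + j < K}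

theorem mem_FF {j K : ℕ} {p : MP} :
    p ∈ FF j K ↔ ∀ m, coeff m p ≠ 0 → m.degree + j < K := by
  unfold FF
  rw [mem_restrictSupport_iff]
  constructor
  · intro h m hm
    exact h (by simpa using hm)
  · intro h m hm
    exact h m (by simpa using hm)

theorem FF_mono {j j' K K' : ℕ} (h : K + j' ≤ K' + j) : FF j K ≤ FF j' K' := by
  intro p hp
  rw [mem_FF] at hp ⊢
  intro m hm
  have := hp m hm
  omega

theorem pderiv_mem {j K : ℕ} {p : MP} (hp : p ∈ FF j K) (i : Fin 3) :
    pderiv i p ∈ FF (j + 1) K := by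
  rw [mem_FF] at hp ⊢
  intro m hm
  rw [coeff_pderiv] at hm
  have h1 := hp (m + Finsupp.single i 1) (fun h => hm (by rw [h, zero_mul]))
  rw [map_add, Finsupp.degree_single] at h1
  omega

theorem X_mul_mem {j K : ℕ} {p : MP} (hp : p ∈ FF (j + 1) K) (i : Fin 3) :
    X i * p ∈ FF j K := by
  rw [mem_FF] at hp ⊢
  intro m hm
  rw [coeff_X_mul'] at hm
  split_ifs at hm with h
  · have h1 := hp _ hm
    have h2 : m = (m - Finsupp.single i 1) + Finsupp.single i 1 := by
      rw [Finsupp.sub_add_single_one_cancel (by simpa using h)]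
    have h3 : m.degree = (m - Finsupp.single i 1).degree + 1 := by
      conv_lhs => rw [h2]
      rw [map_add, Finsupp.degree_single]
    omega
  · exact (hm rfl).elim

theorem coeff_euler (p : MP) (m : Fin 3 →₀ ℕ) :
    coeff m (euler p) = (m.degree : ℝ) * coeff m p := by
  have h1 : ∀ i : Fin 3, coeff m (X i * pderiv i p) = (m i : ℝ) * coeff m p := by
    intro i
    induction p using MvPolynomial.induction_on' with
    | add p q hp hq => rw [map_add, mul_add, coeff_add, coeff_add, hp, hq, mul_add]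
    | monomial n a =>
      rw [X_mul_pderiv_monomial, coeff_smul, coeff_monomial]
      split_ifs with h
      · rw [h, nsmul_eq_mul]
      · simp
  rw [euler_apply, coeff_sum, Finsupp.degree_eq_sum, Nat.cast_sum, Finset.sum_mul]
  exact Finset.sum_congr rfl fun i _ => h1 i

theorem euler_mem {j K : ℕ} {p : MP} (hp : p ∈ FF j K) : euler p ∈ FF j K := by
  rw [mem_FF] at hp ⊢
  intro m hm
  rw [coeff_euler] at hm
  exact hp m (fun h => hm (by rw [h, mul_zero]))

theorem euler_top {j K : ℕ} {p : MP} (hp : p ∈ FF j (K + 1)) :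
    euler p - ((K : ℝ) - j) • p ∈ FF j K := by
  rw [mem_FF] at hp ⊢
  intro m hm
  rw [coeff_sub, coeff_smul, coeff_euler, smul_eq_mul, ← sub_mul] at hm
  have h1 := hp m (fun h => hm (by rw [h, mul_zero]))
  by_contra h2
  apply hm
  have h3 : m.degree + j = K := by omega
  have h4 : (m.degree : ℝ) + j = K := by exact_mod_cast h3
  have h5 : (m.degree : ℝ) - ((K : ℝ) - j) = 0 := by linarith
  rw [h5, zero_mul]

theorem lapl_mem {j K : ℕ} {p : MP} (hp : p ∈ FF j K) : lapl p ∈ FF (j + 2) K := by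
  rw [lapl_apply]
  exact Submodule.sum_mem _ fun i _ => pderiv_mem (pderiv_mem hp i) i

theorem rsq_mul_mem {j K : ℕ} {p : MP} (hp : p ∈ FF (j + 2) K) : rsq * p ∈ FF j K := by
  unfold rsq
  rw [Finset.sum_mul]
  refine Submodule.sum_mem _ fun i _ => ?_
  rw [pow_two, mul_assoc]
  exact X_mul_mem (X_mul_mem hp i) i

/-- pairs of level at most `K` -/
def VV (K : ℕ) : Submodule ℝ PP := (FF 0 K).prod (FF 1 K)

theorem mem_VV {K : ℕ} {P : PP} : P ∈ VV K ↔ P.1 ∈ FF 0 K ∧ P.2 ∈ FF 1 K := Iff.rfl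

theorem VV_mono {K K' : ℕ} (h : K ≤ K') : VV K ≤ VV K' := by
  intro P hP
  exact ⟨FF_mono (by omega) hP.1, FF_mono (by omega) hP.2⟩

theorem LL_top (κ : ℝ) {K : ℕ} {P : PP} (hP : P ∈ VV (K + 1)) :
    LL κ P - (2 * κ * (K + 1)) • P ∈ VV K := by
  obtain ⟨h1, h2⟩ := hP
  constructor
  · have e : (LL κ P - (2 * κ * (K + 1)) • P).1 =
        (2 * κ) • (euler P.1 - ((K : ℝ) - (0 : ℕ)) • P.1)
          - ((2 : ℝ) • (P.2 + euler P.2) + rsq * lapl P.2) := by
      rw [LL_apply, Prod.fst_sub, Prod.smul_fst]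
      simp only [Nat.cast_zero, sub_zero]
      module
    rw [e]
    have h3 : P.2 ∈ FF 0 K := FF_mono (by omega) h2
    have h4 : rsq * lapl P.2 ∈ FF 1 (K + 1) := rsq_mul_mem (lapl_mem h2)
    exact Submodule.sub_mem _ (Submodule.smul_mem _ _ (euler_top h1))
      (Submodule.add_mem _ (Submodule.smul_mem _ _ (Submodule.add_mem _ h3 (euler_mem h3)))
        (FF_mono (by omega) h4))
  · have e : (LL κ P - (2 * κ * (K + 1)) • P).2 =
        (2 * κ) • (euler P.2 - ((K : ℝ) - (1 : ℕ)) • P.2) - lapl P.1 := by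
      rw [LL_apply, Prod.snd_sub, Prod.smul_snd]
      simp only [Nat.cast_one]
      module
    rw [e]
    have h4 : lapl P.1 ∈ FF (0 + 2) (K + 1) := lapl_mem h1
    exact Submodule.sub_mem _ (Submodule.smul_mem _ _ (euler_top h2)) (FF_mono (by omega) h4)

theorem VV_zero {P : PP} (hP : P ∈ VV 0) : P = 0 := by
  have h1 := mem_FF.1 (mem_VV.1 hP).1
  have h2 := mem_FF.1 (mem_VV.1 hP).2
  have e1 : P.1 = 0 := by
    ext m
    by_contra h
    have := h1 m h
    omega
  have e2 : P.2 = 0 := by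
    ext m
    by_contra h
    have := h2 m h
    omega
  exact Prod.ext e1 e2

theorem LL_mem (κ : ℝ) {K : ℕ} {P : PP} (hP : P ∈ VV K) : LL κ P ∈ VV K := by
  cases K with
  | zero =>
    rw [VV_zero hP, map_zero]
    exact Submodule.zero_mem _
  | succ K =>
    have h1 := VV_mono (Nat.le_succ K) (LL_top κ hP)
    have h2 := Submodule.add_mem _ h1 (Submodule.smul_mem _ (2 * κ * (K + 1)) hP)
    simpa using h2

/-- number of exponents with `m + j < K` -/
def cc (j K : ℕ) : ℕ := Nat.card {m : Fin 3 →₀ ℕ | m.degree + j < K}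

instance fin_deg (j K : ℕ) : Finite {m : Fin 3 →₀ ℕ | m.degree + j < K} := by
  refine Set.Finite.to_subtype ((Finsupp.finite_of_degree_lt (σ := Fin 3) K).subset ?_)
  intro m hm
  simp only [Set.mem_ofPred_eq] at hm ⊢
  omega

instance finDim_FF (j K : ℕ) : FiniteDimensional ℝ (FF j K) :=
  Module.Finite.of_basis (basisRestrictSupport ℝ {m : Fin 3 →₀ ℕ | m.degree + j < K})

theorem finrank_FF (j K : ℕ) : Module.finrank ℝ (FF j K) = cc j K :=
  Module.finrank_eq_nat_card_basis (basisRestrictSupport ℝ {m : Fin 3 →₀ ℕ | m.degree + j < K})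

theorem cc_succ (K : ℕ) : cc 0 (K + 1) = cc 0 K + (K + 2).choose K := by
  have h0 : Nat.card {m : Fin 3 →₀ ℕ | m.degree = K} = (K + 2).choose K := by
    have h1 : {m : Fin 3 →₀ ℕ | m.degree = K}
        = ((Finset.univ : Finset (Fin 3)).finsuppAntidiag K : Set (Fin 3 →₀ ℕ)) := by
      ext m
      simp [Finsupp.degree_eq_sum]
    rw [h1]
    rw [Nat.card_coe_set_eq, Set.ncard_coe_finset, Finset.card_finsuppAntidiag_nat_eq_choose]
    simp [Nat.add_comm]
  have h2 : {m : Fin 3 →₀ ℕ | m.degree + 0 < K + 1}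
      = {m : Fin 3 →₀ ℕ | m.degree + 0 < K} ∪ {m : Fin 3 →₀ ℕ | m.degree = K} := by
    ext m
    simp only [Set.mem_ofPred_eq, Set.mem_union]
    omega
  unfold cc
  rw [h2, ← h0, Nat.card_coe_set_eq, Nat.card_coe_set_eq, Nat.card_coe_set_eq]
  refine Set.ncard_union_eq ?_ (Set.toFinite _) (Finsupp.finite_of_degree_eq K)
  rw [Set.disjoint_left]
  intro m h3 h4
  simp only [Set.mem_ofPred_eq] at h3 h4
  omega

theorem cc_one (K : ℕ) : cc 1 (K + 1) = cc 0 K := by
  unfold cc
  congr 2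
  ext m
  simp

theorem cc_zero (j : ℕ) : cc j 0 = 0 := by
  unfold cc
  simp

/-- the number of states up to level `K` -/
def dd (K : ℕ) : ℕ := ∑ k ∈ Finset.range K, (k + 1) ^ 2

theorem dd_succ (K : ℕ) : dd (K + 1) = dd K + (K + 1) ^ 2 := by
  unfold dd
  rw [Finset.sum_range_succ]

theorem choose_two (K : ℕ) : 2 * (K + 2).choose K = (K + 1) * (K + 2) := by
  rw [Nat.choose_symm_add, Nat.choose_two_right]
  have h1 : K + 2 - 1 = K + 1 := by omega
  have h2 := (Nat.even_mul_pred_self (K + 2)).two_dvd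
  rw [h1] at h2 ⊢
  rw [Nat.mul_div_cancel' h2, mul_comm]

/-- splitting of the pairs -/
def VVe (K : ℕ) : VV K ≃ₗ[ℝ] (FF 0 K) × (FF 1 K) where
  toFun P := (⟨P.1.1, P.2.1⟩, ⟨P.1.2, P.2.2⟩)
  invFun Q := ⟨(Q.1.1, Q.2.1), ⟨Q.1.2, Q.2.2⟩⟩
  map_add' _ _ := rfl
  map_smul' _ _ := rfl
  left_inv _ := rfl
  right_inv _ := rfl

instance finDim_VV (K : ℕ) : FiniteDimensional ℝ (VV K) :=
  Module.Finite.equiv (VVe K).symm

theorem finrank_VV (K : ℕ) : Module.finrank ℝ (VV K) = cc 0 K + cc 1 K := by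
  rw [(VVe K).finrank_eq, Module.finrank_prod, finrank_FF, finrank_FF]

theorem finrank_VV_eq (K : ℕ) : Module.finrank ℝ (VV K) = dd K := by
  rw [finrank_VV]
  induction K with
  | zero =>
    rw [cc_zero, cc_zero]
    rfl
  | succ K ih =>
    rw [dd_succ, ← ih]
    cases K with
    | zero =>
      rw [cc_succ, cc_one, cc_zero, cc_zero]
      norm_num
    | succ K =>
      rw [cc_succ, cc_one, cc_one, cc_succ]
      have h1 := choose_two K
      have h2 := choose_two (K + 1)
      nlinarith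

/-- the eigenpairs of level `K + 1` -/
def EE (κ : ℝ) (K : ℕ) : Submodule ℝ PP := VV K ⊓ LinearMap.ker (LL κ - (2 * κ * K) • LinearMap.id)

theorem mem_EE {κ : ℝ} {K : ℕ} {P : PP} : P ∈ EE κ K ↔ P ∈ VV K ∧ LL κ P = (2 * κ * K) • P := by
  unfold EE
  rw [Submodule.mem_inf, LinearMap.mem_ker, LinearMap.sub_apply, LinearMap.smul_apply,
    LinearMap.id_apply, sub_eq_zero]

instance finDim_EE (κ : ℝ) (K : ℕ) : FiniteDimensional ℝ (EE κ K) :=
  Submodule.finiteDimensional_inf_left _ _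

theorem finrank_EE (κ : ℝ) (K : ℕ) : (K + 1) ^ 2 ≤ Module.finrank ℝ (EE κ (K + 1)) := by
  -- the operator maps level `K + 1` to level `K`
  let T : VV (K + 1) →ₗ[ℝ] VV K :=
    { toFun := fun P => ⟨LL κ P.1 - (2 * κ * (K + 1)) • P.1, LL_top κ P.2⟩
      map_add' := fun P Q => by
        ext1
        show LL κ (P.1 + Q.1) - (2 * κ * (K + 1)) • (P.1 + Q.1) = _
        rw [map_add, smul_add]
        show _ = (LL κ P.1 - (2 * κ * (K + 1)) • P.1) + (LL κ Q.1 - (2 * κ * (K + 1)) • Q.1)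
        abel
      map_smul' := fun c P => by
        ext1
        show LL κ (c • P.1) - (2 * κ * (K + 1)) • (c • P.1)
          = c • (LL κ P.1 - (2 * κ * (K + 1)) • P.1)
        rw [map_smul, smul_sub, smul_comm] }
  have h1 := LinearMap.finrank_range_add_finrank_ker T
  have h2 : Module.finrank ℝ (LinearMap.range T) ≤ Module.finrank ℝ (VV K) :=
    Submodule.finrank_le _
  rw [finrank_VV_eq] at h1 h2
  rw [dd_succ] at h1
  -- the kernel embeds
  let S : LinearMap.ker T →ₗ[ℝ] EE κ (K + 1) :=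
    { toFun := fun P => ⟨P.1.1, by
        rw [mem_EE]
        refine ⟨P.1.2, ?_⟩
        have h3 : T P.1 = 0 := P.2
        have h4 : LL κ P.1.1 - (2 * κ * (K + 1)) • P.1.1 = 0 := congrArg Subtype.val h3
        push_cast
        exact sub_eq_zero.1 h4⟩
      map_add' := fun _ _ => rfl
      map_smul' := fun _ _ => rfl }
  have hS : Function.Injective S := by
    intro P Q hPQ
    have h3 : (S P).1 = (S Q).1 := by rw [hPQ]
    exact Subtype.ext (Subtype.ext h3)
  have h5 := LinearMap.finrank_le_finrank_of_injective hS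
  omega

end Pool.Agent.Lib.CX.Sh
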