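import Mathlib
import Pool.Agent.Lib.CX.Basic
import Pool.Agent.Lib.CX.ShA

/-! CX, closed shells: the functions `(p + r q) exp (-κ r)` and their derivatives. -/

set_option autoImplicit false

open MvPolynomial MeasureTheory Set

noncomputable section

namespace Pool.Agent.Lib.CX.Sh

/-- evaluation of a polynomial -/
def pe (p : MP) (x : R3) : ℝ := eval (fun i => x i) p

theorem pe_add (p q : MP) (x : R3) : pe (p + q) x = pe p x + pe q x := by simp [pe]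
theorem pe_sub (p q : MP) (x : R3) : pe (p - q) x = pe p x - pe q x := by simp [pe]
theorem pe_mul (p q : MP) (x : R3) : pe (p * q) x = pe p x * pe q x := by simp [pe]
theorem pe_smul (c : ℝ) (p : MP) (x : R3) : pe (c • p) x = c * pe p x := by simp [pe]
theorem pe_X (i : Fin 3) (x : R3) : pe (MvPolynomial.X i) x = x i := by simp [pe]
theorem pe_C (c : ℝ) (x : R3) : pe (C c) x = c := by simp [pe]
theorem pe_zero (x : R3) : pe 0 x = 0 := by simp [pe]
theorem pe_one (x : R3) : pe 1 x = 1 := by simp [pe]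
theorem pe_pow (p : MP) (n : ℕ) (x : R3) : pe (p ^ n) x = pe p x ^ n := by simp [pe]
theorem pe_sum {ι : Type} (s : Finset ι) (f : ι → MP) (x : R3) :
    pe (∑ i ∈ s, f i) x = ∑ i ∈ s, pe (f i) x := by simp [pe]

theorem norm_sq_eq (x : R3) : ‖x‖ ^ 2 = x 0 ^ 2 + x 1 ^ 2 + x 2 ^ 2 := by
  rw [EuclideanSpace.norm_sq_eq, Fin.sum_univ_three]
  simp

theorem pe_rsq (x : R3) : pe rsq x = ‖x‖ ^ 2 := by
  unfold rsq
  rw [pe_sum, norm_sq_eq, Fin.sum_univ_three]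
  simp only [pe_pow, pe_X]

theorem abs_coord_le (x : R3) (i : Fin 3) : |x i| ≤ ‖x‖ := by
  have := PiLp.norm_apply_le x i
  simpa using this

theorem continuous_pe (p : MP) : Continuous (pe p) := by
  unfold pe
  have h1 : Continuous fun x : R3 => fun i => x i := by fun_prop
  exact (MvPolynomial.continuous_eval p).comp h1

theorem contDiff_pe (p : MP) : ContDiff ℝ (⊤ : ℕ∞) (pe p) := by
  induction p using MvPolynomial.induction_on with
  | C a =>
    have h : pe (C a) = fun _ => a := funext fun x => pe_C a x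
    rw [h]
    exact contDiff_const
  | add p q hp hq =>
    have h : pe (p + q) = fun x => pe p x + pe q x := funext fun x => pe_add p q x
    rw [h]
    exact hp.add hq
  | mul_X p i hp =>
    have h : pe (p * MvPolynomial.X i) = fun x => pe p x * x i := funext fun x => by rw [pe_mul, pe_X]
    rw [h]
    refine hp.mul ?_
    exact (EuclideanSpace.proj i : R3 →L[ℝ] ℝ).contDiff

theorem hasFDerivAt_pe (p : MP) (x : R3) :
    ∃ G : R3 →L[ℝ] ℝ, HasFDerivAt (pe p) G x ∧ ∀ k, G (e3 k) = pe (pderiv k p) x := by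
  induction p using MvPolynomial.induction_on with
  | C a =>
    have h : pe (C a) = fun _ => a := funext fun x => pe_C a x
    rw [h]
    exact ⟨0, hasFDerivAt_const _ _, fun k => by simp [pe]⟩
  | add p q hp hq =>
    obtain ⟨G, hG, hG'⟩ := hp
    obtain ⟨H, hH, hH'⟩ := hq
    have h : pe (p + q) = fun x => pe p x + pe q x := funext fun x => pe_add p q x
    rw [h]
    exact ⟨G + H, hG.add hH, fun k => by
      rw [_root_.add_apply, hG', hH', map_add, pe_add]⟩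
  | mul_X p i hp =>
    obtain ⟨G, hG, hG'⟩ := hp
    have h : pe (p * MvPolynomial.X i) = fun x => pe p x * x i := funext fun x => by rw [pe_mul, pe_X]
    rw [h]
    have h2 : HasFDerivAt (fun x : R3 => x i)
        (EuclideanSpace.proj i : R3 →L[ℝ] ℝ) x :=
      (EuclideanSpace.proj i : R3 →L[ℝ] ℝ).hasFDerivAt
    refine ⟨_, hG.mul h2, fun k => ?_⟩
    rw [_root_.add_apply, _root_.smul_apply,
      _root_.smul_apply, hG', pderiv_mul, pe_add, pe_mul, pe_mul, pe_X]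
    have h3 : pe (pderiv k (MvPolynomial.X i : MP)) x = (e3 k : R3) i := by
      by_cases hki : i = k
      · subst hki
        simp [pe, e3]
      · rw [pderiv_X_of_ne hki]
        simp [pe, e3, hki]
    rw [h3]
    simp only [smul_eq_mul]
    show pe p x * (e3 k : R3) i + x i * pe (pderiv k p) x = _
    ring

/-- growth of polynomials -/
theorem pe_bound (p : MP) : ∀ a : ℝ, 0 < a → ∃ C : ℝ, 0 ≤ C ∧ ∀ x : R3,
    |pe p x| ≤ C * Real.exp (a * ‖x‖) := by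
  induction p using MvPolynomial.induction_on with
  | C c =>
    intro a ha
    refine ⟨|c|, abs_nonneg c, fun x => ?_⟩
    rw [pe_C]
    have h1 : 1 ≤ Real.exp (a * ‖x‖) := Real.one_le_exp (by positivity)
    nlinarith [abs_nonneg c]
  | add p q hp hq =>
    intro a ha
    obtain ⟨C, hC, h1⟩ := hp a ha
    obtain ⟨D, hD, h2⟩ := hq a ha
    refine ⟨C + D, by positivity, fun x => ?_⟩
    rw [pe_add, add_mul]
    exact (abs_add_le _ _).trans (add_le_add (h1 x) (h2 x))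
  | mul_X p i hp =>
    intro a ha
    obtain ⟨C, hC, h1⟩ := hp (a / 2) (by positivity)
    refine ⟨C * (2 / a), by positivity, fun x => ?_⟩
    rw [pe_mul, pe_X, abs_mul]
    have h2 : |x i| ≤ (2 / a) * Real.exp (a / 2 * ‖x‖) := by
      have h3 := Real.add_one_le_exp (a / 2 * ‖x‖)
      have h4 : ‖x‖ ≤ (2 / a) * Real.exp (a / 2 * ‖x‖) := by
        rw [div_mul_eq_mul_div, le_div_iff₀ ha]
        linarith
      exact (abs_coord_le x i).trans h4
    calc |pe p x| * |x i| ≤ (C * Real.exp (a / 2 * ‖x‖)) * ((2 / a) * Real.exp (a / 2 * ‖x‖)) :=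
          mul_le_mul (h1 x) h2 (abs_nonneg _) (by positivity)
      _ = C * (2 / a) * (Real.exp (a / 2 * ‖x‖) * Real.exp (a / 2 * ‖x‖)) := by ring
      _ = C * (2 / a) * Real.exp (a * ‖x‖) := by rw [← Real.exp_add]; ring_nf

/-- smoothed radius -/
def rho (δ : ℝ) (x : R3) : ℝ := Real.sqrt (‖x‖ ^ 2 + δ ^ 2)

theorem rho_zero (x : R3) : rho 0 x = ‖x‖ := by
  unfold rho
  rw [zero_pow two_ne_zero, add_zero, Real.sqrt_sq (norm_nonneg x)]

theorem rho_sq (δ : ℝ) (x : R3) : rho δ x ^ 2 = ‖x‖ ^ 2 + δ ^ 2 := Real.sq_sqrt (by positivity)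

theorem rho_nonneg (δ : ℝ) (x : R3) : 0 ≤ rho δ x := Real.sqrt_nonneg _

theorem norm_le_rho (δ : ℝ) (x : R3) : ‖x‖ ≤ rho δ x := by
  refine Real.le_sqrt_of_sq_le ?_
  nlinarith [sq_nonneg δ]

theorem rho_le (δ : ℝ) (x : R3) : rho δ x ≤ ‖x‖ + |δ| := by
  unfold rho
  rw [Real.sqrt_le_left (by positivity)]
  nlinarith [norm_nonneg x, abs_nonneg δ, sq_abs δ, mul_nonneg (norm_nonneg x) (abs_nonneg δ)]

theorem continuous_rho (δ : ℝ) : Continuous (rho δ) := by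
  unfold rho
  fun_prop

theorem rho_pos {δ : ℝ} {x : R3} (h : 0 < ‖x‖ ^ 2 + δ ^ 2) : 0 < rho δ x := Real.sqrt_pos.2 h

theorem hasFDerivAt_rho {δ : ℝ} {x : R3} (h : 0 < ‖x‖ ^ 2 + δ ^ 2) :
    ∃ G : R3 →L[ℝ] ℝ, HasFDerivAt (rho δ) G x ∧ ∀ k, G (e3 k) = x k / rho δ x := by
  have h1 : HasFDerivAt (fun x : R3 => ‖x‖ ^ 2 + δ ^ 2) (2 • (innerSL ℝ x)) x :=
    (hasStrictFDerivAt_norm_sq x).hasFDerivAt.add_const _
  have h2 := h1.sqrt h.ne'
  refine ⟨_, h2, fun k => ?_⟩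
  rw [_root_.smul_apply, _root_.smul_apply, innerSL_apply_apply]
  have h3 : inner ℝ x (e3 k) = x k := by
    simp [e3, EuclideanSpace.inner_single_right]
  rw [h3, smul_eq_mul]
  show 1 / (2 * rho δ x) * (2 • x k) = x k / rho δ x
  have h4 := (rho_pos h).ne'
  rw [nsmul_eq_mul]
  push_cast
  field_simp

/-- the function of a pair -/
def ev (κ δ : ℝ) (P : PP) (x : R3) : ℝ :=
  (pe P.1 x + rho δ x * pe P.2 x) * Real.exp (-(κ * rho δ x))

/-- the derivative in direction `k` -/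
def gd (κ δ : ℝ) (P : PP) (k : Fin 3) (x : R3) : ℝ :=
  (pe (pderiv k P.1) x + rho δ x * pe (pderiv k P.2) x - κ * x k * pe P.2 x
    + x k / rho δ x * (pe P.2 x - κ * pe P.1 x)) * Real.exp (-(κ * rho δ x))

theorem hasFDerivAt_ev (κ : ℝ) {δ : ℝ} (P : PP) {x : R3} (h : 0 < ‖x‖ ^ 2 + δ ^ 2) :
    ∃ G : R3 →L[ℝ] ℝ, HasFDerivAt (ev κ δ P) G x ∧ ∀ k, G (e3 k) = gd κ δ P k x := by
  obtain ⟨R, hR, hR'⟩ := hasFDerivAt_rho h
  obtain ⟨A, hA, hA'⟩ := hasFDerivAt_pe P.1 x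
  obtain ⟨B, hB, hB'⟩ := hasFDerivAt_pe P.2 x
  have h1 := (hA.add (hR.mul hB)).mul ((hR.const_mul κ).neg.exp)
  refine ⟨_, h1, fun k => ?_⟩
  simp only [_root_.add_apply, _root_.smul_apply,
    _root_.neg_apply, hR', hA', hB', smul_eq_mul]
  unfold gd
  have h4 := (rho_pos h).ne'
  simp only [Pi.add_apply, Pi.mul_apply, Pi.neg_apply]
  field_simp
  ring

theorem contDiff_rho {δ : ℝ} (hδ : 0 < δ) : ContDiff ℝ (⊤ : ℕ∞) (rho δ) := by
  unfold rho
  exact ((contDiff_norm_sq ℝ).add contDiff_const).sqrt (fun x => by positivity)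

theorem contDiff_ev (κ : ℝ) {δ : ℝ} (hδ : 0 < δ) (P : PP) : ContDiff ℝ (⊤ : ℕ∞) (ev κ δ P) := by
  unfold ev
  exact ((contDiff_pe P.1).add ((contDiff_rho hδ).mul (contDiff_pe P.2))).mul
    ((contDiff_const.mul (contDiff_rho hδ)).neg.exp)

theorem continuous_ev (κ δ : ℝ) (P : PP) : Continuous (ev κ δ P) := by
  unfold ev
  have h1 := continuous_pe P.1
  have h2 := continuous_pe P.2
  have h3 := continuous_rho δ
  fun_prop

theorem measurable_gd (κ δ : ℝ) (P : PP) (k : Fin 3) : Measurable (gd κ δ P k) := by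
  unfold gd
  have h1 := (continuous_pe P.1).measurable
  have h2 := (continuous_pe P.2).measurable
  have h3 := (continuous_rho δ).measurable
  have h4 := (continuous_pe (pderiv k P.1)).measurable
  have h5 := (continuous_pe (pderiv k P.2)).measurable
  fun_prop

/-- uniform exponential bounds -/
theorem ev_bound {κ : ℝ} (hκ : 0 < κ) (P : PP) : ∃ C : ℝ, 0 ≤ C ∧ ∀ δ ∈ Icc (0 : ℝ) 1, ∀ x : R3,
    |ev κ δ P x| ≤ C * Real.exp (-(κ / 2 * ‖x‖)) := by
  obtain ⟨C, hC, h1⟩ := pe_bound P.1 (κ / 4) (by positivity)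
  obtain ⟨D, hD, h2⟩ := pe_bound P.2 (κ / 4) (by positivity)
  refine ⟨C + (4 / κ + 1) * D, by positivity, fun δ hδ x => ?_⟩
  have e1 : Real.exp (-(κ * rho δ x)) ≤ Real.exp (-(κ * ‖x‖)) := by
    apply Real.exp_le_exp.2
    have := mul_le_mul_of_nonneg_left (norm_le_rho δ x) hκ.le
    linarith
  have e2 : rho δ x ≤ (4 / κ + 1) * Real.exp (κ / 4 * ‖x‖) := by
    have h3 := Real.add_one_le_exp (κ / 4 * ‖x‖)
    have h4 := rho_le δ x
    rw [abs_of_nonneg hδ.1] at h4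
    have h5 : ‖x‖ ≤ (4 / κ) * Real.exp (κ / 4 * ‖x‖) := by
      rw [div_mul_eq_mul_div, le_div_iff₀ hκ]
      linarith
    have h6 : 1 ≤ Real.exp (κ / 4 * ‖x‖) := Real.one_le_exp (by positivity)
    have h7 := hδ.2
    rw [add_mul]
    linarith
  have e3 : |pe P.1 x + rho δ x * pe P.2 x| ≤
      C * Real.exp (κ / 4 * ‖x‖) + ((4 / κ + 1) * Real.exp (κ / 4 * ‖x‖))
        * (D * Real.exp (κ / 4 * ‖x‖)) := by
    refine (abs_add_le _ _).trans (add_le_add (h1 x) ?_)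
    rw [abs_mul, abs_of_nonneg (rho_nonneg δ x)]
    exact mul_le_mul e2 (h2 x) (abs_nonneg _) (by positivity)
  unfold ev
  rw [abs_mul, Real.abs_exp]
  have h6 : 1 ≤ Real.exp (κ / 4 * ‖x‖) := Real.one_le_exp (by positivity)
  have e4 : C * Real.exp (κ / 4 * ‖x‖) + ((4 / κ + 1) * Real.exp (κ / 4 * ‖x‖))
        * (D * Real.exp (κ / 4 * ‖x‖)) ≤ (C + (4 / κ + 1) * D) * (Real.exp (κ / 4 * ‖x‖) *
          Real.exp (κ / 4 * ‖x‖)) := by
    have h7 : Real.exp (κ / 4 * ‖x‖) ≤ Real.exp (κ / 4 * ‖x‖) * Real.exp (κ / 4 * ‖x‖) := by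
      nlinarith
    nlinarith [mul_le_mul_of_nonneg_left h7 hC]
  calc |pe P.1 x + rho δ x * pe P.2 x| * Real.exp (-(κ * rho δ x))
      ≤ ((C + (4 / κ + 1) * D) * (Real.exp (κ / 4 * ‖x‖) *
          Real.exp (κ / 4 * ‖x‖))) * Real.exp (-(κ * ‖x‖)) :=
        mul_le_mul (e3.trans e4) e1 (Real.exp_pos _).le (by positivity)
    _ = (C + (4 / κ + 1) * D) * Real.exp (-(κ / 2 * ‖x‖)) := by
        rw [mul_assoc, ← Real.exp_add, ← Real.exp_add]
        ring_nf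

theorem gd_eq (κ δ : ℝ) (P : PP) (k : Fin 3) (x : R3) :
    gd κ δ P k x = ev κ δ (pderiv k P.1 - κ • (MvPolynomial.X k * P.2), pderiv k P.2) x
      + x k / rho δ x * ev κ δ (P.2 - κ • P.1, 0) x := by
  unfold gd ev
  simp only [pe_sub, pe_smul, pe_mul, pe_X, pe_zero]
  ring

theorem abs_div_rho_le (δ : ℝ) (x : R3) (k : Fin 3) : |x k / rho δ x| ≤ 1 := by
  rw [abs_div, abs_of_nonneg (rho_nonneg δ x)]
  exact div_le_one_of_le₀ ((abs_coord_le x k).trans (norm_le_rho δ x)) (rho_nonneg δ x)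

theorem gd_bound {κ : ℝ} (hκ : 0 < κ) (P : PP) (k : Fin 3) : ∃ C : ℝ, 0 ≤ C ∧
    ∀ δ ∈ Icc (0 : ℝ) 1, ∀ x : R3, |gd κ δ P k x| ≤ C * Real.exp (-(κ / 2 * ‖x‖)) := by
  obtain ⟨C, hC, h1⟩ := ev_bound hκ (pderiv k P.1 - κ • (MvPolynomial.X k * P.2), pderiv k P.2)
  obtain ⟨D, hD, h2⟩ := ev_bound hκ (P.2 - κ • P.1, (0 : MP))
  refine ⟨C + D, by positivity, fun δ hδ x => ?_⟩
  rw [gd_eq, add_mul]
  refine (abs_add_le _ _).trans (add_le_add (h1 δ hδ x) ?_)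
  rw [abs_mul]
  calc |x k / rho δ x| * |ev κ δ (P.2 - κ • P.1, 0) x| ≤ 1 * |ev κ δ (P.2 - κ • P.1, 0) x| :=
        mul_le_mul_of_nonneg_right (abs_div_rho_le δ x k) (abs_nonneg _)
    _ ≤ D * Real.exp (-(κ / 2 * ‖x‖)) := by rw [one_mul]; exact h2 δ hδ x

/-- the pointwise equation away from the origin -/
theorem second_deriv (κ : ℝ) (P : PP) {x : R3} (hx : x ≠ 0) (k : Fin 3) :
    ∃ G : R3 →L[ℝ] ℝ, HasFDerivAt (gd κ 0 P k) G x ∧
      G (e3 k) = gd κ 0 (pderiv k P.1 - κ • (MvPolynomial.X k * P.2), pderiv k P.2) k x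
      + ((1 / ‖x‖ - x k ^ 2 / ‖x‖ ^ 3) * ev κ 0 (P.2 - κ • P.1, 0) x
        + x k / ‖x‖ * gd κ 0 (P.2 - κ • P.1, 0) k x) := by
  have hx0 : 0 < ‖x‖ := norm_pos_iff.2 hx
  have h : 0 < ‖x‖ ^ 2 + (0 : ℝ) ^ 2 := by positivity
  obtain ⟨A, hA, hA'⟩ := hasFDerivAt_ev κ (pderiv k P.1 - κ • (MvPolynomial.X k * P.2), pderiv k P.2) h
  obtain ⟨B, hB, hB'⟩ := hasFDerivAt_ev κ (P.2 - κ • P.1, (0 : MP)) h
  obtain ⟨R, hR, hR'⟩ := hasFDerivAt_rho h
  have h2 : HasFDerivAt (fun x : R3 => x k)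
      (EuclideanSpace.proj k : R3 →L[ℝ] ℝ) x :=
    (EuclideanSpace.proj k : R3 →L[ℝ] ℝ).hasFDerivAt
  have hr0 : rho 0 x ≠ 0 := by rw [rho_zero]; exact hx0.ne'
  have h3 : gd κ 0 P k = fun x => ev κ 0 (pderiv k P.1 - κ • (MvPolynomial.X k * P.2), pderiv k P.2) x
      + (x k * (rho 0 x)⁻¹) * ev κ 0 (P.2 - κ • P.1, 0) x := by
    funext x
    rw [gd_eq, div_eq_mul_inv]
  have hRi : HasFDerivAt (fun x => (rho 0 x)⁻¹) ((-(rho 0 x ^ 2)⁻¹) • R) x :=
    (hasDerivAt_inv hr0).comp_hasFDerivAt x hR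
  have h4 := hA.add ((h2.mul hRi).mul hB)
  rw [h3]
  refine ⟨_, h4, ?_⟩
  simp only [_root_.add_apply, _root_.smul_apply, hA', hB', hR',
    smul_eq_mul]
  have h5 : (EuclideanSpace.proj k : R3 →L[ℝ] ℝ) (e3 k) = 1 := by
    simp [e3]
  simp only [h5, Pi.mul_apply, rho_zero, mul_one]
  congr 1
  have hx1 : ‖x‖ ≠ 0 := hx0.ne'
  field_simp
  ring

theorem pointwise_eq (κ : ℝ) (P : PP) {x : R3} (hx : x ≠ 0) :
    ∑ k, (gd κ 0 (pderiv k P.1 - κ • (MvPolynomial.X k * P.2), pderiv k P.2) k x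
      + ((1 / ‖x‖ - x k ^ 2 / ‖x‖ ^ 3) * ev κ 0 (P.2 - κ • P.1, 0) x
        + x k / ‖x‖ * gd κ 0 (P.2 - κ • P.1, 0) k x))
      = κ ^ 2 * ev κ 0 P x - 1 / ‖x‖ * ev κ 0 (LL κ P) x := by
  have hx0 : ‖x‖ ≠ 0 := norm_ne_zero_iff.2 hx
  have hr := norm_sq_eq x
  rw [Fin.sum_univ_three]
  unfold gd ev
  rw [LL_apply]
  simp only [rho_zero, euler_apply, lapl_apply, Fin.sum_univ_three, pe_sub, pe_add, pe_smul,
    pe_mul, pe_X, pe_zero, pe_rsq, map_sub, map_zero, Derivation.map_smul, pderiv_mul,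
    pderiv_X_self, mul_zero, add_zero, one_mul, sub_zero]
  generalize Real.exp (-(κ * ‖x‖)) = E
  generalize pe P.1 x = p
  generalize pe P.2 x = q
  generalize pe (pderiv 0 P.1) x = p0
  generalize pe (pderiv 1 P.1) x = p1
  generalize pe (pderiv 2 P.1) x = p2
  generalize pe (pderiv 0 P.2) x = q0
  generalize pe (pderiv 1 P.2) x = q1
  generalize pe (pderiv 2 P.2) x = q2
  generalize pe (pderiv 0 (pderiv 0 P.1)) x = p00
  generalize pe (pderiv 1 (pderiv 1 P.1)) x = p11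
  generalize pe (pderiv 2 (pderiv 2 P.1)) x = p22
  generalize pe (pderiv 0 (pderiv 0 P.2)) x = q00
  generalize pe (pderiv 1 (pderiv 1 P.2)) x = q11
  generalize pe (pderiv 2 (pderiv 2 P.2)) x = q22
  generalize x 0 = a at *
  generalize x 1 = b at *
  generalize x 2 = c at *
  generalize ‖x‖ = r at *
  field_simp
  linear_combination E * ((q - κ * p) * (1 + κ * r) - κ ^ 2 * r ^ 2 * q) * hr

end Pool.Agent.Lib.CX.Sh
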