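import Mathlib
import Pool.Agent.Lib.CX.Basic
import Pool.Agent.Lib.CX.Integ
import Pool.Agent.Lib.CX.SphB
import Pool.Agent.Lib.CX.ShA
import Pool.Agent.Lib.CX.ShB

/-! CX, closed shells: the Hilbert space setting. -/

set_option autoImplicit false

open MeasureTheory Set Filter Topology

noncomputable section

namespace Pool.Agent.Lib.CX.Sh

theorem int_pow_exp (n : ℕ) {a : ℝ} (ha : 0 < a) :
    IntegrableOn (fun r : ℝ => r ^ n * Real.exp (-(a * r))) (Ioi 0) := by
  have h := integrableOn_rpow_mul_exp_neg_mul_rpow (s := (n : ℝ)) (p := 1) (b := a)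
    (by have := Nat.cast_nonneg (α := ℝ) n; linarith) one_pos ha
  refine h.congr_fun ?_ measurableSet_Ioi
  intro r _
  simp only [Real.rpow_natCast, Real.rpow_one, neg_mul]

theorem int_exp0 {a : ℝ} (ha : 0 < a) : Integrable (fun x : R3 => Real.exp (-(a * ‖x‖))) := by
  rw [integrable_radial (fun r => Real.exp (-(a * r)))]
  exact int_pow_exp 2 ha

theorem int_exp1 {a : ℝ} (ha : 0 < a) :
    Integrable (fun x : R3 => 1 / ‖x‖ * Real.exp (-(a * ‖x‖))) := by
  rw [integrable_radial (fun r => 1 / r * Real.exp (-(a * r)))]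
  refine (int_pow_exp 1 ha).congr_fun ?_ measurableSet_Ioi
  intro r hr
  have hr0 : r ≠ 0 := ne_of_gt hr
  show r ^ 1 * Real.exp (-(a * r)) = r ^ 2 * (1 / r * Real.exp (-(a * r)))
  field_simp

theorem exp_sq (a t : ℝ) : Real.exp (-(a * t)) ^ 2 = Real.exp (-(2 * a * t)) := by
  rw [← Real.exp_nat_mul]
  congr 1
  push_cast
  ring

/-- the weight -/
def wt (x : R3) : ℝ := (Real.sqrt ‖x‖)⁻¹

theorem wt_sq (x : R3) : wt x * wt x = 1 / ‖x‖ := by
  unfold wt
  rw [← mul_inv, Real.mul_self_sqrt (norm_nonneg x), one_div]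

theorem wt_nonneg (x : R3) : 0 ≤ wt x := by
  unfold wt
  positivity

theorem measurable_wt : Measurable wt := by
  unfold wt
  fun_prop

theorem memLp_bound {f : R3 → ℝ} (hm : AEStronglyMeasurable f) {C a : ℝ} (ha : 0 < a)
    (h : ∀ x, |f x| ≤ C * Real.exp (-(a * ‖x‖))) : MemLp f 2 := by
  rw [memLp_two_iff_integrable_sq hm]
  refine ((int_exp0 (a := 2 * a) (by positivity)).const_mul (C ^ 2)).mono' (hm.pow 2)
    (Eventually.of_forall fun x => ?_)
  rw [Real.norm_of_nonneg (sq_nonneg _), ← sq_abs, ← exp_sq, ← mul_pow]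
  exact pow_le_pow_left₀ (abs_nonneg _) (h x) 2

theorem memLp_wt_bound {f : R3 → ℝ} (hm : AEStronglyMeasurable f) {C a : ℝ} (ha : 0 < a)
    (h : ∀ x, |f x| ≤ C * Real.exp (-(a * ‖x‖))) : MemLp (fun x => wt x * f x) 2 := by
  have hm' : AEStronglyMeasurable (fun x => wt x * f x) :=
    measurable_wt.aestronglyMeasurable.mul hm
  rw [memLp_two_iff_integrable_sq hm']
  refine ((int_exp1 (a := 2 * a) (by positivity)).const_mul (C ^ 2)).mono' (hm'.pow 2)
    (Eventually.of_forall fun x => ?_)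
  rw [Real.norm_of_nonneg (sq_nonneg _), mul_pow, ← sq_abs (f x), pow_two (wt x), wt_sq, ← exp_sq]
  have h1 := pow_le_pow_left₀ (abs_nonneg _) (h x) 2
  rw [mul_pow] at h1
  have h2 : 0 ≤ 1 / ‖x‖ := by positivity
  nlinarith [mul_le_mul_of_nonneg_left h1 h2]

/-- the space of square integrable functions -/
abbrev H : Type := Lp ℝ 2 (volume : Measure R3)

/-- value, gradient and weighted value -/
abbrev HH : Type := H × (Fin 3 → H) × H

theorem ip_toLp {f g : R3 → ℝ} (hf : MemLp f 2) (hg : MemLp g 2) :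
    inner ℝ (hf.toLp f) (hg.toLp g) = ∫ x, f x * g x := by
  rw [L2.inner_def]
  refine integral_congr_ae ?_
  filter_upwards [hf.coeFn_toLp, hg.coeFn_toLp] with x h1 h2
  rw [h1, h2]
  simp [mul_comm]

/-- linear map into `H` from a family of functions -/
def toH {M : Type} [AddCommGroup M] [Module ℝ M] (F : M → R3 → ℝ) (h : ∀ m, MemLp (F m) 2)
    (ha : ∀ m m', F (m + m') = F m + F m') (hs : ∀ (c : ℝ) m, F (c • m) = c • F m) :
    M →ₗ[ℝ] H where
  toFun m := (h m).toLp (F m)
  map_add' m m' := by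
    rw [← MemLp.toLp_add]
    exact MemLp.toLp_congr _ _ (Eventually.of_forall fun x => by rw [ha])
  map_smul' c m := by
    rw [RingHom.id_apply, ← MemLp.toLp_const_smul]
    exact MemLp.toLp_congr _ _ (Eventually.of_forall fun x => by rw [hs])

theorem toH_apply {M : Type} [AddCommGroup M] [Module ℝ M] (F : M → R3 → ℝ)
    (h : ∀ m, MemLp (F m) 2) (ha : ∀ m m', F (m + m') = F m + F m')
    (hs : ∀ (c : ℝ) m, F (c • m) = c • F m) (m : M) : toH F h ha hs m = (h m).toLp (F m) := rfl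

/-- test functions -/
def TF : Submodule ℝ (R3 → ℝ) where
  carrier := {f | ContDiff ℝ (⊤ : ℕ∞) f ∧ HasCompactSupport f}
  add_mem' hf hg := ⟨hf.1.add hg.1, hf.2.add hg.2⟩
  zero_mem' := ⟨contDiff_const, HasCompactSupport.zero⟩
  smul_mem' c _ hf := ⟨contDiff_const.smul hf.1, hf.2.smul_left (f := fun _ => c)⟩

theorem TF_smooth (f : TF) : ContDiff ℝ (⊤ : ℕ∞) (f : R3 → ℝ) := f.2.1
theorem TF_cpt (f : TF) : HasCompactSupport (f : R3 → ℝ) := f.2.2

theorem TF_diff (f : TF) : Differentiable ℝ (f : R3 → ℝ) := (TF_smooth f).differentiable (by simp)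

/-- derivative of a test function in direction `k` -/
def td (k : Fin 3) (f : TF) (x : R3) : ℝ := fderiv ℝ (f : R3 → ℝ) x (e3 k)

theorem continuous_td (k : Fin 3) (f : TF) : Continuous (td k f) :=
  ((TF_smooth f).continuous_fderiv (by simp)).clm_apply continuous_const

theorem cpt_td (k : Fin 3) (f : TF) : HasCompactSupport (td k f) :=
  ((TF_cpt f).fderiv (𝕜 := ℝ)).comp_left (g := fun L : R3 →L[ℝ] ℝ => L (e3 k)) (by simp)

theorem memLp_wt_cpt {f : R3 → ℝ} (hf : Continuous f) (hc : HasCompactSupport f) :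
    MemLp (fun x => wt x * f x) 2 := by
  have hm' : AEStronglyMeasurable (fun x => wt x * f x) :=
    measurable_wt.aestronglyMeasurable.mul hf.aestronglyMeasurable
  rw [memLp_two_iff_integrable_sq hm']
  refine (integrable_inv_norm (f := fun x => f x ^ 2) (hf.pow 2)
    (hc.comp_left (g := fun t : ℝ => t ^ 2) (by norm_num))).congr
    (Eventually.of_forall fun x => ?_)
  show 1 / ‖x‖ * (f x) ^ 2 = (wt x * f x) ^ 2
  rw [mul_pow, pow_two (wt x), wt_sq]

theorem memLp_TF (f : TF) : MemLp (f : R3 → ℝ) 2 :=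
  (TF_smooth f).continuous.memLp_of_hasCompactSupport (TF_cpt f)

theorem memLp_td (k : Fin 3) (f : TF) : MemLp (td k f) 2 :=
  (continuous_td k f).memLp_of_hasCompactSupport (cpt_td k f)

theorem memLp_wtTF (f : TF) : MemLp (fun x => wt x * (f : R3 → ℝ) x) 2 :=
  memLp_wt_cpt (TF_smooth f).continuous (TF_cpt f)

/-- embedding of the test functions -/
def Ph : TF →ₗ[ℝ] HH :=
  (toH (fun f : TF => (f : R3 → ℝ)) memLp_TF (fun _ _ => rfl) (fun _ _ => rfl)).prod
    ((LinearMap.pi fun k => toH (td k) (memLp_td k)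
      (fun f g => by
        funext x
        show fderiv ℝ ((f : R3 → ℝ) + (g : R3 → ℝ)) x (e3 k) = _
        rw [fderiv_add (TF_diff f x) (TF_diff g x)]
        rfl)
      (fun c f => by
        funext x
        show fderiv ℝ (c • (f : R3 → ℝ)) x (e3 k) = _
        rw [fderiv_const_smul (TF_diff f x)]
        rfl)).prod
    (toH (fun f : TF => fun x => wt x * (f : R3 → ℝ) x) memLp_wtTF
      (fun f g => by
        funext x
        show wt x * ((f : R3 → ℝ) x + (g : R3 → ℝ) x) = _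
        rw [mul_add]
        rfl)
      (fun c f => by
        funext x
        show wt x * (c * (f : R3 → ℝ) x) = c * (wt x * (f : R3 → ℝ) x)
        ring)))

theorem Ph_fst (f : TF) : (Ph f).1 = (memLp_TF f).toLp (f : R3 → ℝ) := rfl
theorem Ph_mid (f : TF) (k : Fin 3) : (Ph f).2.1 k = (memLp_td k f).toLp (td k f) := rfl
theorem Ph_snd (f : TF) : (Ph f).2.2 = (memLp_wtTF f).toLp (fun x => wt x * (f : R3 → ℝ) x) := rfl

theorem memLp_ev {κ : ℝ} (hκ : 0 < κ) (P : PP) : MemLp (ev κ 0 P) 2 := by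
  obtain ⟨C, hC, h⟩ := ev_bound hκ P
  exact memLp_bound (continuous_ev κ 0 P).aestronglyMeasurable (a := κ / 2) (by positivity)
    (h 0 ⟨le_rfl, zero_le_one⟩)

theorem memLp_gd {κ : ℝ} (hκ : 0 < κ) (k : Fin 3) (P : PP) : MemLp (gd κ 0 P k) 2 := by
  obtain ⟨C, hC, h⟩ := gd_bound hκ P k
  exact memLp_bound (measurable_gd κ 0 P k).aestronglyMeasurable (a := κ / 2) (by positivity)
    (h 0 ⟨le_rfl, zero_le_one⟩)

theorem memLp_wtev {κ : ℝ} (hκ : 0 < κ) (P : PP) : MemLp (fun x => wt x * ev κ 0 P x) 2 := by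
  obtain ⟨C, hC, h⟩ := ev_bound hκ P
  exact memLp_wt_bound (continuous_ev κ 0 P).aestronglyMeasurable (a := κ / 2) (by positivity)
    (h 0 ⟨le_rfl, zero_le_one⟩)

theorem ev_add (κ δ : ℝ) (P Q : PP) : ev κ δ (P + Q) = ev κ δ P + ev κ δ Q := by
  funext x
  unfold ev
  simp only [Prod.fst_add, Prod.snd_add, pe_add, Pi.add_apply]
  ring

theorem ev_smul (κ δ c : ℝ) (P : PP) : ev κ δ (c • P) = c • ev κ δ P := by
  funext x
  unfold ev
  simp only [Prod.smul_fst, Prod.smul_snd, pe_smul, Pi.smul_apply, smul_eq_mul]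
  ring

theorem gd_add (κ δ : ℝ) (P Q : PP) (k : Fin 3) :
    gd κ δ (P + Q) k = gd κ δ P k + gd κ δ Q k := by
  funext x
  unfold gd
  simp only [Prod.fst_add, Prod.snd_add, map_add, pe_add, Pi.add_apply]
  ring

theorem gd_smul (κ δ c : ℝ) (P : PP) (k : Fin 3) : gd κ δ (c • P) k = c • gd κ δ P k := by
  funext x
  unfold gd
  simp only [Prod.smul_fst, Prod.smul_snd, Derivation.map_smul, pe_smul, Pi.smul_apply, smul_eq_mul]
  ring

/-- embedding of the pairs -/
def JJ {κ : ℝ} (hκ : 0 < κ) : PP →ₗ[ℝ] HH :=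
  (toH (fun P : PP => ev κ 0 P) (memLp_ev hκ) (ev_add κ 0) (ev_smul κ 0)).prod
    ((LinearMap.pi fun k => toH (fun P : PP => gd κ 0 P k) (memLp_gd hκ k)
      (fun P Q => gd_add κ 0 P Q k) (fun c P => gd_smul κ 0 c P k)).prod
    (toH (fun P : PP => fun x => wt x * ev κ 0 P x) (memLp_wtev hκ)
      (fun P Q => by
        funext x
        rw [ev_add]
        show wt x * (ev κ 0 P x + ev κ 0 Q x) = _
        rw [mul_add]
        rfl)
      (fun c P => by
        funext x
        rw [ev_smul]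
        show wt x * (c * ev κ 0 P x) = c * (wt x * ev κ 0 P x)
        ring)))

theorem JJ_fst {κ : ℝ} (hκ : 0 < κ) (P : PP) :
    (JJ hκ P).1 = (memLp_ev hκ P).toLp (ev κ 0 P) := rfl
theorem JJ_mid {κ : ℝ} (hκ : 0 < κ) (P : PP) (k : Fin 3) :
    (JJ hκ P).2.1 k = (memLp_gd hκ k P).toLp (gd κ 0 P k) := rfl
theorem JJ_snd {κ : ℝ} (hκ : 0 < κ) (P : PP) :
    (JJ hκ P).2.2 = (memLp_wtev hκ P).toLp (fun x => wt x * ev κ 0 P x) := rfl

/-- overlap -/
def fA (u v : HH) : ℝ := inner ℝ u.1 v.1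
/-- gradient form -/
def fT (u v : HH) : ℝ := ∑ k : Fin 3, inner ℝ (u.2.1 k) (v.2.1 k)
/-- Coulomb form -/
def fC (u v : HH) : ℝ := inner ℝ u.2.2 v.2.2

theorem fA_symm (u v : HH) : fA u v = fA v u := real_inner_comm _ _
theorem fC_symm (u v : HH) : fC u v = fC v u := real_inner_comm _ _
theorem fT_symm (u v : HH) : fT u v = fT v u :=
  Finset.sum_congr rfl fun _ _ => real_inner_comm _ _

theorem fA_add (u v w : HH) : fA (u + v) w = fA u w + fA v w := inner_add_left _ _ _
theorem fC_add (u v w : HH) : fC (u + v) w = fC u w + fC v w := inner_add_left _ _ _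
theorem fT_add (u v w : HH) : fT (u + v) w = fT u w + fT v w := by
  unfold fT
  rw [← Finset.sum_add_distrib]
  exact Finset.sum_congr rfl fun _ _ => inner_add_left _ _ _

theorem fA_smul (c : ℝ) (u v : HH) : fA (c • u) v = c * fA u v := real_inner_smul_left _ _ _
theorem fC_smul (c : ℝ) (u v : HH) : fC (c • u) v = c * fC u v := real_inner_smul_left _ _ _
theorem fT_smul (c : ℝ) (u v : HH) : fT (c • u) v = c * fT u v := by
  unfold fT
  rw [Finset.mul_sum]
  exact Finset.sum_congr rfl fun _ _ => real_inner_smul_left _ _ _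

theorem fA_nonneg (u : HH) : 0 ≤ fA u u := real_inner_self_nonneg
theorem fC_nonneg (u : HH) : 0 ≤ fC u u := real_inner_self_nonneg
theorem fT_nonneg (u : HH) : 0 ≤ fT u u := Finset.sum_nonneg fun _ _ => real_inner_self_nonneg

theorem fA_sq (u : HH) : fA u u = ‖u.1‖ ^ 2 := real_inner_self_eq_norm_sq _
theorem fC_sq (u : HH) : fC u u = ‖u.2.2‖ ^ 2 := real_inner_self_eq_norm_sq _

theorem continuous_fA : Continuous (fun p : HH × HH => fA p.1 p.2) := by
  unfold fA
  fun_prop
theorem continuous_fC : Continuous (fun p : HH × HH => fC p.1 p.2) := by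
  unfold fC
  fun_prop
theorem continuous_fT : Continuous (fun p : HH × HH => fT p.1 p.2) := by
  unfold fT
  fun_prop

/-- the closure of the test functions -/
def WW : Submodule ℝ HH := (LinearMap.range Ph).topologicalClosure

theorem Ph_mem (f : TF) : Ph f ∈ WW :=
  Submodule.le_topologicalClosure _ ⟨f, rfl⟩

theorem WW_induction {p : HH → Prop} (hc : IsClosed {u | p u}) (h : ∀ f : TF, p (Ph f)) :
    ∀ u ∈ WW, p u := by
  intro u hu
  have h1 : (WW : Set HH) ⊆ {u | p u} := by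
    unfold WW
    rw [Submodule.topologicalClosure_coe]
    refine closure_minimal ?_ hc
    rintro _ ⟨f, rfl⟩
    exact h f
  exact h1 hu

/-- dominated convergence in `L²` -/
theorem tendsto_toLp {F : ℕ → R3 → ℝ} {f g : R3 → ℝ} (hF : ∀ m, MemLp (F m) 2) (hf : MemLp f 2)
    (hg : MemLp g 2) (hb : ∀ m, ∀ x, |F m x| ≤ g x)
    (hl : ∀ᵐ x, Tendsto (fun m => F m x) atTop (𝓝 (f x))) :
    Tendsto (fun m => (hF m).toLp (F m)) atTop (𝓝 (hf.toLp f)) := by
  have hfb : ∀ᵐ x, |f x| ≤ g x := by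
    filter_upwards [hl] with x hx
    exact le_of_tendsto hx.abs (Eventually.of_forall fun m => hb m x)
  have h1 : Tendsto (fun m => ∫ x, (F m x - f x) ^ 2) atTop (𝓝 (∫ _ : R3, (0 : ℝ))) := by
    refine tendsto_integral_of_dominated_convergence (fun x => (2 * g x) ^ 2) (fun m => ?_) ?_
      (fun m => ?_) ?_
    · exact (((hF m).aestronglyMeasurable).sub hf.aestronglyMeasurable).pow 2
    · have := (hg.const_mul 2).integrable_sq
      exact this
    · filter_upwards [hfb] with x hx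
      rw [Real.norm_of_nonneg (sq_nonneg _), ← sq_abs]
      refine pow_le_pow_left₀ (abs_nonneg _) ?_ 2
      have := abs_sub (F m x) (f x)
      linarith [hb m x]
    · filter_upwards [hl] with x hx
      have := (hx.sub_const (f x)).pow 2
      simpa using this
  rw [integral_zero] at h1
  rw [tendsto_iff_norm_sub_tendsto_zero]
  have h2 : ∀ m, ‖(hF m).toLp (F m) - hf.toLp f‖ = Real.sqrt (∫ x, (F m x - f x) ^ 2) := by
    intro m
    rw [← MemLp.toLp_sub]
    rw [← Real.sqrt_sq (norm_nonneg _), ← real_inner_self_eq_norm_sq, ip_toLp]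
    congr 1
    refine integral_congr_ae (Eventually.of_forall fun x => ?_)
    show (F m x - f x) * (F m x - f x) = _
    ring
  simp only [h2]
  have h3 := (Real.continuous_sqrt.tendsto 0).comp h1
  rw [Real.sqrt_zero] at h3
  exact h3

end Pool.Agent.Lib.CX.Sh
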