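import Mathlib
import Pool.Agent.Lib.CX.Basic
import Pool.Agent.Lib.CX.Integ
import Pool.Agent.Lib.CX.ShA
import Pool.Agent.Lib.CX.ShB
import Pool.Agent.Lib.CX.ShC

/-! CX, closed shells: approximation by test functions and the weak equation. -/

set_option autoImplicit false

open MeasureTheory Set Filter Topology

noncomputable section

namespace Pool.Agent.Lib.CX.Sh

/-- a bump function -/
def bmp : ContDiffBump (0 : R3) := ⟨1, 2, one_pos, one_lt_two⟩

theorem bmp_smooth : ContDiff ℝ (⊤ : ℕ∞) (bmp : R3 → ℝ) := bmp.contDiff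
theorem bmp_cpt : HasCompactSupport (bmp : R3 → ℝ) := bmp.hasCompactSupport
theorem bmp_nonneg (x : R3) : 0 ≤ bmp x := bmp.nonneg
theorem bmp_le_one (x : R3) : bmp x ≤ 1 := bmp.le_one
theorem bmp_one {x : R3} (h : ‖x‖ ≤ 1) : bmp x = 1 :=
  bmp.one_of_mem_closedBall (by rw [mem_closedBall_zero_iff]; exact h)
theorem bmp_zero {x : R3} (h : 2 ≤ ‖x‖) : bmp x = 0 :=
  bmp.zero_of_le_dist (by rw [dist_zero_right]; exact h)

theorem bmp_diff : Differentiable ℝ (bmp : R3 → ℝ) := bmp_smooth.differentiable (by simp)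

/-- derivative of the bump function -/
def db (k : Fin 3) (x : R3) : ℝ := fderiv ℝ (bmp : R3 → ℝ) x (e3 k)

theorem continuous_db (k : Fin 3) : Continuous (db k) :=
  (bmp_smooth.continuous_fderiv (by simp)).clm_apply continuous_const

theorem db_bound : ∃ M : ℝ, 0 ≤ M ∧ ∀ k x, |db k x| ≤ M := by
  have h1 : ∀ k, ∃ M, ∀ x, |db k x| ≤ M := by
    intro k
    have hc : HasCompactSupport (db k) :=
      (bmp_cpt.fderiv (𝕜 := ℝ)).comp_left (g := fun L : R3 →L[ℝ] ℝ => L (e3 k)) (by simp)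
    obtain ⟨M, hM⟩ := hc.exists_bound_of_continuous (continuous_db k)
    exact ⟨M, fun x => by simpa using hM x⟩
  choose M hM using h1
  refine ⟨∑ k, |M k|, Finset.sum_nonneg fun k _ => abs_nonneg _, fun k x => ?_⟩
  exact (hM k x).trans ((le_abs_self _).trans
    (Finset.single_le_sum (fun k _ => abs_nonneg (M k)) (Finset.mem_univ k)))

theorem db_zero {x : R3} (h : 2 < ‖x‖) (k : Fin 3) : db k x = 0 := by
  have h1 : (bmp : R3 → ℝ) =ᶠ[𝓝 x] fun _ => 0 := by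
    have h2 : {y : R3 | 2 < ‖y‖} ∈ 𝓝 x := (isOpen_lt continuous_const continuous_norm).mem_nhds h
    filter_upwards [h2] with y hy
    exact bmp_zero (le_of_lt hy)
  unfold db
  rw [h1.fderiv_eq]
  simp

theorem bmp_smul_deriv (s : ℝ) (x : R3) :
    HasFDerivAt (fun x : R3 => bmp (s • x)) (s • fderiv ℝ (bmp : R3 → ℝ) (s • x)) x := by
  have h1 := (bmp_diff (s • x)).hasFDerivAt
  have h2 : HasFDerivAt (fun x : R3 => s • x) (s • ContinuousLinearMap.id ℝ R3) x :=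
    (hasFDerivAt_id x).const_smul s
  have h3 := h1.comp x h2
  have h4 : (fderiv ℝ (bmp : R3 → ℝ) (s • x)).comp (s • ContinuousLinearMap.id ℝ R3)
      = s • fderiv ℝ (bmp : R3 → ℝ) (s • x) := by
    ext v
    simp
  rw [h4] at h3
  exact h3

/-- the approximants of a pair -/
def ap (κ : ℝ) (P : PP) (m : ℕ) : TF :=
  ⟨fun x => bmp ((1 / ((m : ℝ) + 1)) • x) * ev κ (1 / ((m : ℝ) + 1)) P x, by
    have hs : (0 : ℝ) < 1 / ((m : ℝ) + 1) := by positivity
    refine ⟨(bmp_smooth.comp (contDiff_const_smul _)).mul (contDiff_ev κ hs P), ?_⟩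
    apply HasCompactSupport.intro (isCompact_closedBall (0 : R3) (2 * ((m : ℝ) + 1)))
    intro x hx
    rw [mem_closedBall_zero_iff, not_le] at hx
    have h1 : 2 ≤ ‖(1 / ((m : ℝ) + 1)) • x‖ := by
      rw [norm_smul, Real.norm_of_nonneg hs.le, div_mul_eq_mul_div, one_mul,
        le_div_iff₀ (by positivity)]
      exact hx.le
    rw [bmp_zero h1, zero_mul]⟩

theorem ap_apply (κ : ℝ) (P : PP) (m : ℕ) (x : R3) : (ap κ P m : R3 → ℝ) x
    = bmp ((1 / ((m : ℝ) + 1)) • x) * ev κ (1 / ((m : ℝ) + 1)) P x := rfl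

theorem td_ap (κ : ℝ) (P : PP) (m : ℕ) (k : Fin 3) (x : R3) : td k (ap κ P m) x
    = bmp ((1 / ((m : ℝ) + 1)) • x) * gd κ (1 / ((m : ℝ) + 1)) P k x
      + (1 / ((m : ℝ) + 1)) * db k ((1 / ((m : ℝ) + 1)) • x) * ev κ (1 / ((m : ℝ) + 1)) P x := by
  have hs : (0 : ℝ) < 1 / ((m : ℝ) + 1) := by positivity
  obtain ⟨G, hG, hG'⟩ := hasFDerivAt_ev κ (δ := 1 / ((m : ℝ) + 1)) P (x := x) (by positivity)
  have h1 := (bmp_smul_deriv (1 / ((m : ℝ) + 1)) x).mul hG
  unfold td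
  have h2 : HasFDerivAt (ap κ P m : R3 → ℝ) _ x := h1
  rw [h2.fderiv]
  simp only [_root_.add_apply, _root_.smul_apply, hG', smul_eq_mul]
  unfold db
  ring

theorem sm_mem (m : ℕ) : 1 / ((m : ℝ) + 1) ∈ Icc (0 : ℝ) 1 := by
  constructor
  · positivity
  · rw [div_le_one (by positivity)]
    have := Nat.cast_nonneg (α := ℝ) m
    linarith

theorem sm_tendsto : Tendsto (fun m : ℕ => 1 / ((m : ℝ) + 1)) atTop (𝓝 0) :=
  tendsto_one_div_add_atTop_nhds_zero_nat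

theorem bmp_tendsto (x : R3) :
    Tendsto (fun m : ℕ => bmp ((1 / ((m : ℝ) + 1)) • x)) atTop (𝓝 1) := by
  have h1 : Tendsto (fun m : ℕ => bmp ((1 / ((m : ℝ) + 1)) • x)) atTop (𝓝 (bmp (0 : R3))) := by
    have h2 : Tendsto (fun m : ℕ => (1 / ((m : ℝ) + 1)) • x) atTop (𝓝 ((0 : ℝ) • x)) :=
      sm_tendsto.smul_const x
    rw [zero_smul] at h2
    exact (bmp_smooth.continuous.tendsto 0).comp h2
  rwa [bmp_one (by simp)] at h1

theorem rho_tendsto (x : R3) :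
    Tendsto (fun m : ℕ => rho (1 / ((m : ℝ) + 1)) x) atTop (𝓝 (rho 0 x)) := by
  have h1 : Continuous (fun δ : ℝ => rho δ x) := by
    unfold rho
    fun_prop
  exact (h1.tendsto 0).comp sm_tendsto

theorem ev_tendsto (κ : ℝ) (P : PP) (x : R3) :
    Tendsto (fun m : ℕ => ev κ (1 / ((m : ℝ) + 1)) P x) atTop (𝓝 (ev κ 0 P x)) := by
  unfold ev
  have h1 := rho_tendsto x
  exact (tendsto_const_nhds.add (h1.mul_const _)).mul
    ((Real.continuous_exp.tendsto _).comp (h1.const_mul κ).neg)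

theorem gd_tendsto (κ : ℝ) (P : PP) (k : Fin 3) {x : R3} (hx : x ≠ 0) :
    Tendsto (fun m : ℕ => gd κ (1 / ((m : ℝ) + 1)) P k x) atTop (𝓝 (gd κ 0 P k x)) := by
  unfold gd
  have h1 := rho_tendsto x
  have h0 : rho 0 x ≠ 0 := by
    rw [rho_zero]
    exact norm_ne_zero_iff.2 hx
  refine Tendsto.mul ?_ ((Real.continuous_exp.tendsto _).comp (h1.const_mul κ).neg)
  exact ((tendsto_const_nhds.add (h1.mul_const _)).sub tendsto_const_nhds).add
    ((tendsto_const_nhds.div h1 h0).mul_const _)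

theorem ae_ne_zero : ∀ᵐ x : R3, x ≠ 0 := by
  rw [ae_iff]
  simp

theorem Ph_ap_tendsto {κ : ℝ} (hκ : 0 < κ) (P : PP) :
    Tendsto (fun m => Ph (ap κ P m)) atTop (𝓝 (JJ hκ P)) := by
  obtain ⟨C, hC, hev⟩ := ev_bound hκ P
  obtain ⟨M, hM, hdb⟩ := db_bound
  have hκ2 : 0 < κ / 2 := by positivity
  have hexp : ∀ D : ℝ, MemLp (fun x : R3 => D * Real.exp (-(κ / 2 * ‖x‖))) 2 := by
    intro D
    refine memLp_bound (by fun_prop) hκ2 (C := |D|) fun x => ?_
    rw [abs_mul, Real.abs_exp]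
  have hb0 : ∀ m x, |(ap κ P m : R3 → ℝ) x| ≤ C * Real.exp (-(κ / 2 * ‖x‖)) := by
    intro m x
    rw [ap_apply, abs_mul, abs_of_nonneg (bmp_nonneg _)]
    calc _ ≤ 1 * |ev κ (1 / ((m : ℝ) + 1)) P x| :=
          mul_le_mul_of_nonneg_right (bmp_le_one _) (abs_nonneg _)
      _ ≤ _ := by rw [one_mul]; exact hev _ (sm_mem m) x
  refine Tendsto.prodMk_nhds ?_ (Tendsto.prodMk_nhds (tendsto_pi_nhds.2 fun k => ?_) ?_)
  · refine tendsto_toLp (fun m => memLp_TF (ap κ P m)) (memLp_ev hκ P) (hexp C) hb0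
      (Eventually.of_forall fun x => ?_)
    have := (bmp_tendsto x).mul (ev_tendsto κ P x)
    rw [one_mul] at this
    exact this
  · obtain ⟨D, hD, hgd⟩ := gd_bound hκ P k
    refine tendsto_toLp (fun m => memLp_td k (ap κ P m)) (memLp_gd hκ k P) (hexp (D + M * C))
      (fun m x => ?_) ?_
    · rw [td_ap, add_mul]
      refine (abs_add_le _ _).trans (add_le_add ?_ ?_)
      · rw [abs_mul, abs_of_nonneg (bmp_nonneg _)]
        calc _ ≤ 1 * |gd κ (1 / ((m : ℝ) + 1)) P k x| :=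
              mul_le_mul_of_nonneg_right (bmp_le_one _) (abs_nonneg _)
          _ ≤ _ := by rw [one_mul]; exact hgd _ (sm_mem m) x
      · rw [abs_mul, abs_mul, abs_of_nonneg (sm_mem m).1]
        have h1 : 1 / ((m : ℝ) + 1) * |db k ((1 / ((m : ℝ) + 1)) • x)| ≤ M := by
          calc _ ≤ 1 * |db k ((1 / ((m : ℝ) + 1)) • x)| :=
                mul_le_mul_of_nonneg_right (sm_mem m).2 (abs_nonneg _)
            _ ≤ M := by rw [one_mul]; exact hdb k _
        rw [mul_assoc M]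
        exact mul_le_mul h1 (hev _ (sm_mem m) x) (abs_nonneg _) hM
    · filter_upwards [ae_ne_zero] with x hx
      simp only [td_ap]
      have h1 := (bmp_tendsto x).mul (gd_tendsto κ P k hx)
      rw [one_mul] at h1
      have h2 : Tendsto (fun m : ℕ => 1 / ((m : ℝ) + 1) * db k ((1 / ((m : ℝ) + 1)) • x)
          * ev κ (1 / ((m : ℝ) + 1)) P x) atTop (𝓝 (0 * ev κ 0 P x)) := by
        refine Tendsto.mul ?_ (ev_tendsto κ P x)
        refine squeeze_zero_norm (a := fun m : ℕ => 1 / ((m : ℝ) + 1) * M) (fun m => ?_) ?_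
        · rw [norm_mul, Real.norm_of_nonneg (sm_mem m).1]
          exact mul_le_mul_of_nonneg_left (hdb k _) (sm_mem m).1
        · have := sm_tendsto.mul_const M
          rwa [zero_mul] at this
      rw [zero_mul] at h2
      have := h1.add h2
      rwa [add_zero] at this
  · have hg : MemLp (fun x : R3 => wt x * (C * Real.exp (-(κ / 2 * ‖x‖)))) 2 := by
      refine memLp_wt_bound (by fun_prop) hκ2 (C := |C|) fun x => ?_
      rw [abs_mul, Real.abs_exp]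
    refine tendsto_toLp (fun m => memLp_wtTF (ap κ P m)) (memLp_wtev hκ P) hg
      (fun m x => ?_) (Eventually.of_forall fun x => ?_)
    · rw [abs_mul, abs_of_nonneg (wt_nonneg x)]
      exact mul_le_mul_of_nonneg_left (hb0 m x) (wt_nonneg x)
    · have := ((bmp_tendsto x).mul (ev_tendsto κ P x)).const_mul (wt x)
      rw [one_mul] at this
      exact this

theorem JJ_mem {κ : ℝ} (hκ : 0 < κ) (P : PP) : JJ hκ P ∈ WW := by
  unfold WW
  rw [← SetLike.mem_coe, Submodule.topologicalClosure_coe]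
  exact mem_closure_of_tendsto (Ph_ap_tendsto hκ P) (Eventually.of_forall fun m => ⟨_, rfl⟩)

/-- the second derivative in direction `k` -/
def sd (κ : ℝ) (P : PP) (k : Fin 3) (x : R3) : ℝ :=
  gd κ 0 (MvPolynomial.pderiv k P.1 - κ • (MvPolynomial.X k * P.2), MvPolynomial.pderiv k P.2) k x
      + ((1 / ‖x‖ - x k ^ 2 / ‖x‖ ^ 3) * ev κ 0 (P.2 - κ • P.1, 0) x
        + x k / ‖x‖ * gd κ 0 (P.2 - κ • P.1, 0) k x)

theorem measurable_sd (κ : ℝ) (P : PP) (k : Fin 3) : Measurable (sd κ P k) := by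
  unfold sd
  have h1 := measurable_gd κ 0
    (MvPolynomial.pderiv k P.1 - κ • (MvPolynomial.X k * P.2), MvPolynomial.pderiv k P.2) k
  have h2 := (continuous_ev κ 0 (P.2 - κ • P.1, (0 : MP))).measurable
  have h3 := measurable_gd κ 0 (P.2 - κ • P.1, (0 : MP)) k
  have h4 : Measurable fun x : R3 => x k := by fun_prop
  have h5 : Measurable fun x : R3 => ‖x‖ := by fun_prop
  exact h1.add (((((measurable_const.div h5)).sub ((h4.pow_const 2).div (h5.pow_const 3))).mul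
    h2).add ((h4.div h5).mul h3))

theorem sd_bound {κ : ℝ} (hκ : 0 < κ) (P : PP) (k : Fin 3) : ∃ C : ℝ, 0 ≤ C ∧ ∀ x : R3,
    |sd κ P k x| ≤ C * (1 + 1 / ‖x‖) := by
  obtain ⟨C1, hC1, h1⟩ := gd_bound hκ
    (MvPolynomial.pderiv k P.1 - κ • (MvPolynomial.X k * P.2), MvPolynomial.pderiv k P.2) k
  obtain ⟨C2, hC2, h2⟩ := ev_bound hκ (P.2 - κ • P.1, (0 : MP))
  obtain ⟨C3, hC3, h3⟩ := gd_bound hκ (P.2 - κ • P.1, (0 : MP)) k
  refine ⟨C1 + C2 + C3, by positivity, fun x => ?_⟩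
  have hm : (0 : ℝ) ∈ Icc (0 : ℝ) 1 := ⟨le_rfl, zero_le_one⟩
  have he : Real.exp (-(κ / 2 * ‖x‖)) ≤ 1 := Real.exp_le_one_iff.2 (by
    have := mul_nonneg (by positivity : 0 ≤ κ / 2) (norm_nonneg x)
    linarith)
  have g1 := (h1 0 hm x).trans (mul_le_of_le_one_right hC1 he)
  have g2 := (h2 0 hm x).trans (mul_le_of_le_one_right hC2 he)
  have g3 := (h3 0 hm x).trans (mul_le_of_le_one_right hC3 he)
  have hr : 0 ≤ 1 / ‖x‖ := by positivity
  have k1 : |1 / ‖x‖ - x k ^ 2 / ‖x‖ ^ 3| ≤ 1 / ‖x‖ := by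
    have k2 : 0 ≤ x k ^ 2 / ‖x‖ ^ 3 := by positivity
    have k3 : x k ^ 2 / ‖x‖ ^ 3 ≤ 1 / ‖x‖ := by
      rcases eq_or_ne x 0 with hx | hx
      · rw [hx]
        simp
      · have hx0 : 0 < ‖x‖ := norm_pos_iff.2 hx
        rw [div_le_div_iff₀ (by positivity) hx0]
        have := abs_coord_le x k
        have h4 : x k ^ 2 ≤ ‖x‖ ^ 2 := by
          rw [← sq_abs]
          exact pow_le_pow_left₀ (abs_nonneg _) this 2
        nlinarith
    rw [abs_of_nonneg (by linarith)]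
    linarith
  have k4 : |x k / ‖x‖| ≤ 1 := by
    have := abs_div_rho_le 0 x k
    rwa [rho_zero] at this
  unfold sd
  refine (abs_add_le _ _).trans ?_
  have e1 : |(1 / ‖x‖ - x k ^ 2 / ‖x‖ ^ 3) * ev κ 0 (P.2 - κ • P.1, 0) x| ≤ 1 / ‖x‖ * C2 := by
    rw [abs_mul]
    exact mul_le_mul k1 g2 (abs_nonneg _) hr
  have e2 : |x k / ‖x‖ * gd κ 0 (P.2 - κ • P.1, 0) k x| ≤ 1 * C3 := by
    rw [abs_mul]
    exact mul_le_mul k4 g3 (abs_nonneg _) zero_le_one
  have e3 := abs_add_le ((1 / ‖x‖ - x k ^ 2 / ‖x‖ ^ 3) * ev κ 0 (P.2 - κ • P.1, 0) x)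
    (x k / ‖x‖ * gd κ 0 (P.2 - κ • P.1, 0) k x)
  nlinarith [mul_nonneg hC1 hr, mul_nonneg hC3 hr]

end Pool.Agent.Lib.CX.Sh
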