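import Mathlib
import Pool.Agent.Lib.CX.Basic
import Pool.Agent.Lib.CX.Integ
import Pool.Agent.Lib.CX.ShA
import Pool.Agent.Lib.CX.ShB
import Pool.Agent.Lib.CX.ShC
import Pool.Agent.Lib.CX.ShD

/-! CX, closed shells: the weak equation. -/

set_option autoImplicit false

open MeasureTheory Set Filter Topology

noncomputable section

namespace Pool.Agent.Lib.CX.Sh

/-- cutoff at the origin -/
def et (m : ℕ) (x : R3) : ℝ := 1 - bmp (((m : ℝ) + 1) • x)

theorem et_smooth (m : ℕ) : ContDiff ℝ (⊤ : ℕ∞) (et m) :=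
  contDiff_const.sub (bmp_smooth.comp (contDiff_const_smul _))

theorem et_mem (m : ℕ) (x : R3) : |et m x| ≤ 1 := by
  have h1 := bmp_nonneg (((m : ℝ) + 1) • x)
  have h2 := bmp_le_one (((m : ℝ) + 1) • x)
  unfold et
  rw [abs_of_nonneg (by linarith)]
  linarith

theorem et_near (m : ℕ) {x : R3} (h : ‖((m : ℝ) + 1) • x‖ ≤ 1) : et m x = 0 := by
  unfold et
  rw [bmp_one h, sub_self]

/-- the cut test function -/
def gm (h : TF) (m : ℕ) (x : R3) : ℝ := et m x * (h : R3 → ℝ) x

theorem gm_smooth (h : TF) (m : ℕ) : ContDiff ℝ (⊤ : ℕ∞) (gm h m) := (et_smooth m).mul (TF_smooth h)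

theorem gm_zero (h : TF) (m : ℕ) : gm h m 0 = 0 := by
  unfold gm
  rw [et_near m (by simp), zero_mul]

theorem gm_tsupport (h : TF) (m : ℕ) {x : R3} (hx : x ∈ tsupport (gm h m)) : x ≠ 0 := by
  have h1 : tsupport (gm h m) ⊆ {x | 1 ≤ ‖((m : ℝ) + 1) • x‖} := by
    refine closure_minimal ?_ (isClosed_le continuous_const (by fun_prop))
    intro y hy
    by_contra h2
    simp only [Set.mem_ofPred_eq, not_le] at h2
    apply hy
    unfold gm
    rw [et_near m h2.le, zero_mul]
  intro h0
  have h2 := h1 hx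
  rw [h0] at h2
  simp only [Set.mem_ofPred_eq, smul_zero, norm_zero] at h2
  linarith

theorem gm_deriv (h : TF) (m : ℕ) (k : Fin 3) (x : R3) : fderiv ℝ (gm h m) x (e3 k)
    = et m x * td k h x - ((m : ℝ) + 1) * db k (((m : ℝ) + 1) • x) * (h : R3 → ℝ) x := by
  have h1 : HasFDerivAt (et m) (-(((m : ℝ) + 1) • fderiv ℝ (bmp : R3 → ℝ) (((m : ℝ) + 1) • x))) x :=
    (bmp_smul_deriv ((m : ℝ) + 1) x).const_sub 1
  have h2 := h1.mul (TF_diff h x).hasFDerivAt
  have h3 : HasFDerivAt (gm h m) _ x := h2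
  rw [h3.fderiv]
  simp only [_root_.add_apply, _root_.smul_apply, _root_.neg_apply, smul_eq_mul]
  unfold td db
  ring

theorem db_scaled {M : ℝ} (hM : 0 ≤ M) (hdb : ∀ k x, |db k x| ≤ M) (m : ℕ) (k : Fin 3) (x : R3) :
    |((m : ℝ) + 1) * db k (((m : ℝ) + 1) • x)| ≤ 2 * M * (1 / ‖x‖) := by
  have hm : (0 : ℝ) < (m : ℝ) + 1 := by positivity
  rcases eq_or_ne x 0 with hx | hx
  · have h1 : db k (((m : ℝ) + 1) • x) = 0 := by
      rw [hx, smul_zero]
      have h2 : (bmp : R3 → ℝ) =ᶠ[𝓝 (0 : R3)] fun _ => 1 := by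
        filter_upwards [Metric.ball_mem_nhds (0 : R3) one_pos] with y hy
        exact bmp_one (by rw [mem_ball_zero_iff] at hy; exact hy.le)
      unfold db
      rw [h2.fderiv_eq]
      simp
    rw [h1, mul_zero, abs_zero]
    positivity
  · have hx0 : 0 < ‖x‖ := norm_pos_iff.2 hx
    rcases le_or_gt (‖((m : ℝ) + 1) • x‖) 2 with h2 | h2
    · rw [norm_smul, Real.norm_of_nonneg hm.le] at h2
      rw [abs_mul, abs_of_nonneg hm.le]
      have h3 : (m : ℝ) + 1 ≤ 2 * (1 / ‖x‖) := by
        rw [mul_one_div, le_div_iff₀ hx0]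
        exact h2
      calc ((m : ℝ) + 1) * |db k (((m : ℝ) + 1) • x)| ≤ (2 * (1 / ‖x‖)) * M :=
            mul_le_mul h3 (hdb k _) (abs_nonneg _) (by positivity)
        _ = 2 * M * (1 / ‖x‖) := by ring
    · rw [db_zero h2, mul_zero, abs_zero]
      positivity

/-- integrability of a compactly supported function with a Coulomb weight -/
theorem int_cpt {φ : R3 → ℝ} (hφ : Continuous φ) (hc : HasCompactSupport φ) :
    Integrable (fun x => (1 + 1 / ‖x‖) * |φ x|) := by
  have h1 : Continuous fun x => |φ x| := hφ.abs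
  have h2 : HasCompactSupport fun x => |φ x| := hc.comp_left (g := fun t : ℝ => |t|) abs_zero
  have h3 := (h1.integrable_of_hasCompactSupport h2).add (integrable_inv_norm h1 h2)
  refine h3.congr (Eventually.of_forall fun x => ?_)
  show |φ x| + 1 / ‖x‖ * |φ x| = _
  ring

theorem int_of_bound {F φ : R3 → ℝ} (hF : AEStronglyMeasurable F) (hφ : Continuous φ)
    (hc : HasCompactSupport φ) {C : ℝ} (h : ∀ x, |F x| ≤ C * ((1 + 1 / ‖x‖) * |φ x|)) :
    Integrable F :=
  ((int_cpt hφ hc).const_mul C).mono' hF (Eventually.of_forall h)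

theorem weak_fun {κ : ℝ} (hκ : 0 < κ) (h : TF) (P : PP) :
    ∫ x, ((∑ k, gd κ 0 P k x * td k h x)
      + (κ ^ 2 * ev κ 0 P x - 1 / ‖x‖ * ev κ 0 (LL κ P) x) * (h : R3 → ℝ) x) = 0 := by
  obtain ⟨M, hM, hdb⟩ := db_bound
  obtain ⟨C0, hC0, hev⟩ := ev_bound hκ P
  obtain ⟨C1, hC1, hevL⟩ := ev_bound hκ (LL κ P)
  have hgd := fun k => gd_bound hκ P k
  choose D hD hgd using hgd
  have hsd := fun k => sd_bound hκ P k
  choose S hS hsd using hsd
  have hm0 : (0 : ℝ) ∈ Icc (0 : ℝ) 1 := ⟨le_rfl, zero_le_one⟩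
  have hexp : ∀ x : R3, Real.exp (-(κ / 2 * ‖x‖)) ≤ 1 := fun x => Real.exp_le_one_iff.2 (by
    have := mul_nonneg (by positivity : 0 ≤ κ / 2) (norm_nonneg x)
    linarith)
  have hev' : ∀ x, |ev κ 0 P x| ≤ C0 := fun x =>
    (hev 0 hm0 x).trans (mul_le_of_le_one_right hC0 (hexp x))
  have hevL' : ∀ x, |ev κ 0 (LL κ P) x| ≤ C1 := fun x =>
    (hevL 0 hm0 x).trans (mul_le_of_le_one_right hC1 (hexp x))
  have hgd' : ∀ k x, |gd κ 0 P k x| ≤ D k := fun k x =>
    (hgd k 0 hm0 x).trans (mul_le_of_le_one_right (hD k) (hexp x))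
  have hcont : Continuous (h : R3 → ℝ) := (TF_smooth h).continuous
  have hcpt := TF_cpt h
  have hgm : ∀ m x, |gm h m x| ≤ |(h : R3 → ℝ) x| := by
    intro m x
    unfold gm
    rw [abs_mul]
    exact mul_le_of_le_one_left (abs_nonneg _) (et_mem m x)
  have hgmc : ∀ m, Continuous (gm h m) := fun m => (gm_smooth h m).continuous
  have hr : ∀ x : R3, 0 ≤ 1 / ‖x‖ := fun x => by positivity
  -- integration by parts for every cutoff
  have hparts : ∀ m k, ∫ x, gd κ 0 P k x * fderiv ℝ (gm h m) x (e3 k)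
      = - ∫ x, sd κ P k x * gm h m x := by
    intro m k
    have e1 : ∀ x, fderiv ℝ (gd κ 0 P k) x (e3 k) * gm h m x = sd κ P k x * gm h m x := by
      intro x
      rcases eq_or_ne x 0 with hx | hx
      · rw [hx, gm_zero, mul_zero, mul_zero]
      · obtain ⟨G, hG, hG'⟩ := second_deriv κ P hx k
        rw [hG.fderiv, hG']
        rfl
    have i1 : Integrable (fun x => sd κ P k x * gm h m x) := by
      refine int_of_bound ((measurable_sd κ P k).aestronglyMeasurable.mul
        (hgmc m).aestronglyMeasurable) hcont hcpt (C := S k) fun x => ?_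
      rw [abs_mul, ← mul_assoc]
      exact mul_le_mul (hsd k x) (hgm m x) (abs_nonneg _)
        (mul_nonneg (hS k) (by have := hr x; linarith))
    have i2 : Integrable (fun x => gd κ 0 P k x * fderiv ℝ (gm h m) x (e3 k)) := by
      have hd : Continuous fun x => fderiv ℝ (gm h m) x (e3 k) :=
        ((gm_smooth h m).continuous_fderiv (by simp)).clm_apply continuous_const
      have hc2 : HasCompactSupport (gm h m) := hcpt.mul_left
      have hdc : HasCompactSupport fun x => fderiv ℝ (gm h m) x (e3 k) :=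
        (hc2.fderiv (𝕜 := ℝ)).comp_left (g := fun L : R3 →L[ℝ] ℝ => L (e3 k)) (by simp)
      refine int_of_bound ((measurable_gd κ 0 P k).aestronglyMeasurable.mul
        hd.aestronglyMeasurable) hd hdc (C := D k) fun x => ?_
      rw [abs_mul]
      refine mul_le_mul (hgd' k x) ?_ (abs_nonneg _) (hD k)
      have := mul_nonneg (hr x) (abs_nonneg (fderiv ℝ (gm h m) x (e3 k)))
      linarith
    have i3 : Integrable (fun x => gd κ 0 P k x * gm h m x) := by
      refine int_of_bound ((measurable_gd κ 0 P k).aestronglyMeasurable.mul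
        (hgmc m).aestronglyMeasurable) hcont hcpt (C := D k) fun x => ?_
      rw [abs_mul]
      refine mul_le_mul (hgd' k x) ?_ (abs_nonneg _) (hD k)
      have := mul_nonneg (hr x) (abs_nonneg ((h : R3 → ℝ) x))
      linarith [hgm m x]
    rw [integral_mul_fderiv_eq_neg_fderiv_mul_of_integrable ?_ i2 i3 ?_ ?_]
    · congr 1
      exact integral_congr_ae (Eventually.of_forall e1)
    · exact i1.congr (Eventually.of_forall fun x => (e1 x).symm)
    · intro x hx
      obtain ⟨G, hG, _⟩ := second_deriv κ P (gm_tsupport h m hx) k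
      exact hG.differentiableAt
    · intro x _
      exact (gm_smooth h m).differentiable (by simp) x
  -- the cut integrals vanish
  set F : ℕ → R3 → ℝ := fun m x => (∑ k, gd κ 0 P k x * fderiv ℝ (gm h m) x (e3 k))
      + (κ ^ 2 * ev κ 0 P x - 1 / ‖x‖ * ev κ 0 (LL κ P) x) * gm h m x with hF
  have hzero : ∀ m, ∫ x, F m x = 0 := by
    intro m
    have i1 : ∀ k, Integrable (fun x => sd κ P k x * gm h m x) := by
      intro k
      refine int_of_bound ((measurable_sd κ P k).aestronglyMeasurable.mul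
        (hgmc m).aestronglyMeasurable) hcont hcpt (C := S k) fun x => ?_
      rw [abs_mul, ← mul_assoc]
      exact mul_le_mul (hsd k x) (hgm m x) (abs_nonneg _)
        (mul_nonneg (hS k) (by have := hr x; linarith))
    have i2 : ∀ k, Integrable (fun x => gd κ 0 P k x * fderiv ℝ (gm h m) x (e3 k)) := by
      intro k
      have hd : Continuous fun x => fderiv ℝ (gm h m) x (e3 k) :=
        ((gm_smooth h m).continuous_fderiv (by simp)).clm_apply continuous_const
      have hc2 : HasCompactSupport (gm h m) := hcpt.mul_left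
      have hdc : HasCompactSupport fun x => fderiv ℝ (gm h m) x (e3 k) :=
        (hc2.fderiv (𝕜 := ℝ)).comp_left (g := fun L : R3 →L[ℝ] ℝ => L (e3 k)) (by simp)
      refine int_of_bound ((measurable_gd κ 0 P k).aestronglyMeasurable.mul
        hd.aestronglyMeasurable) hd hdc (C := D k) fun x => ?_
      rw [abs_mul]
      refine mul_le_mul (hgd' k x) ?_ (abs_nonneg _) (hD k)
      have := mul_nonneg (hr x) (abs_nonneg (fderiv ℝ (gm h m) x (e3 k)))
      linarith
    have e1 : ∀ x, (κ ^ 2 * ev κ 0 P x - 1 / ‖x‖ * ev κ 0 (LL κ P) x) * gm h m x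
        = ∑ k, sd κ P k x * gm h m x := by
      intro x
      rcases eq_or_ne x 0 with hx | hx
      · rw [hx, gm_zero, mul_zero]
        simp
      · rw [← pointwise_eq κ P hx, Finset.sum_mul]
        rfl
    have e2 : ∀ x, F m x = ∑ k, (gd κ 0 P k x * fderiv ℝ (gm h m) x (e3 k)
        + sd κ P k x * gm h m x) := by
      intro x
      rw [Finset.sum_add_distrib, ← e1 x]
    have i3 : ∀ k, Integrable (fun x => gd κ 0 P k x * fderiv ℝ (gm h m) x (e3 k)
        + sd κ P k x * gm h m x) := fun k => (i2 k).add (i1 k)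
    rw [integral_congr_ae (Eventually.of_forall e2), integral_finsetSum _ (fun k _ => i3 k)]
    apply Finset.sum_eq_zero
    intro k _
    rw [integral_add (i2 k) (i1 k), hparts m k]
    ring
  -- dominated convergence
  have hlim : Tendsto (fun m => ∫ x, F m x) atTop (𝓝 (∫ x, ((∑ k, gd κ 0 P k x * td k h x)
      + (κ ^ 2 * ev κ 0 P x - 1 / ‖x‖ * ev κ 0 (LL κ P) x) * (h : R3 → ℝ) x))) := by
    refine tendsto_integral_of_dominated_convergence (fun x =>
      (∑ k, (D k * ((1 + 1 / ‖x‖) * |td k h x|) + D k * (2 * M) * ((1 + 1 / ‖x‖) *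
        |(h : R3 → ℝ) x|))) + (κ ^ 2 * C0 + C1) * ((1 + 1 / ‖x‖) * |(h : R3 → ℝ) x|)) ?_ ?_ ?_ ?_
    · intro m
      have hd : ∀ k, Continuous fun x => fderiv ℝ (gm h m) x (e3 k) := fun k =>
        ((gm_smooth h m).continuous_fderiv (by simp)).clm_apply continuous_const
      have a1 : Measurable fun x => ∑ k, gd κ 0 P k x * fderiv ℝ (gm h m) x (e3 k) := by
        apply Finset.measurable_fun_sum
        intro k _
        exact (measurable_gd κ 0 P k).mul (hd k).measurable
      have a2 : Measurable fun x =>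
          (κ ^ 2 * ev κ 0 P x - 1 / ‖x‖ * ev κ 0 (LL κ P) x) * gm h m x := by
        have b1 := (continuous_ev κ 0 P).measurable
        have b2 := (continuous_ev κ 0 (LL κ P)).measurable
        have b3 := (hgmc m).measurable
        have b4 : Measurable fun x : R3 => ‖x‖ := by fun_prop
        exact ((b1.const_mul _).sub ((measurable_const.div b4).mul b2)).mul b3
      exact (a1.add a2).aestronglyMeasurable
    · refine Integrable.add (integrable_finsetSum _ fun k _ => ?_) ((int_cpt hcont hcpt).const_mul _)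
      exact ((int_cpt (continuous_td k h) (cpt_td k h)).const_mul _).add
        ((int_cpt hcont hcpt).const_mul _)
    · intro m
      refine Eventually.of_forall fun x => ?_
      rw [Real.norm_eq_abs]
      refine (abs_add_le _ _).trans (add_le_add ?_ ?_)
      · refine (Finset.abs_sum_le_sum_abs _ _).trans (Finset.sum_le_sum fun k _ => ?_)
        rw [gm_deriv, mul_sub]
        refine (abs_sub _ _).trans (add_le_add ?_ ?_)
        · rw [abs_mul, abs_mul]
          refine mul_le_mul (hgd' k x) ?_ (by positivity) (hD k)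
          have g1 := mul_le_of_le_one_left (abs_nonneg (td k h x)) (et_mem m x)
          have := mul_nonneg (hr x) (abs_nonneg (td k h x))
          linarith
        · rw [abs_mul, abs_mul, mul_assoc (D k)]
          refine mul_le_mul (hgd' k x) ?_ (by positivity) (hD k)
          have g1 := mul_le_mul_of_nonneg_right (db_scaled hM hdb m k x)
            (abs_nonneg ((h : R3 → ℝ) x))
          have g2 := mul_nonneg (by positivity : 0 ≤ 2 * M) (abs_nonneg ((h : R3 → ℝ) x))
          calc _ ≤ 2 * M * (1 / ‖x‖) * |(h : R3 → ℝ) x| := g1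
            _ ≤ 2 * M * ((1 + 1 / ‖x‖) * |(h : R3 → ℝ) x|) := by linarith
      · rw [abs_mul, ← mul_assoc]
        refine mul_le_mul ?_ (hgm m x) (abs_nonneg _) (by have := hr x; positivity)
        refine (abs_sub _ _).trans ?_
        rw [abs_mul, abs_mul, abs_of_nonneg (sq_nonneg κ), abs_of_nonneg (hr x)]
        have g1 := mul_le_mul_of_nonneg_left (hev' x) (sq_nonneg κ)
        have g2 := mul_le_mul_of_nonneg_left (hevL' x) (hr x)
        have g3 := mul_nonneg (mul_nonneg (sq_nonneg κ) hC0) (hr x)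
        nlinarith
    · filter_upwards [ae_ne_zero] with x hx
      have hx0 : 0 < ‖x‖ := norm_pos_iff.2 hx
      have ht : Tendsto (fun m : ℕ => ((m : ℝ) + 1) * ‖x‖) atTop atTop :=
        (tendsto_atTop_add_const_right _ _ tendsto_natCast_atTop_atTop).atTop_mul_const hx0
      have hev2 := ht.eventually_gt_atTop 2
      have hn : ∀ m : ℕ, ‖((m : ℝ) + 1) • x‖ = ((m : ℝ) + 1) * ‖x‖ := by
        intro m
        rw [norm_smul, Real.norm_of_nonneg (by positivity)]
      apply tendsto_const_nhds.congr'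
      filter_upwards [hev2] with m hm
      rw [← hn m] at hm
      have c1 : et m x = 1 := by
        unfold et
        rw [bmp_zero hm.le, sub_zero]
      have c2 : gm h m x = (h : R3 → ℝ) x := by
        unfold gm
        rw [c1, one_mul]
      simp only [hF, gm_deriv, c1, c2, db_zero hm, one_mul, mul_zero, zero_mul, sub_zero]
  simp only [hzero] at hlim
  exact (tendsto_nhds_unique hlim tendsto_const_nhds)

/-- the weak equation for test functions -/
theorem weak_TF {κ : ℝ} (hκ : 0 < κ) (h : TF) (P : PP) :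
    fT (Ph h) (JJ hκ P) + κ ^ 2 * fA (Ph h) (JJ hκ P) = fC (Ph h) (JJ hκ (LL κ P)) := by
  unfold fT fA fC
  simp only [Ph_fst, Ph_mid, Ph_snd, JJ_fst, JJ_mid, JJ_snd, ip_toLp]
  have h1 := weak_fun hκ h P
  have i1 : ∀ k, Integrable (fun x => td k h x * gd κ 0 P k x) := fun k =>
    (memLp_td k h).integrable_mul (memLp_gd hκ k P)
  have i2 : Integrable (fun x => (h : R3 → ℝ) x * ev κ 0 P x) :=
    (memLp_TF h).integrable_mul (memLp_ev hκ P)
  have i3 : Integrable (fun x => (wt x * (h : R3 → ℝ) x) * (wt x * ev κ 0 (LL κ P) x)) :=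
    (memLp_wtTF h).integrable_mul (memLp_wtev hκ (LL κ P))
  have e1 : ∀ x, ((∑ k, gd κ 0 P k x * td k h x)
      + (κ ^ 2 * ev κ 0 P x - 1 / ‖x‖ * ev κ 0 (LL κ P) x) * (h : R3 → ℝ) x)
      = ((∑ k, td k h x * gd κ 0 P k x) + κ ^ 2 * ((h : R3 → ℝ) x * ev κ 0 P x))
        - (wt x * (h : R3 → ℝ) x) * (wt x * ev κ 0 (LL κ P) x) := by
    intro x
    have e2 : (wt x * (h : R3 → ℝ) x) * (wt x * ev κ 0 (LL κ P) x)
        = 1 / ‖x‖ * ev κ 0 (LL κ P) x * (h : R3 → ℝ) x := by
      rw [← wt_sq]
      ring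
    rw [e2]
    have e3 : ∑ k, gd κ 0 P k x * td k h x = ∑ k, td k h x * gd κ 0 P k x :=
      Finset.sum_congr rfl fun k _ => mul_comm _ _
    rw [e3]
    ring
  rw [integral_congr_ae (Eventually.of_forall e1)] at h1
  have i4 : Integrable (fun x => ∑ k, td k h x * gd κ 0 P k x) :=
    integrable_finsetSum _ fun k _ => i1 k
  have i5 : Integrable (fun x => κ ^ 2 * ((h : R3 → ℝ) x * ev κ 0 P x)) := i2.const_mul _
  have i6 : Integrable (fun x => (∑ k, td k h x * gd κ 0 P k x)
      + κ ^ 2 * ((h : R3 → ℝ) x * ev κ 0 P x)) := i4.add i5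
  rw [integral_sub i6 i3, integral_add i4 i5,
    integral_finsetSum _ (fun k _ => i1 k), integral_const_mul] at h1
  linarith

/-- the weak equation on the closure -/
theorem weak_eq {κ : ℝ} (hκ : 0 < κ) (P : PP) : ∀ u ∈ WW,
    fT u (JJ hκ P) + κ ^ 2 * fA u (JJ hκ P) = fC u (JJ hκ (LL κ P)) := by
  refine WW_induction ?_ fun h => weak_TF hκ h P
  have c1 : Continuous fun u : HH => fT u (JJ hκ P) :=
    continuous_fT.comp (continuous_id.prodMk continuous_const)
  have c2 : Continuous fun u : HH => fA u (JJ hκ P) :=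
    continuous_fA.comp (continuous_id.prodMk continuous_const)
  have c3 : Continuous fun u : HH => fC u (JJ hκ (LL κ P)) :=
    continuous_fC.comp (continuous_id.prodMk continuous_const)
  exact isClosed_eq (c1.add (continuous_const.mul c2)) c3

end Pool.Agent.Lib.CX.Sh
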