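import Mathlib
import Pool.Agent.Lib.CX.Basic
import Pool.Agent.Lib.CX.ShA
import Pool.Agent.Lib.CX.ShB
import Pool.Agent.Lib.CX.ShC

/-! CX, closed shells: density of the polynomials times an exponential. -/

set_option autoImplicit false

open MeasureTheory Set Filter Topology ProbabilityTheory

noncomputable section

namespace Pool.Agent.Lib.CX.Sh

/-- integrals with respect to the density `w` (positive part) -/
theorem wd_facts {E : Type} [NormedAddCommGroup E] [NormedSpace ℝ E] {w : R3 → ℝ}
    (hw : Measurable w) {G : R3 → ℝ} (hi : Integrable (fun x => G x * |w x|)) {F : R3 → E}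
    (hF : StronglyMeasurable F) (hb : ∀ x, ‖F x‖ ≤ G x) :
    Integrable F ((volume : Measure R3).withDensity fun x => ENNReal.ofReal (w x)) ∧
    ∫ x, F x ∂((volume : Measure R3).withDensity fun x => ENNReal.ofReal (w x))
      = ∫ x, (max (w x) 0) • F x := by
  have h1 : Measurable fun x => ENNReal.ofReal (w x) := hw.ennreal_ofReal
  have h2 : ∀ᵐ x : R3, ENNReal.ofReal (w x) < ⊤ := Eventually.of_forall fun x => ENNReal.ofReal_lt_top
  constructor
  · rw [integrable_withDensity_iff_integrable_smul' h1 h2]
    have h3 : Measurable fun x => (ENNReal.ofReal (w x)).toReal := h1.ennreal_toReal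
    refine hi.mono' (h3.stronglyMeasurable.smul hF).aestronglyMeasurable
      (Eventually.of_forall fun x => ?_)
    rw [norm_smul, ENNReal.toReal_ofReal', Real.norm_of_nonneg (le_max_right _ _), mul_comm]
    have h4 : max (w x) 0 ≤ |w x| := max_le (le_abs_self _) (abs_nonneg _)
    exact mul_le_mul (hb x) h4 (le_max_right _ _) ((norm_nonneg _).trans (hb x))
  · rw [integral_withDensity_eq_integral_toReal_smul h1 h2]
    refine integral_congr_ae (Eventually.of_forall fun x => ?_)
    show (ENNReal.ofReal (w x)).toReal • F x = _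
    rw [ENNReal.toReal_ofReal']

/-- a function with an exponential moment is determined by its polynomial moments -/
theorem moment_zero {w : R3 → ℝ} (hw : Measurable w) {c : ℝ} (hc : 0 < c)
    (hi : Integrable (fun x => Real.exp (c * ‖x‖) * |w x|))
    (hm : ∀ p : MP, ∫ x, pe p x * w x = 0) : ∀ᵐ x, w x = 0 := by
  have hw' : Measurable fun x => -w x := hw.neg
  set mp : Measure R3 := (volume : Measure R3).withDensity fun x => ENNReal.ofReal (w x) with hmp
  set mn : Measure R3 := (volume : Measure R3).withDensity fun x => ENNReal.ofReal (-w x) with hmn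
  -- general facts
  have hgen : ∀ (F : R3 → ℂ) (C : ℝ), StronglyMeasurable F →
      (∀ x, ‖F x‖ ≤ C * Real.exp (c * ‖x‖)) →
      Integrable F mp ∧ Integrable F mn ∧ (∫ x, F x ∂mp) - (∫ x, F x ∂mn) = ∫ x, (w x) • F x := by
    intro F C hF hb
    have i1 : Integrable (fun x => C * Real.exp (c * ‖x‖) * |w x|) := by
      refine (hi.const_mul C).congr (Eventually.of_forall fun x => ?_)
      show C * (Real.exp (c * ‖x‖) * |w x|) = _
      ring
    have i1' : Integrable (fun x => C * Real.exp (c * ‖x‖) * |-w x|) := by
      refine i1.congr (Eventually.of_forall fun x => ?_)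
      show _ = C * Real.exp (c * ‖x‖) * |-w x|
      rw [abs_neg]
    obtain ⟨a1, a2⟩ := wd_facts hw i1 hF hb
    obtain ⟨b1, b2⟩ := wd_facts hw' i1' hF hb
    refine ⟨a1, b1, ?_⟩
    rw [a2, b2]
    have j1 : Integrable (fun x => (max (w x) 0) • F x) := by
      refine i1.mono' ((hw.max measurable_const).stronglyMeasurable.smul hF).aestronglyMeasurable
        (Eventually.of_forall fun x => ?_)
      rw [norm_smul, Real.norm_of_nonneg (le_max_right _ _), mul_comm]
      exact mul_le_mul (hb x) (max_le (le_abs_self _) (abs_nonneg _)) (le_max_right _ _)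
        ((norm_nonneg _).trans (hb x))
    have j2 : Integrable (fun x => (max (-w x) 0) • F x) := by
      refine i1'.mono' ((hw'.max measurable_const).stronglyMeasurable.smul hF).aestronglyMeasurable
        (Eventually.of_forall fun x => ?_)
      rw [norm_smul, Real.norm_of_nonneg (le_max_right _ _), mul_comm]
      exact mul_le_mul (hb x) (max_le (le_abs_self _) (abs_nonneg _)) (le_max_right _ _)
        ((norm_nonneg _).trans (hb x))
    rw [← integral_sub j1 j2]
    refine integral_congr_ae (Eventually.of_forall fun x => ?_)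
    show max (w x) 0 • F x - max (-w x) 0 • F x = w x • F x
    rw [← sub_smul]
    congr 1
    rcases le_total 0 (w x) with h | h
    · rw [max_eq_left h, max_eq_right (by linarith)]
      ring
    · rw [max_eq_right h, max_eq_left (by linarith)]
      ring
  have hexp1 : ∀ x : R3, (1 : ℝ) ≤ Real.exp (c * ‖x‖) := fun x => Real.one_le_exp (by positivity)
  -- the measures are finite
  have hone := hgen (fun _ => 1) 1 stronglyMeasurable_const (fun x => by
    rw [one_mul, norm_one]
    exact hexp1 x)
  have fin1 : IsFiniteMeasure mp := by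
    have h1 := hone.1
    rw [integrable_const_iff] at h1
    exact h1.resolve_left one_ne_zero
  have fin2 : IsFiniteMeasure mn := by
    have h1 := hone.2.1
    rw [integrable_const_iff] at h1
    exact h1.resolve_left one_ne_zero
  -- characteristic functions
  have hchar : charFun mp = charFun mn := by
    funext ξ
    set X : R3 → ℝ := fun x => inner ℝ x ξ with hX
    have hXm : Measurable X := by
      rw [hX]
      fun_prop
    have hXb : ∀ x, |X x| ≤ (‖ξ‖ + 1) * ‖x‖ := by
      intro x
      have := abs_real_inner_le_norm x ξ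
      rw [hX]
      nlinarith [norm_nonneg x]
    set b : ℝ := c / (‖ξ‖ + 1) with hb
    have hb0 : 0 < b := by positivity
    have hbc : b * (‖ξ‖ + 1) = c := by
      rw [hb]
      field_simp
    have hexpb : ∀ t ∈ Ioo (-b) b, ∀ x, ‖Real.exp (t * X x)‖ ≤ 1 * Real.exp (c * ‖x‖) := by
      intro t ht x
      rw [Real.norm_of_nonneg (Real.exp_pos _).le, one_mul]
      apply Real.exp_le_exp.2
      have h1 : t * X x ≤ |t| * |X x| := by
        rw [← abs_mul]
        exact le_abs_self _
      have h2 : |t| ≤ b := (abs_lt.2 ht).le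
      calc t * X x ≤ |t| * |X x| := h1
        _ ≤ b * ((‖ξ‖ + 1) * ‖x‖) := mul_le_mul h2 (hXb x) (abs_nonneg _) hb0.le
        _ = c * ‖x‖ := by rw [← mul_assoc, hbc]
    have hsub : ∀ (ν : Measure R3), (∀ F : R3 → ℝ, StronglyMeasurable F →
        (∀ x, ‖F x‖ ≤ 1 * Real.exp (c * ‖x‖)) → Integrable F ν) →
        Ioo (-b) b ⊆ interior (integrableExpSet X ν) := by
      intro ν hν
      refine interior_maximal ?_ isOpen_Ioo
      intro t ht
      refine hν _ ?_ (hexpb t ht)
      exact (Real.measurable_exp.comp (hXm.const_mul t)).stronglyMeasurable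
    have i0 : Integrable (fun x => 1 * Real.exp (c * ‖x‖) * |w x|) := by
      simpa using hi
    have i0' : Integrable (fun x => 1 * Real.exp (c * ‖x‖) * |-w x|) := by
      simpa using hi
    have hsp : Ioo (-b) b ⊆ interior (integrableExpSet X mp) :=
      hsub mp fun F hF hFb => (wd_facts hw i0 hF hFb).1
    have hsn : Ioo (-b) b ⊆ interior (integrableExpSet X mn) :=
      hsub mn fun F hF hFb => (wd_facts hw' i0' hF hFb).1
    set U : Set ℂ := {z | z.re ∈ Ioo (-b) b} with hU
    have hap : AnalyticOnNhd ℂ (complexMGF X mp) U :=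
      analyticOnNhd_complexMGF.mono fun z hz => hsp hz
    have han : AnalyticOnNhd ℂ (complexMGF X mn) U :=
      analyticOnNhd_complexMGF.mono fun z hz => hsn hz
    have hconn : IsPreconnected U := ((convex_Ioo (-b) b).linear_preimage Complex.reLm).isPreconnected
    have h0U : (0 : ℂ) ∈ U := ⟨by simpa using hb0, by simpa using hb0⟩
    have hIU : Complex.I ∈ U := ⟨by simpa using hb0, by simpa using hb0⟩
    have hdf : AnalyticOnNhd ℂ (fun z => complexMGF X mp z - complexMGF X mn z) U := hap.sub han
    -- all derivatives at the origin vanish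
    have hder : ∀ n, iteratedDeriv n (fun z => complexMGF X mp z - complexMGF X mn z) 0 = 0 := by
      intro n
      have e1 : iteratedDeriv n (fun z => complexMGF X mp z - complexMGF X mn z) 0
          = iteratedDeriv n (complexMGF X mp) 0 - iteratedDeriv n (complexMGF X mn) 0 :=
        iteratedDeriv_fun_sub ((hap 0 h0U).contDiffAt) ((han 0 h0U).contDiffAt)
      rw [e1, iteratedDeriv_complexMGF (hsp h0U), iteratedDeriv_complexMGF (hsn h0U)]
      have e2 : (fun x : R3 => ((X x : ℂ)) ^ n * Complex.exp (0 * (X x : ℂ)))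
          = fun x => (((X x) ^ n : ℝ) : ℂ) := by
        funext x
        rw [zero_mul, Complex.exp_zero, mul_one]
        push_cast
        rfl
      rw [e2]
      -- the power of the linear form is a polynomial
      set q : MP := (∑ i : Fin 3, MvPolynomial.C (ξ i) * MvPolynomial.X i) ^ n with hq
      have e3 : ∀ x : R3, pe q x = (X x) ^ n := by
        intro x
        rw [hq, pe_pow, pe_sum]
        congr 1
        rw [hX]
        simp only [pe_mul, pe_C, pe_X]
        rw [PiLp.inner_apply]
        exact Finset.sum_congr rfl fun i _ => by simp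
      obtain ⟨C, hC, hCb⟩ := pe_bound q c hc
      have e4 := hgen (fun x => (((X x) ^ n : ℝ) : ℂ)) C
        (Complex.measurable_ofReal.comp (hXm.pow_const n)).stronglyMeasurable (fun x => by
          rw [Complex.norm_real, Real.norm_eq_abs, ← e3]
          exact hCb x)
      rw [e4.2.2]
      have e5 : ∀ x, (w x) • (((X x) ^ n : ℝ) : ℂ) = ((pe q x * w x : ℝ) : ℂ) := by
        intro x
        rw [e3, Complex.real_smul]
        push_cast
        ring
      rw [integral_congr_ae (Eventually.of_forall e5), integral_complex_ofReal, hm q,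
        Complex.ofReal_zero]
    have hev : ∀ᶠ z in 𝓝 (0 : ℂ), complexMGF X mp z - complexMGF X mn z = 0 := by
      have h1 := (hdf 0 h0U).hasFPowerSeriesAt
      have h2 : (FormalMultilinearSeries.ofScalars ℂ (fun n => iteratedDeriv n
          (fun z => complexMGF X mp z - complexMGF X mn z) 0 / (n.factorial : ℂ))) = 0 := by
        ext n
        simp [hder, FormalMultilinearSeries.ofScalars]
      rw [h2] at h1
      exact h1.eventually_eq_zero
    have hall := hdf.eqOn_zero_of_preconnected_of_eventuallyEq_zero hconn h0U hev hIU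
    have h3 : complexMGF X mp Complex.I = complexMGF X mn Complex.I := sub_eq_zero.1 hall
    unfold complexMGF at h3
    rw [charFun_apply, charFun_apply]
    have h4 : ∀ x : R3, Complex.exp (((inner ℝ x ξ : ℝ) : ℂ) * Complex.I)
        = Complex.exp (Complex.I * (X x : ℂ)) := fun x => by rw [mul_comm]
    simp only [h4]
    exact h3
  have heq : mp = mn := Measure.ext_of_charFun hchar
  rw [hmp, hmn, withDensity_eq_iff_of_sigmaFinite hw.ennreal_ofReal.aemeasurable
    hw'.ennreal_ofReal.aemeasurable] at heq
  filter_upwards [heq] with x hx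
  rcases le_total 0 (w x) with h | h
  · rw [ENNReal.ofReal_of_nonpos (by linarith : -w x ≤ 0)] at hx
    have := ENNReal.ofReal_eq_zero.1 hx
    linarith
  · rw [ENNReal.ofReal_of_nonpos h] at hx
    have := ENNReal.ofReal_eq_zero.1 hx.symm
    linarith

theorem ev_fst (κ : ℝ) (p : MP) (x : R3) :
    ev κ 0 (p, 0) x = pe p x * Real.exp (-(κ * ‖x‖)) := by
  unfold ev
  rw [pe_zero, mul_zero, add_zero, rho_zero]

/-- density of the polynomials times the exponential -/
theorem dense_JJ {κ : ℝ} (hκ : 0 < κ) (g : H) (hg : ∀ p : MP, inner ℝ g (JJ hκ (p, 0)).2.2 = 0) :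
    g = 0 := by
  set w : R3 → ℝ := fun x => g x * (wt x * Real.exp (-(κ * ‖x‖))) with hw
  have hgm : Measurable (g : R3 → ℝ) := (Lp.stronglyMeasurable g).measurable
  have hgL : MemLp (g : R3 → ℝ) 2 := Lp.memLp g
  have hwm : Measurable w := by
    have h1 := measurable_wt
    have h2 : Measurable fun x : R3 => Real.exp (-(κ * ‖x‖)) := by fun_prop
    exact hgm.mul (h1.mul h2)
  have hwtexp : MemLp (fun x : R3 => wt x * Real.exp (-(κ / 2 * ‖x‖))) 2 := by
    refine memLp_wt_bound (by fun_prop) (a := κ / 2) (by positivity) (C := 1) fun x => ?_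
    rw [Real.abs_exp, one_mul]
  have hi : Integrable (fun x => Real.exp (κ / 2 * ‖x‖) * |w x|) := by
    have h1 := (hgL.integrable_mul hwtexp).abs
    refine h1.congr (Eventually.of_forall fun x => ?_)
    show |g x * (wt x * Real.exp (-(κ / 2 * ‖x‖)))| = Real.exp (κ / 2 * ‖x‖) * |w x|
    rw [hw]
    simp only
    rw [abs_mul, abs_mul, abs_mul, abs_mul, Real.abs_exp, Real.abs_exp]
    have h2 : Real.exp (-(κ / 2 * ‖x‖)) = Real.exp (κ / 2 * ‖x‖) * Real.exp (-(κ * ‖x‖)) := by
      rw [← Real.exp_add]
      congr 1
      ring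
    rw [h2]
    ring
  have hm : ∀ p : MP, ∫ x, pe p x * w x = 0 := by
    intro p
    have h1 := hg p
    rw [JJ_snd] at h1
    have h2 : inner ℝ g ((memLp_wtev hκ (p, 0)).toLp (fun x => wt x * ev κ 0 (p, 0) x))
        = ∫ x, pe p x * w x := by
      rw [L2.inner_def]
      refine integral_congr_ae ?_
      filter_upwards [(memLp_wtev hκ (p, (0 : MP))).coeFn_toLp] with x h3
      rw [h3, ev_fst, hw]
      simp
      ring
    rw [← h2]
    exact h1
  have h0 := moment_zero hwm (by positivity : 0 < κ / 2) hi hm
  rw [Lp.eq_zero_iff_ae_eq_zero]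
  have hae : ∀ᵐ x : R3, x ≠ 0 := by
    rw [ae_iff]
    simp
  filter_upwards [h0, hae] with x h1 h2
  rw [hw] at h1
  have h3 : 0 < wt x := by
    unfold wt
    have := norm_pos_iff.2 h2
    positivity
  have h4 : wt x * Real.exp (-(κ * ‖x‖)) ≠ 0 := by positivity
  rcases mul_eq_zero.1 h1 with h5 | h5
  · exact h5
  · exact (h4 h5).elim

end Pool.Agent.Lib.CX.Sh
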