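import Mathlib
import Pool.Agent.Lib.CX.Basic
import Pool.Agent.Lib.CX.ShA
import Pool.Agent.Lib.CX.ShB
import Pool.Agent.Lib.CX.ShC
import Pool.Agent.Lib.CX.ShD
import Pool.Agent.Lib.CX.ShE
import Pool.Agent.Lib.CX.ShF

/-! CX, closed shells: the Sturmian inequality. -/

set_option autoImplicit false

open MeasureTheory Set Filter Topology

noncomputable section

namespace Pool.Agent.Lib.CX.Sh

variable {κ : ℝ} (hκ : 0 < κ)

/-- weighted value of a pair -/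
def J4 : PP →ₗ[ℝ] H :=
  (LinearMap.snd ℝ (Fin 3 → H) H) ∘ₗ (LinearMap.snd ℝ H ((Fin 3 → H) × H)) ∘ₗ JJ hκ

theorem J4_apply (P : PP) : J4 hκ P = (JJ hκ P).2.2 := rfl

theorem fC_JJ (P Q : PP) : fC (JJ hκ P) (JJ hκ Q) = inner ℝ (J4 hκ P) (J4 hκ Q) := rfl

theorem LL_symm (P Q : PP) :
    inner ℝ (J4 hκ P) (J4 hκ (LL κ Q)) = inner ℝ (J4 hκ (LL κ P)) (J4 hκ Q) := by
  have h1 := weak_eq hκ Q (JJ hκ P) (JJ_mem hκ P)
  have h2 := weak_eq hκ P (JJ hκ Q) (JJ_mem hκ Q)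
  rw [fT_symm, fA_symm, h1, fC_JJ, fC_JJ] at h2
  rw [h2, real_inner_comm]

theorem exists_proj (K : ℕ) (g : H) :
    ∃ v ∈ VV K, ∀ u ∈ VV K, inner ℝ (g - J4 hκ v) (J4 hκ u) = 0 := by
  set U : Submodule ℝ H := (VV K).map (J4 hκ) with hU
  have h1 : U.starProjection g ∈ U := U.starProjection_apply_mem g
  obtain ⟨v, hv, hv'⟩ := h1
  refine ⟨v, hv, fun u hu => ?_⟩
  rw [hv']
  have h2 := U.sub_starProjection_mem_orthogonal g
  exact Submodule.inner_left_of_mem_orthogonal (Submodule.mem_map_of_mem hu) h2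

theorem quad {n K : ℕ} (hnK : n ≤ K) : ∀ v ∈ VV K,
    (∀ u ∈ VV n, inner ℝ (J4 hκ v) (J4 hκ u) = 0) →
      2 * κ * (n + 1) * ‖J4 hκ v‖ ^ 2 ≤ inner ℝ (J4 hκ v) (J4 hκ (LL κ v)) := by
  induction K, hnK using Nat.le_induction with
  | base =>
    intro v hv h
    rw [h _ (LL_mem κ hv), ← real_inner_self_eq_norm_sq, h v hv, mul_zero]
  | succ K hnK ih =>
    intro v hv h
    obtain ⟨a, ha, hao⟩ := exists_proj hκ K (J4 hκ v)
    obtain ⟨w, hw⟩ : ∃ w : PP, w = v - a := ⟨_, rfl⟩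
    have hwv : w ∈ VV (K + 1) := by
      rw [hw]
      exact Submodule.sub_mem _ hv (VV_mono (Nat.le_succ K) ha)
    have hwo : ∀ u ∈ VV K, inner ℝ (J4 hκ w) (J4 hκ u) = 0 := by
      intro u hu
      rw [hw, map_sub]
      exact hao u hu
    have hva : J4 hκ v = J4 hκ a + J4 hκ w := by
      rw [hw, map_sub]
      abel
    have hao' : ∀ u ∈ VV n, inner ℝ (J4 hκ a) (J4 hκ u) = 0 := by
      intro u hu
      have h1 := h u hu
      rw [hva, inner_add_left, hwo u (VV_mono hnK hu), add_zero] at h1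
      exact h1
    have h2 := ih a ha hao'
    have h3 : inner ℝ (J4 hκ a) (J4 hκ w) = 0 := by
      rw [real_inner_comm]
      exact hwo a ha
    have h4 : ‖J4 hκ v‖ ^ 2 = ‖J4 hκ a‖ ^ 2 + ‖J4 hκ w‖ ^ 2 := by
      rw [hva, ← real_inner_self_eq_norm_sq, ← real_inner_self_eq_norm_sq,
        ← real_inner_self_eq_norm_sq, inner_add_add_self, hwo a ha, h3]
      ring
    have h5 : inner ℝ (J4 hκ w) (J4 hκ (LL κ w)) = 2 * κ * (K + 1) * ‖J4 hκ w‖ ^ 2 := by
      have h6 : inner ℝ (J4 hκ w) (J4 hκ (LL κ w - (2 * κ * ((K : ℝ) + 1)) • w)) = 0 :=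
        hwo _ (LL_top κ hwv)
      rw [map_sub (J4 hκ), map_smul (J4 hκ), inner_sub_right, real_inner_smul_right,
        real_inner_self_eq_norm_sq] at h6
      linarith
    have h7 : inner ℝ (J4 hκ w) (J4 hκ (LL κ a)) = 0 := hwo _ (LL_mem κ ha)
    have h8 : inner ℝ (J4 hκ a) (J4 hκ (LL κ w)) = 0 := by
      rw [LL_symm, real_inner_comm]
      exact h7
    have h9 : inner ℝ (J4 hκ v) (J4 hκ (LL κ v))
        = inner ℝ (J4 hκ a) (J4 hκ (LL κ a)) + inner ℝ (J4 hκ w) (J4 hκ (LL κ w)) := by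
      have h10 : LL κ v = LL κ a + LL κ w := by
        rw [hw, map_sub]
        abel
      rw [h10, hva, map_add, inner_add_left, inner_add_right, inner_add_right, h7, h8]
      ring
    rw [h9, h4, h5]
    have h11 : (n : ℝ) ≤ K := by exact_mod_cast hnK
    have h12 : 0 ≤ ‖J4 hκ w‖ ^ 2 := sq_nonneg _
    have h13 : 2 * κ * (n + 1) * ‖J4 hκ w‖ ^ 2 ≤ 2 * κ * (K + 1) * ‖J4 hκ w‖ ^ 2 := by
      apply mul_le_mul_of_nonneg_right _ h12
      nlinarith
    nlinarith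

theorem exists_level_mem (P : PP) (n : ℕ) : ∃ K, n ≤ K ∧ P ∈ VV K := by
  refine ⟨max n (P.1.totalDegree + P.2.totalDegree + 2), le_max_left _ _, ?_⟩
  have h1 : P.1.totalDegree + P.2.totalDegree + 2
      ≤ max n (P.1.totalDegree + P.2.totalDegree + 2) := le_max_right _ _
  constructor
  · show P.1 ∈ FF 0 _
    rw [mem_FF]
    intro m hm
    have h2 := MvPolynomial.le_totalDegree (MvPolynomial.mem_support_iff.2 hm)
    have h3 : m.degree = m.sum fun _ e => e := rfl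
    omega
  · show P.2 ∈ FF 1 _
    rw [mem_FF]
    intro m hm
    have h2 := MvPolynomial.le_totalDegree (MvPolynomial.mem_support_iff.2 hm)
    have h3 : m.degree = m.sum fun _ e => e := rfl
    omega

theorem dense_J4 (g : H) {ε : ℝ} (hε : 0 < ε) : ∃ P : PP, ‖g - J4 hκ P‖ < ε := by
  have h1 : (LinearMap.range (J4 hκ)).topologicalClosure = ⊤ := by
    rw [Submodule.topologicalClosure_eq_top_iff, Submodule.eq_bot_iff]
    intro x hx
    refine dense_JJ hκ x fun p => ?_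
    rw [real_inner_comm]
    exact Submodule.inner_right_of_mem_orthogonal (K := LinearMap.range (J4 hκ)) ⟨(p, 0), rfl⟩ hx
  have h2 : g ∈ closure ((LinearMap.range (J4 hκ) : Submodule ℝ H) : Set H) := by
    rw [← Submodule.topologicalClosure_coe, h1]
    trivial
  rw [Metric.mem_closure_iff] at h2
  obtain ⟨_, ⟨P, rfl⟩, hP⟩ := h2 ε hε
  exact ⟨P, by rwa [dist_eq_norm] at hP⟩

theorem fT_sub_self (u v : HH) : fT (u - v) (u - v) = fT u u - 2 * fT u v + fT v v := by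
  unfold fT
  rw [Finset.mul_sum, ← Finset.sum_sub_distrib, ← Finset.sum_add_distrib]
  refine Finset.sum_congr rfl fun k _ => ?_
  show inner ℝ (u.2.1 k - v.2.1 k) (u.2.1 k - v.2.1 k) = _
  rw [inner_sub_sub_self, real_inner_comm (u.2.1 k) (v.2.1 k)]
  ring

theorem fA_sub_self (u v : HH) : fA (u - v) (u - v) = fA u u - 2 * fA u v + fA v v := by
  unfold fA
  show inner ℝ (u.1 - v.1) (u.1 - v.1) = _
  rw [inner_sub_sub_self, real_inner_comm u.1 v.1]
  ring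

/-- the Sturmian inequality -/
theorem c_ineq (n : ℕ) {h : HH} (hh : h ∈ WW) (ho : ∀ u ∈ VV n, inner ℝ h.2.2 (J4 hκ u) = 0) :
    2 * κ * (n + 1) * fC h h ≤ fT h h + κ ^ 2 * fA h h := by
  have hc : 0 < 2 * κ * ((n : ℝ) + 1) := by positivity
  refine le_of_forall_pos_le_add fun ε hε => ?_
  obtain ⟨P, hP⟩ := dense_J4 hκ h.2.2 (ε := Real.sqrt (ε / (2 * κ * ((n : ℝ) + 1))))
    (Real.sqrt_pos.2 (by positivity))
  obtain ⟨K, hnK, hPK⟩ := exists_level_mem P n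
  obtain ⟨v, hv, hvo⟩ := exists_proj hκ K h.2.2
  have h1 : ‖h.2.2 - J4 hκ P‖ ^ 2 < ε / (2 * κ * ((n : ℝ) + 1)) := by
    have h2 := pow_lt_pow_left₀ hP (norm_nonneg _) two_ne_zero
    rwa [Real.sq_sqrt (by positivity)] at h2
  have h2 : ‖h.2.2 - J4 hκ v‖ ^ 2 ≤ ‖h.2.2 - J4 hκ P‖ ^ 2 := by
    have h3 : h.2.2 - J4 hκ P = (h.2.2 - J4 hκ v) + J4 hκ (v - P) := by
      rw [map_sub]
      abel
    have h4 := hvo (v - P) (Submodule.sub_mem _ hv hPK)
    have h4' : inner ℝ (J4 hκ (v - P)) (h.2.2 - J4 hκ v) = 0 := by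
      rw [real_inner_comm]
      exact h4
    rw [h3, ← real_inner_self_eq_norm_sq, ← real_inner_self_eq_norm_sq, inner_add_add_self,
      h4', h4]
    have := real_inner_self_nonneg (x := J4 hκ (v - P))
    linarith
  have h3 : ‖h.2.2‖ ^ 2 = ‖h.2.2 - J4 hκ v‖ ^ 2 + ‖J4 hκ v‖ ^ 2 := by
    have h4 : h.2.2 = (h.2.2 - J4 hκ v) + J4 hκ v := by abel
    have h4' : inner ℝ (J4 hκ v) (h.2.2 - J4 hκ v) = 0 := by
      rw [real_inner_comm]
      exact hvo v hv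
    conv_lhs => rw [h4]
    rw [← real_inner_self_eq_norm_sq, ← real_inner_self_eq_norm_sq, ← real_inner_self_eq_norm_sq,
      inner_add_add_self, h4', hvo v hv]
    ring
  have h4 : 0 ≤ fT (h - JJ hκ v) (h - JJ hκ v) + κ ^ 2 * fA (h - JJ hκ v) (h - JJ hκ v) :=
    add_nonneg (fT_nonneg _) (mul_nonneg (sq_nonneg κ) (fA_nonneg _))
  rw [fT_sub_self, fA_sub_self] at h4
  have h5 := weak_eq hκ v h hh
  have h6 := weak_eq hκ v (JJ hκ v) (JJ_mem hκ v)
  have h7 : fC h (JJ hκ (LL κ v)) = inner ℝ (J4 hκ v) (J4 hκ (LL κ v)) := by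
    have h8 := hvo _ (LL_mem κ hv)
    rw [inner_sub_left] at h8
    have h9 : fC h (JJ hκ (LL κ v)) = inner ℝ h.2.2 (J4 hκ (LL κ v)) := rfl
    rw [h9]
    linarith
  rw [fC_JJ] at h6
  have h8 := quad hκ hnK v hv (fun u hu => by
    have h9 := hvo u (VV_mono hnK hu)
    rw [inner_sub_left, ho u hu] at h9
    linarith)
  rw [fC_sq, h3]
  have h10 : 2 * κ * (n + 1) * ‖h.2.2 - J4 hκ v‖ ^ 2 ≤ ε := by
    have h11 := h2.trans h1.le
    rw [le_div_iff₀ hc] at h11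
    linarith
  nlinarith

end Pool.Agent.Lib.CX.Sh
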