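import Mathlib
import Pool.Agent.Lib.CX.Basic
import Pool.Agent.Lib.CX.ShA
import Pool.Agent.Lib.CX.ShB
import Pool.Agent.Lib.CX.ShC
import Pool.Agent.Lib.CX.ShD
import Pool.Agent.Lib.CX.ShE
import Pool.Agent.Lib.CX.ShF
import Pool.Agent.Lib.CX.ShG

/-! CX, closed shells: the orbitals and the lower bound for one electron. -/

set_option autoImplicit false

open MeasureTheory Set Filter Topology

noncomputable section

namespace Pool.Agent.Lib.CX.Sh

/-- a polynomial along a line -/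
def ln (p : MP) (x : R3) : Polynomial ℝ :=
  MvPolynomial.aeval (fun i => Polynomial.C (x i) * Polynomial.X) p

theorem eval_ln (p : MP) (x : R3) (t : ℝ) : (ln p x).eval t = pe p (t • x) := by
  unfold ln pe
  have h1 : (MvPolynomial.aeval (fun i => Polynomial.C (x i) * Polynomial.X) p : Polynomial ℝ).eval t
      = (Polynomial.evalRingHom t) (MvPolynomial.aeval
        (fun i => Polynomial.C (x i) * (Polynomial.X : Polynomial ℝ)) p) := rfl
  rw [h1, MvPolynomial.aeval_def, MvPolynomial.eval, MvPolynomial.hom_eval₂]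
  congr 1
  · ext a
    simp
  · funext i
    show (Polynomial.evalRingHom t) (Polynomial.C (x i) * Polynomial.X) = t * x i
    rw [map_mul, Polynomial.coe_evalRingHom, Polynomial.eval_C, Polynomial.eval_X, mul_comm]

theorem pe_injective {p : MP} (h : ∀ x, pe p x = 0) : p = 0 := by
  apply MvPolynomial.funext
  intro y
  have h1 := h (WithLp.toLp 2 y)
  rw [map_zero]
  exact h1

theorem pair_zero {P : PP} (h : ∀ x, pe P.1 x + ‖x‖ * pe P.2 x = 0) : P = 0 := by
  have key : ∀ x : R3, pe P.1 x = 0 ∧ ‖x‖ * pe P.2 x = 0 := by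
    intro y
    obtain ⟨x, hx⟩ : ∃ x : R3, x = -y := ⟨_, rfl⟩
    -- the polynomial identity along the ray through `x`
    have h1 : ln P.1 x + Polynomial.C ‖x‖ * Polynomial.X * ln P.2 x = 0 := by
      apply Polynomial.eq_zero_of_infinite_isRoot
      refine Set.infinite_of_injective_forall_mem (f := fun n : ℕ => (n : ℝ)) Nat.cast_injective ?_
      intro n
      show Polynomial.IsRoot _ _
      rw [Polynomial.IsRoot, Polynomial.eval_add, Polynomial.eval_mul, Polynomial.eval_mul,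
        Polynomial.eval_C, Polynomial.eval_X, eval_ln, eval_ln]
      have h2 := h ((n : ℝ) • x)
      rw [norm_smul, Real.norm_of_nonneg (Nat.cast_nonneg n)] at h2
      linarith
    have h2 := congrArg (Polynomial.eval (-1)) h1
    rw [Polynomial.eval_add, Polynomial.eval_mul, Polynomial.eval_mul,
        Polynomial.eval_C, Polynomial.eval_X, eval_ln, eval_ln, Polynomial.eval_zero] at h2
    have h3 : (-1 : ℝ) • x = y := by
      rw [hx]
      simp
    have h4 : ‖x‖ = ‖y‖ := by rw [hx, norm_neg]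
    rw [h3, h4] at h2
    have h5 := h y
    constructor <;> linarith
  have e1 : P.1 = 0 := pe_injective fun x => (key x).1
  have e2 : MvPolynomial.X 0 * P.2 = 0 := by
    apply pe_injective
    intro x
    rw [pe_mul, pe_X]
    rcases mul_eq_zero.1 (key x).2 with h1 | h1
    · rw [norm_eq_zero.1 h1]
      simp
    · rw [h1, mul_zero]
  have e3 : P.2 = 0 := by
    rcases mul_eq_zero.1 e2 with h1 | h1
    · exact (MvPolynomial.X_ne_zero 0 h1).elim
    · exact h1
  exact Prod.ext e1 e3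

variable {κ : ℝ} (hκ : 0 < κ)

/-- value of a pair -/
def J0 : PP →ₗ[ℝ] H := (LinearMap.fst ℝ H ((Fin 3 → H) × H)) ∘ₗ JJ hκ

theorem J0_apply (P : PP) : J0 hκ P = (memLp_ev hκ P).toLp (ev κ 0 P) := rfl

theorem fA_JJ (P Q : PP) : fA (JJ hκ P) (JJ hκ Q) = inner ℝ (J0 hκ P) (J0 hκ Q) := rfl

theorem J0_injective : Function.Injective (J0 hκ) := by
  rw [injective_iff_map_eq_zero]
  intro P hP
  rw [J0_apply] at hP
  have h1 : ev κ 0 P =ᵐ[volume] fun _ => (0 : ℝ) := by
    have h2 := (memLp_ev hκ P).coeFn_toLp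
    rw [hP] at h2
    exact h2.symm.trans (Lp.coeFn_zero ℝ 2 volume)
  have h2 : ev κ 0 P = fun _ => (0 : ℝ) :=
    (Continuous.ae_eq_iff_eq volume (continuous_ev κ 0 P) continuous_const).1 h1
  apply pair_zero
  intro x
  have h3 := congrFun h2 x
  unfold ev at h3
  rw [rho_zero] at h3
  rcases mul_eq_zero.1 h3 with h4 | h4
  · exact h4
  · exact ((Real.exp_pos _).ne' h4).elim

/-- the exponent of level `k + 1` -/
def kap (k : ℕ) : ℝ := 1 / (2 * ((k : ℝ) + 1))

theorem kap_pos (k : ℕ) : 0 < kap k := by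
  unfold kap
  positivity

theorem kap_eq (k : ℕ) : 2 * kap k * ((k : ℝ) + 1) = 1 := by
  unfold kap
  have : (k : ℝ) + 1 ≠ 0 := by positivity
  field_simp

theorem kap_lt {k n : ℕ} (h : k < n) : kap n < kap k := by
  unfold kap
  have h1 : (k : ℝ) < n := by exact_mod_cast h
  apply one_div_lt_one_div_of_lt (by positivity)
  linarith

theorem kap_le {k n : ℕ} (h : k ≤ n) : kap n ≤ kap k := by
  rcases h.eq_or_lt with h1 | h1
  · rw [h1]
  · exact (kap_lt h1).le

theorem exists_level (k : ℕ) : ∃ P : Fin ((k + 1) ^ 2) → PP,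
    (∀ i, P i ∈ EE (kap k) (k + 1)) ∧
    ∀ i j, fA (JJ (kap_pos k) (P i)) (JJ (kap_pos k) (P j)) = if i = j then 1 else 0 := by
  set U : Submodule ℝ H := (EE (kap k) (k + 1)).map (J0 (kap_pos k)) with hU
  have h1 : Module.finrank ℝ U = Module.finrank ℝ (EE (kap k) (k + 1)) :=
    (Submodule.equivMapOfInjective (J0 (kap_pos k)) (J0_injective (kap_pos k))
      (EE (kap k) (k + 1))).finrank_eq.symm
  have h2 := finrank_EE (kap k) k
  rw [← h1] at h2
  let b := stdOrthonormalBasis ℝ U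
  have h3 : ∀ i : Fin ((k + 1) ^ 2), ∃ P ∈ EE (kap k) (k + 1),
      J0 (kap_pos k) P = (b (Fin.castLE h2 i) : H) := fun i => (b (Fin.castLE h2 i)).2
  choose P hP hP' using h3
  refine ⟨P, hP, fun i j => ?_⟩
  rw [fA_JJ, hP', hP']
  have h4 := orthonormal_iff_ite.1 b.orthonormal (Fin.castLE h2 i) (Fin.castLE h2 j)
  rw [Submodule.coe_inner] at h4
  rw [h4]
  by_cases hij : i = j
  · rw [if_pos hij, if_pos (by rw [hij])]
  · rw [if_neg hij, if_neg (fun h => hij (Fin.castLE_injective h2 h))]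

/-- the orbitals of level `k + 1` -/
def orbP (k : ℕ) : Fin ((k + 1) ^ 2) → PP := (exists_level k).choose

theorem orbP_mem (k : ℕ) (i : Fin ((k + 1) ^ 2)) : orbP k i ∈ EE (kap k) (k + 1) :=
  (exists_level k).choose_spec.1 i

theorem orbP_orth (k : ℕ) (i j : Fin ((k + 1) ^ 2)) :
    fA (JJ (kap_pos k) (orbP k i)) (JJ (kap_pos k) (orbP k j)) = if i = j then 1 else 0 :=
  (exists_level k).choose_spec.2 i j

/-- index set of the orbitals up to level `n` -/
abbrev Idx (n : ℕ) : Type := Σ k : Fin n, Fin ((k.1 + 1) ^ 2)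

theorem card_Idx (n : ℕ) : Fintype.card (Idx n) = dd n := by
  rw [Fintype.card_sigma]
  unfold dd
  simp only [Fintype.card_fin]
  rw [Finset.sum_range]

/-- the orbital -/
def orb {n : ℕ} (i : Idx n) : HH := JJ (kap_pos i.1.1) (orbP i.1.1 i.2)

/-- the orbital as a function -/
def orf {n : ℕ} (i : Idx n) : R3 → ℝ := ev (kap i.1.1) 0 (orbP i.1.1 i.2)

/-- its energy -/
def ene {n : ℕ} (i : Idx n) : ℝ := -(kap i.1.1) ^ 2

theorem orb_mem {n : ℕ} (i : Idx n) : orb i ∈ WW := JJ_mem _ _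

theorem orb_eq {n : ℕ} (i : Idx n) : ∀ u ∈ WW, fT u (orb i) - fC u (orb i) = ene i * fA u (orb i) := by
  intro u hu
  have h1 := weak_eq (kap_pos i.1.1) (orbP i.1.1 i.2) u hu
  have h2 := (mem_EE.1 (orbP_mem i.1.1 i.2)).2
  have h3 : 2 * kap i.1.1 * ((i.1.1 + 1 : ℕ) : ℝ) = 1 := by
    push_cast
    exact kap_eq i.1.1
  rw [h3, one_smul] at h2
  rw [h2] at h1
  unfold orb ene
  linarith

theorem ene_lt {n : ℕ} {i j : Idx n} (h : i.1.1 < j.1.1) : ene i < ene j := by
  unfold ene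
  have h1 := kap_lt h
  have h2 := kap_pos j.1.1
  nlinarith

theorem orb_orth {n : ℕ} (i j : Idx n) : fA (orb i) (orb j) = if i = j then 1 else 0 := by
  rcases i with ⟨⟨k, hk⟩, a⟩
  rcases j with ⟨⟨l, hl⟩, b⟩
  rcases lt_trichotomy k l with h | h | h
  · rw [if_neg (by
      intro h2
      have h3 := congrArg (fun z : Idx n => z.1.1) h2
      exact h.ne h3)]
    have e1 := orb_eq (⟨⟨l, hl⟩, b⟩ : Idx n) _ (orb_mem (⟨⟨k, hk⟩, a⟩ : Idx n))
    have e2 := orb_eq (⟨⟨k, hk⟩, a⟩ : Idx n) _ (orb_mem (⟨⟨l, hl⟩, b⟩ : Idx n))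
    rw [fT_symm, fC_symm, fA_symm] at e2
    have e3 := ene_lt (i := (⟨⟨k, hk⟩, a⟩ : Idx n)) (j := ⟨⟨l, hl⟩, b⟩) h
    have e4 : (ene (⟨⟨k, hk⟩, a⟩ : Idx n) - ene (⟨⟨l, hl⟩, b⟩ : Idx n))
        * fA (orb (⟨⟨k, hk⟩, a⟩ : Idx n)) (orb (⟨⟨l, hl⟩, b⟩ : Idx n)) = 0 := by linarith
    rcases mul_eq_zero.1 e4 with h5 | h5
    · linarith
    · exact h5
  · subst h
    have e1 := orbP_orth k a b
    have e2 : fA (orb (⟨⟨k, hk⟩, a⟩ : Idx n)) (orb (⟨⟨k, hl⟩, b⟩ : Idx n))
        = if a = b then 1 else 0 := e1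
    rw [e2]
    by_cases hab : a = b
    · subst hab
      simp
    · rw [if_neg hab, if_neg]
      intro h2
      apply hab
      have h3 := (Sigma.mk.inj_iff.1 h2).2
      exact eq_of_heq h3
  · rw [if_neg (by
      intro h2
      have h3 := congrArg (fun z : Idx n => z.1.1) h2
      exact h.ne' h3)]
    have e1 := orb_eq (⟨⟨l, hl⟩, b⟩ : Idx n) _ (orb_mem (⟨⟨k, hk⟩, a⟩ : Idx n))
    have e2 := orb_eq (⟨⟨k, hk⟩, a⟩ : Idx n) _ (orb_mem (⟨⟨l, hl⟩, b⟩ : Idx n))
    rw [fT_symm, fC_symm, fA_symm] at e2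
    have e3 := ene_lt (i := (⟨⟨l, hl⟩, b⟩ : Idx n)) (j := ⟨⟨k, hk⟩, a⟩) h
    have e4 : (ene (⟨⟨k, hk⟩, a⟩ : Idx n) - ene (⟨⟨l, hl⟩, b⟩ : Idx n))
        * fA (orb (⟨⟨k, hk⟩, a⟩ : Idx n)) (orb (⟨⟨l, hl⟩, b⟩ : Idx n)) = 0 := by linarith
    rcases mul_eq_zero.1 e4 with h5 | h5
    · linarith
    · exact h5

/-- the form `T - C + b A` as a bilinear map -/
def Qb (b : ℝ) : HH →ₗ[ℝ] HH →ₗ[ℝ] ℝ :=
  LinearMap.mk₂ ℝ (fun u v => fT u v - fC u v + b * fA u v)
    (fun u v w => by rw [fT_add, fC_add, fA_add]; ring)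
    (fun c u v => by rw [fT_smul, fC_smul, fA_smul, smul_eq_mul]; ring)
    (fun u v w => by
      rw [fT_symm, fC_symm, fA_symm, fT_add, fC_add, fA_add, fT_symm v, fC_symm v, fA_symm v,
        fT_symm w, fC_symm w, fA_symm w]
      ring)
    (fun c u v => by
      rw [fT_symm, fC_symm, fA_symm, fT_smul, fC_smul, fA_smul, fT_symm v, fC_symm v, fA_symm v,
        smul_eq_mul]
      ring)

theorem Qb_apply (b : ℝ) (u v : HH) : Qb b u v = fT u v - fC u v + b * fA u v := rfl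

theorem Qb_symm (b : ℝ) (u v : HH) : Qb b u v = Qb b v u := by
  rw [Qb_apply, Qb_apply, fT_symm, fC_symm, fA_symm]

theorem Qb_orb (b : ℝ) {n : ℕ} (i : Idx n) {u : HH} (hu : u ∈ WW) :
    Qb b u (orb i) = (ene i + b) * fA u (orb i) := by
  rw [Qb_apply, orb_eq i u hu]
  ring

/-- the overlap as a bilinear map -/
def Ab : HH →ₗ[ℝ] HH →ₗ[ℝ] ℝ :=
  LinearMap.mk₂ ℝ fA fA_add (fun c u v => by rw [fA_smul, smul_eq_mul])
    (fun u v w => by rw [fA_symm, fA_add, fA_symm v, fA_symm w])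
    (fun c u v => by rw [fA_symm, fA_smul, fA_symm v, smul_eq_mul])

theorem Ab_apply (u v : HH) : Ab u v = fA u v := rfl

theorem comb_mem {n : ℕ} (c : Idx n → ℝ) : (∑ i, c i • orb i) ∈ WW :=
  Submodule.sum_mem _ fun i _ => Submodule.smul_mem _ _ (orb_mem i)

theorem comb_fA {n : ℕ} (c : Idx n → ℝ) (j : Idx n) : fA (∑ i, c i • orb i) (orb j) = c j := by
  rw [← Ab_apply, map_sum, LinearMap.sum_apply]
  simp only [map_smul, LinearMap.smul_apply, Ab_apply, orb_orth, smul_eq_mul]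
  simp

theorem comb_Qb (b : ℝ) {n : ℕ} (c : Idx n → ℝ) {u : HH} (hu : u ∈ WW) :
    Qb b u (∑ i, c i • orb i) = ∑ i, c i * ((ene i + b) * fA u (orb i)) := by
  rw [map_sum]
  refine Finset.sum_congr rfl fun i _ => ?_
  rw [map_smul, Qb_orb b i hu, smul_eq_mul]

/-- positivity on the complement of the orbitals -/
theorem compl_nonneg {n : ℕ} {g : HH} (hg : g ∈ WW) (ho : ∀ i : Idx n, fA g (orb i) = 0) :
    0 ≤ Qb (kap n ^ 2) g g := by
  by_contra hneg
  push Not at hneg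
  -- a nonzero combination that is orthogonal to the levels up to `n`
  let Ψ : (ℝ × (Idx n → ℝ)) →ₗ[ℝ] Module.Dual ℝ (VV n) :=
    { toFun := fun sc => LinearMap.mk₂ ℝ (fun (u : HH) (v : VV n) =>
          inner ℝ u.2.2 (J4 (kap_pos n) v.1))
        (fun u u' v => inner_add_left _ _ _) (fun c u v => real_inner_smul_left _ _ _)
        (fun u v v' => by rw [Submodule.coe_add, map_add, inner_add_right])
        (fun c u v => by rw [Submodule.coe_smul, map_smul, real_inner_smul_right, smul_eq_mul])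
        (sc.1 • g + ∑ i, sc.2 i • orb i)
      map_add' := fun a b => by
        rw [← map_add]
        congr 1
        simp only [Prod.fst_add, Prod.snd_add, Pi.add_apply, add_smul, Finset.sum_add_distrib]
        abel
      map_smul' := fun c a => by
        rw [RingHom.id_apply, ← map_smul]
        congr 1
        simp only [Prod.smul_fst, Prod.smul_snd, Pi.smul_apply, smul_eq_mul, mul_smul,
          smul_add, Finset.smul_sum] }
  have hΨ : ∀ sc v, Ψ sc v = inner ℝ (sc.1 • g + ∑ i, sc.2 i • orb i).2.2 (J4 (kap_pos n) v.1) :=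
    fun _ _ => rfl
  have hrank : Module.finrank ℝ (Module.Dual ℝ (VV n)) < Module.finrank ℝ (ℝ × (Idx n → ℝ)) := by
    rw [Subspace.dual_finrank_eq, finrank_VV_eq, Module.finrank_prod, Module.finrank_self,
      Module.finrank_fintype_fun_eq_card, card_Idx]
    omega
  have hker := LinearMap.ker_ne_bot_of_finrank_lt (f := Ψ) hrank
  obtain ⟨sc, hsc, hne⟩ := Submodule.exists_mem_ne_zero_of_ne_bot hker
  rw [LinearMap.mem_ker] at hsc
  set w : HH := ∑ i, sc.2 i • orb i with hw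
  have hwm : w ∈ WW := comb_mem sc.2
  set h : HH := sc.1 • g + w with hh
  have hhm : h ∈ WW := Submodule.add_mem _ (Submodule.smul_mem _ _ hg) hwm
  have hort : ∀ u ∈ VV n, inner ℝ h.2.2 (J4 (kap_pos n) u) = 0 := by
    intro u hu
    have h1 := hΨ sc ⟨u, hu⟩
    rw [hsc] at h1
    exact h1.symm
  have h1 := c_ineq (kap_pos n) n hhm hort
  rw [kap_eq n, one_mul] at h1
  have h2 : 0 ≤ Qb (kap n ^ 2) h h := by
    rw [Qb_apply]
    linarith
  have h3 : Qb (kap n ^ 2) g w = 0 := by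
    rw [hw, comb_Qb _ _ hg]
    apply Finset.sum_eq_zero
    intro i _
    rw [ho i]
    ring
  have h4 : Qb (kap n ^ 2) w w = ∑ i, (ene i + kap n ^ 2) * sc.2 i ^ 2 := by
    conv_lhs => rw [hw, comb_Qb _ _ (hw ▸ hwm)]
    refine Finset.sum_congr rfl fun i _ => ?_
    rw [comb_fA]
    ring
  have h5 : Qb (kap n ^ 2) h h = sc.1 ^ 2 * Qb (kap n ^ 2) g g + Qb (kap n ^ 2) w w := by
    rw [hh]
    simp only [map_add, LinearMap.add_apply, map_smul, LinearMap.smul_apply, smul_eq_mul]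
    rw [Qb_symm _ w g, h3]
    ring
  have hen : ∀ i : Idx n, ene i + kap n ^ 2 < 0 := by
    intro i
    unfold ene
    have e1 := kap_lt i.1.2
    have e2 := kap_pos n
    nlinarith
  have h6 : Qb (kap n ^ 2) w w ≤ 0 := by
    rw [h4]
    exact Finset.sum_nonpos fun i _ => mul_nonpos_of_nonpos_of_nonneg (hen i).le (sq_nonneg _)
  have h7 : sc.1 ^ 2 * Qb (kap n ^ 2) g g ≤ 0 :=
    mul_nonpos_of_nonneg_of_nonpos (sq_nonneg _) hneg.le
  have h8 : sc.1 ^ 2 * Qb (kap n ^ 2) g g = 0 := by linarith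
  have h9 : Qb (kap n ^ 2) w w = 0 := by linarith
  have h10 : sc.1 = 0 := by
    rcases mul_eq_zero.1 h8 with h11 | h11
    · exact pow_eq_zero_iff two_ne_zero |>.1 h11
    · exact (hneg.ne h11).elim
  have h11 : ∀ i, sc.2 i = 0 := by
    intro i
    by_contra hi
    rw [h4] at h9
    have h12 : ∑ i, (ene i + kap n ^ 2) * sc.2 i ^ 2 < 0 := by
      apply Finset.sum_neg' (fun i _ => mul_nonpos_of_nonpos_of_nonneg (hen i).le (sq_nonneg _))
      exact ⟨i, Finset.mem_univ i, mul_neg_of_neg_of_pos (hen i) (by positivity)⟩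
    linarith
  exact hne (Prod.ext h10 (funext h11))

/-- the lower bound for one electron -/
theorem one_body {n : ℕ} {u : HH} (hu : u ∈ WW) :
    (∑ i : Idx n, (ene i + kap n ^ 2) * (fA u (orb i)) ^ 2) - kap n ^ 2 * fA u u
      ≤ fT u u - fC u u := by
  set c : Idx n → ℝ := fun i => fA u (orb i) with hc
  set w : HH := ∑ i, c i • orb i with hw
  have hwm : w ∈ WW := comb_mem c
  have hg : u - w ∈ WW := Submodule.sub_mem _ hu hwm
  have ho : ∀ i : Idx n, fA (u - w) (orb i) = 0 := by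
    intro i
    rw [← Ab_apply, map_sub, LinearMap.sub_apply, Ab_apply, Ab_apply, hw, comb_fA]
    simp [hc]
  have h1 := compl_nonneg hg ho
  have h2 : Qb (kap n ^ 2) u w = ∑ i, (ene i + kap n ^ 2) * c i ^ 2 := by
    rw [hw, comb_Qb _ _ hu]
    refine Finset.sum_congr rfl fun i _ => ?_
    show c i * ((ene i + kap n ^ 2) * c i) = _
    ring
  have h3 : Qb (kap n ^ 2) w w = ∑ i, (ene i + kap n ^ 2) * c i ^ 2 := by
    conv_lhs => rw [hw, comb_Qb _ _ (hw ▸ hwm)]
    refine Finset.sum_congr rfl fun i _ => ?_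
    rw [comb_fA]
    ring
  have h4 : Qb (kap n ^ 2) (u - w) (u - w) = Qb (kap n ^ 2) u u - 2 * Qb (kap n ^ 2) u w
      + Qb (kap n ^ 2) w w := by
    simp only [map_sub, LinearMap.sub_apply]
    rw [Qb_symm _ w u]
    ring
  rw [h4, h2, h3, Qb_apply] at h1
  show (∑ i : Idx n, (ene i + kap n ^ 2) * (c i) ^ 2) - kap n ^ 2 * fA u u ≤ fT u u - fC u u
  linarith

/-- Bessel inequality -/
theorem bessel {n : ℕ} (u : HH) : ∑ i : Idx n, (fA u (orb i)) ^ 2 ≤ fA u u := by
  set c : Idx n → ℝ := fun i => fA u (orb i) with hc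
  set w : HH := ∑ i, c i • orb i with hw
  have h1 := fA_nonneg (u - w)
  have h2 : fA u w = ∑ i, c i ^ 2 := by
    rw [hw, ← Ab_apply, map_sum]
    refine Finset.sum_congr rfl fun i _ => ?_
    rw [map_smul, Ab_apply, smul_eq_mul]
    show c i * c i = _
    ring
  have h3 : fA w w = ∑ i, c i ^ 2 := by
    conv_lhs => rw [hw, ← Ab_apply, map_sum]
    refine Finset.sum_congr rfl fun i _ => ?_
    rw [map_smul, Ab_apply, smul_eq_mul, comb_fA]
    ring
  rw [fA_sub_self, h2, h3] at h1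
  show ∑ i, c i ^ 2 ≤ _
  linarith

end Pool.Agent.Lib.CX.Sh
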