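import Mathlib
import Pool.Agent.Lib.CX.Basic
import Pool.Agent.Lib.CX.Integ
import Pool.Agent.Lib.CX.Slice
import Pool.Agent.Lib.CX.Perm
import Pool.Agent.Lib.CX.Bdd
import Pool.Agent.Lib.CX.Occ

/-! CX, closed shells: Pauli principle for an arbitrary orbital. -/

set_option autoImplicit false
set_option linter.unusedSectionVars false

open MeasureTheory Set

noncomputable section

namespace Pool.Agent.Lib.CX.Sh

open OccAux (exists_rad memLp_psi sign_mul_self)

/-- a normalised orbital -/
class Orb (φ : R3 → ℝ) : Prop where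
  cont : Continuous φ
  int : Integrable φ
  int_sq : Integrable (fun x => (φ x) ^ 2)
  one : ∫ x, (φ x) ^ 2 = 1

/-- occupation number of the orbital `φ ⊗ a` -/
def ocf (φ : R3 → ℝ) {n : ℕ} (ψ : (Fin (n + 1) → Fin 2) → X (n + 1) → ℝ) (a : Fin 2) : ℝ :=
  ∑ s : Fin n → Fin 2, ∫ y : X n,
    (∫ u : R3, φ u * ψ (Fin.cons a s : Fin (n + 1) → Fin 2) (Fin.cons u y : X (n + 1))) ^ 2

variable {n : ℕ} {φ : R3 → ℝ} [hφ : Orb φ]

/-- overlap in the slot `i` -/
def ov (φ : R3 → ℝ) (f : X n → ℝ) (i : Fin n) (x : X n) : ℝ :=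
  ∫ u : R3, φ u * f (Function.update x i u)

theorem ov_eq {f : X n → ℝ} {R : ℝ} (hR : ∀ x, (∃ j, R < ‖x j‖) → f x = 0) (i : Fin n)
    (x : X n) : ov φ f i x = ∫ u in Metric.closedBall (0 : R3) R, φ u * f (Function.update x i u) := by
  symm
  apply setIntegral_eq_integral_of_forall_compl_eq_zero
  intro u hu
  rw [hR, mul_zero]
  refine ⟨i, ?_⟩
  rw [Function.update_self]
  rw [mem_closedBall_zero_iff, not_le] at hu
  exact hu

theorem continuous_ov {f : X n → ℝ} (hf : Continuous f) (hc : HasCompactSupport f) (i : Fin n) :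
    Continuous (ov φ f i) := by
  obtain ⟨R, hR⟩ := exists_rad hc
  have h1 : ov φ f i = fun x => ∫ u in Metric.closedBall (0 : R3) R,
      φ u * f (Function.update x i u) := funext (ov_eq hR i)
  rw [h1]
  apply continuous_parametric_integral_of_continuous _ (isCompact_closedBall _ _)
  apply (hφ.cont.comp continuous_snd).mul
  exact hf.comp (continuous_fst.update i continuous_snd)

theorem ov_bound {f : X n → ℝ} (hf : Continuous f) (hc : HasCompactSupport f) (i : Fin n) :
    ∃ C, ∀ x, |ov φ f i x| ≤ C := by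
  obtain ⟨C, hC⟩ := hc.exists_bound_of_continuous hf
  refine ⟨∫ u, C * |φ u|, fun x => ?_⟩
  rw [← Real.norm_eq_abs]
  apply norm_integral_le_of_norm_le (hφ.int.abs.const_mul C)
  refine Filter.Eventually.of_forall fun u => ?_
  rw [norm_mul, Real.norm_eq_abs, mul_comm]
  exact mul_le_mul_of_nonneg_right (hC _) (abs_nonneg _)

/-- the projection on the orbital in the slot `i` -/
def pp (φ : R3 → ℝ) (a : Fin 2) (ψ : (Fin n → Fin 2) → X n → ℝ) (i : Fin n) (s : Fin n → Fin 2)
    (x : X n) : ℝ := if s i = a then φ (x i) * ov φ (ψ s) i x else 0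

theorem memLp_pp {a : Fin 2} {ψ : (Fin n → Fin 2) → X n → ℝ} (h : Adm n ψ) (i : Fin n)
    (s : Fin n → Fin 2) : MemLp (pp φ a ψ i s) 2 := by
  unfold pp
  by_cases hs : s i = a
  · have hf := (h.smooth s).continuous
    have hc := h.cpt s
    simp only [hs, if_true]
    have hcont : Continuous (fun x : X n => φ (x i) * ov φ (ψ s) i x) :=
      (hφ.cont.comp (continuous_apply i)).mul (continuous_ov hf hc i)
    rw [memLp_two_iff_integrable_sq hcont.aestronglyMeasurable]
    obtain ⟨R, hR⟩ := exists_rad hc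
    obtain ⟨C, hC⟩ := ov_bound (φ := φ) hf hc i
    let g : Fin n → R3 → ℝ := fun j =>
      if j = i then fun u => (φ u) ^ 2 else (Metric.closedBall (0 : R3) R).indicator 1
    have hg : Integrable (fun x : X n => ∏ j, g j (x j)) := by
      apply Integrable.fintype_prod
      intro j
      by_cases hj : j = i
      · simp only [g, hj, if_true]
        exact hφ.int_sq
      · simp only [g, hj, if_false]
        rw [integrable_indicator_iff measurableSet_closedBall]
        exact (continuous_const.continuousOn).integrableOn_compact (isCompact_closedBall _ _)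
    refine (hg.const_mul (C ^ 2)).mono' (hcont.pow 2).aestronglyMeasurable ?_
    refine Filter.Eventually.of_forall fun x => ?_
    rw [Real.norm_of_nonneg (sq_nonneg _), mul_pow]
    by_cases hx : ∀ j, j ≠ i → ‖x j‖ ≤ R
    · have h1 : ∏ j, g j (x j) = (φ (x i)) ^ 2 := by
        rw [Finset.prod_eq_single i]
        · simp only [g, if_true]
        · intro j _ hj
          simp only [g, hj, if_false]
          rw [Set.indicator_of_mem, Pi.one_apply]
          rw [mem_closedBall_zero_iff]
          exact hx j hj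
        · intro hi
          exact (hi (Finset.mem_univ i)).elim
      rw [h1, mul_comm]
      apply mul_le_mul_of_nonneg_right _ (sq_nonneg _)
      rw [← sq_abs]
      exact pow_le_pow_left₀ (abs_nonneg _) (hC x) 2
    · push Not at hx
      obtain ⟨j, hj, hjR⟩ := hx
      have h1 : ov φ (ψ s) i x = 0 := by
        unfold ov
        rw [← integral_zero R3 ℝ (μ := volume)]
        congr 1
        funext u
        rw [hR _ ⟨j, ?_⟩, mul_zero]
        rw [Function.update_of_ne hj]
        exact hjR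
      rw [h1]
      have h2 : 0 ≤ ∏ j, g j (x j) := by
        apply Finset.prod_nonneg
        intro k _
        by_cases hk : k = i
        · simp only [g, hk, if_true]
          exact sq_nonneg _
        · simp only [g, hk, if_false]
          exact Set.indicator_nonneg (fun _ _ => zero_le_one) _
      have h3 := mul_nonneg (sq_nonneg C) h2
      simpa using h3
  · simp only [hs, if_false]
    exact MemLp.zero

theorem pp_perm {a : Fin 2} {ψ : (Fin n → Fin 2) → X n → ℝ} (h : Adm n ψ) (i : Fin n)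
    (σ : Equiv.Perm (Fin n)) (s : Fin n → Fin 2) (x : X n) :
    pp φ a ψ i (s ∘ σ) (x ∘ σ) = (((Equiv.Perm.sign σ : ℤˣ) : ℤ) : ℝ) * pp φ a ψ (σ i) s x := by
  have h1 : ov φ (ψ (s ∘ σ)) i (x ∘ σ)
      = (((Equiv.Perm.sign σ : ℤˣ) : ℤ) : ℝ) * ov φ (ψ s) (σ i) x := by
    unfold ov
    rw [← integral_const_mul]
    congr 1
    funext u
    rw [mul_left_comm, ← h.anti σ s, Function.update_comp_eq_of_injective _ σ.injective]
  unfold pp
  simp only [Function.comp_apply]
  split_ifs with hs
  · rw [h1, mul_left_comm]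
  · rw [mul_zero]

/-- overlaps of the projections -/
def SS (φ : R3 → ℝ) (a : Fin 2) (ψ : (Fin n → Fin 2) → X n → ℝ) (i j : Fin n) : ℝ :=
  ∑ s, ∫ x, pp φ a ψ i s x * pp φ a ψ j s x

/-- overlaps with the projections -/
def TT (φ : R3 → ℝ) (a : Fin 2) (ψ : (Fin n → Fin 2) → X n → ℝ) (i : Fin n) : ℝ :=
  ∑ s, ∫ x, ψ s x * pp φ a ψ i s x

theorem SS_perm {a : Fin 2} {ψ : (Fin n → Fin 2) → X n → ℝ} (h : Adm n ψ) (i j : Fin n)
    (σ : Equiv.Perm (Fin n)) : SS φ a ψ (σ i) (σ j) = SS φ a ψ i j := by
  unfold SS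
  rw [← integral_perm σ (fun s x => pp φ a ψ i s x * pp φ a ψ j s x)]
  refine Finset.sum_congr rfl fun s _ => ?_
  congr 1
  funext x
  rw [pp_perm h, pp_perm h, mul_mul_mul_comm, sign_mul_self, one_mul]

theorem TT_perm {a : Fin 2} {ψ : (Fin n → Fin 2) → X n → ℝ} (h : Adm n ψ) (i : Fin n)
    (σ : Equiv.Perm (Fin n)) : TT φ a ψ (σ i) = TT φ a ψ i := by
  unfold TT
  rw [← integral_perm σ (fun s x => ψ s x * pp φ a ψ i s x)]
  refine Finset.sum_congr rfl fun s _ => ?_
  congr 1
  funext x
  rw [pp_perm h, h.anti, mul_mul_mul_comm, sign_mul_self, one_mul]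

/-- the overlap as a function of the remaining variables -/
def chi (φ : R3 → ℝ) (ψ : (Fin (n + 1) → Fin 2) → X (n + 1) → ℝ) (a : Fin 2) (s : Fin n → Fin 2) (y : X n) :
    ℝ := ∫ u : R3, φ u * ψ (Fin.cons a s : Fin (n + 1) → Fin 2) (Fin.cons u y : X (n + 1))

theorem pp_zero_cons (ψ : (Fin (n + 1) → Fin 2) → X (n + 1) → ℝ) (a b : Fin 2)
    (s : Fin n → Fin 2) (u : R3) (y : X n) :
    pp φ a ψ 0 (Fin.cons b s : Fin (n + 1) → Fin 2) (Fin.cons u y : X (n + 1))
      = if b = a then φ u * chi φ ψ a s y else 0 := by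
  unfold pp ov chi
  simp only [Fin.cons_zero, Fin.update_cons_zero]
  split_ifs with hb
  · rw [hb]
  · rfl

theorem int_TT {n : ℕ} {ψ : (Fin n → Fin 2) → X n → ℝ} (h : Adm n ψ) (a : Fin 2) (i : Fin n)
    (s : Fin n → Fin 2) : Integrable (fun x => ψ s x * pp φ a ψ i s x) :=
  (memLp_psi h s).integrable_mul (memLp_pp h i s)

theorem int_SS {n : ℕ} {ψ : (Fin n → Fin 2) → X n → ℝ} (h : Adm n ψ) (a : Fin 2) (i j : Fin n)
    (s : Fin n → Fin 2) : Integrable (fun x => pp φ a ψ i s x * pp φ a ψ j s x) :=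
  (memLp_pp h i s).integrable_mul (memLp_pp h j s)

theorem TT_zero {ψ : (Fin (n + 1) → Fin 2) → X (n + 1) → ℝ} (h : Adm (n + 1) ψ) (a : Fin 2) :
    TT φ a ψ 0 = ocf φ ψ a := by
  unfold TT ocf
  rw [sum_spin_cons, Finset.sum_eq_single a]
  · refine Finset.sum_congr rfl fun s _ => ?_
    rw [integral_cons_iter' (int_TT h a 0 _)]
    congr 1
    funext y
    simp only [pp_zero_cons, if_true]
    have h1 : ∀ u : R3, ψ (Fin.cons a s : Fin (n + 1) → Fin 2) (Fin.cons u y : X (n + 1))
        * (φ u * chi φ ψ a s y)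
        = chi φ ψ a s y * (φ u * ψ (Fin.cons a s : Fin (n + 1) → Fin 2) (Fin.cons u y)) := by
      intro u
      ring
    simp only [h1]
    rw [integral_const_mul]
    unfold chi
    ring
  · intro b _ hb
    apply Finset.sum_eq_zero
    intro s _
    rw [integral_cons_iter' (int_TT h a 0 _)]
    simp only [pp_zero_cons, hb, if_false, mul_zero, integral_zero]
  · intro ha
    exact (ha (Finset.mem_univ a)).elim

theorem SS_zero {ψ : (Fin (n + 1) → Fin 2) → X (n + 1) → ℝ} (h : Adm (n + 1) ψ) (a : Fin 2) :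
    SS φ a ψ 0 0 = ocf φ ψ a := by
  unfold SS ocf
  rw [sum_spin_cons, Finset.sum_eq_single a]
  · refine Finset.sum_congr rfl fun s _ => ?_
    rw [integral_cons_iter' (int_SS h a 0 0 _)]
    congr 1
    funext y
    simp only [pp_zero_cons, if_true]
    have h1 : ∀ u : R3, φ u * chi φ ψ a s y * (φ u * chi φ ψ a s y)
        = (chi φ ψ a s y) ^ 2 * (φ u) ^ 2 := by
      intro u
      ring
    simp only [h1]
    rw [integral_const_mul, hφ.one, mul_one]
    rfl
  · intro b _ hb
    apply Finset.sum_eq_zero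
    intro s _
    rw [integral_cons_iter' (int_SS h a 0 0 _)]
    simp only [pp_zero_cons, hb, if_false, mul_zero, integral_zero]
  · intro ha
    exact (ha (Finset.mem_univ a)).elim

/-- no two electrons in the same orbital -/
theorem double_zero {ψ : (Fin (n + 1) → Fin 2) → X (n + 1) → ℝ} (h : Adm (n + 1) ψ) (a : Fin 2)
    (s : Fin n → Fin 2) (j : Fin n) (hs : s j = a) (y : X n) :
    ∫ u : R3, ∫ v : R3, φ u * (φ v * ψ (Fin.cons a s : Fin (n + 1) → Fin 2)
      (Fin.cons u (Function.update y j v) : X (n + 1))) = 0 := by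
  set f : R3 → R3 → ℝ := fun u v => φ u * (φ v * ψ (Fin.cons a s : Fin (n + 1) → Fin 2)
      (Fin.cons u (Function.update y j v) : X (n + 1))) with hf
  have hanti : ∀ u v, f v u = - f u v := by
    intro u v
    have h1 := h.anti (Equiv.swap 0 j.succ) (Fin.cons a s : Fin (n + 1) → Fin 2)
      (Fin.cons u (Function.update y j v) : X (n + 1))
    have h2 : (Fin.cons a s : Fin (n + 1) → Fin 2) ∘ (Equiv.swap 0 j.succ)
        = (Fin.cons a s : Fin (n + 1) → Fin 2) := by
      funext i
      rw [Function.comp_apply]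
      rcases eq_or_ne i 0 with hi | hi
      · rw [hi, Equiv.swap_apply_left, Fin.cons_succ, Fin.cons_zero, hs]
      · rcases eq_or_ne i j.succ with hi' | hi'
        · rw [hi', Equiv.swap_apply_right, Fin.cons_succ, Fin.cons_zero, hs]
        · rw [Equiv.swap_apply_of_ne_of_ne hi hi']
    have h3 : (Fin.cons u (Function.update y j v) : X (n + 1)) ∘ (Equiv.swap 0 j.succ)
        = (Fin.cons v (Function.update y j u) : X (n + 1)) := by
      funext i
      rw [Function.comp_apply]
      rcases eq_or_ne i 0 with hi | hi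
      · rw [hi, Equiv.swap_apply_left, Fin.cons_succ, Fin.cons_zero, Function.update_self]
      · rcases eq_or_ne i j.succ with hi' | hi'
        · rw [hi', Equiv.swap_apply_right, Fin.cons_succ, Fin.cons_zero, Function.update_self]
        · rw [Equiv.swap_apply_of_ne_of_ne hi hi']
          obtain ⟨k, rfl⟩ := Fin.exists_succ_eq.mpr hi
          have hk : k ≠ j := fun hkj => hi' (by rw [hkj])
          rw [Fin.cons_succ, Fin.cons_succ, Function.update_of_ne hk, Function.update_of_ne hk]
    rw [h2, h3, Equiv.Perm.sign_swap (Fin.succ_ne_zero j).symm] at h1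
    simp only [hf, h1]
    push_cast
    ring
  have hcont : Continuous (Function.uncurry f) := by
    have h1 := (h.smooth (Fin.cons a s : Fin (n + 1) → Fin 2)).continuous
    have h2 : Continuous (fun p : R3 × R3 =>
        (Fin.cons p.1 (Function.update y j p.2) : X (n + 1))) := by
      apply continuous_pi
      intro i
      refine Fin.cases ?_ (fun k => ?_) i
      · simp only [Fin.cons_zero]
        exact continuous_fst
      · simp only [Fin.cons_succ]
        by_cases hk : k = j
        · subst hk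
          simp only [Function.update_self]
          exact continuous_snd
        · simp only [Function.update_of_ne hk]
          exact continuous_const
    exact (hφ.cont.comp continuous_fst).mul
      ((hφ.cont.comp continuous_snd).mul (h1.comp h2))
  have hcs : HasCompactSupport (Function.uncurry f) := by
    obtain ⟨R, hR⟩ := exists_rad (h.cpt (Fin.cons a s : Fin (n + 1) → Fin 2))
    apply HasCompactSupport.intro
      ((isCompact_closedBall (0 : R3) R).prod (isCompact_closedBall (0 : R3) R))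
    rintro ⟨u, v⟩ huv
    rw [Set.mem_prod, not_and_or, mem_closedBall_zero_iff, mem_closedBall_zero_iff, not_le,
      not_le] at huv
    show f u v = 0
    simp only [hf]
    rw [hR, mul_zero, mul_zero]
    rcases huv with h1 | h1
    · exact ⟨0, by rw [Fin.cons_zero]; exact h1⟩
    · exact ⟨j.succ, by rw [Fin.cons_succ, Function.update_self]; exact h1⟩
  have hint : Integrable (Function.uncurry f) := hcont.integrable_of_hasCompactSupport hcs
  have h1 := integral_integral_swap hint
  have h2 : ∫ (y : R3), ∫ (x : R3), f x y = - ∫ (x : R3), ∫ (y : R3), f x y := by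
    rw [← integral_neg]
    congr 1
    funext u
    rw [← integral_neg]
    congr 1
    funext v
    exact hanti u v
  show ∫ (x : R3), ∫ (y : R3), f x y = 0
  rw [h2] at h1
  linarith

theorem SS_off {ψ : (Fin (n + 1) → Fin 2) → X (n + 1) → ℝ} (h : Adm (n + 1) ψ) (a : Fin 2)
    (j : Fin n) : SS φ a ψ 0 j.succ = 0 := by
  unfold SS
  rw [sum_spin_cons]
  apply Finset.sum_eq_zero
  intro b _
  apply Finset.sum_eq_zero
  intro s _
  rw [integral_cons_iter' (int_SS h a 0 j.succ _)]
  simp only [pp_zero_cons]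
  by_cases hb : b = a
  · subst hb
    simp only [if_true]
    unfold pp ov
    simp only [Fin.cons_succ]
    by_cases hs : s j = b
    · simp only [hs, if_true]
      rw [← integral_zero (X n) ℝ (μ := volume)]
      congr 1
      funext y
      have h1 : ∀ u : R3, φ u * chi φ ψ b s y * (φ (y j) * ∫ v : R3, φ v *
          ψ (Fin.cons b s : Fin (n + 1) → Fin 2)
            (Function.update (Fin.cons u y : X (n + 1)) j.succ v))
          = chi φ ψ b s y * φ (y j) * ∫ v : R3, φ u * (φ v *
          ψ (Fin.cons b s : Fin (n + 1) → Fin 2)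
            (Fin.cons u (Function.update y j v) : X (n + 1))) := by
        intro u
        rw [integral_const_mul]
        have h2 : ∀ v : R3, (Function.update (Fin.cons u y : X (n + 1)) j.succ v)
            = (Fin.cons u (Function.update y j v) : X (n + 1)) := fun v =>
          (Fin.cons_update (α := fun _ => R3) u y j v).symm
        simp only [h2]
        ring
      simp only [h1]
      rw [integral_const_mul, double_zero h b s j hs y, mul_zero]
    · simp only [hs, if_false, mul_zero, integral_zero]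
  · simp only [hb, if_false, zero_mul, integral_zero]

theorem SS_ne {ψ : (Fin (n + 1) → Fin 2) → X (n + 1) → ℝ} (h : Adm (n + 1) ψ) (a : Fin 2)
    (i j : Fin (n + 1)) (hij : i ≠ j) : SS φ a ψ i j = 0 := by
  have h1 := SS_perm (φ := φ) (a := a) h i j (Equiv.swap i 0)
  rw [Equiv.swap_apply_left] at h1
  have h2 : (Equiv.swap i 0) j ≠ 0 := by
    intro h3
    apply hij
    have h4 : (Equiv.swap i 0) j = (Equiv.swap i 0) i := by rw [h3, Equiv.swap_apply_left]
    exact ((Equiv.swap i 0).injective h4).symm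
  obtain ⟨k, hk⟩ := Fin.exists_succ_eq.mpr h2
  rw [← hk, SS_off h] at h1
  exact h1.symm

theorem SS_diag {ψ : (Fin (n + 1) → Fin 2) → X (n + 1) → ℝ} (h : Adm (n + 1) ψ) (a : Fin 2)
    (i : Fin (n + 1)) : SS φ a ψ i i = ocf φ ψ a := by
  have h1 := SS_perm (φ := φ) (a := a) h i i (Equiv.swap i 0)
  rw [Equiv.swap_apply_left, SS_zero h] at h1
  exact h1.symm

theorem TT_all {ψ : (Fin (n + 1) → Fin 2) → X (n + 1) → ℝ} (h : Adm (n + 1) ψ) (a : Fin 2)
    (i : Fin (n + 1)) : TT φ a ψ i = ocf φ ψ a := by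
  have h1 := TT_perm (φ := φ) (a := a) h i (Equiv.swap i 0)
  rw [Equiv.swap_apply_left, TT_zero h] at h1
  exact h1.symm

/-- Pauli principle -/
theorem ocf_le_gen {ψ : (Fin (n + 1) → Fin 2) → X (n + 1) → ℝ} (h : Adm (n + 1) ψ) (a : Fin 2) :
    ((n + 1 : ℕ) : ℝ) * ocf φ ψ a ≤ nrm ψ := by
  have h0 : 0 ≤ ∑ s, ∫ x, (ψ s x - ∑ i, pp φ a ψ i s x) ^ 2 :=
    Finset.sum_nonneg fun s _ => integral_nonneg fun x => sq_nonneg _
  have h1 : ∀ s, ∫ x, (ψ s x - ∑ i, pp φ a ψ i s x) ^ 2
      = (∫ x, (ψ s x) ^ 2) - 2 * (∑ i, ∫ x, ψ s x * pp φ a ψ i s x)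
        + ∑ i, ∑ j, ∫ x, pp φ a ψ i s x * pp φ a ψ j s x := by
    intro s
    have e1 : Integrable (fun x => (ψ s x) ^ 2) := (memLp_psi h s).integrable_sq
    have e2 : ∀ i, Integrable (fun x => ψ s x * pp φ a ψ i s x) := fun i =>
      (memLp_psi h s).integrable_mul (memLp_pp h i s)
    have e3 : ∀ i j, Integrable (fun x => pp φ a ψ i s x * pp φ a ψ j s x) := fun i j =>
      (memLp_pp h i s).integrable_mul (memLp_pp h j s)
    rw [← integral_finsetSum _ (fun i _ => e2 i), ← integral_const_mul]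
    have e4 : ∀ i, ∑ j, ∫ x, pp φ a ψ i s x * pp φ a ψ j s x
        = ∫ x, ∑ j, pp φ a ψ i s x * pp φ a ψ j s x := fun i =>
      (integral_finsetSum _ (fun j _ => e3 i j)).symm
    simp only [e4]
    rw [← integral_finsetSum _ (fun i _ => integrable_finsetSum _ (fun j _ => e3 i j)),
      ← integral_sub e1 ((integrable_finsetSum _ (fun i _ => e2 i)).const_mul 2)]
    have e6 : Integrable (fun x => (ψ s x) ^ 2 - 2 * ∑ i, ψ s x * pp φ a ψ i s x) :=
      e1.sub ((integrable_finsetSum _ (fun i _ => e2 i)).const_mul 2)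
    have e7 : Integrable (fun x => ∑ i, ∑ j, pp φ a ψ i s x * pp φ a ψ j s x) :=
      integrable_finsetSum _ (fun i _ => integrable_finsetSum _ (fun j _ => e3 i j))
    rw [← integral_add e6 e7]
    congr 1
    funext x
    have e5 : ∑ i, ∑ j, pp φ a ψ i s x * pp φ a ψ j s x = (∑ i, pp φ a ψ i s x) ^ 2 := by
      rw [pow_two, Finset.sum_mul_sum]
    rw [e5, ← Finset.mul_sum]
    ring
  simp only [h1] at h0
  rw [Finset.sum_add_distrib, Finset.sum_sub_distrib, ← Finset.mul_sum,
    Finset.sum_comm (f := fun s i => ∫ x, ψ s x * pp φ a ψ i s x)] at h0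
  have h2 : ∑ i, ∑ s, ∫ x, ψ s x * pp φ a ψ i s x = ((n + 1 : ℕ) : ℝ) * ocf φ ψ a := by
    have h3 : ∀ i, ∑ s, ∫ x, ψ s x * pp φ a ψ i s x = ocf φ ψ a := fun i => TT_all h a i
    simp only [h3]
    rw [Finset.sum_const, Finset.card_univ, Fintype.card_fin, nsmul_eq_mul]
  have h4 : ∑ s, ∑ i, ∑ j, ∫ x, pp φ a ψ i s x * pp φ a ψ j s x = ((n + 1 : ℕ) : ℝ) * ocf φ ψ a := by
    rw [Finset.sum_comm]
    have h5 : ∀ i, ∑ s, ∑ j, ∫ x, pp φ a ψ i s x * pp φ a ψ j s x = ocf φ ψ a := by
      intro i
      rw [Finset.sum_comm, Finset.sum_eq_single i]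
      · exact SS_diag h a i
      · intro j _ hj
        exact SS_ne h a i j hj.symm
      · intro hi
        exact (hi (Finset.mem_univ i)).elim
    simp only [h5]
    rw [Finset.sum_const, Finset.card_univ, Fintype.card_fin, nsmul_eq_mul]
  rw [h2, h4] at h0
  unfold nrm
  linarith


end Pool.Agent.Lib.CX.Sh
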