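import Mathlib
import Pool.Agent.Lib.CX.Basic
import Pool.Agent.Lib.CX.Integ
import Pool.Agent.Lib.CX.Slice
import Pool.Agent.Lib.CX.Bdd
import Pool.Agent.Lib.CX.Three
import Pool.Agent.Lib.CX.Mono
import Pool.Agent.Lib.CX.ShH
import Pool.Agent.Lib.CX.ShI

/-! CX, closed shells: lower bounds for free electrons. -/

set_option autoImplicit false

open MeasureTheory Set Filter Topology

noncomputable section

namespace Pool.Agent.Lib.CX.Sh

instance orb_orf {n : ℕ} (i : Idx n) : Orb (orf i) where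
  cont := continuous_ev _ _ _
  int := by
    obtain ⟨C, hC, h⟩ := ev_bound (kap_pos i.1.1) (orbP i.1.1 i.2)
    have h1 := (int_exp0 (a := kap i.1.1 / 2) (by have := kap_pos i.1.1; positivity)).const_mul C
    exact h1.mono' (continuous_ev _ _ _).aestronglyMeasurable
      (Eventually.of_forall fun x => h 0 ⟨le_rfl, zero_le_one⟩ x)
  int_sq := (memLp_ev (kap_pos i.1.1) (orbP i.1.1 i.2)).integrable_sq
  one := by
    have h1 := orb_orth i i
    rw [if_pos rfl] at h1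
    have h2 : fA (orb i) (orb i) = ∫ x, orf i x * orf i x :=
      ip_toLp (memLp_ev (kap_pos i.1.1) (orbP i.1.1 i.2)) (memLp_ev (kap_pos i.1.1) (orbP i.1.1 i.2))
    rw [h2] at h1
    rw [← h1]
    refine integral_congr_ae (Eventually.of_forall fun x => ?_)
    show orf i x ^ 2 = orf i x * orf i x
    ring

theorem fA_Ph {n : ℕ} (f : TF) (i : Idx n) :
    fA (Ph f) (orb i) = ∫ x, orf i x * (f : R3 → ℝ) x := by
  have h2 : fA (Ph f) (orb i) = ∫ x, (f : R3 → ℝ) x * orf i x :=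
    ip_toLp (memLp_TF f) (memLp_ev (kap_pos i.1.1) (orbP i.1.1 i.2))
  rw [h2]
  refine integral_congr_ae (Eventually.of_forall fun x => ?_)
  show (f : R3 → ℝ) x * orf i x = orf i x * (f : R3 → ℝ) x
  ring

theorem fA_Ph_self (f : TF) : fA (Ph f) (Ph f) = ∫ x, ((f : R3 → ℝ) x) ^ 2 := by
  have h2 : fA (Ph f) (Ph f) = ∫ x, (f : R3 → ℝ) x * (f : R3 → ℝ) x :=
    ip_toLp (memLp_TF f) (memLp_TF f)
  rw [h2]
  refine integral_congr_ae (Eventually.of_forall fun x => ?_)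
  show (f : R3 → ℝ) x * (f : R3 → ℝ) x = ((f : R3 → ℝ) x) ^ 2
  ring

theorem fT_Ph_self (f : TF) : fT (Ph f) (Ph f) = ∫ x, gsq (f : R3 → ℝ) x := by
  unfold fT gsq
  have h2 : ∀ k, inner ℝ ((Ph f).2.1 k) ((Ph f).2.1 k) = ∫ x, td k f x * td k f x :=
    fun k => ip_toLp (memLp_td k f) (memLp_td k f)
  simp only [h2]
  have i1 : ∀ k ∈ (Finset.univ : Finset (Fin 3)), Integrable (fun x => td k f x * td k f x) :=
    fun k _ => (memLp_td k f).integrable_mul (memLp_td k f)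
  rw [← integral_finsetSum _ i1]
  refine integral_congr_ae (Eventually.of_forall fun x => ?_)
  refine Finset.sum_congr rfl fun k _ => ?_
  show fderiv ℝ (f : R3 → ℝ) x (e3 k) * fderiv ℝ (f : R3 → ℝ) x (e3 k) = _
  ring

theorem fC_Ph_self (f : TF) : fC (Ph f) (Ph f) = ∫ x, 1 / ‖x‖ * ((f : R3 → ℝ) x) ^ 2 := by
  have h2 : fC (Ph f) (Ph f) = ∫ x, (wt x * (f : R3 → ℝ) x) * (wt x * (f : R3 → ℝ) x) :=
    ip_toLp (memLp_wtTF f) (memLp_wtTF f)
  rw [h2]
  refine integral_congr_ae (Eventually.of_forall fun x => ?_)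
  show (wt x * (f : R3 → ℝ) x) * (wt x * (f : R3 → ℝ) x) = 1 / ‖x‖ * ((f : R3 → ℝ) x) ^ 2
  rw [← wt_sq]
  ring

/-- the one-electron bound for functions -/
theorem one_body_fun (n : ℕ) (f : TF) :
    (∑ i : Idx n, (ene i + kap n ^ 2) * (∫ x, orf i x * (f : R3 → ℝ) x) ^ 2)
      - kap n ^ 2 * (∫ x, ((f : R3 → ℝ) x) ^ 2) ≤ qh (f : R3 → ℝ) := by
  have h1 := one_body (n := n) (Ph_mem f)
  rw [fA_Ph_self, fT_Ph_self, fC_Ph_self] at h1
  simp only [fA_Ph] at h1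
  exact h1

theorem bessel_fun (n : ℕ) (f : TF) :
    ∑ i : Idx n, (∫ x, orf i x * (f : R3 → ℝ) x) ^ 2 ≤ ∫ x, ((f : R3 → ℝ) x) ^ 2 := by
  have h1 := bessel (n := n) (Ph f)
  rw [fA_Ph_self] at h1
  simp only [fA_Ph] at h1
  exact h1

variable {m : ℕ}

/-- a slice as a test function -/
def slT {ψ : (Fin (m + 1) → Fin 2) → X (m + 1) → ℝ} (h : Adm (m + 1) ψ) (a : Fin 2)
    (s : Fin m → Fin 2) (y : X m) : TF :=
  ⟨ThreeAux.sl ψ a s y, smooth_slice (h.smooth _) y, ThreeAux.cs_sl h a s y⟩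

theorem int_chi {ψ : (Fin (m + 1) → Fin 2) → X (m + 1) → ℝ} (h : Adm (m + 1) ψ) (a : Fin 2)
    (s : Fin m → Fin 2) (φ : R3 → ℝ) [hφ : Orb φ] :
    Integrable (fun y => (chi φ ψ a s y) ^ 2) := by
  have i7 := (integrable_cons (int_SS (φ := φ) h a 0 0
    (Fin.cons a s : Fin (m + 1) → Fin 2))).integral_prod_right
  have e7 : (fun y : X m => ∫ u : R3, pp φ a ψ 0 (Fin.cons a s : Fin (m + 1) → Fin 2)
      (Fin.cons u y : X (m + 1))
      * pp φ a ψ 0 (Fin.cons a s : Fin (m + 1) → Fin 2) (Fin.cons u y : X (m + 1)))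
      = fun y => (chi φ ψ a s y) ^ 2 := by
    funext y
    simp only [pp_zero_cons, if_true]
    have h1 : ∀ u : R3, φ u * chi φ ψ a s y * (φ u * chi φ ψ a s y)
        = (chi φ ψ a s y) ^ 2 * (φ u) ^ 2 := by
      intro u
      ring
    simp only [h1]
    rw [integral_const_mul, hφ.one, mul_one]
  rw [← e7]
  exact i7

/-- the form of particle `0` for one slice of the spins -/
theorem form_slice' (n : ℕ) {ψ : (Fin (m + 1) → Fin 2) → X (m + 1) → ℝ} (h : Adm (m + 1) ψ)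
    (a : Fin 2) (s : Fin m → Fin 2) :
    (∑ i : Idx n, (ene i + kap n ^ 2) * (∫ y : X m, (chi (orf i) ψ a s y) ^ 2))
      - kap n ^ 2 * (∫ x, (ψ (Fin.cons a s : Fin (m + 1) → Fin 2) x) ^ 2)
      ≤ (∫ x, kinp (ψ (Fin.cons a s : Fin (m + 1) → Fin 2)) 0 x)
        - ∫ x : X (m + 1), 1 / ‖x 0‖ * (ψ (Fin.cons a s : Fin (m + 1) → Fin 2) x) ^ 2 := by
  set t : Fin (m + 1) → Fin 2 := Fin.cons a s with ht
  have i1 := ThreeAux.int_kinp h 0 t
  have i2 := ThreeAux.int_att h 0 t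
  have i3 : Integrable (fun x => (ψ t x) ^ 2) := (OccAux.memLp_psi h t).integrable_sq
  have i4 : Integrable (fun x => kinp (ψ t) 0 x - 1 / ‖x 0‖ * (ψ t x) ^ 2) := i1.sub i2
  have i5 := (integrable_cons i4).integral_prod_right
  have i6 := (integrable_cons i3).integral_prod_right
  have i8 : ∀ i : Idx n, Integrable (fun y => (ene i + kap n ^ 2) * (chi (orf i) ψ a s y) ^ 2) :=
    fun i => (int_chi h a s (orf i)).const_mul _
  have i9 : Integrable (fun y => ∑ i : Idx n, (ene i + kap n ^ 2) * (chi (orf i) ψ a s y) ^ 2) :=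
    integrable_finsetSum _ fun i _ => i8 i
  have e9 : (∑ i : Idx n, (ene i + kap n ^ 2) * (∫ y : X m, (chi (orf i) ψ a s y) ^ 2))
      = ∫ y : X m, ∑ i : Idx n, (ene i + kap n ^ 2) * (chi (orf i) ψ a s y) ^ 2 := by
    rw [integral_finsetSum _ fun i _ => i8 i]
    exact Finset.sum_congr rfl fun i _ => (integral_const_mul _ _).symm
  rw [e9, ← integral_sub i1 i2, integral_cons_iter' i4, integral_cons_iter' i3,
    ← integral_const_mul, ← integral_sub i9 (i6.const_mul _)]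
  apply integral_mono (i9.sub (i6.const_mul _)) i5
  intro y
  have h1 := one_body_fun n (slT h a s y)
  have hf := ThreeAux.contDiff_sl h a s y
  have hc := ThreeAux.cs_sl h a s y
  have h2 : qh (slT h a s y : R3 → ℝ) = ∫ u : R3, (kinp (ψ t) 0 (Fin.cons u y : X (m + 1))
      - 1 / ‖(Fin.cons u y : X (m + 1)) 0‖ * (ψ t (Fin.cons u y : X (m + 1))) ^ 2) := by
    show qh (ThreeAux.sl ψ a s y) = _
    unfold qh
    rw [← integral_sub (ThreeAux.int_gsq hf hc) (ThreeAux.int_inv_sq hf hc)]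
    congr 1
    funext u
    rw [ThreeAux.gsq_sl h, Fin.cons_zero]
    rfl
  rw [h2] at h1
  exact h1

theorem form_zero' (n : ℕ) {ψ : (Fin (m + 1) → Fin 2) → X (m + 1) → ℝ} (h : Adm (m + 1) ψ) :
    (∑ i : Idx n, (ene i + kap n ^ 2) * (ocf (orf i) ψ 0 + ocf (orf i) ψ 1))
      - kap n ^ 2 * nrm ψ
      ≤ (∑ s, ∫ x, kinp (ψ s) 0 x) - ∑ s, ∫ x : X (m + 1), 1 / ‖x 0‖ * (ψ s x) ^ 2 := by
  have h1 : (∑ i : Idx n, (ene i + kap n ^ 2) * (ocf (orf i) ψ 0 + ocf (orf i) ψ 1))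
      - kap n ^ 2 * nrm ψ
      = ∑ a : Fin 2, ∑ s : Fin m → Fin 2,
        ((∑ i : Idx n, (ene i + kap n ^ 2) * (∫ y : X m, (chi (orf i) ψ a s y) ^ 2))
      - kap n ^ 2 * (∫ x, (ψ (Fin.cons a s : Fin (m + 1) → Fin 2) x) ^ 2)) := by
    have h2 : ∀ (i : Idx n) a, ocf (orf i) ψ a
        = ∑ s : Fin m → Fin 2, ∫ y : X m, (chi (orf i) ψ a s y) ^ 2 := fun _ _ => rfl
    unfold nrm
    rw [sum_spin_cons, Fin.sum_univ_two, Fin.sum_univ_two, Finset.sum_sub_distrib,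
      Finset.sum_sub_distrib, ← Finset.mul_sum, ← Finset.mul_sum]
    have h3 : ∀ a : Fin 2, ∑ s : Fin m → Fin 2, ∑ i : Idx n, (ene i + kap n ^ 2) *
        (∫ y : X m, (chi (orf i) ψ a s y) ^ 2)
        = ∑ i : Idx n, (ene i + kap n ^ 2) * ocf (orf i) ψ a := by
      intro a
      rw [Finset.sum_comm]
      refine Finset.sum_congr rfl fun i _ => ?_
      rw [h2, Finset.mul_sum]
    rw [h3, h3]
    have h4 : (∑ i : Idx n, (ene i + kap n ^ 2) * (ocf (orf i) ψ 0 + ocf (orf i) ψ 1))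
        = (∑ i : Idx n, (ene i + kap n ^ 2) * ocf (orf i) ψ 0)
          + ∑ i : Idx n, (ene i + kap n ^ 2) * ocf (orf i) ψ 1 := by
      rw [← Finset.sum_add_distrib]
      exact Finset.sum_congr rfl fun i _ => by ring
    rw [h4]
    ring
  rw [h1, ← Finset.sum_sub_distrib, sum_spin_cons]
  exact Finset.sum_le_sum fun a _ => Finset.sum_le_sum fun s _ => form_slice' n h a s

theorem bessel_zero (n : ℕ) {ψ : (Fin (m + 1) → Fin 2) → X (m + 1) → ℝ} (h : Adm (m + 1) ψ) :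
    ∑ i : Idx n, (ocf (orf i) ψ 0 + ocf (orf i) ψ 1) ≤ nrm ψ := by
  have hslice : ∀ (a : Fin 2) (s : Fin m → Fin 2),
      ∑ i : Idx n, (∫ y : X m, (chi (orf i) ψ a s y) ^ 2)
        ≤ ∫ x, (ψ (Fin.cons a s : Fin (m + 1) → Fin 2) x) ^ 2 := by
    intro a s
    set t : Fin (m + 1) → Fin 2 := Fin.cons a s with ht
    have i3 : Integrable (fun x => (ψ t x) ^ 2) := (OccAux.memLp_psi h t).integrable_sq
    have i6 := (integrable_cons i3).integral_prod_right
    have i8 : ∀ i : Idx n, Integrable (fun y => (chi (orf i) ψ a s y) ^ 2) :=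
      fun i => int_chi h a s (orf i)
    rw [← integral_finsetSum _ fun i _ => i8 i, integral_cons_iter' i3]
    apply integral_mono (integrable_finsetSum _ fun i _ => i8 i) i6
    intro y
    exact bessel_fun n (slT h a s y)
  have h2 : ∀ (i : Idx n) a, ocf (orf i) ψ a
      = ∑ s : Fin m → Fin 2, ∫ y : X m, (chi (orf i) ψ a s y) ^ 2 := fun _ _ => rfl
  unfold nrm
  rw [sum_spin_cons, Fin.sum_univ_two, Finset.sum_add_distrib]
  simp only [h2]
  rw [Finset.sum_comm, Finset.sum_comm (γ := Idx n)]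
  exact add_le_add (Finset.sum_le_sum fun s _ => hslice 0 s)
    (Finset.sum_le_sum fun s _ => hslice 1 s)

theorem sum_ene (n : ℕ) : ∑ i : Idx n, ene i = -(n : ℝ) / 4 := by
  rw [Fintype.sum_sigma]
  have h1 : ∀ k : Fin n, ∑ j : Fin ((k.1 + 1) ^ 2), ene (⟨k, j⟩ : Idx n) = -(1 / 4) := by
    intro k
    show ∑ _j : Fin ((k.1 + 1) ^ 2), -(kap k.1) ^ 2 = _
    rw [Finset.sum_const, Finset.card_univ, Fintype.card_fin, nsmul_eq_mul]
    unfold kap
    push_cast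
    have : (k.1 : ℝ) + 1 ≠ 0 := by positivity
    field_simp
    norm_num
  rw [Finset.sum_congr rfl fun k _ => h1 k, Finset.sum_const, Finset.card_univ, Fintype.card_fin,
    nsmul_eq_mul]
  ring

/-- the number of electrons in `n` closed shells -/
def NN (n : ℕ) : ℕ := 2 * dd n

/-- the lower bound for free electrons -/
theorem free_lower (n : ℕ) {ψ : (Fin (m + 1) → Fin 2) → X (m + 1) → ℝ} (h : Adm (m + 1) ψ)
    (h1 : nrm ψ = 1) : ∃ x : Idx n → ℝ, (∀ i, 0 ≤ x i) ∧ (∀ i, x i ≤ 2) ∧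
      (∑ i, x i) ≤ (m + 1 : ℕ) ∧
      (∑ i, (ene i + kap n ^ 2) * x i) - kap n ^ 2 * ((m + 1 : ℕ) : ℝ) ≤ kin ψ - att ψ := by
  refine ⟨fun i => ((m + 1 : ℕ) : ℝ) * (ocf (orf i) ψ 0 + ocf (orf i) ψ 1), fun i => ?_,
    fun i => ?_, ?_, ?_⟩
  · have e1 : ∀ a, 0 ≤ ocf (orf i) ψ a := fun a =>
      Finset.sum_nonneg fun s _ => integral_nonneg fun y => sq_nonneg _
    have := e1 0
    have := e1 1
    positivity
  · have e1 := ocf_le_gen (φ := orf i) h 0
    have e2 := ocf_le_gen (φ := orf i) h 1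
    rw [h1] at e1 e2
    linarith
  · rw [← Finset.mul_sum]
    have e1 := bessel_zero n h
    rw [h1] at e1
    have e2 : (0 : ℝ) ≤ ((m + 1 : ℕ) : ℝ) := Nat.cast_nonneg _
    nlinarith
  · have e1 := form_zero' n h
    rw [ThreeAux.kin_eq h, ThreeAux.att_eq h]
    rw [h1, mul_one] at e1
    have e2 : (0 : ℝ) ≤ ((m + 1 : ℕ) : ℝ) := Nat.cast_nonneg _
    have e3 := mul_le_mul_of_nonneg_left e1 e2
    have e4 : ∑ i : Idx n, (ene i + kap n ^ 2) * (((m + 1 : ℕ) : ℝ) *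
        (ocf (orf i) ψ 0 + ocf (orf i) ψ 1)) = ((m + 1 : ℕ) : ℝ) *
        ∑ i : Idx n, (ene i + kap n ^ 2) * (ocf (orf i) ψ 0 + ocf (orf i) ψ 1) := by
      rw [Finset.mul_sum]
      exact Finset.sum_congr rfl fun i _ => by ring
    rw [e4]
    linarith

theorem ene_neg {n : ℕ} (i : Idx n) : ene i + kap n ^ 2 ≤ 0 := by
  unfold ene
  have e1 := kap_lt i.1.2
  have e2 := kap_pos n
  nlinarith

/-- lower bound with at least as many electrons as states -/
theorem free_lower_up (n : ℕ) {ψ : (Fin (m + 1) → Fin 2) → X (m + 1) → ℝ} (h : Adm (m + 1) ψ)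
    (h1 : nrm ψ = 1) :
    -(n : ℝ) / 2 + kap n ^ 2 * ((NN n : ℝ) - (m + 1 : ℕ)) ≤ kin ψ - att ψ := by
  obtain ⟨x, hx0, hx2, _, hx⟩ := free_lower n h h1
  refine le_trans ?_ hx
  have e1 : ∑ i : Idx n, (ene i + kap n ^ 2) * 2 ≤ ∑ i : Idx n, (ene i + kap n ^ 2) * x i :=
    Finset.sum_le_sum fun i _ => mul_le_mul_of_nonpos_left (hx2 i) (ene_neg i)
  rw [← Finset.sum_mul, Finset.sum_add_distrib, sum_ene, Finset.sum_const, Finset.card_univ,
    card_Idx, nsmul_eq_mul] at e1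
  unfold NN
  push_cast at e1 ⊢
  linarith

/-- lower bound with one electron less than the closed shells -/
theorem free_lower_down (n : ℕ) {ψ : (Fin (m + 1) → Fin 2) → X (m + 1) → ℝ} (h : Adm (m + 1) ψ)
    (h1 : nrm ψ = 1) (hm : m + 2 = NN (n + 1)) :
    -((n + 1 : ℕ) : ℝ) / 2 + kap n ^ 2 ≤ kin ψ - att ψ := by
  obtain ⟨x, hx0, hx2, hxs, hx⟩ := free_lower (n + 1) h h1
  refine le_trans ?_ hx
  have hle : ∀ i : Idx (n + 1), ene i + kap n ^ 2 ≤ 0 := by
    intro i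
    unfold ene
    have e1 := kap_le (Nat.lt_succ_iff.1 i.1.2)
    have e2 := kap_pos n
    nlinarith
  have e1 : ∑ i : Idx (n + 1), (ene i + kap n ^ 2) * 2
      ≤ ∑ i : Idx (n + 1), (ene i + kap n ^ 2) * x i :=
    Finset.sum_le_sum fun i _ => mul_le_mul_of_nonpos_left (hx2 i) (hle i)
  have e2 : ∑ i : Idx (n + 1), (ene i + kap (n + 1) ^ 2) * x i
      = (∑ i : Idx (n + 1), (ene i + kap n ^ 2) * x i)
        - (kap n ^ 2 - kap (n + 1) ^ 2) * ∑ i : Idx (n + 1), x i := by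
    rw [Finset.mul_sum, ← Finset.sum_sub_distrib]
    exact Finset.sum_congr rfl fun i _ => by ring
  rw [← Finset.sum_mul, Finset.sum_add_distrib, sum_ene, Finset.sum_const, Finset.card_univ,
    card_Idx, nsmul_eq_mul] at e1
  have e3 : 0 ≤ kap n ^ 2 - kap (n + 1) ^ 2 := by
    have a1 := kap_lt (Nat.lt_succ_self n)
    have a2 := kap_pos (n + 1)
    nlinarith
  have e4 := mul_le_mul_of_nonneg_left hxs e3
  have e5 : (m : ℝ) + 2 = 2 * (dd (n + 1) : ℝ) := by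
    have := congrArg (fun k : ℕ => (k : ℝ)) hm
    unfold NN at this
    push_cast at this
    exact this
  rw [e2]
  push_cast at e1 e4 ⊢
  nlinarith

end Pool.Agent.Lib.CX.Sh
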