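import Mathlib
import Pool.Agent.Lib.CX.Basic
import Pool.Agent.Lib.CX.Integ
import Pool.Agent.Lib.CX.Bdd
import Pool.Agent.Lib.CX.Occ
import Pool.Agent.Lib.CX.Mono
import Pool.Agent.Lib.CX.ShJ

/-! CX, closed shells: determinants of orbitals. -/

set_option autoImplicit false

open MeasureTheory Set Filter Topology

noncomputable section

namespace Pool.Agent.Lib.CX.Sh

variable {M : ℕ}

/-- sign of a permutation -/
def sg (σ : Equiv.Perm (Fin M)) : ℝ := (((Equiv.Perm.sign σ : ℤˣ) : ℤ) : ℝ)

theorem sg_sq (σ : Equiv.Perm (Fin M)) : sg σ * sg σ = 1 := OccAux.sign_mul_self σ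

theorem sg_mul (σ τ : Equiv.Perm (Fin M)) : sg (σ * τ) = sg σ * sg τ := by
  unfold sg
  rw [Equiv.Perm.sign_mul]
  push_cast
  ring

/-- products of one-particle functions -/
theorem slater_int (A B : Fin M → Fin M → Fin 2 → R3 → ℝ)
    (hint : ∀ p q r b, Integrable (fun u => A p q b u * B p r b u)) :
    ∑ s : Fin M → Fin 2, ∫ x : X M, (∑ σ : Equiv.Perm (Fin M), sg σ * ∏ p, A p (σ p) (s p) (x p))
      * (∑ τ : Equiv.Perm (Fin M), sg τ * ∏ p, B p (τ p) (s p) (x p))
      = ∑ σ : Equiv.Perm (Fin M), ∑ τ : Equiv.Perm (Fin M),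
        sg σ * sg τ * ∏ p, ∑ b : Fin 2, ∫ u, A p (σ p) b u * B p (τ p) b u := by
  have h1 : ∀ (s : Fin M → Fin 2) (σ τ : Equiv.Perm (Fin M)), Integrable (fun x : X M =>
      sg σ * sg τ * ∏ p, (A p (σ p) (s p) (x p) * B p (τ p) (s p) (x p))) := by
    intro s σ τ
    refine Integrable.const_mul ?_ _
    exact Integrable.fintype_prod (f := fun p u => A p (σ p) (s p) u * B p (τ p) (s p) u)
      (fun p => hint p (σ p) (τ p) (s p))
  have h2 : ∀ s : Fin M → Fin 2, ∫ x : X M,
      (∑ σ : Equiv.Perm (Fin M), sg σ * ∏ p, A p (σ p) (s p) (x p))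
      * (∑ τ : Equiv.Perm (Fin M), sg τ * ∏ p, B p (τ p) (s p) (x p))
      = ∑ σ : Equiv.Perm (Fin M), ∑ τ : Equiv.Perm (Fin M),
        sg σ * sg τ * ∏ p, ∫ u, A p (σ p) (s p) u * B p (τ p) (s p) u := by
    intro s
    have e1 : ∀ x : X M, (∑ σ : Equiv.Perm (Fin M), sg σ * ∏ p, A p (σ p) (s p) (x p))
        * (∑ τ : Equiv.Perm (Fin M), sg τ * ∏ p, B p (τ p) (s p) (x p))
        = ∑ σ : Equiv.Perm (Fin M), ∑ τ : Equiv.Perm (Fin M),
          sg σ * sg τ * ∏ p, (A p (σ p) (s p) (x p) * B p (τ p) (s p) (x p)) := by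
      intro x
      rw [Finset.sum_mul_sum]
      refine Finset.sum_congr rfl fun σ _ => Finset.sum_congr rfl fun τ _ => ?_
      rw [Finset.prod_mul_distrib]
      ring
    rw [integral_congr_ae (Eventually.of_forall e1),
      integral_finsetSum _ (fun σ _ => integrable_finsetSum _ (fun τ _ => h1 s σ τ))]
    refine Finset.sum_congr rfl fun σ _ => ?_
    rw [integral_finsetSum _ (fun τ _ => h1 s σ τ)]
    refine Finset.sum_congr rfl fun τ _ => ?_
    rw [integral_const_mul]
    congr 1
    exact integral_fintype_prod_volume_eq_prod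
      (fun p u => A p (σ p) (s p) u * B p (τ p) (s p) u)
  rw [Finset.sum_congr rfl fun s _ => h2 s, Finset.sum_comm]
  refine Finset.sum_congr rfl fun σ _ => ?_
  rw [Finset.sum_comm]
  refine Finset.sum_congr rfl fun τ _ => ?_
  rw [← Finset.mul_sum]
  congr 1
  have h3 := Finset.prod_univ_sum (fun _ : Fin M => (Finset.univ : Finset (Fin 2)))
    (fun p b => ∫ u, A p (σ p) b u * B p (τ p) b u)
  rw [h3, Fintype.piFinset_univ]

variable (f : Fin M → TF) (a : Fin M → Fin 2)

/-- spin orbital -/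
def gg (q : Fin M) (b : Fin 2) (u : R3) : ℝ := if b = a q then (f q : R3 → ℝ) u else 0

/-- derivative of a spin orbital -/
def dgg (k : Fin 3) (q : Fin M) (b : Fin 2) (u : R3) : ℝ := if b = a q then td k (f q) u else 0

/-- the determinant -/
def sla (s : Fin M → Fin 2) (x : X M) : ℝ :=
  ∑ σ : Equiv.Perm (Fin M), sg σ * ∏ p, gg f a (σ p) (s p) (x p)

theorem gg_smooth (q : Fin M) (b : Fin 2) : ContDiff ℝ (⊤ : ℕ∞) (gg f a q b) := by
  unfold gg
  by_cases h : b = a q
  · simp only [h, if_true]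
    exact TF_smooth (f q)
  · simp only [h, if_false]
    exact contDiff_const

theorem gg_cpt (q : Fin M) (b : Fin 2) : HasCompactSupport (gg f a q b) := by
  unfold gg
  by_cases h : b = a q
  · simp only [h, if_true]
    exact TF_cpt (f q)
  · simp only [h, if_false]
    exact HasCompactSupport.zero

theorem gg_deriv (k : Fin 3) (q : Fin M) (b : Fin 2) (u : R3) :
    fderiv ℝ (gg f a q b) u (e3 k) = dgg f a k q b u := by
  unfold gg dgg
  by_cases h : b = a q
  · simp only [h, if_true]
    rfl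
  · simp only [h, if_false]
    simp

theorem exists_radius : ∃ R : ℝ, ∀ (q : Fin M) (b : Fin 2) (u : R3), R < ‖u‖ → gg f a q b u = 0 := by
  have h1 : ∀ (q : Fin M) (b : Fin 2), ∃ R : ℝ, ∀ u : R3, R < ‖u‖ → gg f a q b u = 0 := by
    intro q b
    obtain ⟨R, hR⟩ := (gg_cpt f a q b).isCompact.isBounded.subset_closedBall (0 : R3)
    refine ⟨R, fun u hu => ?_⟩
    by_contra hne
    have h2 := hR (subset_tsupport _ hne)
    rw [mem_closedBall_zero_iff] at h2
    linarith
  choose R hR using h1
  refine ⟨∑ q, ∑ b, |R q b|, fun q b u hu => hR q b u (lt_of_le_of_lt ?_ hu)⟩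
  calc R q b ≤ |R q b| := le_abs_self _
    _ ≤ ∑ b, |R q b| := Finset.single_le_sum (fun b _ => abs_nonneg (R q b)) (Finset.mem_univ b)
    _ ≤ ∑ q, ∑ b, |R q b| := Finset.single_le_sum
        (fun q _ => Finset.sum_nonneg fun b _ => abs_nonneg (R q b)) (Finset.mem_univ q)

theorem sla_adm : Adm M (sla f a) where
  smooth s := by
    unfold sla
    refine ContDiff.sum fun σ _ => contDiff_const.mul ?_
    refine contDiff_prod fun p _ => ?_
    exact (gg_smooth f a (σ p) (s p)).comp (contDiff_apply ℝ R3 p)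
  cpt s := by
    obtain ⟨R, hR⟩ := exists_radius f a
    apply HasCompactSupport.intro (isCompact_closedBall (0 : X M) (max R 0))
    intro x hx
    rw [mem_closedBall_zero_iff, not_le] at hx
    have h1 : ∃ p, max R 0 < ‖x p‖ := by
      by_contra h
      push Not at h
      have := (pi_norm_le_iff_of_nonneg (le_max_right R 0)).2 h
      linarith
    obtain ⟨p, hp⟩ := h1
    unfold sla
    apply Finset.sum_eq_zero
    intro σ _
    rw [Finset.prod_eq_zero (Finset.mem_univ p), mul_zero]
    exact hR _ _ _ (lt_of_le_of_lt (le_max_left _ _) hp)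
  anti τ s x := by
    unfold sla
    rw [Finset.mul_sum]
    refine Fintype.sum_equiv (Equiv.mulRight τ⁻¹) _ _ fun σ => ?_
    have h1 : ∏ p, gg f a (σ p) ((s ∘ τ) p) ((x ∘ τ) p)
        = ∏ p, gg f a ((Equiv.mulRight τ⁻¹ σ) p) (s p) (x p) := by
      refine Fintype.prod_equiv τ _ _ fun p => ?_
      show gg f a (σ p) (s (τ p)) (x (τ p)) = gg f a ((σ * τ⁻¹) (τ p)) (s (τ p)) (x (τ p))
      rw [Equiv.Perm.mul_apply]
      simp
    rw [h1, ← mul_assoc]
    congr 1
    show sg σ = sg τ * sg (σ * τ⁻¹)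
    have h2 : σ = (σ * τ⁻¹) * τ := by group
    conv_lhs => rw [h2, sg_mul]
    ring

/-- overlap of spin orbitals -/
def Sm (q r : Fin M) : ℝ := if a q = a r then fA (Ph (f q)) (Ph (f r)) else 0
/-- kinetic matrix element -/
def Tm (k : Fin 3) (q r : Fin M) : ℝ :=
  if a q = a r then inner ℝ ((Ph (f q)).2.1 k) ((Ph (f r)).2.1 k) else 0
/-- Coulomb matrix element -/
def Cm (q r : Fin M) : ℝ := if a q = a r then fC (Ph (f q)) (Ph (f r)) else 0

theorem sum_spin_two (F : R3 → ℝ) (q r : Fin M) (G H : R3 → ℝ)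
    (hF : ∀ u, F u = G u * H u) :
    ∑ b : Fin 2, ∫ u, (if b = a q then G u else 0) * (if b = a r then H u else 0)
      = if a q = a r then ∫ u, F u else 0 := by
  by_cases h : a q = a r
  · rw [if_pos h, Finset.sum_eq_single (a q)]
    · refine integral_congr_ae (Eventually.of_forall fun u => ?_)
      show (if a q = a q then G u else 0) * (if a q = a r then H u else 0) = F u
      rw [if_pos rfl, if_pos h, hF]
    · intro b _ hb
      have h1 : ∀ u : R3, (if b = a q then G u else 0) * (if b = a r then H u else 0) = 0 := by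
        intro u
        rw [if_neg hb, zero_mul]
      simp only [h1, integral_zero]
    · intro h1
      exact (h1 (Finset.mem_univ _)).elim
  · rw [if_neg h]
    apply Finset.sum_eq_zero
    intro b _
    have h1 : ∀ u : R3, (if b = a q then G u else 0) * (if b = a r then H u else 0) = 0 := by
      intro u
      by_cases hb : b = a q
      · have hb2 : b ≠ a r := fun h2 => h (hb ▸ h2)
        rw [if_neg hb2, mul_zero]
      · rw [if_neg hb, zero_mul]
    simp only [h1, integral_zero]

theorem sum_gg (q r : Fin M) : ∑ b : Fin 2, ∫ u, gg f a q b u * gg f a r b u = Sm f a q r := by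
  unfold gg Sm
  have h1 : fA (Ph (f q)) (Ph (f r)) = ∫ u, (f q : R3 → ℝ) u * (f r : R3 → ℝ) u :=
    ip_toLp (memLp_TF (f q)) (memLp_TF (f r))
  rw [h1]
  exact sum_spin_two a _ q r _ _ fun _ => rfl

theorem sum_dgg (k : Fin 3) (q r : Fin M) :
    ∑ b : Fin 2, ∫ u, dgg f a k q b u * dgg f a k r b u = Tm f a k q r := by
  unfold dgg Tm
  have h1 : inner ℝ ((Ph (f q)).2.1 k) ((Ph (f r)).2.1 k) = ∫ u, td k (f q) u * td k (f r) u :=
    ip_toLp (memLp_td k (f q)) (memLp_td k (f r))
  rw [h1]
  exact sum_spin_two a _ q r _ _ fun _ => rfl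

theorem sum_cgg (q r : Fin M) :
    ∑ b : Fin 2, ∫ u, (1 / ‖u‖ * gg f a q b u) * gg f a r b u = Cm f a q r := by
  unfold gg Cm
  have h1 : fC (Ph (f q)) (Ph (f r)) = ∫ u, (wt u * (f q : R3 → ℝ) u) * (wt u * (f r : R3 → ℝ) u) :=
    ip_toLp (memLp_wtTF (f q)) (memLp_wtTF (f r))
  rw [h1]
  have h2 : ∀ (b : Fin 2) (u : R3), (1 / ‖u‖ * (if b = a q then (f q : R3 → ℝ) u else 0))
      * (if b = a r then (f r : R3 → ℝ) u else 0)
      = (if b = a q then 1 / ‖u‖ * (f q : R3 → ℝ) u else 0)
        * (if b = a r then (f r : R3 → ℝ) u else 0) := by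
    intro b u
    split_ifs <;> ring
  simp only [h2]
  refine sum_spin_two a _ q r _ _ fun u => ?_
  rw [← wt_sq]
  ring

theorem gg_int (q r : Fin M) (b : Fin 2) : Integrable (fun u => gg f a q b u * gg f a r b u) := by
  have h1 : MemLp (gg f a q b) 2 :=
    (gg_smooth f a q b).continuous.memLp_of_hasCompactSupport (gg_cpt f a q b)
  have h2 : MemLp (gg f a r b) 2 :=
    (gg_smooth f a r b).continuous.memLp_of_hasCompactSupport (gg_cpt f a r b)
  exact h1.integrable_mul h2

theorem dgg_memLp (k : Fin 3) (q : Fin M) (b : Fin 2) : MemLp (dgg f a k q b) 2 := by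
  unfold dgg
  by_cases h : b = a q
  · simp only [h, if_true]
    exact memLp_td k (f q)
  · simp only [h, if_false]
    exact MemLp.zero

theorem cgg_int (q r : Fin M) (b : Fin 2) :
    Integrable (fun u => (1 / ‖u‖ * gg f a q b u) * gg f a r b u) := by
  have h1 := integrable_inv_norm (f := fun u => gg f a q b u * gg f a r b u)
    ((gg_smooth f a q b).continuous.mul (gg_smooth f a r b).continuous)
    ((gg_cpt f a q b).mul_right)
  refine h1.congr (Eventually.of_forall fun u => ?_)
  show 1 / ‖u‖ * (gg f a q b u * gg f a r b u) = _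
  ring

theorem sla_nrm : nrm (sla f a) = ∑ σ : Equiv.Perm (Fin M), ∑ τ : Equiv.Perm (Fin M),
    sg σ * sg τ * ∏ p, Sm f a (σ p) (τ p) := by
  unfold nrm
  have h1 := slater_int (fun _ => gg f a) (fun _ => gg f a) (fun _ q r b => gg_int f a q r b)
  simp only [sum_gg] at h1
  rw [← h1]
  refine Finset.sum_congr rfl fun s _ => integral_congr_ae (Eventually.of_forall fun x => ?_)
  show (sla f a s x) ^ 2 = sla f a s x * sla f a s x
  ring

theorem sla_deriv (s : Fin M → Fin 2) (x : X M) (i : Fin M) (k : Fin 3) :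
    fderiv ℝ (sla f a s) x (ed i k) = ∑ σ : Equiv.Perm (Fin M), sg σ *
      ∏ p, (if p = i then dgg f a k else gg f a) (σ p) (s p) (x p) := by
  have h1 : ∀ (σ : Equiv.Perm (Fin M)), HasFDerivAt
      (fun x : X M => ∏ p, gg f a (σ p) (s p) (x p))
      (∑ p, (∏ j ∈ Finset.univ.erase p, gg f a (σ j) (s j) (x j)) •
        ((fderiv ℝ (gg f a (σ p) (s p)) (x p)).comp
          (ContinuousLinearMap.proj (R := ℝ) (φ := fun _ : Fin M => R3) p))) x := by
    intro σ
    refine HasFDerivAt.finsetProd fun p _ => ?_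
    exact (((gg_smooth f a (σ p) (s p)).differentiable (by simp)) (x p)).hasFDerivAt.comp x
      (ContinuousLinearMap.proj (R := ℝ) (φ := fun _ : Fin M => R3) p).hasFDerivAt
  have h2 : HasFDerivAt (sla f a s) (∑ σ : Equiv.Perm (Fin M), sg σ •
      (∑ p, (∏ j ∈ Finset.univ.erase p, gg f a (σ j) (s j) (x j)) •
        ((fderiv ℝ (gg f a (σ p) (s p)) (x p)).comp
          (ContinuousLinearMap.proj (R := ℝ) (φ := fun _ : Fin M => R3) p)))) x := by
    unfold sla
    exact HasFDerivAt.fun_sum fun σ _ => (h1 σ).const_mul (sg σ)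
  rw [h2.fderiv, _root_.sum_apply]
  refine Finset.sum_congr rfl fun σ _ => ?_
  rw [_root_.smul_apply, _root_.sum_apply, smul_eq_mul]
  congr 1
  rw [Finset.sum_eq_single i]
  · rw [_root_.smul_apply, ContinuousLinearMap.comp_apply, ContinuousLinearMap.proj_apply,
      smul_eq_mul]
    have h3 : (ed i k : X M) i = e3 k := by simp [ed]
    rw [h3, gg_deriv, ← Finset.prod_erase_mul _ _ (Finset.mem_univ i), if_pos rfl]
    congr 1
    refine Finset.prod_congr rfl fun p hp => ?_
    rw [if_neg (Finset.ne_of_mem_erase hp)]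
  · intro p _ hp
    rw [_root_.smul_apply, ContinuousLinearMap.comp_apply, ContinuousLinearMap.proj_apply]
    have h3 : (ed i k : X M) p = 0 := by
      unfold ed
      rw [Pi.single_eq_of_ne hp]
    rw [h3, map_zero, smul_zero]
  · intro h
    exact (h (Finset.mem_univ i)).elim

theorem sla_kin : kin (sla f a) = ∑ i : Fin M, ∑ k : Fin 3,
    ∑ σ : Equiv.Perm (Fin M), ∑ τ : Equiv.Perm (Fin M),
    sg σ * sg τ * ∏ p, (if p = i then Tm f a k else Sm f a) (σ p) (τ p) := by
  have hadm := sla_adm f a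
  have h1 : ∀ (i : Fin M) (k : Fin 3), ∑ s : Fin M → Fin 2, ∫ x : X M,
      (fderiv ℝ (sla f a s) x (ed i k)) ^ 2
      = ∑ σ : Equiv.Perm (Fin M), ∑ τ : Equiv.Perm (Fin M),
        sg σ * sg τ * ∏ p, (if p = i then Tm f a k else Sm f a) (σ p) (τ p) := by
    intro i k
    have h2 := slater_int (fun p => if p = i then dgg f a k else gg f a)
      (fun p => if p = i then dgg f a k else gg f a) (fun p q r b => by
        by_cases hp : p = i
        · simp only [hp, if_true]
          exact (dgg_memLp f a k q b).integrable_mul (dgg_memLp f a k r b)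
        · simp only [hp, if_false]
          exact gg_int f a q r b)
    have h3 : ∀ (p : Fin M) (q r : Fin M), ∑ b : Fin 2, ∫ u,
        (if p = i then dgg f a k else gg f a) q b u * (if p = i then dgg f a k else gg f a) r b u
        = (if p = i then Tm f a k else Sm f a) q r := by
      intro p q r
      by_cases hp : p = i
      · simp only [hp, if_true]
        exact sum_dgg f a k q r
      · simp only [hp, if_false]
        exact sum_gg f a q r
    simp only [h3] at h2
    rw [← h2]
    refine Finset.sum_congr rfl fun s _ => integral_congr_ae (Eventually.of_forall fun x => ?_)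
    show (fderiv ℝ (sla f a s) x (ed i k)) ^ 2 = _
    rw [sla_deriv]
    ring
  have hI : ∀ (s : Fin M → Fin 2) (i : Fin M) (k : Fin 3),
      Integrable (fun x : X M => (fderiv ℝ (sla f a s) x (ed i k)) ^ 2) := by
    intro s i k
    have hd : Continuous fun x : X M => fderiv ℝ (sla f a s) x (ed i k) :=
      ((hadm.smooth s).continuous_fderiv (by simp)).clm_apply continuous_const
    have hc : HasCompactSupport fun x : X M => fderiv ℝ (sla f a s) x (ed i k) :=
      ((hadm.cpt s).fderiv (𝕜 := ℝ)).comp_left (g := fun L : X M →L[ℝ] ℝ => L (ed i k)) (by simp)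
    have hd2 : Continuous fun x : X M => (fderiv ℝ (sla f a s) x (ed i k)) ^ 2 := hd.pow 2
    exact hd2.integrable_of_hasCompactSupport
      (hc.comp_left (g := fun t : ℝ => t ^ 2) (by norm_num))
  have h4 : kin (sla f a) = ∑ s : Fin M → Fin 2, ∑ i : Fin M, ∑ k : Fin 3,
      ∫ x : X M, (fderiv ℝ (sla f a s) x (ed i k)) ^ 2 := by
    unfold kin kind
    refine Finset.sum_congr rfl fun s _ => ?_
    rw [integral_finsetSum _ fun i _ => integrable_finsetSum _ fun k _ => hI s i k]
    refine Finset.sum_congr rfl fun i _ => ?_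
    rw [integral_finsetSum _ fun k _ => hI s i k]
  rw [h4, Finset.sum_comm]
  refine Finset.sum_congr rfl fun i _ => ?_
  rw [Finset.sum_comm]
  exact Finset.sum_congr rfl fun k _ => h1 i k

theorem sla_att : att (sla f a) = ∑ i : Fin M,
    ∑ σ : Equiv.Perm (Fin M), ∑ τ : Equiv.Perm (Fin M),
    sg σ * sg τ * ∏ p, (if p = i then Cm f a else Sm f a) (σ p) (τ p) := by
  have hadm := sla_adm f a
  have h1 : ∀ (i : Fin M), ∑ s : Fin M → Fin 2, ∫ x : X M, 1 / ‖x i‖ * (sla f a s x) ^ 2
      = ∑ σ : Equiv.Perm (Fin M), ∑ τ : Equiv.Perm (Fin M),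
        sg σ * sg τ * ∏ p, (if p = i then Cm f a else Sm f a) (σ p) (τ p) := by
    intro i
    have h2 := slater_int (fun p => if p = i then (fun q b u => 1 / ‖u‖ * gg f a q b u) else gg f a)
      (fun _ => gg f a) (fun p q r b => by
        by_cases hp : p = i
        · simp only [hp, if_true]
          exact cgg_int f a q r b
        · simp only [hp, if_false]
          exact gg_int f a q r b)
    have h3 : ∀ (p : Fin M) (q r : Fin M), ∑ b : Fin 2, ∫ u,
        (if p = i then (fun q b u => 1 / ‖u‖ * gg f a q b u) else gg f a) q b u * gg f a r b u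
        = (if p = i then Cm f a else Sm f a) q r := by
      intro p q r
      by_cases hp : p = i
      · simp only [hp, if_true]
        exact sum_cgg f a q r
      · simp only [hp, if_false]
        exact sum_gg f a q r
    simp only [h3] at h2
    rw [← h2]
    refine Finset.sum_congr rfl fun s _ => integral_congr_ae (Eventually.of_forall fun x => ?_)
    show 1 / ‖x i‖ * (sla f a s x) ^ 2 = _
    have h5 : ∀ σ : Equiv.Perm (Fin M), ∏ p, (if p = i then
        (fun q b (u : R3) => 1 / ‖u‖ * gg f a q b u) else gg f a) (σ p) (s p) (x p)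
        = 1 / ‖x i‖ * ∏ p, gg f a (σ p) (s p) (x p) := by
      intro σ
      rw [← Finset.prod_erase_mul _ _ (Finset.mem_univ i), if_pos rfl,
        ← Finset.prod_erase_mul _ _ (Finset.mem_univ i)]
      have h6 : ∏ p ∈ Finset.univ.erase i, (if p = i then
          (fun q b (u : R3) => 1 / ‖u‖ * gg f a q b u) else gg f a) (σ p) (s p) (x p)
          = ∏ p ∈ Finset.univ.erase i, gg f a (σ p) (s p) (x p) := by
        refine Finset.prod_congr rfl fun p hp => ?_
        rw [if_neg (Finset.ne_of_mem_erase hp)]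
      rw [h6]
      ring
    simp only [h5]
    unfold sla
    have h7 : ∑ σ : Equiv.Perm (Fin M), sg σ * (1 / ‖x i‖ * ∏ p, gg f a (σ p) (s p) (x p))
        = 1 / ‖x i‖ * ∑ σ : Equiv.Perm (Fin M), sg σ * ∏ p, gg f a (σ p) (s p) (x p) := by
      rw [Finset.mul_sum]
      exact Finset.sum_congr rfl fun σ _ => by ring
    rw [h7]
    ring
  rw [att_eq hadm]
  exact Finset.sum_congr rfl fun i _ => h1 i

end Pool.Agent.Lib.CX.Sh
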