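import Mathlib
import Pool.Agent.Lib.CX.Basic
import Pool.Agent.Lib.CX.Bdd
import Pool.Agent.Lib.CX.Mono
import Pool.Agent.Lib.CX.ShD
import Pool.Agent.Lib.CX.ShH
import Pool.Agent.Lib.CX.ShJ
import Pool.Agent.Lib.CX.ShK

/-! CX, closed shells: upper bound for the free energy of closed shells. -/

set_option autoImplicit false

open MeasureTheory Set Filter Topology

noncomputable section

namespace Pool.Agent.Lib.CX.Sh

/-- Kronecker delta -/
def dl {M : ℕ} (q r : Fin M) : ℝ := if q = r then 1 else 0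

theorem perm_eq_of_off {M : ℕ} {σ τ : Equiv.Perm (Fin M)} {i : Fin M}
    (h : ∀ p, p ≠ i → σ p = τ p) : σ = τ := by
  have h1 : σ i = τ i := by
    obtain ⟨j, hj⟩ := σ.surjective (τ i)
    by_cases hji : j = i
    · rw [← hji, hj, hji]
    · have h2 := h j hji
      rw [hj] at h2
      exact (hji (τ.injective h2).symm).elim
  ext p
  by_cases hp : p = i
  · rw [hp, h1]
  · rw [h p hp]

theorem dl_prod {M : ℕ} (F : Fin M → Fin M → ℝ) (σ τ : Equiv.Perm (Fin M)) (i : Fin M) :
    ∏ p, (if p = i then F else dl) (σ p) (τ p) = if σ = τ then F (σ i) (σ i) else 0 := by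
  by_cases h : σ = τ
  · subst h
    rw [if_pos rfl, ← Finset.prod_erase_mul _ _ (Finset.mem_univ i), if_pos rfl,
      Finset.prod_eq_one, one_mul]
    intro p hp
    rw [if_neg (Finset.ne_of_mem_erase hp)]
    unfold dl
    rw [if_pos rfl]
  · rw [if_neg h]
    have h1 : ∃ p, p ≠ i ∧ σ p ≠ τ p := by
      by_contra h2
      push Not at h2
      exact h (perm_eq_of_off h2)
    obtain ⟨p, hp, hp2⟩ := h1
    apply Finset.prod_eq_zero (Finset.mem_univ p)
    rw [if_neg hp]
    unfold dl
    rw [if_neg hp2]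

theorem dl_prod' {M : ℕ} (σ τ : Equiv.Perm (Fin M)) :
    ∏ p, dl (σ p) (τ p) = if σ = τ then 1 else 0 := by
  by_cases h : σ = τ
  · subst h
    rw [if_pos rfl]
    apply Finset.prod_eq_one
    intro p _
    unfold dl
    rw [if_pos rfl]
  · rw [if_neg h]
    have h1 : ∃ p, σ p ≠ τ p := by
      by_contra h2
      push Not at h2
      exact h (Equiv.ext h2)
    obtain ⟨p, hp⟩ := h1
    apply Finset.prod_eq_zero (Finset.mem_univ p)
    unfold dl
    rw [if_neg hp]

theorem sum_sg {M : ℕ} (G : Equiv.Perm (Fin M) → ℝ) :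
    ∑ σ : Equiv.Perm (Fin M), ∑ τ : Equiv.Perm (Fin M), sg σ * sg τ * (if σ = τ then G σ else 0)
      = ∑ σ, G σ := by
  refine Finset.sum_congr rfl fun σ _ => ?_
  rw [Finset.sum_eq_single σ]
  · rw [if_pos rfl, sg_sq, one_mul]
  · intro τ _ hτ
    rw [if_neg (Ne.symm hτ), mul_zero]
  · intro h
    exact (h (Finset.mem_univ σ)).elim

variable {M : ℕ}

/-- upper bound from a family of orthonormal limits of test functions -/
theorem eps_upper {f : ℕ → Fin M → TF} {a : Fin M → Fin 2} {φ : Fin M → HH} {e : Fin M → ℝ}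
    (hlim : ∀ q, Tendsto (fun m => Ph (f m q)) atTop (𝓝 (φ q)))
    (horth : ∀ q r, (if a q = a r then fA (φ q) (φ r) else 0) = dl q r)
    (hen : ∀ q, fT (φ q) (φ q) - fC (φ q) (φ q) = e q) :
    eps M 0 ≤ ∑ q, e q := by
  -- limits of the matrix elements
  have hS : ∀ q r, Tendsto (fun m => Sm (f m) a q r) atTop (𝓝 (dl q r)) := by
    intro q r
    rw [← horth q r]
    unfold Sm
    by_cases h : a q = a r
    · simp only [h, if_true]
      exact (continuous_fA.tendsto (φ q, φ r)).comp ((hlim q).prodMk_nhds (hlim r))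
    · simp only [h, if_false]
      exact tendsto_const_nhds
  have hT : ∀ k q r, Tendsto (fun m => Tm (f m) a k q r) atTop
      (𝓝 (if a q = a r then inner ℝ ((φ q).2.1 k) ((φ r).2.1 k) else 0)) := by
    intro k q r
    unfold Tm
    by_cases h : a q = a r
    · simp only [h, if_true]
      have hc : Continuous fun p : HH × HH => inner ℝ (p.1.2.1 k) (p.2.2.1 k) := by fun_prop
      exact (hc.tendsto (φ q, φ r)).comp ((hlim q).prodMk_nhds (hlim r))
    · simp only [h, if_false]
      exact tendsto_const_nhds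
  have hC : ∀ q r, Tendsto (fun m => Cm (f m) a q r) atTop
      (𝓝 (if a q = a r then fC (φ q) (φ r) else 0)) := by
    intro q r
    unfold Cm
    by_cases h : a q = a r
    · simp only [h, if_true]
      exact (continuous_fC.tendsto (φ q, φ r)).comp ((hlim q).prodMk_nhds (hlim r))
    · simp only [h, if_false]
      exact tendsto_const_nhds
  set Ti : Fin 3 → Fin M → Fin M → ℝ := fun k q r =>
    if a q = a r then inner ℝ ((φ q).2.1 k) ((φ r).2.1 k) else 0 with hTi
  set Ci : Fin M → Fin M → ℝ := fun q r => if a q = a r then fC (φ q) (φ r) else 0 with hCi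
  have hn : Tendsto (fun m => nrm (sla (f m) a)) atTop
      (𝓝 (Fintype.card (Equiv.Perm (Fin M)) : ℝ)) := by
    have h1 : (Fintype.card (Equiv.Perm (Fin M)) : ℝ) = ∑ σ : Equiv.Perm (Fin M),
        ∑ τ : Equiv.Perm (Fin M), sg σ * sg τ * ∏ p, dl (σ p) (τ p) := by
      simp only [dl_prod', sum_sg]
      simp
    rw [h1]
    simp only [sla_nrm]
    exact tendsto_finsetSum _ fun σ _ => tendsto_finsetSum _ fun τ _ =>
      (tendsto_finsetProd _ fun p _ => hS _ _).const_mul _
  have hk : Tendsto (fun m => kin (sla (f m) a)) atTop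
      (𝓝 (∑ i : Fin M, ∑ k : Fin 3, ∑ σ : Equiv.Perm (Fin M), Ti k (σ i) (σ i))) := by
    have h1 : (∑ i : Fin M, ∑ k : Fin 3, ∑ σ : Equiv.Perm (Fin M), Ti k (σ i) (σ i))
        = ∑ i : Fin M, ∑ k : Fin 3, ∑ σ : Equiv.Perm (Fin M), ∑ τ : Equiv.Perm (Fin M),
          sg σ * sg τ * ∏ p, (if p = i then Ti k else dl) (σ p) (τ p) := by
      refine Finset.sum_congr rfl fun i _ => Finset.sum_congr rfl fun k _ => ?_
      simp only [dl_prod]
      rw [sum_sg (fun σ => Ti k (σ i) (σ i))]
    rw [h1]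
    simp only [sla_kin]
    refine tendsto_finsetSum _ fun i _ => tendsto_finsetSum _ fun k _ =>
      tendsto_finsetSum _ fun σ _ => tendsto_finsetSum _ fun τ _ =>
      (tendsto_finsetProd _ fun p _ => ?_).const_mul _
    by_cases hp : p = i
    · simp only [hp, if_true]
      exact hT k _ _
    · simp only [hp, if_false]
      exact hS _ _
  have ha : Tendsto (fun m => att (sla (f m) a)) atTop
      (𝓝 (∑ i : Fin M, ∑ σ : Equiv.Perm (Fin M), Ci (σ i) (σ i))) := by
    have h1 : (∑ i : Fin M, ∑ σ : Equiv.Perm (Fin M), Ci (σ i) (σ i))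
        = ∑ i : Fin M, ∑ σ : Equiv.Perm (Fin M), ∑ τ : Equiv.Perm (Fin M),
          sg σ * sg τ * ∏ p, (if p = i then Ci else dl) (σ p) (τ p) := by
      refine Finset.sum_congr rfl fun i _ => ?_
      simp only [dl_prod]
      rw [sum_sg (fun σ => Ci (σ i) (σ i))]
    rw [h1]
    simp only [sla_att]
    refine tendsto_finsetSum _ fun i _ =>
      tendsto_finsetSum _ fun σ _ => tendsto_finsetSum _ fun τ _ =>
      (tendsto_finsetProd _ fun p _ => ?_).const_mul _
    by_cases hp : p = i
    · simp only [hp, if_true]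
      exact hC _ _
    · simp only [hp, if_false]
      exact hS _ _
  have hle : ∀ m, eps M 0 * nrm (sla (f m) a) ≤ kin (sla (f m) a) - att (sla (f m) a) := by
    intro m
    have h1 := eps_mul_le (le_refl (0 : ℝ)) (sla_adm (f m) a)
    unfold en at h1
    rw [zero_mul, add_zero] at h1
    exact h1
  have hfin := le_of_tendsto_of_tendsto' (hn.const_mul (eps M 0)) (hk.sub ha) hle
  have hsum : (∑ i : Fin M, ∑ k : Fin 3, ∑ σ : Equiv.Perm (Fin M), Ti k (σ i) (σ i))
      - (∑ i : Fin M, ∑ σ : Equiv.Perm (Fin M), Ci (σ i) (σ i))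
      = (Fintype.card (Equiv.Perm (Fin M)) : ℝ) * ∑ q, e q := by
    have h1 : ∀ q, (∑ k, Ti k q q) - Ci q q = e q := by
      intro q
      rw [hTi, hCi]
      simp only [if_true]
      exact hen q
    rw [← Finset.sum_sub_distrib]
    have h2 : ∀ i : Fin M, (∑ k : Fin 3, ∑ σ : Equiv.Perm (Fin M), Ti k (σ i) (σ i))
        - ∑ σ : Equiv.Perm (Fin M), Ci (σ i) (σ i) = ∑ σ : Equiv.Perm (Fin M), e (σ i) := by
      intro i
      rw [Finset.sum_comm, ← Finset.sum_sub_distrib]
      exact Finset.sum_congr rfl fun σ _ => h1 _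
    rw [Finset.sum_congr rfl fun i _ => h2 i, Finset.sum_comm]
    have h3 : ∀ σ : Equiv.Perm (Fin M), ∑ i, e (σ i) = ∑ q, e q := fun σ => Equiv.sum_comp σ e
    rw [Finset.sum_congr rfl fun σ _ => h3 σ, Finset.sum_const, Finset.card_univ, nsmul_eq_mul]
  rw [hsum] at hfin
  have hpos : (0 : ℝ) < Fintype.card (Equiv.Perm (Fin M)) := by
    exact_mod_cast Fintype.card_pos
  rw [mul_comm] at hfin
  exact le_of_mul_le_mul_left hfin hpos

theorem card_spin (n : ℕ) : Fintype.card (Idx n × Fin 2) = NN n := by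
  rw [Fintype.card_prod, card_Idx, Fintype.card_fin]
  unfold NN
  ring

/-- enumeration of the spin orbitals -/
def en2 (n : ℕ) : Fin (NN n) ≃ Idx n × Fin 2 := (Fintype.equivFinOfCardEq (card_spin n)).symm

/-- the free energy of closed shells -/
theorem eps_free_upper (n : ℕ) : eps (NN n) 0 ≤ -(n : ℝ) / 2 := by
  have h1 := eps_upper (M := NN n)
    (f := fun m q => ap (kap (en2 n q).1.1.1) (orbP (en2 n q).1.1.1 (en2 n q).1.2) m)
    (a := fun q => (en2 n q).2) (φ := fun q => orb (en2 n q).1) (e := fun q => ene (en2 n q).1)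
    (fun q => Ph_ap_tendsto (kap_pos (en2 n q).1.1.1) (orbP (en2 n q).1.1.1 (en2 n q).1.2))
    (fun q r => by
      show (if (en2 n q).2 = (en2 n r).2 then fA (orb (en2 n q).1) (orb (en2 n r).1) else 0)
        = dl q r
      rw [orb_orth]
      unfold dl
      by_cases h : q = r
      · rw [h]
        simp
      · rw [if_neg h]
        by_cases h2 : (en2 n q).2 = (en2 n r).2
        · rw [if_pos h2, if_neg]
          intro h3
          exact h ((en2 n).injective (Prod.ext h3 h2))
        · rw [if_neg h2])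
    (fun q => by
      have h2 := orb_eq (en2 n q).1 _ (orb_mem (en2 n q).1)
      rw [orb_orth, if_pos rfl, mul_one] at h2
      exact h2)
  refine h1.trans (le_of_eq ?_)
  rw [Equiv.sum_comp (en2 n) (fun z : Idx n × Fin 2 => ene z.1), Fintype.sum_prod_type]
  simp only [Finset.sum_const, Finset.card_univ, Fintype.card_fin, nsmul_eq_mul]
  rw [← Finset.mul_sum, sum_ene]
  push_cast
  ring

end Pool.Agent.Lib.CX.Sh
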