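import Mathlib
import Pool.Agent.Lib.CX.Basic
import Pool.Agent.Lib.CX.Integ
import Pool.Agent.Lib.CX.Bdd
import Pool.Agent.Lib.CX.Dil
import Pool.Agent.Lib.CX.Mono
import Pool.Agent.Lib.CX.LiebL
import Pool.Agent.Lib.CX.ShJ
import Pool.Agent.Lib.CX.ShL

/-! CX, closed shells: the repulsion and the final estimate. -/

set_option autoImplicit false

open MeasureTheory Set Filter Topology

noncomputable section

namespace Pool.Agent.Lib.CX.Sh

/-- the hydrogen bound around an arbitrary centre -/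
theorem hydrogen_at {f : R3 → ℝ} (hf : ContDiff ℝ 1 f) (hc : HasCompactSupport f) (c : R3) (Z : ℝ)
    (hZ : 0 ≤ Z) :
    Z * (∫ x, 1 / ‖x - c‖ * (f x) ^ 2) - Z ^ 2 / 4 * ∫ x, (f x) ^ 2 ≤ ∫ x, gsq f x := by
  have h1 : ContDiff ℝ 1 (fun x => f (x + c)) := hf.comp (contDiff_id.add contDiff_const)
  have h2 : HasCompactSupport (fun x => f (x + c)) :=
    hc.comp_homeomorph (Homeomorph.addRight c)
  have h3 := hydrogen h1 h2 Z hZ
  have e1 : ∫ x, 1 / ‖x‖ * (f (x + c)) ^ 2 = ∫ x, 1 / ‖x - c‖ * (f x) ^ 2 := by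
    rw [← integral_add_right_eq_self (fun x => 1 / ‖x - c‖ * (f x) ^ 2) c]
    refine integral_congr_ae (Eventually.of_forall fun x => ?_)
    show _ = 1 / ‖x + c - c‖ * (f (x + c)) ^ 2
    rw [add_sub_cancel_right]
  have e2 : ∫ x, (f (x + c)) ^ 2 = ∫ x, (f x) ^ 2 :=
    integral_add_right_eq_self (fun x => (f x) ^ 2) c
  have e3 : ∫ x, gsq (fun x => f (x + c)) x = ∫ x, gsq f x := by
    rw [← integral_add_right_eq_self (fun x => gsq f x) c]
    refine integral_congr_ae (Eventually.of_forall fun x => ?_)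
    show gsq (fun x => f (x + c)) x = gsq f (x + c)
    unfold gsq
    refine Finset.sum_congr rfl fun k _ => ?_
    rw [fderiv_comp_add_right]
  rw [e1, e2, e3] at h3
  exact h3

variable {m : ℕ}

theorem hyd_pair {ψ : (Fin (m + 1) → Fin 2) → X (m + 1) → ℝ} (h : Adm (m + 1) ψ) (Z : ℝ)
    (hZ : 0 ≤ Z) (s : Fin (m + 1) → Fin 2) (j : Fin m) :
    Z * (∫ x : X (m + 1), 1 / ‖x 0 - x j.succ‖ * (ψ s x) ^ 2) - Z ^ 2 / 4 * ∫ x, (ψ s x) ^ 2 ≤
      ∫ x, kinp (ψ s) 0 x := by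
  have i1 := int_kinp h s 0
  have i2 := integrable_inv_sub (cont_sq h s) (cpt_sq h s) (Fin.succ_ne_zero j).symm
  have i3 := int_sq h s
  have e : 0 ≤ ∫ x : X (m + 1), (kinp (ψ s) 0 x - Z * (1 / ‖x 0 - x j.succ‖ * (ψ s x) ^ 2)
      + Z ^ 2 / 4 * (ψ s x) ^ 2) := by
    have i4 : Integrable fun x : X (m + 1) => (kinp (ψ s) 0 x
        - Z * (1 / ‖x 0 - x j.succ‖ * (ψ s x) ^ 2) + Z ^ 2 / 4 * (ψ s x) ^ 2) :=
      (i1.sub (i2.const_mul Z)).add (i3.const_mul _)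
    rw [integral_cons_iter' i4]
    refine integral_nonneg fun y => ?_
    have hs := smooth_slice (h.smooth s) y
    have hc := cpt_slice (h.cpt s) y
    have h1 := hydrogen_at (hs.of_le (by exact_mod_cast le_top)) hc (y j) Z hZ
    have hsq : Continuous fun u : R3 => (ψ s (Fin.cons u y : X (m + 1))) ^ 2 := hs.continuous.pow 2
    have hsc : HasCompactSupport fun u : R3 => (ψ s (Fin.cons u y : X (m + 1))) ^ 2 :=
      hc.comp_left (g := fun r : ℝ => r ^ 2) (by simp)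
    have j2 : Integrable fun u : R3 => 1 / ‖u - y j‖ * (ψ s (Fin.cons u y : X (m + 1))) ^ 2 := by
      have hcomp : Continuous fun u : R3 => (ψ s (Fin.cons (u + y j) y : X (m + 1))) ^ 2 :=
        hsq.comp (continuous_id.add continuous_const)
      have hcomc : HasCompactSupport fun u : R3 => (ψ s (Fin.cons (u + y j) y : X (m + 1))) ^ 2 :=
        hsc.comp_homeomorph (Homeomorph.addRight (y j))
      have j3 := integrable_inv_norm hcomp hcomc
      have j4 := j3.comp_sub_right (y j)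
      refine j4.congr (Eventually.of_forall fun u => ?_)
      show 1 / ‖u - y j‖ * (ψ s (Fin.cons (u - y j + y j) y : X (m + 1))) ^ 2 = _
      rw [sub_add_cancel]
    have j3 : Integrable fun u : R3 => (ψ s (Fin.cons u y : X (m + 1))) ^ 2 :=
      hsq.integrable_of_hasCompactSupport hsc
    have eg : ∀ u : R3, kinp (ψ s) 0 (Fin.cons u y : X (m + 1)) =
        gsq (fun u : R3 => ψ s (Fin.cons u y : X (m + 1))) u := by
      intro u
      unfold kinp gsq
      refine Finset.sum_congr rfl fun k _ => ?_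
      rw [fderiv_cons_zero ((h.smooth s).differentiable (by simp))]
    have j1 : Integrable fun u : R3 => gsq (fun u : R3 => ψ s (Fin.cons u y : X (m + 1))) u :=
      ThreeAux.int_gsq (hs.of_le (by exact_mod_cast le_top)) hc
    change 0 ≤ ∫ u : R3, (kinp (ψ s) 0 (Fin.cons u y : X (m + 1)) -
      Z * (1 / ‖u - y j‖ * (ψ s (Fin.cons u y : X (m + 1))) ^ 2) +
        Z ^ 2 / 4 * (ψ s (Fin.cons u y : X (m + 1))) ^ 2)
    simp only [eg]
    rw [int3_nonneg Z (Z ^ 2 / 4) j1 j2 j3]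
    linarith
  rw [int3_nonneg Z (Z ^ 2 / 4) i1 i2 i3] at e
  linarith

open LiebLAux (rr) in
theorem rep_rr {ψ : (Fin (m + 1) → Fin 2) → X (m + 1) → ℝ} (h : Adm (m + 1) ψ) :
    2 * rep ψ = ((m + 1 : ℕ) : ℝ) * ∑ s, ∫ x : X (m + 1), rr 0 x * (ψ s x) ^ 2 := by
  have hi : ∀ (s : Fin (m + 1) → Fin 2) (i : Fin (m + 1)),
      Integrable (fun x : X (m + 1) => rr i x * (ψ s x) ^ 2) := by
    intro s i
    unfold LiebLAux.rr
    simp only [Finset.sum_mul]
    refine integrable_finsetSum _ fun j _ => ?_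
    by_cases hj : j = i
    · simp only [hj, if_true, zero_mul]
      exact integrable_zero _ _ _
    · simp only [hj, if_false]
      exact integrable_inv_sub (cont_sq h s) (cpt_sq h s) (Ne.symm hj)
  have h1 : 2 * rep ψ = ∑ i : Fin (m + 1), ∑ s, ∫ x : X (m + 1), rr i x * (ψ s x) ^ 2 := by
    unfold rep
    rw [Finset.mul_sum, Finset.sum_comm]
    refine Finset.sum_congr rfl fun s _ => ?_
    rw [← integral_finsetSum _ (fun i _ => hi s i), ← integral_const_mul]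
    refine integral_congr_ae (Eventually.of_forall fun x => ?_)
    show 2 * (repd x * (ψ s x) ^ 2) = ∑ i, rr i x * (ψ s x) ^ 2
    rw [← Finset.sum_mul, ← LiebLAux.repd_eq]
    ring
  have h2 : ∀ i : Fin (m + 1), ∑ s, ∫ x : X (m + 1), rr i x * (ψ s x) ^ 2
      = ∑ s, ∫ x : X (m + 1), rr 0 x * (ψ s x) ^ 2 := by
    intro i
    rw [← integral_perm (Equiv.swap 0 i) (fun s x => rr i x * (ψ s x) ^ 2)]
    refine Finset.sum_congr rfl fun s _ => integral_congr_ae (Eventually.of_forall fun x => ?_)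
    show rr i (x ∘ Equiv.swap 0 i) * (ψ (s ∘ Equiv.swap 0 i) (x ∘ Equiv.swap 0 i)) ^ 2 =
      rr 0 x * (ψ s x) ^ 2
    rw [LiebLAux.rr_perm, LiebLAux.sq_perm0 h, Equiv.swap_apply_right]
  rw [h1, Finset.sum_congr rfl fun i _ => h2 i, Finset.sum_const, Finset.card_univ,
    Fintype.card_fin, nsmul_eq_mul]

/-- upper bound for the repulsion -/
theorem rep_upper {ψ : (Fin (m + 1) → Fin 2) → X (m + 1) → ℝ} (h : Adm (m + 1) ψ) {Z : ℝ}
    (hZ : 0 ≤ Z) :
    2 * (Z * rep ψ) ≤ m * kin ψ + m * ((m + 1 : ℕ) : ℝ) * (Z ^ 2 / 4) * nrm ψ := by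
  have h1 := rep_rr h
  have h2 : ∀ s, Z * ∫ x : X (m + 1), LiebLAux.rr 0 x * (ψ s x) ^ 2
      ≤ m * ((∫ x, kinp (ψ s) 0 x) + Z ^ 2 / 4 * ∫ x, (ψ s x) ^ 2) := by
    intro s
    have e1 : ∀ x : X (m + 1), LiebLAux.rr 0 x * (ψ s x) ^ 2
        = ∑ j : Fin m, 1 / ‖x 0 - x j.succ‖ * (ψ s x) ^ 2 := by
      intro x
      unfold LiebLAux.rr
      rw [Fin.sum_univ_succ, if_pos rfl, zero_add, Finset.sum_mul]
      refine Finset.sum_congr rfl fun j _ => ?_
      rw [if_neg (Fin.succ_ne_zero j)]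
    rw [integral_congr_ae (Eventually.of_forall e1), integral_finsetSum _ (fun j _ =>
      integrable_inv_sub (cont_sq h s) (cpt_sq h s) (Fin.succ_ne_zero j).symm), Finset.mul_sum]
    calc _ ≤ ∑ _j : Fin m, ((∫ x, kinp (ψ s) 0 x) + Z ^ 2 / 4 * ∫ x, (ψ s x) ^ 2) := by
          refine Finset.sum_le_sum fun j _ => ?_
          have := hyd_pair h Z hZ s j
          linarith
      _ = _ := by rw [Finset.sum_const, Finset.card_univ, Fintype.card_fin, nsmul_eq_mul]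
  have h3 : Z * ∑ s, ∫ x : X (m + 1), LiebLAux.rr 0 x * (ψ s x) ^ 2
      ≤ m * ((∑ s, ∫ x, kinp (ψ s) 0 x) + Z ^ 2 / 4 * nrm ψ) := by
    unfold nrm
    rw [Finset.mul_sum, Finset.mul_sum, ← Finset.sum_add_distrib, Finset.mul_sum]
    exact Finset.sum_le_sum fun s _ => h2 s
  have h4 := ThreeAux.kin_eq h
  have h5 : (0 : ℝ) ≤ ((m + 1 : ℕ) : ℝ) := Nat.cast_nonneg _
  have h6 := mul_le_mul_of_nonneg_left h3 h5
  calc 2 * (Z * rep ψ) = Z * (2 * rep ψ) := by ring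
    _ = ((m + 1 : ℕ) : ℝ) * (Z * ∑ s, ∫ x : X (m + 1), LiebLAux.rr 0 x * (ψ s x) ^ 2) := by
        rw [h1]
        ring
    _ ≤ ((m + 1 : ℕ) : ℝ) * (m * ((∑ s, ∫ x, kinp (ψ s) 0 x) + Z ^ 2 / 4 * nrm ψ)) := h6
    _ = m * kin ψ + m * ((m + 1 : ℕ) : ℝ) * (Z ^ 2 / 4) * nrm ψ := by
        rw [h4]
        ring

/-- upper bound for the energy of the closed shells -/
theorem eps_closed {n : ℕ} (hn : NN n = m + 1) {t Z : ℝ} (ht : 0 ≤ t) (hZ : 0 < Z)
    (hn0 : 1 ≤ n) :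
    eps (m + 1) t ≤ -(n : ℝ) / 2
      + t * (m * ((n : ℝ) / 2) / (2 * Z) + m * ((m + 1 : ℕ) : ℝ) * Z / 8) := by
  have hup : eps (m + 1) 0 ≤ -(n : ℝ) / 2 := by
    rw [← hn]
    exact eps_free_upper n
  have hnpos : (0 : ℝ) < n := by exact_mod_cast hn0
  have hneg : eps (m + 1) 0 < 0 := by linarith
  refine le_of_forall_pos_le_add fun δ hδ => ?_
  obtain ⟨ψ, hψ, h1, h2, h3⟩ := exists_virial (le_refl (0 : ℝ)) (eSet_nonempty (m + 1) 0) hneg hδ
  have h4 := free_lower_up n hψ h1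
  have h5 : en 0 ψ = kin ψ - att ψ := by
    unfold en
    ring
  have h6 : kin ψ ≤ (n : ℝ) / 2 := by
    rw [h3, h5]
    rw [hn, sub_self, mul_zero, add_zero] at h4
    linarith
  have h7 := rep_upper hψ hZ.le
  rw [h1, mul_one] at h7
  have h8 : rep ψ ≤ m * ((n : ℝ) / 2) / (2 * Z) + m * ((m + 1 : ℕ) : ℝ) * Z / 8 := by
    have h9 : 2 * (Z * rep ψ) ≤ m * ((n : ℝ) / 2) + m * ((m + 1 : ℕ) : ℝ) * (Z ^ 2 / 4) := by
      have := mul_le_mul_of_nonneg_left h6 (Nat.cast_nonneg (α := ℝ) m)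
      linarith
    have h10 : rep ψ = 2 * (Z * rep ψ) / (2 * Z) := by field_simp
    rw [h10]
    calc 2 * (Z * rep ψ) / (2 * Z)
        ≤ (m * ((n : ℝ) / 2) + m * ((m + 1 : ℕ) : ℝ) * (Z ^ 2 / 4)) / (2 * Z) :=
          div_le_div_of_nonneg_right h9 (by positivity)
      _ = m * ((n : ℝ) / 2) / (2 * Z) + m * ((m + 1 : ℕ) : ℝ) * Z / 8 := by
          field_simp
          ring
  have h9 := eps_mul_le ht hψ
  rw [h1, mul_one] at h9
  have h10 : en t ψ = en 0 ψ + t * rep ψ := by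
    unfold en
    ring
  rw [h10] at h9
  have h11 := mul_le_mul_of_nonneg_left h8 ht
  linarith

/-- lower bounds for the neighbours -/
theorem eps_up_lower {n : ℕ} {t : ℝ} (ht : 0 ≤ t) :
    -(n : ℝ) / 2 - kap n ^ 2 ≤ eps (NN n + 1) t := by
  refine le_eps (eSet_nonempty _ t) fun ψ h h1 => ?_
  have h2 := free_lower_up n h h1
  have h3 := mul_nonneg ht (rep_nonneg ψ)
  unfold en
  push_cast at h2
  linarith

theorem eps_down_lower {n : ℕ} {t : ℝ} (ht : 0 ≤ t) (hm : m + 2 = NN (n + 1)) :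
    -((n + 1 : ℕ) : ℝ) / 2 + kap n ^ 2 ≤ eps (m + 1) t := by
  refine le_eps (eSet_nonempty _ t) fun ψ h h1 => ?_
  have h2 := free_lower_down n h h1 hm
  have h3 := mul_nonneg ht (rep_nonneg ψ)
  unfold en
  linarith

end Pool.Agent.Lib.CX.Sh
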