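import Mathlib
import Pool.Agent.Lib.CX.Basic
import Pool.Agent.Lib.CX.ShM

/-! CX, closed shells: convexity at closed shells, charge one units. -/

set_option autoImplicit false

noncomputable section

namespace Pool.Agent.Lib.CX.Sh

theorem dd_closed (n : ℕ) : 6 * (dd n : ℝ) = n * (n + 1) * (2 * n + 1) := by
  induction n with
  | zero => simp [dd]
  | succ n ih =>
    rw [dd_succ]
    push_cast
    linarith [ih, (by ring : ((n : ℝ) + 1) * (n + 1 + 1) * (2 * (n + 1) + 1)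
      = n * (n + 1) * (2 * n + 1) + 6 * ((n : ℝ) + 1) ^ 2)]

theorem NN_closed (n : ℕ) : 3 * (NN n : ℝ) = n * (n + 1) * (2 * n + 1) := by
  unfold NN
  push_cast
  linarith [dd_closed n]

theorem NN_ge {n : ℕ} (hn : 1 ≤ n) : 2 ≤ NN n := by
  obtain ⟨k, rfl⟩ : ∃ k, n = k + 1 := ⟨n - 1, by omega⟩
  unfold NN
  rw [dd_succ]
  nlinarith [Nat.zero_le (dd k), Nat.zero_le k]

theorem kap_gap {n : ℕ} (hn : 1 ≤ n) : kap (n - 1) ^ 2 - kap n ^ 2
    = (2 * (n : ℝ) + 1) / (4 * (n : ℝ) ^ 2 * ((n : ℝ) + 1) ^ 2) := by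
  obtain ⟨k, rfl⟩ : ∃ k, n = k + 1 := ⟨n - 1, by omega⟩
  unfold kap
  rw [Nat.add_sub_cancel]
  push_cast
  have h1 : (k : ℝ) + 1 ≠ 0 := by positivity
  have h2 : (k : ℝ) + 1 + 1 ≠ 0 := by positivity
  field_simp
  ring

/-- the second difference at closed shells, charge one -/
theorem second_diff {n : ℕ} (hn : 1 ≤ n) {t : ℝ} (ht : 0 ≤ t) :
    2 * eps (NN n) t + ((2 * (n : ℝ) + 1) / (4 * (n : ℝ) ^ 2 * ((n : ℝ) + 1) ^ 2)
      - t * (((NN n : ℝ) - 1) * Real.sqrt ((n : ℝ) * NN n / 2)))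
      ≤ eps (NN n - 1) t + eps (NN n + 1) t := by
  have hN := NN_ge hn
  obtain ⟨k, rfl⟩ : ∃ k, n = k + 1 := ⟨n - 1, by omega⟩
  obtain ⟨m, hm⟩ : ∃ m, NN (k + 1) = m + 2 := ⟨NN (k + 1) - 2, by omega⟩
  have hNr : (NN (k + 1) : ℝ) = (m : ℝ) + 2 := by
    rw [hm]
    push_cast
    ring
  have hNpos : (0 : ℝ) < NN (k + 1) := by
    rw [hNr]
    positivity
  have hnpos : (0 : ℝ) < ((k + 1 : ℕ) : ℝ) := by
    push_cast
    positivity
  -- the optimal parameter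
  set S : ℝ := Real.sqrt (((k + 1 : ℕ) : ℝ) * NN (k + 1) / 2) with hS
  have hS2 : S ^ 2 = ((k + 1 : ℕ) : ℝ) * NN (k + 1) / 2 := Real.sq_sqrt (by positivity)
  have hS0 : 0 < S := Real.sqrt_pos.2 (by positivity)
  have h1 := eps_closed (m := m + 1) (n := k + 1) (t := t) (Z := 2 * S / NN (k + 1)) hm ht
    (by positivity) hn
  have h2 := eps_up_lower (n := k + 1) (t := t) ht
  have h3 := eps_down_lower (m := m) (n := k) (t := t) ht hm.symm
  have h4 := kap_gap hn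
  rw [Nat.add_sub_cancel] at h4
  have e1 : NN (k + 1) - 1 = m + 1 := by omega
  rw [e1, ← h4]
  have e2 : ((m + 1 : ℕ) : ℝ) * (((k + 1 : ℕ) : ℝ) / 2) / (2 * (2 * S / NN (k + 1)))
      + ((m + 1 : ℕ) : ℝ) * ((m + 1 + 1 : ℕ) : ℝ) * (2 * S / NN (k + 1)) / 8
      = (((NN (k + 1) : ℝ) - 1) * S) / 2 := by
    have a1 : ((m + 1 + 1 : ℕ) : ℝ) = NN (k + 1) := by
      rw [hNr]
      push_cast
      ring
    have a2 : ((m + 1 : ℕ) : ℝ) = (NN (k + 1) : ℝ) - 1 := by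
      rw [hNr]
      push_cast
      ring
    rw [a1, a2]
    have a3 : ((NN (k + 1) : ℝ) - 1) * (((k + 1 : ℕ) : ℝ) / 2) / (2 * (2 * S / NN (k + 1)))
        = ((NN (k + 1) : ℝ) - 1) * (((k + 1 : ℕ) : ℝ) * NN (k + 1) / 2) / (4 * S) := by
      field_simp
      ring
    rw [a3, ← hS2]
    field_simp
    ring
  have e3 : eps (m + 1 + 1) t = eps (NN (k + 1)) t := by rw [hm]
  rw [e2, e3] at h1
  linarith

/-- the threshold -/
theorem threshold {n : ℕ} (hn : 1 ≤ n) {Z : ℝ} (hZ : 4 / 5 * ((n : ℝ) * (n + 1)) ^ 4 ≤ Z) :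
    ((NN n : ℝ) - 1) * Real.sqrt ((n : ℝ) * NN n / 2)
      ≤ Z * ((2 * (n : ℝ) + 1) / (4 * (n : ℝ) ^ 2 * ((n : ℝ) + 1) ^ 2)) := by
  have hnpos : (0 : ℝ) < n := by exact_mod_cast hn
  have hN := NN_closed n
  have h1 : Real.sqrt ((n : ℝ) * NN n / 2) ≤ 3 / 5 * (n * (n + 1)) := by
    rw [Real.sqrt_le_left (by positivity)]
    have e1 : (n : ℝ) * NN n / 2 = n ^ 2 * ((n + 1) * (2 * n + 1)) / 6 := by
      have : (NN n : ℝ) = n * (n + 1) * (2 * n + 1) / 3 := by linarith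
      rw [this]
      ring
    rw [e1]
    have e2 : (0 : ℝ) < n ^ 2 * (n + 1) := by positivity
    nlinarith
  have h2 : (0 : ℝ) ≤ Real.sqrt ((n : ℝ) * NN n / 2) := Real.sqrt_nonneg _
  have h3 : (0 : ℝ) < NN n := by
    have := NN_ge hn
    exact_mod_cast (by omega : 0 < NN n)
  have h4 : ((NN n : ℝ) - 1) * Real.sqrt ((n : ℝ) * NN n / 2)
      ≤ NN n * (3 / 5 * (n * (n + 1))) := by
    calc ((NN n : ℝ) - 1) * Real.sqrt ((n : ℝ) * NN n / 2)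
        ≤ NN n * Real.sqrt ((n : ℝ) * NN n / 2) :=
          mul_le_mul_of_nonneg_right (by linarith) h2
      _ ≤ NN n * (3 / 5 * (n * (n + 1))) := mul_le_mul_of_nonneg_left h1 h3.le
  refine h4.trans ?_
  have h5 : (0 : ℝ) ≤ (2 * (n : ℝ) + 1) / (4 * (n : ℝ) ^ 2 * ((n : ℝ) + 1) ^ 2) := by positivity
  refine le_trans (le_of_eq ?_) (mul_le_mul_of_nonneg_right hZ h5)
  have : (NN n : ℝ) = n * (n + 1) * (2 * n + 1) / 3 := by linarith
  rw [this]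
  have h6 : (n : ℝ) + 1 ≠ 0 := by positivity
  field_simp

end Pool.Agent.Lib.CX.Sh
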